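import Pool.Agent.H203.ME.Defs5

set_option autoImplicit false

/-! A crude bound for the weighted number of zeros near a point. -/

open Complex Filter Topology Set MeasureTheory

namespace Pool.Agent.H203.ME

namespace NCLL

lemma summ : Summable fun j : ℤ => 1 / (1 + (j : ℝ) ^ 2) := by
  have h1 : Summable fun n : ℕ => 1 / (1 + (n : ℝ) ^ 2) := by
    rw [← summable_nat_add_iff 1]
    have h2 : Summable fun n : ℕ => 1 / (((n + 1 : ℕ) : ℝ)) ^ 2 :=
      (summable_nat_add_iff 1).2 (Real.summable_one_div_nat_pow.2 (by norm_num))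
    refine Summable.of_nonneg_of_le (fun n => by positivity) (fun n => ?_) h2
    refine one_div_le_one_div_of_le (by positivity) (by linarith)
  refine Summable.of_nat_of_neg (by simpa using h1) ?_
  simpa using h1

/-- the weight on a unit interval -/
lemma wt_le {h x : ℝ} (hh : 0 < h) (hh1 : h ≤ 1) :
    w1 (x / h) ≤ 3 * (1 / (1 + ((⌊x⌋ : ℤ) : ℝ) ^ 2)) := by
  unfold w1
  have h1 : x ^ 2 ≤ (x / h) ^ 2 := by
    rw [div_pow, le_div_iff₀ (by positivity)]
    have : h ^ 2 ≤ 1 := by nlinarith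
    nlinarith [sq_nonneg x]
  have h2 := Int.floor_le x
  have h3 := Int.lt_floor_add_one x
  have h4 : 1 + ((⌊x⌋ : ℤ) : ℝ) ^ 2 ≤ 3 * (1 + x ^ 2) := by
    set j : ℝ := ((⌊x⌋ : ℤ) : ℝ) with hj
    have h5 : j ^ 2 ≤ 2 * x ^ 2 + 2 * (x - j) ^ 2 := by nlinarith [sq_nonneg (x + (x - j))]
    have h6 : (x - j) ^ 2 ≤ 1 := by nlinarith
    nlinarith [sq_nonneg x]
  rw [mul_one_div, div_le_div_iff₀ (by positivity) (by positivity)]
  linarith

end NCLL

open NCLL in
theorem t_NCL : S_NCL := by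
  classical
  obtain ⟨C, hC, hz⟩ := H370.zcount H370.good_zeta
  set S : ℝ := ∑' j : ℤ, 1 / (1 + (j : ℝ) ^ 2) with hS
  have hS0 : 0 ≤ S := tsum_nonneg fun j => by positivity
  refine ⟨6 * C * S + 1, 10, by positivity, le_rfl, ?_⟩
  intro T hT h hh hh1 t
  set Z := H370.Zf riemannZeta T (2 * T) with hZ
  have hlog0 : 0 ≤ Real.log T := Real.log_nonneg (by linarith)
  have hmem : ∀ z ∈ Z, z ∈ H370.zset riemannZeta T (2 * T) := fun z hz' =>
    (H370.mem_Zf H370.good_zeta (by linarith : (1 : ℝ) ≤ T)).1 hz'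
  -- the zeros in a unit interval
  have hfib : ∀ j : ℤ, ∑ s ∈ Z.filter (fun s => ⌊s.im - t⌋ = j), (mz s : ℝ) ≤
      2 * C * Real.log T := by
    intro j
    rcases (Z.filter (fun s => ⌊s.im - t⌋ = j)).eq_empty_or_nonempty with h0 | ⟨s0, hs0⟩
    · rw [h0, Finset.sum_empty]
      positivity
    · rw [Finset.mem_filter] at hs0
      obtain ⟨hs1, hs2⟩ := hs0
      have hs3 := hmem s0 hs1
      have ha : T < s0.im := hs3.2.2.1
      have hb : s0.im ≤ 2 * T := hs3.2.2.2.1
      have h3 := hz s0.im (by linarith)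
      have h4 : Real.log s0.im ≤ 2 * Real.log T := by
        have h5 : Real.log s0.im ≤ Real.log (T ^ 2) := Real.log_le_log (by linarith) (by nlinarith)
        rw [Real.log_pow] at h5
        exact_mod_cast h5
      have h6 : ∑ s ∈ Z.filter (fun s => ⌊s.im - t⌋ = j), (mz s : ℝ) ≤
          (H370.NN riemannZeta (s0.im - 1) (s0.im + 1) : ℝ) := by
        rw [H370.NN_eq H370.good_zeta (show (1 : ℝ) ≤ s0.im - 1 by linarith)]
        push_cast
        refine Finset.sum_le_sum_of_subset_of_nonneg ?_ fun _ _ _ => Nat.cast_nonneg _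
        intro w hw
        rw [Finset.mem_filter] at hw
        rw [H370.mem_Zf H370.good_zeta (by linarith)]
        obtain ⟨hw1, hw2⟩ := hw
        have hw3 := hmem w hw1
        have e1 := Int.floor_le (w.im - t)
        have e2 := Int.lt_floor_add_one (w.im - t)
        have e3 := Int.floor_le (s0.im - t)
        have e4 := Int.lt_floor_add_one (s0.im - t)
        rw [hw2] at e1 e2
        rw [hs2] at e3 e4
        exact ⟨hw3.1, hw3.2.1, by linarith, by linarith, hw3.2.2.2.2⟩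
      calc ∑ s ∈ Z.filter (fun s => ⌊s.im - t⌋ = j), (mz s : ℝ) ≤ _ := h6
        _ ≤ C * Real.log s0.im := h3
        _ ≤ C * (2 * Real.log T) := mul_le_mul_of_nonneg_left h4 hC.le
        _ = 2 * C * Real.log T := by ring
  unfold NW
  rw [← hZ, ← Finset.sum_fiberwise_of_maps_to (s := Z) (t := Z.image fun s => ⌊s.im - t⌋)
    (g := fun s => ⌊s.im - t⌋) (fun s hs => Finset.mem_image_of_mem _ hs)]
  calc ∑ j ∈ Z.image (fun s => ⌊s.im - t⌋), ∑ s ∈ Z with ⌊s.im - t⌋ = j,
        (mz s : ℝ) * w1 ((s.im - t) / h)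
      ≤ ∑ j ∈ Z.image (fun s => ⌊s.im - t⌋), 3 * (1 / (1 + (j : ℝ) ^ 2)) *
          (2 * C * Real.log T) := by
        refine Finset.sum_le_sum fun j _ => ?_
        calc ∑ s ∈ Z with ⌊s.im - t⌋ = j, (mz s : ℝ) * w1 ((s.im - t) / h)
            ≤ ∑ s ∈ Z with ⌊s.im - t⌋ = j, (mz s : ℝ) * (3 * (1 / (1 + (j : ℝ) ^ 2))) := by
              refine Finset.sum_le_sum fun s hs => ?_
              have h1 := wt_le (x := s.im - t) hh hh1
              rw [(Finset.mem_filter.1 hs).2] at h1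
              exact mul_le_mul_of_nonneg_left h1 (Nat.cast_nonneg _)
          _ = 3 * (1 / (1 + (j : ℝ) ^ 2)) * ∑ s ∈ Z with ⌊s.im - t⌋ = j, (mz s : ℝ) := by
              rw [← Finset.sum_mul, mul_comm]
          _ ≤ 3 * (1 / (1 + (j : ℝ) ^ 2)) * (2 * C * Real.log T) :=
              mul_le_mul_of_nonneg_left (hfib j) (by positivity)
    _ = 6 * C * Real.log T * ∑ j ∈ Z.image (fun s => ⌊s.im - t⌋), 1 / (1 + (j : ℝ) ^ 2) := by
        rw [Finset.mul_sum]
        refine Finset.sum_congr rfl fun j _ => ?_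
        ring
    _ ≤ 6 * C * Real.log T * S := by
        refine mul_le_mul_of_nonneg_left ?_ (by positivity)
        exact summ.sum_le_tsum _ fun j _ => by positivity
    _ ≤ (6 * C * S + 1) * Real.log T := by nlinarith

end Pool.Agent.H203.ME
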