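import Pool.Agent.H203.ME.Defs2

set_option autoImplicit false
set_option linter.unusedVariables false

open Complex Filter Topology Set MeasureTheory

namespace Pool.Agent.H203.ME

namespace ZERL

/-! ### from heights to points: an inequality for weighted points -/

/-- the primitive of `|Y|` on `[a, b]`, extended -/
noncomputable def Ph (Y : ℝ → ℝ) (a b x : ℝ) : ℝ :=
  ∫ r in a..x, (Icc a b).indicator (fun r => |Y r|) r

section

variable {Y : ℝ → ℝ} {a b : ℝ} (hY : ContinuousOn Y (Icc a b))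

include hY in
lemma ind_int : Integrable ((Icc a b).indicator (fun r => |Y r|)) := by
  rw [integrable_indicator_iff measurableSet_Icc]
  exact hY.abs.integrableOn_Icc

include hY in
lemma Ph_cont : Continuous (Ph Y a b) :=
  intervalIntegral.continuous_primitive (fun x y => (ind_int hY).intervalIntegrable) a

include hY in
lemma Ph_sub {x y : ℝ} : Ph Y a b y - Ph Y a b x =
    ∫ r in x..y, (Icc a b).indicator (fun r => |Y r|) r := by
  unfold Ph
  rw [sub_eq_iff_eq_add, add_comm, intervalIntegral.integral_add_adjacent_intervals]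
  · exact (ind_int hY).intervalIntegrable
  · exact (ind_int hY).intervalIntegrable

include hY in
lemma Ph_mono {x y : ℝ} (h : x ≤ y) : Ph Y a b x ≤ Ph Y a b y := by
  rw [← sub_nonneg, Ph_sub hY]
  exact intervalIntegral.integral_nonneg h fun r _ => indicator_nonneg (fun _ _ => abs_nonneg _) _

include hY in
lemma Ph_le (hab : a ≤ b) {x : ℝ} (h : a ≤ x) : Ph Y a b x ≤ ∫ r in a..b, |Y r| := by
  unfold Ph
  rw [intervalIntegral.integral_of_le h, intervalIntegral.integral_of_le hab,
    ← integral_Icc_eq_integral_Ioc (x := a) (y := b), ← integral_indicator measurableSet_Icc]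
  exact setIntegral_le_integral (ind_int hY)
    (Eventually.of_forall fun r => indicator_nonneg (fun _ _ => abs_nonneg _) _)

lemma Ph_nonneg {x : ℝ} (h : a ≤ x) : 0 ≤ Ph Y a b x :=
  intervalIntegral.integral_nonneg h fun r _ => indicator_nonneg (fun _ _ => abs_nonneg _) _

include hY in
lemma Ph_sub_eq {x y : ℝ} (hx : a ≤ x) (hxy : x ≤ y) (hy : y ≤ b) :
    Ph Y a b y - Ph Y a b x = ∫ r in x..y, |Y r| := by
  rw [Ph_sub hY]
  refine intervalIntegral.integral_congr fun r hr => ?_
  rw [uIcc_of_le hxy] at hr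
  exact indicator_of_mem (show r ∈ Icc a b from ⟨hx.trans hr.1, hr.2.trans hy⟩) _

include hY in
lemma Ph_shift (hab : a ≤ b) {s : ℝ} (hs : 0 ≤ s) :
    ∫ t in a..b, (Ph Y a b (t + s) - Ph Y a b t) ≤ s * ∫ r in a..b, |Y r| := by
  have hc := Ph_cont hY
  have hi : ∀ x y : ℝ, IntervalIntegrable (Ph Y a b) volume x y := fun x y => hc.intervalIntegrable x y
  have hi' : IntervalIntegrable (fun t => Ph Y a b (t + s)) volume a b :=
    (hc.comp (continuous_add_const s)).intervalIntegrable _ _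
  rw [intervalIntegral.integral_sub hi' (hi _ _),
    intervalIntegral.integral_comp_add_right (fun t => Ph Y a b t) s]
  have h1 := intervalIntegral.integral_add_adjacent_intervals (hi a (a + s)) (hi (a + s) (b + s))
  have h2 := intervalIntegral.integral_add_adjacent_intervals (hi a b) (hi b (b + s))
  have h3 : 0 ≤ ∫ t in a..(a + s), Ph Y a b t :=
    intervalIntegral.integral_nonneg (by linarith) fun t ht => Ph_nonneg ht.1
  have h4 : ∫ t in b..(b + s), Ph Y a b t ≤ ∫ t in b..(b + s), (∫ r in a..b, |Y r|) :=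
    intervalIntegral.integral_mono_on (by linarith) (hi _ _) intervalIntegrable_const
      fun t ht => Ph_le hY hab (hab.trans ht.1)
  rw [intervalIntegral.integral_const, smul_eq_mul, add_sub_cancel_left] at h4
  linarith

end

/-- the indicator of the heights which see the point `γ` -/
noncomputable def dn (s γ t : ℝ) : ℝ := (Ico (γ - s) γ).indicator (fun _ => (1 : ℝ)) t

lemma dn_nonneg (s γ t : ℝ) : 0 ≤ dn s γ t := indicator_nonneg (fun _ _ => zero_le_one) _

lemma dn_int (s γ a b : ℝ) : IntervalIntegrable (dn s γ) volume a b := by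
  have h : IntervalIntegrable (fun _ : ℝ => (1 : ℝ)) volume a b := intervalIntegrable_const
  rw [intervalIntegrable_iff] at h ⊢
  exact h.indicator measurableSet_Ico

lemma dn_mul_int (s γ : ℝ) {a b : ℝ} {g : ℝ → ℂ} (hg : IntervalIntegrable g volume a b) :
    IntervalIntegrable (fun t => (dn s γ t : ℂ) * g t) volume a b := by
  rw [intervalIntegrable_iff] at hg ⊢
  have h : (fun t => (dn s γ t : ℂ) * g t) = (Ico (γ - s) γ).indicator g := by
    funext t
    unfold dn
    by_cases ht : t ∈ Ico (γ - s) γ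
    · rw [indicator_of_mem ht, indicator_of_mem ht]; simp
    · rw [indicator_of_notMem ht, indicator_of_notMem ht]; simp
  rw [h]
  exact hg.indicator measurableSet_Ico

lemma dn_mul_int' (s γ : ℝ) {a b : ℝ} {g : ℝ → ℝ} (hg : IntervalIntegrable g volume a b) :
    IntervalIntegrable (fun t => dn s γ t * g t) volume a b := by
  rw [intervalIntegrable_iff] at hg ⊢
  have h : (fun t => dn s γ t * g t) = (Ico (γ - s) γ).indicator g := by
    funext t
    unfold dn
    by_cases ht : t ∈ Ico (γ - s) γ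
    · rw [indicator_of_mem ht, indicator_of_mem ht]; simp
    · rw [indicator_of_notMem ht, indicator_of_notMem ht]; simp
  rw [h]
  exact hg.indicator measurableSet_Ico

lemma dn_le (s γ : ℝ) (hs : 0 ≤ s) {a b : ℝ} (hab : a ≤ b) : ∫ t in a..b, dn s γ t ≤ s := by
  rw [intervalIntegral.integral_of_le hab]
  unfold dn
  rw [setIntegral_indicator measurableSet_Ico, setIntegral_const, smul_eq_mul, mul_one]
  calc volume.real (Ioc a b ∩ Ico (γ - s) γ) ≤ volume.real (Ico (γ - s) γ) :=
        measureReal_mono inter_subset_right (by simp)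
    _ = s := by rw [Real.volume_real_Ico_of_le (by linarith)]; ring

lemma dn_eq (s γ : ℝ) (hs : 0 ≤ s) {a b : ℝ} (h1 : a + s ≤ γ) (h2 : γ ≤ b) :
    ∫ t in a..b, dn s γ t = s := by
  rw [intervalIntegral.integral_of_le (by linarith), ← integral_Icc_eq_integral_Ioc]
  unfold dn
  rw [setIntegral_indicator measurableSet_Ico, setIntegral_const, smul_eq_mul, mul_one,
    inter_eq_self_of_subset_right, Real.volume_real_Ico_of_le (by linarith)]
  · ring
  · intro t ht
    exact ⟨by linarith [ht.1], by linarith [ht.2]⟩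

lemma sum_ii {E : Type*} [NormedAddCommGroup E] (Z : Finset ℂ) {a b : ℝ} (f : ℂ → ℝ → E)
    (h : ∀ z ∈ Z, IntervalIntegrable (f z) volume a b) :
    IntervalIntegrable (fun t => ∑ z ∈ Z, f z t) volume a b := by
  have h1 := IntervalIntegrable.sum Z h
  have h2 : (∑ z ∈ Z, f z) = fun t => ∑ z ∈ Z, f z t := by
    funext t
    exact Finset.sum_apply t Z f
  rwa [h2] at h1

lemma norm_E (x : ℝ) : ‖cexp (I * (x : ℂ))‖ = 1 := by
  rw [mul_comm]; exact Complex.norm_exp_ofReal_mul_I x

/-- the passage from heights to points -/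
theorem pass (Z : Finset ℂ) (m : ℂ → ℝ) (hm : ∀ z ∈ Z, 0 ≤ m z) (X Y : ℝ → ℝ) (a b s h q : ℝ)
    (hab : a ≤ b) (hs : 0 < s) (hh : 0 < h) (hq : 0 ≤ q)
    (hder : ∀ r ∈ Icc a b, HasDerivAt X (-(h⁻¹ * Y r)) r) (hY : ContinuousOn Y (Icc a b)) :
    ‖(s : ℂ) * (∑ z ∈ Z, (m z : ℂ) * cexp (I * (X z.im : ℂ))) -
      (q : ℂ) * ∫ t in a..b, cexp (I * (X t : ℂ))‖ ≤
    q * (s / h) * (∫ r in a..b, |Y r|) + 3 * (∫ t in a..b, |(∑ z ∈ Z, m z * dn s z.im t) - q|) +
      2 * s * ∑ z ∈ Z.filter (fun z => ¬ (a + s ≤ z.im ∧ z.im ≤ b)), m z := by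
  have hXc : ContinuousOn X (Icc a b) := fun r hr => (hder r hr).continuousAt.continuousWithinAt
  set E : ℝ → ℂ := fun t => cexp (I * (X t : ℂ)) with hE
  have hEc : ContinuousOn E (Icc a b) :=
    (continuousOn_const.mul (Complex.continuous_ofReal.comp_continuousOn hXc)).cexp
  have hEi : IntervalIntegrable E volume a b := by
    apply ContinuousOn.intervalIntegrable
    rwa [uIcc_of_le hab]
  set W : ℝ → ℝ := fun t => h⁻¹ * (Ph Y a b (t + s) - Ph Y a b t) with hW
  have hPc := Ph_cont hY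
  have hWc : Continuous W := by
    rw [hW]
    exact continuous_const.mul ((hPc.comp (continuous_add_const s)).sub hPc)
  have hW0 : ∀ t, 0 ≤ W t := fun t => mul_nonneg (by positivity) (sub_nonneg.2 (Ph_mono hY (by linarith)))
  have hM : Continuous fun t => min 2 (W t) := continuous_const.min hWc
  have hMi : IntervalIntegrable (fun t => min 2 (W t)) volume a b := hM.intervalIntegrable _ _
  -- the increments
  have hinc : ∀ t ∈ Icc a b, ∀ γ ≤ b, t ≤ γ → γ ≤ t + s → |X γ - X t| ≤ W t := by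
    intro t ht γ hγ h1 h2
    have hsub : uIcc t γ ⊆ Icc a b := by
      rw [uIcc_of_le h1]
      exact Icc_subset_Icc ht.1 hγ
    have hi : IntervalIntegrable (fun r => -(h⁻¹ * Y r)) volume t γ := by
      apply ContinuousOn.intervalIntegrable
      exact ((continuousOn_const.mul hY).neg).mono hsub
    have h3 := intervalIntegral.integral_eq_sub_of_hasDerivAt (f := X)
      (f' := fun r => -(h⁻¹ * Y r)) (fun r hr => hder r (hsub hr)) hi
    rw [← h3]
    have h4 : IntervalIntegrable (fun r => h⁻¹ * |Y r|) volume t γ := by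
      apply ContinuousOn.intervalIntegrable
      exact (continuousOn_const.mul hY.abs).mono hsub
    have h5 := intervalIntegral.norm_integral_le_of_norm_le (f := fun r => -(h⁻¹ * Y r)) h1
      (Eventually.of_forall fun r _ => by
        rw [norm_neg, norm_mul, Real.norm_eq_abs, Real.norm_eq_abs, abs_of_pos (inv_pos.2 hh)]) h4
    rw [Real.norm_eq_abs] at h5
    refine h5.trans ?_
    rw [intervalIntegral.integral_const_mul, ← Ph_sub_eq hY ht.1 h1 hγ]
    exact mul_le_mul_of_nonneg_left (by linarith [Ph_mono hY h2]) (by positivity)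
  -- one point
  have hone : ∀ z ∈ Z, ‖(s : ℂ) * E z.im - ∫ t in a..b, (dn s z.im t : ℂ) * E t‖ ≤
      (∫ t in a..b, dn s z.im t * min 2 (W t)) +
        2 * s * (if ¬ (a + s ≤ z.im ∧ z.im ≤ b) then 1 else 0) := by
    intro z hz
    have hpos : 0 ≤ ∫ t in a..b, dn s z.im t * min 2 (W t) :=
      intervalIntegral.integral_nonneg hab fun t _ =>
        mul_nonneg (dn_nonneg _ _ _) (le_min (by norm_num) (hW0 t))
    by_cases hgood : a + s ≤ z.im ∧ z.im ≤ b
    · rw [if_neg (not_not.2 hgood), mul_zero, add_zero]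
      have h1 : (s : ℂ) * E z.im = ∫ t in a..b, (dn s z.im t : ℂ) * E z.im := by
        rw [intervalIntegral.integral_mul_const, intervalIntegral.integral_ofReal,
          dn_eq s z.im hs.le hgood.1 hgood.2]
      rw [h1, ← intervalIntegral.integral_sub (dn_mul_int s z.im intervalIntegrable_const)
        (dn_mul_int s z.im hEi)]
      refine intervalIntegral.norm_integral_le_of_norm_le hab
        (Eventually.of_forall fun t ht => ?_) (dn_mul_int' s z.im hMi)
      rw [← mul_sub, norm_mul, Complex.norm_real, Real.norm_eq_abs, abs_of_nonneg (dn_nonneg _ _ _)]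
      by_cases hmem : t ∈ Ico (z.im - s) z.im
      · refine mul_le_mul_of_nonneg_left (le_min (exp_diff2 _ _) ?_) (dn_nonneg _ _ _)
        exact (exp_diff _ _).trans
          (hinc t ⟨ht.1.le, ht.2⟩ z.im hgood.2 hmem.2.le (by linarith [hmem.1]))
      · unfold dn
        rw [indicator_of_notMem hmem, zero_mul, zero_mul]
    · rw [if_pos hgood, mul_one]
      have h1 : ‖(s : ℂ) * E z.im‖ = s := by
        rw [norm_mul, hE, norm_E, mul_one, Complex.norm_real, Real.norm_eq_abs, abs_of_pos hs]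
      have h2 : ‖∫ t in a..b, (dn s z.im t : ℂ) * E t‖ ≤ ∫ t in a..b, dn s z.im t := by
        refine intervalIntegral.norm_integral_le_of_norm_le hab
          (Eventually.of_forall fun t ht => ?_) (dn_int s z.im a b)
        rw [norm_mul, hE, norm_E, mul_one, Complex.norm_real, Real.norm_eq_abs,
          abs_of_nonneg (dn_nonneg _ _ _)]
      have h3 := dn_le s z.im hs.le hab
      have h4 := norm_sub_le ((s : ℂ) * E z.im) (∫ t in a..b, (dn s z.im t : ℂ) * E t)
      linarith
  -- the sum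
  set n : ℝ → ℝ := fun t => ∑ z ∈ Z, m z * dn s z.im t with hn
  have hni : IntervalIntegrable n volume a b := by
    exact sum_ii Z (fun z t => m z * dn s z.im t) fun z _ => (dn_int s z.im a b).const_mul (m z)
  have hnE : ∫ t in a..b, (n t : ℂ) * E t = ∑ z ∈ Z, (m z : ℂ) * ∫ t in a..b, (dn s z.im t : ℂ) * E t := by
    have h1 : ∀ t, (n t : ℂ) * E t = ∑ z ∈ Z, (m z : ℂ) * ((dn s z.im t : ℂ) * E t) := by
      intro t
      rw [hn]
      push_cast
      rw [Finset.sum_mul]
      exact Finset.sum_congr rfl fun z _ => by ring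
    simp_rw [h1]
    rw [intervalIntegral.integral_finsetSum fun z _ => (dn_mul_int s z.im hEi).const_mul _]
    exact Finset.sum_congr rfl fun z _ => intervalIntegral.integral_const_mul _ _
  have hnM : ∫ t in a..b, n t * min 2 (W t) = ∑ z ∈ Z, m z * ∫ t in a..b, dn s z.im t * min 2 (W t) := by
    have h1 : ∀ t, n t * min 2 (W t) = ∑ z ∈ Z, m z * (dn s z.im t * min 2 (W t)) := by
      intro t
      rw [hn, Finset.sum_mul]
      exact Finset.sum_congr rfl fun z _ => by ring
    simp_rw [h1]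
    rw [intervalIntegral.integral_finsetSum fun z _ => (dn_mul_int' s z.im hMi).const_mul _]
    exact Finset.sum_congr rfl fun z _ => intervalIntegral.integral_const_mul _ _
  have hA : ‖(s : ℂ) * (∑ z ∈ Z, (m z : ℂ) * E z.im) - ∫ t in a..b, (n t : ℂ) * E t‖ ≤
      (∫ t in a..b, n t * min 2 (W t)) +
        2 * s * ∑ z ∈ Z.filter (fun z => ¬ (a + s ≤ z.im ∧ z.im ≤ b)), m z := by
    have h1 : (s : ℂ) * (∑ z ∈ Z, (m z : ℂ) * E z.im) - ∫ t in a..b, (n t : ℂ) * E t =
        ∑ z ∈ Z, (m z : ℂ) * ((s : ℂ) * E z.im - ∫ t in a..b, (dn s z.im t : ℂ) * E t) := by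
      rw [hnE, Finset.mul_sum, ← Finset.sum_sub_distrib]
      exact Finset.sum_congr rfl fun z _ => by ring
    rw [h1, hnM, Finset.sum_filter, Finset.mul_sum, ← Finset.sum_add_distrib]
    refine (norm_sum_le _ _).trans (Finset.sum_le_sum fun z hz => ?_)
    rw [norm_mul, Complex.norm_real, Real.norm_eq_abs, abs_of_nonneg (hm z hz)]
    refine (mul_le_mul_of_nonneg_left (hone z hz) (hm z hz)).trans (le_of_eq ?_)
    split_ifs <;> ring
  have hDi : IntervalIntegrable (fun t => |n t - q|) volume a b :=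
    (hni.sub intervalIntegrable_const).abs
  have hB : ∫ t in a..b, n t * min 2 (W t) ≤
      q * (s / h) * (∫ r in a..b, |Y r|) + 2 * ∫ t in a..b, |n t - q| := by
    have hnMi : IntervalIntegrable (fun t => n t * min 2 (W t)) volume a b := by
      have h1 : (fun t => n t * min 2 (W t)) = fun t => ∑ z ∈ Z, m z * (dn s z.im t * min 2 (W t)) := by
        funext t
        rw [hn, Finset.sum_mul]
        exact Finset.sum_congr rfl fun z _ => by ring
      rw [h1]
      exact sum_ii Z _ fun z _ => (dn_mul_int' s z.im hMi).const_mul _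
    have h1 : ∫ t in a..b, n t * min 2 (W t) ≤ ∫ t in a..b, (q * W t + 2 * |n t - q|) := by
      refine intervalIntegral.integral_mono_on hab hnMi
        (((hWc.intervalIntegrable a b).const_mul q).add (hDi.const_mul 2)) fun t _ => ?_
      have h2 : 0 ≤ min 2 (W t) := le_min (by norm_num) (hW0 t)
      have h3 : min 2 (W t) ≤ 2 := min_le_left _ _
      have h4 : min 2 (W t) ≤ W t := min_le_right _ _
      have h5 : n t - q ≤ |n t - q| := le_abs_self _
      have h6 : 0 ≤ |n t - q| := abs_nonneg _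
      calc n t * min 2 (W t) = q * min 2 (W t) + (n t - q) * min 2 (W t) := by ring
        _ ≤ q * W t + |n t - q| * 2 := by
            refine add_le_add (mul_le_mul_of_nonneg_left h4 hq) ?_
            exact (mul_le_mul_of_nonneg_right h5 h2).trans (mul_le_mul_of_nonneg_left h3 h6)
        _ = _ := by ring
    refine h1.trans ?_
    rw [intervalIntegral.integral_add ((hWc.intervalIntegrable a b).const_mul q) (hDi.const_mul 2),
      intervalIntegral.integral_const_mul]
    have hWi : ∫ t in a..b, W t = h⁻¹ * ∫ t in a..b, (Ph Y a b (t + s) - Ph Y a b t) :=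
      intervalIntegral.integral_const_mul _ _
    have h2i : ∫ t in a..b, 2 * |n t - q| = 2 * ∫ t in a..b, |n t - q| :=
      intervalIntegral.integral_const_mul _ _
    rw [hWi, h2i]
    have h7 := Ph_shift hY hab hs.le
    have h8 : q * (h⁻¹ * ∫ t in a..b, (Ph Y a b (t + s) - Ph Y a b t)) ≤
        q * (h⁻¹ * (s * ∫ r in a..b, |Y r|)) := by gcongr
    have h9 : q * (h⁻¹ * (s * ∫ r in a..b, |Y r|)) = q * (s / h) * (∫ r in a..b, |Y r|) := by
      field_simp
    linarith
  have hC : ‖(∫ t in a..b, (n t : ℂ) * E t) - (q : ℂ) * ∫ t in a..b, E t‖ ≤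
      ∫ t in a..b, |n t - q| := by
    have hnEi : IntervalIntegrable (fun t => (n t : ℂ) * E t) volume a b := by
      have h1 : (fun t => (n t : ℂ) * E t) = fun t => ∑ z ∈ Z, (m z : ℂ) * ((dn s z.im t : ℂ) * E t) := by
        funext t
        rw [hn]
        push_cast
        rw [Finset.sum_mul]
        exact Finset.sum_congr rfl fun z _ => by ring
      rw [h1]
      exact sum_ii Z _ fun z _ => (dn_mul_int s z.im hEi).const_mul _
    rw [← intervalIntegral.integral_const_mul, ← intervalIntegral.integral_sub hnEi (hEi.const_mul _)]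
    refine intervalIntegral.norm_integral_le_of_norm_le hab (Eventually.of_forall fun t _ => ?_) hDi
    rw [← sub_mul, norm_mul, hE, norm_E, mul_one, ← Complex.ofReal_sub, Complex.norm_real,
      Real.norm_eq_abs]
  have hfin := norm_sub_le_norm_sub_add_norm_sub ((s : ℂ) * (∑ z ∈ Z, (m z : ℂ) * E z.im))
    (∫ t in a..b, (n t : ℂ) * E t) ((q : ℂ) * ∫ t in a..b, E t)
  refine hfin.trans ?_
  linarith

/-! ### the statistic -/

lemma Adm_mono {η η' V L : ℝ} {F : ℝ → ℝ} (h : Adm η V L F) (h1 : η ≤ η') (hL : 0 ≤ L) : Adm η' V L F :=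
  ⟨h.c2, h.l1.trans h1, h.l2.trans (mul_le_mul_of_nonneg_right h1 hL), h.va, h.tv.trans h1⟩

lemma int_deriv {F : ℝ → ℝ} (hF : C2c F) : ∫ x, deriv F x = 0 := by
  have hd : Differentiable ℝ F := hF.cd.differentiable (by norm_num)
  have hc : Continuous (deriv F) := hF.cd.continuous_deriv (by norm_num)
  exact integral_eq_zero_of_hasDerivAt_of_integrable (fun x => (hd x).hasDerivAt)
    (hc.integrable_of_hasCompactSupport hF.hcs.deriv) hF.int

lemma XF_hasDeriv {F : ℝ → ℝ} {h : ℝ} (hF : C2c F) (hG : C2c fun x => h * deriv F x) (hh : 0 < h)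
    {T r : ℝ} (hT : 1 ≤ T) (h1 : T + 1 < r) (h2 : r < 2 * T - 1) :
    HasDerivAt (XF F T) (-(h⁻¹ * XF (fun x => h * deriv F x) T r)) r := by
  have hd : Differentiable ℝ F := hF.cd.differentiable (by norm_num)
  have h3 : HasDerivAt (fun t => (∑ s ∈ H370.Zf riemannZeta T (2 * T), (mz s : ℝ) * F (s.im - t)) -
      Real.log T / (2 * Real.pi) * ∫ x : ℝ, F x)
      (∑ s ∈ H370.Zf riemannZeta T (2 * T), (mz s : ℝ) * (deriv F (s.im - r) * -1)) r := by
    refine HasDerivAt.sub_const _ (HasDerivAt.fun_sum fun s _ => ?_)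
    refine HasDerivAt.const_mul _ ?_
    exact HasDerivAt.comp r (hd (s.im - r)).hasDerivAt ((hasDerivAt_id r).const_sub s.im)
  have h4 : -(h⁻¹ * XF (fun x => h * deriv F x) T r) =
      ∑ s ∈ H370.Zf riemannZeta T (2 * T), (mz s : ℝ) * (deriv F (s.im - r) * -1) := by
    rw [XF_eq hG hT h1.le h2.le, integral_const_mul, int_deriv hF, mul_zero, mul_zero, sub_zero,
      Finset.mul_sum, ← Finset.sum_neg_distrib]
    refine Finset.sum_congr rfl fun s _ => ?_
    field_simp
  rw [h4]
  refine h3.congr_of_eventuallyEq ?_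
  filter_upwards [isOpen_Ioo.mem_nhds (show r ∈ Ioo (T + 1) (2 * T - 1) from ⟨h1, h2⟩)] with t ht
  exact XF_eq hF hT ht.1.le ht.2.le

lemma cnt_eq (T s t : ℝ) : cnt T t (t + s) =
    ∑ z ∈ H370.Zf riemannZeta T (2 * T), (mz z : ℝ) * dn s z.im t := by
  unfold cnt dn
  refine Finset.sum_congr rfl fun z _ => ?_
  congr 1
  by_cases h : z.im ∈ Ioc t (t + s)
  · rw [indicator_of_mem h, indicator_of_mem (show t ∈ Ico (z.im - s) z.im from
      ⟨by linarith [h.2], h.1⟩)]
  · rw [indicator_of_notMem h, indicator_of_notMem (show ¬ t ∈ Ico (z.im - s) z.im from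
      fun h' => h ⟨h'.2, by linarith [h'.1]⟩)]

/-! ### counting the zeros near the ends -/

lemma NN_le {C : ℝ} (hC : 0 < C)
    (hz : ∀ t : ℝ, 3 ≤ t → (H370.NN riemannZeta (t - 1) (t + 1) : ℝ) ≤ C * Real.log t) (x : ℝ) (hx : 3 ≤ x)
    (n : ℕ) : (H370.NN riemannZeta x (x + 2 * n) : ℝ) ≤ n * (C * Real.log (x + 2 * n)) := by
  induction n with
  | zero =>
    have h1 : H370.NN riemannZeta x (x + 2 * (0 : ℕ)) = 0 := by
      rw [H370.NN_eq H370.good_zeta (by linarith)]
      refine Finset.sum_eq_zero fun s hs => ?_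
      have h2 := (H370.mem_Zf H370.good_zeta (by linarith)).1 hs
      have h3 := h2.2.2.1
      have h4 := h2.2.2.2.1
      simp only [Nat.cast_zero, mul_zero, add_zero] at h4
      exact absurd h3 (not_lt.2 h4)
    rw [h1]
    simp
  | succ n ih =>
    have hn : (0 : ℝ) ≤ n := Nat.cast_nonneg n
    have h1 := H370.NN_add H370.good_zeta (a := x) (b := x + 2 * n) (c := x + 2 * ((n + 1 : ℕ) : ℝ))
      (by linarith) (by linarith) (by push_cast; linarith)
    rw [h1]
    have h2 := hz (x + 2 * n + 1) (by linarith)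
    have e1 : x + 2 * (n : ℝ) + 1 - 1 = x + 2 * n := by ring
    have e2 : x + 2 * (n : ℝ) + 1 + 1 = x + 2 * ((n + 1 : ℕ) : ℝ) := by push_cast; ring
    rw [e1, e2] at h2
    have h3 : Real.log (x + 2 * n) ≤ Real.log (x + 2 * ((n + 1 : ℕ) : ℝ)) :=
      Real.log_le_log (by linarith) (by push_cast; linarith)
    have h4 : Real.log (x + 2 * n + 1) ≤ Real.log (x + 2 * ((n + 1 : ℕ) : ℝ)) :=
      Real.log_le_log (by linarith) (by push_cast; linarith)
    have h5 : (n : ℝ) * (C * Real.log (x + 2 * n)) ≤ n * (C * Real.log (x + 2 * ((n + 1 : ℕ) : ℝ))) := by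
      gcongr
    have h6 : C * Real.log (x + 2 * n + 1) ≤ C * Real.log (x + 2 * ((n + 1 : ℕ) : ℝ)) := by
      gcongr
    push_cast at *
    linarith

/-- the zeros near the ends of the window -/
lemma bad_le : ∃ C : ℝ, 0 < C ∧ ∀ T s : ℝ, 100 ≤ T → 0 < s → s ≤ 1 →
    ∑ z ∈ (H370.Zf riemannZeta T (2 * T)).filter
      (fun z => ¬ (T + 2 * Real.log T + s ≤ z.im ∧ z.im ≤ 2 * T - 2 * Real.log T)), (mz z : ℝ) ≤
      C * Real.log T ^ 2 := by
  obtain ⟨C, hC, hz⟩ := H370.zcount H370.good_zeta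
  refine ⟨12 * C, by positivity, fun T s hT hs hs1 => ?_⟩
  set L := Real.log T with hL
  have hL1 : 1 ≤ L := by
    rw [hL, Real.le_log_iff_exp_le (by linarith)]
    linarith [Real.exp_one_lt_d9]
  have hLT : 4 * L ≤ T := by
    have h1 : Real.log (T / 16) ≤ T / 16 - 1 := Real.log_le_sub_one_of_pos (by linarith)
    rw [Real.log_div (by linarith) (by norm_num), ← hL] at h1
    have h2 : Real.log 16 ≤ 3 := by
      have h3 : (16 : ℝ) = 2 ^ 4 := by norm_num
      rw [h3, Real.log_pow]
      have := Real.log_two_lt_d9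
      push_cast
      linarith
    linarith
  -- the zeros counted twice
  have hsub : ∑ z ∈ (H370.Zf riemannZeta T (2 * T)).filter
      (fun z => ¬ (T + 2 * L + s ≤ z.im ∧ z.im ≤ 2 * T - 2 * L)), (mz z : ℝ) ≤
      (H370.NN riemannZeta T (T + 2 * L + 1) : ℝ) + H370.NN riemannZeta (2 * T - 2 * L) (2 * T) := by
    rw [H370.NN_eq H370.good_zeta (show (1 : ℝ) ≤ T by linarith),
      H370.NN_eq H370.good_zeta (show (1 : ℝ) ≤ 2 * T - 2 * L by linarith)]
    push_cast
    rw [← Finset.sum_filter_add_sum_filter_not _ (fun z : ℂ => z.im ≤ T + 2 * L + 1)]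
    refine add_le_add (Finset.sum_le_sum_of_subset_of_nonneg ?_ fun _ _ _ => Nat.cast_nonneg _)
      (Finset.sum_le_sum_of_subset_of_nonneg ?_ fun _ _ _ => Nat.cast_nonneg _)
    · intro z hz'
      rw [Finset.mem_filter, Finset.mem_filter, H370.mem_Zf H370.good_zeta (by linarith)] at hz'
      rw [H370.mem_Zf H370.good_zeta (by linarith)]
      obtain ⟨⟨h1, _⟩, h2⟩ := hz'
      exact ⟨h1.1, h1.2.1, h1.2.2.1, h2, h1.2.2.2.2⟩
    · intro z hz'
      rw [Finset.mem_filter, Finset.mem_filter, H370.mem_Zf H370.good_zeta (by linarith)] at hz'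
      rw [H370.mem_Zf H370.good_zeta (by linarith)]
      obtain ⟨⟨h1, h3⟩, h2⟩ := hz'
      refine ⟨h1.1, h1.2.1, ?_, h1.2.2.2.1, h1.2.2.2.2⟩
      by_contra h4
      exact h3 ⟨by linarith, not_lt.1 h4⟩
  obtain ⟨n, hn1, hn2⟩ : ∃ n : ℕ, L + 1 ≤ n ∧ (n : ℝ) ≤ L + 2 :=
    ⟨⌈L + 1⌉₊, Nat.le_ceil _, by linarith [Nat.ceil_lt_add_one (show 0 ≤ L + 1 by linarith)]⟩
  have hlog : ∀ x : ℝ, 3 ≤ x → x ≤ 2 * T → Real.log (x + 2 * n) ≤ 2 * L := by
    intro x hx hx2
    have h1 : Real.log (x + 2 * n) ≤ Real.log (T ^ 2) := by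
      refine Real.log_le_log (by have : (0 : ℝ) ≤ n := Nat.cast_nonneg n
                                 linarith) ?_
      nlinarith
    rw [Real.log_pow] at h1
    exact_mod_cast h1
  have hcnt : ∀ x : ℝ, 3 ≤ x → x ≤ 2 * T →
      (H370.NN riemannZeta x (x + 2 * n) : ℝ) ≤ (L + 2) * (C * (2 * L)) := by
    intro x hx hx2
    refine (NN_le hC hz x hx n).trans ?_
    have h1 := hlog x hx hx2
    have h2 : 0 ≤ Real.log (x + 2 * n) := Real.log_nonneg (by
      have : (0 : ℝ) ≤ n := Nat.cast_nonneg n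
      linarith)
    gcongr
  have h1 : (H370.NN riemannZeta T (T + 2 * L + 1) : ℝ) ≤ (L + 2) * (C * (2 * L)) := by
    refine le_trans ?_ (hcnt T (by linarith) (by linarith))
    exact Nat.cast_le.2 (H370.NN_mono H370.good_zeta (by linarith) le_rfl (by linarith))
  have h2 : (H370.NN riemannZeta (2 * T - 2 * L) (2 * T) : ℝ) ≤ (L + 2) * (C * (2 * L)) := by
    refine le_trans ?_ (hcnt (2 * T - 2 * L) (by linarith) (by linarith))
    exact Nat.cast_le.2 (H370.NN_mono H370.good_zeta (by linarith) le_rfl (by linarith))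
  refine hsub.trans ?_
  nlinarith [mul_pos hC (show 0 < L by linarith)]

end ZERL

open ZERL in
theorem t_ZER (hM : S_MAIN) (hX : S_L1X) (hN : S_LLN) : S_ZER := by
  obtain ⟨CX, TX, hCX, hTX, hX⟩ := hX
  obtain ⟨CB, hCB, hbad⟩ := bad_le
  obtain ⟨CN, TN, hCN, hTN, hNN⟩ := H370.nn_asymp H370.good_zeta
  intro V ε hV hε
  set ε' : ℝ := ε / 32 with hε'
  have hε'0 : 0 < ε' := by positivity
  obtain ⟨ηM, TM, hηM, hηM1, hTM, hM⟩ := hM V ε' hV hε'0
  obtain ⟨K, TL, hK, hTL, hN⟩ := hN ε' hε'0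
  set τ : ℝ := min 1 (ε' / (CX * Real.sqrt (V + 1))) with hτ
  have hsq : 0 < Real.sqrt (V + 1) := Real.sqrt_pos.2 (by linarith)
  have hτ0 : 0 < τ := by
    rw [hτ]
    exact lt_min one_pos (by positivity)
  have hτ1 : τ ≤ 1 := min_le_left _ _
  have hτC : τ * (CX * Real.sqrt (V + 1)) ≤ ε' := by
    have := min_le_right 1 (ε' / (CX * Real.sqrt (V + 1)))
    rw [← hτ, le_div_iff₀ (by positivity)] at this
    exact this
  -- the threshold
  have hev : ∀ᶠ T : ℝ in atTop, TX ≤ T ∧ TN ≤ T ∧ TM ≤ T ∧ TL ≤ T ∧ 100 ≤ T ∧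
      (2 * CB + 4) * Real.log T ≤ ε / 4 * T ∧ CN ≤ ε / 4 * Real.log T := by
    refine (eventually_ge_atTop TX).and ((eventually_ge_atTop TN).and ((eventually_ge_atTop TM).and
      ((eventually_ge_atTop TL).and ((eventually_ge_atTop 100).and (Eventually.and ?_ ?_)))))
    · have h1 := Real.isLittleO_log_id_atTop.bound (show 0 < ε / (4 * (2 * CB + 4)) by positivity)
      filter_upwards [h1, eventually_ge_atTop (1 : ℝ)] with T h1 h2
      rw [Real.norm_eq_abs, abs_of_nonneg (Real.log_nonneg h2)] at h1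
      simp only [id, Real.norm_eq_abs] at h1
      rw [abs_of_nonneg (by linarith)] at h1
      calc (2 * CB + 4) * Real.log T ≤ (2 * CB + 4) * (ε / (4 * (2 * CB + 4)) * T) := by gcongr
        _ = _ := by field_simp
    · have h1 := Real.tendsto_log_atTop.eventually (eventually_ge_atTop (CN / (ε / 4)))
      filter_upwards [h1] with T h1
      rw [div_le_iff₀ (by positivity)] at h1
      linarith
  obtain ⟨T1, hT1⟩ := eventually_atTop.1 hev
  refine ⟨min ηM (τ / K), max T1 10, lt_min hηM (by positivity), (min_le_left _ _).trans hηM1,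
    le_max_right _ _, fun T hT F h0 hh0 hhη hhL hF hG => ?_⟩
  obtain ⟨hTX', hTN', hTM', hTL', hT100, hB1, hB2⟩ := hT1 T ((le_max_left _ _).trans hT)
  set η : ℝ := min ηM (τ / K) with hη
  have hη0 : 0 < η := lt_min hηM (by positivity)
  have hηK : η ≤ τ / K := min_le_right _ _
  have hη1 : η ≤ 1 := (min_le_left _ _).trans hηM1
  set L := Real.log T with hL
  have hT0 : 0 < T := by linarith
  have hL1 : 1 ≤ L := by
    rw [hL, Real.le_log_iff_exp_le (by linarith)]
    linarith [Real.exp_one_lt_d9]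
  have hLT : 8 * L ≤ T := by
    have h1 : Real.log (T / 32) ≤ T / 32 - 1 := Real.log_le_sub_one_of_pos (by linarith)
    rw [Real.log_div (by linarith) (by norm_num), ← hL] at h1
    have h2 : Real.log 32 ≤ 4 := by
      have h3 : (32 : ℝ) = 2 ^ 5 := by norm_num
      rw [h3, Real.log_pow]
      have := Real.log_two_lt_d9
      push_cast
      linarith
    nlinarith
  have hK0 : 0 < K := by linarith
  set s : ℝ := τ * h0 with hs
  have hs0 : 0 < s := by positivity
  have hsK : s ≤ 1 / K := by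
    calc s ≤ 1 * η := by rw [hs]; gcongr
      _ ≤ τ / K := by rw [one_mul]; exact hηK
      _ ≤ 1 / K := by gcongr
  have hs1 : s ≤ 1 := hsK.trans (by rw [div_le_one hK0]; exact hK)
  have hsL : K ≤ s * L := by
    have h1 : K * η ≤ τ := by
      rw [le_div_iff₀ hK0] at hηK
      linarith
    have h2 : 0 < h0 * L := by positivity
    calc K = K * 1 := (mul_one K).symm
      _ ≤ K * (η * (h0 * L)) := by gcongr
      _ = (K * η) * (h0 * L) := by ring
      _ ≤ τ * (h0 * L) := by gcongr
      _ = s * L := by rw [hs]; ring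
  set a := T + 2 * L with ha
  set b := 2 * T - 2 * L with hb
  have hab : a ≤ b := by rw [ha, hb]; linarith
  have hpi := Real.pi_gt_three
  set q : ℝ := s * L / (2 * Real.pi) with hq
  have hq0 : 0 ≤ q := by positivity
  -- the inputs
  have hX' := hX T hTX' η V (fun x => h0 * deriv F x) hη0 hη1 hV.le hG
  have hN' := hN T hTL' s hsL hsK
  have hM' := hM T hTM' F (Adm_mono hF (min_le_left _ _) (by linarith))
  have hNN' := hNN T hTN' T (2 * T) le_rfl (by linarith) (by linarith) le_rfl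
  have hbad' := hbad T s hT100 hs0 hs1
  rw [← hL, ← ha, ← hb] at hX' hN' hbad'
  -- the passage
  have hp := pass (H370.Zf riemannZeta T (2 * T)) (fun z => (mz z : ℝ)) (fun z _ => Nat.cast_nonneg _)
    (XF F T) (XF (fun x => h0 * deriv F x) T) a b s h0 q hab hs0 hh0 hq0
    (fun r hr => XF_hasDeriv hF.c2 hG.c2 hh0 (by linarith) (by linarith [hr.1]) (by linarith [hr.2]))
    (XF_contOn hG.c2 (by linarith))
  have hcnt : ∀ t, cnt T t (t + s) = ∑ z ∈ H370.Zf riemannZeta T (2 * T), (mz z : ℝ) * dn s z.im t :=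
    fun t => cnt_eq T s t
  simp_rw [hcnt] at hN'
  set SS : ℂ := ∑ z ∈ H370.Zf riemannZeta T (2 * T), (mz z : ℂ) * cexp (I * (XF F T z.im : ℂ)) with hSS
  have hp' : ‖(s : ℂ) * SS - (q : ℂ) * ∫ t in a..b, cexp (I * (XF F T t : ℂ))‖ ≤
      q * τ * (CX * T * Real.sqrt (V + 1)) + 3 * (ε' * s * L * T) + 2 * s * (CB * L ^ 2) := by
    have e1 : s / h0 = τ := by rw [hs]; field_simp
    have e2 : ∀ z : ℂ, (((mz z : ℕ) : ℝ) : ℂ) = (mz z : ℂ) := fun z => by push_cast; rfl
    simp only [e2] at hp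
    rw [e1] at hp
    refine hp.trans ?_
    gcongr
  -- the integral over the whole window
  set e : ℂ := cexp (-(sg F : ℂ) / 2) with he
  have hE1 : ∀ t, ‖cexp (I * (XF F T t : ℂ))‖ ≤ 1 := fun t => (norm_E _).le
  have hcon : ContinuousOn (fun t => cexp (I * (XF F T t : ℂ))) (Icc T (2 * T)) :=
    (continuousOn_const.mul (Complex.continuous_ofReal.comp_continuousOn
      (XF_contOn hF.c2 (by linarith)))).cexp
  have hii : ∀ x y : ℝ, T ≤ x → x ≤ y → y ≤ 2 * T →
      IntervalIntegrable (fun t => cexp (I * (XF F T t : ℂ))) volume x y := by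
    intro x y hx hxy hy
    apply ContinuousOn.intervalIntegrable
    rw [uIcc_of_le hxy]
    exact hcon.mono (Icc_subset_Icc hx hy)
  have hTa : T ≤ a := by rw [ha]; linarith
  have hb2 : b ≤ 2 * T := by rw [hb]; linarith
  have hI : ‖(∫ t in a..b, cexp (I * (XF F T t : ℂ))) - T * e‖ ≤ 4 * L + ε' * T := by
    have h1 : ‖(∫ t in T..(2 * T), cexp (I * (XF F T t : ℂ))) - T * e‖ ≤ ε' * T := by
      have h2 : (∫ t in T..(2 * T), cexp (I * (XF F T t : ℂ))) - T * e =
          (T : ℂ) * ((1 / T : ℂ) * (∫ t in T..(2 * T), cexp (I * (XF F T t : ℂ))) - e) := by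
        have : (T : ℂ) ≠ 0 := by exact_mod_cast hT0.ne'
        field_simp
      rw [h2, norm_mul, Complex.norm_real, Real.norm_eq_abs, abs_of_pos hT0, mul_comm]
      exact mul_le_mul_of_nonneg_right hM' hT0.le
    have h3 : ∫ t in T..(2 * T), cexp (I * (XF F T t : ℂ)) = (∫ t in T..a, cexp (I * (XF F T t : ℂ))) +
        (∫ t in a..b, cexp (I * (XF F T t : ℂ))) + ∫ t in b..(2 * T), cexp (I * (XF F T t : ℂ)) := by
      rw [intervalIntegral.integral_add_adjacent_intervals (hii T a le_rfl hTa (by linarith))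
        (hii a b hTa hab hb2), intervalIntegral.integral_add_adjacent_intervals
        (hii T b le_rfl (by linarith) hb2) (hii b (2 * T) (by linarith) hb2 le_rfl)]
    have h4 : ‖∫ t in T..a, cexp (I * (XF F T t : ℂ))‖ ≤ 2 * L := by
      have := intervalIntegral.norm_integral_le_of_norm_le_const (a := T) (b := a)
        (f := fun t => cexp (I * (XF F T t : ℂ))) (C := 1) (fun t _ => hE1 t)
      rw [abs_of_nonneg (by linarith)] at this
      linarith
    have h5 : ‖∫ t in b..(2 * T), cexp (I * (XF F T t : ℂ))‖ ≤ 2 * L := by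
      have := intervalIntegral.norm_integral_le_of_norm_le_const (a := b) (b := 2 * T)
        (f := fun t => cexp (I * (XF F T t : ℂ))) (C := 1) (fun t _ => hE1 t)
      rw [abs_of_nonneg (by linarith)] at this
      linarith
    have h6 : (∫ t in a..b, cexp (I * (XF F T t : ℂ))) - T * e =
        ((∫ t in T..(2 * T), cexp (I * (XF F T t : ℂ))) - T * e) -
        (∫ t in T..a, cexp (I * (XF F T t : ℂ))) - ∫ t in b..(2 * T), cexp (I * (XF F T t : ℂ)) := by
      rw [h3]; ring
    rw [h6]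
    have h7 := norm_sub_le (((∫ t in T..(2 * T), cexp (I * (XF F T t : ℂ))) - T * e) -
        (∫ t in T..a, cexp (I * (XF F T t : ℂ)))) (∫ t in b..(2 * T), cexp (I * (XF F T t : ℂ)))
    have h8 := norm_sub_le ((∫ t in T..(2 * T), cexp (I * (XF F T t : ℂ))) - T * e)
        (∫ t in T..a, cexp (I * (XF F T t : ℂ)))
    linarith
  -- division by `s`
  have hqs : q = s * (L / (2 * Real.pi)) := by rw [hq]; ring
  have hlp : L / (2 * Real.pi) ≤ L := div_le_self (by linarith) (by linarith)
  have hlp0 : 0 ≤ L / (2 * Real.pi) := by positivity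
  have hmain : ‖SS - ((L / (2 * Real.pi) * T : ℝ) : ℂ) * e‖ ≤
      L * T * ε' + 3 * (ε' * L * T) + 2 * (CB * L ^ 2) + L * (4 * L + ε' * T) := by
    have h1 : (s : ℂ) * (SS - ((L / (2 * Real.pi) * T : ℝ) : ℂ) * e) =
        ((s : ℂ) * SS - (q : ℂ) * ∫ t in a..b, cexp (I * (XF F T t : ℂ))) +
          (q : ℂ) * ((∫ t in a..b, cexp (I * (XF F T t : ℂ))) - T * e) := by
      rw [hqs]
      push_cast
      ring
    have h2 : ‖(s : ℂ) * (SS - ((L / (2 * Real.pi) * T : ℝ) : ℂ) * e)‖ ≤
        s * (L * T * ε' + 3 * (ε' * L * T) + 2 * (CB * L ^ 2) + L * (4 * L + ε' * T)) := by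
      rw [h1]
      refine (norm_add_le _ _).trans ?_
      rw [norm_mul (q : ℂ), Complex.norm_real, Real.norm_eq_abs, abs_of_nonneg hq0]
      have h3 : q * ‖(∫ t in a..b, cexp (I * (XF F T t : ℂ))) - T * e‖ ≤ s * (L * (4 * L + ε' * T)) := by
        calc _ ≤ q * (4 * L + ε' * T) := mul_le_mul_of_nonneg_left hI hq0
          _ = s * (L / (2 * Real.pi) * (4 * L + ε' * T)) := by rw [hqs]; ring
          _ ≤ s * (L * (4 * L + ε' * T)) := by gcongr
      have h4 : q * τ * (CX * T * Real.sqrt (V + 1)) ≤ s * (L * T * ε') := by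
        calc q * τ * (CX * T * Real.sqrt (V + 1)) =
              s * (L / (2 * Real.pi)) * T * (τ * (CX * Real.sqrt (V + 1))) := by rw [hqs]; ring
          _ ≤ s * L * T * ε' := by gcongr
          _ = _ := by ring
      calc _ ≤ (q * τ * (CX * T * Real.sqrt (V + 1)) + 3 * (ε' * s * L * T) + 2 * s * (CB * L ^ 2)) +
            s * (L * (4 * L + ε' * T)) := add_le_add hp' h3
        _ ≤ _ := by linarith
    rw [norm_mul, Complex.norm_real, Real.norm_eq_abs, abs_of_pos hs0] at h2
    exact le_of_mul_le_mul_left h2 hs0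
  have he1 : ‖e‖ ≤ 1 := by
    rw [he, Complex.norm_exp]
    have h1 : (-(sg F : ℂ) / 2).re = -(sg F / 2) := by
      have : -(sg F : ℂ) / 2 = ((-(sg F / 2) : ℝ) : ℂ) := by push_cast; ring
      rw [this, Complex.ofReal_re]
    rw [h1, Real.exp_le_one_iff]
    have h2 : 0 ≤ sg F := by
      unfold sg
      refine mul_nonneg (by positivity) (setIntegral_nonneg measurableSet_Ioi fun ξ hξ => ?_)
      have : (0 : ℝ) < ξ := hξ
      positivity
    linarith
  have hNe : ‖((L / (2 * Real.pi) * T : ℝ) : ℂ) * e - (H370.NN riemannZeta T (2 * T) : ℂ) * e‖ ≤ CN * T := by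
    rw [← sub_mul, norm_mul]
    have h1 : ((L / (2 * Real.pi) * T : ℝ) : ℂ) - (H370.NN riemannZeta T (2 * T) : ℂ) =
        ((L / (2 * Real.pi) * T - (H370.NN riemannZeta T (2 * T) : ℝ) : ℝ) : ℂ) := by
      push_cast
      rfl
    rw [h1, Complex.norm_real, Real.norm_eq_abs, abs_sub_comm]
    have h2 : L / (2 * Real.pi) * T = T * L / (2 * Real.pi) := by ring
    rw [h2]
    calc _ ≤ (CN * T) * 1 := mul_le_mul hNN' he1 (norm_nonneg _) (by positivity)
      _ = _ := mul_one _
  have hfin := norm_sub_le_norm_sub_add_norm_sub SS (((L / (2 * Real.pi) * T : ℝ) : ℂ) * e)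
    ((H370.NN riemannZeta T (2 * T) : ℂ) * e)
  refine hfin.trans ?_
  have h1 : (2 * CB + 4) * L ^ 2 ≤ ε / 4 * (T * L) := by
    calc (2 * CB + 4) * L ^ 2 = ((2 * CB + 4) * L) * L := by ring
      _ ≤ (ε / 4 * T) * L := by gcongr
      _ = _ := by ring
  have h2 : CN * T ≤ ε / 4 * (T * L) := by
    calc CN * T ≤ (ε / 4 * L) * T := by gcongr
      _ = _ := by ring
  have h3 : 0 ≤ ε * (T * L) := by positivity
  rw [hε'] at hmain
  nlinarith

end Pool.Agent.H203.ME
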