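import Pool.Agent.H203.ME.Defs3

set_option autoImplicit false

/-! (BB2) the mean square of the prime side. -/

open Complex Filter Topology Set MeasureTheory

namespace Pool.Agent.H203.ME

theorem t_BB2 : S_BB2 := by
  obtain ⟨CP, hCP, hP⟩ := t_PRM t_VAR
  obtain ⟨CV, hCV, hV⟩ := t_VAR
  obtain ⟨TP, hTP, hP⟩ := hP (1 / 4) (by norm_num) le_rfl
  have hev : ∀ᶠ T : ℝ in atTop, TP ≤ T ∧ 4 ≤ T ^ (1 / 4 : ℝ) ∧ 20 ≤ Real.log T :=
    (eventually_ge_atTop TP).and
      (((tendsto_rpow_atTop (show (0 : ℝ) < 1 / 4 by norm_num)).eventually (eventually_ge_atTop 4)).and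
        (Real.tendsto_log_atTop.eventually (eventually_ge_atTop 20)))
  obtain ⟨T1, hT1⟩ := eventually_atTop.1 hev
  refine ⟨34 * CP + 2 * (5 + 132 * CV), max T1 10, by positivity, le_max_right _ _,
    fun T hT η V F hη0 hη1 hV0 hF => ?_⟩
  obtain ⟨hTP', hT4, hL20⟩ := hT1 T ((le_max_left _ _).trans hT)
  have hT10 : 10 ≤ T := (le_max_right _ _).trans hT
  have hT0 : 0 < T := by linarith
  have hP := hP T hTP' η V F hη0 hη1 hV0 hF
  set L := Real.log T with hLd
  have hL0 : 0 < L := by linarith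
  set N := ⌊T ^ (1 / 4 : ℝ)⌋₊ with hN
  obtain ⟨hNlog, hN3⟩ := floor_log hT4
  rw [← hN] at hNlog hN3
  have hlogN : L / 8 ≤ Real.log N := by
    rw [Real.log_rpow hT0] at hNlog; linarith
  have hlogN0 : 0 < Real.log N := lt_of_lt_of_le (by positivity) hlogN
  have hVN := hV η V L F hη0 (by linarith) hF N hN3
  have hN4 : (N : ℝ) ^ 4 ≤ T := by
    have h1 : (N : ℝ) ≤ T ^ (1 / 4 : ℝ) := Nat.floor_le (by positivity)
    calc (N : ℝ) ^ 4 ≤ (T ^ (1 / 4 : ℝ)) ^ 4 := pow_le_pow_left₀ (Nat.cast_nonneg _) h1 4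
      _ = T := by rw [← Real.rpow_natCast, ← Real.rpow_mul hT0.le]; norm_num
  have hη2 : η ^ 2 ≤ 1 := by nlinarith
  have n3 : CV * (η + η ^ 2 + (η * L / Real.log N) ^ 2) ≤ 66 * CV := by
    have h1 : η * L / Real.log N ≤ 8 := by
      rw [div_le_iff₀ hlogN0]
      nlinarith
    have h2 : (η * L / Real.log N) ^ 2 ≤ 8 ^ 2 := pow_le_pow_left₀ (by positivity) h1 2
    calc CV * (η + η ^ 2 + (η * L / Real.log N) ^ 2) ≤ CV * (1 + 1 + 8 ^ 2) := by gcongr
      _ = _ := by ring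
  set SS := ∑ p ∈ (Finset.Icc 1 N).filter Nat.Prime, (Real.log p) ^ 2 / p * ‖FF F (Real.log p)‖ ^ 2 with hSS
  set VV := ∫ ξ in Ioi (0 : ℝ), ξ * ‖FF F ξ‖ ^ 2 with hVV
  have hSap : ∑ p ∈ (Finset.Icc 1 N).filter Nat.Prime, ‖ap F p‖ ^ 2 = 1 / Real.pi ^ 2 * SS := by
    rw [hSS, Finset.mul_sum]
    exact Finset.sum_congr rfl fun p _ => ap_sq F p
  have hpi2 : 1 / Real.pi ^ 2 ≤ 1 := by
    rw [div_le_one (by positivity)]
    nlinarith [Real.pi_gt_three]
  have hSS0 : 0 ≤ SS := Finset.sum_nonneg fun p _ => by positivity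
  have hVVV : VV ≤ V := hF.va
  have hSVabs := abs_le.1 (hVN.trans n3)
  have hSS1 : SS ≤ V + 66 * CV := by linarith [hSVabs.2]
  have hS1 : 1 / Real.pi ^ 2 * SS ≤ V + 66 * CV :=
    (mul_le_of_le_one_left hSS0 hpi2).trans hSS1
  have hmom := L1XL.mom2 t_MOM N (ap F) T (by omega) (by linarith) hN4
    (fun p => (ap_le F p).trans (hF.l1.trans hη1))
  rw [hSap] at hmom
  have hFc2 := hF.c2
  have hYc := Y1_cont F N
  have hBc := t_BBC F hFc2 (L / 4) (by linarith)
  have hT2 : T ≤ 2 * T := by linarith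
  have hY : ∫ t in T..(2 * T), (Y1 F N t) ^ 2 ≤ T * ((5 + 132 * CV) * (V + 1)) := by
    have h2 : ∫ t in T..(2 * T), (Y1 F N t) ^ 2 ≤
        ∫ t in T..(2 * T), ‖∑ p ∈ (Finset.Icc 1 N).filter Nat.Prime, ap F p * ee p t‖ ^ 2 := by
      apply intervalIntegral.integral_mono_on (by linarith)
      · exact Continuous.intervalIntegrable (by fun_prop) _ _
      · apply Continuous.intervalIntegrable
        unfold ee
        fun_prop
      · intro t _
        have h3 := Complex.abs_re_le_norm (∑ p ∈ (Finset.Icc 1 N).filter Nat.Prime, ap F p * ee p t)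
        rw [Y1_eq, abs_neg] at h3
        rw [← sq_abs]
        exact pow_le_pow_left₀ (abs_nonneg _) h3 2
    refine (h2.trans hmom).trans ?_
    apply mul_le_mul_of_nonneg_left _ hT0.le
    have k1 : 0 ≤ CV * V := mul_nonneg hCV.le hV0
    have k2 : (5 + 132 * CV) * (V + 1) = 5 * V + 5 + 132 * (CV * V) + 132 * CV := by ring
    rw [k2]
    linarith
  have hD : ∫ t in T..(2 * T), (BB F (L / 4) t - Y1 F N t) ^ 2 ≤ T * (17 * CP * (V + 1)) := by
    refine hP.trans ?_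
    have h2 : η ^ 2 / (1 / 4) ^ 2 + (1 / 4) ^ 4 * (V + 1) ≤ 17 * (V + 1) := by
      have : η ^ 2 / (1 / 4) ^ 2 = 16 * η ^ 2 := by ring
      rw [this]
      nlinarith
    calc CP * T * (η ^ 2 / (1 / 4) ^ 2 + (1 / 4) ^ 4 * (V + 1)) ≤ CP * T * (17 * (V + 1)) := by gcongr
      _ = _ := by ring
  have i2 : IntervalIntegrable (fun t => (BB F (L / 4) t - Y1 F N t) ^ 2) volume T (2 * T) :=
    Continuous.intervalIntegrable (by fun_prop) _ _
  have i3 : IntervalIntegrable (fun t => (Y1 F N t) ^ 2) volume T (2 * T) :=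
    Continuous.intervalIntegrable (by fun_prop) _ _
  have hmain : ∫ t in T..(2 * T), (BB F (L / 4) t) ^ 2 ≤
      ∫ t in T..(2 * T), (2 * (BB F (L / 4) t - Y1 F N t) ^ 2 + 2 * (Y1 F N t) ^ 2) := by
    apply intervalIntegral.integral_mono_on hT2
    · exact Continuous.intervalIntegrable (by fun_prop) _ _
    · exact (i2.const_mul _).add (i3.const_mul _)
    · intro t _
      have h6 := sq_nonneg (BB F (L / 4) t - 2 * Y1 F N t)
      nlinarith
  rw [intervalIntegral.integral_add (i2.const_mul _) (i3.const_mul _),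
    intervalIntegral.integral_const_mul, intervalIntegral.integral_const_mul] at hmain
  calc ∫ t in T..(2 * T), (BB F (L / 4) t) ^ 2
      ≤ 2 * (T * (17 * CP * (V + 1))) + 2 * (T * ((5 + 132 * CV) * (V + 1))) := by linarith
    _ = (34 * CP + 2 * (5 + 132 * CV)) * T * (V + 1) := by ring

end Pool.Agent.H203.ME
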