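import Pool.Agent.H203.ME.Defs3

set_option autoImplicit false

/-! (BBV) the mean square of the prime side, asymptotically (by helper582). -/

open Complex Filter Topology Set MeasureTheory

namespace Pool.Agent.H203.ME

namespace BBVL

/-- the mean square of the real part of a prime polynomial -/
lemma sq_mom (hM : S_MOM) (N : ℕ) (a : ℕ → ℂ) (θ T : ℝ) (hN : 1 ≤ N) (hθ0 : 0 ≤ θ) (hθ1 : θ ≤ 1)
    (hT : 1 ≤ T) (ha : ∀ p, ‖a p‖ ≤ θ) :
    |(∫ t in T..(2 * T), ((∑ p ∈ (Finset.Icc 1 N).filter Nat.Prime, a p * ee p t).re) ^ 2) -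
        T * ((∑ p ∈ (Finset.Icc 1 N).filter Nat.Prime, ‖a p‖ ^ 2) / 2)| ≤
      T * (5 * θ ^ 2 * (1 + ∑ p ∈ (Finset.Icc 1 N).filter Nat.Prime, ‖a p‖ ^ 2) ^ 2) +
        2 * (N : ℝ) ^ 4 := by
  have hT0 : 0 < T := by linarith
  have h11 := hM 1 1 N a θ T hN hθ0 hθ1 hT ha
  have h20 := hM 2 0 N a θ T hN hθ0 hθ1 hT ha
  set S := ∑ p ∈ (Finset.Icc 1 N).filter Nat.Prime, ‖a p‖ ^ 2 with hS
  have hS0 : 0 ≤ S := Finset.sum_nonneg fun p _ => sq_nonneg _
  obtain ⟨A, hA⟩ : ∃ A : ℝ → ℂ, A = fun t => ∑ p ∈ (Finset.Icc 1 N).filter Nat.Prime, a p * ee p t :=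
    ⟨_, rfl⟩
  have hAc : Continuous A := by
    rw [hA]
    unfold ee
    fun_prop
  have hA' : ∀ t, ∑ p ∈ (Finset.Icc 1 N).filter Nat.Prime, a p * ee p t = A t := fun t => by rw [hA]
  simp only [hA'] at h11 h20 ⊢
  simp only [pow_one, if_true, Nat.factorial_one, Nat.cast_one, one_mul, one_pow] at h11
  simp only [pow_zero, mul_one, OfNat.ofNat_ne_zero, if_false, sub_zero] at h20
  obtain ⟨J, hJ⟩ : ∃ J, J = ∫ t in T..(2 * T), ‖A t‖ ^ 2 := ⟨_, rfl⟩
  obtain ⟨Q, hQ⟩ : ∃ Q, Q = ∫ t in T..(2 * T), A t ^ 2 := ⟨_, rfl⟩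
  have e : (∫ t in T..(2 * T), A t * ((starRingEnd ℂ) (A t))) = (J : ℂ) := by
    rw [hJ, ← intervalIntegral.integral_ofReal]
    congr 1
    funext t
    rw [Complex.mul_conj, Complex.normSq_eq_norm_sq]
  rw [e] at h11
  rw [← hQ] at h20
  have e2 : (1 / T : ℂ) * (J : ℂ) - (S : ℂ) = ((1 / T * J - S : ℝ) : ℂ) := by push_cast; ring
  rw [e2, Complex.norm_real, Real.norm_eq_abs] at h11
  have e3 : ‖(1 / T : ℂ)‖ = 1 / T := by
    rw [norm_div, norm_one, Complex.norm_real, Real.norm_eq_abs, abs_of_pos hT0]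
  rw [norm_mul, e3] at h20
  have hQre : |Q.re| ≤ ‖Q‖ := Complex.abs_re_le_norm Q
  have i1 : IntervalIntegrable (fun t => ‖A t‖ ^ 2) volume T (2 * T) :=
    Continuous.intervalIntegrable (by fun_prop) _ _
  have i2 : IntervalIntegrable (fun t => A t ^ 2) volume T (2 * T) :=
    Continuous.intervalIntegrable (by fun_prop) _ _
  have i3 : IntervalIntegrable (fun t => (A t ^ 2).re) volume T (2 * T) :=
    Continuous.intervalIntegrable (by fun_prop) _ _
  have hQ2 : ∫ t in T..(2 * T), (A t ^ 2).re = Q.re := by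
    rw [hQ]
    exact Complex.reCLM.intervalIntegral_comp_comm i2
  have hre : ∫ t in T..(2 * T), ((A t).re) ^ 2 = (J + Q.re) / 2 := by
    rw [hJ, ← hQ2, ← intervalIntegral.integral_add i1 i3, ← intervalIntegral.integral_div]
    congr 1
    funext t
    rw [← Complex.normSq_eq_norm_sq, Complex.normSq_apply, pow_two (A t), Complex.mul_re]
    ring
  rw [hre]
  have h3 : |J - T * S| ≤ T * (θ ^ 2 * (1 + S)) + 2 * (N : ℝ) ^ 4 := by
    have h4 : J - T * S = T * (1 / T * J - S) := by field_simp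
    rw [h4, abs_mul, abs_of_pos hT0]
    calc T * |1 / T * J - S| ≤ T * (θ ^ 2 * (1 + S) + 2 * (N : ℝ) ^ (2 * (1 + 1)) / T) :=
          mul_le_mul_of_nonneg_left h11 hT0.le
      _ = T * (θ ^ 2 * (1 + S)) + 2 * (N : ℝ) ^ 4 := by
          norm_num
          field_simp
  have h5 : ‖Q‖ ≤ T * (8 * θ ^ 2 * (1 + S) ^ 2) + 2 * (N : ℝ) ^ 4 := by
    have h6 : ‖Q‖ = T * (1 / T * ‖Q‖) := by field_simp
    rw [h6]
    refine (mul_le_mul_of_nonneg_left h20 hT0.le).trans (le_of_eq ?_)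
    have h7 : ((2 : ℕ).factorial : ℝ) = 2 := by norm_num [Nat.factorial]
    rw [h7]
    norm_num
    field_simp
  have h8 : (1 + S) ≤ (1 + S) ^ 2 := by nlinarith
  have h9 : 0 ≤ θ ^ 2 := sq_nonneg θ
  have h10 : T * (θ ^ 2 * (1 + S)) ≤ T * (θ ^ 2 * (1 + S) ^ 2) := by gcongr
  have h12 := abs_le.1 h3
  have h13 := abs_le.1 (hQre.trans h5)
  have h14 : 0 ≤ T * (θ ^ 2 * (1 + S) ^ 2) := by positivity
  rw [abs_le]
  constructor <;> nlinarith

lemma ee_norm (n : ℕ) (t : ℝ) : ‖ee n t‖ = 1 := by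
  unfold ee
  have h : -(((t * Real.log n : ℝ) : ℂ) * I) = ((-(t * Real.log n) : ℝ) : ℂ) * I := by
    push_cast
    ring
  rw [h]
  exact Complex.norm_exp_ofReal_mul_I _

lemma Y1_le (F : ℝ → ℝ) (N : ℕ) (t : ℝ) (h : ∫ x : ℝ, |F x| ≤ 1) : |Y1 F N t| ≤ N := by
  rw [← abs_neg, ← Y1_eq]
  refine (Complex.abs_re_le_norm _).trans ((norm_sum_le _ _).trans ?_)
  calc ∑ p ∈ (Finset.Icc 1 N).filter Nat.Prime, ‖ap F p * ee p t‖ ≤
      ∑ p ∈ (Finset.Icc 1 N).filter Nat.Prime, (1 : ℝ) := by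
        refine Finset.sum_le_sum fun p _ => ?_
        rw [norm_mul, ee_norm, mul_one]
        exact (ap_le F p).trans h
    _ = (((Finset.Icc 1 N).filter Nat.Prime).card : ℝ) := by simp
    _ ≤ N := by
        have h1 : ((Finset.Icc 1 N).filter Nat.Prime).card ≤ N := by
          refine (Finset.card_filter_le _ _).trans ?_
          simp
        exact_mod_cast h1

lemma cmp_int (f : ℝ → ℝ) (hf : Continuous f) (h0 : ∀ t, 0 ≤ f t) {T a b U : ℝ} (h1 : T ≤ a)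
    (h2 : a ≤ b) (h3 : b ≤ U) : ∫ t in a..b, f t ≤ ∫ t in T..U, f t :=
  intervalIntegral.integral_mono_interval h1 h2 h3 (Eventually.of_forall fun t => h0 t)
    (hf.intervalIntegrable _ _)

lemma rest_int (f : ℝ → ℝ) (hf : Continuous f) (M : ℝ) (hM : ∀ t, f t ≤ M) {T a b U : ℝ}
    (h1 : T ≤ a) (h3 : b ≤ U) :
    (∫ t in T..U, f t) - ∫ t in a..b, f t ≤ M * ((a - T) + (U - b)) := by
  have i : ∀ x y, IntervalIntegrable f volume x y := fun x y => hf.intervalIntegrable _ _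
  have e : (∫ t in T..U, f t) = (∫ t in T..a, f t) + (∫ t in a..b, f t) + ∫ t in b..U, f t := by
    rw [intervalIntegral.integral_add_adjacent_intervals (i _ _) (i _ _),
      intervalIntegral.integral_add_adjacent_intervals (i _ _) (i _ _)]
  have e1 : ∀ x y : ℝ, x ≤ y → ∫ t in x..y, f t ≤ M * (y - x) := by
    intro x y hxy
    calc ∫ t in x..y, f t ≤ ∫ _ in x..y, M :=
          intervalIntegral.integral_mono_on hxy (i _ _) (by simp) (fun t _ => hM t)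
      _ = M * (y - x) := by
          rw [intervalIntegral.integral_const, smul_eq_mul]
          ring
  have e2 := e1 T a h1
  have e3 := e1 b U h3
  rw [e]
  linarith

lemma sq_cmp (B Y : ℝ → ℝ) (hB : Continuous B) (hY : Continuous Y) {δ a b : ℝ} (hδ : 0 < δ)
    (hδ1 : δ ≤ 1) (hab : a ≤ b) :
    |(∫ t in a..b, B t ^ 2) - ∫ t in a..b, Y t ^ 2| ≤
      2 / δ * (∫ t in a..b, (B t - Y t) ^ 2) + δ * ∫ t in a..b, Y t ^ 2 := by
  have i1 : IntervalIntegrable (fun t => B t ^ 2) volume a b :=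
    Continuous.intervalIntegrable (by fun_prop) _ _
  have i2 : IntervalIntegrable (fun t => Y t ^ 2) volume a b :=
    Continuous.intervalIntegrable (by fun_prop) _ _
  have i3 : IntervalIntegrable (fun t => 2 / δ * (B t - Y t) ^ 2) volume a b :=
    Continuous.intervalIntegrable (by fun_prop) _ _
  have i4 : IntervalIntegrable (fun t => δ * Y t ^ 2) volume a b :=
    Continuous.intervalIntegrable (by fun_prop) _ _
  have i5 : IntervalIntegrable (fun t => |B t ^ 2 - Y t ^ 2|) volume a b :=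
    Continuous.intervalIntegrable (by fun_prop) _ _
  rw [← intervalIntegral.integral_sub i1 i2, ← intervalIntegral.integral_const_mul,
    ← intervalIntegral.integral_const_mul, ← intervalIntegral.integral_add i3 i4]
  refine (intervalIntegral.abs_integral_le_integral_abs hab).trans ?_
  refine intervalIntegral.integral_mono_on hab i5 (i3.add i4) fun t _ => ?_
  set x := B t - Y t with hx
  set y := Y t with hy
  have e : B t ^ 2 - y ^ 2 = x ^ 2 + 2 * y * x := by rw [hx]; ring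
  rw [e]
  have h1 : x ^ 2 ≤ 1 / δ * x ^ 2 := by
    have : 1 ≤ 1 / δ := by rw [le_div_iff₀ hδ]; linarith
    calc x ^ 2 = 1 * x ^ 2 := (one_mul _).symm
      _ ≤ 1 / δ * x ^ 2 := by gcongr
  have h2 : |2 * y * x| ≤ 1 / δ * x ^ 2 + δ * y ^ 2 := by
    have h3 : 1 / δ * x ^ 2 + δ * y ^ 2 - 2 * y * x = 1 / δ * (x - δ * y) ^ 2 := by
      field_simp
      ring
    have h4 : 1 / δ * x ^ 2 + δ * y ^ 2 + 2 * y * x = 1 / δ * (x + δ * y) ^ 2 := by
      field_simp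
      ring
    have h5 : 0 ≤ 1 / δ * (x - δ * y) ^ 2 := by positivity
    have h6 : 0 ≤ 1 / δ * (x + δ * y) ^ 2 := by positivity
    rw [abs_le]
    constructor <;> linarith
  have h3 : |x ^ 2 + 2 * y * x| ≤ x ^ 2 + |2 * y * x| := by
    refine (abs_add_le _ _).trans ?_
    rw [abs_of_nonneg (sq_nonneg x)]
  have h4 : 2 / δ * x ^ 2 = 1 / δ * x ^ 2 + 1 / δ * x ^ 2 := by ring
  rw [h4]
  linarith

end BBVL

open BBVL in
theorem t_BBV : S_BBV := by
  have hBC : S_BBC := t_BBC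
  have hM : S_MOM := t_MOM
  obtain ⟨CP, hCP, hP⟩ := t_PRM t_VAR
  obtain ⟨CV, hCV, hV⟩ := t_VAR
  intro V ε hV0 hε
  obtain ⟨m, hm⟩ : ∃ m, m = min 1 (ε / 8) := ⟨_, rfl⟩
  have hm0 : 0 < m := by rw [hm]; positivity
  have hm1 : m ≤ 1 := by rw [hm]; exact min_le_left _ _
  have hmε : m ≤ ε / 8 := by rw [hm]; exact min_le_right _ _
  obtain ⟨K, hK⟩ : ∃ K, K = V + 4 := ⟨_, rfl⟩
  have hK0 : 0 < K := by rw [hK]; positivity
  obtain ⟨δ, hδ⟩ : ∃ δ, δ = m / K := ⟨_, rfl⟩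
  have hδ0 : 0 < δ := by rw [hδ]; positivity
  have hδ1 : δ ≤ 1 := by
    rw [hδ, div_le_one hK0, hK]
    linarith
  have hδK : δ * K = m := by rw [hδ]; field_simp
  obtain ⟨ε1, hε1⟩ : ∃ ε1, ε1 = min (1 / 8) (m * δ / (2 * CP * (V + 1))) := ⟨_, rfl⟩
  have hε10 : 0 < ε1 := by rw [hε1]; positivity
  have hε18 : ε1 ≤ 1 / 8 := by rw [hε1]; exact min_le_left _ _
  have hε1d : ε1 ≤ m * δ / (2 * CP * (V + 1)) := by rw [hε1]; exact min_le_right _ _
  obtain ⟨TP, hTP, hP⟩ := hP ε1 hε10 (by linarith)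
  obtain ⟨M, hM'⟩ : ∃ M, M = 2 * CP / δ + 6 * CV + 5 * (V + 2) ^ 2 + 1 := ⟨_, rfl⟩
  have hM0 : 0 < M := by rw [hM']; positivity
  obtain ⟨c, hc⟩ : ∃ c, c = ε1 ^ 2 * m / M := ⟨_, rfl⟩
  have hc0 : 0 < c := by rw [hc]; positivity
  -- the threshold
  have hev : ∀ᶠ T : ℝ in atTop, TP ≤ T ∧ 4 ≤ T ^ ε1 ∧ 4 ≤ Real.log T ∧
      4 * Real.log T * Real.sqrt T ≤ m * T := by
    refine (eventually_ge_atTop TP).and
      (((tendsto_rpow_atTop hε10).eventually (eventually_ge_atTop 4)).and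
        ((Real.tendsto_log_atTop.eventually (eventually_ge_atTop 4)).and ?_))
    have h1 := (isLittleO_log_rpow_atTop (show (0 : ℝ) < 1 / 2 by norm_num)).bound
      (show 0 < m / 4 by positivity)
    filter_upwards [h1, eventually_ge_atTop (1 : ℝ)] with T h1 h2
    have hs0 : 0 ≤ Real.sqrt T := Real.sqrt_nonneg T
    rw [← Real.sqrt_eq_rpow, Real.norm_eq_abs, abs_of_nonneg (Real.log_nonneg h2), Real.norm_eq_abs,
      abs_of_nonneg hs0] at h1
    have h3 : Real.sqrt T * Real.sqrt T = T := Real.mul_self_sqrt (by linarith)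
    calc 4 * Real.log T * Real.sqrt T ≤ 4 * (m / 4 * Real.sqrt T) * Real.sqrt T := by gcongr
      _ = m * (Real.sqrt T * Real.sqrt T) := by ring
      _ = m * T := by rw [h3]
  obtain ⟨T1, hT1⟩ := eventually_atTop.1 hev
  refine ⟨min 1 c, max T1 10, by positivity, min_le_left _ _, le_max_right _ _,
    fun T hT F hF => ?_⟩
  obtain ⟨hTP', hT4, hTL, hT8⟩ := hT1 T ((le_max_left _ _).trans hT)
  have hT10 : 10 ≤ T := (le_max_right _ _).trans hT
  have hT0 : 0 < T := by linarith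
  obtain ⟨η, hη⟩ : ∃ η, η = min 1 c := ⟨_, rfl⟩
  rw [← hη] at hF
  have hη0 : 0 < η := by rw [hη]; positivity
  have hη1 : η ≤ 1 := by rw [hη]; exact min_le_left _ _
  have hηc' : η ≤ c := by rw [hη]; exact min_le_right _ _
  have hP := hP T hTP' η V F hη0 hη1 hV0.le hF
  have hL1 : 1 ≤ Real.log T := by
    rw [Real.le_log_iff_exp_le hT0]
    linarith [Real.exp_one_lt_d9]
  set L := Real.log T with hLd
  have hL0 : 0 < L := by linarith
  set N := ⌊T ^ ε1⌋₊ with hN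
  obtain ⟨hNlog, hN3⟩ := floor_log hT4
  rw [← hN] at hNlog hN3
  have hlogN : ε1 * L / 2 ≤ Real.log N := by
    rw [Real.log_rpow hT0] at hNlog; linarith
  have hlogN0 : 0 < Real.log N := lt_of_lt_of_le (by positivity) hlogN
  have hVN := hV η V L F hη0 hL1 hF N hN3
  have hN1 : (1 : ℝ) ≤ N := by
    have : 1 ≤ N := by omega
    exact_mod_cast this
  -- sizes
  have hsT : 1 ≤ Real.sqrt T := Real.one_le_sqrt.2 (by linarith)
  have hN4 : (N : ℝ) ^ 4 ≤ Real.sqrt T := by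
    have h1 : (N : ℝ) ≤ T ^ (1 / 8 : ℝ) := (Nat.floor_le (by positivity)).trans
      (Real.rpow_le_rpow_of_exponent_le (by linarith) hε18)
    calc (N : ℝ) ^ 4 ≤ (T ^ (1 / 8 : ℝ)) ^ 4 := pow_le_pow_left₀ (Nat.cast_nonneg _) h1 4
      _ = Real.sqrt T := by
          rw [← Real.rpow_natCast, ← Real.rpow_mul hT0.le, Real.sqrt_eq_rpow]
          norm_num
  have hN2 : (N : ℝ) ^ 2 ≤ Real.sqrt T := by
    refine le_trans ?_ hN4
    exact pow_le_pow_right₀ hN1 (by norm_num)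
  have k1 : 4 * L * (N : ℝ) ^ 2 ≤ m * T :=
    (mul_le_mul_of_nonneg_left hN2 (by positivity)).trans hT8
  have k2 : 2 * (N : ℝ) ^ 4 ≤ m * T := by
    refine le_trans ?_ hT8
    calc 2 * (N : ℝ) ^ 4 ≤ 2 * Real.sqrt T := by gcongr
      _ ≤ 4 * L * Real.sqrt T := by gcongr; linarith
  have hLT : 4 * L ≤ T := by
    have h1 : 4 * L * 1 ≤ 4 * L * Real.sqrt T := by gcongr
    have h2 : m * T ≤ 1 * T := by gcongr
    linarith
  -- numerical facts
  have n0 : η / ε1 ^ 2 * M ≤ m := by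
    calc η / ε1 ^ 2 * M ≤ c / ε1 ^ 2 * M := by gcongr
      _ = m := by rw [hc]; field_simp
  have hε12 : ε1 ^ 2 ≤ 1 := pow_le_one₀ hε10.le (by linarith)
  have hη2 : η ^ 2 ≤ η := by
    have h1 : η * η ≤ 1 * η := mul_le_mul_of_nonneg_right hη1 hη0.le
    have h2 : η ^ 2 = η * η := by ring
    rw [h2]; linarith only [h1]
  have n4 : η ≤ η / ε1 ^ 2 := by
    rw [le_div_iff₀ (by positivity)]
    calc η * ε1 ^ 2 ≤ η * 1 := by gcongr
      _ = η := mul_one _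
  have n5 : η ^ 2 / ε1 ^ 2 ≤ η / ε1 ^ 2 := by gcongr
  have hq0 : 0 ≤ η / ε1 ^ 2 := by positivity
  have n1 : 5 * η ^ 2 * (V + 2) ^ 2 ≤ m := by
    calc 5 * η ^ 2 * (V + 2) ^ 2 ≤ 5 * (η / ε1 ^ 2) * (V + 2) ^ 2 := by
          have := hη2.trans n4
          gcongr
      _ = η / ε1 ^ 2 * (5 * (V + 2) ^ 2) := by ring
      _ ≤ η / ε1 ^ 2 * M := by
          apply mul_le_mul_of_nonneg_left _ hq0
          rw [hM']
          have : 0 ≤ 2 * CP / δ := by positivity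
          linarith
      _ ≤ m := n0
  have n2 : 2 / δ * (CP * (η ^ 2 / ε1 ^ 2)) ≤ m := by
    calc 2 / δ * (CP * (η ^ 2 / ε1 ^ 2)) ≤ 2 / δ * (CP * (η / ε1 ^ 2)) := by gcongr
      _ = η / ε1 ^ 2 * (2 * CP / δ) := by ring
      _ ≤ η / ε1 ^ 2 * M := by
          apply mul_le_mul_of_nonneg_left _ hq0
          rw [hM']
          have : 0 ≤ 5 * (V + 2) ^ 2 := by positivity
          linarith
      _ ≤ m := n0
  have n3 : CV * (η + η ^ 2 + (η * L / Real.log N) ^ 2) ≤ m := by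
    have h1 : η * L / Real.log N ≤ 2 * η / ε1 := by
      rw [div_le_div_iff₀ hlogN0 hε10]
      have h1 := mul_le_mul_of_nonneg_left hlogN hη0.le
      have h2 : η * (ε1 * L / 2) = η * L * ε1 / 2 := by ring
      have h3 : 2 * η * Real.log N = 2 * (η * Real.log N) := by ring
      rw [h2] at h1
      rw [h3]
      linarith only [h1]
    have h2 : (η * L / Real.log N) ^ 2 ≤ (2 * η / ε1) ^ 2 := pow_le_pow_left₀ (by positivity) h1 2
    have h3 : (2 * η / ε1) ^ 2 = 4 * (η ^ 2 / ε1 ^ 2) := by ring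
    have h4 : η + η ^ 2 + (η * L / Real.log N) ^ 2 ≤ 6 * (η / ε1 ^ 2) := by
      rw [h3] at h2
      linarith [hη2.trans n4]
    calc CV * (η + η ^ 2 + (η * L / Real.log N) ^ 2) ≤ CV * (6 * (η / ε1 ^ 2)) := by gcongr
      _ = η / ε1 ^ 2 * (6 * CV) := by ring
      _ ≤ η / ε1 ^ 2 * M := by
          apply mul_le_mul_of_nonneg_left _ hq0
          rw [hM']
          have h5 : 0 ≤ 2 * CP / δ := by positivity
          have h6 : 0 ≤ 5 * (V + 2) ^ 2 := by positivity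
          linarith
      _ ≤ m := n0
  have n6 : 2 / δ * (CP * (ε1 ^ 4 * (V + 1))) ≤ m := by
    have h5 : ε1 ^ 4 ≤ ε1 := by
      have : ε1 ^ 3 ≤ 1 := pow_le_one₀ hε10.le (by linarith)
      calc ε1 ^ 4 = ε1 ^ 3 * ε1 := by ring
        _ ≤ 1 * ε1 := by gcongr
        _ = ε1 := one_mul _
    calc 2 / δ * (CP * (ε1 ^ 4 * (V + 1))) ≤
        2 / δ * (CP * (m * δ / (2 * CP * (V + 1)) * (V + 1))) := by
          have := h5.trans hε1d
          gcongr
      _ = m := by field_simp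
  set SS := ∑ p ∈ (Finset.Icc 1 N).filter Nat.Prime, (Real.log p) ^ 2 / p * ‖FF F (Real.log p)‖ ^ 2 with hSS
  set VV := ∫ ξ in Ioi (0 : ℝ), ξ * ‖FF F ξ‖ ^ 2 with hVV
  have hSap : ∑ p ∈ (Finset.Icc 1 N).filter Nat.Prime, ‖ap F p‖ ^ 2 = 1 / Real.pi ^ 2 * SS := by
    rw [hSS, Finset.mul_sum]
    exact Finset.sum_congr rfl fun p _ => ap_sq F p
  have hpi2 : 1 / Real.pi ^ 2 ≤ 1 := by
    rw [div_le_one (by positivity)]
    have h1 := Real.pi_gt_three
    have h2 : (1 : ℝ) ^ 2 ≤ Real.pi ^ 2 := pow_le_pow_left₀ (by norm_num) (by linarith only [h1]) 2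
    linarith only [h2]
  have hpi20 : 0 < 1 / Real.pi ^ 2 := by positivity
  have hSS0 : 0 ≤ SS := Finset.sum_nonneg fun p _ => by positivity
  have hVVV : VV ≤ V := hF.va
  have hSV : |SS - VV| ≤ m := hVN.trans n3
  have hSVabs := abs_le.1 hSV
  have hSS1 : SS ≤ V + 1 := by linarith [hSVabs.2]
  have hS1 : 1 / Real.pi ^ 2 * SS ≤ V + 1 := (mul_le_of_le_one_left hSS0 hpi2).trans hSS1
  have hmom := sq_mom hM N (ap F) η T (by omega) hη0.le hη1 (by linarith)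
    (fun p => (ap_le F p).trans hF.l1)
  rw [hSap] at hmom
  simp only [Y1_eq, neg_sq] at hmom
  have hS0 : 0 ≤ 1 / Real.pi ^ 2 * SS := by positivity
  have hmom2 : |(∫ t in T..(2 * T), (Y1 F N t) ^ 2) - T * (1 / Real.pi ^ 2 * SS / 2)| ≤
      2 * (m * T) := by
    refine hmom.trans ?_
    have h1 : 5 * η ^ 2 * (1 + 1 / Real.pi ^ 2 * SS) ^ 2 ≤ 5 * η ^ 2 * (V + 2) ^ 2 := by
      have : 1 + 1 / Real.pi ^ 2 * SS ≤ V + 2 := by linarith
      gcongr
    have h2 : T * (5 * η ^ 2 * (1 + 1 / Real.pi ^ 2 * SS) ^ 2) ≤ T * m := by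
      gcongr
      exact h1.trans n1
    linarith
  -- the pieces
  set a := T + 2 * L with ha
  set b := 2 * T - 2 * L with hb
  have hYc := Y1_cont F N
  have hBc := hBC F hF.c2 (L / 4) (by linarith)
  have hTa : T ≤ a := by rw [ha]; linarith
  have hab : a ≤ b := by rw [ha, hb]; linarith
  have hb2 : b ≤ 2 * T := by rw [hb]; linarith
  have q1 := sq_cmp (BB F (L / 4)) (Y1 F N) hBc hYc hδ0 hδ1 hab
  have q2 := cmp_int (fun t => (BB F (L / 4) t - Y1 F N t) ^ 2) (by fun_prop)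
    (fun t => sq_nonneg _) hTa hab hb2
  have q3 := cmp_int (fun t => (Y1 F N t) ^ 2) (by fun_prop) (fun t => sq_nonneg _) hTa hab hb2
  have q4 := rest_int (fun t => (Y1 F N t) ^ 2) (by fun_prop) ((N : ℝ) ^ 2) (fun t => by
    rw [← sq_abs]
    exact pow_le_pow_left₀ (abs_nonneg _) (Y1_le F N t (hF.l1.trans hη1)) 2) hTa hb2
  have q5 := q2.trans hP
  obtain ⟨Y, hYd⟩ : ∃ Y, Y = ∫ t in T..(2 * T), (Y1 F N t) ^ 2 := ⟨_, rfl⟩
  obtain ⟨Y', hYd'⟩ : ∃ Y', Y' = ∫ t in a..b, (Y1 F N t) ^ 2 := ⟨_, rfl⟩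
  obtain ⟨D', hDd'⟩ : ∃ D', D' = ∫ t in a..b, (BB F (L / 4) t - Y1 F N t) ^ 2 := ⟨_, rfl⟩
  obtain ⟨B', hBd'⟩ : ∃ B', B' = ∫ t in a..b, (BB F (L / 4) t) ^ 2 := ⟨_, rfl⟩
  simp only [← hYd, ← hYd', ← hDd', ← hBd'] at q1 q3 q4 q5 hmom2
  have hgoal : (∫ t in (T + 2 * L)..(2 * T - 2 * L), (BB F (L / 4) t) ^ 2) = B' := by
    rw [hBd']
  rw [hgoal]
  have hsg : sg F = 1 / Real.pi ^ 2 * VV / 2 := by
    rw [hVV, sg]
    ring
  rw [hsg]
  clear_value SS VV
  have p1 : 2 / δ * D' ≤ 2 * (m * T) := by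
    calc 2 / δ * D' ≤ 2 / δ * (CP * T * (η ^ 2 / ε1 ^ 2 + ε1 ^ 4 * (V + 1))) := by gcongr
      _ = (2 / δ * (CP * (η ^ 2 / ε1 ^ 2)) + 2 / δ * (CP * (ε1 ^ 4 * (V + 1)))) * T := by ring
      _ ≤ (m + m) * T := by gcongr
      _ = 2 * (m * T) := by ring
  have hm2 := abs_le.1 hmom2
  have hmT0 : 0 < m * T := by positivity
  have hmT : m * T ≤ 1 * T := by gcongr
  have p2 : Y ≤ K * T := by
    have h1 : T * (1 / Real.pi ^ 2 * SS / 2) ≤ T * ((V + 1) / 2) := by gcongr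
    have h2 : 0 ≤ V * T := by positivity
    rw [hK]
    have h3 := hm2.2
    have e1 : (V + 4) * T = V * T + 4 * T := by ring
    have e2 : T * ((V + 1) / 2) = V * T / 2 + T / 2 := by ring
    rw [e1]
    rw [e2] at h1
    linarith only [h1, h2, h3, hmT, hmT0, hT0]
  have p3 : δ * Y' ≤ m * T := by
    calc δ * Y' ≤ δ * (K * T) := by
          have := q3.trans p2
          gcongr
      _ = m * T := by rw [← hδK]; ring
  have p4 : Y - Y' ≤ m * T := by
    refine q4.trans (le_trans (le_of_eq ?_) k1)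
    rw [ha, hb]
    ring
  have p5 : |T * (1 / Real.pi ^ 2 * SS / 2) - T * (1 / Real.pi ^ 2 * VV / 2)| ≤ m * T := by
    have h1 : T * (1 / Real.pi ^ 2 * SS / 2) - T * (1 / Real.pi ^ 2 * VV / 2) =
        T / 2 * (1 / Real.pi ^ 2) * (SS - VV) := by ring
    rw [h1, abs_mul, abs_of_nonneg (by positivity : 0 ≤ T / 2 * (1 / Real.pi ^ 2))]
    calc T / 2 * (1 / Real.pi ^ 2) * |SS - VV| ≤ T / 2 * 1 * m := by gcongr
      _ = (m * T) / 2 := by ring
      _ ≤ m * T := by linarith only [hmT0]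
  have p5' := abs_le.1 p5
  have p6 := abs_le.1 q1
  have p7 : 8 * (m * T) ≤ ε * T := by
    have : 8 * m ≤ ε := by linarith
    calc 8 * (m * T) = (8 * m) * T := by ring
      _ ≤ ε * T := by gcongr
  rw [abs_le]
  constructor <;> linarith [p5'.1, p5'.2, p6.1, p6.2, hm2.1, hm2.2]

end Pool.Agent.H203.ME
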