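import Pool.Agent.H203.ME.Defs3

set_option autoImplicit false

/-! `t_REP : S_REP`: every `C⁶` function with compact support is a sum of two correlations of `C²` functions. -/

open Filter Topology Set MeasureTheory

namespace Pool.Agent.H203.ME.REPL

/-- the sign -/
noncomputable def sn (u : ℝ) : ℝ := if 0 < u then 1 else -1

theorem sn_abs (u : ℝ) : |sn u| = 1 := by
  unfold sn
  split_ifs <;> simp

theorem sn_pos {u : ℝ} (hu : 0 < u) : sn u = 1 := by
  unfold sn
  rw [if_pos hu]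

theorem sn_neg {u : ℝ} (hu : u ≤ 0) : sn u = -1 := by
  unfold sn
  rw [if_neg (not_lt.2 hu)]

theorem sn_deriv (p p' : ℝ → ℝ) (hp : ∀ u, HasDerivAt p (p' u) u) (h0 : p 0 = 0) (h1 : p' 0 = 0)
    (u : ℝ) : HasDerivAt (fun u => sn u * p u) (sn u * p' u) u := by
  rcases lt_trichotomy u 0 with hu | hu | hu
  · have h2 : (fun u => sn u * p u) =ᶠ[𝓝 u] fun u => -1 * p u := by
      filter_upwards [Iio_mem_nhds hu] with y hy
      rw [sn_neg (le_of_lt hy)]
    rw [sn_neg hu.le]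
    exact ((hp u).const_mul (-1)).congr_of_eventuallyEq h2
  · subst hu
    rw [h1, mul_zero]
    have h3 := hp 0
    rw [h1] at h3
    rw [hasDerivAt_iff_isLittleO] at h3 ⊢
    simp only [h0, sub_zero, smul_zero, mul_zero] at h3 ⊢
    have h4 : (fun x => sn x * p x) =O[𝓝 0] p := by
      refine Asymptotics.isBigO_of_le _ fun x => ?_
      rw [norm_mul, Real.norm_eq_abs (sn x), sn_abs, one_mul]
    exact h4.trans_isLittleO h3
  · have h2 : (fun u => sn u * p u) =ᶠ[𝓝 u] fun u => 1 * p u := by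
      filter_upwards [Ioi_mem_nhds hu] with y hy
      rw [sn_pos hy]
    rw [sn_pos hu]
    exact ((hp u).const_mul 1).congr_of_eventuallyEq h2

theorem sn_cont (p : ℝ → ℝ) (hp : Continuous p) (h0 : p 0 = 0) :
    Continuous fun u => sn u * p u := by
  have h1 : (fun u => sn u * p u) = fun u => if u ≤ 0 then -p u else p u := by
    funext u
    by_cases hu : u ≤ 0
    · rw [sn_neg hu, if_pos hu]; ring
    · rw [sn_pos (not_le.1 hu), if_neg hu]; ring
  rw [h1]
  refine Continuous.if_le (by fun_prop) hp continuous_id continuous_const fun u hu => ?_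
  have hu' : u = 0 := hu
  rw [hu', h0, neg_zero]

theorem sn_c2 (p p1 p2 : ℝ → ℝ) (hp : ∀ u, HasDerivAt p (p1 u) u)
    (hp1 : ∀ u, HasDerivAt p1 (p2 u) u) (hp2 : Continuous p2) (h0 : p 0 = 0) (h1 : p1 0 = 0)
    (h2 : p2 0 = 0) : ContDiff ℝ 2 fun u => sn u * p u := by
  have d1 := sn_deriv p p1 hp h0 h1
  have d2 := sn_deriv p1 p2 hp1 h1 h2
  have e1 : deriv (fun u => sn u * p u) = fun u => sn u * p1 u := funext fun u => (d1 u).deriv
  have e2 : deriv (fun u => sn u * p1 u) = fun u => sn u * p2 u := funext fun u => (d2 u).deriv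
  rw [show (2 : WithTop ℕ∞) = 1 + 1 by norm_num, contDiff_succ_iff_deriv]
  refine ⟨fun u => (d1 u).differentiableAt, by simp, ?_⟩
  rw [e1, contDiff_one_iff_deriv]
  refine ⟨fun u => (d2 u).differentiableAt, ?_⟩
  rw [e2]
  exact sn_cont p2 hp2 h2

/-- the cutoff times `u ^ 3 / 12` -/
noncomputable def bmp : ContDiffBump (0 : ℝ) := ⟨1, 2, by norm_num, by norm_num⟩

noncomputable def P0 (u : ℝ) : ℝ := bmp u * (u ^ 3 / 12)

theorem P0_smooth : ContDiff ℝ (⊤ : ℕ∞) P0 := by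
  unfold P0
  exact bmp.contDiff.mul (by fun_prop)

theorem P0_comp : HasCompactSupport P0 := by
  unfold P0
  exact bmp.hasCompactSupport.mul_right

theorem P0_near : P0 =ᶠ[𝓝 0] fun u => u ^ 3 / 12 := by
  have h1 := bmp.eventuallyEq_one
  filter_upwards [h1] with u hu
  unfold P0
  rw [hu]
  simp

noncomputable def Pn : ℕ → ℝ → ℝ
  | 0 => P0
  | n + 1 => deriv (Pn n)

theorem Pn_smooth (n : ℕ) : ContDiff ℝ (⊤ : ℕ∞) (Pn n) := by
  induction n with
  | zero => exact P0_smooth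
  | succ n ih =>
    exact (contDiff_infty_iff_deriv.1 ih).2

theorem Pn_comp (n : ℕ) : HasCompactSupport (Pn n) := by
  induction n with
  | zero => exact P0_comp
  | succ n ih => exact ih.deriv

theorem Pn_deriv (n : ℕ) (u : ℝ) : HasDerivAt (Pn n) (Pn (n + 1) u) u :=
  ((Pn_smooth n).differentiable (by simp) u).hasDerivAt

theorem Pn1 : Pn 1 =ᶠ[𝓝 0] fun u => u ^ 2 / 4 := by
  have h1 : deriv (fun u : ℝ => u ^ 3 / 12) = fun u => u ^ 2 / 4 := by
    funext u
    have := ((hasDerivAt_pow 3 u).div_const 12).deriv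
    rw [this]
    norm_num
    ring
  have h2 := P0_near.deriv
  rw [h1] at h2
  exact h2

theorem Pn2 : Pn 2 =ᶠ[𝓝 0] fun u => u / 2 := by
  have h1 : deriv (fun u : ℝ => u ^ 2 / 4) = fun u => u / 2 := by
    funext u
    have := ((hasDerivAt_pow 2 u).div_const 4).deriv
    rw [this]
    norm_num
    ring
  have h2 := Pn1.deriv
  rw [h1] at h2
  exact h2

theorem Pn3 : Pn 3 =ᶠ[𝓝 0] fun _ => 1 / 2 := by
  have h1 : deriv (fun u : ℝ => u / 2) = fun _ => 1 / 2 := by
    funext u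
    exact ((hasDerivAt_id' u).div_const 2).deriv
  have h2 := Pn2.deriv
  rw [h1] at h2
  exact h2

theorem Pn4 (n : ℕ) : Pn (4 + n) =ᶠ[𝓝 0] fun _ => 0 := by
  induction n with
  | zero =>
    have h1 : deriv (fun _ : ℝ => (1 / 2 : ℝ)) = fun _ => 0 := by
      funext u
      simp
    have h2 := Pn3.deriv
    rw [h1] at h2
    exact h2
  | succ n ih =>
    have h1 : deriv (fun _ : ℝ => (0 : ℝ)) = fun _ => 0 := by
      funext u
      simp
    have h2 := ih.deriv
    rw [h1] at h2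
    exact h2

/-- the derivatives of `φ` -/
noncomputable def Fn (φ : ℝ → ℝ) : ℕ → ℝ → ℝ
  | 0 => φ
  | n + 1 => deriv (Fn φ n)

theorem Fn_smooth (φ : ℝ → ℝ) (m n : ℕ) (h : ContDiff ℝ ((m + n : ℕ) : WithTop ℕ∞) φ) :
    ContDiff ℝ (m : WithTop ℕ∞) (Fn φ n) := by
  induction n generalizing m with
  | zero => exact h
  | succ n ih =>
    have h1 := ih (m + 1) (by rwa [show m + 1 + n = m + (n + 1) by ring])
    have h2 : ((m + 1 : ℕ) : WithTop ℕ∞) = (m : WithTop ℕ∞) + 1 := by push_cast; rfl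
    rw [h2, contDiff_succ_iff_deriv] at h1
    exact h1.2.2

theorem Fn_comp (φ : ℝ → ℝ) (h : HasCompactSupport φ) (n : ℕ) : HasCompactSupport (Fn φ n) := by
  induction n with
  | zero => exact h
  | succ n ih => exact ih.deriv

theorem Fn_deriv (φ : ℝ → ℝ) (h : ContDiff ℝ 6 φ) (n : ℕ) (hn : n ≤ 5) (u : ℝ) :
    HasDerivAt (Fn φ n) (Fn φ (n + 1) u) u := by
  have h1 := Fn_smooth φ 1 n (h.of_le (by
    have : 1 + n ≤ 6 := by omega
    exact_mod_cast this))
  exact (h1.differentiable (by norm_num) u).hasDerivAt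

/-- the primitive -/
noncomputable def Wf (φ : ℝ → ℝ) (v u : ℝ) : ℝ :=
  Pn 0 u * Fn φ 3 (u + v) - Pn 1 u * Fn φ 2 (u + v) + Pn 2 u * Fn φ 1 (u + v) -
    Pn 3 u * Fn φ 0 (u + v)

theorem Wf_deriv (φ : ℝ → ℝ) (h : ContDiff ℝ 6 φ) (v u : ℝ) :
    HasDerivAt (Wf φ v) (Pn 0 u * Fn φ 4 (u + v) - Pn 4 u * Fn φ 0 (u + v)) u := by
  have hF : ∀ n, n ≤ 5 → HasDerivAt (fun u => Fn φ n (u + v)) (Fn φ (n + 1) (u + v)) u := by
    intro n hn
    exact (Fn_deriv φ h n hn (u + v)).comp_add_const u v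
  have h1 := ((((Pn_deriv 0 u).mul (hF 3 (by norm_num))).sub
    ((Pn_deriv 1 u).mul (hF 2 (by norm_num)))).add
    ((Pn_deriv 2 u).mul (hF 1 (by norm_num)))).sub ((Pn_deriv 3 u).mul (hF 0 (by norm_num)))
  refine h1.congr_deriv ?_
  ring

theorem Wf_comp (φ : ℝ → ℝ) (v : ℝ) : HasCompactSupport (Wf φ v) := by
  unfold Wf
  exact (((Pn_comp 0).mul_right.sub (Pn_comp 1).mul_right).add (Pn_comp 2).mul_right).sub
    (Pn_comp 3).mul_right

theorem Wf_zero (φ : ℝ → ℝ) (v : ℝ) : Wf φ v 0 = -(φ v / 2) := by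
  have h0 := P0_near.eq_of_nhds
  have h1 := Pn1.eq_of_nhds
  have h2 := Pn2.eq_of_nhds
  have h3 := Pn3.eq_of_nhds
  have h00 : Pn 0 0 = 0 := by
    have : Pn 0 0 = P0 0 := rfl
    rw [this, h0]; norm_num
  unfold Wf
  rw [h00, h1, h2, h3, zero_add]
  have : Fn φ 0 v = φ v := rfl
  rw [this]
  ring

theorem key (φ : ℝ → ℝ) (h : ContDiff ℝ 6 φ) (v : ℝ) :
    ∫ u : ℝ, sn u * (Pn 0 u * Fn φ 4 (u + v) - Pn 4 u * Fn φ 0 (u + v)) = φ v := by
  have hd : deriv (Wf φ v) = fun u => Pn 0 u * Fn φ 4 (u + v) - Pn 4 u * Fn φ 0 (u + v) :=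
    funext fun u => (Wf_deriv φ h v u).deriv
  have hc4 : Continuous (Fn φ 4) := (Fn_smooth φ 2 4 (by exact_mod_cast h)).continuous
  have hc0 : Continuous (Fn φ 0) := h.continuous
  have hdc : Continuous fun u => Pn 0 u * Fn φ 4 (u + v) - Pn 4 u * Fn φ 0 (u + v) := by
    have := (Pn_smooth 0).continuous
    have := (Pn_smooth 4).continuous
    fun_prop
  have hW : ContDiff ℝ 1 (Wf φ v) := by
    rw [contDiff_one_iff_deriv]
    refine ⟨fun u => (Wf_deriv φ h v u).differentiableAt, ?_⟩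
    rw [hd]
    exact hdc
  have h1 := HasCompactSupport.integral_Ioi_deriv_eq hW (Wf_comp φ v) 0
  have h2 := HasCompactSupport.integral_Iic_deriv_eq hW (Wf_comp φ v) 0
  rw [hd, Wf_zero] at h1 h2
  have hint : Integrable fun u => Pn 0 u * Fn φ 4 (u + v) - Pn 4 u * Fn φ 0 (u + v) := by
    rw [← hd]
    exact (hW.continuous_deriv (by norm_num)).integrable_of_hasCompactSupport (Wf_comp φ v).deriv
  have hint2 : Integrable fun u => sn u *
      (Pn 0 u * Fn φ 4 (u + v) - Pn 4 u * Fn φ 0 (u + v)) := by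
    refine hint.mono ?_ (Eventually.of_forall fun u => ?_)
    · refine AEStronglyMeasurable.mul ?_ hint.aestronglyMeasurable
      unfold sn
      exact (Measurable.ite measurableSet_Ioi measurable_const measurable_const).aestronglyMeasurable
    · rw [norm_mul, Real.norm_eq_abs (sn u), sn_abs, one_mul]
  rw [← integral_add_compl measurableSet_Ioi hint2 (s := Ioi (0 : ℝ)), compl_Ioi]
  have h3 : ∫ u in Ioi (0 : ℝ), sn u * (Pn 0 u * Fn φ 4 (u + v) - Pn 4 u * Fn φ 0 (u + v)) =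
      ∫ u in Ioi (0 : ℝ), (Pn 0 u * Fn φ 4 (u + v) - Pn 4 u * Fn φ 0 (u + v)) := by
    refine setIntegral_congr_fun measurableSet_Ioi fun u hu => ?_
    rw [sn_pos hu, one_mul]
  have h4 : ∫ u in Iic (0 : ℝ), sn u * (Pn 0 u * Fn φ 4 (u + v) - Pn 4 u * Fn φ 0 (u + v)) =
      ∫ u in Iic (0 : ℝ), -(Pn 0 u * Fn φ 4 (u + v) - Pn 4 u * Fn φ 0 (u + v)) := by
    refine setIntegral_congr_fun measurableSet_Iic fun u hu => ?_
    rw [sn_neg hu]
    ring
  rw [h3, h4, integral_neg, h1, h2]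
  ring

end Pool.Agent.H203.ME.REPL

namespace Pool.Agent.H203.ME

open REPL

/-- (REP) every `C⁶` function with compact support is a sum of two correlations of `C²` functions. -/
theorem t_REP : S_REP := by
  intro φ h hc
  have h00 : Pn 0 0 = 0 := by
    have : Pn 0 0 = P0 0 := rfl
    rw [this, P0_near.eq_of_nhds]; norm_num
  have h10 : Pn 1 0 = 0 := by rw [Pn1.eq_of_nhds]; norm_num
  have h20 : Pn 2 0 = 0 := by rw [Pn2.eq_of_nhds]; norm_num
  have c1 : ContDiff ℝ 2 fun u => sn u * Pn 0 u :=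
    sn_c2 _ _ _ (Pn_deriv 0) (Pn_deriv 1) (Pn_smooth 2).continuous h00 h10 h20
  have c2 : ContDiff ℝ 2 fun u => sn u * Pn 4 u :=
    sn_c2 _ _ _ (Pn_deriv 4) (Pn_deriv 5) (Pn_smooth 6).continuous (Pn4 0).eq_of_nhds
      (Pn4 1).eq_of_nhds (Pn4 2).eq_of_nhds
  have k1 : HasCompactSupport fun u => sn u * Pn 0 u := (Pn_comp 0).mul_left
  have k2 : HasCompactSupport fun u => sn u * Pn 4 u := (Pn_comp 4).mul_left
  have c3 : ContDiff ℝ 2 (Fn φ 4) := Fn_smooth φ 2 4 (by exact_mod_cast h)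
  refine ⟨fun u => sn u * Pn 0 u, Fn φ 4, fun u => -(sn u * Pn 4 u), φ, c1, c3, c2.neg,
    h.of_le (by norm_num), k1, Fn_comp φ hc 4, k2.neg, hc, fun v => ?_⟩
  have i1 : Integrable fun u => (sn u * Pn 0 u) * Fn φ 4 (u + v) := by
    refine Continuous.integrable_of_hasCompactSupport ?_ k1.mul_right
    have := c1.continuous
    have := c3.continuous
    fun_prop
  have i2 : Integrable fun u => -(sn u * Pn 4 u) * φ (u + v) := by
    refine Continuous.integrable_of_hasCompactSupport ?_ k2.neg.mul_right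
    have := c2.continuous
    have := h.continuous
    fun_prop
  simp only
  rw [← integral_add i1 i2, ← key φ h v]
  refine integral_congr_ae (Eventually.of_forall fun u => ?_)
  simp only
  have : Fn φ 0 (u + v) = φ (u + v) := rfl
  rw [this]
  ring

end Pool.Agent.H203.ME
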