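import Pool.Agent.H203.ME.PCC
import Pool.Agent.H203.ME.REP

set_option autoImplicit false

open Complex Filter Topology Set MeasureTheory

namespace Pool.Agent.H203.ME

namespace FINL

lemma PS_in {φ : ℝ → ℝ} {A h T : ℝ} (hA : ∀ v, A ≤ |v| → φ v = 0) (hh : 0 < h) (hAh : A * h ≤ 2) (hT : 4 ≤ T) :
    PS φ h T = ∑ z ∈ H370.Zf riemannZeta T (2 * T), (mz z : ℝ) *
      ∑ w ∈ H370.Zf riemannZeta (T - 3) (2 * T + 3), (mz w : ℝ) * φ ((w.im - z.im) / h) := by
  unfold PS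
  refine Finset.sum_congr rfl fun z hz => ?_
  rw [H370.mem_Zf H370.good_zeta (by linarith)] at hz
  obtain ⟨-, -, h1, h2, -⟩ := hz
  congr 1
  refine PCCL.fs_eq (k := fun x => φ (x / h)) (fun x hx => hA _ ?_) (by linarith) (by linarith) (by linarith)
  rw [abs_div, abs_of_pos hh, le_div_iff₀ hh]
  linarith

lemma PS_add {φ1 φ2 : ℝ → ℝ} {A h T : ℝ} (h1 : ∀ v, A ≤ |v| → φ1 v = 0) (h2 : ∀ v, A ≤ |v| → φ2 v = 0)
    (hh : 0 < h) (hAh : A * h ≤ 2) (hT : 4 ≤ T) :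
    PS (fun v => φ1 v + φ2 v) h T = PS φ1 h T + PS φ2 h T := by
  rw [PS_in (φ := fun v => φ1 v + φ2 v) (fun v hv => by rw [h1 v hv, h2 v hv, add_zero]) hh hAh hT,
    PS_in h1 hh hAh hT, PS_in h2 hh hAh hT, ← Finset.sum_add_distrib]
  refine Finset.sum_congr rfl fun z _ => ?_
  rw [← mul_add, ← Finset.sum_add_distrib]
  congr 1
  exact Finset.sum_congr rfl fun w _ => by ring

lemma corr_cont {f g : ℝ → ℝ} (hf : Continuous f) (hfs : HasCompactSupport f) (hg : Continuous g) :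
    Continuous (fun v => ∫ u : ℝ, f u * g (u + v)) := by
  obtain ⟨A, hA, hA'⟩ := bd hfs
  have : (fun v => ∫ u : ℝ, f u * g (u + v)) = fun v => ∫ u in (-A)..A, f u * g (u + v) := by
    funext v
    rw [intervalIntegral.integral_of_le (by linarith), ← integral_Icc_eq_integral_Ioc]
    symm
    apply setIntegral_eq_integral_of_forall_compl_eq_zero
    intro x hx
    rw [hA' x, zero_mul]
    by_contra h
    push Not at h
    exact hx ⟨by linarith [(abs_lt.1 h).1], by linarith [(abs_lt.1 h).2]⟩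
  rw [this]
  apply intervalIntegral.continuous_parametric_intervalIntegral_of_continuous'
  unfold Function.uncurry
  fun_prop

end FINL

open FINL

theorem finD (hP : S_PCC) {φ : ℝ → ℝ} (hφ : ContDiff ℝ 6 φ) (hφs : HasCompactSupport φ) {h : ℝ → ℝ}
    (h0 : Tendsto h atTop (𝓝 0)) (h1 : Tendsto (fun T => h T * Real.log T) atTop atTop) :
    Tendsto (fun T : ℝ => h T / T * (PS φ (h T) T -
        h T * (H370.NN riemannZeta T (2 * T) : ℝ) ^ 2 / T * ∫ v : ℝ, φ v))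
      atTop (𝓝 (1 / (2 * Real.pi ^ 2) * ∫ ξ in Ioi (0 : ℝ), ξ * (FF φ ξ).re)) := by
  obtain ⟨f1, g1, f2, g2, hf1, hg1, hf2, hg2, sf1, sg1, sf2, sg2, hrep⟩ := t_REP φ hφ hφs
  obtain ⟨a1, b1⟩ := hP f1 g1 hf1 sf1 hg1 sg1 h h0 h1
  obtain ⟨a2, b2⟩ := hP f2 g2 hf2 sf2 hg2 sg2 h h0 h1
  set φ1 : ℝ → ℝ := fun v => ∫ u : ℝ, f1 u * g1 (u + v) with hφ1
  set φ2 : ℝ → ℝ := fun v => ∫ u : ℝ, f2 u * g2 (u + v) with hφ2
  have hφe : φ = fun v => φ1 v + φ2 v := by funext v; exact hrep v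
  obtain ⟨A1, hA1, hf1A⟩ := bd sf1
  obtain ⟨A2, hA2, hg1A⟩ := bd sg1
  obtain ⟨A3, hA3, hf2A⟩ := bd sf2
  obtain ⟨A4, hA4, hg2A⟩ := bd sg2
  obtain ⟨A, hA⟩ : ∃ A, A = A1 + A2 + A3 + A4 := ⟨_, rfl⟩
  have z1 : ∀ v, 2 * A ≤ |v| → φ1 v = 0 := fun v hv =>
    PCCL.corr_supp (A := A) (fun x hx => hf1A x (by linarith)) (fun x hx => hg1A x (by linarith)) hv
  have z2 : ∀ v, 2 * A ≤ |v| → φ2 v = 0 := fun v hv =>
    PCCL.corr_supp (A := A) (fun x hx => hf2A x (by linarith)) (fun x hx => hg2A x (by linarith)) hv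
  have c1 : Continuous φ1 := corr_cont hf1.continuous sf1 hg1.continuous
  have c2 : Continuous φ2 := corr_cont hf2.continuous sf2 hg2.continuous
  have hA0 : 0 < A := by rw [hA]; positivity
  have cs : ∀ {ψ : ℝ → ℝ}, (∀ v, 2 * A ≤ |v| → ψ v = 0) → HasCompactSupport ψ := fun {ψ} hψ =>
    HasCompactSupport.intro (isCompact_Icc (a := -(2 * A)) (b := 2 * A)) fun x hx => hψ x (by
      by_contra h
      push Not at h
      exact hx ⟨by linarith [(abs_lt.1 h).1], by linarith [(abs_lt.1 h).2]⟩)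
  have i1 : Integrable φ1 := c1.integrable_of_hasCompactSupport (cs z1)
  have i2 : Integrable φ2 := c2.integrable_of_hasCompactSupport (cs z2)
  have hint : ∫ v, φ v = (∫ v, φ1 v) + ∫ v, φ2 v := by
    rw [hφe, integral_add i1 i2]
  have hFF : ∀ ξ, FF φ ξ = FF φ1 ξ + FF φ2 ξ := by
    intro ξ
    unfold FF
    rw [hφe, ← integral_add]
    · congr 1
      funext s
      push_cast
      ring
    · exact (Continuous.integrable_of_hasCompactSupport (by fun_prop)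
        (HasCompactSupport.mul_right ((cs z1).comp_left (g := fun x : ℝ => (x : ℂ)) (by simp))))
    · exact (Continuous.integrable_of_hasCompactSupport (by fun_prop)
        (HasCompactSupport.mul_right ((cs z2).comp_left (g := fun x : ℝ => (x : ℂ)) (by simp))))
  have hlim : 1 / (2 * Real.pi ^ 2) * ∫ ξ in Ioi (0 : ℝ), ξ * (FF φ ξ).re =
      1 / (2 * Real.pi ^ 2) * (∫ ξ in Ioi (0 : ℝ), ξ * (FF φ1 ξ).re) +
        1 / (2 * Real.pi ^ 2) * ∫ ξ in Ioi (0 : ℝ), ξ * (FF φ2 ξ).re := by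
    rw [← mul_add, ← integral_add b1 b2]
    congr 2
    funext ξ
    rw [hFF ξ, Complex.add_re]
    ring
  rw [hlim]
  refine (a1.add a2).congr' ?_
  have hpos : ∀ᶠ T : ℝ in atTop, 0 < h T := by
    filter_upwards [h1.eventually (eventually_gt_atTop 0), eventually_gt_atTop (1 : ℝ)] with T q1 q2
    have h3 := Real.log_pos q2
    by_contra h4
    push Not at h4
    nlinarith
  have hsm : ∀ᶠ T : ℝ in atTop, h T < 1 / A := h0.eventually (gt_mem_nhds (by positivity))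
  filter_upwards [hpos, hsm, eventually_ge_atTop (4 : ℝ)] with T q1 q2 q3
  have q4 : 2 * A * h T ≤ 2 := by
    rw [lt_div_iff₀ hA0] at q2
    linarith
  have e1 : PS φ (h T) T = PS φ1 (h T) T + PS φ2 (h T) T := by
    rw [hφe]
    exact PS_add z1 z2 q1 q4 q3
  rw [e1, hint]
  ring

end Pool.Agent.H203.ME
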