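import Pool.Agent.H203.ME.Defs3

set_option autoImplicit false

/-! The approximate formula in mean square. -/

open Complex Filter Topology Set MeasureTheory

namespace Pool.Agent.H203.ME

namespace L2L

/-- the Cauchy kernel -/
noncomputable def ka (v : ℝ) : ℝ := (1 + v ^ 2)⁻¹

theorem ka_pos (v : ℝ) : 0 < ka v := by unfold ka; positivity

theorem ka_int {H : ℝ} (hH : 0 < H) : Integrable (fun r : ℝ => ka (r / H)) :=
  integrable_inv_one_add_sq.comp_div hH.ne'

theorem ka_mass {H : ℝ} (hH : 0 < H) : ∫ r : ℝ, ka (r / H) = H * Real.pi := by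
  have h1 := Measure.integral_comp_div (fun v : ℝ => (1 + v ^ 2)⁻¹) H
  rw [abs_of_pos hH, integral_univ_inv_one_add_sq, smul_eq_mul] at h1
  exact h1

theorem ka_le {x r δ H : ℝ} (hH : 0 < H) (hδ : δ ≤ H) (h1 : |r - x| ≤ δ) :
    ka (x / H) ≤ 3 * ka (r / H) := by
  unfold ka
  have h2 : |r / H - x / H| ≤ 1 := by
    rw [← sub_div, abs_div, abs_of_pos hH, div_le_one hH]
    linarith
  have h3 : (r / H) ^ 2 ≤ 2 * (x / H) ^ 2 + 2 := by
    have h4 : (r / H - x / H) ^ 2 ≤ 1 := by
      have := abs_le.1 h2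
      nlinarith [this.1, this.2]
    nlinarith [sq_nonneg (r / H - x / H - x / H), sq_nonneg (x / H)]
  rw [← one_div, ← one_div, mul_one_div, div_le_div_iff₀ (by positivity) (by positivity)]
  nlinarith [sq_nonneg (x / H)]

/-- one point -/
theorem one_pt {g t δ H : ℝ} (hH : 0 < H) (hδ0 : 0 < δ) (hδ : δ ≤ H) :
    ka ((g - t) / H) ≤ 3 / δ * ∫ r : ℝ, ka (r / H) *
      (Ioc (t - r) (t - r + δ)).indicator (fun _ => (1 : ℝ)) g := by
  have e1 : (fun r : ℝ => ka (r / H) * (Ioc (t - r) (t - r + δ)).indicator (fun _ => (1 : ℝ)) g) =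
      (Ioc (t - g) (t - g + δ)).indicator (fun r => ka (r / H)) := by
    funext r
    by_cases hr : r ∈ Ioc (t - g) (t - g + δ)
    · rw [indicator_of_mem hr, indicator_of_mem, mul_one]
      exact ⟨by linarith [hr.1], by linarith [hr.2]⟩
    · rw [indicator_of_notMem hr, indicator_of_notMem, mul_zero]
      intro h
      exact hr ⟨by linarith [h.1], by linarith [h.2]⟩
  rw [e1, integral_indicator measurableSet_Ioc]
  have h2 : ∫ r in Ioc (t - g) (t - g + δ), ka ((g - t) / H) / 3 ≤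
      ∫ r in Ioc (t - g) (t - g + δ), ka (r / H) := by
    refine setIntegral_mono_on ?_ (ka_int hH).integrableOn measurableSet_Ioc ?_
    · exact integrableOn_const (by simp)
    · intro r hr
      have h3 := ka_le (x := t - g) (r := r) hH hδ (by
        rw [abs_le]; constructor <;> [linarith [hr.1]; linarith [hr.2]])
      have h4 : ka ((g - t) / H) = ka ((t - g) / H) := by
        unfold ka
        congr 2
        rw [div_pow, div_pow]
        congr 1
        ring
      rw [h4]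
      linarith
  have h5 : ∫ r in Ioc (t - g) (t - g + δ), ka ((g - t) / H) / 3 = δ * (ka ((g - t) / H) / 3) := by
    rw [setIntegral_const, smul_eq_mul, measureReal_def, Real.volume_Ioc]
    congr 1
    rw [ENNReal.toReal_ofReal (by linarith)]
    ring
  rw [h5] at h2
  calc ka ((g - t) / H) = 3 / δ * (δ * (ka ((g - t) / H) / 3)) := by field_simp
    _ ≤ _ := mul_le_mul_of_nonneg_left h2 (by positivity)

/-- Cauchy-Schwarz for a weight -/
theorem cs {k c : ℝ → ℝ} (hk0 : ∀ r, 0 ≤ k r) (hk : Integrable k) (h1 : Integrable (fun r => k r * c r))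
    (h2 : Integrable (fun r => k r * c r ^ 2)) (hm : 0 < ∫ r, k r) :
    (∫ r, k r * c r) ^ 2 ≤ (∫ r, k r) * ∫ r, k r * c r ^ 2 := by
  set m := ∫ r, k r with hmd
  set P := ∫ r, k r * c r with hP
  set Q := ∫ r, k r * c r ^ 2 with hQ
  have h3 : 0 ≤ ∫ r, k r * (c r - P / m) ^ 2 := integral_nonneg fun r => mul_nonneg (hk0 r) (sq_nonneg _)
  have h4 : ∫ r, k r * (c r - P / m) ^ 2 = Q - 2 * (P / m) * P + (P / m) ^ 2 * m := by
    have : (fun r => k r * (c r - P / m) ^ 2) =
        fun r => (k r * c r ^ 2 - 2 * (P / m) * (k r * c r)) + (P / m) ^ 2 * k r := by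
      funext r; ring
    rw [this, integral_add (f := fun r => k r * c r ^ 2 - 2 * (P / m) * (k r * c r))
      (g := fun r => (P / m) ^ 2 * k r) (h2.sub (h1.const_mul _)) (hk.const_mul _),
      integral_sub h2 (h1.const_mul _), integral_const_mul, integral_const_mul]
  rw [h4] at h3
  have h5 : Q - 2 * (P / m) * P + (P / m) ^ 2 * m = Q - P ^ 2 / m := by
    field_simp
    ring
  rw [h5] at h3
  have h6 : P ^ 2 / m ≤ Q := by linarith
  rwa [div_le_iff₀ hm, mul_comm] at h6

/-- Young's inequality for a bounded function. -/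
theorem young {k c : ℝ → ℝ} (hk0 : ∀ r, 0 ≤ k r) (hk : Integrable k) (hm : 0 < ∫ r, k r)
    (hc : Integrable c) {B : ℝ} (hB : ∀ u, |c u| ≤ B) :
    ∃ Q : ℝ → ℝ, Integrable Q ∧ (∀ t, (∫ r, k r * c (t - r)) ^ 2 ≤ Q t) ∧
      ∫ t, Q t = (∫ r, k r) ^ 2 * ∫ u, c u ^ 2 := by
  have hc2 : Integrable (fun u => c u ^ 2) := by
    have : (fun u => c u ^ 2) = fun u => c u * c u := by funext u; ring
    rw [this]
    exact hc.bdd_mul hc.aestronglyMeasurable (Eventually.of_forall fun u => by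
      rw [Real.norm_eq_abs]; exact hB u)
  have hB0 : 0 ≤ B := (abs_nonneg _).trans (hB 0)
  refine ⟨fun t => (∫ r, k r) * (convolution k (fun u => c u ^ 2) (ContinuousLinearMap.mul ℝ ℝ) volume t),
    ?_, ?_, ?_⟩
  · exact (hk.integrable_convolution _ hc2).const_mul _
  · intro t
    have h1 : Integrable (fun r => k r * c (t - r)) := by
      have h2 : AEStronglyMeasurable (fun r => c (t - r)) volume :=
        (hc.comp_sub_left t).aestronglyMeasurable
      exact hk.mul_bdd h2 (Eventually.of_forall fun u => by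
        rw [Real.norm_eq_abs]; exact hB _)
    have h2 : Integrable (fun r => k r * c (t - r) ^ 2) := by
      have h2 : AEStronglyMeasurable (fun r => c (t - r) ^ 2) volume :=
        (hc2.comp_sub_left t).aestronglyMeasurable
      exact hk.mul_bdd (c := B ^ 2) h2 (Eventually.of_forall fun u => by
        rw [Real.norm_eq_abs, abs_pow]
        exact pow_le_pow_left₀ (abs_nonneg _) (hB _) 2)
    exact cs (c := fun r => c (t - r)) hk0 hk h1 h2 hm
  · rw [integral_const_mul, integral_convolution _ hk hc2]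
    simp only [ContinuousLinearMap.mul_apply']
    ring

/-- the second derivative of a scaled function -/
theorem dd_scale {f : ℝ → ℝ} (hf : ContDiff ℝ 2 f) (h : ℝ) (x : ℝ) :
    deriv (deriv (fun x => f (x / h))) x = deriv (deriv f) (x / h) / h ^ 2 := by
  have hd1 : Differentiable ℝ f := hf.differentiable two_ne_zero
  have hf2 : ContDiff ℝ 1 (deriv f) := by
    have : ContDiff ℝ (1 + 1) f := hf
    exact (contDiff_succ_iff_deriv.1 this).2.2
  have hd2 : Differentiable ℝ (deriv f) := hf2.differentiable one_ne_zero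
  have h1 : deriv (fun x => f (x / h)) = fun x => deriv f (x / h) / h := by
    funext y
    have h2 : HasDerivAt (fun x : ℝ => x / h) (1 / h) y := (hasDerivAt_id y).div_const _
    have h3 := (hd1 (y / h)).hasDerivAt.comp y h2
    have h4 : deriv f (y / h) * (1 / h) = deriv f (y / h) / h := by ring
    rw [h4] at h3
    exact h3.deriv
  rw [h1]
  have h2 : HasDerivAt (fun x : ℝ => x / h) (1 / h) x := (hasDerivAt_id x).div_const _
  have h3 := ((hd2 (x / h)).hasDerivAt.comp x h2).div_const h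
  have h4 : deriv (deriv f) (x / h) * (1 / h) / h = deriv (deriv f) (x / h) / h ^ 2 := by
    rw [mul_one_div, div_div, sq]
  rw [h4] at h3
  exact h3.deriv

theorem ww_nonneg (T : ℝ) (s : ℂ) : 0 ≤ ww T s := by
  unfold ww; positivity

theorem ww_one (T : ℝ) (s : ℂ) : 1 ≤ ww T s := by
  unfold ww
  have : 0 ≤ (Real.log T * (s.re - 1 / 2)) ^ 2 * Real.exp (Real.log T * |s.re - 1 / 2| / 4) := by positivity
  linarith

/-- the sum over the zeros is bounded by a convolution -/
theorem sum_le {T H : ℝ} (hL : 0 < Real.log T) (hH : 0 < H) (hLH : 1 / Real.log T ≤ H) (t : ℝ) :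
    ∑ z ∈ H370.Zf riemannZeta T (2 * T), (mz z : ℝ) * (ww T z * ka ((z.im - t) / H)) ≤
      3 * Real.log T * ∫ r : ℝ, ka (r / H) * cw T (t - r) (t - r + 1 / Real.log T) := by
  have h0 : ∀ z : ℂ, Integrable (fun r : ℝ => ka (r / H) *
      (Ioc (t - r) (t - r + 1 / Real.log T)).indicator (fun _ => (1 : ℝ)) z.im) := by
    intro z
    refine (ka_int hH).mul_bdd (c := 1) ?_ (Eventually.of_forall fun r => ?_)
    · apply Measurable.aestronglyMeasurable
      have : (fun r : ℝ => (Ioc (t - r) (t - r + 1 / Real.log T)).indicator (fun _ => (1 : ℝ)) z.im) =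
          (Ico (t - z.im) (t - z.im + 1 / Real.log T) \ {t - z.im} ∪ {t - z.im + 1 / Real.log T}).indicator
            (fun _ => (1 : ℝ)) := by
        funext r
        by_cases hr : r ∈ Ioc (t - z.im) (t - z.im + 1 / Real.log T)
        · rw [indicator_of_mem, indicator_of_mem]
          · by_cases h : r = t - z.im + 1 / Real.log T
            · right; exact h
            · left
              exact ⟨⟨hr.1.le, lt_of_le_of_ne hr.2 h⟩, fun h' => by
                rw [mem_singleton_iff] at h'; exact absurd hr.1 (by rw [h']; exact lt_irrefl _)⟩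
          · exact ⟨by linarith [hr.1], by linarith [hr.2]⟩
        · rw [indicator_of_notMem, indicator_of_notMem]
          · rintro (⟨h1, h2⟩ | h)
            · exact hr ⟨lt_of_le_of_ne h1.1 (fun h => h2 h.symm), h1.2.le⟩
            · rw [mem_singleton_iff] at h
              have : 0 < 1 / Real.log T := by positivity
              exact hr ⟨by rw [h]; linarith, h.le⟩
          · intro h
            exact hr ⟨by linarith [h.1], by linarith [h.2]⟩
      rw [this]
      exact (measurable_const.indicator (((measurableSet_Ico.diff (measurableSet_singleton _))).union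
        (measurableSet_singleton _)))
    · rw [Real.norm_eq_abs]
      by_cases h : z.im ∈ Ioc (t - r) (t - r + 1 / Real.log T)
      · rw [indicator_of_mem h]; simp
      · rw [indicator_of_notMem h]; simp
  have h1 : (fun r : ℝ => ka (r / H) * cw T (t - r) (t - r + 1 / Real.log T)) = fun r =>
      ∑ z ∈ H370.Zf riemannZeta T (2 * T), ((mz z : ℝ) * ww T z) * (ka (r / H) *
        (Ioc (t - r) (t - r + 1 / Real.log T)).indicator (fun _ => (1 : ℝ)) z.im) := by
    funext r
    unfold cw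
    rw [Finset.mul_sum]
    exact Finset.sum_congr rfl fun z _ => by ring
  rw [h1, integral_finsetSum _ (fun z _ => (h0 z).const_mul _), Finset.mul_sum]
  refine Finset.sum_le_sum fun z _ => ?_
  rw [integral_const_mul]
  have h2 := one_pt (g := z.im) (t := t) hH (show 0 < 1 / Real.log T by positivity) hLH
  have h3 : 0 ≤ (mz z : ℝ) * ww T z := mul_nonneg (Nat.cast_nonneg _) (ww_nonneg T z)
  calc (mz z : ℝ) * (ww T z * ka ((z.im - t) / H)) = ((mz z : ℝ) * ww T z) * ka ((z.im - t) / H) := by ring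
    _ ≤ ((mz z : ℝ) * ww T z) * (3 / (1 / Real.log T) * ∫ r : ℝ, ka (r / H) *
        (Ioc (t - r) (t - r + 1 / Real.log T)).indicator (fun _ => (1 : ℝ)) z.im) :=
        mul_le_mul_of_nonneg_left h2 h3
    _ = _ := by field_simp

theorem cw_eq (T u δ : ℝ) : cw T u (u + δ) = ∑ z ∈ H370.Zf riemannZeta T (2 * T), (mz z : ℝ) * ww T z *
    (Ico (z.im - δ) z.im).indicator (fun _ => (1 : ℝ)) u := by
  unfold cw
  refine Finset.sum_congr rfl fun z _ => ?_
  congr 1
  by_cases h : z.im ∈ Ioc u (u + δ)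
  · rw [indicator_of_mem h, indicator_of_mem]
    exact ⟨by linarith [h.2], h.1⟩
  · rw [indicator_of_notMem h, indicator_of_notMem]
    intro h'
    exact h ⟨h'.2, by linarith [h'.1]⟩

theorem cw_int (T δ : ℝ) : Integrable (fun u => cw T u (u + δ)) := by
  simp only [cw_eq]
  refine integrable_finsetSum _ fun z _ => Integrable.const_mul ?_ _
  rw [integrable_indicator_iff measurableSet_Ico]
  exact integrableOn_const (by simp)

theorem cw_bd (T δ u : ℝ) : |cw T u (u + δ)| ≤ ∑ z ∈ H370.Zf riemannZeta T (2 * T), (mz z : ℝ) * ww T z := by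
  rw [cw_eq]
  refine (Finset.abs_sum_le_sum_abs _ _).trans (Finset.sum_le_sum fun z _ => ?_)
  have h3 : 0 ≤ (mz z : ℝ) * ww T z := mul_nonneg (Nat.cast_nonneg _) (ww_nonneg T z)
  rw [abs_mul, abs_of_nonneg h3]
  refine mul_le_of_le_one_right h3 ?_
  by_cases h : u ∈ Ico (z.im - δ) z.im
  · rw [indicator_of_mem h]; simp
  · rw [indicator_of_notMem h]; simp

/-- one zero -/
theorem gz_le' {CK M R y L e k : ℝ} (hCK : 0 < CK) (hM : 0 ≤ M) (hR : R = L / 4) (hL : 0 < L)
    (he : e = Real.exp (R * |y|)) :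
    CK * M * (1 / R ^ 2 + y ^ 2 * e) / (1 + k ^ 2) ≤
      (CK * M * (16 / L ^ 2)) * ((1 + (L * y) ^ 2 * Real.exp (L * |y| / 4)) * ka k) := by
  unfold ka
  have h1 : Real.exp (L * |y| / 4) = e := by rw [he, hR]; congr 1; ring
  rw [h1, div_eq_mul_inv, ← mul_assoc]
  refine mul_le_mul_of_nonneg_right ?_ (by positivity)
  rw [mul_assoc (CK * M)]
  refine mul_le_mul_of_nonneg_left ?_ (by positivity)
  have he0 : 0 < e := by rw [he]; exact Real.exp_pos _
  have h2 : 1 / R ^ 2 = 16 / L ^ 2 := by rw [hR]; field_simp; norm_num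
  have h3 : 16 / L ^ 2 * (1 + (L * y) ^ 2 * e) = 16 / L ^ 2 + 16 * (y ^ 2 * e) := by field_simp
  rw [h2, h3]
  have : 0 ≤ y ^ 2 * e := by positivity
  linarith

end L2L

open L2L

theorem t_L2 (hP : S_PT) (hK : S_KP) (hW : S_W2) : S_L2 := by
  intro f hf hs
  obtain ⟨CP, TP, hCP, hTP, hP⟩ := hP
  obtain ⟨CK, hCK, hK⟩ := hK
  obtain ⟨CW, TW, hCW, hTW, hW⟩ := hW
  obtain ⟨A, hA1, hA⟩ : ∃ A : ℝ, 1 ≤ A ∧ ∀ x, A ≤ |x| → f x = 0 := by
    obtain ⟨B, hB⟩ := hs.isCompact.isBounded.exists_norm_le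
    refine ⟨max 1 (B + 1), le_max_left _ _, fun x hx => ?_⟩
    by_contra hne
    have h1 := hB x (subset_tsupport f (Function.mem_support.2 hne))
    rw [Real.norm_eq_abs] at h1
    have h2 := (le_max_right 1 (B + 1)).trans hx
    linarith
  have hf2 : ContDiff ℝ 1 (deriv f) := by
    have : ContDiff ℝ (1 + 1) f := hf
    exact (contDiff_succ_iff_deriv.1 this).2.2
  have hf3 : Continuous (deriv (deriv f)) := hf2.continuous_deriv le_rfl
  obtain ⟨M0, hM00, hM0⟩ : ∃ M0 : ℝ, 0 ≤ M0 ∧ ∀ x, |deriv (deriv f) x| ≤ M0 := by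
    obtain ⟨B, hB⟩ := hf3.bounded_above_of_compact_support hs.deriv.deriv
    exact ⟨B, (norm_nonneg _).trans (hB 0), fun x => by rw [← Real.norm_eq_abs]; exact hB x⟩
  set I1 : ℝ := ∫ x : ℝ, |f x| with hI1
  have hI10 : 0 ≤ I1 := integral_nonneg fun x => abs_nonneg _
  refine ⟨4608 * CK ^ 2 * M0 ^ 2 * A ^ 2 * Real.pi ^ 2 * CW + 2 * CP ^ 2 * I1 ^ 2 + 1, 4 * A, max TP TW,
    by positivity, by linarith, le_max_of_le_left hTP, ?_⟩
  intro T hT h hKh hh
  obtain ⟨h20, h10, U1, U2, hU1, hU1', hU2, hU2', hP⟩ := hP T ((le_max_left _ _).trans hT)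
  have hW := hW T ((le_max_right _ _).trans hT)
  set L : ℝ := Real.log T with hLd
  have hL : 0 < L := by linarith
  have hh0 : 0 < h := by
    by_contra hneg
    push Not at hneg
    have : h * L ≤ 0 := mul_nonpos_of_nonpos_of_nonneg hneg hL.le
    linarith
  have hh' : h * (4 * A) ≤ 1 := by rwa [le_div_iff₀ (by positivity)] at hh
  set H : ℝ := A * h with hHd
  have hH : 0 < H := by positivity
  have hH1 : H ≤ 1 := by nlinarith
  set F : ℝ → ℝ := fun x => f (x / h) with hF
  have hC2 : C2c F := by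
    refine ⟨hf.comp (contDiff_id.div_const h), fun x hx => ?_⟩
    apply hA
    rw [abs_div, abs_of_pos hh0, le_div_iff₀ hh0]
    nlinarith
  have hFM : ∀ x, |deriv (deriv F) x| ≤ M0 / h ^ 2 := by
    intro x
    rw [hF, dd_scale hf h x, abs_div, abs_of_pos (by positivity : 0 < h ^ 2)]
    exact div_le_div_of_nonneg_right (hM0 _) (by positivity)
  have hFH : ∀ x, H ≤ |x| → F x = 0 := by
    intro x hx
    apply hA
    rw [abs_div, abs_of_pos hh0, le_div_iff₀ hh0]
    exact hx
  have hR1 : 1 ≤ L / 4 := by linarith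
  have hRH : 1 ≤ L / 4 * H := by
    rw [hHd]
    nlinarith
  have hF1 : ∫ x : ℝ, |F x| = h * I1 := ADML.int_abs_scale f hh0
  have hLH : 1 / L ≤ H := by
    rw [div_le_iff₀ hL]
    nlinarith
  -- the pointwise bound
  set M : ℝ := M0 / h ^ 2 with hMd
  have hM : 0 ≤ M := by positivity
  set c : ℝ → ℝ := fun u => cw T u (u + 1 / L) with hc
  set D : ℝ := CK * M * (16 / L ^ 2) * (3 * L) with hD
  have hD0 : 0 ≤ D := by positivity
  have hT1 : 1 ≤ T := by
    have := le_max_left TP TW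
    linarith
  have hU11 : 1 ≤ U1 := by linarith
  have hsub : H370.Zf riemannZeta U1 U2 ⊆ H370.Zf riemannZeta T (2 * T) := by
    intro z hz
    rw [H370.mem_Zf H370.good_zeta hU11] at hz
    rw [H370.mem_Zf H370.good_zeta hT1]
    obtain ⟨ha, hb, hc, hd, he⟩ := hz
    exact ⟨ha, hb, by linarith, by linarith, he⟩
  have hpt : ∀ t, T + 2 * L ≤ t → t ≤ 2 * T - 2 * L →
      |XF F T t + BB F (L / 4) t| ≤ D * (∫ r : ℝ, ka (r / H) * c (t - r)) + CP * (h * I1) := by
    intro t ht1 ht2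
    refine (hP F hC2 t ht1 ht2).trans ?_
    rw [hF1]
    refine add_le_add ?_ le_rfl
    have h1 : ∀ z ∈ H370.Zf riemannZeta U1 U2, (mz z : ℝ) * gz F (L / 4) z (z.im - t) ≤
        (CK * M * (16 / L ^ 2)) * ((mz z : ℝ) * (ww T z * ka ((z.im - t) / H))) := by
      intro z hz
      rw [H370.mem_Zf H370.good_zeta hU11] at hz
      obtain ⟨ha, hb, -, -, -⟩ := hz
      have h2 := hK F hC2 M H hH hH1 hFM hFH (L / 4) hR1 hRH z (z.im - t) (by
        rw [abs_le]; constructor <;> linarith)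
      have h3 := h2.trans (gz_le' hCK hM rfl hL rfl)
      calc (mz z : ℝ) * gz F (L / 4) z (z.im - t) ≤ (mz z : ℝ) * ((CK * M * (16 / L ^ 2)) *
          ((1 + (L * (z.re - 1 / 2)) ^ 2 * Real.exp (L * |z.re - 1 / 2| / 4)) * ka ((z.im - t) / H))) :=
            mul_le_mul_of_nonneg_left h3 (Nat.cast_nonneg _)
        _ = _ := by unfold ww; ring
    calc ∑ z ∈ H370.Zf riemannZeta U1 U2, (mz z : ℝ) * gz F (L / 4) z (z.im - t) ≤
        ∑ z ∈ H370.Zf riemannZeta U1 U2, (CK * M * (16 / L ^ 2)) * ((mz z : ℝ) * (ww T z * ka ((z.im - t) / H))) :=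
          Finset.sum_le_sum h1
      _ ≤ ∑ z ∈ H370.Zf riemannZeta T (2 * T), (CK * M * (16 / L ^ 2)) *
          ((mz z : ℝ) * (ww T z * ka ((z.im - t) / H))) := by
          refine Finset.sum_le_sum_of_subset_of_nonneg hsub fun z _ _ => ?_
          have h3 : 0 ≤ (mz z : ℝ) * (ww T z * ka ((z.im - t) / H)) :=
            mul_nonneg (Nat.cast_nonneg _) (mul_nonneg (ww_nonneg T z) (ka_pos _).le)
          positivity
      _ = (CK * M * (16 / L ^ 2)) * ∑ z ∈ H370.Zf riemannZeta T (2 * T),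
          (mz z : ℝ) * (ww T z * ka ((z.im - t) / H)) := by rw [Finset.mul_sum]
      _ ≤ (CK * M * (16 / L ^ 2)) * (3 * L * ∫ r : ℝ, ka (r / H) * c (t - r)) :=
          mul_le_mul_of_nonneg_left (sum_le hL hH hLH t) (by positivity)
      _ = _ := by rw [hD]; ring
  obtain ⟨Q, hQi, hQ1, hQ2⟩ := young (k := fun r => ka (r / H)) (c := c) (fun r => (ka_pos _).le) (ka_int hH)
    (by rw [ka_mass hH]; positivity) (cw_int T (1 / L)) (cw_bd T (1 / L))
  rw [ka_mass hH] at hQ2
  have hQ0 : ∀ t, 0 ≤ Q t := fun t => (sq_nonneg _).trans (hQ1 t)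
  set E : ℝ := CP * (h * I1) with hE
  have hE0 : 0 ≤ E := by positivity
  have hab : T + 2 * L ≤ 2 * T - 2 * L := by linarith
  have hfin : 2 * D ^ 2 * (∫ t, Q t) + 2 * E ^ 2 * T ≤
      (4608 * CK ^ 2 * M0 ^ 2 * A ^ 2 * Real.pi ^ 2 * CW + 2 * CP ^ 2 * I1 ^ 2 + 1) * T *
        (1 / (h * L) ^ 2 + h ^ 2) := by
    rw [hQ2]
    have h1 : 2 * D ^ 2 * ((H * Real.pi) ^ 2 * ∫ u, c u ^ 2) ≤ 2 * D ^ 2 * ((H * Real.pi) ^ 2 * (CW * T)) := by
      gcongr
    have h2 : 2 * D ^ 2 * ((H * Real.pi) ^ 2 * (CW * T)) =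
        4608 * CK ^ 2 * M0 ^ 2 * A ^ 2 * Real.pi ^ 2 * CW * T * (1 / (h * L) ^ 2) := by
      rw [hD, hHd, hMd]
      field_simp
      ring
    have h3 : 2 * E ^ 2 * T = 2 * CP ^ 2 * I1 ^ 2 * T * h ^ 2 := by rw [hE]; ring
    have h4 : 0 ≤ 1 / (h * L) ^ 2 := by positivity
    have h5 : 0 ≤ 4608 * CK ^ 2 * M0 ^ 2 * A ^ 2 * Real.pi ^ 2 * CW * T * h ^ 2 := by positivity
    have h6 : 0 ≤ 2 * CP ^ 2 * I1 ^ 2 * T * (1 / (h * L) ^ 2) := by positivity
    have h7 : 0 ≤ T * (1 / (h * L) ^ 2 + h ^ 2) := by positivity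
    calc _ ≤ 4608 * CK ^ 2 * M0 ^ 2 * A ^ 2 * Real.pi ^ 2 * CW * T * (1 / (h * L) ^ 2) +
          2 * CP ^ 2 * I1 ^ 2 * T * h ^ 2 := by rw [← h2, ← h3]; exact add_le_add h1 le_rfl
      _ ≤ 4608 * CK ^ 2 * M0 ^ 2 * A ^ 2 * Real.pi ^ 2 * CW * T * (1 / (h * L) ^ 2) +
          2 * CP ^ 2 * I1 ^ 2 * T * h ^ 2 +
          (4608 * CK ^ 2 * M0 ^ 2 * A ^ 2 * Real.pi ^ 2 * CW * T * h ^ 2 +
          2 * CP ^ 2 * I1 ^ 2 * T * (1 / (h * L) ^ 2) + T * (1 / (h * L) ^ 2 + h ^ 2)) := by linarith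
      _ = _ := by ring
  by_cases hint : IntervalIntegrable (fun t => (XF F T t + BB F (L / 4) t) ^ 2) volume (T + 2 * L) (2 * T - 2 * L)
  · have hQint : IntervalIntegrable (fun t => 2 * D ^ 2 * Q t) volume (T + 2 * L) (2 * T - 2 * L) :=
      (hQi.const_mul _).intervalIntegrable
    have h1 : ∫ t in (T + 2 * L)..(2 * T - 2 * L), (XF F T t + BB F (L / 4) t) ^ 2 ≤
        ∫ t in (T + 2 * L)..(2 * T - 2 * L), (2 * D ^ 2 * Q t + 2 * E ^ 2) := by
      refine intervalIntegral.integral_mono_on hab hint (hQint.add intervalIntegrable_const) fun t ht => ?_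
      have h2 := hpt t ht.1 ht.2
      have h3 : 0 ≤ ∫ r : ℝ, ka (r / H) * c (t - r) := integral_nonneg fun r =>
        mul_nonneg (ka_pos _).le (by
          rw [hc]
          unfold cw
          refine Finset.sum_nonneg fun z _ => mul_nonneg (mul_nonneg (Nat.cast_nonneg _) (ww_nonneg T z)) ?_
          exact indicator_nonneg (fun _ _ => zero_le_one) _)
      calc (XF F T t + BB F (L / 4) t) ^ 2 = |XF F T t + BB F (L / 4) t| ^ 2 := (sq_abs _).symm
        _ ≤ (D * (∫ r : ℝ, ka (r / H) * c (t - r)) + E) ^ 2 := pow_le_pow_left₀ (abs_nonneg _) h2 2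
        _ ≤ 2 * (D * (∫ r : ℝ, ka (r / H) * c (t - r))) ^ 2 + 2 * E ^ 2 := by
          nlinarith [sq_nonneg (D * (∫ r : ℝ, ka (r / H) * c (t - r)) - E)]
        _ = 2 * D ^ 2 * (∫ r : ℝ, ka (r / H) * c (t - r)) ^ 2 + 2 * E ^ 2 := by ring
        _ ≤ 2 * D ^ 2 * Q t + 2 * E ^ 2 := by
          have := hQ1 t
          gcongr
    have h2 : ∫ t in (T + 2 * L)..(2 * T - 2 * L), (2 * D ^ 2 * Q t + 2 * E ^ 2) ≤
        2 * D ^ 2 * (∫ t, Q t) + 2 * E ^ 2 * T := by
      rw [intervalIntegral.integral_add hQint intervalIntegrable_const, intervalIntegral.integral_const_mul,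
        intervalIntegral.integral_const, smul_eq_mul]
      refine add_le_add ?_ ?_
      · refine mul_le_mul_of_nonneg_left ?_ (by positivity)
        rw [intervalIntegral.integral_of_le hab]
        exact setIntegral_le_integral hQi (Eventually.of_forall hQ0)
      · rw [mul_comm]
        exact mul_le_mul_of_nonneg_left (by linarith) (by positivity)
    exact h1.trans (h2.trans hfin)
  · rw [intervalIntegral.integral_undef hint]
    positivity

end Pool.Agent.H203.ME
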