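import Pool.Agent.H203.ME.Defs3

set_option autoImplicit false

open Complex Filter Topology Set MeasureTheory

namespace Pool.Agent.H203.ME

namespace NTL

/-! ### integrals of indicators -/

lemma ind_int_le {a b c d : ℝ} (hab : a ≤ b) (hcd : c ≤ d) :
    ∫ t in a..b, (Ico c d).indicator (fun _ => (1 : ℝ)) t ≤ d - c := by
  rw [intervalIntegral.integral_of_le hab]
  have h2 : Integrable ((Ico c d).indicator (fun _ => (1 : ℝ))) :=
    (integrable_indicator_iff measurableSet_Ico).2 (integrableOn_const (by simp))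
  calc ∫ t in Ioc a b, (Ico c d).indicator (fun _ => (1 : ℝ)) t
      ≤ ∫ t, (Ico c d).indicator (fun _ => (1 : ℝ)) t :=
        setIntegral_le_integral h2 (Eventually.of_forall fun t => indicator_nonneg (by simp) t)
    _ = d - c := by
        rw [integral_indicator measurableSet_Ico]
        simp [hcd]

lemma ind_int_eq {a b c d : ℝ} (hac : a ≤ c) (hcd : c ≤ d) (hdb : d ≤ b) :
    ∫ t in a..b, (Ioc c d).indicator (fun _ => (1 : ℝ)) t = d - c := by
  rw [intervalIntegral.integral_of_le (hac.trans (hcd.trans hdb)),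
    setIntegral_indicator measurableSet_Ioc]
  have : Ioc a b ∩ Ioc c d = Ioc c d := by
    apply inter_eq_right.2
    exact Ioc_subset_Ioc hac hdb
  rw [this]
  simp [hcd]

lemma ind_ii (s : Set ℝ) (hs : MeasurableSet s) (a b : ℝ) :
    IntervalIntegrable (s.indicator (fun _ => (1 : ℝ))) volume a b := by
  constructor <;> exact (integrableOn_const (by simp)).indicator hs

/-! ### the zeros in crowded windows -/

open Classical in
/-- the zeros in a window of one mean spacing with at least `x` zeros -/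
noncomputable def bad (T x : ℝ) : Finset ℂ :=
  (H370.Zf riemannZeta T (2 * T)).filter (fun z => ∃ t : ℝ, T + 3 * Real.log T ≤ t ∧
    t ≤ 2 * T - 3 * Real.log T ∧ t < z.im ∧ z.im ≤ t + 1 / Real.log T ∧
    x ≤ cnt T t (t + 1 / Real.log T))

/-- their number -/
noncomputable def Q (T x : ℝ) : ℝ := ∑ z ∈ bad T x, (mz z : ℝ)

lemma Q_nonneg (T x : ℝ) : 0 ≤ Q T x := Finset.sum_nonneg fun _ _ => Nat.cast_nonneg _

lemma Q_anti (T : ℝ) {x y : ℝ} (hxy : x ≤ y) : Q T y ≤ Q T x := by
  classical
  refine Finset.sum_le_sum_of_subset_of_nonneg ?_ fun _ _ _ => Nat.cast_nonneg _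
  intro z hz
  unfold bad at hz ⊢
  rw [Finset.mem_filter] at hz ⊢
  obtain ⟨h1, t, h2, h3, h4, h5, h6⟩ := hz
  exact ⟨h1, t, h2, h3, h4, h5, hxy.trans h6⟩

lemma Q_le_all (T x : ℝ) (hT : 1 ≤ T) : Q T x ≤ (H370.NN riemannZeta T (2 * T) : ℝ) := by
  classical
  rw [H370.NN_eq H370.good_zeta hT]
  push_cast
  refine Finset.sum_le_sum_of_subset_of_nonneg ?_ fun _ _ _ => Nat.cast_nonneg _
  unfold bad
  exact Finset.filter_subset _ _

lemma cnt_nonneg (T a b : ℝ) : 0 ≤ cnt T a b := by
  unfold cnt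
  exact Finset.sum_nonneg fun z _ => mul_nonneg (Nat.cast_nonneg _) (indicator_nonneg (by simp) _)

lemma cnt_mono (T : ℝ) {a b a' b' : ℝ} (ha : a' ≤ a) (hb : b ≤ b') : cnt T a b ≤ cnt T a' b' := by
  unfold cnt
  refine Finset.sum_le_sum fun z _ => mul_le_mul_of_nonneg_left ?_ (Nat.cast_nonneg _)
  exact indicator_le_indicator_of_subset (Ioc_subset_Ioc ha hb) (fun _ => zero_le_one) _

/-- first reduction -/
lemma int_G_le {T x : ℝ} (hL : 0 < Real.log T) (hT : 6 * Real.log T ≤ T) :
    ∫ t in (T + 3 * Real.log T)..(2 * T - 3 * Real.log T),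
    (if x ≤ cnt T t (t + 1 / Real.log T) then cnt T t (t + 1 / Real.log T) else 0) ≤
      Q T x / Real.log T := by
  classical
  set L := Real.log T with hLd
  have hab : T + 3 * L ≤ 2 * T - 3 * L := by linarith
  have hL1 : 0 < 1 / L := by positivity
  have hpt : ∀ t ∈ Icc (T + 3 * L) (2 * T - 3 * L),
      (if x ≤ cnt T t (t + 1 / L) then cnt T t (t + 1 / L) else 0) ≤
      ∑ z ∈ bad T x, (mz z : ℝ) * (Ico (z.im - 1 / L) z.im).indicator (fun _ => (1 : ℝ)) t := by
    intro t ht
    split_ifs with hx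
    · unfold bad
      rw [Finset.sum_filter]
      conv_lhs => unfold cnt
      refine Finset.sum_le_sum fun z _ => ?_
      by_cases hz : z.im ∈ Ioc t (t + 1 / L)
      · rw [if_pos ⟨t, ht.1, ht.2, hz.1, hz.2, hx⟩, indicator_of_mem hz, indicator_of_mem]
        exact ⟨by linarith [hz.2], hz.1⟩
      · rw [indicator_of_notMem hz, mul_zero]
        split_ifs
        · exact mul_nonneg (Nat.cast_nonneg _) (indicator_nonneg (by simp) _)
        · exact le_rfl
    · exact Finset.sum_nonneg fun z _ => mul_nonneg (Nat.cast_nonneg _) (indicator_nonneg (by simp) _)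
  have hii : IntervalIntegrable (fun t => ∑ z ∈ bad T x, (mz z : ℝ) *
      (Ico (z.im - 1 / L) z.im).indicator (fun _ => (1 : ℝ)) t) volume (T + 3 * L) (2 * T - 3 * L) := by
    have h1 : (fun t => ∑ z ∈ bad T x, (mz z : ℝ) *
        (Ico (z.im - 1 / L) z.im).indicator (fun _ => (1 : ℝ)) t) = ∑ z ∈ bad T x, (fun t => (mz z : ℝ) *
        (Ico (z.im - 1 / L) z.im).indicator (fun _ => (1 : ℝ)) t) := by
      funext t
      rw [Finset.sum_apply]
    rw [h1]
    apply IntervalIntegrable.sum
    intro z _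
    exact (ind_ii _ measurableSet_Ico _ _).const_mul _
  have hR : ∫ t in (T + 3 * L)..(2 * T - 3 * L), ∑ z ∈ bad T x, (mz z : ℝ) *
      (Ico (z.im - 1 / L) z.im).indicator (fun _ => (1 : ℝ)) t ≤ Q T x / L := by
    rw [intervalIntegral.integral_finsetSum]
    · unfold Q
      rw [Finset.sum_div]
      refine Finset.sum_le_sum fun z _ => ?_
      rw [intervalIntegral.integral_const_mul, div_eq_mul_one_div]
      refine mul_le_mul_of_nonneg_left ?_ (Nat.cast_nonneg _)
      refine (ind_int_le hab (by linarith)).trans (le_of_eq (by ring))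
    · intro z _
      exact (ind_ii _ measurableSet_Ico _ _).const_mul _
  by_cases hI : IntervalIntegrable (fun t => if x ≤ cnt T t (t + 1 / L) then cnt T t (t + 1 / L) else 0)
      volume (T + 3 * L) (2 * T - 3 * L)
  · exact (intervalIntegral.integral_mono_on hab hI hii hpt).trans hR
  · rw [intervalIntegral.integral_undef hI]
    exact div_nonneg (Q_nonneg _ _) hL.le


/-! ### the bump and its scalings -/

/-- the bump, `1` on `[-1, 1]` and `0` outside of `[-2, 2]` -/
noncomputable def f0 (x : ℝ) : ℝ := LLNL.bu (-2) 2 1 x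

lemma f0_nonneg (x : ℝ) : 0 ≤ f0 x := LLNL.bu_nonneg _ _ _ _

lemma f0_one {x : ℝ} (h1 : -1 ≤ x) (h2 : x ≤ 1) : f0 x = 1 :=
  LLNL.bu_one one_pos (by linarith) (by linarith)

lemma f0_int_le : ∫ x, f0 x ≤ 4 := by
  have := LLNL.bu_int_le (p := -2) (q := 2) one_pos (by norm_num)
  unfold f0
  linarith

lemma f0_int_scale {s : ℝ} (hs : 0 < s) : ∫ x, f0 (x / s) ≤ 4 * s := by
  rw [Measure.integral_comp_div (fun x => f0 x) s, abs_of_pos hs, smul_eq_mul]
  nlinarith [f0_int_le]

lemma f0_abs_scale {s : ℝ} (hs : 0 < s) : ∫ x, |f0 (x / s)| ≤ 4 * s := by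
  have : (fun x => |f0 (x / s)|) = fun x => f0 (x / s) := by
    funext x
    exact abs_of_nonneg (f0_nonneg _)
  rw [this]
  exact f0_int_scale hs

/-- the second derivative of the scaled bump -/
lemma f0_dd_scale {s : ℝ} (hs : 0 < s) :
    ∫ x, |deriv (deriv (fun y => f0 (y / s))) x| = s⁻¹ * ∫ x, |deriv (deriv f0) x| := by
  have hcd : ContDiff ℝ 2 f0 := LLNL.bu_cd _ _ _
  have h1 : ∀ g : ℝ → ℝ, Differentiable ℝ g →
      deriv (fun y => g (y / s)) = fun y => s⁻¹ * deriv g (y / s) := by
    intro g hg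
    funext x
    have h2 : HasDerivAt (fun x : ℝ => x / s) (1 / s) x := (hasDerivAt_id x).div_const _
    have h3 := (hg (x / s)).hasDerivAt.comp x h2
    have h4 : deriv g (x / s) * (1 / s) = s⁻¹ * deriv g (x / s) := by
      rw [one_div]; ring
    rw [h4] at h3
    exact h3.deriv
  have hd1 : Differentiable ℝ f0 := hcd.differentiable (by norm_num)
  have hd2 : Differentiable ℝ (deriv f0) := by
    have : ContDiff ℝ 1 (deriv f0) := (contDiff_succ_iff_deriv (n := 1)).1 (by exact_mod_cast hcd) |>.2.2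
    exact this.differentiable (by norm_num)
  have e : deriv (deriv (fun y => f0 (y / s))) = fun x => s⁻¹ * (s⁻¹ * deriv (deriv f0) (x / s)) := by
    rw [h1 _ hd1]
    funext x
    rw [deriv_const_mul]
    · rw [h1 _ hd2]
    · exact (hd2.comp (differentiable_id.div_const s)) x
  rw [e]
  have e2 : (fun x => |s⁻¹ * (s⁻¹ * deriv (deriv f0) (x / s))|) =
      fun x => (s⁻¹ * s⁻¹) * |deriv (deriv f0) (x / s)| := by
    funext x
    rw [abs_mul, abs_mul, abs_of_pos (inv_pos.2 hs), mul_assoc]
  rw [e2, integral_const_mul, Measure.integral_comp_div (fun x => |deriv (deriv f0) x|) s,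
    abs_of_pos hs, smul_eq_mul]
  field_simp

/-! ### the pointwise inequality -/

lemma key_pt {T x s CA t' B : ℝ} (hT : 1 ≤ T) (hL : 20 ≤ Real.log T) (hx : 8 ≤ x)
    (hs : s = x / (2 * Real.log T)) (hF : C2c (fun y => f0 (y / s)))
    (hCA : 0 < CA) (hCAs : CA * (4 * s) ≤ x / 12)
    (h1 : T + 2 * Real.log T ≤ t') (h2 : t' ≤ 2 * T - 2 * Real.log T) :
    ∑ z ∈ bad T x, (mz z : ℝ) * (Ioc (z.im - s / 4) (z.im + s / 4)).indicator (fun _ => (1 : ℝ)) t' ≤
      9 / 2 * max 0 (|XF (fun y => f0 (y / s)) T t' + B| - CA * ∫ y : ℝ, |(fun y => f0 (y / s)) y|) +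
        9 / x * B ^ 2 := by
  classical
  set L := Real.log T with hLd
  have hL0 : 0 < L := by linarith
  have hx0 : 0 < x := by linarith
  have hs0 : 0 < s := by rw [hs]; positivity
  have hsL : s * L = x / 2 := by rw [hs]; field_simp
  have hLs : 1 / L ≤ s / 4 := by
    rw [div_le_iff₀ hL0]
    nlinarith
  set F : ℝ → ℝ := fun y => f0 (y / s) with hFd
  set X := XF F T t' with hX
  set E := max 0 (|X + B| - CA * ∫ y : ℝ, |F y|) with hE
  have hE0 : 0 ≤ E := le_max_left _ _
  by_cases hz : ∃ z ∈ bad T x, t' ∈ Ioc (z.im - s / 4) (z.im + s / 4)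
  · obtain ⟨z, hzb, hzt⟩ := hz
    unfold bad at hzb
    rw [Finset.mem_filter] at hzb
    obtain ⟨-, t, -, -, ht1, ht2, ht3⟩ := hzb
    set W := cnt T (t' - s) (t' + s) with hW
    have hWx : x ≤ W := by
      refine ht3.trans (cnt_mono T ?_ ?_)
      · linarith [hzt.2]
      · linarith [hzt.1]
    -- the sum is at most W
    have hsumW : ∑ z ∈ bad T x, (mz z : ℝ) * (Ioc (z.im - s / 4) (z.im + s / 4)).indicator
        (fun _ => (1 : ℝ)) t' ≤ W := by
      have e1 : ∑ z ∈ bad T x, (mz z : ℝ) * (Ioc (z.im - s / 4) (z.im + s / 4)).indicator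
          (fun _ => (1 : ℝ)) t' ≤ ∑ z ∈ H370.Zf riemannZeta T (2 * T), (mz z : ℝ) *
          (Ioc (z.im - s / 4) (z.im + s / 4)).indicator (fun _ => (1 : ℝ)) t' := by
        refine Finset.sum_le_sum_of_subset_of_nonneg ?_ fun _ _ _ =>
          mul_nonneg (Nat.cast_nonneg _) (indicator_nonneg (by simp) _)
        unfold bad
        exact Finset.filter_subset _ _
      refine e1.trans ?_
      rw [hW]
      unfold cnt
      refine Finset.sum_le_sum fun z _ => mul_le_mul_of_nonneg_left ?_ (Nat.cast_nonneg _)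
      by_cases hz : t' ∈ Ioc (z.im - s / 4) (z.im + s / 4)
      · rw [indicator_of_mem hz, indicator_of_mem]
        exact ⟨by linarith [hz.2, hz.1], by linarith [hz.2, hz.1]⟩
      · rw [indicator_of_notMem hz]
        exact indicator_nonneg (by simp) _
    -- X is at least W - x/3
    have hXW : W - x / 3 ≤ X := by
      have xp := XF_eq hF (U1 := T) (U2 := 2 * T) (T := T) (t := t') hT (by linarith) (by linarith)
      rw [hX, xp]
      have c1 : W ≤ ∑ z ∈ H370.Zf riemannZeta T (2 * T), (mz z : ℝ) * F (z.im - t') := by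
        rw [hW]
        unfold cnt
        refine Finset.sum_le_sum fun z _ => mul_le_mul_of_nonneg_left ?_ (Nat.cast_nonneg _)
        by_cases hz : z.im ∈ Ioc (t' - s) (t' + s)
        · rw [indicator_of_mem hz, hFd]
          simp only
          rw [f0_one]
          · rw [le_div_iff₀ hs0]; linarith [hz.1]
          · rw [div_le_iff₀ hs0]; linarith [hz.2]
        · rw [indicator_of_notMem hz]
          exact f0_nonneg _
      have c2 : Real.log T / (2 * Real.pi) * ∫ y : ℝ, F y ≤ x / 3 := by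
        rw [← hLd]
        have hpi := Real.pi_gt_three
        calc L / (2 * Real.pi) * ∫ y : ℝ, F y ≤ L / (2 * Real.pi) * (4 * s) := by
              apply mul_le_mul_of_nonneg_left (f0_int_scale hs0)
              positivity
          _ = x / Real.pi := by
              have : L / (2 * Real.pi) * (4 * s) = 2 * (s * L) / Real.pi := by field_simp; ring
              rw [this, hsL]; ring
          _ ≤ x / 3 := by gcongr
      linarith
    have hX0 : 2 / 3 * x ≤ X := by linarith
    have hWX : W ≤ 3 / 2 * X := by linarith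
    have hXp : 0 < X := by linarith
    -- X ≤ E + x / 12 + |B|
    have hXE : X ≤ E + x / 12 + |B| := by
      have a1 : X ≤ |X + B| + |B| := by
        have := abs_sub (X + B) B
        have e : X + B - B = X := by ring
        rw [e] at this
        exact (le_abs_self X).trans this
      have a2 : |X + B| - CA * ∫ y : ℝ, |F y| ≤ E := le_max_right _ _
      have a3 : CA * ∫ y : ℝ, |F y| ≤ x / 12 :=
        (mul_le_mul_of_nonneg_left (f0_abs_scale hs0) hCA.le).trans hCAs
      linarith
    have hfin : X ≤ 3 * E + 6 / x * B ^ 2 := by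
      by_cases hc : X ≤ 3 * E
      · have : 0 ≤ 6 / x * B ^ 2 := by positivity
        linarith
      · push Not at hc
        have b1 : X / 2 ≤ |B| := by linarith
        have b2 : (X / 2) ^ 2 ≤ B ^ 2 := by
          rw [← sq_abs B]
          exact pow_le_pow_left₀ (by positivity) b1 2
        have b3 : X * x ≤ 6 * B ^ 2 := by nlinarith
        have b4 : X ≤ 6 / x * B ^ 2 := by
          rw [div_mul_eq_mul_div, le_div_iff₀ hx0]
          exact b3
        linarith
    calc _ ≤ W := hsumW
      _ ≤ 3 / 2 * X := hWX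
      _ ≤ 3 / 2 * (3 * E + 6 / x * B ^ 2) := by linarith
      _ = _ := by ring
  · push Not at hz
    have : ∑ z ∈ bad T x, (mz z : ℝ) * (Ioc (z.im - s / 4) (z.im + s / 4)).indicator
        (fun _ => (1 : ℝ)) t' = 0 :=
      Finset.sum_eq_zero fun z hzb => by rw [indicator_of_notMem (hz z hzb), mul_zero]
    rw [this]
    positivity


lemma main_Q (hP : S_APM) (hB : S_BB2) (hA : S_ADM) : ∃ C K T0 : ℝ, 0 < C ∧ 1 ≤ K ∧ 10 ≤ T0 ∧
    ∀ T : ℝ, T0 ≤ T → 20 ≤ Real.log T ∧ Real.log T ≤ T / 10 ∧ ∀ x : ℝ, K ≤ x → x ≤ Real.log T / K →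
      Q T x ≤ C * T * Real.log T / x ^ 2 := by
  obtain ⟨CA, TA, hCA, hTA, hP⟩ := hP
  obtain ⟨CB, TB, hCB, hTB, hB⟩ := hB
  obtain ⟨V, Ka, hV, hKa, hAd⟩ := LLNL.adm_bu hA (p := -2) (q := 2) one_pos
  set D : ℝ := ∫ x, |deriv (deriv f0) x| with hD
  have hD0 : 0 ≤ D := integral_nonneg fun _ => abs_nonneg _
  set C1 : ℝ := CA * (4 + D) + CB * (V + 1) with hC1
  have hC10 : 0 < C1 := by positivity
  have hev : ∀ᶠ T : ℝ in atTop, TA ≤ T ∧ TB ≤ T ∧ 24 * CA ≤ Real.log T :=
    (eventually_ge_atTop TA).and ((eventually_ge_atTop TB).and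
      (Real.tendsto_log_atTop.eventually (eventually_ge_atTop (24 * CA))))
  obtain ⟨T1, hT1⟩ := eventually_atTop.1 hev
  refine ⟨36 * C1, max (2 * Ka) 8, max T1 10, by positivity, le_trans (by norm_num) (le_max_right _ _),
    le_max_right _ _, fun T hT => ?_⟩
  obtain ⟨hTA', hTB', hT24⟩ := hT1 T ((le_max_left _ _).trans hT)
  have hT10 : 10 ≤ T := (le_max_right _ _).trans hT
  have hT0 : 0 < T := by linarith
  obtain ⟨hL20, hLT, hP⟩ := hP T hTA'
  refine ⟨hL20, hLT, fun x hx1 hx2 => ?_⟩
  set L := Real.log T with hLd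
  have hL0 : 0 < L := by linarith
  have hx8 : 8 ≤ x := (le_max_right _ _).trans hx1
  have hxK : 2 * Ka ≤ x := (le_max_left _ _).trans hx1
  have hx0 : 0 < x := by linarith
  have hKm : 0 < max (2 * Ka) 8 := lt_of_lt_of_le (by norm_num) (le_max_right _ _)
  obtain ⟨s, hs⟩ : ∃ s, s = x / (2 * L) := ⟨_, rfl⟩
  have hs0 : 0 < s := by rw [hs]; positivity
  have hsL : s * L = x / 2 := by rw [hs]; field_simp
  have hxKL : x * (2 * Ka) ≤ L := by
    rw [le_div_iff₀ hKm] at hx2
    exact (mul_le_mul_of_nonneg_left (le_max_left _ _) hx0.le).trans hx2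
  have hsK : s ≤ 1 / Ka := by
    rw [le_div_iff₀ (by linarith)]
    have h1 : (s * Ka) * L ≤ 1 * L := by
      calc (s * Ka) * L = (s * L) * Ka := by ring
        _ = x * (2 * Ka) / 4 := by rw [hsL]; ring
        _ ≤ L / 4 := by linarith
        _ ≤ 1 * L := by linarith
    exact le_of_mul_le_mul_right h1 hL0
  have hs1 : s ≤ 1 := hsK.trans (by rw [div_le_one (by linarith)]; exact hKa)
  have hKs : Ka ≤ s * L := by rw [hsL]; linarith
  have hadm : Adm 1 V L (fun y => f0 (y / s)) := hAd L s (by linarith) hs0 hsK hKs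
  have hF := hadm.c2
  have hPF := hP _ hF
  have hBF := hB T hTB' 1 V _ one_pos le_rfl hV.le hadm
  rw [← hLd] at hBF
  set F : ℝ → ℝ := fun y => f0 (y / s) with hFd
  have hCAs : CA * (4 * s) ≤ x / 12 := by
    have h1 : (CA * (4 * s)) * L ≤ (x / 12) * L := by
      calc (CA * (4 * s)) * L = 4 * CA * (s * L) := by ring
        _ = (24 * CA) * (x / 12) := by rw [hsL]; ring
        _ ≤ L * (x / 12) := mul_le_mul_of_nonneg_right hT24 (by positivity)
        _ = (x / 12) * L := by ring
    exact le_of_mul_le_mul_right h1 hL0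
  set a := T + 2 * L with ha
  set b := 2 * T - 2 * L with hb
  have hab : a ≤ b := by rw [ha, hb]; linarith
  have hBc : Continuous (BB F (L / 4)) := t_BBC F hF (L / 4) (by linarith)
  have hXc : ContinuousOn (XF F T) (Icc a b) := XF_contOn hF (by rw [ha]; linarith)
  -- the pointwise inequality, integrated
  have hEi : IntervalIntegrable (fun t => max 0 (|XF F T t + BB F (L / 4) t| - CA * ∫ y : ℝ, |F y|)) volume a b := by
    apply ContinuousOn.intervalIntegrable
    rw [uIcc_of_le hab]
    exact (continuous_const.max continuous_id).comp_continuousOn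
      (((hXc.add hBc.continuousOn).abs).sub continuousOn_const)
  have hBi : IntervalIntegrable (fun t => (BB F (L / 4) t) ^ 2) volume a b :=
    Continuous.intervalIntegrable (by fun_prop) _ _
  have hSi : IntervalIntegrable (fun t => ∑ z ∈ bad T x, (mz z : ℝ) *
      (Ioc (z.im - s / 4) (z.im + s / 4)).indicator (fun _ => (1 : ℝ)) t) volume a b := by
    have h1 : (fun t => ∑ z ∈ bad T x, (mz z : ℝ) *
        (Ioc (z.im - s / 4) (z.im + s / 4)).indicator (fun _ => (1 : ℝ)) t) = ∑ z ∈ bad T x, (fun t => (mz z : ℝ) *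
        (Ioc (z.im - s / 4) (z.im + s / 4)).indicator (fun _ => (1 : ℝ)) t) := by
      funext t
      rw [Finset.sum_apply]
    rw [h1]
    apply IntervalIntegrable.sum
    intro z _
    exact (ind_ii _ measurableSet_Ioc _ _).const_mul _
  have hint : ∫ t in a..b, ∑ z ∈ bad T x, (mz z : ℝ) *
      (Ioc (z.im - s / 4) (z.im + s / 4)).indicator (fun _ => (1 : ℝ)) t ≤
      ∫ t in a..b, (9 / 2 * max 0 (|XF F T t + BB F (L / 4) t| - CA * ∫ y : ℝ, |F y|) +
        9 / x * (BB F (L / 4) t) ^ 2) := by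
    refine intervalIntegral.integral_mono_on hab hSi ((hEi.const_mul _).add (hBi.const_mul _)) fun t ht => ?_
    exact key_pt (by linarith) hL20 hx8 hs hF hCA hCAs ht.1 ht.2
  have hleft : ∫ t in a..b, ∑ z ∈ bad T x, (mz z : ℝ) *
      (Ioc (z.im - s / 4) (z.im + s / 4)).indicator (fun _ => (1 : ℝ)) t = s / 2 * Q T x := by
    classical
    rw [intervalIntegral.integral_finsetSum]
    · unfold Q
      rw [Finset.mul_sum]
      refine Finset.sum_congr rfl fun z hz => ?_
      unfold bad at hz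
      rw [Finset.mem_filter] at hz
      obtain ⟨-, t, h1, h2, h3, h4, -⟩ := hz
      rw [← hLd] at h1 h2 h4
      have hL1 : 1 / L ≤ 1 := by rw [div_le_one hL0]; linarith
      rw [intervalIntegral.integral_const_mul, ind_int_eq (by rw [ha]; linarith) (by linarith)
        (by rw [hb]; linarith)]
      ring
    · intro z _
      exact (ind_ii _ measurableSet_Ioc _ _).const_mul _
  have hright : ∫ t in a..b, (9 / 2 * max 0 (|XF F T t + BB F (L / 4) t| - CA * ∫ y : ℝ, |F y|) +
        9 / x * (BB F (L / 4) t) ^ 2) ≤ 9 / x * (T * C1) := by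
    rw [intervalIntegral.integral_add (hEi.const_mul _) (hBi.const_mul _),
      intervalIntegral.integral_const_mul, intervalIntegral.integral_const_mul]
    have e1 : ∫ t in a..b, max 0 (|XF F T t + BB F (L / 4) t| - CA * ∫ y : ℝ, |F y|) ≤
        2 / x * (T * (CA * (4 + D))) := by
      refine hPF.trans ?_
      have g1 : (∫ y : ℝ, |F y|) + ∫ y : ℝ, |deriv (deriv F) y| ≤ (4 + D) / s := by
        have g2 : ∫ y : ℝ, |F y| ≤ 4 / s := by
          refine (f0_abs_scale hs0).trans ?_
          rw [le_div_iff₀ hs0]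
          nlinarith
        have g3 : ∫ y : ℝ, |deriv (deriv F) y| = D / s := by
          rw [hFd, f0_dd_scale hs0, ← hD]
          field_simp
        rw [g3, add_div]
        linarith
      calc CA * T / L * ((∫ y : ℝ, |F y|) + ∫ y : ℝ, |deriv (deriv F) y|) ≤ CA * T / L * ((4 + D) / s) :=
            mul_le_mul_of_nonneg_left g1 (by positivity)
        _ = CA * T * (4 + D) / (s * L) := by field_simp
        _ = 2 / x * (T * (CA * (4 + D))) := by rw [hsL]; field_simp
    have e2 : ∫ t in a..b, (BB F (L / 4) t) ^ 2 ≤ T * (CB * (V + 1)) := by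
      have h1 : ∫ t in a..b, (BB F (L / 4) t) ^ 2 ≤ ∫ t in T..(2 * T), (BB F (L / 4) t) ^ 2 := by
        apply intervalIntegral.integral_mono_interval (by rw [ha]; linarith) hab (by rw [hb]; linarith)
        · exact Eventually.of_forall fun t => sq_nonneg _
        · exact Continuous.intervalIntegrable (by fun_prop) _ _
      refine h1.trans (hBF.trans (le_of_eq (by ring)))
    have e3 : 9 / x * ∫ t in a..b, (BB F (L / 4) t) ^ 2 ≤ 9 / x * (T * (CB * (V + 1))) :=
      mul_le_mul_of_nonneg_left e2 (by positivity)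
    have e4 : 9 / 2 * ∫ t in a..b, max 0 (|XF F T t + BB F (L / 4) t| - CA * ∫ y : ℝ, |F y|) ≤
        9 / x * (T * (CA * (4 + D))) := by
      calc _ ≤ 9 / 2 * (2 / x * (T * (CA * (4 + D)))) := mul_le_mul_of_nonneg_left e1 (by norm_num)
        _ = _ := by ring
    rw [hC1]
    linarith
  have hQ : s / 2 * Q T x ≤ 9 / x * (T * C1) := by
    rw [← hleft]
    exact hint.trans hright
  rw [le_div_iff₀ (by positivity)]
  have h5 : (s / 2 * Q T x) * (4 * L * x) = Q T x * x ^ 2 := by
    calc (s / 2 * Q T x) * (4 * L * x) = 2 * (s * L) * Q T x * x := by ring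
      _ = Q T x * x ^ 2 := by rw [hsL]; ring
  rw [← h5]
  calc (s / 2 * Q T x) * (4 * L * x) ≤ (9 / x * (T * C1)) * (4 * L * x) :=
        mul_le_mul_of_nonneg_right hQ (by positivity)
    _ = 36 * C1 * T * L := by field_simp; ring

/-- no window contains more than `C log T` zeros -/
lemma cnt_le : ∃ C : ℝ, 0 < C ∧ ∀ T t : ℝ, 10 ≤ T → 1 ≤ Real.log T → T ≤ t → t + 1 ≤ 2 * T →
    cnt T t (t + 1 / Real.log T) ≤ C * Real.log T := by
  obtain ⟨C, hC, hz⟩ := H370.zcount H370.good_zeta
  refine ⟨2 * C, by positivity, fun T t hT hL ht ht2 => ?_⟩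
  have h0 := hz (t + 1) (by linarith)
  have e1 : t + 1 - 1 = t := by ring
  rw [e1] at h0
  have h1 : cnt T t (t + 1 / Real.log T) ≤ (H370.NN riemannZeta t (t + 1 + 1) : ℝ) := by
    rw [H370.NN_eq H370.good_zeta (by linarith)]
    push_cast
    unfold cnt
    have e2 : ∀ z : ℂ, (mz z : ℝ) * (Ioc t (t + 1 / Real.log T)).indicator (fun _ => (1 : ℝ)) z.im =
        if z.im ∈ Ioc t (t + 1 / Real.log T) then (mz z : ℝ) else 0 := by
      intro z
      by_cases hz : z.im ∈ Ioc t (t + 1 / Real.log T)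
      · rw [indicator_of_mem hz, if_pos hz, mul_one]
      · rw [indicator_of_notMem hz, if_neg hz, mul_zero]
    rw [Finset.sum_congr rfl fun z _ => e2 z, ← Finset.sum_filter]
    refine Finset.sum_le_sum_of_subset_of_nonneg ?_ fun _ _ _ => Nat.cast_nonneg _
    intro z hz
    rw [Finset.mem_filter, H370.mem_Zf H370.good_zeta (by linarith)] at hz
    rw [H370.mem_Zf H370.good_zeta (by linarith)]
    obtain ⟨h1, h3⟩ := hz
    have h4 : 1 / Real.log T ≤ 1 := by rw [div_le_one (by linarith)]; exact hL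
    exact ⟨h1.1, h1.2.1, h3.1, by linarith [h3.2], h1.2.2.2.2⟩
  have h2 : Real.log (t + 1) ≤ 2 * Real.log T := by
    have : Real.log (t + 1) ≤ Real.log (T ^ 2) := Real.log_le_log (by linarith) (by nlinarith)
    rw [Real.log_pow] at this
    exact_mod_cast this
  calc _ ≤ C * Real.log (t + 1) := h1.trans h0
    _ ≤ C * (2 * Real.log T) := by gcongr
    _ = _ := by ring

end NTL

open NTL in
theorem t_NT (hP : S_APM) (hB : S_BB2) (hA : S_ADM) : S_NT := by
  obtain ⟨C1, K, T1, hC1, hK, hT1, hQ⟩ := main_Q hP hB hA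
  obtain ⟨C0, hC0, hcnt⟩ := cnt_le
  obtain ⟨CN, TN, hCN, hTN, hNN⟩ := H370.nn_asymp H370.good_zeta
  have hev : ∀ᶠ T : ℝ in atTop, T1 ≤ T ∧ TN ≤ T ∧ K ^ 2 ≤ Real.log T :=
    (eventually_ge_atTop T1).and ((eventually_ge_atTop TN).and
      (Real.tendsto_log_atTop.eventually (eventually_ge_atTop (K ^ 2))))
  obtain ⟨T2, hT2⟩ := eventually_atTop.1 hev
  refine ⟨(1 + CN) * K ^ 2 + C1 + C1 * (C0 * K) ^ 2, max T2 10, by positivity, le_max_right _ _,
    fun T hT x hx => ?_⟩
  obtain ⟨hT1', hTN', hTK⟩ := hT2 T ((le_max_left _ _).trans hT)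
  have hT10 : 10 ≤ T := (le_max_right _ _).trans hT
  have hT0 : 0 < T := by linarith
  obtain ⟨hL20, hLT, hQ⟩ := hQ T hT1'
  have hNN' := hNN T hTN' T (2 * T) le_rfl (by linarith) (by linarith) le_rfl
  have hx0 : 0 < x := by linarith
  have hL0 : 0 < Real.log T := by linarith
  refine (int_G_le hL0 (by linarith)).trans ?_
  set L := Real.log T with hLd
  rw [div_le_iff₀ hL0]
  have hK0 : 0 < K := by linarith
  have n1 : 0 ≤ (1 + CN) * K ^ 2 := by positivity
  have n2 : 0 ≤ C1 * (C0 * K) ^ 2 := by positivity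
  have key : ∀ A : ℝ, 0 ≤ A → A ≤ (1 + CN) * K ^ 2 + C1 + C1 * (C0 * K) ^ 2 → Q T x ≤ A * T / x ^ 2 * L →
      Q T x ≤ ((1 + CN) * K ^ 2 + C1 + C1 * (C0 * K) ^ 2) * T / x ^ 2 * L := by
    intro A _ hA2 h
    refine h.trans ?_
    gcongr
  rcases lt_or_ge x K with h | h
  · -- small x
    refine key ((1 + CN) * K ^ 2) (by positivity) (by linarith) ?_
    have h1 : (H370.NN riemannZeta T (2 * T) : ℝ) ≤ (1 + CN) * T * L := by
      have h2 := (abs_le.1 hNN').2
      have h3 : T * L / (2 * Real.pi) ≤ T * L := by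
        apply div_le_self (by positivity)
        linarith [Real.pi_gt_three]
      have h4 : CN * T ≤ CN * T * L := by
        have : 0 < CN * T := by positivity
        nlinarith
      linarith
    refine (Q_le_all T x (by linarith)).trans (h1.trans ?_)
    have h5 : 1 ≤ K ^ 2 / x ^ 2 := by
      rw [one_le_div (by positivity)]
      exact pow_le_pow_left₀ hx0.le h.le 2
    calc (1 + CN) * T * L = (1 + CN) * T * L * 1 := by ring
      _ ≤ (1 + CN) * T * L * (K ^ 2 / x ^ 2) := by gcongr
      _ = _ := by ring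
  · rcases le_or_gt x (L / K) with h2 | h2
    · -- the main case
      refine key C1 hC1.le (by linarith) ?_
      refine (hQ x h h2).trans (le_of_eq (by ring))
    · rcases le_or_gt x (C0 * L) with h3 | h3
      · refine key (C1 * (C0 * K) ^ 2) (by positivity) (by linarith) ?_
        have h4 := hQ (L / K) (by rw [le_div_iff₀ hK0]; nlinarith) le_rfl
        refine (Q_anti T h2.le).trans (h4.trans ?_)
        have h5 : C1 * T * L / (L / K) ^ 2 = C1 * K ^ 2 * T * L * (1 / L ^ 2) := by
          field_simp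
        have h6 : 1 / L ^ 2 ≤ C0 ^ 2 / x ^ 2 := by
          rw [div_le_div_iff₀ (by positivity) (by positivity), one_mul, ← mul_pow]
          exact pow_le_pow_left₀ hx0.le h3 2
        rw [h5]
        calc C1 * K ^ 2 * T * L * (1 / L ^ 2) ≤ C1 * K ^ 2 * T * L * (C0 ^ 2 / x ^ 2) := by gcongr
          _ = _ := by ring
      · -- large x
        have h4 : Q T x = 0 := by
          classical
          unfold Q
          have : bad T x = ∅ := by
            unfold bad
            rw [Finset.filter_eq_empty_iff]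
            rintro z - ⟨t, t1, t2, -, -, t5⟩
            have := hcnt T t hT10 (by linarith) (by linarith) (by linarith)
            linarith
          rw [this, Finset.sum_empty]
        rw [h4]
        positivity

end Pool.Agent.H203.ME
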