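import Pool.Agent.H203.ME.Defs3

set_option autoImplicit false

/-! Second moments of the linear statistics: assembly, ends of the range, polarisation. -/

open Complex Filter Topology Set MeasureTheory

namespace Pool.Agent.H203.ME

namespace SECL

lemma NN_sum {a b : ℝ} (ha : 1 ≤ a) :
    (H370.NN riemannZeta a b : ℝ) = ∑ s ∈ H370.Zf riemannZeta a b, (mz s : ℝ) := by
  rw [H370.NN_eq H370.good_zeta ha]
  push_cast
  rfl

/-- bound of the integral of the test function -/
lemma int_bd {F : ℝ → ℝ} {B : ℝ} (hF : C2c F) (hB : ∀ x, |F x| ≤ B) : |∫ x : ℝ, F x| ≤ 2 * B := by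
  have h1 : ∫ x : ℝ, F x = ∫ x in Icc (-1 : ℝ) 1, F x := by
    symm
    apply setIntegral_eq_integral_of_forall_compl_eq_zero
    intro x hx
    apply hF.supp
    by_contra h
    push Not at h
    exact hx ⟨by linarith [(abs_lt.1 h).1], by linarith [(abs_lt.1 h).2]⟩
  rw [h1, ← Real.norm_eq_abs]
  refine (norm_setIntegral_le_of_norm_le_const (C := B) (by simp) fun x _ => hB x).trans ?_
  rw [Real.volume_real_Icc_of_le (by norm_num)]
  linarith

/-- the linear statistic is at most of the order of the logarithm -/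
lemma XF_bd : ∃ C : ℝ, 0 < C ∧ ∀ (F : ℝ → ℝ) (B : ℝ), C2c F → (∀ x, |F x| ≤ B) → ∀ T t : ℝ, 100 ≤ T →
    T ≤ t → t ≤ 2 * T → |XF F T t| ≤ C * B * Real.log T := by
  obtain ⟨C, hC, hz⟩ := H370.zcount H370.good_zeta
  refine ⟨2 * C + 1, by positivity, fun F B hF hB T t hT h1 h2 => ?_⟩
  have hB0 : 0 ≤ B := (abs_nonneg _).trans (hB 0)
  have hL : 1 ≤ Real.log T := by
    rw [Real.le_log_iff_exp_le (by linarith)]
    linarith [Real.exp_one_lt_d9]
  rw [XF_eq hF (U1 := t - 1) (U2 := t + 1) (by linarith) (by linarith) (by linarith)]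
  have e1 : |∑ s ∈ H370.Zf riemannZeta (t - 1) (t + 1), (mz s : ℝ) * F (s.im - t)| ≤
      B * (H370.NN riemannZeta (t - 1) (t + 1) : ℝ) := by
    refine (Finset.abs_sum_le_sum_abs _ _).trans ?_
    rw [NN_sum (by linarith), Finset.mul_sum]
    refine Finset.sum_le_sum fun s _ => ?_
    rw [abs_mul, abs_of_nonneg (Nat.cast_nonneg _), mul_comm]
    exact mul_le_mul_of_nonneg_right (hB _) (Nat.cast_nonneg _)
  have e2 := hz t (by linarith)
  have e3 : Real.log t ≤ 2 * Real.log T := by
    have h3 : Real.log t ≤ Real.log (T ^ 2) := Real.log_le_log (by linarith) (by nlinarith)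
    rw [Real.log_pow] at h3
    exact_mod_cast h3
  have e4 := int_bd hF hB
  have e5 : |Real.log T / (2 * Real.pi) * ∫ x : ℝ, F x| ≤ Real.log T * B := by
    rw [abs_mul, abs_of_nonneg (by positivity)]
    have hpi := Real.pi_gt_three
    calc Real.log T / (2 * Real.pi) * |∫ x : ℝ, F x| ≤ Real.log T / (2 * Real.pi) * (2 * B) := by gcongr
      _ = Real.log T * B / Real.pi := by field_simp
      _ ≤ Real.log T * B / 1 := by
          apply div_le_div_of_nonneg_left (by positivity) (by norm_num) (by linarith)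
      _ = _ := by ring
  have e6 : B * (H370.NN riemannZeta (t - 1) (t + 1) : ℝ) ≤ B * (C * (2 * Real.log T)) := by
    refine mul_le_mul_of_nonneg_left (e2.trans ?_) hB0
    exact mul_le_mul_of_nonneg_left e3 hC.le
  calc _ ≤ _ := abs_sub _ _
    _ ≤ B * (C * (2 * Real.log T)) + Real.log T * B := add_le_add (e1.trans e6) e5
    _ = _ := by ring

/-- the variance does not change under dilations -/
lemma sg_scale (f : ℝ → ℝ) {h : ℝ} (hh : 0 < h) : sg (fun x => f (x / h)) = sg f := by
  unfold sg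
  congr 1
  have h1 := integral_comp_mul_left_Ioi (fun u : ℝ => u * ‖FF f u‖ ^ 2) 0 hh
  rw [mul_zero, smul_eq_mul] at h1
  have h2 : ∀ ξ : ℝ, ξ * ‖FF (fun x => f (x / h)) ξ‖ ^ 2 = h * (h * ξ * ‖FF f (h * ξ)‖ ^ 2) := by
    intro ξ
    rw [ADML.scale f hh, norm_mul, Complex.norm_real, Real.norm_eq_abs, abs_of_pos hh]
    ring
  simp_rw [h2]
  rw [integral_const_mul, h1, ← mul_assoc, mul_inv_cancel₀ hh.ne', one_mul]

/-- the scales for one function -/
lemma scales1 {k : ℕ} {h : ℝ → ℝ} (h0 : Tendsto h atTop (𝓝 0))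
    (h1 : Tendsto (fun T => h T * Real.log T) atTop atTop) : Scales (fun _ : Fin k => h) :=
  ⟨fun _ => h0, fun _ => h1, fun _ _ hne => absurd rfl hne⟩

lemma adm1 {f : ℝ → ℝ} (hf : ContDiff ℝ 2 f) (hs : HasCompactSupport f) {h : ℝ → ℝ}
    (h0 : Tendsto h atTop (𝓝 0)) (h1 : Tendsto (fun T => h T * Real.log T) atTop atTop) :
    ∃ V : ℝ, 0 < V ∧ ∀ η : ℝ, 0 < η → ∀ᶠ T in atTop, Adm η V (Real.log T) (fun x => f (x / h T)) := by
  obtain ⟨V, hV, hA⟩ := FINL.adm_ev t_ADM (k := 1) (f := fun _ => f) (fun _ => hf) (fun _ => hs)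
    (scales1 h0 h1) (fun _ => 1)
  refine ⟨V, hV, fun η hη => ?_⟩
  filter_upwards [hA η hη] with T hT
  have h2 := hT (fun _ => 1) (fun _ => by simp)
  simpa using h2

lemma pos_ev {h : ℝ → ℝ} (h1 : Tendsto (fun T => h T * Real.log T) atTop atTop) :
    ∀ᶠ T in atTop, 0 < h T := by
  filter_upwards [h1.eventually (eventually_gt_atTop 0), eventually_gt_atTop (1 : ℝ)] with T h2 h3
  have h4 := Real.log_pos h3
  by_contra h5
  push Not at h5
  nlinarith

lemma logT : ∀ᶠ T in (atTop : Filter ℝ), 1 ≤ Real.log T ∧ 4 * Real.log T ≤ T ∧ 100 ≤ T := by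
  have h1 : Tendsto (fun x : ℝ => Real.log x ^ 1 / x) atTop (𝓝 0) := by
    have := (Real.isLittleO_pow_log_id_atTop (n := 1)).tendsto_div_nhds_zero
    exact this
  filter_upwards [Real.tendsto_log_atTop.eventually (eventually_ge_atTop 1),
    h1.eventually (gt_mem_nhds (show (0 : ℝ) < 1 / 4 by norm_num)), eventually_ge_atTop (100 : ℝ)] with T a b c
  refine ⟨a, ?_, c⟩
  have hT : (0 : ℝ) < T := by linarith
  rw [div_lt_iff₀ hT, pow_one] at b
  linarith

/-- the mean square of the prime side -/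
lemma limA (hB : S_BBV) {f : ℝ → ℝ} (hf : ContDiff ℝ 2 f) (hs : HasCompactSupport f) {h : ℝ → ℝ}
    (h0 : Tendsto h atTop (𝓝 0)) (h1 : Tendsto (fun T => h T * Real.log T) atTop atTop) :
    Tendsto (fun T : ℝ => 1 / T * ∫ t in (T + 2 * Real.log T)..(2 * T - 2 * Real.log T),
      (BB (fun x => f (x / h T)) (Real.log T / 4) t) ^ 2) atTop (𝓝 (sg f)) := by
  obtain ⟨V, hV, hA⟩ := adm1 hf hs h0 h1
  rw [Metric.tendsto_nhds]
  intro ε hε
  obtain ⟨η, T0, hη, hη1, hT0, hB⟩ := hB V (ε / 2) hV (by positivity)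
  filter_upwards [hA η hη, pos_ev h1, eventually_ge_atTop T0] with T a b c
  have hT : (0 : ℝ) < T := by linarith
  have h2 := hB T c _ a
  rw [sg_scale f b] at h2
  rw [Real.dist_eq]
  have h3 : 1 / T * (∫ t in (T + 2 * Real.log T)..(2 * T - 2 * Real.log T),
      (BB (fun x => f (x / h T)) (Real.log T / 4) t) ^ 2) - sg f =
      1 / T * ((∫ t in (T + 2 * Real.log T)..(2 * T - 2 * Real.log T),
      (BB (fun x => f (x / h T)) (Real.log T / 4) t) ^ 2) - T * sg f) := by
    field_simp
  rw [h3, abs_mul, abs_of_pos (by positivity)]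
  calc 1 / T * _ ≤ 1 / T * (ε / 2 * T) := by gcongr
    _ = ε / 2 := by field_simp
    _ < ε := by linarith

/-- the error in mean square -/
lemma limB (hL : S_L2) {f : ℝ → ℝ} (hf : ContDiff ℝ 2 f) (hs : HasCompactSupport f) {h : ℝ → ℝ}
    (h0 : Tendsto h atTop (𝓝 0)) (h1 : Tendsto (fun T => h T * Real.log T) atTop atTop) :
    Tendsto (fun T : ℝ => 1 / T * ∫ t in (T + 2 * Real.log T)..(2 * T - 2 * Real.log T),
      (XF (fun x => f (x / h T)) T t + BB (fun x => f (x / h T)) (Real.log T / 4) t) ^ 2)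
        atTop (𝓝 0) := by
  obtain ⟨C, K, T0, hC, hK, hT0, hL⟩ := hL f hf hs
  have h2 : Tendsto (fun T : ℝ => C * (1 / (h T * Real.log T) ^ 2 + h T ^ 2)) atTop (𝓝 0) := by
    have h3 : Tendsto (fun T : ℝ => 1 / (h T * Real.log T) ^ 2) atTop (𝓝 0) := by
      have h4 : Tendsto (fun T : ℝ => (h T * Real.log T) ^ 2) atTop atTop :=
        (tendsto_pow_atTop (by norm_num)).comp h1
      exact tendsto_const_nhds.div_atTop h4
    have h5 : Tendsto (fun T : ℝ => h T ^ 2) atTop (𝓝 0) := by
      have := h0.pow 2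
      simpa using this
    have := (h3.add h5).const_mul C
    simpa using this
  refine squeeze_zero' ?_ ?_ h2
  · filter_upwards [logT] with T ⟨a, b, c⟩
    have hT : (0 : ℝ) < T := by linarith
    refine mul_nonneg (by positivity) (intervalIntegral.integral_nonneg (by linarith) fun t _ => sq_nonneg _)
  · filter_upwards [eventually_ge_atTop T0, h1.eventually (eventually_ge_atTop K),
      h0.eventually (gt_mem_nhds (show (0 : ℝ) < 1 / K by positivity))] with T a b c
    have hT : (0 : ℝ) < T := by linarith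
    have h3 := hL T a (h T) b c.le
    calc 1 / T * _ ≤ 1 / T * (C * T * (1 / (h T * Real.log T) ^ 2 + h T ^ 2)) := by gcongr
      _ = _ := by field_simp

lemma sq_diff (x y δ : ℝ) (hδ : 0 < δ) :
    |x ^ 2 - y ^ 2| ≤ (1 + 1 / δ) * (x + y) ^ 2 + δ * y ^ 2 := by
  have h1 : x ^ 2 - y ^ 2 = (x + y) ^ 2 - 2 * y * (x + y) := by ring
  have h2 : |2 * y * (x + y)| ≤ 1 / δ * (x + y) ^ 2 + δ * y ^ 2 := by
    have h3 : 0 ≤ δ * (|y| - 1 / δ * |x + y|) ^ 2 := by positivity
    have h4 : δ * (|y| - 1 / δ * |x + y|) ^ 2 = δ * |y| ^ 2 - 2 * |y| * |x + y| + 1 / δ * |x + y| ^ 2 := by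
      field_simp
      ring
    rw [h4, sq_abs, sq_abs] at h3
    rw [abs_mul, abs_mul, abs_two]
    linarith
  rw [h1]
  calc _ ≤ |(x + y) ^ 2| + |2 * y * (x + y)| := abs_sub _ _
    _ ≤ (x + y) ^ 2 + (1 / δ * (x + y) ^ 2 + δ * y ^ 2) := by
        rw [abs_of_nonneg (sq_nonneg (x + y))]
        linarith
    _ = _ := by ring

/-- the second moment of one statistic in the middle of the range -/
lemma limC (hB : S_BBV) (hL : S_L2) {f : ℝ → ℝ} (hf : ContDiff ℝ 2 f) (hs : HasCompactSupport f)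
    {h : ℝ → ℝ} (h0 : Tendsto h atTop (𝓝 0))
    (h1 : Tendsto (fun T => h T * Real.log T) atTop atTop) :
    Tendsto (fun T : ℝ => 1 / T * ∫ t in (T + 2 * Real.log T)..(2 * T - 2 * Real.log T),
      (XF (fun x => f (x / h T)) T t) ^ 2) atTop (𝓝 (sg f)) := by
  have hA := limA hB hf hs h0 h1
  have hE := limB hL hf hs h0 h1
  obtain ⟨V, hV, hAd⟩ := adm1 hf hs h0 h1
  have hsg := FINL.sg_nonneg f
  have key : Tendsto (fun T : ℝ => (1 / T * ∫ t in (T + 2 * Real.log T)..(2 * T - 2 * Real.log T),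
      (XF (fun x => f (x / h T)) T t) ^ 2) - (1 / T * ∫ t in (T + 2 * Real.log T)..(2 * T - 2 * Real.log T),
      (BB (fun x => f (x / h T)) (Real.log T / 4) t) ^ 2)) atTop (𝓝 0) := by
    rw [Metric.tendsto_nhds]
    intro ε hε
    obtain ⟨δ, hδ⟩ : ∃ δ, δ = ε / (4 * (sg f + 1)) := ⟨_, rfl⟩
    have hδ0 : 0 < δ := by rw [hδ]; positivity
    have hδ1 : δ * (sg f + 1) = ε / 4 := by
      rw [hδ]
      field_simp
    have hE2 : Tendsto (fun T : ℝ => (1 + 1 / δ) * (1 / T *
        ∫ t in (T + 2 * Real.log T)..(2 * T - 2 * Real.log T),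
          (XF (fun x => f (x / h T)) T t + BB (fun x => f (x / h T)) (Real.log T / 4) t) ^ 2))
        atTop (𝓝 0) := by
      have := hE.const_mul (1 + 1 / δ)
      simpa using this
    filter_upwards [hAd 1 one_pos, logT, Real.tendsto_log_atTop.eventually (eventually_ge_atTop 4),
      hA.eventually (gt_mem_nhds (show sg f < sg f + 1 by linarith)),
      hE2.eventually (gt_mem_nhds (show (0 : ℝ) < ε / 4 by positivity))] with T a b c d e
    obtain ⟨b1, b2, b3⟩ := b
    have hT : (0 : ℝ) < T := by linarith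
    have hab : T + 2 * Real.log T ≤ 2 * T - 2 * Real.log T := by linarith
    have hXc : ContinuousOn (XF (fun x => f (x / h T)) T)
        (Icc (T + 2 * Real.log T) (2 * T - 2 * Real.log T)) := XF_contOn a.c2 (by linarith)
    have hBc : Continuous (BB (fun x => f (x / h T)) (Real.log T / 4)) := t_BBC _ a.c2 _ (by linarith)
    have iX : IntervalIntegrable (fun t => (XF (fun x => f (x / h T)) T t) ^ 2) volume
        (T + 2 * Real.log T) (2 * T - 2 * Real.log T) := by
      apply ContinuousOn.intervalIntegrable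
      rw [uIcc_of_le hab]
      exact hXc.pow 2
    have iB : IntervalIntegrable (fun t => (BB (fun x => f (x / h T)) (Real.log T / 4) t) ^ 2) volume
        (T + 2 * Real.log T) (2 * T - 2 * Real.log T) := (hBc.pow 2).intervalIntegrable _ _
    have iE : IntervalIntegrable (fun t => (XF (fun x => f (x / h T)) T t +
        BB (fun x => f (x / h T)) (Real.log T / 4) t) ^ 2) volume
        (T + 2 * Real.log T) (2 * T - 2 * Real.log T) := by
      apply ContinuousOn.intervalIntegrable
      rw [uIcc_of_le hab]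
      exact (hXc.add hBc.continuousOn).pow 2
    rw [Real.dist_eq, sub_zero, ← mul_sub, abs_mul, abs_of_pos (show 0 < 1 / T by positivity),
      ← intervalIntegral.integral_sub iX iB]
    have h3 : |∫ t in (T + 2 * Real.log T)..(2 * T - 2 * Real.log T),
        ((XF (fun x => f (x / h T)) T t) ^ 2 - (BB (fun x => f (x / h T)) (Real.log T / 4) t) ^ 2)| ≤
        (1 + 1 / δ) * (∫ t in (T + 2 * Real.log T)..(2 * T - 2 * Real.log T),
          (XF (fun x => f (x / h T)) T t + BB (fun x => f (x / h T)) (Real.log T / 4) t) ^ 2) +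
        δ * ∫ t in (T + 2 * Real.log T)..(2 * T - 2 * Real.log T),
          (BB (fun x => f (x / h T)) (Real.log T / 4) t) ^ 2 := by
      refine (intervalIntegral.abs_integral_le_integral_abs hab).trans ?_
      rw [← intervalIntegral.integral_const_mul, ← intervalIntegral.integral_const_mul,
        ← intervalIntegral.integral_add (iE.const_mul _) (iB.const_mul _)]
      exact intervalIntegral.integral_mono_on hab (iX.sub iB).abs
        ((iE.const_mul _).add (iB.const_mul _)) fun t _ => sq_diff _ _ δ hδ0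
    calc 1 / T * _ ≤ 1 / T * ((1 + 1 / δ) * (∫ t in (T + 2 * Real.log T)..(2 * T - 2 * Real.log T),
          (XF (fun x => f (x / h T)) T t + BB (fun x => f (x / h T)) (Real.log T / 4) t) ^ 2) +
        δ * ∫ t in (T + 2 * Real.log T)..(2 * T - 2 * Real.log T),
          (BB (fun x => f (x / h T)) (Real.log T / 4) t) ^ 2) := by gcongr
      _ = (1 + 1 / δ) * (1 / T * ∫ t in (T + 2 * Real.log T)..(2 * T - 2 * Real.log T),
          (XF (fun x => f (x / h T)) T t + BB (fun x => f (x / h T)) (Real.log T / 4) t) ^ 2) +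
        δ * (1 / T * ∫ t in (T + 2 * Real.log T)..(2 * T - 2 * Real.log T),
          (BB (fun x => f (x / h T)) (Real.log T / 4) t) ^ 2) := by ring
      _ ≤ ε / 4 + δ * (sg f + 1) := by
          refine add_le_add e.le ?_
          exact mul_le_mul_of_nonneg_left d.le hδ0.le
      _ < ε := by rw [hδ1]; linarith
  have := key.add hA
  simpa using this

/-- the second moment of one statistic -/
lemma one (hB : S_BBV) (hL : S_L2) {f : ℝ → ℝ} (hf : ContDiff ℝ 2 f) (hs : HasCompactSupport f)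
    {h : ℝ → ℝ} (h0 : Tendsto h atTop (𝓝 0))
    (h1 : Tendsto (fun T => h T * Real.log T) atTop atTop) :
    Tendsto (fun T : ℝ => 1 / T * ∫ t in T..(2 * T), (XF (fun x => f (x / h T)) T t) ^ 2)
      atTop (𝓝 (sg f)) := by
  have hC := limC hB hL hf hs h0 h1
  obtain ⟨V, hV, hAd⟩ := adm1 hf hs h0 h1
  obtain ⟨C, hC0, hX⟩ := XF_bd
  obtain ⟨B, hBd⟩ := hf.continuous.bounded_above_of_compact_support hs
  have hl3 : Tendsto (fun x : ℝ => 4 * (C * B) ^ 2 * (Real.log x ^ 3 / x)) atTop (𝓝 0) := by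
    have h2 := (Real.isLittleO_pow_log_id_atTop (n := 3)).tendsto_div_nhds_zero
    have h3 := h2.const_mul (4 * (C * B) ^ 2)
    rw [mul_zero] at h3
    exact h3
  have key : Tendsto (fun T : ℝ => (1 / T * ∫ t in T..(2 * T), (XF (fun x => f (x / h T)) T t) ^ 2) -
      (1 / T * ∫ t in (T + 2 * Real.log T)..(2 * T - 2 * Real.log T),
      (XF (fun x => f (x / h T)) T t) ^ 2)) atTop (𝓝 0) := by
    refine squeeze_zero_norm' ?_ hl3
    filter_upwards [hAd 1 one_pos, logT] with T a b
    obtain ⟨b1, b2, b3⟩ := b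
    have hT : (0 : ℝ) < T := by linarith
    have hXc : ContinuousOn (XF (fun x => f (x / h T)) T) (Icc T (2 * T)) := XF_contOn a.c2 (by linarith)
    have ii : ∀ u v : ℝ, T ≤ u → u ≤ v → v ≤ 2 * T →
        IntervalIntegrable (fun t => (XF (fun x => f (x / h T)) T t) ^ 2) volume u v := by
      intro u v hu huv hv
      apply ContinuousOn.intervalIntegrable
      rw [uIcc_of_le huv]
      exact (hXc.mono (Icc_subset_Icc hu hv)).pow 2
    have hbd : ∀ t : ℝ, T ≤ t → t ≤ 2 * T →
        (XF (fun x => f (x / h T)) T t) ^ 2 ≤ (C * B * Real.log T) ^ 2 := by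
      intro t ht1 ht2
      rw [← sq_abs]
      exact pow_le_pow_left₀ (abs_nonneg _)
        (hX _ B a.c2 (fun x => by rw [← Real.norm_eq_abs]; exact hBd _) T t b3 ht1 ht2) 2
    have hpiece : ∀ u v : ℝ, T ≤ u → u ≤ v → v ≤ 2 * T → v - u = 2 * Real.log T →
        0 ≤ ∫ t in u..v, (XF (fun x => f (x / h T)) T t) ^ 2 ∧
        ∫ t in u..v, (XF (fun x => f (x / h T)) T t) ^ 2 ≤ 2 * Real.log T * (C * B * Real.log T) ^ 2 := by
      intro u v hu huv hv huv2
      refine ⟨intervalIntegral.integral_nonneg huv fun t _ => sq_nonneg _, ?_⟩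
      have h2 := intervalIntegral.integral_mono_on huv (ii u v hu huv hv)
        (intervalIntegrable_const (c := (C * B * Real.log T) ^ 2) (μ := volume) (a := u) (b := v))
        (fun t ht => hbd t (hu.trans ht.1) (ht.2.trans hv))
      rw [intervalIntegral.integral_const, smul_eq_mul, huv2] at h2
      exact h2
    have hsplit : ∫ t in T..(2 * T), (XF (fun x => f (x / h T)) T t) ^ 2 =
        (∫ t in T..(T + 2 * Real.log T), (XF (fun x => f (x / h T)) T t) ^ 2) +
        (∫ t in (T + 2 * Real.log T)..(2 * T - 2 * Real.log T), (XF (fun x => f (x / h T)) T t) ^ 2) +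
        ∫ t in (2 * T - 2 * Real.log T)..(2 * T), (XF (fun x => f (x / h T)) T t) ^ 2 := by
      rw [intervalIntegral.integral_add_adjacent_intervals (ii _ _ le_rfl (by linarith) (by linarith))
        (ii _ _ (by linarith) (by linarith) (by linarith)),
        intervalIntegral.integral_add_adjacent_intervals (ii _ _ le_rfl (by linarith) (by linarith))
        (ii _ _ (by linarith) (by linarith) le_rfl)]
    obtain ⟨p1, p2⟩ := hpiece T (T + 2 * Real.log T) le_rfl (by linarith) (by linarith) (by ring)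
    obtain ⟨q1, q2⟩ := hpiece (2 * T - 2 * Real.log T) (2 * T) (by linarith) (by linarith) le_rfl (by ring)
    rw [Real.norm_eq_abs, ← mul_sub, hsplit, abs_mul, abs_of_pos (show 0 < 1 / T by positivity)]
    have h3 : ∀ x y z : ℝ, x + y + z - y = x + z := fun x y z => by ring
    rw [h3, abs_of_nonneg (add_nonneg p1 q1)]
    calc 1 / T * _ ≤ 1 / T * (2 * Real.log T * (C * B * Real.log T) ^ 2 +
          2 * Real.log T * (C * B * Real.log T) ^ 2) := by gcongr
      _ = _ := by ring
  have := key.add hC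
  simpa using this

lemma FF_add {f g : ℝ → ℝ} (hf : Continuous f) (hfs : HasCompactSupport f) (hg : Continuous g)
    (hgs : HasCompactSupport g) (c ξ : ℝ) :
    FF (fun x => f x + c * g x) ξ = FF f ξ + (c : ℂ) * FF g ξ := by
  have hi : ∀ {φ : ℝ → ℝ}, Continuous φ → HasCompactSupport φ →
      Integrable (fun s : ℝ => (φ s : ℂ) * cexp (-(((ξ * s : ℝ) : ℂ) * I))) := by
    intro φ h1 h2
    apply Continuous.integrable_of_hasCompactSupport
    · fun_prop
    · apply HasCompactSupport.mul_right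
      exact h2.comp_left (g := fun x : ℝ => (x : ℂ)) (by simp)
  unfold FF
  rw [← integral_const_mul, ← integral_add (hi hf hfs) ((hi hg hgs).const_mul _)]
  congr 1
  funext s
  push_cast
  ring

/-- polarisation -/
lemma polar {f g : ℝ → ℝ} (hf : ContDiff ℝ 2 f) (hfs : HasCompactSupport f) (hg : ContDiff ℝ 2 g)
    (hgs : HasCompactSupport g) :
    (sg (fun x => f x + 1 * g x) - sg (fun x => f x + (-1) * g x)) / 4 = cv f g := by
  have hc : ∀ c : ℝ, ContDiff ℝ 2 (fun x => f x + c * g x) ∧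
      HasCompactSupport (fun x => f x + c * g x) := fun c =>
    ⟨hf.add (contDiff_const.mul hg), hfs.add hgs.mul_left⟩
  unfold sg cv
  have h1 := (ADML.int_w1 (hc 1).1 (hc 1).2).integrableOn (s := Ioi (0 : ℝ))
  have h2 := (ADML.int_w1 (hc (-1)).1 (hc (-1)).2).integrableOn (s := Ioi (0 : ℝ))
  rw [← mul_sub, ← integral_sub h1 h2, mul_div_assoc]
  congr 1
  rw [← integral_div]
  congr 1
  funext ξ
  rw [FF_add hf.continuous hfs hg.continuous hgs, FF_add hf.continuous hfs hg.continuous hgs]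
  have h3 : ∀ z w : ℂ, ‖z + ((1 : ℝ) : ℂ) * w‖ ^ 2 - ‖z + ((-1 : ℝ) : ℂ) * w‖ ^ 2 =
      4 * (z * (starRingEnd ℂ) w).re := by
    intro z w
    rw [← Complex.normSq_eq_norm_sq, ← Complex.normSq_eq_norm_sq]
    simp only [Complex.normSq_apply, Complex.add_re, Complex.add_im, Complex.mul_re, Complex.mul_im,
      Complex.ofReal_re, Complex.ofReal_im, Complex.conj_re, Complex.conj_im]
    ring
  rw [← mul_sub, h3]
  ring

end SECL

open SECL in
theorem t_SEC (hB : S_BBV) (hL : S_L2) : S_SEC := by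
  intro f g hf hfs hg hgs h h0 h1
  have hc : ∀ c : ℝ, ContDiff ℝ 2 (fun x => f x + c * g x) ∧
      HasCompactSupport (fun x => f x + c * g x) := fun c =>
    ⟨hf.add (contDiff_const.mul hg), hfs.add hgs.mul_left⟩
  have hp := one hB hL (hc 1).1 (hc 1).2 h0 h1
  have hm := one hB hL (hc (-1)).1 (hc (-1)).2 h0 h1
  have hlim := (hp.sub hm).div_const 4
  rw [polar hf hfs hg hgs] at hlim
  refine hlim.congr' ?_
  have hc2 := FINL.c2c_ev (k := 2) (f := ![f, g])
    (by intro j; fin_cases j; exacts [hf, hg]) (by intro j; fin_cases j; exacts [hfs, hgs])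
    (scales1 h0 h1)
  obtain ⟨V1, -, hA1⟩ := adm1 (hc 1).1 (hc 1).2 h0 h1
  obtain ⟨V2, -, hA2⟩ := adm1 (hc (-1)).1 (hc (-1)).2 h0 h1
  filter_upwards [hc2, hA1 1 one_pos, hA2 1 one_pos, logT] with T a b c d
  obtain ⟨d1, d2, d3⟩ := d
  have hT : (0 : ℝ) < T := by linarith
  have hT2 : T ≤ 2 * T := by linarith
  have ii : ∀ F : ℝ → ℝ, C2c F → IntervalIntegrable (fun t => (XF F T t) ^ 2) volume T (2 * T) := by
    intro F hF
    apply ContinuousOn.intervalIntegrable
    rw [uIcc_of_le hT2]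
    exact (XF_contOn hF (by linarith)).pow 2
  rw [← mul_sub, ← intervalIntegral.integral_sub (ii _ b.c2) (ii _ c.c2), mul_div_assoc,
    ← intervalIntegral.integral_div]
  congr 1
  refine intervalIntegral.integral_congr fun t ht => ?_
  rw [uIcc_of_le hT2] at ht
  have hlin : ∀ e : ℝ, XF (fun x => f (x / h T) + e * g (x / h T)) T t =
      XF (fun x => f (x / h T)) T t + e * XF (fun x => g (x / h T)) T t := by
    intro e
    have h2 := FINL.XF_lin a ![1, e] (T := T) (t := t) (by linarith) ht.1 ht.2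
    simpa [Fin.sum_univ_two] using h2
  rw [hlin, hlin]
  ring

end Pool.Agent.H203.ME
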