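import Pool.Agent.H203.ME.Defs3

set_option autoImplicit false

/-! (W2) mean square of the weighted number of zeros in windows of one mean spacing. -/

open Complex Filter Topology Set MeasureTheory
open scoped ComplexConjugate

namespace Pool.Agent.H203.ME

namespace W2L

open ZERL Pool.Agent.Results.MP_db1c88_nt

/-! ### elementary inequalities -/

lemma elem5 {u : ℝ} (hu : 0 ≤ u) :
    (1 + u ^ 2 * Real.exp (u / 4)) ^ 5 ≤ 20000 ^ 5 * Real.exp (13 / 10 * u) := by
  have h1 : 1 + u ^ 2 ≤ 20000 * Real.exp (u / 100) := by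
    have := Real.quadratic_le_exp_of_nonneg (by positivity : (0 : ℝ) ≤ u / 100)
    nlinarith
  have h2 : 1 ≤ Real.exp (u / 4) := Real.one_le_exp (by positivity)
  have h3 : 1 + u ^ 2 * Real.exp (u / 4) ≤ 20000 * (Real.exp (u / 100) * Real.exp (u / 4)) := by
    have h4 : (1 + u ^ 2) * Real.exp (u / 4) ≤ 20000 * Real.exp (u / 100) * Real.exp (u / 4) :=
      mul_le_mul_of_nonneg_right h1 (Real.exp_pos _).le
    linarith
  have h0 : 0 ≤ 1 + u ^ 2 * Real.exp (u / 4) := by positivity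
  refine (pow_le_pow_left₀ h0 h3 5).trans (le_of_eq ?_)
  rw [mul_pow, ← Real.exp_add, ← Real.exp_nat_mul]
  congr 2
  push_cast
  ring

/-- the dyadic majorant -/
noncomputable def G (K : ℕ) (x : ℝ) : ℝ :=
  ∑ k ∈ Finset.range K, (32 : ℝ) ^ (k + 1) * (if (8 : ℝ) ^ k ≤ x then 1 else 0)

lemma G_nonneg (K : ℕ) (x : ℝ) : 0 ≤ G K x := by
  unfold G
  refine Finset.sum_nonneg fun k _ => ?_
  split_ifs <;> positivity

lemma G_mono (K : ℕ) {x y : ℝ} (h : x ≤ y) : G K x ≤ G K y := by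
  unfold G
  refine Finset.sum_le_sum fun k _ => ?_
  refine mul_le_mul_of_nonneg_left ?_ (by positivity)
  split_ifs with h1 h2
  · exact le_rfl
  · exact absurd (h1.trans h) h2
  · exact zero_le_one
  · exact le_rfl

lemma young1 {w x : ℝ} {K : ℕ} (hw : 1 ≤ w) (hx : x < 8 ^ K) : w ^ 2 * x ≤ w ^ 5 + G K x := by
  have hG := G_nonneg K x
  by_cases h : x ≤ w ^ 3
  · have h1 : w ^ 2 * x ≤ w ^ 2 * w ^ 3 := mul_le_mul_of_nonneg_left h (by positivity)
    have h2 : w ^ 2 * w ^ 3 = w ^ 5 := by ring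
    linarith
  · push Not at h
    have h3 : 1 ≤ w ^ 3 := one_le_pow₀ hw
    obtain ⟨n, hn1, hn2⟩ := exists_nat_pow_near (h3.trans h.le) (by norm_num : (1 : ℝ) < 8)
    have hnK : n < K := by
      by_contra hcon
      push Not at hcon
      have : (8 : ℝ) ^ K ≤ 8 ^ n := pow_le_pow_right₀ (by norm_num) hcon
      linarith
    have h4 : w < 2 ^ (n + 1) := by
      refine lt_of_pow_lt_pow_left₀ 3 (by positivity) ?_
      have e : ((2 : ℝ) ^ (n + 1)) ^ 3 = 8 ^ (n + 1) := by
        rw [← pow_mul, mul_comm, pow_mul]; norm_num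
      rw [e]
      linarith
    have h5 : w ^ 2 ≤ 4 ^ (n + 1) := by
      have h6 : w ^ 2 ≤ (2 ^ (n + 1)) ^ 2 := pow_le_pow_left₀ (by linarith) h4.le 2
      have e : ((2 : ℝ) ^ (n + 1)) ^ 2 = 4 ^ (n + 1) := by
        rw [← pow_mul, mul_comm, pow_mul]; norm_num
      linarith
    have h7 : w ^ 2 * x ≤ 32 ^ (n + 1) := by
      calc w ^ 2 * x ≤ 4 ^ (n + 1) * 8 ^ (n + 1) :=
            mul_le_mul h5 hn2.le (by linarith) (by positivity)
        _ = 32 ^ (n + 1) := by rw [← mul_pow]; norm_num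
    have h8 : (32 : ℝ) ^ (n + 1) ≤ G K x := by
      unfold G
      have h9 : (32 : ℝ) ^ (n + 1) = 32 ^ (n + 1) * (if (8 : ℝ) ^ n ≤ x then 1 else 0) := by
        rw [if_pos hn1, mul_one]
      rw [h9]
      refine Finset.single_le_sum (f := fun k => (32 : ℝ) ^ (k + 1) * (if (8 : ℝ) ^ k ≤ x then 1 else 0))
        (fun k _ => ?_) (Finset.mem_range.2 hnK)
      split_ifs <;> positivity
    have h10 : 0 ≤ w ^ 5 := by positivity
    linarith

lemma young2 {w x : ℝ} (hw : 1 ≤ w) : w ^ 2 * x ≤ w ^ 5 + x ^ 2 := by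
  by_cases h : x ≤ w ^ 3
  · have h1 : w ^ 2 * x ≤ w ^ 2 * w ^ 3 := mul_le_mul_of_nonneg_left h (by positivity)
    have h2 : w ^ 2 * w ^ 3 = w ^ 5 := by ring
    nlinarith [sq_nonneg x]
  · push Not at h
    have h3 : w ^ 2 ≤ w ^ 3 := pow_le_pow_right₀ hw (by norm_num)
    have h4 : 0 ≤ w ^ 5 := by positivity
    have h5 : 0 ≤ x := by
      have : 0 ≤ w ^ 3 := by positivity
      linarith
    nlinarith

/-! ### the counting functions -/

/-- the total number of zeros -/
noncomputable def tot (T : ℝ) : ℝ := ∑ z ∈ H370.Zf riemannZeta T (2 * T), (mz z : ℝ)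

lemma cnt_nonneg (T a b : ℝ) : 0 ≤ cnt T a b := by
  unfold cnt
  exact Finset.sum_nonneg fun z _ =>
    mul_nonneg (Nat.cast_nonneg _) (indicator_nonneg (fun _ _ => zero_le_one) _)

lemma cnt_le_tot (T a b : ℝ) : cnt T a b ≤ tot T := by
  unfold cnt tot
  refine Finset.sum_le_sum fun z _ => ?_
  have h : (Ioc a b).indicator (fun _ => (1 : ℝ)) z.im ≤ 1 := by
    by_cases h : z.im ∈ Ioc a b
    · rw [indicator_of_mem h]
    · rw [indicator_of_notMem h]; exact zero_le_one
  calc (mz z : ℝ) * (Ioc a b).indicator (fun _ => (1 : ℝ)) z.im ≤ (mz z : ℝ) * 1 :=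
        mul_le_mul_of_nonneg_left h (Nat.cast_nonneg _)
    _ = _ := mul_one _

lemma cnt_mono (T : ℝ) {a b a' b' : ℝ} (h1 : a' ≤ a) (h2 : b ≤ b') : cnt T a b ≤ cnt T a' b' := by
  unfold cnt
  refine Finset.sum_le_sum fun z _ => mul_le_mul_of_nonneg_left ?_ (Nat.cast_nonneg _)
  by_cases h : z.im ∈ Ioc a b
  · rw [indicator_of_mem h, indicator_of_mem (show z.im ∈ Ioc a' b' from
      ⟨lt_of_le_of_lt h1 h.1, h.2.trans h2⟩)]
  · rw [indicator_of_notMem h]
    exact indicator_nonneg (fun _ _ => zero_le_one) _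

lemma cnt_nat (T a b : ℝ) : ∃ n : ℕ, cnt T a b = n := by
  classical
  refine ⟨∑ z ∈ H370.Zf riemannZeta T (2 * T), mz z * (if z.im ∈ Ioc a b then 1 else 0), ?_⟩
  unfold cnt
  push_cast
  refine Finset.sum_congr rfl fun z _ => ?_
  congr 1
  by_cases h : z.im ∈ Ioc a b
  · rw [indicator_of_mem h, if_pos h]
  · rw [indicator_of_notMem h, if_neg h]

lemma cnt_add (T a s t : ℝ) (hs : 0 ≤ s) (ht : 0 ≤ t) :
    cnt T a (a + s + t) = cnt T a (a + s) + cnt T (a + s) (a + s + t) := by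
  unfold cnt
  rw [← Finset.sum_add_distrib]
  refine Finset.sum_congr rfl fun z _ => ?_
  rw [← mul_add]
  congr 1
  by_cases h : z.im ∈ Ioc a (a + s)
  · rw [indicator_of_mem (show z.im ∈ Ioc a (a + s + t) from ⟨h.1, by linarith [h.2]⟩),
      indicator_of_mem h, indicator_of_notMem, add_zero]
    intro h'
    linarith [h.2, h'.1]
  · by_cases h' : z.im ∈ Ioc (a + s) (a + s + t)
    · rw [indicator_of_mem (show z.im ∈ Ioc a (a + s + t) from ⟨by linarith [h'.1], h'.2⟩),
        indicator_of_notMem h, indicator_of_mem h', zero_add]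
    · rw [indicator_of_notMem h, indicator_of_notMem h', indicator_of_notMem, add_zero]
      intro h''
      by_cases h4 : z.im ≤ a + s
      · exact h ⟨h''.1, h4⟩
      · exact h' ⟨not_le.1 h4, h''.2⟩

lemma dn_meas (s γ : ℝ) : Measurable (dn s γ) := by
  unfold dn
  exact measurable_const.indicator measurableSet_Ico

lemma cnt_meas (T s : ℝ) : Measurable (fun t => cnt T t (t + s)) := by
  have : (fun t => cnt T t (t + s)) = fun t =>
      ∑ z ∈ H370.Zf riemannZeta T (2 * T), (mz z : ℝ) * dn s z.im t := by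
    funext t; exact cnt_eq T s t
  rw [this]
  exact Finset.measurable_sum _ fun z _ => (dn_meas s z.im).const_mul _

lemma cw_eq (T s t : ℝ) : cw T t (t + s) =
    ∑ z ∈ H370.Zf riemannZeta T (2 * T), (mz z : ℝ) * ww T z * dn s z.im t := by
  unfold cw dn
  refine Finset.sum_congr rfl fun z _ => ?_
  congr 1
  by_cases h : z.im ∈ Ioc t (t + s)
  · rw [indicator_of_mem h, indicator_of_mem (show t ∈ Ico (z.im - s) z.im from
      ⟨by linarith [h.2], h.1⟩)]
  · rw [indicator_of_notMem h, indicator_of_notMem (show ¬ t ∈ Ico (z.im - s) z.im from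
      fun h' => h ⟨h'.2, by linarith [h'.1]⟩)]

lemma ww_one (T : ℝ) (z : ℂ) : 1 ≤ ww T z := by
  unfold ww
  have : 0 ≤ (Real.log T * (z.re - 1 / 2)) ^ 2 * Real.exp (Real.log T * |z.re - 1 / 2| / 4) := by
    positivity
  linarith

/-- the mean square against the pair count -/
lemma int_cw (T s : ℝ) (hs : 0 ≤ s) : ∫ t : ℝ, (cw T t (t + s)) ^ 2 ≤
    s * ∑ z ∈ H370.Zf riemannZeta T (2 * T), (mz z : ℝ) * (ww T z ^ 2 * cnt T (z.im - s) (z.im + s)) := by
  have hdi : ∀ γ, Integrable (dn s γ) := by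
    intro γ
    unfold dn
    rw [integrable_indicator_iff measurableSet_Ico]
    exact integrableOn_const (by simp) (by simp)
  have hde : ∀ γ, ∫ t, dn s γ t = s := by
    intro γ
    unfold dn
    rw [integral_indicator measurableSet_Ico, setIntegral_const, smul_eq_mul, mul_one,
      Real.volume_real_Ico_of_le (by linarith)]
    ring
  have hpt : ∀ t, (cw T t (t + s)) ^ 2 ≤ ∑ z ∈ H370.Zf riemannZeta T (2 * T),
      (mz z : ℝ) * (ww T z ^ 2 * cnt T (z.im - s) (z.im + s)) * dn s z.im t := by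
    intro t
    rw [cw_eq]
    refine (Finset.sum_sq_le_sum_mul_sum_of_sq_le_mul _
      (f := fun z => (mz z : ℝ) * dn s z.im t) (g := fun z => (mz z : ℝ) * ww T z ^ 2 * dn s z.im t)
      (fun z _ => mul_nonneg (Nat.cast_nonneg _) (dn_nonneg _ _ _))
      (fun z _ => mul_nonneg (by positivity) (dn_nonneg _ _ _)) (fun z _ => le_of_eq (by ring))).trans ?_
    rw [Finset.mul_sum]
    refine Finset.sum_le_sum fun z _ => ?_
    rw [← cnt_eq]
    by_cases h : t ∈ Ico (z.im - s) z.im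
    · have h1 : cnt T t (t + s) ≤ cnt T (z.im - s) (z.im + s) := cnt_mono T h.1 (by linarith [h.2])
      have h2 : 0 ≤ (mz z : ℝ) * ww T z ^ 2 * dn s z.im t :=
        mul_nonneg (by positivity) (dn_nonneg _ _ _)
      calc cnt T t (t + s) * ((mz z : ℝ) * ww T z ^ 2 * dn s z.im t)
          ≤ cnt T (z.im - s) (z.im + s) * ((mz z : ℝ) * ww T z ^ 2 * dn s z.im t) :=
            mul_le_mul_of_nonneg_right h1 h2
        _ = _ := by ring
    · have h1 : dn s z.im t = 0 := by unfold dn; exact indicator_of_notMem h _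
      rw [h1]
      simp
  have hint : Integrable (fun t => ∑ z ∈ H370.Zf riemannZeta T (2 * T),
      (mz z : ℝ) * (ww T z ^ 2 * cnt T (z.im - s) (z.im + s)) * dn s z.im t) :=
    integrable_finsetSum _ fun z _ => (hdi z.im).const_mul _
  refine (integral_mono_of_nonneg (Eventually.of_forall fun t => sq_nonneg _) hint
    (Eventually.of_forall hpt)).trans (le_of_eq ?_)
  rw [integral_finsetSum _ fun z _ => (hdi z.im).const_mul _, Finset.mul_sum]
  refine Finset.sum_congr rfl fun z _ => ?_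
  rw [integral_const_mul, hde]
  ring

/-! ### the fifth moment of the weights -/

/-- the summand -/
noncomputable def g (T : ℝ) (s : ℂ) : ℝ := (mz s : ℝ) * ww T s ^ 5

lemma g_nonneg (T : ℝ) (s : ℂ) : 0 ≤ g T s := by
  unfold g
  have := ww_one T s
  positivity

lemma g_refl {T : ℝ} {s : ℂ} (h1 : 0 < s.re) (h2 : s.re < 1) (h3 : 1 ≤ s.im) :
    g T (1 - conj s) = g T s := by
  unfold g mz ww
  rw [H370.mult_refl H370.good_zeta h1 h2 h3]
  have hre : (1 - conj s).re = 1 - s.re := by simp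
  rw [hre]
  have e1 : (Real.log T * (1 - s.re - 1 / 2)) ^ 2 = (Real.log T * (s.re - 1 / 2)) ^ 2 := by ring
  have e2 : |1 - s.re - 1 / 2| = |s.re - 1 / 2| := by
    rw [← abs_neg]; congr 1; ring
  rw [e1, e2]

lemma g_le {T : ℝ} (hT : 10 ≤ T) {s : ℂ} (h : 1 / 2 ≤ s.re) :
    g T s ≤ 20000 ^ 5 *
      ((analyticOrderNatAt riemannZeta s : ℝ) * (2 * T) ^ ((13 / 10 : ℝ) * (s.re - 1 / 2))) := by
  have hL : 0 < Real.log T := Real.log_pos (by linarith)
  have h0 : 0 ≤ s.re - 1 / 2 := by linarith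
  have e := elem5 (mul_nonneg hL.le h0)
  have h1 : Real.exp (13 / 10 * (Real.log T * (s.re - 1 / 2))) ≤
      (2 * T) ^ ((13 / 10 : ℝ) * (s.re - 1 / 2)) := by
    have e1 : 13 / 10 * (Real.log T * (s.re - 1 / 2)) = Real.log T * ((13 / 10 : ℝ) * (s.re - 1 / 2)) := by
      ring
    rw [e1, ← Real.rpow_def_of_pos (by linarith : (0 : ℝ) < T)]
    exact Real.rpow_le_rpow (by linarith) (by linarith) (by positivity)
  unfold g mz H370.mult ww
  rw [abs_of_nonneg h0]
  calc (analyticOrderNatAt riemannZeta s : ℝ) *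
        (1 + (Real.log T * (s.re - 1 / 2)) ^ 2 * Real.exp (Real.log T * (s.re - 1 / 2) / 4)) ^ 5
      ≤ (analyticOrderNatAt riemannZeta s : ℝ) *
        (20000 ^ 5 * (2 * T) ^ ((13 / 10 : ℝ) * (s.re - 1 / 2))) := by
        refine mul_le_mul_of_nonneg_left (e.trans ?_) (Nat.cast_nonneg _)
        exact mul_le_mul_of_nonneg_left h1 (by positivity)
    _ = _ := by ring

/-- the fifth moment -/
theorem sum_w5 : ∃ C : ℝ, 0 < C ∧ ∀ T : ℝ, 10 ≤ T →
    ∑ z ∈ H370.Zf riemannZeta T (2 * T), (mz z : ℝ) * ww T z ^ 5 ≤ C * T * Real.log T := by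
  classical
  obtain ⟨C, hC⟩ := DistancesToTheLine.moment_four_thirds (c := 13 / 10) (by norm_num)
  refine ⟨8 * 20000 ^ 5 * (|C| + 1), by positivity, ?_⟩
  intro T hT
  have hU : 1 ≤ T := by linarith
  have hL : 0 < Real.log T := Real.log_pos (by linarith)
  set Z := H370.Zf riemannZeta T (2 * T) with hZ
  have hmem : ∀ s ∈ Z, 0 < s.re ∧ s.re < 1 ∧ T < s.im ∧ s.im ≤ 2 * T ∧ riemannZeta s = 0 := by
    intro s hs
    exact (H370.mem_Zf H370.good_zeta hU).1 hs
  change ∑ s ∈ Z, g T s ≤ _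
  -- split
  have hsplit : ∑ s ∈ Z, g T s ≤ 2 * ∑ s ∈ Z.filter (fun s => 1 / 2 ≤ s.re), g T s := by
    rw [← Finset.sum_filter_add_sum_filter_not Z (fun s : ℂ => 1 / 2 ≤ s.re) (g T)]
    have h5 : ∑ s ∈ Z.filter (fun s => ¬ 1 / 2 ≤ s.re), g T s ≤
        ∑ s ∈ Z.filter (fun s => 1 / 2 ≤ s.re), g T s := by
      have h6 : ∑ s ∈ Z.filter (fun s => ¬ 1 / 2 ≤ s.re), g T s =
          ∑ s ∈ (Z.filter (fun s => ¬ 1 / 2 ≤ s.re)).image (fun s => 1 - conj s), g T s := by
        rw [Finset.sum_image]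
        · refine Finset.sum_congr rfl fun s hs => ?_
          rw [Finset.mem_filter] at hs
          obtain ⟨a1, a2, a3, _, _⟩ := hmem s hs.1
          exact (g_refl a1 a2 (by linarith)).symm
        · intro a _ b _ hab
          have h7 : conj a = conj b := by
            have := hab
            simp only [sub_right_inj] at this
            exact this
          exact (starRingEnd ℂ).injective h7
      rw [h6]
      refine Finset.sum_le_sum_of_subset_of_nonneg ?_ fun s _ _ => g_nonneg T s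
      intro s hs
      rw [Finset.mem_image] at hs
      obtain ⟨a, ha, rfl⟩ := hs
      rw [Finset.mem_filter] at ha ⊢
      refine ⟨?_, ?_⟩
      · rw [hZ, H370.mem_Zf H370.good_zeta hU]
        exact H370.zset_refl H370.good_zeta hU ((H370.mem_Zf H370.good_zeta hU).1 ha.1)
      · have hre : (1 - conj a).re = 1 - a.re := by simp
        rw [hre]
        have := ha.2
        push Not at this
        linarith
    linarith
  -- compare with E
  have hE : ∑ s ∈ Z.filter (fun s => 1 / 2 ≤ s.re), g T s ≤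
      20000 ^ 5 * DistancesToTheLine.E (13 / 10) (2 * T) := by
    rw [DistancesToTheLine.E_eq, Finset.mul_sum]
    refine le_trans (Finset.sum_le_sum (g := fun s : ℂ => 20000 ^ 5 *
      ((analyticOrderNatAt riemannZeta s : ℝ) * (2 * T) ^ ((13 / 10 : ℝ) * (s.re - 1 / 2)))) ?_) ?_
    · intro s hs
      rw [Finset.mem_filter] at hs
      exact g_le hT hs.2
    · refine Finset.sum_le_sum_of_subset_of_nonneg ?_ ?_
      · intro s hs
        rw [Finset.mem_filter] at hs
        obtain ⟨_, _, a3, a4, a5⟩ := hmem s hs.1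
        rw [Set.Finite.mem_toFinset]
        exact ⟨a5, hs.2, by linarith, by linarith⟩
      · intro s _ _
        have : (0 : ℝ) ≤ 2 * T := by linarith
        positivity
  have hE2 := hC (2 * T) (by linarith)
  have hlog : Real.log (2 * T) ≤ 2 * Real.log T := by
    rw [Real.log_mul (by norm_num) (by linarith)]
    have : Real.log 2 ≤ Real.log T := Real.log_le_log (by norm_num) (by linarith)
    linarith
  have hlog0 : 0 ≤ Real.log (2 * T) := Real.log_nonneg (by linarith)
  have hE3 : DistancesToTheLine.E (13 / 10) (2 * T) ≤ 4 * (|C| + 1) * T * Real.log T := by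
    refine hE2.trans ?_
    calc C * (2 * T) * Real.log (2 * T) ≤ (|C| + 1) * (2 * T) * Real.log (2 * T) := by
          refine mul_le_mul_of_nonneg_right ?_ hlog0
          refine mul_le_mul_of_nonneg_right ?_ (by linarith)
          linarith [le_abs_self C]
      _ ≤ (|C| + 1) * (2 * T) * (2 * Real.log T) := by
          refine mul_le_mul_of_nonneg_left hlog ?_
          have := abs_nonneg C
          positivity
      _ = _ := by ring
  calc ∑ s ∈ Z, g T s ≤ 2 * ∑ s ∈ Z.filter (fun s => 1 / 2 ≤ s.re), g T s := hsplit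
    _ ≤ 2 * (20000 ^ 5 * DistancesToTheLine.E (13 / 10) (2 * T)) := by linarith
    _ ≤ 2 * (20000 ^ 5 * (4 * (|C| + 1) * T * Real.log T)) := by
        have := mul_le_mul_of_nonneg_left hE3 (by positivity : (0 : ℝ) ≤ 20000 ^ 5)
        linarith
    _ = 8 * 20000 ^ 5 * (|C| + 1) * T * Real.log T := by ring

/-! ### the zeros near the ends -/

lemma bad4 : ∃ C : ℝ, 0 < C ∧ ∀ T : ℝ, 100 ≤ T →
    ∑ z ∈ (H370.Zf riemannZeta T (2 * T)).filter
      (fun z => ¬ (T + 4 * Real.log T ≤ z.im ∧ z.im ≤ 2 * T - 4 * Real.log T)), (mz z : ℝ) ≤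
      C * Real.log T ^ 2 := by
  obtain ⟨C, hC, hz⟩ := H370.zcount H370.good_zeta
  refine ⟨12 * C, by positivity, fun T hT => ?_⟩
  set L := Real.log T with hL
  have hL1 : 1 ≤ L := by
    rw [hL, Real.le_log_iff_exp_le (by linarith)]
    linarith [Real.exp_one_lt_d9]
  have hLT : 8 * L ≤ T := by
    have h1 : Real.log (T / 16) ≤ T / 16 - 1 := Real.log_le_sub_one_of_pos (by linarith)
    rw [Real.log_div (by linarith) (by norm_num), ← hL] at h1
    have h2 : Real.log 16 ≤ 3 := by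
      have h3 : (16 : ℝ) = 2 ^ 4 := by norm_num
      rw [h3, Real.log_pow]
      have := Real.log_two_lt_d9
      push_cast
      linarith
    linarith
  -- the zeros counted twice
  have hsub : ∑ z ∈ (H370.Zf riemannZeta T (2 * T)).filter
      (fun z => ¬ (T + 4 * L ≤ z.im ∧ z.im ≤ 2 * T - 4 * L)), (mz z : ℝ) ≤
      (H370.NN riemannZeta T (T + 4 * L) : ℝ) + H370.NN riemannZeta (2 * T - 4 * L) (2 * T) := by
    rw [H370.NN_eq H370.good_zeta (show (1 : ℝ) ≤ T by linarith),
      H370.NN_eq H370.good_zeta (show (1 : ℝ) ≤ 2 * T - 4 * L by linarith)]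
    push_cast
    rw [← Finset.sum_filter_add_sum_filter_not _ (fun z : ℂ => z.im ≤ T + 4 * L)]
    refine add_le_add (Finset.sum_le_sum_of_subset_of_nonneg ?_ fun _ _ _ => Nat.cast_nonneg _)
      (Finset.sum_le_sum_of_subset_of_nonneg ?_ fun _ _ _ => Nat.cast_nonneg _)
    · intro z hz'
      rw [Finset.mem_filter, Finset.mem_filter, H370.mem_Zf H370.good_zeta (by linarith)] at hz'
      rw [H370.mem_Zf H370.good_zeta (by linarith)]
      obtain ⟨⟨h1, _⟩, h2⟩ := hz'
      exact ⟨h1.1, h1.2.1, h1.2.2.1, h2, h1.2.2.2.2⟩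
    · intro z hz'
      rw [Finset.mem_filter, Finset.mem_filter, H370.mem_Zf H370.good_zeta (by linarith)] at hz'
      rw [H370.mem_Zf H370.good_zeta (by linarith)]
      obtain ⟨⟨h1, h3⟩, h2⟩ := hz'
      refine ⟨h1.1, h1.2.1, ?_, h1.2.2.2.1, h1.2.2.2.2⟩
      by_contra h4
      exact h3 ⟨by linarith, not_lt.1 h4⟩
  obtain ⟨n, hn1, hn2⟩ : ∃ n : ℕ, 2 * L ≤ n ∧ (n : ℝ) ≤ 2 * L + 1 :=
    ⟨⌈2 * L⌉₊, Nat.le_ceil _, by linarith [Nat.ceil_lt_add_one (show 0 ≤ 2 * L by linarith)]⟩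
  have hlog : ∀ x : ℝ, 3 ≤ x → x ≤ 2 * T → Real.log (x + 2 * n) ≤ 2 * L := by
    intro x hx hx2
    have h1 : Real.log (x + 2 * n) ≤ Real.log (T ^ 2) := by
      refine Real.log_le_log (by have : (0 : ℝ) ≤ n := Nat.cast_nonneg n
                                 linarith) ?_
      nlinarith
    rw [Real.log_pow] at h1
    exact_mod_cast h1
  have hcnt : ∀ x : ℝ, 3 ≤ x → x ≤ 2 * T →
      (H370.NN riemannZeta x (x + 2 * n) : ℝ) ≤ (2 * L + 1) * (C * (2 * L)) := by
    intro x hx hx2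
    refine (NN_le hC hz x hx n).trans ?_
    have h1 := hlog x hx hx2
    have h2 : 0 ≤ Real.log (x + 2 * n) := Real.log_nonneg (by
      have : (0 : ℝ) ≤ n := Nat.cast_nonneg n
      linarith)
    gcongr
  have h1 : (H370.NN riemannZeta T (T + 4 * L) : ℝ) ≤ (2 * L + 1) * (C * (2 * L)) := by
    refine le_trans ?_ (hcnt T (by linarith) (by linarith))
    exact Nat.cast_le.2 (H370.NN_mono H370.good_zeta (by linarith) le_rfl (by linarith))
  have h2 : (H370.NN riemannZeta (2 * T - 4 * L) (2 * T) : ℝ) ≤ (2 * L + 1) * (C * (2 * L)) := by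
    refine le_trans ?_ (hcnt (2 * T - 4 * L) (by linarith) (by linarith))
    exact Nat.cast_le.2 (H370.NN_mono H370.good_zeta (by linarith) le_rfl (by linarith))
  refine hsub.trans ?_
  nlinarith [mul_pos hC (show 0 < L by linarith)]

/-- the number of zeros near a zero -/
lemma cnt_zero : ∃ C : ℝ, 0 < C ∧ ∀ T s : ℝ, 100 ≤ T → 0 < s → s ≤ 1 →
    ∀ z ∈ H370.Zf riemannZeta T (2 * T), cnt T (z.im - s) (z.im + s) ≤ C * Real.log T := by
  obtain ⟨C, hC, hz⟩ := H370.zcount H370.good_zeta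
  refine ⟨2 * C, by positivity, fun T s hT hs hs1 z hzZ => ?_⟩
  have hmem := (H370.mem_Zf H370.good_zeta (show (1 : ℝ) ≤ T by linarith)).1 hzZ
  have h1 : T < z.im := hmem.2.2.1
  have h2 : z.im ≤ 2 * T := hmem.2.2.2.1
  have h3 := hz z.im (by linarith)
  have h4 : Real.log z.im ≤ 2 * Real.log T := by
    have h5 : Real.log z.im ≤ Real.log (T ^ 2) := Real.log_le_log (by linarith) (by nlinarith)
    rw [Real.log_pow] at h5
    exact_mod_cast h5
  have h6 : cnt T (z.im - s) (z.im + s) ≤ (H370.NN riemannZeta (z.im - 1) (z.im + 1) : ℝ) := by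
    rw [H370.NN_eq H370.good_zeta (show (1 : ℝ) ≤ z.im - 1 by linarith)]
    push_cast
    unfold cnt
    rw [← Finset.sum_filter_add_sum_filter_not (H370.Zf riemannZeta T (2 * T))
      (fun w : ℂ => w.im ∈ Ioc (z.im - s) (z.im + s))]
    have e1 : ∑ x ∈ (H370.Zf riemannZeta T (2 * T)).filter
        (fun w : ℂ => ¬ w.im ∈ Ioc (z.im - s) (z.im + s)),
        (mz x : ℝ) * (Ioc (z.im - s) (z.im + s)).indicator (fun _ => (1 : ℝ)) x.im = 0 := by
      refine Finset.sum_eq_zero fun w hw => ?_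
      rw [Finset.mem_filter] at hw
      rw [indicator_of_notMem hw.2, mul_zero]
    rw [e1, add_zero]
    have e2 : ∑ x ∈ (H370.Zf riemannZeta T (2 * T)).filter
        (fun w : ℂ => w.im ∈ Ioc (z.im - s) (z.im + s)),
        (mz x : ℝ) * (Ioc (z.im - s) (z.im + s)).indicator (fun _ => (1 : ℝ)) x.im =
        ∑ x ∈ (H370.Zf riemannZeta T (2 * T)).filter
        (fun w : ℂ => w.im ∈ Ioc (z.im - s) (z.im + s)), (mz x : ℝ) := by
      refine Finset.sum_congr rfl fun w hw => ?_
      rw [Finset.mem_filter] at hw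
      rw [indicator_of_mem hw.2, mul_one]
    rw [e2]
    refine Finset.sum_le_sum_of_subset_of_nonneg ?_ fun _ _ _ => Nat.cast_nonneg _
    intro w hw
    rw [Finset.mem_filter, H370.mem_Zf H370.good_zeta (by linarith)] at hw
    rw [H370.mem_Zf H370.good_zeta (by linarith)]
    obtain ⟨hw1, hw2⟩ := hw
    exact ⟨hw1.1, hw1.2.1, by linarith [hw2.1], by linarith [hw2.2], hw1.2.2.2.2⟩
  calc cnt T (z.im - s) (z.im + s) ≤ _ := h6
    _ ≤ C * Real.log z.im := h3
    _ ≤ C * (2 * Real.log T) := mul_le_mul_of_nonneg_left h4 hC.le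
    _ = _ := by ring

/-! ### the good zeros -/

lemma bdd_ii {f : ℝ → ℝ} (hm : Measurable f) (B : ℝ) (hB : ∀ t, |f t| ≤ B) (a b : ℝ) :
    IntervalIntegrable f volume a b :=
  (intervalIntegrable_const (c := B)).mono_fun' hm.aestronglyMeasurable
    (ae_of_all _ fun t => hB t)

/-- the truncated counting function -/
noncomputable def tr (T s x t : ℝ) : ℝ := if x ≤ cnt T t (t + s) then cnt T t (t + s) else 0

lemma tr_nonneg (T s x t : ℝ) : 0 ≤ tr T s x t := by
  unfold tr
  split_ifs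
  · exact cnt_nonneg _ _ _
  · exact le_rfl

lemma tr_meas (T s x : ℝ) : Measurable (tr T s x) := by
  have h := cnt_meas T s
  exact Measurable.ite (measurableSet_le measurable_const h) h measurable_const

lemma tr_abs (T s x t : ℝ) : |tr T s x t| ≤ tot T := by
  rw [abs_of_nonneg (tr_nonneg _ _ _ _)]
  unfold tr
  split_ifs
  · exact cnt_le_tot _ _ _
  · exact (cnt_nonneg T t (t + s)).trans (cnt_le_tot _ _ _)

lemma tr_ii (T s x a b : ℝ) : IntervalIntegrable (tr T s x) volume a b :=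
  bdd_ii (tr_meas T s x) (tot T) (tr_abs T s x) a b

/-- three windows -/
lemma tr_three (T s x t : ℝ) (hs : 0 ≤ s) (hx : 1 ≤ x) :
    tr T (3 * s) x t ≤ 3 * (tr T s (max 1 (x / 3)) t + tr T s (max 1 (x / 3)) (t + s) +
      tr T s (max 1 (x / 3)) (t + s + s)) := by
  have e1 : cnt T t (t + 3 * s) = cnt T t (t + s) + cnt T (t + s) (t + s + s) +
      cnt T (t + s + s) (t + s + s + s) := by
    have a1 := cnt_add T t s s hs hs
    have a2 := cnt_add T t (s + s) s (by linarith) hs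
    have e2 : t + (s + s) + s = t + 3 * s := by ring
    have e3 : t + (s + s) = t + s + s := by ring
    rw [e2, e3] at a2
    rw [a2, a1]
    have e4 : t + 3 * s = t + s + s + s := by ring
    rw [e4]
  obtain ⟨n1, h1⟩ := cnt_nat T t (t + s)
  obtain ⟨n2, h2⟩ := cnt_nat T (t + s) (t + s + s)
  obtain ⟨n3, h3⟩ := cnt_nat T (t + s + s) (t + s + s + s)
  have hn0 : 0 ≤ tr T s (max 1 (x / 3)) t := tr_nonneg _ _ _ _
  have hn1 : 0 ≤ tr T s (max 1 (x / 3)) (t + s) := tr_nonneg _ _ _ _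
  have hn2 : 0 ≤ tr T s (max 1 (x / 3)) (t + s + s) := tr_nonneg _ _ _ _
  by_cases h : x ≤ cnt T t (t + 3 * s)
  · have e5 : tr T (3 * s) x t = n1 + n2 + n3 := by
      unfold tr
      rw [if_pos h, e1, h1, h2, h3]
    rw [e5]
    rw [e1, h1, h2, h3] at h
    -- the largest one
    have key : ∀ (m : ℕ) (a b : ℕ) (r : ℝ), cnt T r (r + s) = m → a ≤ m → b ≤ m →
        x ≤ (m : ℝ) + a + b → (m : ℝ) + a + b ≤ 3 * tr T s (max 1 (x / 3)) r := by
      intro m a b r hm ha hb hxm
      have ha' : (a : ℝ) ≤ m := by exact_mod_cast ha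
      have hb' : (b : ℝ) ≤ m := by exact_mod_cast hb
      have hm1 : 1 ≤ (m : ℝ) := by
        have : (0 : ℝ) < m := by
          by_contra hcon
          push Not at hcon
          linarith
        have h0 : 0 < m := by exact_mod_cast this
        exact_mod_cast h0
      have h5 : max 1 (x / 3) ≤ cnt T r (r + s) := by
        rw [hm]
        exact max_le hm1 (by linarith)
      unfold tr
      rw [if_pos h5, hm]
      linarith
    rcases le_total n1 n2 with h12 | h12
    · rcases le_total n2 n3 with h23 | h23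
      · have := key n3 n1 n2 (t + s + s) h3 (h12.trans h23) h23 (by linarith)
        linarith
      · have := key n2 n1 n3 (t + s) h2 h12 h23 (by linarith)
        linarith
    · rcases le_total n1 n3 with h13 | h13
      · have := key n3 n1 n2 (t + s + s) h3 h13 (h12.trans h13) (by linarith)
        linarith
      · have := key n1 n2 n3 t h1 h12 h13 (by linarith)
        linarith
  · have e5 : tr T (3 * s) x t = 0 := by
      unfold tr
      rw [if_neg h]
    rw [e5]
    linarith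

lemma tr_shift {T s y A B a b c : ℝ} (hab : a ≤ b) (h1 : A ≤ a + c) (h2 : b + c ≤ B) :
    ∫ t in a..b, tr T s y (t + c) ≤ ∫ t in A..B, tr T s y t := by
  rw [intervalIntegral.integral_comp_add_right (fun t => tr T s y t) c]
  exact intervalIntegral.integral_mono_interval h1 (by linarith) h2
    (Eventually.of_forall fun t => tr_nonneg _ _ _ _) (tr_ii _ _ _ _ _)

lemma tr_int {T s A B C x : ℝ} (hs : 0 ≤ s) (hC : 0 ≤ C) (hT : 0 ≤ T) (hAB : A ≤ B - 2 * s)
    (hNT : ∀ x : ℝ, 1 ≤ x → ∫ t in A..B, tr T s x t ≤ C * T / x ^ 2) (hx : 1 ≤ x) :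
    ∫ t in A..(B - 2 * s), tr T (3 * s) x t ≤ 81 * C * T / x ^ 2 := by
  set y := max 1 (x / 3) with hy
  have hy1 : 1 ≤ y := le_max_left _ _
  have i1 : IntervalIntegrable (fun t => tr T s y t) volume A (B - 2 * s) := tr_ii _ _ _ _ _
  have i2 : IntervalIntegrable (fun t => tr T s y (t + s)) volume A (B - 2 * s) :=
    bdd_ii ((tr_meas T s y).comp (measurable_id.add_const s)) (tot T) (fun t => tr_abs T s y _) _ _
  have i3 : IntervalIntegrable (fun t => tr T s y (t + s + s)) volume A (B - 2 * s) :=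
    bdd_ii ((tr_meas T s y).comp ((measurable_id.add_const s).add_const s)) (tot T)
      (fun t => tr_abs T s y _) _ _
  have h1 : ∫ t in A..(B - 2 * s), tr T (3 * s) x t ≤
      ∫ t in A..(B - 2 * s), 3 * (tr T s y t + tr T s y (t + s) + tr T s y (t + s + s)) :=
    intervalIntegral.integral_mono_on hAB (tr_ii _ _ _ _ _) (((i1.add i2).add i3).const_mul 3)
      fun t _ => tr_three T s x t hs hx
  have h2 : ∫ t in A..(B - 2 * s), 3 * (tr T s y t + tr T s y (t + s) + tr T s y (t + s + s)) =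
      3 * ((∫ t in A..(B - 2 * s), tr T s y t) + (∫ t in A..(B - 2 * s), tr T s y (t + s)) +
        ∫ t in A..(B - 2 * s), tr T s y (t + s + s)) := by
    rw [intervalIntegral.integral_const_mul, intervalIntegral.integral_add (i1.add i2) i3,
      intervalIntegral.integral_add i1 i2]
  have j1 : ∫ t in A..(B - 2 * s), tr T s y t ≤ ∫ t in A..B, tr T s y t := by
    have := tr_shift (T := T) (s := s) (y := y) (A := A) (B := B) (c := 0) hAB (by linarith) (by linarith)
    simpa using this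
  have j2 : ∫ t in A..(B - 2 * s), tr T s y (t + s) ≤ ∫ t in A..B, tr T s y t :=
    tr_shift hAB (by linarith) (by linarith)
  have j3 : ∫ t in A..(B - 2 * s), tr T s y (t + s + s) ≤ ∫ t in A..B, tr T s y t := by
    have := tr_shift (T := T) (s := s) (y := y) (A := A) (B := B) (c := s + s) hAB (by linarith)
      (by linarith)
    simpa [add_assoc] using this
  have j4 := hNT y hy1
  have j5 : C * T / y ^ 2 ≤ 9 * (C * T / x ^ 2) := by
    have h3 : x / 3 ≤ y := le_max_right _ _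
    have h4 : 0 < x := by linarith
    rw [← mul_div_assoc, div_le_div_iff₀ (by positivity) (by positivity)]
    have h5 : x ^ 2 ≤ 9 * y ^ 2 := by nlinarith
    have h6 : 0 ≤ C * T := by positivity
    nlinarith
  have e : 81 * C * T / x ^ 2 = 9 * (9 * (C * T / x ^ 2)) := by ring
  rw [h2] at h1
  rw [e]
  linarith

lemma G_meas (K : ℕ) : Measurable (G K) :=
  Monotone.measurable fun _ _ h => G_mono K h

/-- the sum over the zeros which are not near the ends -/
lemma good_sum {T s A B C : ℝ} (K : ℕ) (hs : 0 < s) (hC : 0 ≤ C) (hT : 0 ≤ T) (hAB : A ≤ B - 2 * s)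
    (hNT : ∀ x : ℝ, 1 ≤ x → ∫ t in A..B, tr T s x t ≤ C * T / x ^ 2) (S : Finset ℂ)
    (hS : S ⊆ H370.Zf riemannZeta T (2 * T)) (hS1 : ∀ z ∈ S, A + 2 * s ≤ z.im ∧ z.im ≤ B - s) :
    s * ∑ z ∈ S, (mz z : ℝ) * G K (cnt T (z.im - s) (z.im + s)) ≤ 5184 * C * T := by
  set P : ℝ → ℝ := fun t => cnt T t (t + 3 * s) with hP
  have hPm : Measurable P := cnt_meas T (3 * s)
  have hGP : ∀ t, |G K (P t)| ≤ G K (tot T) := fun t => by
    rw [abs_of_nonneg (G_nonneg _ _)]; exact G_mono K (cnt_le_tot _ _ _)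
  have hGPm : Measurable fun t => G K (P t) := (G_meas K).comp hPm
  have hGi : ∀ γ : ℝ, IntervalIntegrable (fun t => dn s γ t * G K (P t)) volume A (B - 2 * s) :=
    fun γ => dn_mul_int' s γ (bdd_ii hGPm _ hGP _ _)
  have hone : ∀ z ∈ S, s * ((mz z : ℝ) * G K (cnt T (z.im - s) (z.im + s))) ≤
      ∫ t in A..(B - 2 * s), (mz z : ℝ) * (dn s (z.im - s) t * G K (P t)) := by
    intro z hz
    obtain ⟨h1, h2⟩ := hS1 z hz
    have h3 := dn_eq s (z.im - s) hs.le (a := A) (b := B - 2 * s) (by linarith) (by linarith)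
    have h4 : s * ((mz z : ℝ) * G K (cnt T (z.im - s) (z.im + s))) =
        ∫ t in A..(B - 2 * s), (mz z : ℝ) * (dn s (z.im - s) t * G K (cnt T (z.im - s) (z.im + s))) := by
      rw [intervalIntegral.integral_const_mul, intervalIntegral.integral_mul_const, h3]
      ring
    rw [h4]
    refine intervalIntegral.integral_mono_on hAB (((dn_int s _ _ _).mul_const _).const_mul _)
      ((hGi _).const_mul _) fun t _ => ?_
    refine mul_le_mul_of_nonneg_left ?_ (Nat.cast_nonneg _)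
    by_cases h : t ∈ Ico (z.im - s - s) (z.im - s)
    · refine mul_le_mul_of_nonneg_left (G_mono K ?_) (dn_nonneg _ _ _)
      exact cnt_mono T h.2.le (by linarith [h.1])
    · have : dn s (z.im - s) t = 0 := by unfold dn; exact indicator_of_notMem h _
      rw [this, zero_mul, zero_mul]
  have hsum : ∑ z ∈ S, ∫ t in A..(B - 2 * s), (mz z : ℝ) * (dn s (z.im - s) t * G K (P t)) =
      ∫ t in A..(B - 2 * s), ∑ z ∈ S, (mz z : ℝ) * (dn s (z.im - s) t * G K (P t)) :=
    (intervalIntegral.integral_finsetSum fun z _ => (hGi _).const_mul _).symm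
  have hpt : ∀ t, ∑ z ∈ S, (mz z : ℝ) * (dn s (z.im - s) t * G K (P t)) ≤
      ∑ k ∈ Finset.range K, (32 : ℝ) ^ (k + 1) * tr T (3 * s) (8 ^ k) t := by
    intro t
    have h1 : ∑ z ∈ S, (mz z : ℝ) * (dn s (z.im - s) t * G K (P t)) ≤
        ∑ z ∈ H370.Zf riemannZeta T (2 * T), (mz z : ℝ) * (dn s (z.im - s) t * G K (P t)) :=
      Finset.sum_le_sum_of_subset_of_nonneg hS fun z _ _ =>
        mul_nonneg (Nat.cast_nonneg _) (mul_nonneg (dn_nonneg _ _ _) (G_nonneg _ _))
    have h2 : ∑ z ∈ H370.Zf riemannZeta T (2 * T), (mz z : ℝ) * (dn s (z.im - s) t * G K (P t)) =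
        cnt T (t + s) (t + s + s) * G K (P t) := by
      rw [cnt_eq T s (t + s), Finset.sum_mul]
      refine Finset.sum_congr rfl fun z _ => ?_
      have h3 : dn s (z.im - s) t = dn s z.im (t + s) := by
        unfold dn
        by_cases h : t ∈ Ico (z.im - s - s) (z.im - s)
        · rw [indicator_of_mem h, indicator_of_mem (show t + s ∈ Ico (z.im - s) z.im from
            ⟨by linarith [h.1], by linarith [h.2]⟩)]
        · rw [indicator_of_notMem h, indicator_of_notMem (show ¬ t + s ∈ Ico (z.im - s) z.im from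
            fun h' => h ⟨by linarith [h'.1], by linarith [h'.2]⟩)]
      rw [h3]
      ring
    have h4 : cnt T (t + s) (t + s + s) ≤ P t := cnt_mono T (by linarith) (by linarith)
    have h5 : P t * G K (P t) = ∑ k ∈ Finset.range K, (32 : ℝ) ^ (k + 1) * tr T (3 * s) (8 ^ k) t := by
      unfold G tr
      rw [Finset.mul_sum]
      refine Finset.sum_congr rfl fun k _ => ?_
      simp only [hP]
      split_ifs <;> ring
    rw [h2] at h1
    rw [← h5]
    exact h1.trans (mul_le_mul_of_nonneg_right h4 (G_nonneg _ _))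
  have hti : IntervalIntegrable (fun t => ∑ k ∈ Finset.range K, (32 : ℝ) ^ (k + 1) *
      tr T (3 * s) (8 ^ k) t) volume A (B - 2 * s) := by
    have h1 := IntervalIntegrable.sum (Finset.range K) (f := fun k t => (32 : ℝ) ^ (k + 1) *
      tr T (3 * s) (8 ^ k) t) (μ := volume) (a := A) (b := B - 2 * s)
      fun k _ => (tr_ii T (3 * s) (8 ^ k) A (B - 2 * s)).const_mul _
    have h2 : (∑ k ∈ Finset.range K, fun t => (32 : ℝ) ^ (k + 1) * tr T (3 * s) (8 ^ k) t) =
        fun t => ∑ k ∈ Finset.range K, (32 : ℝ) ^ (k + 1) * tr T (3 * s) (8 ^ k) t := by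
      funext t
      exact Finset.sum_apply t _ _
    rwa [h2] at h1
  have hA : ∫ t in A..(B - 2 * s), ∑ z ∈ S, (mz z : ℝ) * (dn s (z.im - s) t * G K (P t)) ≤
      ∫ t in A..(B - 2 * s), ∑ k ∈ Finset.range K, (32 : ℝ) ^ (k + 1) * tr T (3 * s) (8 ^ k) t :=
    intervalIntegral.integral_mono_on hAB (sum_ii S _ fun z _ => (hGi _).const_mul _) hti
      fun t _ => hpt t
  rw [intervalIntegral.integral_finsetSum fun k _ => (tr_ii T (3 * s) (8 ^ k) A (B - 2 * s)).const_mul _]
    at hA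
  have hB : ∑ k ∈ Finset.range K, ∫ t in A..(B - 2 * s), (32 : ℝ) ^ (k + 1) * tr T (3 * s) (8 ^ k) t ≤
      ∑ k ∈ Finset.range K, 2592 * C * T * (1 / 2 : ℝ) ^ k := by
    refine Finset.sum_le_sum fun k _ => ?_
    rw [intervalIntegral.integral_const_mul]
    have h1 := tr_int hs.le hC hT hAB hNT (x := 8 ^ k) (one_le_pow₀ (by norm_num))
    calc (32 : ℝ) ^ (k + 1) * ∫ t in A..(B - 2 * s), tr T (3 * s) (8 ^ k) t
        ≤ (32 : ℝ) ^ (k + 1) * (81 * C * T / (8 ^ k) ^ 2) := mul_le_mul_of_nonneg_left h1 (by positivity)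
      _ = 2592 * C * T * (1 / 2 : ℝ) ^ k := by
          have e1 : ((8 : ℝ) ^ k) ^ 2 = 32 ^ k * 2 ^ k := by
            rw [← pow_mul, mul_comm k 2, pow_mul, ← mul_pow]; norm_num
          rw [e1, pow_succ, div_pow, one_pow]
          field_simp
          ring
  rw [← Finset.mul_sum] at hB
  have hC2 := sum_geometric_two_le K
  have hCT : 0 ≤ 2592 * C * T := by positivity
  rw [Finset.mul_sum]
  calc ∑ z ∈ S, s * ((mz z : ℝ) * G K (cnt T (z.im - s) (z.im + s)))
      ≤ ∑ z ∈ S, ∫ t in A..(B - 2 * s), (mz z : ℝ) * (dn s (z.im - s) t * G K (P t)) :=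
        Finset.sum_le_sum hone
    _ ≤ 2592 * C * T * ∑ k ∈ Finset.range K, (1 / 2 : ℝ) ^ k := by
        rw [hsum]
        exact hA.trans hB
    _ ≤ 2592 * C * T * 2 := mul_le_mul_of_nonneg_left hC2 hCT
    _ = _ := by ring

end W2L

open W2L in
/-- (W2) -/
theorem t_W2 (hN : S_NT) : S_W2 := by
  classical
  obtain ⟨C1, T1, hC1, hT1, h1⟩ := hN
  obtain ⟨C2, hC2, h2⟩ := sum_w5
  obtain ⟨C3, hC3, h3⟩ := bad4
  obtain ⟨C4, hC4, h4⟩ := cnt_zero
  refine ⟨C2 + 24 * (C3 * C4 ^ 2) + 5184 * C1, max T1 10000, by positivity, ?_, ?_⟩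
  · exact le_trans (by norm_num) (le_max_right _ _)
  intro T hT
  have hTT1 : T1 ≤ T := (le_max_left _ _).trans hT
  have hT4 : 10000 ≤ T := (le_max_right _ _).trans hT
  set L := Real.log T with hL
  have hL2 : 2 ≤ L := by
    rw [hL, Real.le_log_iff_exp_le (by linarith)]
    have h5 : Real.exp 2 = Real.exp 1 ^ 2 := by rw [← Real.exp_nat_mul]; norm_num
    rw [h5]
    have := Real.exp_one_lt_d9
    have := Real.exp_pos 1
    nlinarith
  have hLexp : Real.exp L = T := Real.exp_log (by linarith)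
  have hL4 : L ^ 4 ≤ 24 * T := by
    have := Real.pow_div_factorial_le_exp L (by linarith) 4
    rw [hLexp, div_le_iff₀ (by positivity)] at this
    have e : ((Nat.factorial 4 : ℕ) : ℝ) = 24 := by norm_num [Nat.factorial]
    rw [e] at this
    linarith
  have hLT : 16 * L ≤ T := by
    have h5 : Real.log (T / 32) ≤ T / 32 - 1 := Real.log_le_sub_one_of_pos (by linarith)
    rw [Real.log_div (by linarith) (by norm_num), ← hL] at h5
    have h6 : Real.log 32 ≤ 4 := by
      have h7 : (32 : ℝ) = 2 ^ 5 := by norm_num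
      rw [h7, Real.log_pow]
      have := Real.log_two_lt_d9
      push_cast
      linarith
    linarith
  set s := 1 / L with hs
  have hs0 : 0 < s := by positivity
  have hs1 : s ≤ 1 / 2 := by
    rw [hs]
    exact one_div_le_one_div_of_le (by norm_num) hL2
  have hsL : s * L = 1 := by rw [hs]; field_simp
  set Z := H370.Zf riemannZeta T (2 * T) with hZ
  obtain ⟨K, hK⟩ : ∃ K : ℕ, tot T < 8 ^ K := pow_unbounded_of_one_lt _ (by norm_num)
  set pr : ℂ → Prop := fun z => T + 4 * L ≤ z.im ∧ z.im ≤ 2 * T - 4 * L with hpr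
  have hI := int_cw T s hs0.le
  rw [← hZ] at hI
  have hgood := good_sum (A := T + 3 * L) (B := 2 * T - 3 * L) K hs0 hC1.le (by linarith)
    (by linarith) (fun x hx => h1 T hTT1 x hx) (Z.filter pr) (Finset.filter_subset _ _)
    (fun z hz => by
      rw [Finset.mem_filter] at hz
      obtain ⟨-, h5, h6⟩ := hz
      exact ⟨by linarith, by linarith⟩)
  have hbad : s * ∑ z ∈ Z.filter (fun z => ¬ pr z), (mz z : ℝ) * (cnt T (z.im - s) (z.im + s)) ^ 2 ≤
      24 * (C3 * C4 ^ 2) * T := by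
    have h5 : ∑ z ∈ Z.filter (fun z => ¬ pr z), (mz z : ℝ) * (cnt T (z.im - s) (z.im + s)) ^ 2 ≤
        ∑ z ∈ Z.filter (fun z => ¬ pr z), (mz z : ℝ) * (C4 * L) ^ 2 := by
      refine Finset.sum_le_sum fun z hz => mul_le_mul_of_nonneg_left ?_ (Nat.cast_nonneg _)
      rw [Finset.mem_filter] at hz
      exact pow_le_pow_left₀ (cnt_nonneg _ _ _) (h4 T s (by linarith) hs0 (by linarith) z hz.1) 2
    rw [← Finset.sum_mul] at h5
    have h6 := h3 T (by linarith)
    have h7 : (∑ z ∈ Z.filter (fun z => ¬ pr z), (mz z : ℝ)) * (C4 * L) ^ 2 ≤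
        C3 * L ^ 2 * (C4 * L) ^ 2 := mul_le_mul_of_nonneg_right h6 (by positivity)
    have h8 : 0 ≤ ∑ z ∈ Z.filter (fun z => ¬ pr z), (mz z : ℝ) * (cnt T (z.im - s) (z.im + s)) ^ 2 :=
      Finset.sum_nonneg fun z _ => by positivity
    calc s * ∑ z ∈ Z.filter (fun z => ¬ pr z), (mz z : ℝ) * (cnt T (z.im - s) (z.im + s)) ^ 2
        ≤ 1 * ∑ z ∈ Z.filter (fun z => ¬ pr z), (mz z : ℝ) * (cnt T (z.im - s) (z.im + s)) ^ 2 :=
          mul_le_mul_of_nonneg_right (by linarith) h8
      _ ≤ C3 * L ^ 2 * (C4 * L) ^ 2 := by rw [one_mul]; exact h5.trans h7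
      _ = C3 * C4 ^ 2 * L ^ 4 := by ring
      _ ≤ C3 * C4 ^ 2 * (24 * T) := mul_le_mul_of_nonneg_left hL4 (by positivity)
      _ = _ := by ring
  have h5th : s * ∑ z ∈ Z, (mz z : ℝ) * ww T z ^ 5 ≤ C2 * T := by
    have h5 := mul_le_mul_of_nonneg_left (h2 T (by linarith)) hs0.le
    refine h5.trans (le_of_eq ?_)
    calc s * (C2 * T * L) = C2 * T * (s * L) := by ring
      _ = C2 * T := by rw [hsL, mul_one]
  have hsum : ∑ z ∈ Z, (mz z : ℝ) * (ww T z ^ 2 * cnt T (z.im - s) (z.im + s)) ≤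
      (∑ z ∈ Z, (mz z : ℝ) * ww T z ^ 5) +
      ((∑ z ∈ Z.filter pr, (mz z : ℝ) * G K (cnt T (z.im - s) (z.im + s))) +
        ∑ z ∈ Z.filter (fun z => ¬ pr z), (mz z : ℝ) * (cnt T (z.im - s) (z.im + s)) ^ 2) := by
    rw [← Finset.sum_filter_add_sum_filter_not Z pr (fun z => (mz z : ℝ) * (ww T z ^ 2 *
      cnt T (z.im - s) (z.im + s))), ← Finset.sum_filter_add_sum_filter_not Z pr
      (fun z => (mz z : ℝ) * ww T z ^ 5)]
    have a1 : ∑ z ∈ Z.filter pr, (mz z : ℝ) * (ww T z ^ 2 * cnt T (z.im - s) (z.im + s)) ≤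
        (∑ z ∈ Z.filter pr, (mz z : ℝ) * ww T z ^ 5) +
          ∑ z ∈ Z.filter pr, (mz z : ℝ) * G K (cnt T (z.im - s) (z.im + s)) := by
      rw [← Finset.sum_add_distrib]
      refine Finset.sum_le_sum fun z _ => ?_
      rw [← mul_add]
      exact mul_le_mul_of_nonneg_left
        (young1 (ww_one T z) ((cnt_le_tot _ _ _).trans_lt hK)) (Nat.cast_nonneg _)
    have a2 : ∑ z ∈ Z.filter (fun z => ¬ pr z), (mz z : ℝ) * (ww T z ^ 2 *
        cnt T (z.im - s) (z.im + s)) ≤
        (∑ z ∈ Z.filter (fun z => ¬ pr z), (mz z : ℝ) * ww T z ^ 5) +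
          ∑ z ∈ Z.filter (fun z => ¬ pr z), (mz z : ℝ) * (cnt T (z.im - s) (z.im + s)) ^ 2 := by
      rw [← Finset.sum_add_distrib]
      refine Finset.sum_le_sum fun z _ => ?_
      rw [← mul_add]
      exact mul_le_mul_of_nonneg_left (young2 (ww_one T z)) (Nat.cast_nonneg _)
    linarith
  have hfin := mul_le_mul_of_nonneg_left hsum hs0.le
  rw [mul_add, mul_add] at hfin
  refine hI.trans (hfin.trans ?_)
  have e : (C2 + 24 * (C3 * C4 ^ 2) + 5184 * C1) * T =
      C2 * T + (5184 * C1 * T + 24 * (C3 * C4 ^ 2) * T) := by ring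
  rw [e]
  exact add_le_add h5th (add_le_add hgood hbad)

end Pool.Agent.H203.ME
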