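import Pool.Agent.H203.ME.APX4
import Pool.Agent.H203.ME.BB2
import Pool.Agent.H203.ME.BBV
import Pool.Agent.H203.ME.NT
import Pool.Agent.H203.ME.W2
import Pool.Agent.H203.ME.KP
import Pool.Agent.H203.ME.L2
import Pool.Agent.H203.ME.SEC
import Pool.Agent.H203.ME.FIN4

set_option autoImplicit false

open Complex Filter Topology Set MeasureTheory

namespace Pool.Agent.H203.ME

theorem p_W2 : S_W2 := t_W2 (t_NT t_APM t_BB2 t_ADM)

theorem p_L2 : S_L2 := t_L2 t_PT (t_KP t_KER t_OM) p_W2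

theorem p_SEC : S_SEC := t_SEC t_BBV p_L2

theorem p_PCC : S_PCC := t_PCC p_SEC

end Pool.Agent.H203.ME
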