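import Pool.Agent.H203.ME.Defs5

set_option autoImplicit false

/-! (BMB) all moments of the prime side are bounded (by helper591). -/

open Complex Filter Topology Set MeasureTheory

namespace Pool.Agent.H203.ME

namespace BMBL

open ArithmeticFunction

lemma one_le_log {n : ℕ} (hn : 3 ≤ n) : (1 : ℝ) ≤ Real.log n := by
  rw [Real.le_log_iff_exp_le (by exact_mod_cast (by omega : 0 < n))]
  have : (3 : ℝ) ≤ n := by exact_mod_cast hn
  linarith [Real.exp_one_lt_d9]

lemma sum_sq (N : ℕ) (hN : 3 ≤ N) (X : ℕ) (hX : N ≤ X) :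
    ∑ n ∈ Finset.Ioc N X, vonMangoldt n / n * (1 / (Real.log n) ^ 2) ≤
      (1 / Real.log N - 1 / Real.log X) +
      6 * (1 / (Real.log N) ^ 2 - 1 / (Real.log X) ^ 2) +
      ((∑ d ∈ Finset.Icc 1 X, vonMangoldt d / d) - Real.log X) * (1 / (Real.log X) ^ 2) -
      ((∑ d ∈ Finset.Icc 1 N, vonMangoldt d / d) - Real.log N) * (1 / (Real.log N) ^ 2) := by
  induction X, hX using Nat.le_induction with
  | base => simp
  | succ X hX ih =>
    have hX1 : 1 ≤ X := by omega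
    have hXR : (1 : ℝ) < X := by exact_mod_cast (by omega : 1 < X)
    rw [Finset.sum_Ioc_succ_top (by omega : N ≤ X)]
    have h1 : ∑ d ∈ Finset.Icc 1 (X + 1), vonMangoldt d / (d : ℝ) =
        ∑ d ∈ Finset.Icc 1 X, vonMangoldt d / (d : ℝ) +
          vonMangoldt (X + 1) / ((X + 1 : ℕ) : ℝ) := by
      rw [Finset.sum_Icc_succ_top (by omega)]
    have hup := H370.nt_mertens_upper X hX1
    set A := ∑ d ∈ Finset.Icc 1 X, vonMangoldt d / (d : ℝ) with hA
    set a := Real.log X with ha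
    set b := Real.log ((X + 1 : ℕ) : ℝ) with hb
    have ha0 : 0 < a := Real.log_pos hXR
    have hab : a < b := by
      apply Real.log_lt_log (by linarith)
      push_cast; linarith
    have hb0 : 0 < b := ha0.trans hab
    rw [h1]
    have h2 : 1 / b ^ 2 ≤ 1 / a ^ 2 := by
      apply one_div_le_one_div_of_le (by positivity)
      exact pow_le_pow_left₀ ha0.le hab.le 2
    have h3 : (b - a) * (1 / b ^ 2) ≤ 1 / a - 1 / b := by
      rw [div_sub_div _ _ (by positivity) (by positivity), ← mul_div_assoc, mul_one,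
        div_le_div_iff₀ (by positivity) (by positivity)]
      nlinarith [mul_pos ha0 hb0, mul_nonneg (mul_nonneg (sub_nonneg.2 hab.le) (sub_nonneg.2 hab.le)) hb0.le]
    have h5 : (A - a) * (1 / a ^ 2 - 1 / b ^ 2) ≤ 6 * (1 / a ^ 2 - 1 / b ^ 2) := by
      apply mul_le_mul_of_nonneg_right _ (by linarith)
      linarith
    nlinarith [ih, h3, h5]

lemma sum_sq' (N : ℕ) (hN : 3 ≤ N) (X : ℕ) (hX : N ≤ X) :
    ∑ n ∈ Finset.Ioc N X, vonMangoldt n / n * (1 / (Real.log n) ^ 2) ≤ 8 / Real.log N := by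
  refine (sum_sq N hN X hX).trans ?_
  have h3 : (1 : ℝ) ≤ Real.log N := one_le_log hN
  have hX3 : (1 : ℝ) ≤ Real.log X := one_le_log (hN.trans hX)
  have hup := H370.nt_mertens_upper X (by omega)
  have hlo := H370.nt_mertens_lower N (by omega)
  set A := ∑ d ∈ Finset.Icc 1 X, vonMangoldt d / (d : ℝ) with hA
  set B := ∑ d ∈ Finset.Icc 1 N, vonMangoldt d / (d : ℝ) with hB
  set a := Real.log N with ha
  set b := Real.log X with hb
  have h1 : (A - b) * (1 / b ^ 2) ≤ 6 * (1 / b ^ 2) := by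
    apply mul_le_mul_of_nonneg_right _ (by positivity)
    linarith
  have h2 : -1 * (1 / a ^ 2) ≤ (B - a) * (1 / a ^ 2) := by
    apply mul_le_mul_of_nonneg_right _ (by positivity)
    linarith
  have h4 : 1 / a ^ 2 ≤ 1 / a := by
    apply one_div_le_one_div_of_le (by positivity)
    nlinarith [sq_nonneg a]
  have h5 : 0 ≤ 1 / b := by positivity
  have h7 : 8 / a = 8 * (1 / a) := by ring
  rw [h7]
  linarith

/-- Mertens for the averages of a bump at scale `1 / h` -/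
lemma mean1 (c h : ℝ) (hc : 0 ≤ c) (hh : 0 < h) (h8 : h ≤ 1 / 8) (G : ℝ → ℝ) (hG0 : ∀ x, 0 ≤ x → 0 ≤ G x)
    (hG : ∀ x, 0 ≤ x → G x ≤ c * h) (hG2 : ∀ x, 0 < x → G x ≤ c / (h * x ^ 2)) (M : ℕ) :
    ∑ n ∈ Finset.Icc 1 M, vonMangoldt n / n * G (Real.log n) ≤ 23 * c := by
  set N := ⌊Real.exp (1 / h)⌋₊ with hN
  have hih : 8 ≤ 1 / h := by
    rw [le_div_iff₀ hh]; linarith
  have hNle : (N : ℝ) ≤ Real.exp (1 / h) := Nat.floor_le (Real.exp_pos _).le
  have hNge : Real.exp (1 / h) - 1 ≤ (N : ℝ) := (Nat.sub_one_lt_floor _).le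
  have hE : Real.exp (1 / h) = Real.exp (1 / h / 2) * Real.exp (1 / h / 2) := by
    rw [← Real.exp_add]; congr 1; ring
  have hE2 : 5 ≤ Real.exp (1 / h / 2) := by
    have := Real.add_one_le_exp (1 / h / 2)
    linarith
  have hNexp : Real.exp (1 / h / 2) ≤ N := by nlinarith
  have hN0 : (0 : ℝ) < N := (Real.exp_pos _).trans_le hNexp
  have hN3 : 3 ≤ N := by
    have : (3 : ℝ) ≤ N := by linarith
    exact_mod_cast this
  have hlogN : Real.log N ≤ 1 / h := by
    rw [Real.log_le_iff_le_exp hN0]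
    exact hNle
  have hlogN' : 1 / h / 2 ≤ Real.log N := (Real.le_log_iff_exp_le hN0).2 hNexp
  have hterm : ∀ n : ℕ, 0 ≤ vonMangoldt n / n * G (Real.log n) := fun n =>
    mul_nonneg (div_nonneg vonMangoldt_nonneg (Nat.cast_nonneg n)) (hG0 _ (Real.log_natCast_nonneg n))
  set X := max M N with hX
  have h1 : ∑ n ∈ Finset.Icc 1 M, vonMangoldt n / n * G (Real.log n) ≤
      ∑ n ∈ Finset.Icc 1 X, vonMangoldt n / n * G (Real.log n) :=
    Finset.sum_le_sum_of_subset_of_nonneg (Finset.Icc_subset_Icc_right (le_max_left _ _)) (fun n _ _ => hterm n)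
  have hNX : N ≤ X := le_max_right _ _
  have hun : Finset.Icc 1 X = Finset.Icc 1 N ∪ Finset.Ioc N X := by
    ext n
    rw [Finset.mem_union, Finset.mem_Icc, Finset.mem_Icc, Finset.mem_Ioc]
    omega
  have hdis : Disjoint (Finset.Icc 1 N) (Finset.Ioc N X) := by
    rw [Finset.disjoint_left]
    intro n h1 h2
    rw [Finset.mem_Icc] at h1
    rw [Finset.mem_Ioc] at h2
    omega
  rw [hun, Finset.sum_union hdis] at h1
  have h2 : ∑ n ∈ Finset.Icc 1 N, vonMangoldt n / n * G (Real.log n) ≤ 7 * c := by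
    calc ∑ n ∈ Finset.Icc 1 N, vonMangoldt n / n * G (Real.log n)
        ≤ ∑ n ∈ Finset.Icc 1 N, vonMangoldt n / n * (c * h) :=
          Finset.sum_le_sum fun n _ => mul_le_mul_of_nonneg_left (hG _ (Real.log_natCast_nonneg n))
            (div_nonneg vonMangoldt_nonneg (Nat.cast_nonneg n))
      _ = (∑ n ∈ Finset.Icc 1 N, vonMangoldt n / n) * (c * h) := by rw [Finset.sum_mul]
      _ ≤ (1 / h + 6) * (c * h) := by
          apply mul_le_mul_of_nonneg_right _ (by positivity)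
          have := H370.nt_mertens_upper N (by omega)
          linarith
      _ = c + 6 * (c * h) := by field_simp
      _ ≤ 7 * c := by nlinarith
  have h3 : ∑ n ∈ Finset.Ioc N X, vonMangoldt n / n * G (Real.log n) ≤ 16 * c := by
    calc ∑ n ∈ Finset.Ioc N X, vonMangoldt n / n * G (Real.log n)
        ≤ ∑ n ∈ Finset.Ioc N X, (c / h) * (vonMangoldt n / n * (1 / (Real.log n) ^ 2)) := by
          refine Finset.sum_le_sum fun n hn => ?_
          have hn3 : 3 ≤ n := by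
            have := (Finset.mem_Ioc.1 hn).1
            omega
          have hl : (1 : ℝ) ≤ Real.log n := one_le_log hn3
          have h4 := hG2 (Real.log n) (by linarith)
          have h5 : 0 ≤ vonMangoldt n / (n : ℝ) := div_nonneg vonMangoldt_nonneg (Nat.cast_nonneg n)
          calc vonMangoldt n / n * G (Real.log n) ≤ vonMangoldt n / n * (c / (h * (Real.log n) ^ 2)) :=
                mul_le_mul_of_nonneg_left h4 h5
            _ = _ := by
                have : Real.log n ≠ 0 := by linarith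
                field_simp
      _ = (c / h) * ∑ n ∈ Finset.Ioc N X, (vonMangoldt n / n * (1 / (Real.log n) ^ 2)) := by
          rw [← Finset.mul_sum]
      _ ≤ (c / h) * (8 / Real.log N) := mul_le_mul_of_nonneg_left (sum_sq' N hN3 X hNX) (by positivity)
      _ ≤ (c / h) * (8 / (1 / h / 2)) := by
          apply mul_le_mul_of_nonneg_left _ (by positivity)
          apply div_le_div_of_nonneg_left (by norm_num) (by positivity) hlogN'
      _ = 16 * c := by
          field_simp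
          ring
  linarith

noncomputable def fA3 (n : ℕ) : ℝ := 4 * (1 / (n : ℝ) ^ (5 / 4 : ℝ))

noncomputable def fB3 (n : ℕ) : ℝ := 64 / 27 * (3 / 4 : ℝ) ^ n

noncomputable def g3 (q : ℕ × ℕ) : ℝ := fA3 q.1 * fB3 q.2

lemma fA3_nonneg (n : ℕ) : 0 ≤ fA3 n := by unfold fA3; positivity

lemma fB3_nonneg (n : ℕ) : 0 ≤ fB3 n := by unfold fB3; positivity

lemma g3_nonneg (q : ℕ × ℕ) : 0 ≤ g3 q := mul_nonneg (fA3_nonneg _) (fB3_nonneg _)

lemma g3_summable : Summable g3 := by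
  have h1 : Summable fA3 := (Real.summable_one_div_nat_rpow.2 (by norm_num)).mul_left _
  have h2 : Summable fB3 := (summable_geometric_of_lt_one (by norm_num) (by norm_num)).mul_left _
  exact h1.mul_of_nonneg h2 fA3_nonneg fB3_nonneg

lemma sqrt_pow' (x : ℝ) (hx : 0 ≤ x) (k : ℕ) : Real.sqrt (x ^ k) = Real.sqrt x ^ k := by
  have h1 : x ^ k = (Real.sqrt x ^ k) ^ 2 := by
    rw [← pow_mul, mul_comm, pow_mul, Real.sq_sqrt hx]
  rw [h1, Real.sqrt_sq (by positivity)]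

lemma g3_bound (p k : ℕ) (hp : p.Prime) (hk : 3 ≤ k) :
    vonMangoldt (p ^ k) / Real.sqrt ((p ^ k : ℕ) : ℝ) ≤ g3 (p, k) := by
  have hp0 : (0 : ℝ) < p := by exact_mod_cast hp.pos
  have hp2 : (2 : ℝ) ≤ p := by exact_mod_cast hp.two_le
  have hlog : 0 ≤ Real.log p := Real.log_nonneg (by linarith)
  rw [vonMangoldt_apply_pow (by omega), vonMangoldt_apply_prime hp]
  push_cast
  rw [sqrt_pow' _ hp0.le]
  unfold g3 fA3 fB3
  simp only
  have h2 : Real.log p ≤ 4 * (p : ℝ) ^ (1 / 4 : ℝ) := by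
    have := Real.log_le_rpow_div hp0.le (ε := 1 / 4) (by norm_num)
    linarith
  obtain ⟨m, rfl⟩ := Nat.exists_eq_add_of_le hk
  have hs : (4 / 3 : ℝ) ≤ Real.sqrt p := by
    apply Real.le_sqrt_of_sq_le
    norm_num
    linarith
  have h5 : (4 / 3 : ℝ) ^ m ≤ Real.sqrt p ^ m := pow_le_pow_left₀ (by norm_num) hs m
  have h6 : Real.sqrt p ^ 3 = (p : ℝ) ^ (3 / 2 : ℝ) := by
    rw [Real.sqrt_eq_rpow, ← Real.rpow_natCast, ← Real.rpow_mul hp0.le]; norm_num
  have h7 : (p : ℝ) ^ (3 / 2 : ℝ) = (p : ℝ) ^ (5 / 4 : ℝ) * (p : ℝ) ^ (1 / 4 : ℝ) := by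
    rw [← Real.rpow_add hp0]; norm_num
  have h8 : 0 < (p : ℝ) ^ (5 / 4 : ℝ) := by positivity
  have h9 : 0 < (p : ℝ) ^ (1 / 4 : ℝ) := by positivity
  have h10 : 64 / 27 * (3 / 4 : ℝ) ^ (3 + m) = 1 / (4 / 3 : ℝ) ^ m := by
    rw [pow_add, ← one_div_pow]
    norm_num
    ring
  rw [h10, pow_add, h6, h7]
  calc Real.log p / ((p : ℝ) ^ (5 / 4 : ℝ) * (p : ℝ) ^ (1 / 4 : ℝ) * Real.sqrt p ^ m)
      ≤ (4 * (p : ℝ) ^ (1 / 4 : ℝ)) / ((p : ℝ) ^ (5 / 4 : ℝ) * (p : ℝ) ^ (1 / 4 : ℝ) * (4 / 3 : ℝ) ^ m) := by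
        apply div_le_div₀ (by positivity) h2 (by positivity)
        exact mul_le_mul_of_nonneg_left h5 (by positivity)
    _ = 4 * (1 / (p : ℝ) ^ (5 / 4 : ℝ)) * (1 / (4 / 3 : ℝ) ^ m) := by
        field_simp

lemma cubes : ∃ C : ℝ, 0 < C ∧ ∀ N : ℕ,
    ∑ n ∈ (Finset.Icc 1 N).filter (fun n => IsPrimePow n ∧ 3 ≤ n.factorization n.minFac),
      vonMangoldt n / Real.sqrt n ≤ C := by
  classical
  have h0 : 0 ≤ ∑' q, g3 q := tsum_nonneg g3_nonneg
  refine ⟨(∑' q, g3 q) + 1, by linarith, fun N => ?_⟩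
  set S' := (Finset.Icc 1 N).filter (fun n => IsPrimePow n ∧ 3 ≤ n.factorization n.minFac) with hS'
  set i : ℕ → ℕ × ℕ := fun n => (n.minFac, n.factorization n.minFac) with hi
  have key : ∀ n ∈ S', n.minFac.Prime ∧ 3 ≤ n.factorization n.minFac ∧
      n.minFac ^ (n.factorization n.minFac) = n := by
    intro n hn
    rw [hS', Finset.mem_filter] at hn
    obtain ⟨h2, h3, h4⟩ := hn
    have h5 : n ≠ 1 := fun h => by subst h; exact not_isPrimePow_one h3
    exact ⟨Nat.minFac_prime h5, h4, h3.minFac_pow_factorization_eq⟩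
  have hinj : Set.InjOn i S' := by
    intro a ha b hb hab
    obtain ⟨_, _, h2⟩ := key a ha
    obtain ⟨_, _, h3⟩ := key b hb
    simp only [hi, Prod.mk.injEq] at hab
    rw [← h2, ← h3, hab.2, hab.1]
  have h1 : ∑ n ∈ S', vonMangoldt n / Real.sqrt n ≤ ∑ n ∈ S', g3 (i n) := by
    refine Finset.sum_le_sum fun n hn => ?_
    obtain ⟨h2, h3, h4⟩ := key n hn
    have h5 := g3_bound n.minFac (n.factorization n.minFac) h2 h3
    rw [h4] at h5
    exact h5
  have h2 : ∑ n ∈ S', g3 (i n) = ∑ q ∈ S'.image i, g3 q := (Finset.sum_image hinj).symm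
  have h3 : ∑ q ∈ S'.image i, g3 q ≤ ∑' q, g3 q := g3_summable.sum_le_tsum _ (fun q _ => g3_nonneg q)
  linarith

/-- the coefficients -/
noncomputable def aa (F : ℝ → ℝ) (R : ℝ) (n : ℕ) : ℂ :=
  ((PRML.kap R (Real.log n) * (vonMangoldt n / Real.sqrt n) : ℝ) : ℂ) * FF F (Real.log n)

lemma tail_term {F : ℝ → ℝ} (hF : ∀ ξ, ‖FF F ξ‖ ≤ 1) {R : ℝ} (hR16 : 16 ≤ R) (n : ℕ)
    (hn1 : 1 ≤ n) (hn : 2 * R ≤ Real.log n) (t : ℝ) :
    ‖((vonMangoldt n / Real.sqrt n * cR R (Real.log n) : ℝ) : ℂ) *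
      FF F (Real.log n) * ee n t‖ ≤ 2 * (1 / (n : ℝ) ^ 2) := by
  have hn0 : (0 : ℝ) < n := by exact_mod_cast hn1
  have hn1' : (1 : ℝ) ≤ n := by exact_mod_cast hn1
  rw [norm_mul, norm_mul, PRML.norm_ee, mul_one, Complex.norm_real, Real.norm_eq_abs]
  have hR : 0 < R := by linarith
  have hc0 := PRML.cR_nonneg R (Real.log n) hR
  have hc1 := PRML.cR_tail R (Real.log n) hR hn
  have hL0 : 0 ≤ vonMangoldt n := vonMangoldt_nonneg
  have hL1 : vonMangoldt n ≤ Real.log n := vonMangoldt_le_log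
  have hs1 : 1 ≤ Real.sqrt n := by rw [Real.one_le_sqrt]; exact hn1'
  set l := Real.log n with hl
  have hl0 : 32 ≤ l := by linarith
  have h1 : vonMangoldt n / Real.sqrt n ≤ l :=
    (div_le_self hL0 hs1).trans hL1
  have h10 : 0 ≤ vonMangoldt n / Real.sqrt n := by positivity
  have h2 : Real.exp (-l ^ 2 / 8) ≤ 1 / (n : ℝ) ^ 4 := by
    have h3 : -l ^ 2 / 8 ≤ -(4 * l) := by nlinarith
    have h4 : Real.exp (-(4 * l)) = 1 / (n : ℝ) ^ 4 := by
      rw [Real.exp_neg, show 4 * l = Real.log ((n : ℝ) ^ 4) by rw [Real.log_pow, ← hl]; norm_num,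
        Real.exp_log (by positivity)]
      simp
    rw [← h4]
    exact Real.exp_le_exp.2 h3
  have h5 : l * (R * Real.exp (-l ^ 2 / 8)) ≤ 2 * (1 / (n : ℝ) ^ 2) := by
    have h6 : l * R ≤ 2 * n := by
      have := PRML.log_sq_le hn1'
      rw [← hl] at this
      nlinarith
    have h7 : (n : ℝ) * (1 / (n : ℝ) ^ 4) ≤ 1 / (n : ℝ) ^ 2 := by
      rw [mul_one_div, div_le_div_iff₀ (by positivity) (by positivity)]
      nlinarith [pow_pos hn0 3]
    calc l * (R * Real.exp (-l ^ 2 / 8)) = (l * R) * Real.exp (-l ^ 2 / 8) := by ring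
      _ ≤ (2 * n) * (1 / (n : ℝ) ^ 4) :=
          mul_le_mul h6 h2 (Real.exp_pos _).le (by positivity)
      _ = 2 * (n * (1 / (n : ℝ) ^ 4)) := by ring
      _ ≤ 2 * (1 / (n : ℝ) ^ 2) := by linarith
  have h8 : vonMangoldt n / Real.sqrt n * cR R l ≤ 2 * (1 / (n : ℝ) ^ 2) := by
    refine le_trans ?_ h5
    exact mul_le_mul h1 hc1 hc0 (by linarith)
  rw [abs_of_nonneg (mul_nonneg h10 hc0)]
  calc vonMangoldt n / Real.sqrt n * cR R l * ‖FF F l‖
      ≤ (2 * (1 / (n : ℝ) ^ 2)) * 1 :=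
        mul_le_mul h8 (hF l) (norm_nonneg _) (by positivity)
    _ = _ := by ring

lemma split {F : ℝ → ℝ} (hF : ∀ ξ, ‖FF F ξ‖ ≤ 1) {R : ℝ} (hR16 : 16 ≤ R) (X : ℕ)
    (hX : ∀ n : ℕ, X < n → 2 * R ≤ Real.log n) (t : ℝ) :
    ∃ w : ℂ, ‖w‖ ≤ 2 * PRML.Z1 ∧ BB F R t = ((∑ n ∈ Finset.Icc 1 X, aa F R n * ee n t) + w).re := by
  set f : ℕ → ℂ := fun n => ((vonMangoldt n / Real.sqrt n * cR R (Real.log n) : ℝ) : ℂ) *
      FF F (Real.log n) * ee n t with hf
  have hb : ∀ n : ℕ, ‖f (n + (X + 1))‖ ≤ 2 * (1 / ((n + 1 : ℕ) : ℝ) ^ 2) := by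
    intro n
    have h1 := tail_term hF hR16 (n + (X + 1)) (by omega) (hX _ (by omega)) t
    refine h1.trans ?_
    apply mul_le_mul_of_nonneg_left _ (by norm_num)
    apply one_div_le_one_div_of_le (by positivity)
    apply pow_le_pow_left₀ (by positivity)
    push_cast
    have : (0 : ℝ) ≤ X := Nat.cast_nonneg X
    linarith
  have hsg : HasSum (fun n : ℕ => 2 * (1 / ((n + 1 : ℕ) : ℝ) ^ 2)) (2 * PRML.Z1) :=
    PRML.Z1_summable.hasSum.mul_left _
  have hsum' : Summable (fun n => f (n + (X + 1))) := Summable.of_norm_bounded hsg.summable hb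
  have hsum : Summable f := (summable_nat_add_iff (X + 1)).1 hsum'
  have htail : ‖∑' n, f (n + (X + 1))‖ ≤ 2 * PRML.Z1 := tsum_of_norm_bounded hsg hb
  have hsplit := hsum.sum_add_tsum_nat_add (X + 1)
  have hfin : ∑ n ∈ Finset.range (X + 1), f n = ∑ n ∈ Finset.Icc 1 X, f n := by
    symm
    apply Finset.sum_subset
    · intro n hn
      rw [Finset.mem_Icc] at hn
      rw [Finset.mem_range]; omega
    · intro n hn hn'
      rw [Finset.mem_range] at hn
      rw [Finset.mem_Icc] at hn'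
      have : n = 0 := by omega
      subst this
      simp [hf]
  set c : ℝ := 2 / Real.sqrt (2 * Real.pi) with hc
  refine ⟨(c : ℂ) * ∑' n, f (n + (X + 1)), ?_, ?_⟩
  · rw [norm_mul, Complex.norm_real, Real.norm_eq_abs, abs_of_nonneg (by positivity)]
    have h1 := PRML.two_div_le_one
    rw [← hc] at h1
    have h2 := norm_nonneg (∑' n, f (n + (X + 1)))
    nlinarith
  · have hBB : BB F R t = ((c : ℂ) * ∑' n, f n).re := by
      unfold BB
      rw [Complex.re_ofReal_mul]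
    rw [hBB, ← hsplit, hfin, mul_add]
    congr 2
    rw [Finset.mul_sum]
    refine Finset.sum_congr rfl fun n _ => ?_
    rw [hf]
    unfold aa PRML.kap
    rw [← hc]
    push_cast
    ring

/-- the bump -/
noncomputable def bp (c h x : ℝ) : ℝ := c * h / (1 + (h * x) ^ 2)

lemma bp_nonneg {c h : ℝ} (hc : 0 ≤ c) (hh : 0 < h) (x : ℝ) : 0 ≤ bp c h x := by
  unfold bp; positivity

lemma bp_le {c h : ℝ} (hc : 0 ≤ c) (hh : 0 < h) (x : ℝ) : bp c h x ≤ c * h := by
  unfold bp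
  apply div_le_self (by positivity)
  nlinarith [sq_nonneg (h * x)]

lemma bp_le2 {c h : ℝ} (hc : 0 ≤ c) (hh : 0 < h) (x : ℝ) (hx : 0 < x) : bp c h x ≤ c / (h * x ^ 2) := by
  unfold bp
  rw [div_le_div_iff₀ (by positivity) (by positivity)]
  have : c * h * (h * x ^ 2) = c * (h * x) ^ 2 := by ring
  rw [this]
  nlinarith [sq_nonneg (h * x)]

lemma FF_bp {f : ℝ → ℝ} (hf : ContDiff ℝ 2 f) (hs : HasCompactSupport f) {c h : ℝ}
    (hc : (∫ x : ℝ, |f x|) + (∫ x : ℝ, |deriv (deriv f) x|) ≤ c) (hh : 0 < h) (ξ : ℝ) :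
    ‖FF (fun x => f (x / h)) ξ‖ ≤ bp c h ξ := by
  rw [ADML.scale f hh ξ, norm_mul, Complex.norm_real, Real.norm_eq_abs, abs_of_pos hh]
  have h1 := (ADML.decay hf hs (h * ξ)).trans hc
  unfold bp
  rw [le_div_iff₀ (by positivity)]
  calc h * ‖FF f (h * ξ)‖ * (1 + (h * ξ) ^ 2) = h * (‖FF f (h * ξ)‖ * (1 + (h * ξ) ^ 2)) := by ring
    _ ≤ h * c := mul_le_mul_of_nonneg_left h1 hh.le
    _ = c * h := by ring

lemma aa_le {F : ℝ → ℝ} {R : ℝ} (hR : 0 < R) (n : ℕ) :
    ‖aa F R n‖ ≤ vonMangoldt n / Real.sqrt n * ‖FF F (Real.log n)‖ := by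
  unfold aa
  rw [norm_mul, Complex.norm_real, Real.norm_eq_abs]
  have h1 := PRML.kap_nonneg R (Real.log n) hR
  have h2 := PRML.kap_le R (Real.log n) hR
  have h3 : 0 ≤ vonMangoldt n / Real.sqrt n := div_nonneg vonMangoldt_nonneg (Real.sqrt_nonneg _)
  rw [abs_of_nonneg (mul_nonneg h1 h3)]
  apply mul_le_mul_of_nonneg_right _ (norm_nonneg _)
  calc PRML.kap R (Real.log n) * (vonMangoldt n / Real.sqrt n) ≤ 1 * (vonMangoldt n / Real.sqrt n) :=
        mul_le_mul_of_nonneg_right h2 h3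
    _ = _ := one_mul _

lemma primes {F : ℝ → ℝ} {c h R : ℝ} (hR : 0 < R) (_hc : 0 ≤ c) (hh : 0 < h) (h8 : h ≤ 1 / 8)
    (hF : ∀ ξ, ‖FF F ξ‖ ≤ bp c h ξ) (M : ℕ) :
    ∑ n ∈ (Finset.Icc 1 M).filter Nat.Prime, ‖aa F R n‖ ^ 2 ≤ 23 * c ^ 2 := by
  have h1 := mean1 (c ^ 2) h (sq_nonneg c) hh h8 (fun x => x * (bp c h x) ^ 2)
    (fun x hx => mul_nonneg hx (sq_nonneg _)) (fun x hx => by
      unfold bp
      have e : x * (c * h / (1 + (h * x) ^ 2)) ^ 2 = (c ^ 2 * h) * ((h * x) / (1 + (h * x) ^ 2) ^ 2) := by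
        field_simp
      rw [e]
      have h2 : (h * x) / (1 + (h * x) ^ 2) ^ 2 ≤ 1 := by
        rw [div_le_one (by positivity)]
        have : 0 ≤ h * x := by positivity
        nlinarith [sq_nonneg (h * x - 1), sq_nonneg (h * x), sq_nonneg ((h * x) ^ 2)]
      calc (c ^ 2 * h) * ((h * x) / (1 + (h * x) ^ 2) ^ 2) ≤ (c ^ 2 * h) * 1 :=
            mul_le_mul_of_nonneg_left h2 (by positivity)
        _ = _ := mul_one _)
    (fun x hx => by
      unfold bp
      have e : x * (c * h / (1 + (h * x) ^ 2)) ^ 2 = (c ^ 2 / (h * x ^ 2)) * ((h * x) ^ 3 / (1 + (h * x) ^ 2) ^ 2) := by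
        field_simp
      rw [e]
      have h2 : (h * x) ^ 3 / (1 + (h * x) ^ 2) ^ 2 ≤ 1 := by
        rw [div_le_one (by positivity)]
        have : 0 ≤ h * x := by positivity
        nlinarith [mul_nonneg (sq_nonneg (h * x)) (sq_nonneg (h * x - 1)), sq_nonneg (h * x)]
      calc (c ^ 2 / (h * x ^ 2)) * ((h * x) ^ 3 / (1 + (h * x) ^ 2) ^ 2) ≤ (c ^ 2 / (h * x ^ 2)) * 1 :=
            mul_le_mul_of_nonneg_left h2 (by positivity)
        _ = _ := mul_one _) M
  refine le_trans ?_ h1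
  refine le_trans (Finset.sum_le_sum_of_subset_of_nonneg (Finset.filter_subset _ _) (fun n _ _ => sq_nonneg _)) ?_
  refine Finset.sum_le_sum fun n hn => ?_
  have hn1 := (Finset.mem_Icc.1 hn).1
  have hn0 : (0 : ℝ) < n := by exact_mod_cast hn1
  have hL0 : 0 ≤ vonMangoldt n := vonMangoldt_nonneg
  have hL1 : vonMangoldt n ≤ Real.log n := vonMangoldt_le_log
  have h2 : ‖aa F R n‖ ≤ vonMangoldt n / Real.sqrt n * bp c h (Real.log n) :=
    (aa_le hR n).trans (mul_le_mul_of_nonneg_left (hF _) (by positivity))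
  calc ‖aa F R n‖ ^ 2 ≤ (vonMangoldt n / Real.sqrt n * bp c h (Real.log n)) ^ 2 :=
        pow_le_pow_left₀ (norm_nonneg _) h2 2
    _ = vonMangoldt n / n * (vonMangoldt n * (bp c h (Real.log n)) ^ 2) := by
        rw [mul_pow, div_pow, Real.sq_sqrt hn0.le]
        ring
    _ ≤ vonMangoldt n / n * (Real.log n * (bp c h (Real.log n)) ^ 2) := by
        apply mul_le_mul_of_nonneg_left _ (by positivity)
        exact mul_le_mul_of_nonneg_right hL1 (sq_nonneg _)

lemma squares {c h : ℝ} (hc : 0 ≤ c) (hh : 0 < h) (h8 : h ≤ 1 / 8) (M : ℕ) :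
    ∑ n ∈ (Finset.Icc 1 M).filter (fun n => IsPrimePow n ∧ n.factorization n.minFac = 2),
      vonMangoldt n / Real.sqrt n * bp c h (Real.log n) ≤ 23 * c := by
  have h1 := mean1 c h hc hh h8 (fun x => bp c h (2 * x))
    (fun x _ => bp_nonneg hc hh _) (fun x _ => bp_le hc hh _) (fun x hx => by
      refine (bp_le2 hc hh (2 * x) (by positivity)).trans ?_
      apply div_le_div_of_nonneg_left hc (by positivity)
      apply mul_le_mul_of_nonneg_left _ hh.le
      nlinarith [sq_nonneg x]) M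
  refine le_trans ?_ h1
  set S' := (Finset.Icc 1 M).filter (fun n => IsPrimePow n ∧ n.factorization n.minFac = 2) with hS'
  have key : ∀ n ∈ S', n.minFac.Prime ∧ n.minFac ^ 2 = n ∧ n ≤ M := by
    intro n hn
    rw [hS', Finset.mem_filter] at hn
    obtain ⟨h2, h3, h4⟩ := hn
    have h5 : n ≠ 1 := fun h => by subst h; exact not_isPrimePow_one h3
    have h6 := h3.minFac_pow_factorization_eq
    rw [h4] at h6
    exact ⟨Nat.minFac_prime h5, h6, (Finset.mem_Icc.1 h2).2⟩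
  have hinj : Set.InjOn Nat.minFac S' := by
    intro a ha b hb hab
    obtain ⟨_, h2, _⟩ := key a ha
    obtain ⟨_, h3, _⟩ := key b hb
    rw [← h2, ← h3, hab]
  have h2 : ∑ n ∈ S', vonMangoldt n / Real.sqrt n * bp c h (Real.log n) =
      ∑ n ∈ S', (vonMangoldt n.minFac / (n.minFac : ℝ) * bp c h (2 * Real.log (n.minFac : ℝ))) := by
    refine Finset.sum_congr rfl fun n hn => ?_
    obtain ⟨hp, h3, _⟩ := key n hn
    have e1 : vonMangoldt n = vonMangoldt n.minFac := by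
      conv_lhs => rw [← h3]
      rw [vonMangoldt_apply_pow (by norm_num)]
    have e2 : (n : ℝ) = (n.minFac : ℝ) ^ 2 := by
      conv_lhs => rw [← h3]
      push_cast
      rfl
    have e3 : Real.sqrt (n : ℝ) = (n.minFac : ℝ) := by
      rw [e2, Real.sqrt_sq (Nat.cast_nonneg _)]
    have e4 : Real.log (n : ℝ) = 2 * Real.log (n.minFac : ℝ) := by
      rw [e2, Real.log_pow]
      norm_num
    rw [e1, e3, e4]
  rw [h2, ← Finset.sum_image (f := fun q : ℕ => vonMangoldt q / (q : ℝ) * bp c h (2 * Real.log (q : ℝ))) hinj]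
  apply Finset.sum_le_sum_of_subset_of_nonneg
  · intro q hq
    rw [Finset.mem_image] at hq
    obtain ⟨n, hn, rfl⟩ := hq
    obtain ⟨hp, h3, h4⟩ := key n hn
    rw [Finset.mem_Icc]
    refine ⟨hp.one_le, ?_⟩
    have : n.minFac ≤ n.minFac ^ 2 := Nat.le_self_pow (by norm_num) _
    omega
  · intro q _ _
    exact mul_nonneg (div_nonneg vonMangoldt_nonneg (Nat.cast_nonneg q)) (bp_nonneg hc hh _)

lemma nonprimes : ∃ C : ℝ, 0 < C ∧ ∀ (F : ℝ → ℝ) (c h R : ℝ), 0 < R → 0 ≤ c → 0 < h → h ≤ 1 / 8 → c * h ≤ 1 →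
    (∀ ξ, ‖FF F ξ‖ ≤ bp c h ξ) → ∀ M : ℕ,
    ∑ n ∈ (Finset.Icc 1 M).filter (fun n => ¬ n.Prime), ‖aa F R n‖ ≤ C + 23 * c := by
  obtain ⟨C, hC, h3⟩ := cubes
  refine ⟨C, hC, ?_⟩
  intro F c h R hR hc hh h8 hch hF M
  have hs := squares hc hh h8 M
  have h4 := h3 M
  have hu : ∀ n : ℕ, ‖aa F R n‖ ≤ vonMangoldt n / Real.sqrt n * bp c h (Real.log n) := fun n =>
    (aa_le hR n).trans (mul_le_mul_of_nonneg_left (hF _) (div_nonneg vonMangoldt_nonneg (Real.sqrt_nonneg _)))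
  rw [Finset.sum_filter] at hs h4 ⊢
  refine le_trans ?_ (add_le_add h4 hs)
  rw [← Finset.sum_add_distrib]
  refine Finset.sum_le_sum fun n hn => ?_
  have hL0 : 0 ≤ vonMangoldt n / Real.sqrt n := div_nonneg vonMangoldt_nonneg (Real.sqrt_nonneg _)
  have hb0 := bp_nonneg hc hh (Real.log n)
  have hb1 := (bp_le hc hh (Real.log n)).trans hch
  have hn0 : 0 ≤ (if IsPrimePow n ∧ 3 ≤ n.factorization n.minFac then vonMangoldt n / Real.sqrt n else 0) := by
    split_ifs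
    · exact hL0
    · exact le_rfl
  have hn1 : 0 ≤ (if IsPrimePow n ∧ n.factorization n.minFac = 2 then vonMangoldt n / Real.sqrt n * bp c h (Real.log n)
      else 0) := by
    split_ifs
    · exact mul_nonneg hL0 hb0
    · exact le_rfl
  by_cases hp : n.Prime
  · rw [if_neg (by simpa using hp)]
    linarith
  · rw [if_pos hp]
    by_cases hpp : IsPrimePow n
    · have h5 : n ≠ 1 := fun h => by subst h; exact not_isPrimePow_one hpp
      have h6 := hpp.minFac_pow_factorization_eq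
      have h7 : 2 ≤ n.factorization n.minFac := by
        by_contra h7
        have h8 : n.factorization n.minFac = 0 ∨ n.factorization n.minFac = 1 := by omega
        rcases h8 with h8 | h8
        · rw [h8, pow_zero] at h6
          exact h5 h6.symm
        · rw [h8, pow_one] at h6
          apply hp
          rw [← h6]
          exact Nat.minFac_prime h5
      rcases (by omega : n.factorization n.minFac = 2 ∨ 3 ≤ n.factorization n.minFac) with h9 | h9
      · rw [if_pos (c := IsPrimePow n ∧ n.factorization n.minFac = 2) ⟨hpp, h9⟩]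
        linarith [hu n]
      · rw [if_pos (c := IsPrimePow n ∧ 3 ≤ n.factorization n.minFac) ⟨hpp, h9⟩]
        have : vonMangoldt n / Real.sqrt n * bp c h (Real.log n) ≤ vonMangoldt n / Real.sqrt n * 1 :=
          mul_le_mul_of_nonneg_left hb1 hL0
        linarith [hu n]
    · have h5 : vonMangoldt n = 0 := by rw [vonMangoldt_apply, if_neg hpp]
      have h6 : ‖aa F R n‖ ≤ 0 := by
        have := hu n
        rw [h5] at this
        simpa using this
      linarith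

/-- the even moments of a prime polynomial -/
lemma mom (hM : S_MOM) (m N : ℕ) (a : ℕ → ℂ) (T : ℝ) (hN : 1 ≤ N) (hT : 1 ≤ T) (ha : ∀ p, ‖a p‖ ≤ 1)
    (S0 : ℝ) (hS0 : ∑ p ∈ (Finset.Icc 1 N).filter Nat.Prime, ‖a p‖ ^ 2 ≤ S0) :
    ∫ t in T..(2 * T), ‖∑ p ∈ (Finset.Icc 1 N).filter Nat.Prime, a p * ee p t‖ ^ (2 * m) ≤
      T * ((m.factorial : ℝ) * (1 + m ^ 2) * (1 + S0) ^ m) + 2 * (N : ℝ) ^ (4 * m) := by
  have hT0 : 0 < T := by linarith
  have h1 := hM m m N a 1 T hN zero_le_one le_rfl hT ha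
  set S := ∑ p ∈ (Finset.Icc 1 N).filter Nat.Prime, ‖a p‖ ^ 2 with hS
  have hSn : 0 ≤ S := Finset.sum_nonneg fun p _ => sq_nonneg _
  obtain ⟨A, hA⟩ : ∃ A : ℝ → ℂ, A = fun t => ∑ p ∈ (Finset.Icc 1 N).filter Nat.Prime, a p * ee p t :=
    ⟨_, rfl⟩
  have hA' : ∀ t, ∑ p ∈ (Finset.Icc 1 N).filter Nat.Prime, a p * ee p t = A t := fun t => by rw [hA]
  simp only [hA', if_true] at h1 ⊢
  obtain ⟨J, hJ⟩ : ∃ J, J = ∫ t in T..(2 * T), ‖A t‖ ^ (2 * m) := ⟨_, rfl⟩
  have e : (∫ t in T..(2 * T), A t ^ m * ((starRingEnd ℂ) (A t)) ^ m) = (J : ℂ) := by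
    rw [hJ, ← intervalIntegral.integral_ofReal]
    congr 1
    funext t
    rw [← mul_pow, Complex.mul_conj, Complex.normSq_eq_norm_sq, pow_mul]
    push_cast
    ring
  rw [e] at h1
  rw [← hJ]
  have e2 : (1 / T : ℂ) * (J : ℂ) - (m.factorial : ℂ) * (S : ℂ) ^ m = ((1 / T * J - (m.factorial : ℝ) * S ^ m : ℝ) : ℂ) := by
    push_cast; ring
  rw [e2, Complex.norm_real, Real.norm_eq_abs] at h1
  have h2 := le_of_abs_le h1
  have h3 : 1 / T * J ≤ (m.factorial : ℝ) * S ^ m + ((m.factorial : ℝ) * m ^ 2 * 1 ^ 2 * (1 + S) ^ m +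
      2 * (N : ℝ) ^ (2 * (m + m)) / T) := by linarith
  have h4 : J = T * (1 / T * J) := by field_simp
  have h5 : S ^ m ≤ (1 + S0) ^ m := pow_le_pow_left₀ hSn (by linarith) m
  have h6 : (1 + S) ^ m ≤ (1 + S0) ^ m := pow_le_pow_left₀ (by linarith) (by linarith) m
  have h7 : (m.factorial : ℝ) * S ^ m ≤ (m.factorial : ℝ) * (1 + S0) ^ m :=
    mul_le_mul_of_nonneg_left h5 (Nat.cast_nonneg _)
  have h8 : (m.factorial : ℝ) * m ^ 2 * 1 ^ 2 * (1 + S) ^ m ≤ (m.factorial : ℝ) * m ^ 2 * 1 ^ 2 * (1 + S0) ^ m :=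
    mul_le_mul_of_nonneg_left h6 (by positivity)
  have h9 : 2 * (m + m) = 4 * m := by ring
  rw [h9] at h3
  rw [h4]
  calc T * (1 / T * J) ≤ T * ((m.factorial : ℝ) * (1 + S0) ^ m + ((m.factorial : ℝ) * m ^ 2 * 1 ^ 2 * (1 + S0) ^ m +
      2 * (N : ℝ) ^ (4 * m) / T)) := mul_le_mul_of_nonneg_left (by linarith) hT0.le
    _ = _ := by field_simp; ring

lemma add_pow_le' (a b : ℝ) (ha : 0 ≤ a) (hb : 0 ≤ b) (n : ℕ) : (a + b) ^ n ≤ 2 ^ n * (a ^ n + b ^ n) := by
  have h1 : (a + b) ^ n ≤ (2 * max a b) ^ n := by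
    apply pow_le_pow_left₀ (by positivity)
    have := le_max_left a b
    have := le_max_right a b
    linarith
  refine h1.trans ?_
  rw [mul_pow]
  apply mul_le_mul_of_nonneg_left _ (by positivity)
  rcases le_total a b with h | h
  · rw [max_eq_right h]
    have : 0 ≤ a ^ n := pow_nonneg ha n
    linarith
  · rw [max_eq_left h]
    have : 0 ≤ b ^ n := pow_nonneg hb n
    linarith

end BMBL

open BMBL in
theorem t_BMB : S_BMB := by
  intro m f hf hs
  obtain ⟨C3, hC3, hnp⟩ := nonprimes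
  obtain ⟨A, hA0, hA⟩ := FINL.bd hs
  set c : ℝ := (∫ x : ℝ, |f x|) + (∫ x : ℝ, |deriv (deriv f) x|) with hc
  have hc0 : 0 ≤ c := add_nonneg (integral_nonneg fun _ => abs_nonneg _) (integral_nonneg fun _ => abs_nonneg _)
  set D : ℝ := 2 * PRML.Z1 + (C3 + 23 * c) with hD
  have hD0 : 0 ≤ D := by
    have := PRML.Z1_nonneg
    positivity
  set B : ℝ := (m.factorial : ℝ) * (1 + m ^ 2) * (1 + 23 * c ^ 2) ^ m with hB
  have hB0 : 0 ≤ B := by positivity
  refine ⟨2 ^ (2 * m) * (B + 2 + D ^ (2 * m)), 16 + c + A, 10, by positivity, by linarith, le_rfl, ?_⟩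
  intro T hT h R hh hhK hhR hRT
  have hT0 : 0 < T := by linarith
  have hK0 : 0 < 16 + c + A := by positivity
  have hKh : h * (16 + c + A) ≤ 1 := by
    rw [le_div_iff₀ hK0] at hhK
    exact hhK
  have h8 : h ≤ 1 / 8 := by nlinarith
  have hch : c * h ≤ 1 := by nlinarith
  have hR16 : 16 ≤ R := by
    by_contra hcon
    push Not at hcon
    nlinarith
  have hR0 : 0 < R := by linarith
  set F : ℝ → ℝ := fun x => f (x / h) with hF
  have hFb : ∀ ξ, ‖FF F ξ‖ ≤ bp c h ξ := fun ξ => FF_bp hf hs le_rfl hh ξ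
  have hF1 : ∀ ξ, ‖FF F ξ‖ ≤ 1 := fun ξ => (hFb ξ).trans ((bp_le hc0 hh ξ).trans hch)
  set M : ℕ := ⌊Real.exp (2 * R)⌋₊ with hM
  have hMle : (M : ℝ) ≤ Real.exp (2 * R) := Nat.floor_le (Real.exp_pos _).le
  have hM1 : 1 ≤ M := by
    rw [hM, Nat.one_le_floor_iff]
    exact Real.one_le_exp (by linarith)
  have hMX : ∀ n : ℕ, M < n → 2 * R ≤ Real.log n := by
    intro n hn
    have h1 : Real.exp (2 * R) < n := (Nat.floor_lt (Real.exp_pos _).le).1 hn
    rw [Real.le_log_iff_exp_le ((Real.exp_pos _).trans h1)]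
    exact h1.le
  have haa : ∀ p : ℕ, ‖aa F R p‖ ≤ 1 := by
    intro p
    refine (aa_le hR0 p).trans ?_
    have h1 : ArithmeticFunction.vonMangoldt p / Real.sqrt p ≤ 1 :=
      (div_le_div_of_nonneg_right ArithmeticFunction.vonMangoldt_le_log (Real.sqrt_nonneg _)).trans
        (log_div_sqrt_le p)
    calc _ ≤ 1 * 1 := mul_le_mul h1 (hF1 _) (norm_nonneg _) zero_le_one
      _ = 1 := one_mul _
  have hS := primes hR0 hc0 hh h8 hFb M
  have hmom := mom t_MOM m M (aa F R) T hM1 (by linarith) haa (23 * c ^ 2) hS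
  rw [← hB] at hmom
  have hM4 : (M : ℝ) ^ (4 * m) ≤ T := by
    calc (M : ℝ) ^ (4 * m) ≤ (Real.exp (2 * R)) ^ (4 * m) := pow_le_pow_left₀ (Nat.cast_nonneg _) hMle _
      _ = Real.exp ((4 * m : ℕ) * (2 * R)) := by rw [← Real.exp_nat_mul]
      _ ≤ Real.exp (Real.log T) := by
          apply Real.exp_le_exp.2
          push_cast
          rw [le_div_iff₀ (by positivity)] at hRT
          have hm0 : (0 : ℝ) ≤ m := Nat.cast_nonneg m
          nlinarith
      _ = T := Real.exp_log hT0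
  set P : ℝ → ℂ := fun t => ∑ p ∈ (Finset.Icc 1 M).filter Nat.Prime, aa F R p * ee p t with hP
  have hPc : Continuous P := by
    rw [hP]
    unfold ee
    fun_prop
  have hpt : ∀ t : ℝ, (BB F R t) ^ (2 * m) ≤ 2 ^ (2 * m) * (‖P t‖ ^ (2 * m) + D ^ (2 * m)) := by
    intro t
    obtain ⟨w, hw, he⟩ := split hF1 hR16 M hMX t
    have h1 : ∑ n ∈ Finset.Icc 1 M, aa F R n * ee n t = P t +
        ∑ n ∈ (Finset.Icc 1 M).filter (fun n => ¬ n.Prime), aa F R n * ee n t :=
      (Finset.sum_filter_add_sum_filter_not _ _ _).symm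
    have h2 : ‖∑ n ∈ (Finset.Icc 1 M).filter (fun n => ¬ n.Prime), aa F R n * ee n t‖ ≤ C3 + 23 * c := by
      refine (norm_sum_le _ _).trans (le_trans (le_of_eq ?_) (hnp F c h R hR0 hc0 hh h8 hch hFb M))
      refine Finset.sum_congr rfl fun n _ => ?_
      rw [norm_mul, PRML.norm_ee, mul_one]
    have h3 : |BB F R t| ≤ ‖P t‖ + D := by
      rw [he, h1]
      refine (Complex.abs_re_le_norm _).trans ((norm_add_le _ _).trans ?_)
      have := norm_add_le (P t) (∑ n ∈ (Finset.Icc 1 M).filter (fun n => ¬ n.Prime), aa F R n * ee n t)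
      rw [hD]
      linarith
    calc (BB F R t) ^ (2 * m) = |BB F R t| ^ (2 * m) := by rw [pow_mul, pow_mul, sq_abs]
      _ ≤ (‖P t‖ + D) ^ (2 * m) := pow_le_pow_left₀ (abs_nonneg _) h3 _
      _ ≤ _ := add_pow_le' _ _ (norm_nonneg _) hD0 _
  by_cases hii : IntervalIntegrable (fun t => (BB F R t) ^ (2 * m)) volume T (2 * T)
  · have hPi : IntervalIntegrable (fun t => ‖P t‖ ^ (2 * m)) volume T (2 * T) :=
      (hPc.norm.pow _).intervalIntegrable _ _
    have h1 : ∫ t in T..(2 * T), (BB F R t) ^ (2 * m) ≤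
        ∫ t in T..(2 * T), 2 ^ (2 * m) * (‖P t‖ ^ (2 * m) + D ^ (2 * m)) := by
      apply intervalIntegral.integral_mono_on (by linarith) hii
      · exact ((hPi.add intervalIntegrable_const).const_mul _)
      · intro t _; exact hpt t
    rw [intervalIntegral.integral_const_mul, intervalIntegral.integral_add hPi intervalIntegrable_const,
      intervalIntegral.integral_const, smul_eq_mul] at h1
    refine h1.trans ?_
    have h2 : (∫ t in T..(2 * T), ‖P t‖ ^ (2 * m)) + (2 * T - T) * D ^ (2 * m) ≤ (B + 2 + D ^ (2 * m)) * T := by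
      have : ∫ t in T..(2 * T), ‖P t‖ ^ (2 * m) ≤ T * B + 2 * T := by linarith
      nlinarith
    calc _ ≤ 2 ^ (2 * m) * ((B + 2 + D ^ (2 * m)) * T) := mul_le_mul_of_nonneg_left h2 (by positivity)
      _ = _ := by ring
  · rw [intervalIntegral.integral_undef hii]
    positivity

end Pool.Agent.H203.ME
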