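import Pool.Agent.H203.ME.Defs5

set_option autoImplicit false

/-! (BMX) all moments of the linear statistics are bounded. -/

open Complex Filter Topology Set MeasureTheory

namespace Pool.Agent.H203.ME

namespace BMXL

lemma add4_pow (m : ℕ) {x y z w : ℝ} (hx : 0 ≤ x) (hy : 0 ≤ y) (hz : 0 ≤ z) (hw : 0 ≤ w) :
    (x + y + z + w) ^ m ≤ 4 ^ m * (x ^ m + y ^ m + z ^ m + w ^ m) := by
  have key : ∀ M : ℝ, x ≤ M → y ≤ M → z ≤ M → w ≤ M → (x + y + z + w) ^ m ≤ 4 ^ m * M ^ m := by
    intro M h1 h2 h3 h4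
    rw [← mul_pow]
    exact pow_le_pow_left₀ (by positivity) (by linarith) m
  have hx' : 0 ≤ x ^ m := by positivity
  have hy' : 0 ≤ y ^ m := by positivity
  have hz' : 0 ≤ z ^ m := by positivity
  have hw' : 0 ≤ w ^ m := by positivity
  have fin : ∀ M : ℝ, (x + y + z + w) ^ m ≤ 4 ^ m * M ^ m → M ^ m ≤ x ^ m + y ^ m + z ^ m + w ^ m →
      (x + y + z + w) ^ m ≤ 4 ^ m * (x ^ m + y ^ m + z ^ m + w ^ m) := fun M h1 h2 =>
    h1.trans (mul_le_mul_of_nonneg_left h2 (by positivity))
  rcases le_total x y with h1 | h1 <;> rcases le_total z w with h2 | h2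
  · rcases le_total y w with h3 | h3
    · exact fin w (key w (h1.trans h3) h3 h2 le_rfl) (by linarith)
    · exact fin y (key y h1 le_rfl (h2.trans h3) h3) (by linarith)
  · rcases le_total y z with h3 | h3
    · exact fin z (key z (h1.trans h3) h3 le_rfl h2) (by linarith)
    · exact fin y (key y h1 le_rfl h3 (h2.trans h3)) (by linarith)
  · rcases le_total x w with h3 | h3
    · exact fin w (key w h3 (h1.trans h3) h2 le_rfl) (by linarith)
    · exact fin x (key x le_rfl h1 (h2.trans h3) h3) (by linarith)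
  · rcases le_total x z with h3 | h3
    · exact fin z (key z h3 (h1.trans h3) le_rfl h2) (by linarith)
    · exact fin x (key x le_rfl h1 h3 (h2.trans h3)) (by linarith)

lemma w1_cont : Continuous w1 := by
  unfold w1
  exact continuous_const.div (by fun_prop) (fun x => by positivity)

lemma w1_nonneg (u : ℝ) : 0 ≤ w1 u := by unfold w1; positivity

lemma NW_cont (T h : ℝ) : Continuous (NW T h) := by
  unfold NW
  refine continuous_finsetSum _ fun s _ => ?_
  exact continuous_const.mul (w1_cont.comp (by fun_prop))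

lemma NW_nonneg (T h t : ℝ) : 0 ≤ NW T h t := by
  unfold NW
  exact Finset.sum_nonneg fun s _ => mul_nonneg (Nat.cast_nonneg _) (w1_nonneg _)

lemma PF_cont (m : ℕ) (T h : ℝ) : Continuous (PF m T h) := by
  unfold PF
  refine continuous_finsetSum _ fun s _ => ?_
  exact continuous_const.mul ((w1_cont.comp (by fun_prop)).mul continuous_const)

lemma PF_nonneg (m : ℕ) (T h t : ℝ) : 0 ≤ PF m T h t := by
  unfold PF
  exact Finset.sum_nonneg fun s _ => mul_nonneg (Nat.cast_nonneg _)
    (mul_nonneg (w1_nonneg _) (by positivity))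

end BMXL

open BMXL in
theorem t_BMX (hd : S_DEC) (hb : S_BMB) (hw : S_WIN) (hf : S_FAR) (he : S_EDG) : S_BMX := by
  intro m f hf1 hf2
  obtain ⟨C1, K1, T1, hC1, hK1, hT1, hd⟩ := hd m f hf1 hf2
  obtain ⟨C2, K2, T2, hC2, hK2, hT2, hb⟩ := hb m f hf1 hf2
  obtain ⟨C3, K3, T3, hC3, hK3, hT3, hw⟩ := hw m
  obtain ⟨T4, hT4, hf⟩ := hf m
  obtain ⟨C5, K5, T5, hC5, hK5, hT5, he⟩ := he f hf1 hf2
  obtain ⟨A, hA, hA'⟩ := FINL.bd hf2
  -- conditions on `T`
  have hll : Tendsto (fun T : ℝ => Real.log (Real.log T)) atTop atTop :=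
    Real.tendsto_log_atTop.comp Real.tendsto_log_atTop
  have hlo : ∀ (n : ℕ) (c : ℝ), 0 < c → ∀ᶠ T : ℝ in atTop, c * Real.log T ^ n ≤ T := by
    intro n c hc
    have h1 := (Real.isLittleO_pow_log_id_atTop (n := n)).bound (show (0 : ℝ) < 1 / c by positivity)
    filter_upwards [h1, eventually_gt_atTop (1 : ℝ)] with T h2 h3
    rw [Real.norm_of_nonneg (by have := Real.log_pos h3; positivity), id, Real.norm_of_nonneg (by linarith)] at h2
    calc c * Real.log T ^ n ≤ c * (1 / c * T) := mul_le_mul_of_nonneg_left h2 hc.le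
      _ = T := by field_simp
  have hev : ∀ᶠ T : ℝ in atTop, (T1 ≤ T ∧ T2 ≤ T ∧ T3 ≤ T ∧ T4 ≤ T ∧ T5 ≤ T) ∧
      8 * ((m : ℝ) + 1) ≤ Real.log (Real.log T) ∧ 1 < Real.log T ∧
      4 * Real.log T ^ 1 ≤ T ∧ (4 * C5 ^ m) * Real.log T ^ (m + 1) ≤ T := by
    refine Filter.Eventually.and ?_ (Filter.Eventually.and ?_ (Filter.Eventually.and ?_
      (Filter.Eventually.and ?_ ?_)))
    · filter_upwards [eventually_ge_atTop T1, eventually_ge_atTop T2, eventually_ge_atTop T3,
        eventually_ge_atTop T4, eventually_ge_atTop T5] with T h1 h2 h3 h4 h5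
      exact ⟨h1, h2, h3, h4, h5⟩
    · exact hll.eventually (eventually_ge_atTop _)
    · exact Real.tendsto_log_atTop.eventually (eventually_gt_atTop _)
    · exact hlo 1 4 (by norm_num)
    · exact hlo (m + 1) (4 * C5 ^ m) (by positivity)
  obtain ⟨T0, hT0⟩ := eventually_atTop.1 hev
  set K := max (max K1 K2) (max K3 (max K5 A)) with hK
  have hKK1 : K1 ≤ K := (le_max_left _ _).trans (le_max_left _ _)
  have hKK2 : K2 ≤ K := (le_max_right _ _).trans (le_max_left _ _)
  have hKK3 : K3 ≤ K := (le_max_left _ _).trans (le_max_right _ _)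
  have hKK5 : K5 ≤ K := ((le_max_left _ _).trans (le_max_right _ _)).trans (le_max_right _ _)
  have hKA : A ≤ K := ((le_max_right _ _).trans (le_max_right _ _)).trans (le_max_right _ _)
  have hK1' : 1 ≤ K := hK1.trans hKK1
  refine ⟨4 ^ m * (1 + C2 + C1 ^ m * C3 + 2 * C1 ^ m) + 1, K, max T0 10, by positivity, hK1',
    le_max_right _ _, fun T hT h hh1 hh2 => ?_⟩
  obtain ⟨⟨g1, g2, g3, g4, g5⟩, gl, gL, g6, g7⟩ := hT0 T ((le_max_left _ _).trans hT)
  have hT10 : 10 ≤ T := (le_max_right _ _).trans hT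
  set L := Real.log T with hL
  set l := Real.log L with hl
  rw [pow_one] at g6
  have hm1 : (1 : ℝ) ≤ (m : ℝ) + 1 := by linarith [(Nat.cast_nonneg m : (0 : ℝ) ≤ m)]
  have hl8 : 8 ≤ l := by linarith
  have hL0 : 0 < L := by linarith
  have hhL : 0 < h * L := lt_of_lt_of_le (by positivity) hh1
  have hh0 : 0 < h := pos_of_mul_pos_left hhL hL0.le
  have hinv : ∀ K' : ℝ, 1 ≤ K' → K' ≤ K → h ≤ 1 / K' := fun K' h1 h2 =>
    hh2.trans (one_div_le_one_div_of_le (by linarith) h2)
  have hh1' : h ≤ 1 := hh2.trans (by rw [div_le_one (by linarith)]; exact hK1')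
  have hFc : C2c (fun x => f (x / h)) := by
    refine FINL.c2c_scale hf1 hA' hh0 ?_
    calc h * A ≤ (1 / K) * K := mul_le_mul hh2 hKA hA.le (by positivity)
      _ = 1 := by field_simp
  -- the bandwidth
  have hR1 : 1 ≤ h * Rm m T := by
    unfold Rm
    rw [← mul_div_assoc, one_le_div (by positivity)]
    calc 8 * ((m : ℝ) + 1) * l ≤ l * l := mul_le_mul_of_nonneg_right gl (by linarith)
      _ = l ^ 2 := by ring
      _ ≤ h * L := hh1
  have hR2 : Rm m T ≤ L / (64 * ((m : ℝ) + 1)) := by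
    unfold Rm
    refine div_le_div_of_nonneg_left hL0.le (by positivity) ?_
    nlinarith
  have hRpos : 1 ≤ Rm m T := by
    have : 0 < Rm m T := by unfold Rm; positivity
    calc 1 ≤ h * Rm m T := hR1
      _ ≤ 1 * Rm m T := mul_le_mul_of_nonneg_right hh1' this.le
      _ = _ := one_mul _
  set X := XF (fun x => f (x / h)) T with hX
  set B := BB (fun x => f (x / h)) (Rm m T) with hB
  have hXc : ContinuousOn X (Icc T (2 * T)) := XF_contOn hFc (by linarith)
  have hBc : Continuous B := t_BBC _ hFc _ hRpos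
  set a := T + 2 * L with ha
  set b := 2 * T - 2 * L with hbb
  have hTa : T ≤ a := by rw [ha]; linarith
  have hab : a ≤ b := by rw [ha, hbb]; linarith
  have hb2 : b ≤ 2 * T := by rw [hbb]; linarith
  have hXi : ∀ u v : ℝ, T ≤ u → u ≤ v → v ≤ 2 * T → IntervalIntegrable (fun t => |X t| ^ m) volume u v := by
    intro u v h1 h2 h3
    apply ContinuousOn.intervalIntegrable
    rw [uIcc_of_le h2]
    exact ((hXc.mono (Icc_subset_Icc h1 h3)).abs).pow m
  have hsub : ∀ g : ℝ → ℝ, Continuous g → (∀ t, 0 ≤ g t) → ∫ t in a..b, g t ≤ ∫ t in T..(2 * T), g t := by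
    intro g hg h0
    exact intervalIntegral.integral_mono_interval hTa hab hb2 (Filter.Eventually.of_forall h0)
      (hg.intervalIntegrable _ _)
  -- the four parts
  set ν := C1 * l ^ 2 / (h * L) ^ 2 with hν
  have hν0 : 0 ≤ ν := by rw [hν]; positivity
  have p1 : ∫ t in a..b, |B t| ^ m ≤ (1 + C2) * T := by
    have h1 : ∫ t in a..b, |B t| ^ m ≤ ∫ t in a..b, (1 + (B t) ^ (2 * m)) := by
      refine intervalIntegral.integral_mono_on hab ((hBc.abs.pow m).intervalIntegrable _ _)
        ((continuous_const.add (hBc.pow _)).intervalIntegrable _ _) fun t _ => ?_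
      have h2 : (B t) ^ (2 * m) = (|B t| ^ m) ^ 2 := by
        rw [← pow_mul, mul_comm m 2, pow_mul, pow_mul, sq_abs]
      rw [h2]
      nlinarith [sq_nonneg (|B t| ^ m - 1), pow_nonneg (abs_nonneg (B t)) m]
    have h3 : ∫ t in a..b, (1 + (B t) ^ (2 * m)) = (b - a) + ∫ t in a..b, (B t) ^ (2 * m) := by
      have i1 : IntervalIntegrable (fun t => (B t) ^ (2 * m)) volume a b := (hBc.pow _).intervalIntegrable _ _
      have i2 : IntervalIntegrable (fun _ : ℝ => (1 : ℝ)) volume a b := continuous_const.intervalIntegrable _ _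
      rw [intervalIntegral.integral_add i2 i1]
      simp
    have h4 : ∫ t in a..b, (B t) ^ (2 * m) ≤ ∫ t in T..(2 * T), (B t) ^ (2 * m) :=
      hsub _ (hBc.pow _) (fun t => by rw [pow_mul]; positivity)
    have h5 := hb T g2 h (Rm m T) hh0 (hinv K2 hK2 hKK2) hR1 hR2
    have h6 : b - a ≤ T := by rw [ha, hbb]; linarith
    rw [h3] at h1
    linarith
  have p2 : ν ^ m * ∫ t in a..b, (NW T h t) ^ m ≤ C1 ^ m * C3 * T := by
    have h1 := hw T g3 h hh1 (hinv K3 hK3 hKK3)
    calc ν ^ m * ∫ t in a..b, (NW T h t) ^ m ≤ ν ^ m * (C3 * (h * L) ^ m * T) :=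
          mul_le_mul_of_nonneg_left h1 (by positivity)
      _ = (ν * (h * L)) ^ m * (C3 * T) := by rw [mul_pow]; ring
      _ ≤ C1 ^ m * (C3 * T) := by
          refine mul_le_mul_of_nonneg_right (pow_le_pow_left₀ (by positivity) ?_ m) (by positivity)
          have e : ν * (h * L) = C1 * (l ^ 2 / (h * L)) := by
            rw [hν]; field_simp
          rw [e]
          exact mul_le_of_le_one_right hC1.le ((div_le_one hhL).2 hh1)
      _ = _ := by ring
  have p3 : C1 ^ m * ∫ t in a..b, (PF m T h t) ^ m ≤ C1 ^ m * T := by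
    refine mul_le_mul_of_nonneg_left ?_ (by positivity)
    exact (hsub _ ((PF_cont m T h).pow m) (fun t => pow_nonneg (PF_nonneg m T h t) m)).trans
      (hf T g4 h hh1 hh1')
  have mid : ∫ t in a..b, |X t| ^ m ≤ 4 ^ m * ((1 + C2) * T + C1 ^ m * C3 * T + C1 ^ m * T + C1 ^ m * T) := by
    have hpt : ∀ t ∈ Icc a b, |X t| ^ m ≤ 4 ^ m * (|B t| ^ m + ν ^ m * (NW T h t) ^ m +
        C1 ^ m * (PF m T h t) ^ m + C1 ^ m) := by
      intro t ht
      have h1 := hd T g1 h hh1 (hinv K1 hK1 hKK1) t ht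
      calc |X t| ^ m ≤ (|B t| + ν * NW T h t + C1 * PF m T h t + C1) ^ m :=
            pow_le_pow_left₀ (abs_nonneg _) h1 m
        _ ≤ 4 ^ m * (|B t| ^ m + (ν * NW T h t) ^ m + (C1 * PF m T h t) ^ m + C1 ^ m) :=
            add4_pow m (abs_nonneg _) (mul_nonneg hν0 (NW_nonneg T h t))
              (mul_nonneg hC1.le (PF_nonneg m T h t)) hC1.le
        _ = _ := by rw [mul_pow, mul_pow]
    have cB : Continuous (fun t => |B t| ^ m) := hBc.abs.pow m
    have cN : Continuous (fun t => ν ^ m * (NW T h t) ^ m) := continuous_const.mul ((NW_cont T h).pow m)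
    have cP : Continuous (fun t => C1 ^ m * (PF m T h t) ^ m) := continuous_const.mul ((PF_cont m T h).pow m)
    have h2 : ∫ t in a..b, |X t| ^ m ≤ ∫ t in a..b, 4 ^ m * (|B t| ^ m + ν ^ m * (NW T h t) ^ m +
        C1 ^ m * (PF m T h t) ^ m + C1 ^ m) := by
      refine intervalIntegral.integral_mono_on hab (hXi a b hTa hab hb2)
        (Continuous.intervalIntegrable ?_ _ _) hpt
      exact continuous_const.mul (((cB.add cN).add cP).add continuous_const)
    refine h2.trans ?_
    rw [intervalIntegral.integral_const_mul]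
    refine mul_le_mul_of_nonneg_left ?_ (by positivity)
    have i3 : IntervalIntegrable (fun t => |B t| ^ m + ν ^ m * (NW T h t) ^ m) volume a b :=
      (cB.add cN).intervalIntegrable _ _
    have i4 : IntervalIntegrable (fun t => |B t| ^ m + ν ^ m * (NW T h t) ^ m +
        C1 ^ m * (PF m T h t) ^ m) volume a b := ((cB.add cN).add cP).intervalIntegrable _ _
    have i5 : IntervalIntegrable (fun _ : ℝ => C1 ^ m) volume a b := continuous_const.intervalIntegrable _ _
    rw [intervalIntegral.integral_add i4 i5,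
      intervalIntegral.integral_add i3 (cP.intervalIntegrable _ _),
      intervalIntegral.integral_add (cB.intervalIntegrable _ _) (cN.intervalIntegrable _ _),
      intervalIntegral.integral_const_mul, intervalIntegral.integral_const_mul,
      intervalIntegral.integral_const, smul_eq_mul]
    have h6 : (b - a) * C1 ^ m ≤ C1 ^ m * T := by
      rw [mul_comm]
      refine mul_le_mul_of_nonneg_left ?_ (by positivity)
      rw [ha, hbb]; linarith
    linarith
  have edge : ∀ u v : ℝ, T ≤ u → u ≤ v → v ≤ 2 * T → v - u = 2 * L →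
      ∫ t in u..v, |X t| ^ m ≤ (C5 * L) ^ m * (2 * L) := by
    intro u v h1 h2 h3 h4
    have h5 : ∫ t in u..v, |X t| ^ m ≤ ∫ t in u..v, (C5 * L) ^ m := by
      refine intervalIntegral.integral_mono_on h2 (hXi u v h1 h2 h3)
        (continuous_const.intervalIntegrable _ _) fun t ht => ?_
      exact pow_le_pow_left₀ (abs_nonneg _)
        (he T g5 h hh0 (hinv K5 hK5 hKK5) t ⟨h1.trans ht.1, ht.2.trans h3⟩) m
    rw [intervalIntegral.integral_const, smul_eq_mul, h4] at h5
    linarith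
  have e1 := edge T a le_rfl hTa (hab.trans hb2) (by rw [ha]; ring)
  have e2 := edge b (2 * T) (hTa.trans hab) hb2 le_rfl (by rw [hbb]; ring)
  have e3 : (C5 * L) ^ m * (2 * L) + (C5 * L) ^ m * (2 * L) ≤ T := by
    calc _ = (4 * C5 ^ m) * L ^ (m + 1) := by rw [mul_pow]; ring
      _ ≤ T := g7
  have hsplit : ∫ t in T..(2 * T), |X t| ^ m = (∫ t in T..a, |X t| ^ m) + (∫ t in a..b, |X t| ^ m) +
      ∫ t in b..(2 * T), |X t| ^ m := by
    rw [intervalIntegral.integral_add_adjacent_intervals (hXi T a le_rfl hTa (hab.trans hb2))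
      (hXi a b hTa hab hb2),
      intervalIntegral.integral_add_adjacent_intervals (hXi T b le_rfl (hTa.trans hab) hb2)
      (hXi b (2 * T) (hTa.trans hab) hb2 le_rfl)]
  rw [hsplit]
  have : 4 ^ m * ((1 + C2) * T + C1 ^ m * C3 * T + C1 ^ m * T + C1 ^ m * T) + T =
      (4 ^ m * (1 + C2 + C1 ^ m * C3 + 2 * C1 ^ m) + 1) * T := by ring
  linarith

end Pool.Agent.H203.ME
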