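import Pool.Agent.H203.ME.Defs5

set_option autoImplicit false

/-! (CVR) covering by bumps. -/

open Complex Filter Topology Set MeasureTheory

namespace Pool.Agent.H203.ME

namespace CVRL

/-- number of zeros in the window of length two around `x` -/
lemma win_le {C : ℝ} (hC : 0 < C)
    (hz : ∀ t : ℝ, 3 ≤ t → (H370.NN riemannZeta (t - 1) (t + 1) : ℝ) ≤ C * Real.log t)
    {T : ℝ} (hT : 100 ≤ T) (x : ℝ) (W : Finset ℂ) (hW : W ⊆ H370.Zf riemannZeta T (2 * T))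
    (hx : ∀ s ∈ W, x - 1 < s.im ∧ s.im ≤ x + 1) :
    ∑ s ∈ W, (mz s : ℝ) ≤ 2 * C * Real.log T := by
  have hL : 0 ≤ Real.log T := Real.log_nonneg (by linarith)
  rcases W.eq_empty_or_nonempty with h | ⟨s0, hs0⟩
  · rw [h, Finset.sum_empty]
    positivity
  have hmem0 := (H370.mem_Zf H370.good_zeta (show (1 : ℝ) ≤ T by linarith)).1 (hW hs0)
  have h1 : T < s0.im := hmem0.2.2.1
  have h2 : s0.im ≤ 2 * T := hmem0.2.2.2.1
  obtain ⟨h3, h4⟩ := hx s0 hs0
  have h5 := hz x (by linarith)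
  have h6 : Real.log x ≤ 2 * Real.log T := by
    have h7 : Real.log x ≤ Real.log (T ^ 2) := Real.log_le_log (by linarith) (by nlinarith)
    rw [Real.log_pow] at h7
    exact_mod_cast h7
  have h8 : ∑ s ∈ W, (mz s : ℝ) ≤ (H370.NN riemannZeta (x - 1) (x + 1) : ℝ) := by
    rw [H370.NN_eq H370.good_zeta (show (1 : ℝ) ≤ x - 1 by linarith)]
    push_cast
    refine Finset.sum_le_sum_of_subset_of_nonneg ?_ fun _ _ _ => Nat.cast_nonneg _
    intro s hs
    have hmem := (H370.mem_Zf H370.good_zeta (show (1 : ℝ) ≤ T by linarith)).1 (hW hs)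
    rw [H370.mem_Zf H370.good_zeta (by linarith)]
    obtain ⟨h9, h10⟩ := hx s hs
    exact ⟨hmem.1, hmem.2.1, h9, h10, hmem.2.2.2.2⟩
  calc ∑ s ∈ W, (mz s : ℝ) ≤ _ := h8
    _ ≤ C * Real.log x := h5
    _ ≤ C * (2 * Real.log T) := by gcongr
    _ = _ := by ring

/-- the zeros far from `t` -/
lemma far_le : ∃ C : ℝ, 0 < C ∧ ∀ T : ℝ, 100 ≤ T → ∀ t : ℝ,
    ∑ s ∈ (H370.Zf riemannZeta T (2 * T)).filter (fun s => 1 < |s.im - t|),
      (mz s : ℝ) * (1 / (s.im - t) ^ 2) ≤ C * Real.log T := by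
  classical
  obtain ⟨C, hC, hz⟩ := H370.zcount H370.good_zeta
  have hsum : Summable fun k : ℤ => 1 / (k : ℝ) ^ 2 := Real.summable_one_div_int_pow.2 (by norm_num)
  have hpos : 0 ≤ ∑' k : ℤ, 1 / (k : ℝ) ^ 2 := tsum_nonneg fun k => by positivity
  refine ⟨2 * C * (∑' k : ℤ, 1 / (k : ℝ) ^ 2 + 1), by positivity, fun T hT t => ?_⟩
  have hL : 0 ≤ Real.log T := Real.log_nonneg (by linarith)
  set F := (H370.Zf riemannZeta T (2 * T)).filter (fun s => 1 < |s.im - t|) with hF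
  set kk : ℂ → ℤ := fun s => ⌈(s.im - t - 1) / 2⌉ with hkk
  have hk : ∀ s : ℂ, 2 * (kk s : ℝ) - 1 < s.im - t ∧ s.im - t ≤ 2 * (kk s : ℝ) + 1 := by
    intro s
    have h1 := Int.le_ceil ((s.im - t - 1) / 2)
    have h2 := Int.ceil_lt_add_one ((s.im - t - 1) / 2)
    simp only [hkk]
    constructor <;> linarith
  have hterm : ∀ s ∈ F, (mz s : ℝ) * (1 / (s.im - t) ^ 2) ≤ (mz s : ℝ) * (1 / (kk s : ℝ) ^ 2) := by
    intro s hs
    have hs1 : 1 < |s.im - t| := (Finset.mem_filter.1 hs).2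
    obtain ⟨h1, h2⟩ := hk s
    have hk0 : kk s ≠ 0 := by
      intro h0
      rw [h0] at h1 h2
      rw [lt_abs] at hs1
      push_cast at h1 h2
      rcases hs1 with h | h <;> linarith
    have h3 : (1 : ℝ) ≤ (kk s : ℝ) ∨ (kk s : ℝ) ≤ -1 := by
      rcases lt_or_gt_of_ne hk0 with h | h
      · right
        have : kk s ≤ -1 := by omega
        exact_mod_cast this
      · left
        have : 1 ≤ kk s := by omega
        exact_mod_cast this
    have h4 : (kk s : ℝ) ^ 2 ≤ (s.im - t) ^ 2 := by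
      rcases h3 with h3 | h3
      · apply pow_le_pow_left₀ (by linarith)
        linarith
      · have h5 : (-(kk s : ℝ)) ^ 2 ≤ (-(s.im - t)) ^ 2 := by
          apply pow_le_pow_left₀ (by linarith)
          linarith
        rwa [neg_sq, neg_sq] at h5
    have h5 : 0 < (kk s : ℝ) ^ 2 := by
      have : (kk s : ℝ) ≠ 0 := by exact_mod_cast hk0
      positivity
    gcongr
  refine (Finset.sum_le_sum hterm).trans ?_
  rw [← Finset.sum_fiberwise_of_maps_to (s := F) (t := F.image kk) (g := kk)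
    (fun s hs => Finset.mem_image_of_mem kk hs)]
  have hin : ∀ k ∈ F.image kk, ∑ s ∈ F with kk s = k, (mz s : ℝ) * (1 / (kk s : ℝ) ^ 2) ≤
      (1 / (k : ℝ) ^ 2) * (2 * C * Real.log T) := by
    intro k _
    have h1 : ∑ s ∈ F with kk s = k, (mz s : ℝ) * (1 / (kk s : ℝ) ^ 2) =
        (1 / (k : ℝ) ^ 2) * ∑ s ∈ F with kk s = k, (mz s : ℝ) := by
      rw [Finset.mul_sum]
      refine Finset.sum_congr rfl fun s hs => ?_
      rw [(Finset.mem_filter.1 hs).2, mul_comm]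
    rw [h1]
    apply mul_le_mul_of_nonneg_left _ (by positivity)
    apply win_le hC hz hT (t + 2 * k)
    · exact (Finset.filter_subset _ _).trans (Finset.filter_subset _ _)
    · intro s hs
      have h2 := hk s
      rw [(Finset.mem_filter.1 hs).2] at h2
      constructor <;> linarith [h2.1, h2.2]
  refine (Finset.sum_le_sum hin).trans ?_
  rw [← Finset.sum_mul]
  have h1 : ∑ k ∈ F.image kk, 1 / (k : ℝ) ^ 2 ≤ ∑' k : ℤ, 1 / (k : ℝ) ^ 2 :=
    hsum.sum_le_tsum _ fun k _ => by positivity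
  calc (∑ k ∈ F.image kk, 1 / (k : ℝ) ^ 2) * (2 * C * Real.log T)
      ≤ (∑' k : ℤ, 1 / (k : ℝ) ^ 2 + 1) * (2 * C * Real.log T) := by
        apply mul_le_mul_of_nonneg_right _ (by positivity)
        linarith
    _ = _ := by ring

lemma w1_nonneg (u : ℝ) : 0 ≤ w1 u := by
  unfold w1
  positivity

/-- a zero near `t` is seen by one of the bumps -/
lemma near_le {h u : ℝ} (hu : |u| ≤ 1 / h) :
    w1 u ≤ 4 * ∑ j ∈ Finset.Icc (-⌈1 / h⌉) ⌈1 / h⌉, 1 / (1 + (j : ℝ) ^ 2) * LLNL.bu (-1) 2 1 (u - j) := by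
  obtain ⟨hu1, hu2⟩ := abs_le.1 hu
  have hc := Int.le_ceil (1 / h)
  have hj1 := Int.floor_le u
  have hj2 := Int.lt_floor_add_one u
  have hmem : ⌊u⌋ ∈ Finset.Icc (-⌈1 / h⌉) ⌈1 / h⌉ := by
    rw [Finset.mem_Icc]
    constructor
    · rw [Int.le_floor]
      push_cast
      linarith
    · have : (⌊u⌋ : ℝ) ≤ (⌈1 / h⌉ : ℝ) := by linarith
      exact_mod_cast this
  have h1 : 1 / (1 + (⌊u⌋ : ℝ) ^ 2) * LLNL.bu (-1) 2 1 (u - ⌊u⌋) ≤
      ∑ j ∈ Finset.Icc (-⌈1 / h⌉) ⌈1 / h⌉, 1 / (1 + (j : ℝ) ^ 2) * LLNL.bu (-1) 2 1 (u - j) :=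
    Finset.single_le_sum (f := fun j : ℤ => 1 / (1 + (j : ℝ) ^ 2) * LLNL.bu (-1) 2 1 (u - j))
      (fun j _ => mul_nonneg (by positivity) (LLNL.bu_nonneg _ _ _ _)) hmem
  rw [LLNL.bu_one one_pos (by linarith) (by linarith), mul_one] at h1
  have h2 : w1 u ≤ 4 * (1 / (1 + (⌊u⌋ : ℝ) ^ 2)) := by
    unfold w1
    rw [mul_one_div, div_le_div_iff₀ (by positivity) (by positivity)]
    have h3 : (⌊u⌋ : ℝ) ^ 2 ≤ 2 * u ^ 2 + 2 := by
      nlinarith [sq_nonneg ((⌊u⌋ : ℝ) - u), sq_nonneg ((⌊u⌋ : ℝ) - 2 * u)]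
    nlinarith [sq_nonneg u]
  linarith

end CVRL

open CVRL in
theorem t_CVR : S_CVR := by
  classical
  obtain ⟨C, hC, hfar⟩ := far_le
  refine ⟨C + 4, 100, by positivity, by norm_num, ?_⟩
  intro T hT h hh0 hh1 t _
  have hL : 0 ≤ Real.log T := Real.log_nonneg (by linarith)
  set Z := H370.Zf riemannZeta T (2 * T) with hZ
  have hBG : ∀ x : ℝ, 0 ≤ BG T h x := by
    intro x
    unfold BG
    exact Finset.sum_nonneg fun s _ => mul_nonneg (Nat.cast_nonneg _) (LLNL.bu_nonneg _ _ _ _)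
  have hsumnn : 0 ≤ ∑ j ∈ Finset.Icc (-⌈1 / h⌉) ⌈1 / h⌉, 1 / (1 + (j : ℝ) ^ 2) * BG T h (t + j * h) :=
    Finset.sum_nonneg fun j _ => mul_nonneg (by positivity) (hBG _)
  have hnear : ∑ s ∈ Z.filter (fun s => ¬ 1 < |s.im - t|), (mz s : ℝ) * w1 ((s.im - t) / h) ≤
      4 * ∑ j ∈ Finset.Icc (-⌈1 / h⌉) ⌈1 / h⌉, 1 / (1 + (j : ℝ) ^ 2) * BG T h (t + j * h) := by
    have e1 : ∀ j : ℤ, 1 / (1 + (j : ℝ) ^ 2) * BG T h (t + j * h) =
        ∑ s ∈ Z, (mz s : ℝ) * (1 / (1 + (j : ℝ) ^ 2) * LLNL.bu (-1) 2 1 ((s.im - t) / h - j)) := by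
      intro j
      unfold BG
      rw [Finset.mul_sum]
      refine Finset.sum_congr rfl fun s _ => ?_
      have e2 : (s.im - (t + j * h)) / h = (s.im - t) / h - j := by
        field_simp
        ring
      rw [e2]
      ring
    rw [Finset.sum_congr rfl fun j _ => e1 j, Finset.sum_comm, Finset.mul_sum]
    refine le_trans (Finset.sum_le_sum fun s hs => ?_)
      (Finset.sum_le_sum_of_subset_of_nonneg (Finset.filter_subset _ _) fun s _ _ => ?_)
    · have h1 : |s.im - t| ≤ 1 := not_lt.1 (Finset.mem_filter.1 hs).2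
      have h2 : |(s.im - t) / h| ≤ 1 / h := by
        rw [abs_div, abs_of_pos hh0]
        gcongr
      have h3 := near_le h2
      rw [← Finset.mul_sum]
      calc (mz s : ℝ) * w1 ((s.im - t) / h) ≤ (mz s : ℝ) * _ :=
            mul_le_mul_of_nonneg_left h3 (Nat.cast_nonneg _)
        _ = _ := by ring
    · refine mul_nonneg (by norm_num) (Finset.sum_nonneg fun j _ => ?_)
      exact mul_nonneg (Nat.cast_nonneg _) (mul_nonneg (by positivity) (LLNL.bu_nonneg _ _ _ _))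
  have hf : ∑ s ∈ Z.filter (fun s => 1 < |s.im - t|), (mz s : ℝ) * w1 ((s.im - t) / h) ≤
      C * (h ^ 2 * Real.log T) := by
    have h1 : ∀ s ∈ Z.filter (fun s => 1 < |s.im - t|), (mz s : ℝ) * w1 ((s.im - t) / h) ≤
        h ^ 2 * ((mz s : ℝ) * (1 / (s.im - t) ^ 2)) := by
      intro s hs
      have hs1 : 1 < |s.im - t| := (Finset.mem_filter.1 hs).2
      have hne : s.im - t ≠ 0 := by
        intro h0
        rw [h0, abs_zero] at hs1
        linarith
      have h2 : w1 ((s.im - t) / h) ≤ h ^ 2 * (1 / (s.im - t) ^ 2) := by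
        unfold w1
        have h3 : 0 < ((s.im - t) / h) ^ 2 := by positivity
        calc 1 / (1 + ((s.im - t) / h) ^ 2) ≤ 1 / ((s.im - t) / h) ^ 2 := by
              apply one_div_le_one_div_of_le h3
              linarith
          _ = _ := by field_simp
      calc (mz s : ℝ) * w1 ((s.im - t) / h) ≤ (mz s : ℝ) * (h ^ 2 * (1 / (s.im - t) ^ 2)) :=
            mul_le_mul_of_nonneg_left h2 (Nat.cast_nonneg _)
        _ = _ := by ring
    refine (Finset.sum_le_sum h1).trans ?_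
    rw [← Finset.mul_sum]
    have h2 := hfar T hT t
    calc _ ≤ h ^ 2 * (C * Real.log T) := mul_le_mul_of_nonneg_left h2 (by positivity)
      _ = _ := by ring
  have hsplit : NW T h t = ∑ s ∈ Z.filter (fun s => 1 < |s.im - t|), (mz s : ℝ) * w1 ((s.im - t) / h) +
      ∑ s ∈ Z.filter (fun s => ¬ 1 < |s.im - t|), (mz s : ℝ) * w1 ((s.im - t) / h) := by
    unfold NW
    rw [Finset.sum_filter_add_sum_filter_not]
  rw [hsplit]
  have h5 : 0 ≤ h ^ 2 * Real.log T := by positivity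
  nlinarith

end Pool.Agent.H203.ME
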