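import Pool.Agent.H203.ME.Defs5

set_option autoImplicit false

/-! (EDG) pointwise bound of the linear statistic (owner helper203; helper297). -/

open Complex Filter Topology Set MeasureTheory

namespace Pool.Agent.H203.ME

open FINL in
theorem t_EDG : S_EDG := by
  intro f hf hs
  obtain ⟨A, hA, hA'⟩ := bd hs
  obtain ⟨Cz, hCz, hz⟩ := H370.zcount H370.good_zeta
  obtain ⟨B, hB⟩ := hs.exists_bound_of_continuous hf.continuous
  have hB0 : 0 ≤ B := (norm_nonneg _).trans (hB 0)
  refine ⟨B * (2 * Cz) + |∫ x, f x| + 1, max A 1, 10, by positivity, le_max_right _ _, le_rfl, ?_⟩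
  intro T hT h hh0 hh1 t ht
  have hK : 0 < max A 1 := lt_max_of_lt_right one_pos
  have hh : h * max A 1 ≤ 1 := by
    rw [le_div_iff₀ hK] at hh1
    exact hh1
  have hhA : h * A ≤ 1 := (mul_le_mul_of_nonneg_left (le_max_left A 1) hh0.le).trans hh
  have hhle : h ≤ 1 := by
    have h1 : h * 1 ≤ h * max A 1 := mul_le_mul_of_nonneg_left (le_max_right A 1) hh0.le
    linarith
  have hc2 : C2c (fun x => f (x / h)) := c2c_scale hf hA' hh0 hhA
  have ht1 : T ≤ t := ht.1
  have ht2 : t ≤ 2 * T := ht.2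
  have hL1 : 0 ≤ Real.log T := Real.log_nonneg (by linarith)
  have hlog : Real.log t ≤ 2 * Real.log T := by
    have h1 : Real.log t ≤ Real.log (T ^ 2) := Real.log_le_log (by linarith) (by nlinarith)
    rw [Real.log_pow] at h1
    push_cast at h1
    exact h1
  rw [XF_eq hc2 (U1 := t - 1) (U2 := t + 1) (by linarith) (by linarith) (by linarith)]
  have hsum : |∑ s ∈ H370.Zf riemannZeta (t - 1) (t + 1), (mz s : ℝ) * f ((s.im - t) / h)| ≤
      B * (2 * Cz) * Real.log T := by
    have h1 : |∑ s ∈ H370.Zf riemannZeta (t - 1) (t + 1), (mz s : ℝ) * f ((s.im - t) / h)| ≤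
        ∑ s ∈ H370.Zf riemannZeta (t - 1) (t + 1), (mz s : ℝ) * B := by
      refine (Finset.abs_sum_le_sum_abs _ _).trans (Finset.sum_le_sum fun s _ => ?_)
      rw [abs_mul, Nat.abs_cast]
      exact mul_le_mul_of_nonneg_left (hB _) (Nat.cast_nonneg _)
    have h2 := hz t (by linarith)
    rw [H370.NN_eq H370.good_zeta (show (1 : ℝ) ≤ t - 1 by linarith)] at h2
    push_cast at h2
    have h3 : ∑ s ∈ H370.Zf riemannZeta (t - 1) (t + 1), (mz s : ℝ) ≤ Cz * Real.log t := h2
    rw [← Finset.sum_mul] at h1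
    calc _ ≤ _ := h1
      _ ≤ (Cz * Real.log t) * B := mul_le_mul_of_nonneg_right h3 hB0
      _ ≤ (Cz * (2 * Real.log T)) * B := by gcongr
      _ = _ := by ring
  have hint : |Real.log T / (2 * Real.pi) * ∫ x : ℝ, f (x / h)| ≤ |∫ x, f x| * Real.log T := by
    have h1 : ∫ x : ℝ, f (x / h) = h * ∫ x, f x := by
      rw [MeasureTheory.Measure.integral_comp_div, abs_of_pos hh0, smul_eq_mul]
    rw [h1, abs_mul, abs_mul, abs_of_pos hh0, abs_div, abs_of_nonneg hL1,
      abs_of_pos (show (0 : ℝ) < 2 * Real.pi by positivity)]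
    have h2 : Real.log T / (2 * Real.pi) ≤ Real.log T := by
      apply div_le_self hL1
      linarith [Real.pi_gt_three]
    have h3 : h * |∫ x, f x| ≤ |∫ x, f x| := mul_le_of_le_one_left (abs_nonneg _) hhle
    calc _ ≤ Real.log T * |∫ x, f x| :=
          mul_le_mul h2 h3 (by positivity) hL1
      _ = _ := mul_comm _ _
  have h4 := abs_sub (∑ s ∈ H370.Zf riemannZeta (t - 1) (t + 1), (mz s : ℝ) * f ((s.im - t) / h))
    (Real.log T / (2 * Real.pi) * ∫ x : ℝ, f (x / h))
  refine h4.trans ?_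
  nlinarith

end Pool.Agent.H203.ME
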