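import Pool.Agent.H203.ME.Defs5

set_option autoImplicit false

open Complex Filter Topology Set MeasureTheory

namespace Pool.Agent.H203.ME

namespace F6L

lemma pow_sum_le {k : ℕ} (a : Fin k → ℝ) (ha : ∀ j, 0 ≤ a j) (m : ℕ) :
    (∑ j, a j) ^ m ≤ (k : ℝ) ^ m * (∑ j, a j ^ m) + 1 := by
  rcases Nat.eq_zero_or_pos k with hk | hk
  · subst hk
    simp only [Finset.univ_eq_empty, Finset.sum_empty, mul_zero, zero_add]
    rcases Nat.eq_zero_or_pos m with hm | hm
    · subst hm; simp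
    · rw [zero_pow hm.ne']; exact zero_le_one
  · haveI : Nonempty (Fin k) := ⟨⟨0, hk⟩⟩
    obtain ⟨j0, -, hj0⟩ := Finset.exists_max_image Finset.univ a Finset.univ_nonempty
    have h1 : ∑ j, a j ≤ k * a j0 := by
      calc ∑ j, a j ≤ ∑ _j : Fin k, a j0 := Finset.sum_le_sum fun j _ => hj0 j (Finset.mem_univ _)
        _ = k * a j0 := by simp
    have h2 : (∑ j, a j) ^ m ≤ (k * a j0) ^ m := pow_le_pow_left₀ (Finset.sum_nonneg fun j _ => ha j) h1 m
    have h3 : a j0 ^ m ≤ ∑ j, a j ^ m :=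
      Finset.single_le_sum (f := fun j => a j ^ m) (fun j _ => pow_nonneg (ha j) m) (Finset.mem_univ j0)
    rw [mul_pow] at h2
    have h4 : (k : ℝ) ^ m * a j0 ^ m ≤ (k : ℝ) ^ m * ∑ j, a j ^ m := mul_le_mul_of_nonneg_left h3 (by positivity)
    linarith

/-- the combination of the statistics -/
noncomputable def Yc {k : ℕ} (f : Fin k → ℝ → ℝ) (h : Fin k → ℝ → ℝ) (c : Fin k → ℝ) (T t : ℝ) : ℝ :=
  ∑ j, c j * XF (fun x => f j (x / h j T)) T t

lemma Yc_cont {k : ℕ} {f : Fin k → ℝ → ℝ} {h : Fin k → ℝ → ℝ} (c : Fin k → ℝ) {T : ℝ}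
    (hc : ∀ j, C2c (fun x => f j (x / h j T))) (hT : 3 ≤ T) : ContinuousOn (Yc f h c T) (Icc T (2 * T)) := by
  unfold Yc
  refine continuousOn_finsetSum _ fun j _ => ?_
  exact continuousOn_const.mul (XF_contOn (hc j) hT)

lemma mom {k : ℕ} {f : Fin k → ℝ → ℝ} (hf : ∀ j, ContDiff ℝ 2 (f j)) (hs : ∀ j, HasCompactSupport (f j))
    {h : Fin k → ℝ → ℝ} (hh : Scales h) (hl : ∀ j, ∀ᶠ T : ℝ in atTop, (Real.log (Real.log T)) ^ 2 ≤ h j T * Real.log T)
    (hB : S_BMX) (c : Fin k → ℝ) (m : ℕ) : ∃ C : ℝ, ∀ᶠ T : ℝ in atTop, ∫ t in T..(2 * T), |Yc f h c T t| ^ m ≤ C * T := by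
  have hB' := fun j => hB m (f j) (hf j) (hs j)
  choose C K T0 hC hK hT0 hB' using hB'
  have hev : ∀ᶠ T : ℝ in atTop, ∀ j, ∫ t in T..(2 * T), |XF (fun x => f j (x / h j T)) T t| ^ m ≤ C j * T := by
    rw [eventually_all]
    intro j
    have h1 : ∀ᶠ T in atTop, h j T < 1 / K j := (hh.zero j).eventually (gt_mem_nhds (by have := hK j; positivity))
    filter_upwards [h1, hl j, eventually_ge_atTop (T0 j)] with T h1 h2 h3
    exact hB' j T h3 (h j T) h2 h1.le
  refine ⟨(k : ℝ) ^ m * (∑ j, |c j| ^ m * C j) + 1, ?_⟩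
  filter_upwards [hev, FINL.c2c_ev hf hs hh, eventually_ge_atTop (3 : ℝ)] with T h1 h2 h3
  have hTT : T ≤ 2 * T := by linarith
  have hXc : ∀ j, ContinuousOn (fun t => |XF (fun x => f j (x / h j T)) T t| ^ m) (Icc T (2 * T)) := fun j =>
    ((XF_contOn (h2 j) h3).abs).pow m
  have hXi : ∀ j, IntervalIntegrable (fun t => |XF (fun x => f j (x / h j T)) T t| ^ m) volume T (2 * T) := fun j =>
    ContinuousOn.intervalIntegrable (by rw [uIcc_of_le hTT]; exact hXc j)
  have hYi : IntervalIntegrable (fun t => |Yc f h c T t| ^ m) volume T (2 * T) :=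
    ContinuousOn.intervalIntegrable (by rw [uIcc_of_le hTT]; exact ((Yc_cont c h2 h3).abs).pow m)
  have hS : IntervalIntegrable (fun t => ∑ j, |c j| ^ m * |XF (fun x => f j (x / h j T)) T t| ^ m) volume T (2 * T) :=
    ContinuousOn.intervalIntegrable (by
      rw [uIcc_of_le hTT]
      exact continuousOn_finsetSum _ fun j _ => continuousOn_const.mul (hXc j))
  have hsum : IntervalIntegrable (fun t => (k : ℝ) ^ m * (∑ j, |c j| ^ m * |XF (fun x => f j (x / h j T)) T t| ^ m) + 1)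
      volume T (2 * T) := by
    exact IntervalIntegrable.add (IntervalIntegrable.const_mul hS _) intervalIntegrable_const
  calc ∫ t in T..(2 * T), |Yc f h c T t| ^ m
      ≤ ∫ t in T..(2 * T), ((k : ℝ) ^ m * (∑ j, |c j| ^ m * |XF (fun x => f j (x / h j T)) T t| ^ m) + 1) := by
        refine intervalIntegral.integral_mono_on hTT hYi hsum fun t _ => ?_
        have e1 : |Yc f h c T t| ≤ ∑ j, |c j * XF (fun x => f j (x / h j T)) T t| := Finset.abs_sum_le_sum_abs _ _
        have e2 := pow_sum_le (fun j => |c j * XF (fun x => f j (x / h j T)) T t|) (fun j => abs_nonneg _) m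
        have e3 : |Yc f h c T t| ^ m ≤ (∑ j, |c j * XF (fun x => f j (x / h j T)) T t|) ^ m :=
          pow_le_pow_left₀ (abs_nonneg _) e1 m
        have e4 : ∑ j, |c j * XF (fun x => f j (x / h j T)) T t| ^ m =
            ∑ j, |c j| ^ m * |XF (fun x => f j (x / h j T)) T t| ^ m :=
          Finset.sum_congr rfl fun j _ => by rw [abs_mul, mul_pow]
        rw [e4] at e2
        exact e3.trans e2
    _ = (k : ℝ) ^ m * (∑ j, |c j| ^ m * ∫ t in T..(2 * T), |XF (fun x => f j (x / h j T)) T t| ^ m) + T := by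
        rw [intervalIntegral.integral_add _ intervalIntegrable_const, intervalIntegral.integral_const_mul,
          intervalIntegral.integral_finsetSum fun j _ => (hXi j).const_mul _, intervalIntegral.integral_const]
        · congr 1
          · congr 1
            exact Finset.sum_congr rfl fun j _ => intervalIntegral.integral_const_mul _ _
          · simp; ring
        · exact IntervalIntegrable.const_mul hS _
    _ ≤ (k : ℝ) ^ m * (∑ j, |c j| ^ m * (C j * T)) + T := by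
        gcongr with j _
        exact h1 j
    _ = ((k : ℝ) ^ m * (∑ j, |c j| ^ m * C j) + 1) * T := by
        have : ∑ j, |c j| ^ m * (C j * T) = (∑ j, |c j| ^ m * C j) * T := by
          rw [Finset.sum_mul]; exact Finset.sum_congr rfl fun j _ => by ring
        rw [this]; ring

lemma char {k : ℕ} {f : Fin k → ℝ → ℝ} (hf : ∀ j, ContDiff ℝ 2 (f j)) (hs : ∀ j, HasCompactSupport (f j))
    {h : Fin k → ℝ → ℝ} (hh : Scales h) (hM : S_MAIN) (hA : S_ADM) (hC : S_COV) (c : Fin k → ℝ) (u : ℝ) :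
    Tendsto (fun T : ℝ => (1 / T : ℂ) * (∫ t in T..(2 * T), cexp (I * ((u * Yc f h c T t : ℝ) : ℂ)))) atTop
      (𝓝 (cexp (-((u ^ 2 * (∑ i, ∑ j, c i * c j * cM f h i j) : ℝ) : ℂ) / 2))) := by
  have h1 := FINL.main_ev hM hA hC hf hs hh (fun j => u * c j)
  have e1 : (∑ i, ∑ j, (u * c i) * (u * c j) * cM f h i j) = u ^ 2 * (∑ i, ∑ j, c i * c j * cM f h i j) := by
    simp only [Finset.mul_sum]
    exact Finset.sum_congr rfl fun i _ => Finset.sum_congr rfl fun j _ => by ring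
  rw [e1] at h1
  refine h1.congr' ?_
  filter_upwards [FINL.c2c_ev hf hs hh, eventually_ge_atTop (3 : ℝ)] with T h2 h3
  congr 1
  apply intervalIntegral.integral_congr
  intro t ht
  rw [uIcc_of_le (by linarith)] at ht
  simp only
  have e2 : XF (FINL.cb f h (fun j => u * c j) T) T t = u * Yc f h c T t := by
    unfold FINL.cb Yc
    rw [FINL.XF_lin h2 (fun j => u * c j) h3 ht.1 ht.2, Finset.mul_sum]
    exact Finset.sum_congr rfl fun j _ => by ring
  rw [e2]

end F6L

open F6L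

/-- all mixed moments at a random height -/
theorem fin6 (hM : S_MAIN) (hA : S_ADM) (hC : S_COV) (hB : S_BMX) (hO : S_ONE) (hP1 : S_PO1) (hP2 : S_PO2)
    {k : ℕ} {f : Fin k → ℝ → ℝ} (hf : ∀ j, ContDiff ℝ 2 (f j)) (hs : ∀ j, HasCompactSupport (f j))
    {h : Fin k → ℝ → ℝ} (hh : Scales h)
    (hl : ∀ j, ∀ᶠ T : ℝ in atTop, (Real.log (Real.log T)) ^ 2 ≤ h j T * Real.log T) :
    Tendsto (fun T : ℝ => 1 / T * ∫ t in T..(2 * T), ∏ j, XF (fun x => f j (x / h j T)) T t) atTop
      (𝓝 (wick (cM f h))) := by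
  have hlim : ∀ c : Fin k → ℝ, Tendsto (fun T : ℝ => 1 / T * ∫ t in T..(2 * T), (Yc f h c T t) ^ k) atTop
      (𝓝 (gm k (∑ i, ∑ j, c i * c j * cM f h i j))) := by
    intro c
    refine hO (Yc f h c) _ ?_ ?_ (mom hf hs hh hl hB c) (char hf hs hh hM hA hC c) k
    · have h1 := (FINL.cM_psd hC hf hs hh).dotProduct_mulVec_nonneg c
      have h2 : star c ⬝ᵥ (cM f h).mulVec c = ∑ i, ∑ j, c i * c j * cM f h i j := by
        simp only [dotProduct, Matrix.mulVec, star_trivial, Finset.mul_sum]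
        exact Finset.sum_congr rfl fun i _ => Finset.sum_congr rfl fun j _ => by ring
      rw [← h2]; exact h1
    · filter_upwards [FINL.c2c_ev hf hs hh, eventually_ge_atTop (3 : ℝ)] with T h2 h3
      exact Yc_cont c h2 h3
  have hk : (2 : ℝ) ^ k * (k.factorial : ℝ) ≠ 0 := by positivity
  have hsum : Tendsto (fun T : ℝ => (1 / (2 ^ k * (k.factorial : ℝ))) * ∑ ε : Fin k → Bool, (∏ j, sn (ε j)) *
      (1 / T * ∫ t in T..(2 * T), (Yc f h (fun j => sn (ε j)) T t) ^ k)) atTop (𝓝 (wick (cM f h))) := by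
    have h1 : Tendsto (fun T : ℝ => (1 / (2 ^ k * (k.factorial : ℝ))) * ∑ ε : Fin k → Bool, (∏ j, sn (ε j)) *
      (1 / T * ∫ t in T..(2 * T), (Yc f h (fun j => sn (ε j)) T t) ^ k)) atTop
      (𝓝 ((1 / (2 ^ k * (k.factorial : ℝ))) * ∑ ε : Fin k → Bool, (∏ j, sn (ε j)) *
        gm k (∑ i, ∑ j, sn (ε i) * sn (ε j) * cM f h i j))) := by
      refine Tendsto.const_mul _ (tendsto_finsetSum _ fun ε _ => Tendsto.const_mul _ (hlim _))
    rw [hP2 k (cM f h)] at h1
    have e1 : 1 / (2 ^ k * (k.factorial : ℝ)) * (2 ^ k * (k.factorial : ℝ) * wick (cM f h)) = wick (cM f h) := by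
      field_simp
    rw [e1] at h1
    exact h1
  refine hsum.congr' ?_
  filter_upwards [FINL.c2c_ev hf hs hh, eventually_ge_atTop (3 : ℝ)] with T h2 h3
  have hTT : T ≤ 2 * T := by linarith
  have hYi : ∀ ε : Fin k → Bool, IntervalIntegrable (fun t => (Yc f h (fun j => sn (ε j)) T t) ^ k) volume T (2 * T) :=
    fun ε => ContinuousOn.intervalIntegrable (by rw [uIcc_of_le hTT]; exact (Yc_cont _ h2 h3).pow k)
  have e1 : ∀ t, ∏ j, XF (fun x => f j (x / h j T)) T t =
      (1 / (2 ^ k * (k.factorial : ℝ))) * ∑ ε : Fin k → Bool, (∏ j, sn (ε j)) * (Yc f h (fun j => sn (ε j)) T t) ^ k := by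
    intro t
    have := hP1 k (fun j => XF (fun x => f j (x / h j T)) T t)
    unfold Yc
    rw [this]
    field_simp
  simp_rw [e1]
  rw [intervalIntegral.integral_const_mul, intervalIntegral.integral_finsetSum fun ε _ => (hYi ε).const_mul _]
  simp_rw [intervalIntegral.integral_const_mul]
  simp only [Finset.mul_sum]
  exact Finset.sum_congr rfl fun ε _ => by ring

end Pool.Agent.H203.ME
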