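import Pool.Agent.H203.ME.Defs5

set_option autoImplicit false

open Complex Filter Topology Set MeasureTheory

namespace Pool.Agent.H203.ME

namespace ONEL

lemma tay (n : ℕ) : ∃ C : ℝ, 0 ≤ C ∧ ∀ x : ℝ,
    ‖cexp (I * (x : ℂ)) - ∑ j ∈ Finset.range n, (I * (x : ℂ)) ^ j / (j.factorial : ℂ)‖ ≤ C * |x| ^ n := by
  refine ⟨Real.exp 1 + 1 + n, by positivity, fun x => ?_⟩
  have hn : ‖I * (x : ℂ)‖ = |x| := by simp
  rcases le_or_gt |x| 1 with h | h
  · have := Complex.norm_exp_sub_sum_le_norm_mul_exp (I * (x : ℂ)) n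
    rw [hn] at this
    refine this.trans ?_
    have h1 : Real.exp |x| ≤ Real.exp 1 := Real.exp_le_exp.2 h
    have h2 : 0 ≤ |x| ^ n := by positivity
    have h3 : (0 : ℝ) ≤ n := by positivity
    nlinarith [mul_le_mul_of_nonneg_left h1 h2, mul_nonneg h3 h2]
  · have h1 : ‖cexp (I * (x : ℂ))‖ ≤ |x| ^ n := by
      rw [mul_comm, Complex.norm_exp_ofReal_mul_I]
      exact one_le_pow₀ h.le
    have h2 : ‖∑ j ∈ Finset.range n, (I * (x : ℂ)) ^ j / (j.factorial : ℂ)‖ ≤ n * |x| ^ n := by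
      refine (norm_sum_le _ _).trans ?_
      have : ∀ j ∈ Finset.range n, ‖(I * (x : ℂ)) ^ j / (j.factorial : ℂ)‖ ≤ |x| ^ n := by
        intro j hj
        rw [norm_div, norm_pow, hn, Complex.norm_natCast]
        have hf : (1 : ℝ) ≤ (j.factorial : ℝ) := by exact_mod_cast Nat.succ_le_of_lt j.factorial_pos
        calc |x| ^ j / (j.factorial : ℝ) ≤ |x| ^ j := div_le_self (by positivity) hf
          _ ≤ |x| ^ n := pow_le_pow_right₀ h.le (Finset.mem_range.1 hj).le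
      refine (Finset.sum_le_sum this).trans ?_
      simp
    refine (norm_sub_le _ _).trans ?_
    have h3 : 0 ≤ |x| ^ n := by positivity
    nlinarith [mul_nonneg (Real.exp_pos 1).le h3]

lemma gsum (σ u : ℝ) (n : ℕ) :
    ∑ j ∈ Finset.range (2 * n), (I * (u : ℂ)) ^ j / (j.factorial : ℂ) * ((gm j σ : ℝ) : ℂ) =
      ∑ l ∈ Finset.range n, (-((u ^ 2 * σ : ℝ) : ℂ) / 2) ^ l / (l.factorial : ℂ) := by
  induction n with
  | zero => simp
  | succ n ih =>
    rw [show 2 * (n + 1) = 2 * n + 1 + 1 by ring, Finset.sum_range_succ, Finset.sum_range_succ, ih,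
      Finset.sum_range_succ]
    have h1 : gm (2 * n + 1) σ = 0 := by
      unfold gm
      rw [if_neg]
      simp
    have h2 : gm (2 * n) σ = ((2 * n).factorial : ℝ) / (2 ^ n * (n.factorial : ℝ)) * σ ^ n := by
      unfold gm
      rw [if_pos (by simp)]
      simp
    have hf1 : ((2 * n).factorial : ℂ) ≠ 0 := by exact_mod_cast (Nat.factorial_pos _).ne'
    have hf2 : (n.factorial : ℂ) ≠ 0 := by exact_mod_cast (Nat.factorial_pos _).ne'
    rw [h1, h2]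
    push_cast
    rw [pow_mul, mul_pow I, I_sq, div_pow, neg_pow, mul_zero, add_zero]
    congr 1
    rw [mul_pow, mul_pow]
    field_simp

lemma gau (σ : ℝ) (hσ : 0 ≤ σ) (n : ℕ) : ∃ C : ℝ, 0 ≤ C ∧ ∀ u : ℝ, 0 < u → u ≤ 1 →
    ‖cexp (-((u ^ 2 * σ : ℝ) : ℂ) / 2) - ∑ j ∈ Finset.range n, (I * (u : ℂ)) ^ j / (j.factorial : ℂ) * ((gm j σ : ℝ) : ℂ)‖
      ≤ C * u ^ n := by
  have key : ∀ n : ℕ, ∃ C : ℝ, 0 ≤ C ∧ ∀ u : ℝ, 0 < u → u ≤ 1 →
    ‖cexp (-((u ^ 2 * σ : ℝ) : ℂ) / 2) - ∑ j ∈ Finset.range (2 * n), (I * (u : ℂ)) ^ j / (j.factorial : ℂ) * ((gm j σ : ℝ) : ℂ)‖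
      ≤ C * u ^ (2 * n) := by
    intro n
    refine ⟨σ ^ n * Real.exp σ, by positivity, fun u hu hu1 => ?_⟩
    rw [gsum]
    refine (Complex.norm_exp_sub_sum_le_norm_mul_exp _ n).trans ?_
    have hz : ‖-((u ^ 2 * σ : ℝ) : ℂ) / 2‖ = u ^ 2 * σ / 2 := by
      rw [norm_div, norm_neg, Complex.norm_real, Real.norm_of_nonneg (by positivity)]
      simp
    rw [hz]
    have h1 : Real.exp (u ^ 2 * σ / 2) ≤ Real.exp σ := by
      apply Real.exp_le_exp.2
      have : u ^ 2 ≤ 1 := by nlinarith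
      nlinarith [mul_le_mul_of_nonneg_right this hσ]
    have h2 : (u ^ 2 * σ / 2) ^ n ≤ (u ^ 2 * σ) ^ n := by
      apply pow_le_pow_left₀ (by positivity)
      have : 0 ≤ u ^ 2 * σ := by positivity
      linarith
    calc (u ^ 2 * σ / 2) ^ n * Real.exp (u ^ 2 * σ / 2) ≤ (u ^ 2 * σ) ^ n * Real.exp σ :=
          mul_le_mul h2 h1 (Real.exp_pos _).le (by positivity)
      _ = σ ^ n * Real.exp σ * u ^ (2 * n) := by rw [mul_pow, pow_mul]; ring
  rcases Nat.even_or_odd' n with ⟨m, hm | hm⟩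
  · subst hm
    exact key m
  · subst hm
    obtain ⟨C, hC, h⟩ := key (m + 1)
    refine ⟨C, hC, fun u hu hu1 => ?_⟩
    have := h u hu hu1
    rw [show 2 * (m + 1) = 2 * m + 1 + 1 by ring, Finset.sum_range_succ] at this
    have h1 : gm (2 * m + 1) σ = 0 := by
      unfold gm
      rw [if_neg]
      simp
    rw [h1, ofReal_zero, mul_zero, add_zero] at this
    refine this.trans ?_
    apply mul_le_mul_of_nonneg_left _ hC
    exact pow_le_pow_of_le_one hu.le hu1 (by omega)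

lemma avg {y : ℝ → ℝ} {T u C1 M : ℝ} {k : ℕ} (hT : 0 < T) (hy : ContinuousOn y (Icc T (2 * T))) (hu : 0 < u) (hC1 : 0 ≤ C1)
    (h1 : ∀ x : ℝ, ‖cexp (I * (x : ℂ)) - ∑ j ∈ Finset.range (k + 1), (I * (x : ℂ)) ^ j / (j.factorial : ℂ)‖ ≤ C1 * |x| ^ (k + 1))
    (hM : ∫ t in T..(2 * T), |y t| ^ (k + 1) ≤ M * T) :
    ‖(1 / T : ℂ) * (∫ t in T..(2 * T), cexp (I * ((u * y t : ℝ) : ℂ))) -
      ∑ j ∈ Finset.range (k + 1), (I * (u : ℂ)) ^ j / (j.factorial : ℂ) * ((1 / T * ∫ t in T..(2 * T), (y t) ^ j : ℝ) : ℂ)‖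
      ≤ C1 * |M| * u ^ (k + 1) := by
  have hTT : T ≤ 2 * T := by linarith
  have hy' : ContinuousOn y (uIcc T (2 * T)) := by rwa [uIcc_of_le hTT]
  have hyc : ContinuousOn (fun t => ((y t : ℝ) : ℂ)) (uIcc T (2 * T)) := continuous_ofReal.comp_continuousOn hy'
  have hce : ContinuousOn (fun t => cexp (I * ((u * y t : ℝ) : ℂ))) (uIcc T (2 * T)) := by
    apply Complex.continuous_exp.comp_continuousOn
    apply continuousOn_const.mul
    exact continuous_ofReal.comp_continuousOn (continuousOn_const.mul hy')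
  have hpj : ∀ j : ℕ, ContinuousOn (fun t => (I * ((u * y t : ℝ) : ℂ)) ^ j / (j.factorial : ℂ)) (uIcc T (2 * T)) := by
    intro j
    apply ContinuousOn.div_const
    apply ContinuousOn.pow
    apply continuousOn_const.mul
    exact continuous_ofReal.comp_continuousOn (continuousOn_const.mul hy')
  have e1 : ∑ j ∈ Finset.range (k + 1), (I * (u : ℂ)) ^ j / (j.factorial : ℂ) * ((1 / T * ∫ t in T..(2 * T), (y t) ^ j : ℝ) : ℂ)
      = (1 / T : ℂ) * ∫ t in T..(2 * T), ∑ j ∈ Finset.range (k + 1), (I * ((u * y t : ℝ) : ℂ)) ^ j / (j.factorial : ℂ) := by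
    rw [intervalIntegral.integral_finsetSum (fun j _ => (hpj j).intervalIntegrable), Finset.mul_sum]
    refine Finset.sum_congr rfl fun j _ => ?_
    have : ∀ t : ℝ, (I * ((u * y t : ℝ) : ℂ)) ^ j / (j.factorial : ℂ) =
        ((I * (u : ℂ)) ^ j / (j.factorial : ℂ)) * (((y t) ^ j : ℝ) : ℂ) := by
      intro t
      push_cast
      rw [← mul_assoc, mul_pow (I * (u : ℂ))]
      ring
    simp_rw [this]
    rw [intervalIntegral.integral_const_mul, intervalIntegral.integral_ofReal]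
    push_cast
    ring
  rw [e1, ← mul_sub, ← intervalIntegral.integral_sub hce.intervalIntegrable
    ((continuousOn_finsetSum _ fun j _ => hpj j).intervalIntegrable), norm_mul]
  have e2 : ‖∫ t in T..(2 * T), (cexp (I * ((u * y t : ℝ) : ℂ)) -
      ∑ j ∈ Finset.range (k + 1), (I * ((u * y t : ℝ) : ℂ)) ^ j / (j.factorial : ℂ))‖ ≤
      ∫ t in T..(2 * T), (C1 * u ^ (k + 1)) * |y t| ^ (k + 1) := by
    apply intervalIntegral.norm_integral_le_of_norm_le hTT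
    · refine Filter.Eventually.of_forall fun t _ => ?_
      refine (h1 (u * y t)).trans (le_of_eq ?_)
      rw [abs_mul, mul_pow, abs_of_pos hu]
      ring
    · apply ContinuousOn.intervalIntegrable
      exact continuousOn_const.mul (hy'.abs.pow _)
  rw [intervalIntegral.integral_const_mul] at e2
  have e3 : ‖(1 / T : ℂ)‖ = 1 / T := by
    rw [norm_div, norm_one, Complex.norm_real, Real.norm_of_nonneg hT.le]
  rw [e3]
  have e4 : ∫ t in T..(2 * T), |y t| ^ (k + 1) ≤ |M| * T :=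
    hM.trans (mul_le_mul_of_nonneg_right (le_abs_self M) hT.le)
  have e5 : (0 : ℝ) ≤ C1 * u ^ (k + 1) := by positivity
  calc 1 / T * _ ≤ 1 / T * ((C1 * u ^ (k + 1)) * (|M| * T)) := by
        apply mul_le_mul_of_nonneg_left _ (by positivity)
        exact e2.trans (mul_le_mul_of_nonneg_left e4 e5)
    _ = C1 * |M| * u ^ (k + 1) := by field_simp

end ONEL

open ONEL in
theorem t_ONE : S_ONE := by
  intro Y σ hσ hc hb hlim k
  induction k using Nat.strong_induction_on with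
  | _ k ih =>
  obtain ⟨C1, hC1, h1⟩ := tay (k + 1)
  obtain ⟨C2, hC2, h2⟩ := gau σ hσ (k + 1)
  obtain ⟨M, hM⟩ := hb (k + 1)
  rw [Metric.tendsto_nhds]
  intro δ hδ
  have hfk : (0 : ℝ) < (k.factorial : ℝ) := by exact_mod_cast k.factorial_pos
  obtain ⟨B, hB⟩ : ∃ B : ℝ, B = C1 * |M| + C2 + 1 := ⟨_, rfl⟩
  have hBpos : 0 < B := by rw [hB]; positivity
  obtain ⟨u, hu⟩ : ∃ u : ℝ, u = min 1 (δ / (2 * (k.factorial : ℝ) * B)) := ⟨_, rfl⟩
  have hu0 : 0 < u := by rw [hu]; exact lt_min one_pos (by positivity)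
  have hu1 : u ≤ 1 := by rw [hu]; exact min_le_left _ _
  have hu2 : u ≤ δ / (2 * (k.factorial : ℝ) * B) := by rw [hu]; exact min_le_right _ _
  have hε : 0 < u ^ (k + 1) / 2 := by positivity
  have hl1 := (Metric.tendsto_nhds.1 (hlim u)) _ hε
  have hl2 : Tendsto (fun T : ℝ => ∑ j ∈ Finset.range k, (I * (u : ℂ)) ^ j / (j.factorial : ℂ) *
      (((1 / T * ∫ t in T..(2 * T), (Y T t) ^ j : ℝ) : ℂ) - ((gm j σ : ℝ) : ℂ))) atTop (𝓝 0) := by
    have : (0 : ℂ) = ∑ j ∈ Finset.range k, (I * (u : ℂ)) ^ j / (j.factorial : ℂ) * (((gm j σ : ℝ) : ℂ) - ((gm j σ : ℝ) : ℂ)) := by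
      simp
    rw [this]
    apply tendsto_finsetSum
    intro j hj
    apply Tendsto.const_mul
    apply Tendsto.sub_const
    exact (continuous_ofReal.tendsto _).comp (ih j (Finset.mem_range.1 hj))
  have hl2' := (Metric.tendsto_nhds.1 hl2) _ hε
  filter_upwards [hc, hM, hl1, hl2', eventually_gt_atTop (0 : ℝ)] with T hcT hMT ha hbT hT
  have hav := avg (y := Y T) hT hcT hu0 hC1 h1 hMT
  have hga := h2 u hu0 hu1
  rw [dist_eq_norm] at ha hbT
  rw [sub_zero] at hbT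
  rw [Finset.sum_range_succ] at hav hga
  rw [Real.dist_eq]
  simp only [mul_sub, Finset.sum_sub_distrib] at hbT
  obtain ⟨S1, hS1⟩ : ∃ S1 : ℂ, S1 = ∑ j ∈ Finset.range k, (I * (u : ℂ)) ^ j / (j.factorial : ℂ) *
    ((1 / T * ∫ t in T..(2 * T), (Y T t) ^ j : ℝ) : ℂ) := ⟨_, rfl⟩
  obtain ⟨S2, hS2⟩ : ∃ S2 : ℂ, S2 = ∑ j ∈ Finset.range k, (I * (u : ℂ)) ^ j / (j.factorial : ℂ) * ((gm j σ : ℝ) : ℂ) :=
    ⟨_, rfl⟩
  obtain ⟨E, hE⟩ : ∃ E : ℂ, E = (1 / T : ℂ) * (∫ t in T..(2 * T), cexp (I * ((u * Y T t : ℝ) : ℂ))) := ⟨_, rfl⟩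
  obtain ⟨G, hG⟩ : ∃ G : ℂ, G = cexp (-((u ^ 2 * σ : ℝ) : ℂ) / 2) := ⟨_, rfl⟩
  obtain ⟨m, hm⟩ : ∃ m : ℝ, m = 1 / T * ∫ t in T..(2 * T), (Y T t) ^ k := ⟨_, rfl⟩
  rw [← hS1, ← hE, ← hm] at hav
  rw [← hS2, ← hG] at hga
  rw [← hS1, ← hS2] at hbT
  rw [← hE, ← hG] at ha
  rw [← hm]
  have key : (I * (u : ℂ)) ^ k / (k.factorial : ℂ) * ((m - gm k σ : ℝ) : ℂ) =
      -(E - (S1 + (I * (u : ℂ)) ^ k / (k.factorial : ℂ) * (m : ℂ))) + (E - G) +
      (G - (S2 + (I * (u : ℂ)) ^ k / (k.factorial : ℂ) * ((gm k σ : ℝ) : ℂ))) - (S1 - S2) := by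
    push_cast
    ring
  have hn : ‖(I * (u : ℂ)) ^ k / (k.factorial : ℂ) * ((m - gm k σ : ℝ) : ℂ)‖ = u ^ k / (k.factorial : ℝ) * |m - gm k σ| := by
    rw [norm_mul, norm_div, norm_pow, norm_mul, Complex.norm_I, one_mul, Complex.norm_real, Complex.norm_natCast,
      Complex.norm_real, Real.norm_eq_abs, Real.norm_eq_abs, abs_of_pos hu0]
  have hbd : u ^ k / (k.factorial : ℝ) * |m - gm k σ| ≤ B * u ^ (k + 1) := by
    rw [← hn, key]
    refine (norm_sub_le _ _).trans ?_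
    have t1 := norm_add_le (-(E - (S1 + (I * (u : ℂ)) ^ k / (k.factorial : ℂ) * (m : ℂ))) + (E - G))
      (G - (S2 + (I * (u : ℂ)) ^ k / (k.factorial : ℂ) * ((gm k σ : ℝ) : ℂ)))
    have t2 := norm_add_le (-(E - (S1 + (I * (u : ℂ)) ^ k / (k.factorial : ℂ) * (m : ℂ)))) (E - G)
    rw [norm_neg] at t2
    rw [hB]
    nlinarith
  have hbd2 : |m - gm k σ| ≤ (k.factorial : ℝ) * B * u := by
    have h3 : 0 < u ^ k / (k.factorial : ℝ) := by positivity
    have h4 : u ^ k / (k.factorial : ℝ) * |m - gm k σ| ≤ u ^ k / (k.factorial : ℝ) * ((k.factorial : ℝ) * B * u) := by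
      refine hbd.trans (le_of_eq ?_)
      rw [pow_succ]
      field_simp
    exact le_of_mul_le_mul_left h4 h3
  refine hbd2.trans_lt ?_
  calc (k.factorial : ℝ) * B * u ≤ (k.factorial : ℝ) * B * (δ / (2 * (k.factorial : ℝ) * B)) :=
        mul_le_mul_of_nonneg_left hu2 (by positivity)
    _ = δ / 2 := by field_simp
    _ < δ := by linarith

end Pool.Agent.H203.ME
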