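import Pool.Agent.H203.ME.Defs5

set_option autoImplicit false

open Complex Filter Topology Set MeasureTheory

namespace Pool.Agent.H203.ME

namespace PO1L

open Classical in
theorem signsum {ι : Type} [Fintype ι] (k : ℕ) (hk : Fintype.card ι = k) (a : ι → Fin k) :
    ∑ ε : Fin k → Bool, (∏ j, sn (ε j)) * ∏ i, sn (ε (a i)) =
      if Function.Bijective a then 2 ^ k else 0 := by
  have h1 : ∀ ε : Fin k → Bool, (∏ j, sn (ε j)) * ∏ i, sn (ε (a i)) =
      ∏ j, (sn (ε j) * sn (ε j) ^ (Finset.univ.filter (fun i => a i = j)).card) := by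
    intro ε
    rw [Finset.prod_mul_distrib]
    congr 1
    rw [← Finset.prod_fiberwise' Finset.univ a (fun j => sn (ε j))]
    refine Finset.prod_congr rfl fun j _ => ?_
    rw [Finset.prod_const]
  have h2 : ∑ ε : Fin k → Bool, (∏ j, sn (ε j)) * ∏ i, sn (ε (a i)) =
      ∏ j, ∑ b : Bool, (sn b * sn b ^ (Finset.univ.filter (fun i => a i = j)).card) := by
    rw [Finset.prod_univ_sum, Fintype.piFinset_univ]
    exact Finset.sum_congr rfl fun ε _ => h1 ε
  rw [h2]
  split_ifs with hb
  · have h3 : ∀ j : Fin k, (Finset.univ.filter (fun i => a i = j)).card = 1 := by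
      intro j
      rw [Finset.card_eq_one]
      obtain ⟨i, hi⟩ := hb.2 j
      refine ⟨i, ?_⟩
      ext i'
      simp only [Finset.mem_filter, Finset.mem_univ, true_and, Finset.mem_singleton]
      constructor
      · intro h
        exact hb.1 (h.trans hi.symm)
      · intro h
        rw [h, hi]
    have h4 : ∀ j ∈ (Finset.univ : Finset (Fin k)),
        ∑ b : Bool, (sn b * sn b ^ (Finset.univ.filter (fun i => a i = j)).card) = 2 := by
      intro j _
      rw [h3 j, Fintype.sum_bool]
      norm_num [sn]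
    rw [Finset.prod_congr rfl h4, Finset.prod_const, Finset.card_univ, Fintype.card_fin]
  · have h3 : ∃ j : Fin k, ∀ i, a i ≠ j := by
      by_contra hcon
      push Not at hcon
      exact hb ((Fintype.bijective_iff_surjective_and_card a).2
        ⟨hcon, by rw [hk, Fintype.card_fin]⟩)
    obtain ⟨j, hj⟩ := h3
    refine Finset.prod_eq_zero (Finset.mem_univ j) ?_
    have h4 : (Finset.univ.filter (fun i => a i = j)) = ∅ :=
      Finset.filter_eq_empty_iff.2 fun i _ => hj i
    rw [h4, Fintype.sum_bool]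
    norm_num [sn]

theorem main_sum {ι : Type} [Fintype ι] [DecidableEq ι] (k : ℕ) (hk : Fintype.card ι = k)
    (F : (ι → Fin k) → ℝ) :
    ∑ a : ι → Fin k, F a * (∑ ε : Fin k → Bool, (∏ j, sn (ε j)) * ∏ i, sn (ε (a i))) =
      2 ^ k * ∑ e : ι ≃ Fin k, F e := by
  classical
  have h0 : ∀ a ∈ (Finset.univ : Finset (ι → Fin k)),
      F a * (∑ ε : Fin k → Bool, (∏ j, sn (ε j)) * ∏ i, sn (ε (a i))) =
        if Function.Bijective a then 2 ^ k * F a else 0 := by
    intro a _
    rw [signsum k hk a]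
    split_ifs <;> ring
  rw [Finset.mul_sum, Finset.sum_congr rfl h0, ← Finset.sum_filter]
  symm
  refine Finset.sum_bij (fun (e : ι ≃ Fin k) _ => (e : ι → Fin k)) ?_ ?_ ?_ ?_
  · intro e _
    exact Finset.mem_filter.2 ⟨Finset.mem_univ _, e.bijective⟩
  · intro e _ e' _ h
    exact DFunLike.coe_injective h
  · intro a ha
    exact ⟨Equiv.ofBijective a (Finset.mem_filter.1 ha).2, Finset.mem_univ _, rfl⟩
  · intro e _
    rfl

end PO1L

theorem t_PO1 : S_PO1 := by
  intro k x
  classical
  have h1 : ∀ ε : Fin k → Bool, (∏ j, sn (ε j)) * (∑ j, sn (ε j) * x j) ^ k =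
      ∑ a : Fin k → Fin k, (∏ i, x (a i)) * ((∏ j, sn (ε j)) * ∏ i, sn (ε (a i))) := by
    intro ε
    have h2 : (∑ j, sn (ε j) * x j) ^ k = ∏ _i : Fin k, ∑ j, sn (ε j) * x j := by
      rw [Finset.prod_const, Finset.card_univ, Fintype.card_fin]
    rw [h2, Finset.prod_univ_sum, Fintype.piFinset_univ, Finset.mul_sum]
    refine Finset.sum_congr rfl fun a _ => ?_
    rw [Finset.prod_mul_distrib]
    ring
  rw [Finset.sum_congr rfl fun ε _ => h1 ε, Finset.sum_comm]
  rw [Finset.sum_congr rfl fun a _ => (Finset.mul_sum _ _ _).symm,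
    PO1L.main_sum k (Fintype.card_fin k) (fun a : Fin k → Fin k => ∏ i, x (a i))]
  have h4 : ∀ e ∈ (Finset.univ : Finset (Fin k ≃ Fin k)), ∏ i, x (e i) = ∏ i, x i := by
    intro e _
    exact Equiv.prod_comp e x
  rw [Finset.sum_congr rfl h4, Finset.sum_const, Finset.card_univ, Fintype.card_equiv (Equiv.refl _),
    Fintype.card_fin, nsmul_eq_mul]
  ring

end Pool.Agent.H203.ME
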