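import Pool.Agent.H203.ME.Defs5

set_option autoImplicit false

open Complex Filter Topology Set MeasureTheory

namespace Pool.Agent.H203.ME

namespace PO2L

open Classical in
theorem signsum {ι : Type} [Fintype ι] (k : ℕ) (hk : Fintype.card ι = k) (a : ι → Fin k) :
    ∑ ε : Fin k → Bool, (∏ j, sn (ε j)) * ∏ i, sn (ε (a i)) =
      if Function.Bijective a then 2 ^ k else 0 := by
  have h1 : ∀ ε : Fin k → Bool, (∏ j, sn (ε j)) * ∏ i, sn (ε (a i)) =
      ∏ j, (sn (ε j) * sn (ε j) ^ (Finset.univ.filter (fun i => a i = j)).card) := by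
    intro ε
    rw [Finset.prod_mul_distrib]
    congr 1
    rw [← Finset.prod_fiberwise' Finset.univ a (fun j => sn (ε j))]
    refine Finset.prod_congr rfl fun j _ => ?_
    rw [Finset.prod_const]
  have h2 : ∑ ε : Fin k → Bool, (∏ j, sn (ε j)) * ∏ i, sn (ε (a i)) =
      ∏ j, ∑ b : Bool, (sn b * sn b ^ (Finset.univ.filter (fun i => a i = j)).card) := by
    rw [Finset.prod_univ_sum, Fintype.piFinset_univ]
    exact Finset.sum_congr rfl fun ε _ => h1 ε
  rw [h2]
  split_ifs with hb
  · have h3 : ∀ j : Fin k, (Finset.univ.filter (fun i => a i = j)).card = 1 := by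
      intro j
      rw [Finset.card_eq_one]
      obtain ⟨i, hi⟩ := hb.2 j
      refine ⟨i, ?_⟩
      ext i'
      simp only [Finset.mem_filter, Finset.mem_univ, true_and, Finset.mem_singleton]
      constructor
      · intro h
        exact hb.1 (h.trans hi.symm)
      · intro h
        rw [h, hi]
    have h4 : ∀ j ∈ (Finset.univ : Finset (Fin k)),
        ∑ b : Bool, (sn b * sn b ^ (Finset.univ.filter (fun i => a i = j)).card) = 2 := by
      intro j _
      rw [h3 j, Fintype.sum_bool]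
      norm_num [sn]
    rw [Finset.prod_congr rfl h4, Finset.prod_const, Finset.card_univ, Fintype.card_fin]
  · have h3 : ∃ j : Fin k, ∀ i, a i ≠ j := by
      by_contra hcon
      push Not at hcon
      exact hb ((Fintype.bijective_iff_surjective_and_card a).2
        ⟨hcon, by rw [hk, Fintype.card_fin]⟩)
    obtain ⟨j, hj⟩ := h3
    refine Finset.prod_eq_zero (Finset.mem_univ j) ?_
    have h4 : (Finset.univ.filter (fun i => a i = j)) = ∅ :=
      Finset.filter_eq_empty_iff.2 fun i _ => hj i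
    rw [h4, Fintype.sum_bool]
    norm_num [sn]

theorem main_sum {ι : Type} [Fintype ι] [DecidableEq ι] (k : ℕ) (hk : Fintype.card ι = k)
    (F : (ι → Fin k) → ℝ) :
    ∑ a : ι → Fin k, F a * (∑ ε : Fin k → Bool, (∏ j, sn (ε j)) * ∏ i, sn (ε (a i))) =
      2 ^ k * ∑ e : ι ≃ Fin k, F e := by
  classical
  have h0 : ∀ a ∈ (Finset.univ : Finset (ι → Fin k)),
      F a * (∑ ε : Fin k → Bool, (∏ j, sn (ε j)) * ∏ i, sn (ε (a i))) =
        if Function.Bijective a then 2 ^ k * F a else 0 := by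
    intro a _
    rw [signsum k hk a]
    split_ifs <;> ring
  rw [Finset.mul_sum, Finset.sum_congr rfl h0, ← Finset.sum_filter]
  symm
  refine Finset.sum_bij (fun (e : ι ≃ Fin k) _ => (e : ι → Fin k)) ?_ ?_ ?_ ?_
  · intro e _
    exact Finset.mem_filter.2 ⟨Finset.mem_univ _, e.bijective⟩
  · intro e _ e' _ h
    exact DFunLike.coe_injective h
  · intro a ha
    exact ⟨Equiv.ofBijective a (Finset.mem_filter.1 ha).2, Finset.mem_univ _, rfl⟩
  · intro e _
    rfl

end PO2L

theorem t_PO2 : S_PO2 := by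
  intro k C
  classical
  rcases Nat.even_or_odd k with hk | hk
  · obtain ⟨n, hn⟩ := hk
    have hk2 : k / 2 = n := by omega
    have hcard : Fintype.card (Fin n × Fin 2) = k := by
      rw [Fintype.card_prod, Fintype.card_fin, Fintype.card_fin]
      omega
    have hgm : ∀ σ : ℝ, gm k σ = (k.factorial : ℝ) / (2 ^ (k / 2) * (k / 2).factorial) * σ ^ (k / 2) := by
      intro σ
      rw [gm, if_pos ⟨n, hn⟩]
    have hpow : ∀ ε : Fin k → Bool, (∑ i, ∑ j, sn (ε i) * sn (ε j) * C i j) ^ (k / 2) =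
        ∑ a : Fin (k / 2) × Fin 2 → Fin k,
          (∏ l, C (a (l, 0)) (a (l, 1))) * ∏ p, sn (ε (a p)) := by
      intro ε
      have h1 : (∑ i, ∑ j, sn (ε i) * sn (ε j) * C i j) =
          ∑ c : Fin 2 → Fin k, sn (ε (c 0)) * sn (ε (c 1)) * C (c 0) (c 1) := by
        rw [← (finTwoArrowEquiv (Fin k)).symm.sum_comp, Fintype.sum_prod_type]
        rfl
      have h2 : (∑ i, ∑ j, sn (ε i) * sn (ε j) * C i j) ^ (k / 2) =
          ∏ _l : Fin (k / 2), ∑ c : Fin 2 → Fin k, sn (ε (c 0)) * sn (ε (c 1)) * C (c 0) (c 1) := by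
        rw [Finset.prod_const, Finset.card_univ, Fintype.card_fin, h1]
      rw [h2, Finset.prod_univ_sum, Fintype.piFinset_univ,
        ← (Equiv.curry (Fin (k / 2)) (Fin 2) (Fin k)).sum_comp]
      refine Finset.sum_congr rfl fun a _ => ?_
      rw [Fintype.prod_prod_type, mul_comm, ← Finset.prod_mul_distrib]
      refine Finset.prod_congr rfl fun l _ => ?_
      rw [Fin.prod_univ_two]
      rfl
    have h1 : ∀ ε : Fin k → Bool, (∏ j, sn (ε j)) * gm k (∑ i, ∑ j, sn (ε i) * sn (ε j) * C i j) =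
        (k.factorial : ℝ) / (2 ^ (k / 2) * (k / 2).factorial) *
          ∑ a : Fin (k / 2) × Fin 2 → Fin k, (∏ l, C (a (l, 0)) (a (l, 1))) *
            ((∏ j, sn (ε j)) * ∏ p, sn (ε (a p))) := by
      intro ε
      rw [hgm, hpow ε, Finset.mul_sum, Finset.mul_sum, Finset.mul_sum]
      refine Finset.sum_congr rfl fun a _ => ?_
      ring
    rw [Finset.sum_congr rfl fun ε _ => h1 ε, ← Finset.mul_sum, Finset.sum_comm]
    have hcard' : Fintype.card (Fin (k / 2) × Fin 2) = k := by rw [hk2]; exact hcard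
    rw [Finset.sum_congr rfl fun a _ => (Finset.mul_sum _ _ _).symm,
      PO2L.main_sum k hcard' (fun a : Fin (k / 2) × Fin 2 → Fin k => ∏ l, C (a (l, 0)) (a (l, 1))),
      wick]
    ring
  · have hgm : ∀ σ : ℝ, gm k σ = 0 := by
      intro σ
      rw [gm, if_neg (Nat.not_even_iff_odd.2 hk)]
    have hemp : IsEmpty ((Fin (k / 2) × Fin 2) ≃ Fin k) := by
      refine ⟨fun e => ?_⟩
      have h1 := Fintype.card_congr e
      rw [Fintype.card_prod, Fintype.card_fin, Fintype.card_fin, Fintype.card_fin] at h1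
      obtain ⟨m, hm⟩ := hk
      omega
    have hw : wick C = 0 := by
      rw [wick, Fintype.sum_empty, mul_zero]
    rw [hw, mul_zero]
    refine Finset.sum_eq_zero fun ε _ => ?_
    rw [hgm, mul_zero]

end Pool.Agent.H203.ME
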