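import Pool.Agent.H203.ME.KPT
import Pool.Agent.H203.ME.PT
import Pool.Agent.H203.ME.BMB
import Pool.Agent.H203.ME.NCL
import Pool.Agent.H203.ME.FAR
import Pool.Agent.H203.ME.DEC
import Pool.Agent.H203.ME.CVR
import Pool.Agent.H203.ME.WIN5
import Pool.Agent.H203.ME.EDG
import Pool.Agent.H203.ME.BMX
import Pool.Agent.H203.ME.ONE
import Pool.Agent.H203.ME.PO1
import Pool.Agent.H203.ME.PO2
import Pool.Agent.H203.ME.FIN6

set_option autoImplicit false

open Complex Filter Topology Set MeasureTheory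

namespace Pool.Agent.H203.ME

theorem p_DEC : S_DEC := t_DEC t_KPT t_PT

theorem p_FAR : S_FAR := t_FAR t_NCL

theorem p_WIN5 : S_WIN := t_WIN5 t_CVR p_DEC t_BMB p_FAR t_NCL

theorem p_BMX : S_BMX := t_BMX p_DEC t_BMB p_WIN5 p_FAR t_EDG

end Pool.Agent.H203.ME
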