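import Pool.Agent.H203.ME.Defs

set_option autoImplicit false

open Complex Filter Topology Set MeasureTheory

namespace Pool.Agent.H203.ME

namespace VARL

theorem hcs {F : ℝ → ℝ} (h : ∀ x : ℝ, 1 ≤ |x| → F x = 0) : HasCompactSupport F := by
  refine HasCompactSupport.intro (isCompact_Icc (a := (-1 : ℝ)) (b := 1)) (fun x hx => h x ?_)
  by_contra h1
  push Not at h1
  exact hx ⟨(abs_lt.1 h1).1.le, (abs_lt.1 h1).2.le⟩

theorem nrm_exp (x : ℝ) : ‖cexp (-(((x : ℝ) : ℂ) * I))‖ = 1 := by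
  rw [← neg_mul, ← Complex.ofReal_neg]
  exact Complex.norm_exp_ofReal_mul_I _

theorem int_mul {F : ℝ → ℝ} (hc : Continuous F) (hs : HasCompactSupport F) (g : ℝ → ℂ) (hg : Continuous g) :
    Integrable (fun s : ℝ => (F s : ℂ) * g s) := by
  apply Continuous.integrable_of_hasCompactSupport
  · exact (Complex.continuous_ofReal.comp hc).mul hg
  · have h1 : HasCompactSupport (fun s : ℝ => (F s : ℂ)) := hs.comp_left (g := fun x : ℝ => (x : ℂ)) (by simp)
    exact h1.mul_right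

theorem cont_e (ξ : ℝ) : Continuous (fun s : ℝ => cexp (-(((ξ * s : ℝ) : ℂ) * I))) := by fun_prop

theorem le_l1 {F : ℝ → ℝ} (ξ : ℝ) : ‖FF F ξ‖ ≤ ∫ x : ℝ, |F x| := by
  unfold FF
  refine (norm_integral_le_integral_norm _).trans (le_of_eq ?_)
  congr 1
  funext s
  rw [norm_mul, nrm_exp, mul_one, Complex.norm_real, Real.norm_eq_abs]

/-- transform of the derivative -/
theorem FF_der {F : ℝ → ℝ} (hc : ContDiff ℝ 1 F) (hs : HasCompactSupport F) (ξ : ℝ) :
    FF (deriv F) ξ = I * ξ * FF F ξ := by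
  have hd : Continuous (deriv F) := hc.continuous_deriv le_rfl
  have hds : HasCompactSupport (deriv F) := hs.deriv
  have h1 := integral_mul_deriv_eq_deriv_mul_of_integrable (A := ℂ)
    (u := fun s : ℝ => (F s : ℂ)) (v := fun s : ℝ => cexp (-(((ξ * s : ℝ) : ℂ) * I)))
    (u' := fun s : ℝ => ((deriv F s : ℝ) : ℂ))
    (v' := fun s : ℝ => cexp (-(((ξ * s : ℝ) : ℂ) * I)) * (-((ξ : ℂ) * I)))
    (fun x _ => ((hc.differentiable one_ne_zero x).hasDerivAt).ofReal_comp) (fun x _ => by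
      have h2 : HasDerivAt (fun s : ℝ => -(((ξ * s : ℝ) : ℂ) * I)) (-((ξ : ℂ) * I)) x := by
        have h3 : HasDerivAt (fun s : ℝ => ((ξ * s : ℝ) : ℂ)) (ξ : ℂ) x := by
          have := ((hasDerivAt_id x).const_mul ξ).ofReal_comp
          simpa using this
        exact (h3.mul_const I).neg
      exact h2.cexp)
    (int_mul hc.continuous hs _ ((cont_e ξ).mul continuous_const))
    (int_mul hd hds _ (cont_e ξ))
    (int_mul hc.continuous hs _ (cont_e ξ))
  have h2 : FF (deriv F) ξ = ∫ s : ℝ, ((deriv F s : ℝ) : ℂ) * cexp (-(((ξ * s : ℝ) : ℂ) * I)) := rfl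
  rw [h2]
  have h3 : (∫ s : ℝ, (F s : ℂ) * (cexp (-(((ξ * s : ℝ) : ℂ) * I)) * (-((ξ : ℂ) * I)))) =
      (-((ξ : ℂ) * I)) * FF F ξ := by
    rw [FF, ← integral_const_mul]
    congr 1
    funext s
    ring
  have h4 : (∫ s : ℝ, ((deriv F s : ℝ) : ℂ) * cexp (-(((ξ * s : ℝ) : ℂ) * I))) =
      -((-((ξ : ℂ) * I)) * FF F ξ) := by
    rw [← h3]
    linear_combination h1
  rw [h4]
  ring

theorem C2c_mul {F : ℝ → ℝ} (hF : C2c F) : C2c (fun s => s * F s) :=
  ⟨contDiff_id.mul hF.cd, fun x hx => by simp [hF.supp x hx]⟩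

theorem FF_hasDeriv {F : ℝ → ℝ} (hc : Continuous F) (hs : HasCompactSupport F) (ξ : ℝ) :
    HasDerivAt (FF F) (-I * FF (fun s => s * F s) ξ) ξ := by
  have h0 : HasCompactSupport (fun s => s * F s) := hs.mul_left
  have h1 := hasDerivAt_integral_of_dominated_loc_of_deriv_le (μ := volume) (𝕜 := ℝ)
    (F := fun (ξ : ℝ) (s : ℝ) => (F s : ℂ) * cexp (-(((ξ * s : ℝ) : ℂ) * I)))
    (F' := fun (ξ : ℝ) (s : ℝ) => (F s : ℂ) * (cexp (-(((ξ * s : ℝ) : ℂ) * I)) * (-((s : ℂ) * I))))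
    (bound := fun s => ‖((s * F s : ℝ) : ℂ) * 1‖) (x₀ := ξ) (s := univ) univ_mem
    (Eventually.of_forall fun x => (int_mul hc hs _ (cont_e x)).aestronglyMeasurable)
    (int_mul hc hs _ (cont_e ξ))
    ((int_mul hc hs _ ((cont_e ξ).mul (by fun_prop))).aestronglyMeasurable)
    (Eventually.of_forall fun s x _ => by
      rw [norm_mul, norm_mul, nrm_exp, one_mul, norm_neg, norm_mul, Complex.norm_I, mul_one, mul_one,
        Complex.norm_real, Complex.norm_real, Complex.norm_real, norm_mul, mul_comm])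
    ((int_mul (by fun_prop) h0 (fun _ => 1) continuous_const).norm)
    (Eventually.of_forall fun s x _ => by
      have h2 : HasDerivAt (fun ξ : ℝ => -(((ξ * s : ℝ) : ℂ) * I)) (-((s : ℂ) * I)) x := by
        have h3 : HasDerivAt (fun ξ : ℝ => ((ξ * s : ℝ) : ℂ)) (s : ℂ) x := by
          have := ((hasDerivAt_id x).mul_const s).ofReal_comp
          simpa using this
        exact (h3.mul_const I).neg
      exact (h2.cexp).const_mul _)
  have h2 := h1.2
  have h3 : (∫ s : ℝ, (F s : ℂ) * (cexp (-(((ξ * s : ℝ) : ℂ) * I)) * (-((s : ℂ) * I)))) =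
      -I * FF (fun s => s * F s) ξ := by
    rw [FF, ← integral_const_mul]
    congr 1
    funext s
    push_cast
    ring
  rw [h3] at h2
  exact h2

theorem FF_cont {F : ℝ → ℝ} (hc : Continuous F) (hs : HasCompactSupport F) : Continuous (FF F) :=
  continuous_iff_continuousAt.2 fun ξ => (FF_hasDeriv hc hs ξ).continuousAt

end VARL

theorem FF_le {F : ℝ → ℝ} (_hF : C2c F) (ξ : ℝ) : ‖FF F ξ‖ ≤ ∫ x : ℝ, |F x| := VARL.le_l1 ξ

theorem FF_le2 {F : ℝ → ℝ} (hF : C2c F) (ξ : ℝ) (hξ : ξ ≠ 0) :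
    ‖FF F ξ‖ ≤ (∫ x : ℝ, |deriv (deriv F) x|) / ξ ^ 2 := by
  have hs := VARL.hcs hF.supp
  have h1 : ContDiff ℝ 1 F := hF.cd.of_le (by norm_num)
  have h2 : ContDiff ℝ 1 (deriv F) := by
    have := hF.cd
    rw [show (2 : WithTop ℕ∞) = 1 + 1 by norm_num] at this
    exact (contDiff_succ_iff_deriv.1 this).2.2
  have h3 := VARL.FF_der h1 hs ξ
  have h4 := VARL.FF_der h2 hs.deriv ξ
  have h5 : FF (deriv (deriv F)) ξ = -(ξ : ℂ) ^ 2 * FF F ξ := by
    rw [h4, h3]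
    linear_combination ((ξ : ℂ) ^ 2 * FF F ξ) * I_sq
  have h6 : ‖FF (deriv (deriv F)) ξ‖ = ξ ^ 2 * ‖FF F ξ‖ := by
    rw [h5, norm_mul, norm_neg, norm_pow, Complex.norm_real, Real.norm_eq_abs, sq_abs]
  have h7 : ‖FF (deriv (deriv F)) ξ‖ ≤ ∫ x : ℝ, |deriv (deriv F) x| := VARL.le_l1 ξ
  rw [h6] at h7
  rw [le_div_iff₀ (by positivity)]
  linarith

theorem FF_hasDerivAt {F : ℝ → ℝ} (hF : C2c F) (ξ : ℝ) :
    HasDerivAt (FF F) (-I * FF (fun s => s * F s) ξ) ξ :=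
  VARL.FF_hasDeriv hF.cd.continuous (VARL.hcs hF.supp) ξ

theorem FF_continuous {F : ℝ → ℝ} (hF : C2c F) : Continuous (FF F) :=
  VARL.FF_cont hF.cd.continuous (VARL.hcs hF.supp)

theorem FF_deriv {F : ℝ → ℝ} (hF : C2c F) : deriv (FF F) = fun ξ => -I * FF (fun s => s * F s) ξ :=
  funext fun ξ => (FF_hasDerivAt hF ξ).deriv

theorem FF_contDiff {F : ℝ → ℝ} (hF : C2c F) : ContDiff ℝ 1 (FF F) := by
  rw [contDiff_one_iff_deriv]
  refine ⟨fun ξ => (FF_hasDerivAt hF ξ).differentiableAt, ?_⟩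
  rw [FF_deriv hF]
  exact continuous_const.mul (FF_continuous (VARL.C2c_mul hF))

namespace VARL

open ArithmeticFunction

theorem abs_sub_le {φ φ' : ℝ → ℝ} (hd : ∀ x, HasDerivAt φ (φ' x) x) (hc : Continuous φ') {a x b : ℝ}
    (hax : a ≤ x) (hxb : x ≤ b) : |φ b - φ x| ≤ ∫ y in a..b, |φ' y| := by
  have h1 : ∫ y in x..b, φ' y = φ b - φ x :=
    intervalIntegral.integral_eq_sub_of_hasDerivAt (fun y _ => hd y) (hc.intervalIntegrable _ _)
  rw [← h1]
  have h2 : |∫ y in x..b, φ' y| ≤ ∫ y in x..b, |φ' y| := intervalIntegral.abs_integral_le_integral_abs hxb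
  have h3 : (∫ y in a..x, |φ' y|) + (∫ y in x..b, |φ' y|) = ∫ y in a..b, |φ' y| :=
    intervalIntegral.integral_add_adjacent_intervals (hc.abs.intervalIntegrable _ _) (hc.abs.intervalIntegrable _ _)
  have h4 : 0 ≤ ∫ y in a..x, |φ' y| := intervalIntegral.integral_nonneg hax fun y _ => abs_nonneg _
  linarith

theorem mert (n : ℕ) (hn : 1 ≤ n) : |(∑ k ∈ Finset.Icc 1 n, vonMangoldt k / k) - Real.log n| ≤ 6 := by
  have h1 := H370.nt_mertens_lower n hn
  have h2 := H370.nt_mertens_upper n hn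
  rw [abs_le]
  constructor <;> linarith

theorem log_step (n : ℕ) (hn : 1 ≤ n) : Real.log ((n + 1 : ℕ) : ℝ) - Real.log n ≤ 1 := by
  have hn1' : (1 : ℝ) ≤ n := by exact_mod_cast hn
  rw [← Real.log_div (by positivity) (by positivity)]
  have := Real.log_le_sub_one_of_pos (x := ((n + 1 : ℕ) : ℝ) / n) (by positivity)
  have h5 : ((n + 1 : ℕ) : ℝ) / n - 1 = 1 / n := by push_cast; field_simp; ring
  have h6 : (1 : ℝ) / n ≤ 1 := by
    rw [div_le_one (by linarith)]; exact hn1'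
  linarith

theorem log_mono (n : ℕ) (hn : 1 ≤ n) : Real.log n ≤ Real.log ((n + 1 : ℕ) : ℝ) :=
  Real.log_le_log (by exact_mod_cast hn) (by push_cast; linarith)

theorem sum_int {φ φ' : ℝ → ℝ} (hd : ∀ x, HasDerivAt φ (φ' x) x) (hc : Continuous φ') (N : ℕ) (hN : 1 ≤ N) :
    |(∑ n ∈ Finset.Icc 1 N, vonMangoldt n / n * φ (Real.log n)) - (∫ x in (0 : ℝ)..(Real.log N), φ x) -
      ((∑ k ∈ Finset.Icc 1 N, vonMangoldt k / k) - Real.log N) * φ (Real.log N)| ≤
      7 * ∫ x in (0 : ℝ)..(Real.log N), |φ' x| := by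
  have hφ : Continuous φ := continuous_iff_continuousAt.2 fun x => (hd x).continuousAt
  induction N, hN using Nat.le_induction with
  | base => simp
  | succ n hn ih =>
    set a := Real.log (n : ℝ) with ha
    set b := Real.log ((n + 1 : ℕ) : ℝ) with hb
    have hab : a ≤ b := log_mono n hn
    have hab1 : b - a ≤ 1 := log_step n hn
    rw [Finset.sum_Icc_succ_top (by omega), Finset.sum_Icc_succ_top (by omega)]
    rw [← intervalIntegral.integral_add_adjacent_intervals (hφ.intervalIntegrable 0 a) (hφ.intervalIntegrable a b),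
      ← intervalIntegral.integral_add_adjacent_intervals (hc.abs.intervalIntegrable 0 a)
        (hc.abs.intervalIntegrable a b)]
    set S := ∑ n ∈ Finset.Icc 1 n, vonMangoldt n / n * φ (Real.log n) with hS
    set A := ∑ k ∈ Finset.Icc 1 n, vonMangoldt k / k with hA
    set J := ∫ y in a..b, |φ' y| with hJ
    have hE : |A - a| ≤ 6 := mert n hn
    have h1 : |φ b - φ a| ≤ J := abs_sub_le hd hc le_rfl hab
    have h2 : |(b - a) * φ b - ∫ x in a..b, φ x| ≤ J := by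
      have h3 : (b - a) * φ b - ∫ x in a..b, φ x = ∫ x in a..b, (φ b - φ x) := by
        rw [intervalIntegral.integral_sub intervalIntegrable_const (hφ.intervalIntegrable a b)]
        simp
      rw [h3]
      have h4 := intervalIntegral.norm_integral_le_of_norm_le_const (a := a) (b := b) (f := fun x => φ b - φ x)
        (C := J) (fun x hx => by
          rw [uIoc_of_le hab] at hx
          exact abs_sub_le hd hc hx.1.le hx.2)
      rw [Real.norm_eq_abs] at h4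
      refine h4.trans ?_
      rw [abs_of_nonneg (by linarith)]
      have h5 : 0 ≤ J := (abs_nonneg _).trans h1
      nlinarith
    have h3 : |(A - a) * (φ b - φ a)| ≤ 6 * J := by
      rw [abs_mul]
      exact mul_le_mul hE h1 (abs_nonneg _) (by norm_num)
    have h4 : S + vonMangoldt (n + 1) / ((n + 1 : ℕ) : ℝ) * φ b - ((∫ x in (0 : ℝ)..a, φ x) + ∫ x in a..b, φ x) -
        (A + vonMangoldt (n + 1) / ((n + 1 : ℕ) : ℝ) - b) * φ b =
        (S - (∫ x in (0 : ℝ)..a, φ x) - (A - a) * φ a) + (-((A - a) * (φ b - φ a)) +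
          ((b - a) * φ b - ∫ x in a..b, φ x)) := by ring
    rw [h4]
    refine (abs_add_le _ _).trans ?_
    have h5 : |(-((A - a) * (φ b - φ a)) + ((b - a) * φ b - ∫ x in a..b, φ x))| ≤ 6 * J + J := by
      refine (abs_add_le _ _).trans ?_
      rw [abs_neg]
      exact add_le_add h3 h2
    linarith

noncomputable def fA (n : ℕ) : ℝ := 16 * (1 / (n : ℝ) ^ (3 / 2 : ℝ))

noncomputable def fB (n : ℕ) : ℝ := 4 * ((n : ℝ) ^ 1 * (1 / 2 : ℝ) ^ n)

/-- the prime powers -/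
noncomputable def gg (q : ℕ × ℕ) : ℝ := fA q.1 * fB q.2

theorem fA_nonneg (n : ℕ) : 0 ≤ fA n := by unfold fA; positivity

theorem fB_nonneg (n : ℕ) : 0 ≤ fB n := by unfold fB; positivity

theorem gg_nonneg (q : ℕ × ℕ) : 0 ≤ gg q := mul_nonneg (fA_nonneg _) (fB_nonneg _)

theorem fA_summable : Summable fA :=
  (Real.summable_one_div_nat_rpow.2 (by norm_num)).mul_left _

theorem fB_summable : Summable fB := by
  have h1 : ‖(1 / 2 : ℝ)‖ < 1 := by norm_num
  have h2 : Summable (fun n : ℕ => (n : ℝ) ^ 1 * (1 / 2 : ℝ) ^ n) := summable_pow_mul_geometric_of_norm_lt_one 1 h1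
  exact h2.mul_left 4

theorem gg_summable : Summable gg :=
  fA_summable.mul_of_nonneg fB_summable fA_nonneg fB_nonneg

theorem gg_bound (p k : ℕ) (hp : p.Prime) (hk : 2 ≤ k) :
    vonMangoldt (p ^ k) / ((p ^ k : ℕ) : ℝ) * Real.log ((p ^ k : ℕ) : ℝ) ≤ gg (p, k) := by
  have hp0 : (0 : ℝ) < p := by exact_mod_cast hp.pos
  have hp2 : (2 : ℝ) ≤ p := by exact_mod_cast hp.two_le
  have hlog : 0 ≤ Real.log p := Real.log_nonneg (by linarith)
  rw [vonMangoldt_apply_pow (by omega), vonMangoldt_apply_prime hp]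
  push_cast
  rw [Real.log_pow]
  unfold gg fA fB
  simp only [pow_one]
  have h2 : Real.log p ≤ 4 * (p : ℝ) ^ (1 / 4 : ℝ) := by
    have := Real.log_le_rpow_div hp0.le (ε := 1 / 4) (by norm_num)
    linarith
  have h3 : (Real.log p) ^ 2 ≤ 16 * (p : ℝ) ^ (1 / 2 : ℝ) := by
    calc (Real.log p) ^ 2 ≤ (4 * (p : ℝ) ^ (1 / 4 : ℝ)) ^ 2 := pow_le_pow_left₀ hlog h2 2
      _ = 16 * ((p : ℝ) ^ (1 / 4 : ℝ)) ^ 2 := by ring
      _ = 16 * (p : ℝ) ^ (1 / 2 : ℝ) := by
          rw [← Real.rpow_natCast, ← Real.rpow_mul hp0.le]; norm_num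
  have h4 : 1 / (p : ℝ) ^ k ≤ 4 * (1 / 2) ^ k / (p : ℝ) ^ 2 := by
    obtain ⟨m, rfl⟩ := Nat.exists_eq_add_of_le hk
    have h5 : (2 : ℝ) ^ m ≤ (p : ℝ) ^ m := pow_le_pow_left₀ (by norm_num) hp2 m
    have h6 : 4 * (1 / 2 : ℝ) ^ (2 + m) / (p : ℝ) ^ 2 = 1 / ((p : ℝ) ^ 2 * 2 ^ m) := by
      rw [pow_add, one_div_pow, one_div_pow]
      field_simp
      norm_num
    rw [h6, pow_add]
    apply one_div_le_one_div_of_le (by positivity)
    exact mul_le_mul_of_nonneg_left h5 (by positivity)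
  have h7 : (p : ℝ) ^ (3 / 2 : ℝ) * (p : ℝ) ^ (1 / 2 : ℝ) = (p : ℝ) ^ 2 := by
    rw [← Real.rpow_add hp0]; norm_num
  have h8 : 0 < (p : ℝ) ^ (3 / 2 : ℝ) := by positivity
  have h9 : 0 < (p : ℝ) ^ (1 / 2 : ℝ) := by positivity
  calc Real.log p / (p : ℝ) ^ k * (k * Real.log p) = k * (Real.log p) ^ 2 * (1 / (p : ℝ) ^ k) := by ring
    _ ≤ k * (16 * (p : ℝ) ^ (1 / 2 : ℝ)) * (4 * (1 / 2) ^ k / (p : ℝ) ^ 2) := by gcongr
    _ = 16 * (1 / (p : ℝ) ^ (3 / 2 : ℝ)) * (4 * ((k : ℝ) * (1 / 2) ^ k)) := by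
        rw [← h7]
        field_simp

theorem pp : ∃ C : ℝ, 0 < C ∧ ∀ N : ℕ, ∑ n ∈ (Finset.Icc 1 N).filter (fun n => ¬ n.Prime),
    vonMangoldt n / n * Real.log n ≤ C := by
  classical
  have h0 : 0 ≤ ∑' q, gg q := tsum_nonneg gg_nonneg
  refine ⟨(∑' q, gg q) + 1, by linarith, fun N => ?_⟩
  set S := (Finset.Icc 1 N).filter (fun n => ¬ n.Prime) with hS
  set S' := S.filter (fun n => IsPrimePow n) with hS'
  have h1 : ∑ n ∈ S, vonMangoldt n / n * Real.log n = ∑ n ∈ S', vonMangoldt n / n * Real.log n := by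
    rw [hS', Finset.sum_filter (s := S)]
    refine Finset.sum_congr rfl fun n _ => ?_
    split_ifs with h
    · rfl
    · rw [vonMangoldt_apply, if_neg h]; simp
  set i : ℕ → ℕ × ℕ := fun n => (n.minFac, n.factorization n.minFac) with hi
  have key : ∀ n ∈ S', n.minFac.Prime ∧ 2 ≤ n.factorization n.minFac ∧
      n.minFac ^ (n.factorization n.minFac) = n := by
    intro n hn
    rw [hS', Finset.mem_filter, hS, Finset.mem_filter] at hn
    obtain ⟨⟨h2, h3⟩, h4⟩ := hn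
    have h5 : n ≠ 1 := fun h => by subst h; exact not_isPrimePow_one h4
    have h6 : n.minFac ^ (n.factorization n.minFac) = n := h4.minFac_pow_factorization_eq
    refine ⟨Nat.minFac_prime h5, ?_, h6⟩
    by_contra h7
    have h8 : n.factorization n.minFac = 0 ∨ n.factorization n.minFac = 1 := by omega
    rcases h8 with h8 | h8
    · rw [h8, pow_zero] at h6
      exact h5 h6.symm
    · rw [h8, pow_one] at h6
      apply h3
      rw [← h6]
      exact Nat.minFac_prime h5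
  have hinj : Set.InjOn i S' := by
    intro a ha b hb hab
    obtain ⟨_, _, h2⟩ := key a ha
    obtain ⟨_, _, h3⟩ := key b hb
    simp only [hi, Prod.mk.injEq] at hab
    rw [← h2, ← h3, hab.2, hab.1]
  calc ∑ n ∈ S, vonMangoldt n / n * Real.log n = ∑ n ∈ S', vonMangoldt n / n * Real.log n := h1
    _ ≤ ∑ n ∈ S', gg (i n) := by
        refine Finset.sum_le_sum fun n hn => ?_
        obtain ⟨h2, h3, h4⟩ := key n hn
        have h5 := gg_bound _ _ h2 h3
        rw [h4] at h5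
        exact h5
    _ = ∑ q ∈ S'.image i, gg q := (Finset.sum_image hinj).symm
    _ ≤ ∑' q, gg q := gg_summable.sum_le_tsum _ (fun q _ => gg_nonneg q)
    _ ≤ _ := by linarith

/-- integrability -/
theorem io {f : ℝ → ℝ} (hf : Continuous f) (C : ℝ) (h : ∀ x : ℝ, 1 ≤ x → |f x| ≤ C / x ^ 2) :
    IntegrableOn f (Ioi 0) := by
  rw [← Ioc_union_Ioi_eq_Ioi (zero_le_one' ℝ)]
  refine IntegrableOn.union (hf.integrableOn_Ioc) ?_
  have h1 : IntegrableOn (fun x : ℝ => C * x ^ (-2 : ℝ)) (Ioi 1) :=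
    (integrableOn_Ioi_rpow_of_lt (by norm_num) zero_lt_one).const_mul C
  refine Integrable.mono' h1 hf.aestronglyMeasurable ?_
  refine (ae_restrict_iff' measurableSet_Ioi).2 (Eventually.of_forall fun x hx => ?_)
  have hx1 : (1 : ℝ) < x := hx
  have h2 := h x hx1.le
  rw [Real.norm_eq_abs]
  refine h2.trans (le_of_eq ?_)
  rw [Real.rpow_neg (by linarith), div_eq_mul_inv]
  norm_num

/-- the integrand and its derivative -/
noncomputable def ph (F : ℝ → ℝ) (x : ℝ) : ℝ := x * ‖FF F x‖ ^ 2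

noncomputable def ph' (F : ℝ → ℝ) (x : ℝ) : ℝ :=
  ‖FF F x‖ ^ 2 + x * (2 * inner ℝ (FF F x) (deriv (FF F) x))

theorem ph_deriv {F : ℝ → ℝ} (hF : C2c F) (x : ℝ) : HasDerivAt (ph F) (ph' F x) x := by
  have h1 : HasDerivAt (FF F) (deriv (FF F) x) x := (FF_hasDerivAt hF x).differentiableAt.hasDerivAt
  have h2 := (hasDerivAt_id x).mul h1.norm_sq
  simp only [id_eq, one_mul] at h2
  exact h2

theorem dFF_cont {F : ℝ → ℝ} (hF : C2c F) : Continuous (deriv (FF F)) := by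
  rw [FF_deriv hF]
  exact continuous_const.mul (FF_continuous (VARL.C2c_mul hF))

theorem ph'_cont {F : ℝ → ℝ} (hF : C2c F) : Continuous (ph' F) := by
  have h1 := FF_continuous hF
  have h2 := dFF_cont hF
  unfold ph'
  fun_prop

theorem ph_cont {F : ℝ → ℝ} (hF : C2c F) : Continuous (ph F) := by
  have h1 := FF_continuous hF
  unfold ph
  fun_prop

theorem ph'_le {F : ℝ → ℝ} (x : ℝ) (hx : 0 ≤ x) :
    |ph' F x| ≤ ‖FF F x‖ ^ 2 + 2 * x * ‖FF F x‖ * ‖deriv (FF F) x‖ := by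
  unfold ph'
  refine (abs_add_le _ _).trans ?_
  rw [abs_of_nonneg (by positivity : (0 : ℝ) ≤ ‖FF F x‖ ^ 2), abs_mul, abs_mul, abs_of_nonneg hx, abs_two]
  have h1 := abs_real_inner_le_norm (FF F x) (deriv (FF F) x)
  have h2 : x * (2 * |inner ℝ (FF F x) (deriv (FF F) x)|) ≤ x * (2 * (‖FF F x‖ * ‖deriv (FF F) x‖)) := by gcongr
  linarith

theorem tv_int {F : ℝ → ℝ} (hF : C2c F) :
    IntegrableOn (fun x => ‖FF F x‖ ^ 2 + 2 * x * ‖FF F x‖ * ‖deriv (FF F) x‖) (Ioi 0) := by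
  have h1 := FF_continuous hF
  have h2 := dFF_cont hF
  set a := ∫ x : ℝ, |F x| with ha
  set b := ∫ x : ℝ, |deriv (deriv F) x| with hb
  set G : ℝ → ℝ := fun s => s * F s with hG
  set b' := ∫ x : ℝ, |deriv (deriv G) x| with hb'
  have ha0 : 0 ≤ a := integral_nonneg fun _ => abs_nonneg _
  have hb0 : 0 ≤ b := integral_nonneg fun _ => abs_nonneg _
  have hb'0 : 0 ≤ b' := integral_nonneg fun _ => abs_nonneg _
  refine io (by fun_prop) (a * b + 2 * b * b') (fun x hx => ?_)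
  have hx0 : (0 : ℝ) < x := by linarith
  have h3 : ‖FF F x‖ ≤ a := FF_le hF x
  have h4 : ‖FF F x‖ ≤ b / x ^ 2 := FF_le2 hF x hx0.ne'
  have h5 : ‖deriv (FF F) x‖ ≤ b' / x ^ 2 := by
    rw [FF_deriv hF]
    simp only [norm_mul, norm_neg, Complex.norm_I, one_mul]
    exact FF_le2 (C2c_mul hF) x hx0.ne'
  rw [abs_of_nonneg (by positivity)]
  have h6 : ‖FF F x‖ ^ 2 ≤ a * (b / x ^ 2) := by
    rw [sq]; exact mul_le_mul h3 h4 (norm_nonneg _) ha0
  have h7 : 2 * x * ‖FF F x‖ * ‖deriv (FF F) x‖ ≤ 2 * x * (b / x ^ 2) * (b' / x ^ 2) := by gcongr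
  have h8 : 2 * x * (b / x ^ 2) * (b' / x ^ 2) = (2 * b * b' / x ^ 2) * (1 / x) := by
    field_simp
  have h9 : (2 * b * b' / x ^ 2) * (1 / x) ≤ (2 * b * b' / x ^ 2) * 1 := by
    apply mul_le_mul_of_nonneg_left _ (by positivity)
    rw [div_le_one hx0]; exact hx
  have h10 : (a * b + 2 * b * b') / x ^ 2 = a * (b / x ^ 2) + 2 * b * b' / x ^ 2 := by ring
  rw [h10]
  linarith

theorem ph_le {F : ℝ → ℝ} (hF : C2c F) (x : ℝ) (hx : 0 < x) :
    ph F x ≤ (∫ x : ℝ, |deriv (deriv F) x|) ^ 2 * x ^ (-3 : ℝ) := by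
  have h4 := FF_le2 hF x hx.ne'
  set b := ∫ x : ℝ, |deriv (deriv F) x| with hb
  have h1 : x ^ (-3 : ℝ) = 1 / x ^ 3 := by
    rw [Real.rpow_neg hx.le, one_div]
    norm_num
  rw [h1]
  unfold ph
  calc x * ‖FF F x‖ ^ 2 ≤ x * (b / x ^ 2) ^ 2 := by gcongr
    _ = b ^ 2 * (1 / x ^ 3) := by field_simp

theorem ph_int {F : ℝ → ℝ} (hF : C2c F) : IntegrableOn (ph F) (Ioi 0) := by
  refine io (ph_cont hF) ((∫ x : ℝ, |deriv (deriv F) x|) ^ 2) (fun x hx => ?_)
  have hx0 : (0 : ℝ) < x := by linarith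
  have h1 := ph_le hF x hx0
  rw [abs_of_nonneg (by unfold ph; positivity)]
  refine h1.trans ?_
  have h2 : x ^ (-3 : ℝ) ≤ 1 / x ^ 2 := by
    rw [Real.rpow_neg hx0.le, one_div]
    apply inv_anti₀ (by positivity)
    have : x ^ (3 : ℝ) = x ^ 3 := by norm_num
    rw [this]
    exact pow_le_pow_right₀ hx (by norm_num)
  calc _ ≤ (∫ x : ℝ, |deriv (deriv F) x|) ^ 2 * (1 / x ^ 2) := mul_le_mul_of_nonneg_left h2 (sq_nonneg _)
    _ = _ := by ring

theorem ph_tail {F : ℝ → ℝ} (hF : C2c F) (c : ℝ) (hc : 0 < c) :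
    ∫ x in Ioi c, ph F x ≤ ((∫ x : ℝ, |deriv (deriv F) x|) / c) ^ 2 := by
  set b := ∫ x : ℝ, |deriv (deriv F) x| with hb
  have h1 : IntegrableOn (fun x : ℝ => b ^ 2 * x ^ (-3 : ℝ)) (Ioi c) :=
    (integrableOn_Ioi_rpow_of_lt (by norm_num) hc).const_mul _
  have h2 : ∫ x in Ioi c, ph F x ≤ ∫ x in Ioi c, b ^ 2 * x ^ (-3 : ℝ) := by
    refine setIntegral_mono_on ((ph_int hF).mono_set (Ioi_subset_Ioi hc.le)) h1 measurableSet_Ioi ?_
    intro x hx
    exact ph_le hF x (hc.trans hx)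
  refine h2.trans ?_
  rw [integral_const_mul, integral_Ioi_rpow_of_lt (by norm_num) hc]
  have h3 : c ^ (-3 + 1 : ℝ) = 1 / c ^ 2 := by
    rw [show (-3 + 1 : ℝ) = -(2 : ℝ) by norm_num, Real.rpow_neg hc.le, one_div]
    norm_num
  rw [h3, div_pow]
  have h4 : 0 ≤ b ^ 2 / c ^ 2 := by positivity
  have h5 : b ^ 2 * (-(1 / c ^ 2) / (-3 + 1)) = b ^ 2 / c ^ 2 / 2 := by ring
  rw [h5]
  linarith

end VARL

open ArithmeticFunction in
theorem t_VAR : S_VAR := by
  obtain ⟨C1, hC1, hpp⟩ := VARL.pp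
  refine ⟨13 + C1 + 1, by linarith, fun η V L F hη hL hA N hN => ?_⟩
  have hF := hA.c2
  have hN1 : 1 ≤ N := by omega
  have hN3 : (3 : ℝ) ≤ N := by exact_mod_cast hN
  have hlog : 0 < Real.log N := Real.log_pos (by linarith)
  have hl1 : ∀ x, ‖FF F x‖ ≤ η := fun x => (FF_le hF x).trans hA.l1
  set c := Real.log (N : ℝ) with hc
  -- the total variation
  have htv : ∫ x in (0 : ℝ)..c, |VARL.ph' F x| ≤ η := by
    refine le_trans ?_ hA.tv
    rw [intervalIntegral.integral_of_le hlog.le]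
    refine (setIntegral_mono_on (g := fun x => ‖FF F x‖ ^ 2 + 2 * x * ‖FF F x‖ * ‖deriv (FF F) x‖)
      (VARL.ph'_cont hF).abs.integrableOn_Ioc ((VARL.tv_int hF).mono_set Ioc_subset_Ioi_self)
      measurableSet_Ioc (fun x hx => VARL.ph'_le x hx.1.le)).trans ?_
    refine setIntegral_mono_set (VARL.tv_int hF) ?_ (Ioc_subset_Ioi_self.eventuallyLE)
    refine (ae_restrict_iff' measurableSet_Ioi).2 (Eventually.of_forall fun x hx => ?_)
    have hx0 : (0 : ℝ) < x := hx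
    simp only [Pi.zero_apply]
    positivity
  have hphN : |VARL.ph F c| ≤ η := by
    have h1 := VARL.abs_sub_le (VARL.ph_deriv hF) (VARL.ph'_cont hF) (le_refl 0) hlog.le
    have h2 : VARL.ph F 0 = 0 := by simp [VARL.ph]
    rw [h2, sub_zero] at h1
    exact h1.trans htv
  have h1 := VARL.sum_int (VARL.ph_deriv hF) (VARL.ph'_cont hF) N hN1
  have h2 := VARL.mert N hN1
  have h3 : |((∑ k ∈ Finset.Icc 1 N, vonMangoldt k / k) - Real.log N) * VARL.ph F (Real.log N)| ≤ 6 * η := by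
    rw [abs_mul]
    exact mul_le_mul h2 hphN (abs_nonneg _) (by norm_num)
  -- split off the primes
  have h4 : ∑ n ∈ Finset.Icc 1 N, vonMangoldt n / n * VARL.ph F (Real.log n) =
      (∑ p ∈ (Finset.Icc 1 N).filter Nat.Prime, (Real.log p) ^ 2 / p * ‖FF F (Real.log p)‖ ^ 2) +
      ∑ n ∈ (Finset.Icc 1 N).filter (fun n => ¬ n.Prime), vonMangoldt n / n * VARL.ph F (Real.log n) := by
    rw [← Finset.sum_filter_add_sum_filter_not (Finset.Icc 1 N) Nat.Prime]
    congr 1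
    refine Finset.sum_congr rfl fun p hp => ?_
    rw [vonMangoldt_apply_prime (Finset.mem_filter.1 hp).2]
    unfold VARL.ph
    ring
  have h5 : 0 ≤ ∑ n ∈ (Finset.Icc 1 N).filter (fun n => ¬ n.Prime), vonMangoldt n / n * VARL.ph F (Real.log n) := by
    refine Finset.sum_nonneg fun n hn => ?_
    have h6 : 0 ≤ vonMangoldt n := vonMangoldt_nonneg
    have h7 : 0 ≤ Real.log n := Real.log_natCast_nonneg n
    unfold VARL.ph
    positivity
  have h6 : ∑ n ∈ (Finset.Icc 1 N).filter (fun n => ¬ n.Prime), vonMangoldt n / n * VARL.ph F (Real.log n) ≤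
      C1 * η ^ 2 := by
    calc _ ≤ ∑ n ∈ (Finset.Icc 1 N).filter (fun n => ¬ n.Prime), (vonMangoldt n / n * Real.log n) * η ^ 2 := by
          refine Finset.sum_le_sum fun n hn => ?_
          have h6 : 0 ≤ vonMangoldt n := vonMangoldt_nonneg
          have h7 : 0 ≤ Real.log n := Real.log_natCast_nonneg n
          unfold VARL.ph
          rw [← mul_assoc]
          have h8 : ‖FF F (Real.log n)‖ ^ 2 ≤ η ^ 2 := pow_le_pow_left₀ (norm_nonneg _) (hl1 _) 2
          exact mul_le_mul_of_nonneg_left h8 (by positivity)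
      _ = (∑ n ∈ (Finset.Icc 1 N).filter (fun n => ¬ n.Prime), (vonMangoldt n / n * Real.log n)) * η ^ 2 := by
          rw [Finset.sum_mul]
      _ ≤ _ := mul_le_mul_of_nonneg_right (hpp N) (sq_nonneg _)
  -- the tail
  have h7 : ∫ ξ in Ioi (0 : ℝ), ξ * ‖FF F ξ‖ ^ 2 = (∫ x in (0 : ℝ)..c, VARL.ph F x) + ∫ x in Ioi c, VARL.ph F x := by
    rw [intervalIntegral.integral_of_le hlog.le, ← setIntegral_union (Ioc_disjoint_Ioi le_rfl) measurableSet_Ioi
      ((VARL.ph_cont hF).integrableOn_Ioc) ((VARL.ph_int hF).mono_set (Ioi_subset_Ioi hlog.le)),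
      Ioc_union_Ioi_eq_Ioi hlog.le]
    rfl
  have h8 : 0 ≤ ∫ x in Ioi c, VARL.ph F x := by
    refine setIntegral_nonneg measurableSet_Ioi fun x hx => ?_
    have hx0 : (0 : ℝ) < x := hlog.trans hx
    unfold VARL.ph
    positivity
  have h9 : ∫ x in Ioi c, VARL.ph F x ≤ (η * L / c) ^ 2 := by
    refine (VARL.ph_tail hF c hlog).trans ?_
    have h10 : 0 ≤ ∫ x : ℝ, |deriv (deriv F) x| := integral_nonneg fun _ => abs_nonneg _
    have := hA.l2
    gcongr
  rw [h7]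
  rw [h4] at h1
  rw [abs_le] at h1 h3 ⊢
  have h10 : 7 * ∫ x in (0 : ℝ)..c, |VARL.ph' F x| ≤ 7 * η := by linarith
  have h11 : 0 ≤ (η * L / c) ^ 2 := sq_nonneg _
  have h12 : 0 ≤ C1 * η := by positivity
  have h13 : 0 ≤ C1 * η ^ 2 := by positivity
  have h14 : 0 ≤ C1 * (η * L / c) ^ 2 := by positivity
  have h15 : 0 ≤ η ^ 2 := by positivity
  constructor <;> nlinarith [h1.1, h1.2, h3.1, h3.2]

end Pool.Agent.H203.ME
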