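import Pool.Agent.H203.ME.Defs2
import Pool.Agent.H203.ME.VAR

set_option autoImplicit false

/-! Admissibility of scaled test functions. -/

open Complex Filter Topology Set MeasureTheory

namespace Pool.Agent.H203.ME

namespace ADML

/-- the transform of a dilated function -/
theorem scale (g : ℝ → ℝ) {h : ℝ} (hh : 0 < h) (ξ : ℝ) :
    FF (fun x => g (x / h)) ξ = (h : ℂ) * FF g (h * ξ) := by
  have h1 := MeasureTheory.Measure.integral_comp_div
    (fun u : ℝ => ((g u : ℝ) : ℂ) * cexp (-(((h * ξ * u : ℝ) : ℂ) * I))) h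
  have h2 : (fun x : ℝ => ((g (x / h) : ℝ) : ℂ) * cexp (-(((h * ξ * (x / h) : ℝ) : ℂ) * I))) =
      fun x : ℝ => ((g (x / h) : ℝ) : ℂ) * cexp (-(((ξ * x : ℝ) : ℂ) * I)) := by
    funext x
    have : h * ξ * (x / h) = ξ * x := by field_simp
    rw [this]
  rw [h2, abs_of_pos hh] at h1
  unfold FF
  rw [h1]
  simp

/-- the transform of a combination of dilated functions -/
theorem comb (k : ℕ) (f : Fin k → ℝ → ℝ) (hc : ∀ j, Continuous (f j)) (hs : ∀ j, HasCompactSupport (f j))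
    (c h : Fin k → ℝ) (hh : ∀ j, 0 < h j) (ξ : ℝ) :
    FF (fun x => ∑ j, c j * f j (x / h j)) ξ = ∑ j, ((c j * h j : ℝ) : ℂ) * FF (f j) (h j * ξ) := by
  have h1 : ∀ j, HasCompactSupport (fun x => f j (x / h j)) := by
    intro j
    have h3 := (hs j).comp_homeomorph (Homeomorph.mulRight₀ (h j)⁻¹ (inv_ne_zero (hh j).ne'))
    have h4 : (f j ∘ (Homeomorph.mulRight₀ (h j)⁻¹ (inv_ne_zero (hh j).ne'))) = fun x => f j (x / h j) := by
      funext x
      simp [div_eq_mul_inv]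
    rw [h4] at h3
    exact h3
  have h2 : ∀ j, Continuous (fun x => f j (x / h j)) := fun j => (hc j).comp (continuous_id.div_const _)
  have h3 : FF (fun x => ∑ j, c j * f j (x / h j)) ξ =
      ∑ j, ∫ s : ℝ, ((c j : ℝ) : ℂ) * (((f j (s / h j) : ℝ) : ℂ) * cexp (-(((ξ * s : ℝ) : ℂ) * I))) := by
    rw [← integral_finsetSum]
    · unfold FF
      congr 1
      funext s
      push_cast
      rw [Finset.sum_mul]
      refine Finset.sum_congr rfl fun j _ => ?_
      ring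
    · intro j _
      exact (VARL.int_mul (h2 j) (h1 j) _ (VARL.cont_e ξ)).const_mul _
  rw [h3]
  refine Finset.sum_congr rfl fun j _ => ?_
  rw [integral_const_mul]
  have h4 := scale (f j) (hh j) ξ
  unfold FF at h4
  rw [h4]
  unfold FF
  push_cast
  ring

/-- decay of the transform -/
theorem decay {g : ℝ → ℝ} (hg : ContDiff ℝ 2 g) (hs : HasCompactSupport g) (u : ℝ) :
    ‖FF g u‖ * (1 + u ^ 2) ≤ (∫ x : ℝ, |g x|) + ∫ x : ℝ, |deriv (deriv g) x| := by
  have h1 : ContDiff ℝ 1 g := hg.of_le (by norm_num)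
  have h2 : ContDiff ℝ 1 (deriv g) := by
    have := hg
    rw [show (2 : WithTop ℕ∞) = 1 + 1 by norm_num] at this
    exact (contDiff_succ_iff_deriv.1 this).2.2
  have h3 := VARL.FF_der h1 hs u
  have h4 := VARL.FF_der h2 hs.deriv u
  have h5 : FF (deriv (deriv g)) u = -(u : ℂ) ^ 2 * FF g u := by
    rw [h4, h3]
    linear_combination ((u : ℂ) ^ 2 * FF g u) * I_sq
  have h6 : ‖FF (deriv (deriv g)) u‖ = u ^ 2 * ‖FF g u‖ := by
    rw [h5, norm_mul, norm_neg, norm_pow, Complex.norm_real, Real.norm_eq_abs, sq_abs]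
  have h7 : ‖FF (deriv (deriv g)) u‖ ≤ ∫ x : ℝ, |deriv (deriv g) x| := VARL.le_l1 u
  have h8 : ‖FF g u‖ ≤ ∫ x : ℝ, |g x| := VARL.le_l1 u
  rw [h6] at h7
  linarith

theorem decay' {g : ℝ → ℝ} (hg : ContDiff ℝ 2 g) (hs : HasCompactSupport g) :
    ∃ D : ℝ, 0 ≤ D ∧ ∀ u : ℝ, ‖FF g u‖ ≤ D * (1 + u ^ 2)⁻¹ := by
  refine ⟨(∫ x : ℝ, |g x|) + ∫ x : ℝ, |deriv (deriv g) x|, ?_, fun u => ?_⟩
  · exact add_nonneg (integral_nonneg fun _ => abs_nonneg _) (integral_nonneg fun _ => abs_nonneg _)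
  · have h1 : (0 : ℝ) < 1 + u ^ 2 := by positivity
    rw [← div_eq_mul_inv, le_div_iff₀ h1]
    exact decay hg hs u

/-- weighted square integrability -/
theorem int_w {g : ℝ → ℝ} (hg : ContDiff ℝ 2 g) (hs : HasCompactSupport g) (w : ℝ → ℝ) (hw : Continuous w)
    (hw1 : ∀ u, |w u| ≤ 1 + u ^ 2) : Integrable (fun u : ℝ => w u * ‖FF g u‖ ^ 2) := by
  obtain ⟨D, hD, h1⟩ := decay' hg hs
  have h2 : Continuous (FF g) := VARL.FF_cont hg.continuous hs
  refine Integrable.mono' (integrable_inv_one_add_sq.const_mul (D ^ 2))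
    ((hw.mul (h2.norm.pow 2)).aestronglyMeasurable) (Eventually.of_forall fun u => ?_)
  have h3 : (0 : ℝ) < 1 + u ^ 2 := by positivity
  have h4 := h1 u
  rw [norm_mul, Real.norm_eq_abs, Real.norm_eq_abs, abs_of_nonneg (by positivity : (0 : ℝ) ≤ ‖FF g u‖ ^ 2)]
  calc |w u| * ‖FF g u‖ ^ 2 ≤ (1 + u ^ 2) * (D * (1 + u ^ 2)⁻¹) ^ 2 := by
        gcongr
        exact hw1 u
    _ = D ^ 2 * (1 + u ^ 2)⁻¹ := by
        field_simp

theorem int_w1 {g : ℝ → ℝ} (hg : ContDiff ℝ 2 g) (hs : HasCompactSupport g) :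
    Integrable (fun u : ℝ => u * ‖FF g u‖ ^ 2) := by
  refine int_w hg hs (fun u => u) continuous_id fun u => ?_
  rw [abs_le]
  constructor <;> nlinarith [sq_nonneg (u - 1), sq_nonneg (u + 1)]

theorem int_w0 {g : ℝ → ℝ} (hg : ContDiff ℝ 2 g) (hs : HasCompactSupport g) :
    Integrable (fun u : ℝ => 2 * ‖FF g u‖ ^ 2) := by
  have h1 := int_w hg hs (fun _ => 1) continuous_const fun u => by
    rw [abs_one]; nlinarith [sq_nonneg u]
  simpa using h1.const_mul 2

theorem int_w2 {g : ℝ → ℝ} (hg : ContDiff ℝ 2 g) (hs : HasCompactSupport g) :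
    Integrable (fun u : ℝ => u ^ 2 * ‖FF g u‖ ^ 2) := by
  refine int_w hg hs (fun u => u ^ 2) (by fun_prop) fun u => ?_
  rw [abs_of_nonneg (sq_nonneg u)]
  linarith

/-- square of a sum -/
theorem sq_sum (k : ℕ) (z : Fin k → ℂ) : ‖∑ j, z j‖ ^ 2 ≤ k * ∑ j, ‖z j‖ ^ 2 := by
  have h1 : ‖∑ j, z j‖ ≤ ∑ j, ‖z j‖ := norm_sum_le _ _
  have h2 : (∑ j, ‖z j‖) ^ 2 ≤ (Finset.univ : Finset (Fin k)).card * ∑ j, ‖z j‖ ^ 2 := sq_sum_le_card_mul_sum_sq
  rw [Finset.card_univ, Fintype.card_fin] at h2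
  exact (pow_le_pow_left₀ (norm_nonneg _) h1 2).trans h2

/-- the common support bound -/
theorem supp (k : ℕ) (f : Fin k → ℝ → ℝ) (hs : ∀ j, HasCompactSupport (f j)) :
    ∃ A : ℝ, 0 ≤ A ∧ ∀ j x, A ≤ |x| → f j x = 0 := by
  have h1 : ∀ j, ∃ A : ℝ, 0 ≤ A ∧ ∀ x, A ≤ |x| → f j x = 0 := by
    intro j
    obtain ⟨R, hR⟩ := (hs j).isCompact.isBounded.subset_ball_lt 0 (0 : ℝ)
    refine ⟨R, hR.1.le, fun x hx => ?_⟩
    by_contra h3
    have h4 : x ∈ tsupport (f j) := subset_tsupport _ h3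
    have h5 := hR.2 h4
    rw [mem_ball_zero_iff, Real.norm_eq_abs] at h5
    linarith
  choose A hA hA2 using h1
  refine ⟨∑ j, A j, Finset.sum_nonneg fun j _ => hA j, fun j x hx => hA2 j x ?_⟩
  exact (Finset.single_le_sum (fun i _ => hA i) (Finset.mem_univ j)).trans hx

/-- the weight functions scaled -/
theorem int_scale (φ : ℝ → ℝ) {h : ℝ} (hh : 0 < h) :
    ∫ ξ in Ioi (0 : ℝ), h * φ (h * ξ) = ∫ u in Ioi (0 : ℝ), φ u := by
  rw [integral_const_mul, MeasureTheory.integral_comp_mul_left_Ioi φ 0 hh]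
  rw [mul_zero, smul_eq_mul, ← mul_assoc, mul_inv_cancel₀ hh.ne', one_mul]

theorem integrable_scale (φ : ℝ → ℝ) {h : ℝ} (hh : 0 < h) (hφ : Integrable φ) :
    Integrable (fun ξ : ℝ => h * φ (h * ξ)) :=
  (hφ.comp_mul_left' hh.ne').const_mul h

theorem int_abs_scale (φ : ℝ → ℝ) {h : ℝ} (hh : 0 < h) :
    ∫ x : ℝ, |φ (x / h)| = h * ∫ u : ℝ, |φ u| := by
  have := MeasureTheory.Measure.integral_comp_div (fun u : ℝ => |φ u|) h
  rw [this, abs_of_pos hh, smul_eq_mul]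

/-- derivative of the combination -/
theorem der (k : ℕ) (f : Fin k → ℝ → ℝ) (hf : ∀ j, Differentiable ℝ (f j)) (c h : Fin k → ℝ) :
    deriv (fun x => ∑ j, c j * f j (x / h j)) = fun x => ∑ j, (c j * (h j)⁻¹) * deriv (f j) (x / h j) := by
  funext x
  have h1 : ∀ j ∈ (Finset.univ : Finset (Fin k)),
      HasDerivAt (fun x => c j * f j (x / h j)) ((c j * (h j)⁻¹) * deriv (f j) (x / h j)) x := by
    intro j _
    have h2 : HasDerivAt (fun x : ℝ => x / h j) (1 / h j) x := (hasDerivAt_id x).div_const _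
    have h3 := ((hf j (x / h j)).hasDerivAt.comp x h2).const_mul (c j)
    have h4 : c j * (deriv (f j) (x / h j) * (1 / h j)) = (c j * (h j)⁻¹) * deriv (f j) (x / h j) := by
      rw [one_div]; ring
    rw [h4] at h3
    exact h3
  exact (HasDerivAt.fun_sum h1).deriv

theorem l1 (k : ℕ) (g : Fin k → ℝ → ℝ) (hc : ∀ j, Continuous (g j)) (hs : ∀ j, HasCompactSupport (g j))
    (b h : Fin k → ℝ) (hh : ∀ j, 0 < h j) :
    ∫ x : ℝ, |∑ j, b j * g j (x / h j)| ≤ ∑ j, |b j| * h j * ∫ u : ℝ, |g j u| := by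
  have h1 : ∀ j, Integrable (fun x => |b j| * |g j (x / h j)|) := by
    intro j
    have h3 : Integrable (g j) := (hc j).integrable_of_hasCompactSupport (hs j)
    exact ((h3.comp_div (hh j).ne').abs).const_mul _
  calc ∫ x : ℝ, |∑ j, b j * g j (x / h j)| ≤ ∫ x : ℝ, ∑ j, |b j| * |g j (x / h j)| := by
        refine integral_mono_of_nonneg (Eventually.of_forall fun x => abs_nonneg _)
          (integrable_finsetSum _ fun j _ => h1 j) (Eventually.of_forall fun x => ?_)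
        refine (Finset.abs_sum_le_sum_abs _ _).trans (le_of_eq ?_)
        refine Finset.sum_congr rfl fun j _ => ?_
        rw [abs_mul]
    _ = ∑ j, |b j| * h j * ∫ u : ℝ, |g j u| := by
        rw [integral_finsetSum _ fun j _ => h1 j]
        refine Finset.sum_congr rfl fun j _ => ?_
        rw [integral_const_mul, int_abs_scale _ (hh j), mul_assoc]

end ADML

open ADML in
theorem t_ADM : S_ADM := by
  intro k f hf hs
  have hf1 : ∀ j, ContDiff ℝ 1 (f j) := fun j => (hf j).of_le (by norm_num)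
  have hf2 : ∀ j, ContDiff ℝ 1 (deriv (f j)) := by
    intro j
    have := hf j
    rw [show (2 : WithTop ℕ∞) = 1 + 1 by norm_num] at this
    exact (contDiff_succ_iff_deriv.1 this).2.2
  have hf3 : ∀ j, Continuous (deriv (deriv (f j))) := fun j => (hf2 j).continuous_deriv le_rfl
  have hd1 : ∀ j, Differentiable ℝ (f j) := fun j => (hf1 j).differentiable one_ne_zero
  have hd2 : ∀ j, Differentiable ℝ (deriv (f j)) := fun j => (hf2 j).differentiable one_ne_zero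
  obtain ⟨A, hA0, hA⟩ := supp k f hs
  -- multiplied functions
  set G : Fin k → ℝ → ℝ := fun j u => u * f j u with hG
  have hGc : ∀ j, ContDiff ℝ 2 (G j) := fun j => contDiff_id.mul (hf j)
  have hGs : ∀ j, HasCompactSupport (G j) := fun j => (hs j).mul_left
  set V1 : Fin k → ℝ := fun j => ∫ u in Ioi (0 : ℝ), u * ‖FF (f j) u‖ ^ 2 with hV1
  set P : Fin k → ℝ → ℝ := fun j u => 2 * ‖FF (f j) u‖ ^ 2 + u ^ 2 * ‖FF (G j) u‖ ^ 2 with hP
  set V2 : Fin k → ℝ := fun j => ∫ u in Ioi (0 : ℝ), P j u with hV2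
  have hV1n : ∀ j, 0 ≤ V1 j := fun j => setIntegral_nonneg measurableSet_Ioi fun u hu => by
    have : (0 : ℝ) < u := hu
    positivity
  have hPn : ∀ j u, 0 ≤ P j u := fun j u => by simp only [hP]; positivity
  have hV2n : ∀ j, 0 ≤ V2 j := fun j => setIntegral_nonneg measurableSet_Ioi fun u _ => hPn j u
  have hPi : ∀ j, Integrable (P j) := fun j => (int_w0 (hf j) (hs j)).add (int_w2 (hGc j) (hGs j))
  set I1 : Fin k → ℝ := fun j => ∫ x : ℝ, |f j x| with hI1
  set I2 : Fin k → ℝ := fun j => ∫ x : ℝ, |deriv (deriv (f j)) x| with hI2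
  have hI1n : ∀ j, 0 ≤ I1 j := fun j => integral_nonneg fun _ => abs_nonneg _
  have hI2n : ∀ j, 0 ≤ I2 j := fun j => integral_nonneg fun _ => abs_nonneg _
  have hk0 : (0 : ℝ) ≤ k := Nat.cast_nonneg k
  have s1 : 0 ≤ ∑ j, V1 j := Finset.sum_nonneg fun j _ => hV1n j
  have s2 : 0 ≤ ∑ j, V2 j := Finset.sum_nonneg fun j _ => hV2n j
  have s3 : 0 ≤ ∑ j, I1 j := Finset.sum_nonneg fun j _ => hI1n j
  have s4 : 0 ≤ ∑ j, I2 j := Finset.sum_nonneg fun j _ => hI2n j
  refine ⟨k * (∑ j, V1 j) + 1, by positivity, fun η hη => ?_⟩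
  set K : ℝ := 1 + A + (∑ j, I1 j) / η + (∑ j, I2 j) / η + (k * ∑ j, V2 j) / η with hK
  have t1 : 0 ≤ (∑ j, I1 j) / η := by positivity
  have t2 : 0 ≤ (∑ j, I2 j) / η := by positivity
  have t3 : 0 ≤ (k * ∑ j, V2 j) / η := by positivity
  have hK1 : 1 ≤ K := by rw [hK]; linarith
  have hK0 : 0 < K := by linarith
  have hKA : A ≤ K := by rw [hK]; linarith
  have hKe : ∀ S : ℝ, S / η ≤ K → 1 / K * S ≤ η := by
    intro S hS
    rw [div_le_iff₀ hη] at hS
    rw [one_div, inv_mul_le_iff₀ hK0]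
    exact hS
  refine ⟨K, hK1, fun L h c hL hh hc => ?_⟩
  have hh0 : ∀ j, 0 < h j := fun j => (hh j).1
  have hhK : ∀ j, h j ≤ 1 / K := fun j => (hh j).2.1
  have hhL : ∀ j, (h j)⁻¹ ≤ 1 / K * L := by
    intro j
    have h1 := (hh j).2.2
    rw [inv_le_iff_one_le_mul₀ (hh0 j)]
    rw [one_div, inv_mul_eq_div, mul_comm, mul_div_assoc', le_div_iff₀ hK0, one_mul]
    exact h1
  set F : ℝ → ℝ := fun x => ∑ j, c j * f j (x / h j) with hF
  have hFF : ∀ ξ, FF F ξ = ∑ j, ((c j * h j : ℝ) : ℂ) * FF (f j) (h j * ξ) := fun ξ =>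
    comb k f (fun j => (hf j).continuous) hs c h hh0 ξ
  have hC2 : C2c F := by
    refine ⟨?_, fun x hx => ?_⟩
    · refine ContDiff.sum fun j _ => ?_
      exact contDiff_const.mul ((hf j).comp (contDiff_id.div_const _))
    · rw [hF]
      refine Finset.sum_eq_zero fun j _ => ?_
      rw [hA j (x / h j) ?_, mul_zero]
      rw [abs_div, abs_of_pos (hh0 j), le_div_iff₀ (hh0 j)]
      have h1 := hhK j
      rw [le_div_iff₀ hK0] at h1
      calc A * h j ≤ K * h j := by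
            have := (hh0 j).le
            gcongr
        _ ≤ 1 := by linarith
        _ ≤ |x| := hx
  have hcj : ∀ j, |c j| ≤ 1 := hc
  refine ⟨hC2, ?_, ?_, ?_, ?_⟩
  · -- L1 norm
    have h1 := l1 k f (fun j => (hf j).continuous) hs c h hh0
    refine h1.trans ?_
    calc ∑ j, |c j| * h j * ∫ u : ℝ, |f j u| ≤ ∑ j, 1 / K * I1 j := by
          refine Finset.sum_le_sum fun j _ => ?_
          have h2 : |c j| * h j ≤ 1 / K := by
            calc |c j| * h j ≤ 1 * h j := by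
                  have := (hh0 j).le
                  gcongr
                  exact hcj j
              _ ≤ 1 / K := by rw [one_mul]; exact hhK j
          exact mul_le_mul_of_nonneg_right h2 (hI1n j)
      _ = 1 / K * ∑ j, I1 j := by rw [Finset.mul_sum]
      _ ≤ η := hKe _ (by rw [hK]; linarith)
  · -- second derivative
    have h1 : deriv (deriv F) = fun x => ∑ j, (c j * (h j)⁻¹ * (h j)⁻¹) * deriv (deriv (f j)) (x / h j) := by
      rw [hF, der k f hd1 c h]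
      rw [der k (fun j => deriv (f j)) hd2 (fun j => c j * (h j)⁻¹) h]
    rw [h1]
    have h2 := l1 k (fun j => deriv (deriv (f j))) hf3 (fun j => (hs j).deriv.deriv)
      (fun j => c j * (h j)⁻¹ * (h j)⁻¹) h hh0
    refine h2.trans ?_
    calc ∑ j, |c j * (h j)⁻¹ * (h j)⁻¹| * h j * ∫ u : ℝ, |deriv (deriv (f j)) u| ≤
        ∑ j, (1 / K * L) * I2 j := by
          refine Finset.sum_le_sum fun j _ => ?_
          have h3 : |c j * (h j)⁻¹ * (h j)⁻¹| * h j ≤ 1 / K * L := by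
            have h4 : (0 : ℝ) < (h j)⁻¹ := inv_pos.2 (hh0 j)
            rw [abs_mul, abs_mul, abs_of_pos h4]
            have h5 : |c j| * (h j)⁻¹ * (h j)⁻¹ * h j = |c j| * (h j)⁻¹ := by
              have := (hh0 j).ne'
              field_simp
            rw [h5]
            calc |c j| * (h j)⁻¹ ≤ 1 * (h j)⁻¹ := by
                  gcongr
                  exact hcj j
              _ ≤ 1 / K * L := by rw [one_mul]; exact hhL j
          exact mul_le_mul_of_nonneg_right h3 (hI2n j)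
      _ = (1 / K * ∑ j, I2 j) * L := by rw [← Finset.mul_sum]; ring
      _ ≤ η * L := by
          have := hKe (∑ j, I2 j) (by rw [hK]; linarith)
          gcongr
  · -- variance
    have h1 : ∀ ξ ∈ Ioi (0 : ℝ), ξ * ‖FF F ξ‖ ^ 2 ≤
        k * ∑ j, h j * ((h j * ξ) * ‖FF (f j) (h j * ξ)‖ ^ 2) := by
      intro ξ hξ
      have hξ0 : (0 : ℝ) < ξ := hξ
      rw [hFF ξ]
      have h2 := sq_sum k (fun j => ((c j * h j : ℝ) : ℂ) * FF (f j) (h j * ξ))
      calc ξ * ‖∑ j, ((c j * h j : ℝ) : ℂ) * FF (f j) (h j * ξ)‖ ^ 2 ≤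
          ξ * (k * ∑ j, ‖((c j * h j : ℝ) : ℂ) * FF (f j) (h j * ξ)‖ ^ 2) := by gcongr
        _ = k * ∑ j, ξ * ‖((c j * h j : ℝ) : ℂ) * FF (f j) (h j * ξ)‖ ^ 2 := by
            rw [Finset.mul_sum, Finset.mul_sum, Finset.mul_sum]
            refine Finset.sum_congr rfl fun j _ => ?_
            ring
        _ ≤ k * ∑ j, h j * ((h j * ξ) * ‖FF (f j) (h j * ξ)‖ ^ 2) := by
            refine mul_le_mul_of_nonneg_left (Finset.sum_le_sum fun j _ => ?_) hk0
            rw [norm_mul, Complex.norm_real, Real.norm_eq_abs, abs_mul, abs_of_pos (hh0 j)]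
            have h3 : |c j| ^ 2 ≤ 1 := by
              have := hcj j
              have h0 := abs_nonneg (c j)
              nlinarith
            calc ξ * (|c j| * h j * ‖FF (f j) (h j * ξ)‖) ^ 2 =
                |c j| ^ 2 * (h j * ((h j * ξ) * ‖FF (f j) (h j * ξ)‖ ^ 2)) := by ring
              _ ≤ 1 * (h j * ((h j * ξ) * ‖FF (f j) (h j * ξ)‖ ^ 2)) := by
                  have := hh0 j
                  gcongr
              _ = _ := one_mul _
    have h2 : ∀ j, Integrable (fun ξ : ℝ => h j * ((h j * ξ) * ‖FF (f j) (h j * ξ)‖ ^ 2)) := fun j =>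
      integrable_scale (fun u => u * ‖FF (f j) u‖ ^ 2) (hh0 j) (int_w1 (hf j) (hs j))
    have h3 : ∫ ξ in Ioi (0 : ℝ), ξ * ‖FF F ξ‖ ^ 2 ≤
        ∫ ξ in Ioi (0 : ℝ), k * ∑ j, h j * ((h j * ξ) * ‖FF (f j) (h j * ξ)‖ ^ 2) := by
      refine integral_mono_of_nonneg ?_ ?_ ?_
      · refine (ae_restrict_iff' measurableSet_Ioi).2 (Eventually.of_forall fun ξ hξ => ?_)
        have hξ0 : (0 : ℝ) < ξ := hξ
        show 0 ≤ ξ * ‖FF F ξ‖ ^ 2
        positivity
      · exact ((integrable_finsetSum _ fun j _ => h2 j).const_mul _).integrableOn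
      · exact (ae_restrict_iff' measurableSet_Ioi).2 (Eventually.of_forall fun ξ hξ => h1 ξ hξ)
    refine h3.trans ?_
    rw [integral_const_mul, integral_finsetSum _ fun j _ => (h2 j).integrableOn]
    have h4 : ∀ j, ∫ ξ in Ioi (0 : ℝ), h j * ((h j * ξ) * ‖FF (f j) (h j * ξ)‖ ^ 2) = V1 j := fun j =>
      int_scale (fun u => u * ‖FF (f j) u‖ ^ 2) (hh0 j)
    simp only [h4]
    linarith
  · -- total variation
    have hder : ∀ ξ, ‖deriv (FF F) ξ‖ = ‖∑ j, ((c j * h j * h j : ℝ) : ℂ) * FF (G j) (h j * ξ)‖ := by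
      intro ξ
      rw [FF_deriv hC2]
      show ‖-I * FF (fun s => s * F s) ξ‖ = _
      rw [norm_mul, norm_neg, Complex.norm_I, one_mul]
      have h1 : (fun s => s * F s) = fun s => ∑ j, (c j * h j) * G j (s / h j) := by
        funext s
        simp only [hF, hG]
        rw [Finset.mul_sum]
        refine Finset.sum_congr rfl fun j _ => ?_
        have := (hh0 j).ne'
        field_simp
      rw [h1, comb k G (fun j => (hGc j).continuous) hGs (fun j => c j * h j) h hh0 ξ]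
    have h1 : ∀ ξ ∈ Ioi (0 : ℝ), ‖FF F ξ‖ ^ 2 + 2 * ξ * ‖FF F ξ‖ * ‖deriv (FF F) ξ‖ ≤
        k * ∑ j, h j * (h j * P j (h j * ξ)) := by
      intro ξ hξ
      have hξ0 : (0 : ℝ) < ξ := hξ
      have h2 := sq_sum k (fun j => ((c j * h j : ℝ) : ℂ) * FF (f j) (h j * ξ))
      have h3 := sq_sum k (fun j => ((c j * h j * h j : ℝ) : ℂ) * FF (G j) (h j * ξ))
      have h4 : ‖FF F ξ‖ ^ 2 + 2 * ξ * ‖FF F ξ‖ * ‖deriv (FF F) ξ‖ ≤
          2 * ‖FF F ξ‖ ^ 2 + ξ ^ 2 * ‖deriv (FF F) ξ‖ ^ 2 := by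
        nlinarith [sq_nonneg (‖FF F ξ‖ - ξ * ‖deriv (FF F) ξ‖)]
      refine h4.trans ?_
      rw [hder ξ, hFF ξ]
      have hc2 : ∀ j, |c j| ^ 2 ≤ 1 := by
        intro j
        have := hcj j
        have h0 := abs_nonneg (c j)
        nlinarith
      have h5 : 2 * (∑ j, ‖((c j * h j : ℝ) : ℂ) * FF (f j) (h j * ξ)‖ ^ 2) ≤
          ∑ j, h j * (h j * (2 * ‖FF (f j) (h j * ξ)‖ ^ 2)) := by
        rw [Finset.mul_sum]
        refine Finset.sum_le_sum fun j _ => ?_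
        rw [norm_mul, Complex.norm_real, Real.norm_eq_abs, abs_mul, abs_of_pos (hh0 j)]
        calc 2 * (|c j| * h j * ‖FF (f j) (h j * ξ)‖) ^ 2 =
            |c j| ^ 2 * (h j * (h j * (2 * ‖FF (f j) (h j * ξ)‖ ^ 2))) := by ring
          _ ≤ 1 * (h j * (h j * (2 * ‖FF (f j) (h j * ξ)‖ ^ 2))) := by
              have := hh0 j
              have := hc2 j
              gcongr
          _ = _ := one_mul _
      have h6 : ξ ^ 2 * (∑ j, ‖((c j * h j * h j : ℝ) : ℂ) * FF (G j) (h j * ξ)‖ ^ 2) ≤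
          ∑ j, h j * (h j * ((h j * ξ) ^ 2 * ‖FF (G j) (h j * ξ)‖ ^ 2)) := by
        rw [Finset.mul_sum]
        refine Finset.sum_le_sum fun j _ => ?_
        rw [norm_mul, Complex.norm_real, Real.norm_eq_abs, abs_mul, abs_mul, abs_of_pos (hh0 j)]
        calc ξ ^ 2 * (|c j| * h j * h j * ‖FF (G j) (h j * ξ)‖) ^ 2 =
            |c j| ^ 2 * (h j * (h j * ((h j * ξ) ^ 2 * ‖FF (G j) (h j * ξ)‖ ^ 2))) := by ring
          _ ≤ 1 * (h j * (h j * ((h j * ξ) ^ 2 * ‖FF (G j) (h j * ξ)‖ ^ 2))) := by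
              have := hh0 j
              have := hc2 j
              gcongr
          _ = _ := one_mul _
      have h7 : ∑ j, h j * (h j * P j (h j * ξ)) = (∑ j, h j * (h j * (2 * ‖FF (f j) (h j * ξ)‖ ^ 2))) +
          ∑ j, h j * (h j * ((h j * ξ) ^ 2 * ‖FF (G j) (h j * ξ)‖ ^ 2)) := by
        rw [← Finset.sum_add_distrib]
        refine Finset.sum_congr rfl fun j _ => ?_
        simp only [hP]
        ring
      rw [h7]
      calc 2 * ‖∑ j, ((c j * h j : ℝ) : ℂ) * FF (f j) (h j * ξ)‖ ^ 2 +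
          ξ ^ 2 * ‖∑ j, ((c j * h j * h j : ℝ) : ℂ) * FF (G j) (h j * ξ)‖ ^ 2 ≤
          2 * (k * ∑ j, ‖((c j * h j : ℝ) : ℂ) * FF (f j) (h j * ξ)‖ ^ 2) +
          ξ ^ 2 * (k * ∑ j, ‖((c j * h j * h j : ℝ) : ℂ) * FF (G j) (h j * ξ)‖ ^ 2) := by gcongr
        _ = k * (2 * ∑ j, ‖((c j * h j : ℝ) : ℂ) * FF (f j) (h j * ξ)‖ ^ 2) +
          k * (ξ ^ 2 * ∑ j, ‖((c j * h j * h j : ℝ) : ℂ) * FF (G j) (h j * ξ)‖ ^ 2) := by ring
        _ ≤ k * (∑ j, h j * (h j * (2 * ‖FF (f j) (h j * ξ)‖ ^ 2))) +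
          k * (∑ j, h j * (h j * ((h j * ξ) ^ 2 * ‖FF (G j) (h j * ξ)‖ ^ 2))) := by gcongr
        _ = _ := by ring
    have h2 : ∀ j, Integrable (fun ξ : ℝ => h j * (h j * P j (h j * ξ))) := fun j =>
      (integrable_scale (P j) (hh0 j) (hPi j)).const_mul _
    have h3 : ∫ ξ in Ioi (0 : ℝ), (‖FF F ξ‖ ^ 2 + 2 * ξ * ‖FF F ξ‖ * ‖deriv (FF F) ξ‖) ≤
        ∫ ξ in Ioi (0 : ℝ), k * ∑ j, h j * (h j * P j (h j * ξ)) := by
      refine integral_mono_of_nonneg ?_ ?_ ?_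
      · refine (ae_restrict_iff' measurableSet_Ioi).2 (Eventually.of_forall fun ξ hξ => ?_)
        have hξ0 : (0 : ℝ) < ξ := hξ
        show 0 ≤ ‖FF F ξ‖ ^ 2 + 2 * ξ * ‖FF F ξ‖ * ‖deriv (FF F) ξ‖
        positivity
      · exact ((integrable_finsetSum _ fun j _ => h2 j).const_mul _).integrableOn
      · exact (ae_restrict_iff' measurableSet_Ioi).2 (Eventually.of_forall fun ξ hξ => h1 ξ hξ)
    refine h3.trans ?_
    rw [integral_const_mul, integral_finsetSum _ fun j _ => (h2 j).integrableOn]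
    have h4 : ∀ j, ∫ ξ in Ioi (0 : ℝ), h j * (h j * P j (h j * ξ)) = h j * V2 j := fun j => by
      rw [integral_const_mul, int_scale (P j) (hh0 j)]
    simp only [h4]
    calc (k : ℝ) * ∑ j, h j * V2 j ≤ k * ∑ j, 1 / K * V2 j := by
          refine mul_le_mul_of_nonneg_left (Finset.sum_le_sum fun j _ => ?_) hk0
          exact mul_le_mul_of_nonneg_right (hhK j) (hV2n j)
      _ = 1 / K * (k * ∑ j, V2 j) := by rw [← Finset.mul_sum]; ring
      _ ≤ η := hKe _ (by rw [hK]; linarith)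

end Pool.Agent.H203.ME
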