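import Pool.Agent.H203.ME.Defs2

set_option autoImplicit false

open Complex Filter Topology Set MeasureTheory

namespace Pool.Agent.H203.ME

namespace LLNL

/-- a bump which is `1` on `[p + ν, q - ν]` and `0` outside of `[p, q]` -/
noncomputable def bu (p q ν x : ℝ) : ℝ :=
  Real.smoothTransition ((x - p) / ν) * Real.smoothTransition ((q - x) / ν)

theorem bu_nonneg (p q ν x : ℝ) : 0 ≤ bu p q ν x :=
  mul_nonneg (Real.smoothTransition.nonneg _) (Real.smoothTransition.nonneg _)

theorem bu_le (p q ν x : ℝ) : bu p q ν x ≤ 1 := by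
  unfold bu
  exact mul_le_one₀ (Real.smoothTransition.le_one _) (Real.smoothTransition.nonneg _)
    (Real.smoothTransition.le_one _)

theorem bu_one {p q ν x : ℝ} (hν : 0 < ν) (h1 : p + ν ≤ x) (h2 : x ≤ q - ν) :
    bu p q ν x = 1 := by
  unfold bu
  rw [Real.smoothTransition.one_of_one_le ((one_le_div hν).2 (by linarith)),
    Real.smoothTransition.one_of_one_le ((one_le_div hν).2 (by linarith)), one_mul]

theorem bu_left {p q ν x : ℝ} (hν : 0 < ν) (h1 : x ≤ p) : bu p q ν x = 0 := by
  unfold bu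
  rw [Real.smoothTransition.zero_of_nonpos
    (div_nonpos_of_nonpos_of_nonneg (by linarith) hν.le), zero_mul]

theorem bu_right {p q ν x : ℝ} (hν : 0 < ν) (h1 : q ≤ x) : bu p q ν x = 0 := by
  unfold bu
  rw [Real.smoothTransition.zero_of_nonpos
    (div_nonpos_of_nonpos_of_nonneg (by linarith : q - x ≤ 0) hν.le), mul_zero]

theorem bu_cd (p q ν : ℝ) : ContDiff ℝ 2 (bu p q ν) := by
  unfold bu
  have h : ContDiff ℝ 2 Real.smoothTransition := Real.smoothTransition.contDiff (n := 2)
  exact (h.comp (by fun_prop)).mul (h.comp (by fun_prop))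

theorem bu_cs {p q ν : ℝ} (hν : 0 < ν) : HasCompactSupport (bu p q ν) := by
  refine HasCompactSupport.intro (isCompact_Icc (a := p) (b := q)) fun x hx => ?_
  rw [mem_Icc, not_and_or, not_le, not_le] at hx
  rcases hx with hx | hx
  · exact bu_left hν hx.le
  · exact bu_right hν hx.le

theorem bu_int {p q ν : ℝ} (hν : 0 < ν) : Integrable (bu p q ν) :=
  (bu_cd p q ν).continuous.integrable_of_hasCompactSupport (bu_cs hν)

theorem bu_int_le {p q ν : ℝ} (hν : 0 < ν) (hpq : p ≤ q) : ∫ x, bu p q ν x ≤ q - p := by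
  have h1 : ∀ x, bu p q ν x ≤ (Icc p q).indicator (fun _ => (1 : ℝ)) x := by
    intro x
    by_cases hx : x ∈ Icc p q
    · rw [indicator_of_mem hx]; exact bu_le _ _ _ _
    · rw [indicator_of_notMem hx]
      rw [mem_Icc, not_and_or, not_le, not_le] at hx
      rcases hx with hx | hx
      · exact (bu_left hν hx.le).le
      · exact (bu_right hν hx.le).le
  have h2 : Integrable ((Icc p q).indicator (fun _ => (1 : ℝ))) :=
    (integrable_indicator_iff measurableSet_Icc).2 (integrableOn_const (by simp))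
  refine (integral_mono (bu_int hν) h2 h1).trans (le_of_eq ?_)
  rw [integral_indicator measurableSet_Icc]
  simp [hpq]

theorem bu_int_ge {p q ν : ℝ} (hν : 0 < ν) (hpq : p + ν ≤ q - ν) :
    q - p - 2 * ν ≤ ∫ x, bu p q ν x := by
  have h1 : ∀ x, (Icc (p + ν) (q - ν)).indicator (fun _ => (1 : ℝ)) x ≤ bu p q ν x := by
    intro x
    by_cases hx : x ∈ Icc (p + ν) (q - ν)
    · rw [indicator_of_mem hx, bu_one hν hx.1 hx.2]
    · rw [indicator_of_notMem hx]; exact bu_nonneg _ _ _ _
  have h2 : Integrable ((Icc (p + ν) (q - ν)).indicator (fun _ => (1 : ℝ))) :=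
    (integrable_indicator_iff measurableSet_Icc).2 (integrableOn_const (by simp))
  refine le_trans (le_of_eq ?_) (integral_mono h2 (bu_int hν) h1)
  rw [integral_indicator measurableSet_Icc]
  simp [hpq]
  ring

/-- the admissibility of the scaled bump -/
theorem adm_bu (hA : S_ADM) {p q ν : ℝ} (hν : 0 < ν) :
    ∃ V K : ℝ, 0 < V ∧ 1 ≤ K ∧ ∀ L s : ℝ, 1 ≤ L → 0 < s → s ≤ 1 / K → K ≤ s * L →
      Adm 1 V L (fun x => bu p q ν (x / s)) := by
  obtain ⟨V, hV, h⟩ := hA 1 (fun _ => bu p q ν) (fun _ => bu_cd p q ν) (fun _ => bu_cs hν)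
  obtain ⟨K, hK, h2⟩ := h 1 one_pos
  refine ⟨V, K, hV, hK, fun L s hL hs h3 h4 => ?_⟩
  have := h2 L (fun _ => s) (fun _ => 1) hL (fun _ => ⟨hs, h3, h4⟩) (fun _ => by simp)
  simpa using this

theorem log_le_quarter {T : ℝ} (hT : 64 ≤ T) : 4 * Real.log T ≤ T := by
  have h0 : 0 < T := by linarith
  have h1 : Real.log T = 2 * Real.log (√T) := by
    rw [Real.log_sqrt h0.le]; ring
  have h2 : Real.log (√T) ≤ √T - 1 := Real.log_le_sub_one_of_pos (Real.sqrt_pos.2 h0)
  have h3 : 8 ≤ √T := by
    have : √64 ≤ √T := Real.sqrt_le_sqrt hT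
    rw [show (64 : ℝ) = 8 ^ 2 by norm_num, Real.sqrt_sq (by norm_num)] at this
    exact this
  have h4 : √T * √T = T := Real.mul_self_sqrt h0.le
  nlinarith

end LLNL

open LLNL in
theorem t_LLN (hX : S_L1X) (hA : S_ADM) : S_LLN := by
  intro ε hε
  obtain ⟨C, T1, hC, hT1, hX⟩ := hX
  -- the smoothing parameter
  set ν : ℝ := min (1 / 4) (ε / 4) with hνdef
  have hν : 0 < ν := lt_min (by norm_num) (by positivity)
  have hν1 : ν ≤ 1 / 4 := min_le_left _ _
  have hν2 : ν ≤ ε / 4 := min_le_right _ _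
  obtain ⟨Vp, Kp, hVp, hKp, hAp⟩ := adm_bu hA (p := -ν) (q := 1 + ν) hν
  obtain ⟨Vm, Km, hVm, hKm, hAm⟩ := adm_bu hA (p := 0) (q := 1) hν
  set D : ℝ := C * √(Vp + 1) + C * √(Vm + 1) with hD
  have hD0 : 0 ≤ D := by positivity
  set K : ℝ := max (max Kp Km) (2 * D / ε) with hKdef
  have hK1 : Kp ≤ K := (le_max_left _ _).trans (le_max_left _ _)
  have hK2 : Km ≤ K := (le_max_right _ _).trans (le_max_left _ _)
  have hK3 : 2 * D / ε ≤ K := le_max_right _ _
  have hK0 : 1 ≤ K := hKp.trans hK1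
  refine ⟨K, max T1 64, hK0, hT1.trans (le_max_left _ _), fun T hT s hs1 hs2 => ?_⟩
  have hTT1 : T1 ≤ T := (le_max_left _ _).trans hT
  have hT64 : 64 ≤ T := (le_max_right _ _).trans hT
  have hT0 : 0 < T := by linarith
  set L : ℝ := Real.log T with hLdef
  have hL1 : 1 ≤ L := by
    rw [hLdef, Real.le_log_iff_exp_le hT0]
    have := Real.exp_one_lt_d9
    linarith
  have hL4 : 4 * L ≤ T := log_le_quarter hT64
  have hL0 : 0 < L := by linarith
  have hs0 : 0 < s := by
    by_contra hcon
    push Not at hcon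
    have : s * L ≤ 0 := mul_nonpos_of_nonpos_of_nonneg hcon hL0.le
    linarith
  have hadp : Adm 1 Vp L (fun x => bu (-ν) (1 + ν) ν (x / s)) :=
    hAp L s hL1 hs0 (hs2.trans (one_div_le_one_div_of_le (by linarith) hK1)) (hK1.trans hs1)
  have hadm : Adm 1 Vm L (fun x => bu 0 1 ν (x / s)) :=
    hAm L s hL1 hs0 (hs2.trans (one_div_le_one_div_of_le (by linarith) hK2)) (hK2.trans hs1)
  have hIp := hX T hTT1 1 Vp _ one_pos le_rfl hVp.le hadp
  have hIm := hX T hTT1 1 Vm _ one_pos le_rfl hVm.le hadm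
  rw [← hLdef] at hIp hIm
  set Fp : ℝ → ℝ := fun x => bu (-ν) (1 + ν) ν (x / s) with hFp
  set Fm : ℝ → ℝ := fun x => bu 0 1 ν (x / s) with hFm
  set a : ℝ := T + 2 * L with ha
  set b : ℝ := 2 * T - 2 * L with hb
  have hab : a ≤ b := by linarith
  have hπ : 0 < 2 * Real.pi := by positivity
  -- the pointwise bound
  have eFp : ∫ x, Fp x = s * ∫ x, bu (-ν) (1 + ν) ν x := by
    rw [hFp, Measure.integral_comp_div (fun x => bu (-ν) (1 + ν) ν x) s, abs_of_pos hs0,
      smul_eq_mul]
  have eFm : ∫ x, Fm x = s * ∫ x, bu 0 1 ν x := by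
    rw [hFm, Measure.integral_comp_div (fun x => bu 0 1 ν x) s, abs_of_pos hs0, smul_eq_mul]
  have b1 : ∫ x, bu (-ν) (1 + ν) ν x ≤ 1 + 2 * ν := by
    have := bu_int_le (p := -ν) (q := 1 + ν) hν (by linarith)
    linarith
  have b2 : 1 - 2 * ν ≤ ∫ x, bu 0 1 ν x := by
    have := bu_int_ge (p := 0) (q := 1) hν (by linarith)
    linarith
  have hsL : 0 ≤ s * L / (2 * Real.pi) := by positivity
  have hpt : ∀ t ∈ Icc a b, |cnt T t (t + s) - s * L / (2 * Real.pi)| ≤
      |XF Fp T t| + |XF Fm T t| + s * L / (2 * Real.pi) * (2 * ν) := by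
    intro t ht
    have ht1 : T + 1 ≤ t := by linarith [ht.1]
    have ht2 : t ≤ 2 * T - 1 := by linarith [ht.2]
    have xp := XF_eq hadp.c2 (U1 := T) (U2 := 2 * T) (T := T) (t := t) (by linarith) ht1 ht2
    have xm := XF_eq hadm.c2 (U1 := T) (U2 := 2 * T) (T := T) (t := t) (by linarith) ht1 ht2
    have cp : cnt T t (t + s) ≤ ∑ z ∈ H370.Zf riemannZeta T (2 * T), (mz z : ℝ) * Fp (z.im - t) := by
      unfold cnt
      refine Finset.sum_le_sum fun z _ => mul_le_mul_of_nonneg_left ?_ (Nat.cast_nonneg _)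
      by_cases hz : z.im ∈ Ioc t (t + s)
      · rw [indicator_of_mem hz, hFp]
        simp only
        rw [bu_one hν]
        · have : 0 ≤ (z.im - t) / s := div_nonneg (by linarith [hz.1]) hs0.le
          linarith
        · have : (z.im - t) / s ≤ 1 := (div_le_one hs0).2 (by linarith [hz.2])
          linarith
      · rw [indicator_of_notMem hz]
        exact bu_nonneg _ _ _ _
    have cm : ∑ z ∈ H370.Zf riemannZeta T (2 * T), (mz z : ℝ) * Fm (z.im - t) ≤ cnt T t (t + s) := by
      unfold cnt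
      refine Finset.sum_le_sum fun z _ => mul_le_mul_of_nonneg_left ?_ (Nat.cast_nonneg _)
      by_cases hz : z.im ∈ Ioc t (t + s)
      · rw [indicator_of_mem hz]
        exact bu_le _ _ _ _
      · rw [indicator_of_notMem hz, hFm]
        simp only
        rw [mem_Ioc, not_and_or, not_lt, not_le] at hz
        rcases hz with hz | hz
        · exact (bu_left hν (div_nonpos_of_nonpos_of_nonneg (by linarith) hs0.le)).le
        · exact (bu_right hν ((one_le_div hs0).2 (by linarith))).le
    rw [← hLdef] at xp xm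
    have e1 : L / (2 * Real.pi) * ∫ x : ℝ, Fp x ≤
        s * L / (2 * Real.pi) + s * L / (2 * Real.pi) * (2 * ν) := by
      rw [eFp]
      have := mul_le_mul_of_nonneg_left b1 hsL
      calc L / (2 * Real.pi) * (s * ∫ x, bu (-ν) (1 + ν) ν x) =
          s * L / (2 * Real.pi) * ∫ x, bu (-ν) (1 + ν) ν x := by ring
        _ ≤ s * L / (2 * Real.pi) * (1 + 2 * ν) := this
        _ = _ := by ring
    have e2 : s * L / (2 * Real.pi) - s * L / (2 * Real.pi) * (2 * ν) ≤
        L / (2 * Real.pi) * ∫ x : ℝ, Fm x := by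
      rw [eFm]
      have := mul_le_mul_of_nonneg_left b2 hsL
      calc s * L / (2 * Real.pi) - s * L / (2 * Real.pi) * (2 * ν) =
          s * L / (2 * Real.pi) * (1 - 2 * ν) := by ring
        _ ≤ s * L / (2 * Real.pi) * ∫ x, bu 0 1 ν x := this
        _ = _ := by ring
    rw [abs_le]
    have q1 := le_abs_self (XF Fp T t)
    have q2 := neg_abs_le (XF Fm T t)
    have q3 := abs_nonneg (XF Fp T t)
    have q4 := abs_nonneg (XF Fm T t)
    constructor
    · linarith
    · linarith
  -- the integral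
  have hcp : ContinuousOn (XF Fp T) (uIcc a b) := by
    rw [uIcc_of_le hab]; exact XF_contOn hadp.c2 (by linarith)
  have hcm : ContinuousOn (XF Fm T) (uIcc a b) := by
    rw [uIcc_of_le hab]; exact XF_contOn hadm.c2 (by linarith)
  have ip : IntervalIntegrable (fun t => |XF Fp T t|) volume a b := hcp.abs.intervalIntegrable
  have im : IntervalIntegrable (fun t => |XF Fm T t|) volume a b := hcm.abs.intervalIntegrable
  have ic : IntervalIntegrable (fun _ : ℝ => s * L / (2 * Real.pi) * (2 * ν)) volume a b :=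
    intervalIntegrable_const
  have hRHS : ∫ t in a..b, (|XF Fp T t| + |XF Fm T t| + s * L / (2 * Real.pi) * (2 * ν)) ≤
      ε * s * L * T := by
    have e1 : ∫ t in a..b, (|XF Fp T t| + |XF Fm T t| + s * L / (2 * Real.pi) * (2 * ν)) =
        (∫ t in a..b, |XF Fp T t|) + (∫ t in a..b, |XF Fm T t|) +
          (b - a) * (s * L / (2 * Real.pi) * (2 * ν)) := by
      rw [intervalIntegral.integral_add (ip.add im) ic, intervalIntegral.integral_add ip im,
        intervalIntegral.integral_const, smul_eq_mul]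
    rw [e1]
    have e2 : (b - a) * (s * L / (2 * Real.pi) * (2 * ν)) ≤ T * (s * L * (ε / 2)) := by
      have h1 : b - a ≤ T := by linarith
      have h2 : s * L / (2 * Real.pi) * (2 * ν) ≤ s * L * (ε / 2) := by
        have h3 : s * L / (2 * Real.pi) ≤ s * L := by
          refine div_le_self (by positivity) ?_
          have := Real.pi_gt_three
          linarith
        have h4 : 2 * ν ≤ ε / 2 := by linarith
        exact mul_le_mul h3 h4 (by positivity) (by positivity)
      exact mul_le_mul h1 h2 (by positivity) hT0.le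
    have e3 : C * T * √(Vp + 1) + C * T * √(Vm + 1) ≤ T * (s * L * (ε / 2)) := by
      have h1 : D ≤ s * L * (ε / 2) := by
        have h2 : 2 * D / ε ≤ s * L := hK3.trans hs1
        rw [div_le_iff₀ hε] at h2
        linarith
      calc C * T * √(Vp + 1) + C * T * √(Vm + 1) = T * D := by rw [hD]; ring
        _ ≤ T * (s * L * (ε / 2)) := mul_le_mul_of_nonneg_left h1 hT0.le
    calc _ ≤ C * T * √(Vp + 1) + C * T * √(Vm + 1) + T * (s * L * (ε / 2)) := by
          linarith
      _ ≤ T * (s * L * (ε / 2)) + T * (s * L * (ε / 2)) := by linarith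
      _ = ε * s * L * T := by ring
  by_cases hI : IntervalIntegrable (fun t => |cnt T t (t + s) - s * L / (2 * Real.pi)|) volume a b
  · exact (intervalIntegral.integral_mono_on hab hI ((ip.add im).add ic) hpt).trans hRHS
  · rw [intervalIntegral.integral_undef hI]
    positivity

end Pool.Agent.H203.ME
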