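import Pool.Agent.H203.ME.Defs3

set_option autoImplicit false

/-! From second moments to the pair correlation sum. -/

open Complex Filter Topology Set MeasureTheory

namespace Pool.Agent.H203.ME

namespace PCCL

/-- a finite sum over zeros -/
noncomputable def Sm (Z : Finset ℂ) (f : ℝ → ℝ) (h t : ℝ) : ℝ := ∑ s ∈ Z, (mz s : ℝ) * f ((s.im - t) / h)

lemma Sm_cont (Z : Finset ℂ) {f : ℝ → ℝ} (hf : Continuous f) (h : ℝ) : Continuous (Sm Z f h) := by
  unfold Sm
  fun_prop

/-- integral of a shifted and scaled product -/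
lemma int_prod (f g : ℝ → ℝ) {h : ℝ} (hh : 0 < h) (a b : ℝ) :
    ∫ t : ℝ, f ((a - t) / h) * g ((b - t) / h) = h * ∫ u : ℝ, f u * g (u + (b - a) / h) := by
  have h1 : (fun t : ℝ => f ((a - t) / h) * g ((b - t) / h)) =
      fun t : ℝ => (fun x : ℝ => (fun u : ℝ => f u * g (u + (b - a) / h)) (x / h)) (a - t) := by
    funext t
    have h2 : (a - t) / h + (b - a) / h = (b - t) / h := by ring
    simp only [h2]
  rw [h1, integral_sub_left_eq_self (fun x : ℝ => (fun u : ℝ => f u * g (u + (b - a) / h)) (x / h)) volume a,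
    Measure.integral_comp_div (fun u : ℝ => f u * g (u + (b - a) / h)) h, abs_of_pos hh, smul_eq_mul]

lemma int_one (f : ℝ → ℝ) {h : ℝ} (hh : 0 < h) (a : ℝ) :
    ∫ t : ℝ, f ((a - t) / h) = h * ∫ u : ℝ, f u := by
  rw [integral_sub_left_eq_self (fun x : ℝ => f (x / h)) volume a,
    Measure.integral_comp_div, abs_of_pos hh, smul_eq_mul]

/-- the scaled function has compact support -/
lemma cs_scale {f : ℝ → ℝ} (hs : HasCompactSupport f) {h : ℝ} (hh : 0 < h) (a : ℝ) :
    HasCompactSupport fun t : ℝ => f ((a - t) / h) := by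
  obtain ⟨A, hA, hA'⟩ := FINL.bd hs
  refine HasCompactSupport.intro (isCompact_Icc (a := a - A * h) (b := a + A * h)) fun t ht => hA' _ ?_
  rw [abs_div, abs_of_pos hh, le_div_iff₀ hh]
  rw [mem_Icc, not_and_or, not_le, not_le] at ht
  rcases ht with ht | ht
  · rw [le_abs]; left; linarith
  · rw [le_abs]; right; linarith

lemma int_scale {f : ℝ → ℝ} (hf : Continuous f) (hs : HasCompactSupport f) {h : ℝ} (hh : 0 < h) (a : ℝ) :
    Integrable fun t : ℝ => f ((a - t) / h) :=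
  Continuous.integrable_of_hasCompactSupport (by fun_prop) (cs_scale hs hh a)

lemma int_scale2 {f g : ℝ → ℝ} (hf : Continuous f) (hs : HasCompactSupport f) (hg : Continuous g)
    {h : ℝ} (hh : 0 < h) (a b : ℝ) :
    Integrable fun t : ℝ => f ((a - t) / h) * g ((b - t) / h) :=
  Continuous.integrable_of_hasCompactSupport (by fun_prop) ((cs_scale hs hh a).mul_right)

/-- the sum over all zeros is a finite sum -/
lemma fs_eq {k : ℝ → ℝ} (hk : ∀ x : ℝ, 2 ≤ |x| → k x = 0) {U1 U2 t : ℝ} (hU : 1 ≤ U1) (h1 : U1 + 2 ≤ t)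
    (h2 : t ≤ U2 - 2) :
    (∑ᶠ s ∈ ZS, (mz s : ℝ) * k (s.im - t)) = ∑ s ∈ H370.Zf riemannZeta U1 U2, (mz s : ℝ) * k (s.im - t) := by
  have hZ : ∀ s : ℂ, s ∈ H370.Zf riemannZeta U1 U2 ↔ s ∈ H370.zset riemannZeta U1 U2 := fun s =>
    H370.mem_Zf H370.good_zeta hU
  rw [finsum_mem_eq_sum_of_inter_support_eq]
  ext s
  simp only [mem_inter_iff, Function.mem_support, SetLike.mem_coe, hZ]
  constructor
  · rintro ⟨⟨ha, hb, hc⟩, hd⟩
    refine ⟨⟨hb, hc, ?_, ?_, ha⟩, hd⟩
    · by_contra h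
      push Not at h
      exact hd (by rw [hk _ (by rw [le_abs]; right; linarith), mul_zero])
    · by_contra h
      push Not at h
      exact hd (by rw [hk _ (by rw [le_abs]; left; linarith), mul_zero])
  · rintro ⟨⟨ha, hb, hc, hd, he⟩, hf⟩
    exact ⟨⟨he, ha, hb⟩, hf⟩

/-- the correlation vanishes for large shifts -/
lemma corr_supp {f g : ℝ → ℝ} {A : ℝ} (hf : ∀ x, A ≤ |x| → f x = 0) (hg : ∀ x, A ≤ |x| → g x = 0)
    {v : ℝ} (hv : 2 * A ≤ |v|) : ∫ u : ℝ, f u * g (u + v) = 0 := by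
  have h1 : (fun u : ℝ => f u * g (u + v)) = fun _ => 0 := by
    funext u
    by_cases h : A ≤ |u|
    · rw [hf u h, zero_mul]
    · rw [hg (u + v), mul_zero]
      push Not at h
      have h2 : |v| ≤ |u + v| + |u| := by
        have h3 : v = (u + v) - u := by ring
        calc |v| = |(u + v) - u| := by rw [← h3]
          _ ≤ |u + v| + |u| := abs_sub _ _
      linarith
  rw [h1, integral_zero]

/-- the pair sum as an integral -/
lemma PS_eq {f g : ℝ → ℝ} (hf : Continuous f) (hfs : HasCompactSupport f) (hg : Continuous g) {A : ℝ}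
    (hfA : ∀ x, A ≤ |x| → f x = 0) (hgA : ∀ x, A ≤ |x| → g x = 0) {h T : ℝ} (hh : 0 < h) (hA : A * h ≤ 1)
    (hT : 4 ≤ T) :
    h * PS (fun v => ∫ u : ℝ, f u * g (u + v)) h T =
      ∫ t : ℝ, Sm (H370.Zf riemannZeta T (2 * T)) f h t *
        Sm (H370.Zf riemannZeta (T - 3) (2 * T + 3)) g h t := by
  have h1 : ∀ z ∈ H370.Zf riemannZeta T (2 * T),
      (∑ᶠ w ∈ ZS, (mz w : ℝ) * (fun v => ∫ u : ℝ, f u * g (u + v)) ((w.im - z.im) / h)) =
      ∑ w ∈ H370.Zf riemannZeta (T - 3) (2 * T + 3),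
        (mz w : ℝ) * (fun v => ∫ u : ℝ, f u * g (u + v)) ((w.im - z.im) / h) := by
    intro z hz
    have hz' := (H370.mem_Zf H370.good_zeta (by linarith)).1 hz
    refine fs_eq (k := fun x => (fun v => ∫ u : ℝ, f u * g (u + v)) (x / h)) (fun x hx => ?_)
      (by linarith) (by linarith [hz'.2.2.1]) (by linarith [hz'.2.2.2.1])
    refine corr_supp hfA hgA ?_
    rw [abs_div, abs_of_pos hh, le_div_iff₀ hh]
    linarith
  unfold PS
  rw [Finset.sum_congr rfl fun z hz => by rw [h1 z hz]]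
  have h2 : ∀ t : ℝ, Sm (H370.Zf riemannZeta T (2 * T)) f h t *
      Sm (H370.Zf riemannZeta (T - 3) (2 * T + 3)) g h t =
      ∑ z ∈ H370.Zf riemannZeta T (2 * T), ∑ w ∈ H370.Zf riemannZeta (T - 3) (2 * T + 3),
        ((mz z : ℝ) * (mz w : ℝ)) * (f ((z.im - t) / h) * g ((w.im - t) / h)) := by
    intro t
    unfold Sm
    rw [Finset.sum_mul_sum]
    exact Finset.sum_congr rfl fun z _ => Finset.sum_congr rfl fun w _ => by ring
  simp_rw [h2]
  rw [integral_finsetSum _ fun z _ => integrable_finsetSum _ fun w _ =>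
    ((int_scale2 hf hfs hg hh z.im w.im).const_mul _), Finset.mul_sum]
  refine Finset.sum_congr rfl fun z _ => ?_
  rw [integral_finsetSum _ fun w _ => ((int_scale2 hf hfs hg hh z.im w.im).const_mul _), Finset.mul_sum,
    Finset.mul_sum]
  refine Finset.sum_congr rfl fun w _ => ?_
  rw [integral_const_mul, int_prod f g hh]
  ring

lemma Sm_int {f : ℝ → ℝ} (hf : Continuous f) (hfs : HasCompactSupport f) {h T : ℝ} (hh : 0 < h) (hT : 4 ≤ T) :
    ∫ t : ℝ, Sm (H370.Zf riemannZeta T (2 * T)) f h t =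
      (h * ∫ u : ℝ, f u) * (H370.NN riemannZeta T (2 * T) : ℝ) := by
  unfold Sm
  rw [integral_finsetSum _ fun z _ => ((int_scale hf hfs hh z.im).const_mul _),
    H370.NN_eq H370.good_zeta (by linarith), Nat.cast_sum, Finset.mul_sum]
  refine Finset.sum_congr rfl fun z _ => ?_
  rw [integral_const_mul, int_one f hh]
  unfold mz
  ring

/-- bound of a finite sum -/
lemma Sm_le {g : ℝ → ℝ} {A G : ℝ} (hgA : ∀ x, A ≤ |x| → g x = 0) (hG : ∀ x, |g x| ≤ G) {h : ℝ} (hh : 0 < h)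
    (hA : A * h ≤ 1) {Z : Finset ℂ} (hZ : ∀ s ∈ Z, 0 < s.re ∧ s.re < 1 ∧ riemannZeta s = 0) {t : ℝ}
    (ht : 3 ≤ t) : |Sm Z g h t| ≤ G * (H370.NN riemannZeta (t - 1) (t + 1) : ℝ) := by
  have hG0 : 0 ≤ G := (abs_nonneg _).trans (hG 0)
  rw [H370.NN_eq H370.good_zeta (by linarith), Nat.cast_sum, Finset.mul_sum]
  unfold Sm
  refine (Finset.abs_sum_le_sum_abs _ _).trans ?_
  have h1 : ∀ s ∈ Z, |(mz s : ℝ) * g ((s.im - t) / h)| ≤
      if s ∈ H370.Zf riemannZeta (t - 1) (t + 1) then G * (H370.mult riemannZeta s : ℝ) else 0 := by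
    intro s hs
    split_ifs with h2
    · rw [abs_mul, abs_of_nonneg (Nat.cast_nonneg _), mul_comm]
      exact mul_le_mul_of_nonneg_right (hG _) (Nat.cast_nonneg _)
    · rw [hgA, mul_zero, abs_zero]
      rw [H370.mem_Zf H370.good_zeta (by linarith)] at h2
      rw [abs_div, abs_of_pos hh, le_div_iff₀ hh]
      refine hA.trans ?_
      by_contra h3
      push Not at h3
      rw [abs_lt] at h3
      exact h2 ⟨(hZ s hs).1, (hZ s hs).2.1, by linarith, by linarith, (hZ s hs).2.2⟩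
  refine (Finset.sum_le_sum h1).trans ?_
  classical
  rw [← Finset.sum_filter]
  refine Finset.sum_le_sum_of_subset_of_nonneg (fun s hs => (Finset.mem_filter.1 hs).2) fun s _ _ => ?_
  positivity

/-- the error at the ends of the window -/
noncomputable def dl (f : ℝ → ℝ) (h T t : ℝ) : ℝ :=
  Sm (H370.Zf riemannZeta T (2 * T)) f h t -
    (Ioc T (2 * T)).indicator (Sm (H370.Zf riemannZeta (T - 3) (2 * T + 3)) f h) t

lemma dl_le {f : ℝ → ℝ} {A G C : ℝ} (hfA : ∀ x, A ≤ |x| → f x = 0) (hG : ∀ x, |f x| ≤ G)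
    (hz : ∀ t : ℝ, 3 ≤ t → (H370.NN riemannZeta (t - 1) (t + 1) : ℝ) ≤ C * Real.log t) (hC : 0 < C)
    {h T : ℝ} (hh : 0 < h) (hA0 : 0 < A) (hA : A * h ≤ 1) (hT : 10 ≤ T) (t : ℝ) :
    |dl f h T t| ≤ (Icc (T - A * h) (T + A * h) ∪ Icc (2 * T - A * h) (2 * T + A * h)).indicator
      (fun _ => 4 * G * C * Real.log T) t := by
  have hG0 : 0 ≤ G := (abs_nonneg _).trans (hG 0)
  have hAh : 0 < A * h := mul_pos hA0 hh
  have hm0 : ∀ s : ℂ, s ∈ H370.Zf riemannZeta T (2 * T) ↔ s ∈ H370.zset riemannZeta T (2 * T) :=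
    fun s => H370.mem_Zf H370.good_zeta (by linarith)
  have hm1 : ∀ s : ℂ, s ∈ H370.Zf riemannZeta (T - 3) (2 * T + 3) ↔
      s ∈ H370.zset riemannZeta (T - 3) (2 * T + 3) := fun s => H370.mem_Zf H370.good_zeta (by linarith)
  have hfz : ∀ {x : ℝ}, A * h ≤ |x| → f (x / h) = 0 := by
    intro x hx
    apply hfA
    rw [abs_div, abs_of_pos hh, le_div_iff₀ hh]
    exact hx
  by_cases hE : t ∈ Icc (T - A * h) (T + A * h) ∪ Icc (2 * T - A * h) (2 * T + A * h)
  · rw [indicator_of_mem hE]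
    have ht : T - 1 ≤ t ∧ t ≤ 2 * T + 1 := by
      rcases hE with hE | hE
      · exact ⟨by linarith [hE.1], by linarith [hE.2]⟩
      · exact ⟨by linarith [hE.1], by linarith [hE.2]⟩
    have hlog : Real.log t ≤ 2 * Real.log T := by
      have h1 : Real.log t ≤ Real.log (T ^ 2) := Real.log_le_log (by linarith) (by nlinarith)
      rw [Real.log_pow] at h1
      exact_mod_cast h1
    have hN : (H370.NN riemannZeta (t - 1) (t + 1) : ℝ) ≤ C * (2 * Real.log T) :=
      (hz t (by linarith)).trans (mul_le_mul_of_nonneg_left hlog hC.le)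
    have hlT : 0 ≤ Real.log T := Real.log_nonneg (by linarith)
    have h1 : |Sm (H370.Zf riemannZeta T (2 * T)) f h t| ≤ G * (C * (2 * Real.log T)) :=
      (Sm_le hfA hG hh hA (fun s hs => by
        have := (hm0 s).1 hs
        exact ⟨this.1, this.2.1, this.2.2.2.2⟩) (by linarith)).trans
        (mul_le_mul_of_nonneg_left hN hG0)
    have h2 : |Sm (H370.Zf riemannZeta (T - 3) (2 * T + 3)) f h t| ≤ G * (C * (2 * Real.log T)) :=
      (Sm_le hfA hG hh hA (fun s hs => by
        have := (hm1 s).1 hs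
        exact ⟨this.1, this.2.1, this.2.2.2.2⟩) (by linarith)).trans
        (mul_le_mul_of_nonneg_left hN hG0)
    have h3 : |(Ioc T (2 * T)).indicator (Sm (H370.Zf riemannZeta (T - 3) (2 * T + 3)) f h) t| ≤
        G * (C * (2 * Real.log T)) := by
      by_cases h4 : t ∈ Ioc T (2 * T)
      · rw [indicator_of_mem h4]; exact h2
      · rw [indicator_of_notMem h4, abs_zero]; positivity
    unfold dl
    refine (abs_sub _ _).trans ?_
    linarith
  · rw [indicator_of_notMem hE]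
    have h0 : dl f h T t = 0 := by
      rw [mem_union, not_or, mem_Icc, mem_Icc, not_and_or, not_and_or] at hE
      simp only [not_le] at hE
      unfold dl
      rcases hE with ⟨h1 | h1, h2⟩
      · -- below the window
        rw [indicator_of_notMem (fun h3 : t ∈ Ioc T (2 * T) => by linarith [h3.1]), sub_zero]
        unfold Sm
        refine Finset.sum_eq_zero fun s hs => ?_
        have h3 := ((hm0 s).1 hs).2.2.1
        rw [hfz (by rw [le_abs]; left; linarith), mul_zero]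
      · rcases h2 with h2 | h2
        · -- inside the window
          rw [indicator_of_mem (show t ∈ Ioc T (2 * T) from ⟨by linarith, by linarith⟩), sub_eq_zero]
          unfold Sm
          refine Finset.sum_subset (fun s hs => ?_) (fun s hs hs' => ?_)
          · rw [hm0] at hs
            rw [hm1]
            exact ⟨hs.1, hs.2.1, by linarith [hs.2.2.1], by linarith [hs.2.2.2.1], hs.2.2.2.2⟩
          · rw [hm1] at hs
            rw [hm0] at hs'
            rw [hfz, mul_zero]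
            by_contra h3
            push Not at h3
            rw [abs_lt] at h3
            exact hs' ⟨hs.1, hs.2.1, by linarith, by linarith, hs.2.2.2.2⟩
        · -- above the window
          rw [indicator_of_notMem (fun h3 : t ∈ Ioc T (2 * T) => by linarith [h3.2]), sub_zero]
          unfold Sm
          refine Finset.sum_eq_zero fun s hs => ?_
          have h3 := ((hm0 s).1 hs).2.2.2.1
          rw [hfz (by rw [le_abs]; right; linarith), mul_zero]
    rw [h0, abs_zero]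

/-- comparison of an integral over the line with the integral over the window -/
lemma cmp {f k : ℝ → ℝ} (hf : Continuous f) (hfs : HasCompactSupport f) (hk : Continuous k) {A G C M : ℝ}
    (hfA : ∀ x, A ≤ |x| → f x = 0) (hG : ∀ x, |f x| ≤ G)
    (hz : ∀ t : ℝ, 3 ≤ t → (H370.NN riemannZeta (t - 1) (t + 1) : ℝ) ≤ C * Real.log t) (hC : 0 < C)
    {h T : ℝ} (hh : 0 < h) (hA0 : 0 < A) (hA : A * h ≤ 1) (hT : 10 ≤ T)
    (hM : ∀ t : ℝ, T - 1 ≤ t → t ≤ 2 * T + 1 → |k t| ≤ M) :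
    |(∫ t : ℝ, Sm (H370.Zf riemannZeta T (2 * T)) f h t * k t) -
      ∫ t in T..(2 * T), Sm (H370.Zf riemannZeta (T - 3) (2 * T + 3)) f h t * k t| ≤
      4 * A * h * (4 * G * C * Real.log T * M) := by
  have hAh : 0 < A * h := mul_pos hA0 hh
  have hG0 : 0 ≤ G := (abs_nonneg _).trans (hG 0)
  have hlT : 0 ≤ Real.log T := Real.log_nonneg (by linarith)
  have hM0 : 0 ≤ M := (abs_nonneg _).trans (hM T (by linarith) (by linarith))
  have i1 : Integrable fun t : ℝ => Sm (H370.Zf riemannZeta T (2 * T)) f h t * k t := by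
    unfold Sm
    simp_rw [Finset.sum_mul]
    refine integrable_finsetSum _ fun z _ => ?_
    refine Continuous.integrable_of_hasCompactSupport (by fun_prop) ?_
    exact ((cs_scale hfs hh z.im).mul_left).mul_right
  have c2 : Continuous fun t : ℝ => Sm (H370.Zf riemannZeta (T - 3) (2 * T + 3)) f h t * k t :=
    (Sm_cont _ hf h).mul hk
  have i2 : Integrable ((Ioc T (2 * T)).indicator fun t : ℝ =>
      Sm (H370.Zf riemannZeta (T - 3) (2 * T + 3)) f h t * k t) :=
    (integrable_indicator_iff measurableSet_Ioc).2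
      ((c2.integrableOn_Icc (a := T) (b := 2 * T)).mono_set Ioc_subset_Icc_self)
  rw [intervalIntegral.integral_of_le (by linarith), ← integral_indicator measurableSet_Ioc,
    ← integral_sub i1 i2]
  have hE : ∀ t : ℝ, ‖Sm (H370.Zf riemannZeta T (2 * T)) f h t * k t -
      (Ioc T (2 * T)).indicator (fun t : ℝ =>
        Sm (H370.Zf riemannZeta (T - 3) (2 * T + 3)) f h t * k t) t‖ ≤
      (Icc (T - A * h) (T + A * h) ∪ Icc (2 * T - A * h) (2 * T + A * h)).indicator
        (fun _ => 4 * G * C * Real.log T * M) t := by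
    intro t
    have h1 : Sm (H370.Zf riemannZeta T (2 * T)) f h t * k t -
      (Ioc T (2 * T)).indicator (fun t : ℝ =>
        Sm (H370.Zf riemannZeta (T - 3) (2 * T + 3)) f h t * k t) t = dl f h T t * k t := by
      unfold dl
      by_cases h2 : t ∈ Ioc T (2 * T)
      · rw [indicator_of_mem h2, indicator_of_mem h2, sub_mul]
      · rw [indicator_of_notMem h2, indicator_of_notMem h2, sub_mul, zero_mul]
    rw [h1, norm_mul, Real.norm_eq_abs, Real.norm_eq_abs]
    have h2 := dl_le hfA hG hz hC hh hA0 hA hT t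
    by_cases h3 : t ∈ Icc (T - A * h) (T + A * h) ∪ Icc (2 * T - A * h) (2 * T + A * h)
    · rw [indicator_of_mem h3] at h2 ⊢
      refine mul_le_mul h2 (hM t ?_ ?_) (abs_nonneg _) (by positivity)
      · rcases h3 with h3 | h3 <;> linarith [h3.1]
      · rcases h3 with h3 | h3 <;> linarith [h3.2]
    · rw [indicator_of_notMem h3] at h2 ⊢
      have h4 : |dl f h T t| = 0 := le_antisymm h2 (abs_nonneg _)
      rw [h4, zero_mul]
  have hms : MeasurableSet (Icc (T - A * h) (T + A * h) ∪ Icc (2 * T - A * h) (2 * T + A * h)) :=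
    measurableSet_Icc.union measurableSet_Icc
  have hvol : (volume (Icc (T - A * h) (T + A * h) ∪ Icc (2 * T - A * h) (2 * T + A * h))).toReal ≤
      4 * A * h := by
    have h1 : (volume (Icc (T - A * h) (T + A * h) ∪ Icc (2 * T - A * h) (2 * T + A * h))) ≤
        ENNReal.ofReal (2 * (A * h)) + ENNReal.ofReal (2 * (A * h)) := by
      refine (measure_union_le _ _).trans (le_of_eq ?_)
      rw [Real.volume_Icc, Real.volume_Icc]
      congr 2 <;> ring
    rw [← ENNReal.ofReal_add (by positivity) (by positivity)] at h1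
    refine (ENNReal.toReal_mono ENNReal.ofReal_ne_top h1).trans (le_of_eq ?_)
    rw [ENNReal.toReal_ofReal (by positivity)]
    ring
  have hfin : volume (Icc (T - A * h) (T + A * h) ∪ Icc (2 * T - A * h) (2 * T + A * h)) ≠ ⊤ :=
    ((measure_union_le _ _).trans_lt (by
      rw [Real.volume_Icc, Real.volume_Icc]
      exact ENNReal.add_lt_top.2 ⟨ENNReal.ofReal_lt_top, ENNReal.ofReal_lt_top⟩)).ne
  have i3 : Integrable ((Icc (T - A * h) (T + A * h) ∪ Icc (2 * T - A * h) (2 * T + A * h)).indicator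
      (fun _ : ℝ => 4 * G * C * Real.log T * M)) :=
    (integrable_indicator_iff hms).2 (integrableOn_const hfin)
  calc |∫ t : ℝ, (Sm (H370.Zf riemannZeta T (2 * T)) f h t * k t -
      (Ioc T (2 * T)).indicator (fun t : ℝ =>
        Sm (H370.Zf riemannZeta (T - 3) (2 * T + 3)) f h t * k t) t)| ≤
      ∫ t : ℝ, (Icc (T - A * h) (T + A * h) ∪ Icc (2 * T - A * h) (2 * T + A * h)).indicator
        (fun _ : ℝ => 4 * G * C * Real.log T * M) t :=
        norm_integral_le_of_norm_le i3 (Eventually.of_forall hE)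
    _ = (volume (Icc (T - A * h) (T + A * h) ∪ Icc (2 * T - A * h) (2 * T + A * h))).toReal *
        (4 * G * C * Real.log T * M) := by
        rw [integral_indicator hms, setIntegral_const, smul_eq_mul]
        rfl
    _ ≤ 4 * A * h * (4 * G * C * Real.log T * M) :=
        mul_le_mul_of_nonneg_right hvol (by positivity)

/-! ### the transform of a correlation -/

lemma FF_corr {f g : ℝ → ℝ} (hf : Continuous f) (hfs : HasCompactSupport f) (hg : Continuous g)
    (hgs : HasCompactSupport g) (ξ : ℝ) :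
    FF (fun v => ∫ u : ℝ, f u * g (u + v)) ξ = (starRingEnd ℂ) (FF f ξ) * FF g ξ := by
  obtain ⟨A, hA, hfA⟩ := FINL.bd hfs
  obtain ⟨B, hB, hgB⟩ := FINL.bd hgs
  have h1 : ∀ s : ℝ, (((∫ u : ℝ, f u * g (u + s) : ℝ)) : ℂ) * cexp (-(((ξ * s : ℝ) : ℂ) * I)) =
      ∫ u : ℝ, (f u : ℂ) * (g (u + s) : ℂ) * cexp (-(((ξ * s : ℝ) : ℂ) * I)) := by
    intro s
    rw [integral_mul_const]
    congr 1
    rw [← integral_complex_ofReal]
    refine integral_congr_ae (Eventually.of_forall fun u => ?_)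
    simp only [Complex.ofReal_mul]
  have hint : Integrable (Function.uncurry fun s u : ℝ =>
      (f u : ℂ) * (g (u + s) : ℂ) * cexp (-(((ξ * s : ℝ) : ℂ) * I))) (volume.prod volume) := by
    refine Continuous.integrable_of_hasCompactSupport (by unfold Function.uncurry; fun_prop) ?_
    refine HasCompactSupport.intro ((isCompact_Icc (a := -(A + B)) (b := A + B)).prod
      (isCompact_Icc (a := -A) (b := A))) fun p hp => ?_
    rw [mem_prod, not_and_or] at hp
    unfold Function.uncurry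
    by_cases hu : A ≤ |p.2|
    · simp only [hfA _ hu, Complex.ofReal_zero, zero_mul]
    · push Not at hu
      have h2 : p.2 ∈ Icc (-A) A := ⟨(abs_lt.1 hu).1.le, (abs_lt.1 hu).2.le⟩
      have h3 : p.1 ∉ Icc (-(A + B)) (A + B) := hp.resolve_right (fun h => h h2)
      have h4 : B ≤ |p.2 + p.1| := by
        rw [mem_Icc, not_and_or, not_le, not_le] at h3
        have h5 := abs_lt.1 hu
        rcases h3 with h3 | h3
        · rw [le_abs]; right; linarith [h5.2]
        · rw [le_abs]; left; linarith [h5.1]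
      simp only [hgB _ h4, Complex.ofReal_zero, mul_zero, zero_mul]
  have h2 : ∀ u : ℝ, ∫ s : ℝ, (f u : ℂ) * (g (u + s) : ℂ) * cexp (-(((ξ * s : ℝ) : ℂ) * I)) =
      ((f u : ℂ) * cexp (((ξ * u : ℝ) : ℂ) * I)) * FF g ξ := by
    intro u
    have h3 : (fun s : ℝ => (f u : ℂ) * (g (u + s) : ℂ) * cexp (-(((ξ * s : ℝ) : ℂ) * I))) =
        fun s : ℝ => (fun w : ℝ => ((f u : ℂ) * cexp (((ξ * u : ℝ) : ℂ) * I)) *
          ((g w : ℂ) * cexp (-(((ξ * w : ℝ) : ℂ) * I)))) (u + s) := by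
      funext s
      have h4 : cexp (-(((ξ * s : ℝ) : ℂ) * I)) =
          cexp (((ξ * u : ℝ) : ℂ) * I) * cexp (-(((ξ * (u + s) : ℝ) : ℂ) * I)) := by
        rw [← Complex.exp_add]
        congr 1
        push_cast
        ring
      simp only [h4]
      ring
    rw [h3, integral_add_left_eq_self (fun w : ℝ => ((f u : ℂ) * cexp (((ξ * u : ℝ) : ℂ) * I)) *
          ((g w : ℂ) * cexp (-(((ξ * w : ℝ) : ℂ) * I)))) u, integral_const_mul]
    rfl
  have h3 : (∫ u : ℝ, (f u : ℂ) * cexp (((ξ * u : ℝ) : ℂ) * I)) = (starRingEnd ℂ) (FF f ξ) := by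
    unfold FF
    rw [← integral_conj]
    refine integral_congr_ae (Eventually.of_forall fun u => ?_)
    simp only [map_mul, Complex.conj_ofReal, ← Complex.exp_conj, map_neg, Complex.conj_I]
    congr 2
    ring
  calc FF (fun v => ∫ u : ℝ, f u * g (u + v)) ξ =
      ∫ s : ℝ, ∫ u : ℝ, (f u : ℂ) * (g (u + s) : ℂ) * cexp (-(((ξ * s : ℝ) : ℂ) * I)) :=
        integral_congr_ae (Eventually.of_forall fun s => h1 s)
    _ = ∫ u : ℝ, ∫ s : ℝ, (f u : ℂ) * (g (u + s) : ℂ) * cexp (-(((ξ * s : ℝ) : ℂ) * I)) :=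
        integral_integral_swap hint
    _ = ∫ u : ℝ, ((f u : ℂ) * cexp (((ξ * u : ℝ) : ℂ) * I)) * FF g ξ :=
        integral_congr_ae (Eventually.of_forall fun u => h2 u)
    _ = (starRingEnd ℂ) (FF f ξ) * FF g ξ := by rw [integral_mul_const, h3]

lemma FF_zero (f : ℝ → ℝ) : FF f 0 = ((∫ x : ℝ, f x : ℝ) : ℂ) := by
  unfold FF
  rw [← integral_complex_ofReal]
  refine integral_congr_ae (Eventually.of_forall fun u => ?_)
  simp

lemma int_corr {f g : ℝ → ℝ} (hf : Continuous f) (hfs : HasCompactSupport f) (hg : Continuous g)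
    (hgs : HasCompactSupport g) :
    ∫ v : ℝ, ∫ u : ℝ, f u * g (u + v) = (∫ x : ℝ, f x) * ∫ x : ℝ, g x := by
  have h1 := FF_corr hf hfs hg hgs 0
  rw [FF_zero, FF_zero, FF_zero, Complex.conj_ofReal, ← Complex.ofReal_mul] at h1
  exact Complex.ofReal_injective h1

/-! ### the comparison for one height -/

lemma main_T {f g : ℝ → ℝ} (hf : ContDiff ℝ 2 f) (hfs : HasCompactSupport f) (hg : ContDiff ℝ 2 g)
    (hgs : HasCompactSupport g) : ∃ K T0 A : ℝ, 0 < K ∧ 10 ≤ T0 ∧ 0 < A ∧ ∀ T h : ℝ, T0 ≤ T → 0 < h → A * h ≤ 1 →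
    |h * (PS (fun v => ∫ u : ℝ, f u * g (u + v)) h T -
        h * (H370.NN riemannZeta T (2 * T) : ℝ) ^ 2 / T * ∫ v : ℝ, ∫ u : ℝ, f u * g (u + v)) -
      ∫ t in T..(2 * T), XF (fun x => f (x / h)) T t * XF (fun x => g (x / h)) T t| ≤
      K * (h ^ 2 * T + h ^ 2 * Real.log T ^ 2 + h * Real.log T ^ 2) := by
  obtain ⟨A1, hA1, hfA1⟩ := FINL.bd hfs
  obtain ⟨A2, hA2, hgA2⟩ := FINL.bd hgs
  obtain ⟨A, hA0, hfA, hgA⟩ : ∃ A : ℝ, 0 < A ∧ (∀ x, A ≤ |x| → f x = 0) ∧ (∀ x, A ≤ |x| → g x = 0) :=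
    ⟨max A1 A2, lt_max_of_lt_left hA1, fun x hx => hfA1 x ((le_max_left _ _).trans hx),
      fun x hx => hgA2 x ((le_max_right _ _).trans hx)⟩
  obtain ⟨G1, hG1⟩ := hf.continuous.bounded_above_of_compact_support hfs
  obtain ⟨G2, hG2⟩ := hg.continuous.bounded_above_of_compact_support hgs
  obtain ⟨G, hfG, hgG⟩ : ∃ G : ℝ, (∀ x, |f x| ≤ G) ∧ (∀ x, |g x| ≤ G) :=
    ⟨max G1 G2, fun x => (hG1 x).trans (le_max_left _ _), fun x => (hG2 x).trans (le_max_right _ _)⟩
  have hG0 : 0 ≤ G := (abs_nonneg _).trans (hfG 0)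
  obtain ⟨C, hC, hz⟩ := H370.zcount H370.good_zeta
  obtain ⟨C1, T1, hC1, hT1, hnn⟩ := H370.nn_asymp H370.good_zeta
  obtain ⟨a, ha⟩ : ∃ a : ℝ, a = ∫ x : ℝ, f x := ⟨_, rfl⟩
  obtain ⟨b, hb⟩ : ∃ b : ℝ, b = ∫ x : ℝ, g x := ⟨_, rfl⟩
  refine ⟨|a| * |b| * C1 ^ 2 + (|a| + |b|) * (16 * A * G * C) + 32 * A * G * G * C * C + 1,
    max T1 10, A, by positivity, le_max_right _ _, hA0, fun T h hT hh hA => ?_⟩
  have hT10 : 10 ≤ T := (le_max_right _ _).trans hT
  have hT0 : 0 < T := by linarith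
  obtain ⟨N, hN⟩ : ∃ N : ℝ, N = (H370.NN riemannZeta T (2 * T) : ℝ) := ⟨_, rfl⟩
  obtain ⟨L, hL⟩ : ∃ L : ℝ, L = Real.log T := ⟨_, rfl⟩
  have hL0 : 0 ≤ L := by rw [hL]; exact Real.log_nonneg (by linarith)
  have hNN : |N - T * L / (2 * Real.pi)| ≤ C1 * T := by
    rw [hN, hL]
    exact hnn T ((le_max_left _ _).trans hT) T (2 * T) le_rfl (by linarith) (by linarith) le_rfl
  obtain ⟨l, hl⟩ : ∃ l : ℝ, l = L / (2 * Real.pi) := ⟨_, rfl⟩
  have hl0 : 0 ≤ l := by rw [hl]; positivity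
  have hlL : l ≤ L := by
    rw [hl]
    refine div_le_self hL0 ?_
    linarith [Real.pi_gt_three]
  have hcf := hf.continuous
  have hcg := hg.continuous
  -- the statistics on the window
  obtain ⟨Sf, hSf⟩ : ∃ Sf, Sf = Sm (H370.Zf riemannZeta (T - 3) (2 * T + 3)) f h := ⟨_, rfl⟩
  obtain ⟨Sg, hSg⟩ : ∃ Sg, Sg = Sm (H370.Zf riemannZeta (T - 3) (2 * T + 3)) g h := ⟨_, rfl⟩
  have hXf : ∀ t ∈ Icc T (2 * T), XF (fun x => f (x / h)) T t = Sf t - l * (h * a) := by
    intro t ht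
    rw [XF_eq (FINL.c2c_scale hf hfA hh (by linarith)) (U1 := T - 3) (U2 := 2 * T + 3) (by linarith)
      (by linarith [ht.1]) (by linarith [ht.2]), Measure.integral_comp_div, abs_of_pos hh, smul_eq_mul,
      hSf, hl, hL, ha]
    rfl
  have hXg : ∀ t ∈ Icc T (2 * T), XF (fun x => g (x / h)) T t = Sg t - l * (h * b) := by
    intro t ht
    rw [XF_eq (FINL.c2c_scale hg hgA hh (by linarith)) (U1 := T - 3) (U2 := 2 * T + 3) (by linarith)
      (by linarith [ht.1]) (by linarith [ht.2]), Measure.integral_comp_div, abs_of_pos hh, smul_eq_mul,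
      hSg, hl, hL, hb]
    rfl
  have hSfc : Continuous Sf := by rw [hSf]; exact Sm_cont _ hcf h
  have hSgc : Continuous Sg := by rw [hSg]; exact Sm_cont _ hcg h
  -- the integral over the window
  have hI : ∫ t in T..(2 * T), XF (fun x => f (x / h)) T t * XF (fun x => g (x / h)) T t =
      (∫ t in T..(2 * T), Sf t * Sg t) - l * (h * b) * (∫ t in T..(2 * T), Sf t) -
        l * (h * a) * (∫ t in T..(2 * T), Sg t) + l * (h * a) * (l * (h * b)) * T := by
    have h1 : ∫ t in T..(2 * T), XF (fun x => f (x / h)) T t * XF (fun x => g (x / h)) T t =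
        ∫ t in T..(2 * T), (((Sf t * Sg t - l * (h * b) * Sf t) - l * (h * a) * Sg t) +
          l * (h * a) * (l * (h * b))) := by
      refine intervalIntegral.integral_congr fun t ht => ?_
      rw [uIcc_of_le (by linarith)] at ht
      simp only [hXf t ht, hXg t ht]
      ring
    rw [h1, intervalIntegral.integral_add, intervalIntegral.integral_sub, intervalIntegral.integral_sub,
      intervalIntegral.integral_const_mul, intervalIntegral.integral_const_mul,
      intervalIntegral.integral_const, smul_eq_mul]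
    · ring
    all_goals exact Continuous.intervalIntegrable (by fun_prop) _ _
  -- the three errors
  obtain ⟨r0, hr0⟩ : ∃ r0 : ℝ, r0 = h * PS (fun v => ∫ u : ℝ, f u * g (u + v)) h T -
      ∫ t in T..(2 * T), Sf t * Sg t := ⟨_, rfl⟩
  obtain ⟨r1, hr1⟩ : ∃ r1 : ℝ, r1 = h * a * N - ∫ t in T..(2 * T), Sf t := ⟨_, rfl⟩
  obtain ⟨r2, hr2⟩ : ∃ r2 : ℝ, r2 = h * b * N - ∫ t in T..(2 * T), Sg t := ⟨_, rfl⟩
  have b0 : |r0| ≤ 32 * A * G * G * C * C * (h * L ^ 2) := by
    have h1 := cmp hcf hfs hSgc hfA hfG hz hC hh hA0 hA hT10 (M := G * (C * (2 * L)))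
      (fun t ht1 ht2 => by
        rw [hSg]
        refine (Sm_le hgA hgG hh hA (fun s hs => ?_) (by linarith)).trans
          (mul_le_mul_of_nonneg_left ((hz t (by linarith)).trans
            (mul_le_mul_of_nonneg_left ?_ hC.le)) hG0)
        · have := (H370.mem_Zf H370.good_zeta (by linarith)).1 hs
          exact ⟨this.1, this.2.1, this.2.2.2.2⟩
        · have h1 : Real.log t ≤ Real.log (T ^ 2) := Real.log_le_log (by linarith) (by nlinarith)
          rw [Real.log_pow] at h1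
          rw [hL]
          exact_mod_cast h1)
    rw [hr0, PS_eq hcf hfs hcg hfA hgA hh hA (by linarith), hSf]
    rw [← hL] at h1
    rw [hSg] at h1 ⊢
    refine h1.trans (le_of_eq ?_)
    ring
  have hlin : ∀ {k : ℝ → ℝ}, Continuous k → HasCompactSupport k → (∀ x, A ≤ |x| → k x = 0) →
      (∀ x, |k x| ≤ G) → |h * (∫ x : ℝ, k x) * N -
        ∫ t in T..(2 * T), Sm (H370.Zf riemannZeta (T - 3) (2 * T + 3)) k h t| ≤
        16 * A * G * C * (h * L) := by
    intro k hk hks hkA hkG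
    have h1 := cmp hk hks (continuous_const (y := (1 : ℝ))) hkA hkG hz hC hh hA0 hA hT10 (M := 1)
      (fun t _ _ => by simp)
    simp only [mul_one] at h1
    rw [Sm_int hk hks hh (by linarith), ← hN, ← hL] at h1
    refine h1.trans (le_of_eq ?_)
    ring
  have b1 : |r1| ≤ 16 * A * G * C * (h * L) := by
    rw [hr1, ha, hSf]; exact hlin hcf hfs hfA hfG
  have b2 : |r2| ≤ 16 * A * G * C * (h * L) := by
    rw [hr2, hb, hSg]; exact hlin hcg hgs hgA hgG
  -- the algebra
  have hid : h * (PS (fun v => ∫ u : ℝ, f u * g (u + v)) h T -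
        h * (H370.NN riemannZeta T (2 * T) : ℝ) ^ 2 / T * ∫ v : ℝ, ∫ u : ℝ, f u * g (u + v)) -
      ∫ t in T..(2 * T), XF (fun x => f (x / h)) T t * XF (fun x => g (x / h)) T t =
      r0 - l * (h * b) * r1 - l * (h * a) * r2 - h ^ 2 * (a * b) * ((N - T * l) ^ 2 / T) := by
    rw [hI, int_corr hcf hfs hcg hgs, ← ha, ← hb, ← hN, hr0, hr1, hr2]
    field_simp
    ring
  rw [hid]
  have hNl : (N - T * l) ^ 2 / T ≤ C1 ^ 2 * T := by
    rw [div_le_iff₀ hT0]
    have h1 : |N - T * l| ≤ C1 * T := by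
      rw [hl, ← mul_div_assoc]; exact hNN
    have h2 : (N - T * l) ^ 2 ≤ (C1 * T) ^ 2 := sq_le_sq' (by linarith [(abs_le.1 h1).1]) (abs_le.1 h1).2
    calc (N - T * l) ^ 2 ≤ (C1 * T) ^ 2 := h2
      _ = C1 ^ 2 * T * T := by ring
  have hNl0 : 0 ≤ (N - T * l) ^ 2 / T := by positivity
  have e1 : |l * (h * b) * r1| ≤ |b| * (16 * A * G * C) * (h ^ 2 * L ^ 2) := by
    rw [abs_mul, abs_mul, abs_mul, abs_of_nonneg hl0, abs_of_pos hh]
    calc l * (h * |b|) * |r1| ≤ L * (h * |b|) * (16 * A * G * C * (h * L)) := by gcongr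
      _ = |b| * (16 * A * G * C) * (h ^ 2 * L ^ 2) := by ring
  have e2 : |l * (h * a) * r2| ≤ |a| * (16 * A * G * C) * (h ^ 2 * L ^ 2) := by
    rw [abs_mul, abs_mul, abs_mul, abs_of_nonneg hl0, abs_of_pos hh]
    calc l * (h * |a|) * |r2| ≤ L * (h * |a|) * (16 * A * G * C * (h * L)) := by gcongr
      _ = |a| * (16 * A * G * C) * (h ^ 2 * L ^ 2) := by ring
  have e3 : |h ^ 2 * (a * b) * ((N - T * l) ^ 2 / T)| ≤ |a| * |b| * C1 ^ 2 * (h ^ 2 * T) := by
    rw [abs_mul, abs_mul, abs_mul, abs_of_nonneg hNl0, abs_of_nonneg (sq_nonneg h)]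
    calc h ^ 2 * (|a| * |b|) * ((N - T * l) ^ 2 / T) ≤ h ^ 2 * (|a| * |b|) * (C1 ^ 2 * T) := by gcongr
      _ = |a| * |b| * C1 ^ 2 * (h ^ 2 * T) := by ring
  have e4 : |r0 - l * (h * b) * r1 - l * (h * a) * r2 - h ^ 2 * (a * b) * ((N - T * l) ^ 2 / T)| ≤
      |r0| + |l * (h * b) * r1| + |l * (h * a) * r2| + |h ^ 2 * (a * b) * ((N - T * l) ^ 2 / T)| := by
    refine (abs_sub _ _).trans (add_le_add ?_ le_rfl)
    refine (abs_sub _ _).trans (add_le_add ?_ le_rfl)
    exact abs_sub _ _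
  refine e4.trans ?_
  rw [← hL]
  have p1 : 0 ≤ h ^ 2 * T := by positivity
  have p2 : 0 ≤ h ^ 2 * L ^ 2 := by positivity
  have p3 : 0 ≤ h * L ^ 2 := by positivity
  have q1 : 0 ≤ |a| * |b| * C1 ^ 2 := by positivity
  have q2 : 0 ≤ (|a| + |b|) * (16 * A * G * C) := by positivity
  have q3 : 0 ≤ 32 * A * G * G * C * C := by positivity
  calc |r0| + |l * (h * b) * r1| + |l * (h * a) * r2| + |h ^ 2 * (a * b) * ((N - T * l) ^ 2 / T)| ≤
      32 * A * G * G * C * C * (h * L ^ 2) + |b| * (16 * A * G * C) * (h ^ 2 * L ^ 2) +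
        |a| * (16 * A * G * C) * (h ^ 2 * L ^ 2) + |a| * |b| * C1 ^ 2 * (h ^ 2 * T) := by linarith
    _ = 32 * A * G * G * C * C * (h * L ^ 2) + (|a| + |b|) * (16 * A * G * C) * (h ^ 2 * L ^ 2) +
        |a| * |b| * C1 ^ 2 * (h ^ 2 * T) := by ring
    _ ≤ (|a| * |b| * C1 ^ 2 + (|a| + |b|) * (16 * A * G * C) + 32 * A * G * G * C * C + 1) *
        (h ^ 2 * T + h ^ 2 * L ^ 2 + h * L ^ 2) := by
        nlinarith [mul_nonneg q1 p2, mul_nonneg q1 p3, mul_nonneg q2 p1, mul_nonneg q2 p3,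
          mul_nonneg q3 p1, mul_nonneg q3 p2]

end PCCL

open PCCL in
theorem t_PCC (hS : S_SEC) : S_PCC := by
  intro f g hf hfs hg hgs h h0 hinf
  have hcf := hf.continuous
  have hcg := hg.continuous
  have hre : ∀ ξ : ℝ, (FF (fun v => ∫ u : ℝ, f u * g (u + v)) ξ).re =
      (FF f ξ * (starRingEnd ℂ) (FF g ξ)).re := by
    intro ξ
    rw [FF_corr hcf hfs hcg hgs, Complex.mul_re, Complex.mul_re, Complex.conj_re, Complex.conj_im,
      Complex.conj_re, Complex.conj_im]
    ring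
  have hcv : 1 / (2 * Real.pi ^ 2) * ∫ ξ in Ioi (0 : ℝ),
      ξ * (FF (fun v => ∫ u : ℝ, f u * g (u + v)) ξ).re = cv f g := by
    unfold cv
    simp_rw [hre]
  refine ⟨?_, ?_⟩
  swap
  · have h1 := COVL.Tm_int hf hg hfs hgs (a := 1) (b := 1) one_pos one_pos
    refine h1.congr_fun (fun ξ _ => ?_) measurableSet_Ioi
    simp only [hre]
    simp
  rw [hcv]
  obtain ⟨K, T0, A, hK, hT0, hA0, hmain⟩ := main_T hf hfs hg hgs
  have hsec := hS f g hf hfs hg hgs h h0 hinf
  -- the error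
  have hpos : ∀ᶠ T in atTop, 0 < h T := by
    filter_upwards [hinf.eventually (eventually_gt_atTop 0), eventually_gt_atTop (1 : ℝ)] with T h1 h2
    have h3 := Real.log_pos h2
    by_contra h4
    push Not at h4
    nlinarith
  have hAe : ∀ᶠ T in atTop, A * h T ≤ 1 := by
    have h1 : ∀ᶠ T in atTop, h T < 1 / A := h0.eventually (gt_mem_nhds (by positivity))
    filter_upwards [h1] with T h2
    rw [lt_div_iff₀ hA0] at h2
    linarith
  have hlog : Tendsto (fun T : ℝ => Real.log T ^ 2 / T) atTop (𝓝 0) :=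
    (Real.isLittleO_pow_log_id_atTop (n := 2)).tendsto_div_nhds_zero
  have herr : Tendsto (fun T : ℝ => K * (h T ^ 2 + h T ^ 2 * (Real.log T ^ 2 / T) +
      h T * (Real.log T ^ 2 / T))) atTop (𝓝 0) := by
    have h1 : Tendsto (fun T : ℝ => h T ^ 2) atTop (𝓝 0) := by
      have := h0.pow 2
      simpa using this
    have h2 := ((h1.add (h1.mul hlog)).add (h0.mul hlog)).const_mul K
    simpa using h2
  have hdiff : Tendsto (fun T : ℝ => h T / T * (PS (fun v => ∫ u : ℝ, f u * g (u + v)) (h T) T -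
        h T * (H370.NN riemannZeta T (2 * T) : ℝ) ^ 2 / T * ∫ v : ℝ, ∫ u : ℝ, f u * g (u + v)) -
      1 / T * ∫ t in T..(2 * T), XF (fun x => f (x / h T)) T t * XF (fun x => g (x / h T)) T t)
      atTop (𝓝 0) := by
    refine squeeze_zero_norm' ?_ herr
    filter_upwards [hpos, hAe, eventually_ge_atTop T0] with T h1 h2 h3
    have hT : 0 < T := by linarith
    have h4 := hmain T (h T) h3 h1 h2
    have h5 : h T / T * (PS (fun v => ∫ u : ℝ, f u * g (u + v)) (h T) T -
        h T * (H370.NN riemannZeta T (2 * T) : ℝ) ^ 2 / T * ∫ v : ℝ, ∫ u : ℝ, f u * g (u + v)) -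
      1 / T * ∫ t in T..(2 * T), XF (fun x => f (x / h T)) T t * XF (fun x => g (x / h T)) T t =
      1 / T * (h T * (PS (fun v => ∫ u : ℝ, f u * g (u + v)) (h T) T -
        h T * (H370.NN riemannZeta T (2 * T) : ℝ) ^ 2 / T * ∫ v : ℝ, ∫ u : ℝ, f u * g (u + v)) -
      ∫ t in T..(2 * T), XF (fun x => f (x / h T)) T t * XF (fun x => g (x / h T)) T t) := by ring
    rw [h5, Real.norm_eq_abs, abs_mul, abs_of_pos (by positivity : 0 < 1 / T)]
    refine (mul_le_mul_of_nonneg_left h4 (by positivity)).trans (le_of_eq ?_)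
    field_simp
  have := hdiff.add hsec
  simpa using this

end Pool.Agent.H203.ME
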