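import Pool.Agent.H203.ME.Defs5

set_option autoImplicit false

/-! Leaf KPT of project MESO (helper203): pointwise bounds of the smoothing error (the lemmas are those of KP.lean). -/

open Complex Filter Topology Set MeasureTheory

namespace Pool.Agent.H203.ME

namespace KPTL

open L1BL L1AL

/-- the second difference, pointwise (from the proof of `t_L1B`) -/
lemma sec {C : ℝ} (hC : 0 < C) (hker : ∀ R x y : ℝ, 1 ≤ R →
    ‖WR R ((x : ℂ) + (y : ℂ) * I)‖ ≤ C * R * Real.exp (R * |y|) * Real.exp (y ^ 2 / 2) /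
      (1 + (R * x) ^ 4)) {F : ℝ → ℝ} (hF : C2c F) {R y : ℝ} (hR : 1 ≤ R) (hy : |y| ≤ 1 / 2)
    (x : ℝ) :
    ‖KF F R ((x : ℂ) + (y : ℂ) * I) + KF F R ((x : ℂ) - (y : ℂ) * I) - 2 * KF F R x‖ ≤
      2 * y ^ 2 * (C * R * Real.exp (R * |y|) * Real.exp 1) *
        ∫ s, |deriv (deriv F) s| * q4 R (x - s) := by
  have hF0 : Cc F := ⟨hF.cd.continuous, hF.supp⟩
  have hFd1 : ContDiff ℝ 1 F := hF.cd.of_le (by norm_num)
  have hF'd : ContDiff ℝ 1 (deriv F) := by
    have := hF.cd
    rw [show (2 : WithTop ℕ∞) = 1 + 1 by norm_num] at this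
    exact (contDiff_succ_iff_deriv.1 this).2.2
  have hF1 : Cc (deriv F) := cc_deriv hF0 hFd1
  have hF2 : Cc (deriv (deriv F)) := cc_deriv hF1 hF'd
  set f2 : ℝ → ℝ := deriv (deriv F) with hf2
  set Bx : ℝ → ℝ := fun x => ∫ s, |f2 s| * q4 R (x - s) with hBx
  set A : ℝ := C * R * Real.exp (R * |y|) * Real.exp 1 with hA
  have hA0 : 0 ≤ A := by positivity
  have hpt : ∀ x v : ℝ, |v| ≤ |y| → ‖KF f2 R ((x : ℂ) + (v : ℂ) * I)‖ ≤ A * Bx x := by
    intro x v hv
    unfold KF
    rw [hBx]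
    simp only
    rw [← integral_const_mul]
    refine norm_integral_le_of_norm_le ?_ (Eventually.of_forall fun s => ?_)
    · have hc : Continuous fun s => A * (|f2 s| * q4 R (x - s)) := by
        have := hF2.c
        have := q4_cont R
        fun_prop
      refine hc.integrable_of_hasCompactSupport ?_
      refine HasCompactSupport.intro (isCompact_Icc (a := (-1 : ℝ)) (b := 1)) fun s hs => ?_
      have : f2 s = 0 := by
        apply hF2.supp
        by_contra hlt
        push Not at hlt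
        exact hs ⟨(abs_lt.1 hlt).1.le, (abs_lt.1 hlt).2.le⟩
      simp [this]
    · rw [norm_mul, Complex.norm_real, Real.norm_eq_abs]
      have h1 := hker R (x - s) v hR
      have h2 : ((x : ℂ) + (v : ℂ) * I - s) = ((x - s : ℝ) : ℂ) + (v : ℂ) * I := by
        push_cast; ring
      rw [h2]
      have h3 : C * R * Real.exp (R * |v|) * Real.exp (v ^ 2 / 2) / (1 + (R * (x - s)) ^ 4) ≤
          A * q4 R (x - s) := by
        unfold q4
        rw [mul_one_div]
        apply div_le_div_of_nonneg_right _ (by positivity)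
        rw [hA]
        have h4 : v ^ 2 / 2 ≤ 1 := by
          have h5 : |v| ≤ 1 / 2 := hv.trans hy
          have h6 : v ^ 2 ≤ (1 / 2) ^ 2 := by
            rw [← sq_abs]; gcongr
          linarith
        gcongr
      calc |f2 s| * ‖WR R (((x - s : ℝ) : ℂ) + (v : ℂ) * I)‖ ≤ |f2 s| * (A * q4 R (x - s)) :=
            mul_le_mul_of_nonneg_left (h1.trans h3) (abs_nonneg _)
        _ = A * (|f2 s| * q4 R (x - s)) := by ring
  have hder : ∀ (f : ℝ → ℝ), Cc f → ContDiff ℝ 1 f → ∀ x v : ℝ,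
      HasDerivAt (fun v : ℝ => KF f R ((x : ℂ) + (v : ℂ) * I))
        (I * KF (deriv f) R ((x : ℂ) + (v : ℂ) * I)) v := by
    intro f hf hfd x v
    have h1 : HasDerivAt (fun v : ℝ => (x : ℂ) + (v : ℂ) * I) I v := by
      have := ((Complex.ofRealCLM.hasDerivAt (x := v)).mul_const I).const_add (x : ℂ)
      simpa using this
    have h2 := (KF_hasDeriv hf hfd R ((x : ℂ) + (v : ℂ) * I)).comp v h1
    simpa [mul_comm, Function.comp_def] using h2
  have hsd : ∀ w : ℝ, 0 ≤ w → w = |y| → ‖KF F R ((x : ℂ) + (w : ℂ) * I) +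
      KF F R ((x : ℂ) + ((-w : ℝ) : ℂ) * I) - 2 * KF F R ((x : ℂ) + ((0 : ℝ) : ℂ) * I)‖ ≤
      2 * (A * Bx x) * w ^ 2 := by
    intro w hw hwy
    refine second_diff (g := fun v : ℝ => KF F R ((x : ℂ) + (v : ℂ) * I))
      (g1 := fun v : ℝ => I * KF (deriv F) R ((x : ℂ) + (v : ℂ) * I))
      (g2 := fun v : ℝ => I * (I * KF f2 R ((x : ℂ) + (v : ℂ) * I)))
      (hder F hF0 hFd1 x) (fun v => (hder (deriv F) hF1 hF'd x v).const_mul I) hw ?_
    intro v hv
    rw [norm_mul, norm_mul, Complex.norm_I, one_mul, one_mul]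
    exact hpt x v (hv.trans hwy.le)
  have h0 := hsd |y| (abs_nonneg y) rfl
  rw [sq_abs] at h0
  have h00 : ((x : ℂ) + ((0 : ℝ) : ℂ) * I) = x := by simp
  rw [h00] at h0
  have h5 : ‖KF F R ((x : ℂ) + (y : ℂ) * I) + KF F R ((x : ℂ) - (y : ℂ) * I) - 2 * KF F R x‖ =
      ‖KF F R ((x : ℂ) + ((|y| : ℝ) : ℂ) * I) +
      KF F R ((x : ℂ) + ((-|y| : ℝ) : ℂ) * I) - 2 * KF F R x‖ := by
    rcases abs_cases y with ⟨h, _⟩ | ⟨h, _⟩
    · rw [h]; congr 3; push_cast; congr 1; ring
    · rw [h]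
      have e1 : (x : ℂ) + ((-y : ℝ) : ℂ) * I = (x : ℂ) - (y : ℂ) * I := by push_cast; ring
      have e2 : (x : ℂ) + ((- -y : ℝ) : ℂ) * I = (x : ℂ) + (y : ℂ) * I := by push_cast; ring
      rw [e1, e2, add_comm (KF F R ((x : ℂ) - (y : ℂ) * I))]
  rw [h5]
  calc _ ≤ 2 * (A * Bx x) * y ^ 2 := h0
    _ = 2 * y ^ 2 * A * Bx x := by ring

/-- Taylor -/
lemma taylor {F : ℝ → ℝ} (hF : ContDiff ℝ 2 F) {M : ℝ} (hM : ∀ x, |deriv (deriv F) x| ≤ M)
    (x w : ℝ) : |F (x - w) - F x + w * deriv F x| ≤ M * w ^ 2 := by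
  have hF1 : ContDiff ℝ 1 (deriv F) := by
    have := (contDiff_succ_iff_deriv (n := 1) (𝕜 := ℝ) (f := F)).1 (hF.of_le one_add_one_eq_two.le)
    exact this.2.2
  have hd : ∀ x, HasDerivAt F (deriv F x) x := fun x =>
    (hF.differentiable (by norm_num) x).hasDerivAt
  have hd1 : ∀ x, HasDerivAt (deriv F) (deriv (deriv F) x) x := fun x =>
    (hF1.differentiable (by norm_num) x).hasDerivAt
  have k1 : ∀ v : ℝ, |deriv F x - deriv F (x - v)| ≤ M * |v| := by
    intro v
    have := (convex_univ (𝕜 := ℝ)).norm_image_sub_le_of_norm_hasDerivWithin_le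
      (f := deriv F) (f' := deriv (deriv F)) (C := M) (s := (univ : Set ℝ))
      (fun t _ => (hd1 t).hasDerivWithinAt) (fun t _ => hM t) (mem_univ (x - v)) (mem_univ x)
    simpa [Real.norm_eq_abs] using this
  have k2 : ∀ v : ℝ, HasDerivAt (fun v => F (x - v) - F x + v * deriv F x)
      (deriv F x - deriv F (x - v)) v := by
    intro v
    have h1 := HasDerivAt.comp_const_sub x v (hd (x - v))
    have h2 : HasDerivAt (fun v : ℝ => v * deriv F x) (1 * deriv F x) v :=
      (hasDerivAt_id v).mul_const (deriv F x)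
    exact ((h1.sub_const (F x)).add h2).congr_deriv (by ring)
  have := (convex_uIcc (0 : ℝ) w).norm_image_sub_le_of_norm_hasDerivWithin_le
      (f := fun v => F (x - v) - F x + v * deriv F x)
      (f' := fun v => deriv F x - deriv F (x - v)) (C := M * |w|)
      (fun t _ => (k2 t).hasDerivWithinAt) (fun t ht => by
        rw [Real.norm_eq_abs]
        refine (k1 t).trans (mul_le_mul_of_nonneg_left ?_ ((abs_nonneg _).trans (hM 0)))
        have h3 := abs_sub_left_of_mem_uIcc ht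
        simpa using h3) left_mem_uIcc right_mem_uIcc
  simp only [sub_zero, sub_self, zero_mul, add_zero, Real.norm_eq_abs] at this
  calc _ ≤ M * |w| * |w| := this
    _ = M * w ^ 2 := by rw [mul_assoc, abs_mul_abs_self, sq]

/-- size of the test function -/
lemma size {F : ℝ → ℝ} (hF : ContDiff ℝ 2 F) {M h : ℝ} (hh : 0 < h)
    (hM : ∀ x, |deriv (deriv F) x| ≤ M) (hs : ∀ x : ℝ, h ≤ |x| → F x = 0) (x : ℝ) :
    |F x| ≤ 9 * M * h ^ 2 := by
  have hM0 : 0 ≤ M := (abs_nonneg _).trans (hM 0)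
  by_cases hx : h ≤ |x|
  · rw [hs x hx, abs_zero]
    positivity
  · push Not at hx
    obtain ⟨h1, h2⟩ := abs_lt.1 hx
    have e1 : F (2 * h) = 0 := hs _ (by rw [abs_of_pos (by linarith)]; linarith)
    have e2 : deriv F (2 * h) = 0 := by
      have : F =ᶠ[𝓝 (2 * h)] fun _ => 0 := by
        filter_upwards [lt_mem_nhds (show h < 2 * h by linarith)] with t ht
        exact hs t (by rw [abs_of_pos (by linarith)]; exact ht.le)
      rw [this.deriv_eq]; simp
    have e3 := taylor hF hM (2 * h) (2 * h - x)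
    rw [e1, e2, sub_sub_cancel] at e3
    simp only [sub_zero, mul_zero, add_zero] at e3
    refine e3.trans ?_
    have e4 : (2 * h - x) ^ 2 ≤ 9 * h ^ 2 := by nlinarith
    nlinarith

/-- the second derivative has the same support -/
lemma supp2 {F : ℝ → ℝ} {h : ℝ} (hs : ∀ x : ℝ, h ≤ |x| → F x = 0) (s : ℝ) (hs' : h < |s|) :
    deriv (deriv F) s = 0 := by
  have hop : IsOpen {x : ℝ | h < |x|} := isOpen_lt continuous_const continuous_abs
  have e1 : ∀ t : ℝ, h < |t| → deriv F t = 0 := by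
    intro t ht
    have : F =ᶠ[𝓝 t] fun _ => 0 := by
      filter_upwards [hop.mem_nhds ht] with y hy
      exact hs y (le_of_lt hy)
    rw [this.deriv_eq]; simp
  have : deriv F =ᶠ[𝓝 s] fun _ => 0 := by
    filter_upwards [hop.mem_nhds hs'] with y hy
    exact e1 y hy
  rw [this.deriv_eq]; simp

/-- the integral of the weight over the support -/
noncomputable def II (R h x : ℝ) : ℝ := ∫ s in Icc (-h) h, q4 R (x - s)

lemma II_nonneg (R h x : ℝ) : 0 ≤ II R h x := integral_nonneg fun _ => q4_nonneg _ _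

lemma II_le1 {R : ℝ} (hR : 1 ≤ R) (h x : ℝ) : R * II R h x ≤ ∫ u, q4 1 u := by
  have hq := q4_int hR
  have hR0 : 0 < R := by linarith
  rw [← hq.2]
  refine mul_le_mul_of_nonneg_left ?_ hR0.le
  have e1 : Integrable fun s => q4 R (x - s) := hq.1.comp_sub_left x
  calc II R h x ≤ ∫ s, q4 R (x - s) :=
        setIntegral_le_integral e1 (Eventually.of_forall fun s => q4_nonneg _ _)
    _ = ∫ u, q4 R u := integral_sub_left_eq_self (q4 R) volume x

lemma II_le2 {R h x : ℝ} (hR : 1 ≤ R) (hh : 0 < h) (hRh : 1 ≤ R * h) (hx : 2 * h ≤ |x|) :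
    R * II R h x ≤ 32 / (R * h) ^ 2 / (1 + (x / h) ^ 2) := by
  have hR0 : 0 < R := by linarith
  obtain ⟨t, ht⟩ : ∃ t : ℝ, t = x / h := ⟨_, rfl⟩
  have hxt : x = t * h := by rw [ht]; field_simp
  have ht2 : 2 ≤ |t| := by
    rw [ht, abs_div, abs_of_pos hh, le_div_iff₀ hh]
    exact hx
  have ht4 : 4 ≤ t ^ 2 := by
    rw [← sq_abs]
    nlinarith
  obtain ⟨a, ha⟩ : ∃ a : ℝ, a = R * h := ⟨_, rfl⟩
  have ha1 : 1 ≤ a := by rw [ha]; exact hRh
  have e1 : ∀ s ∈ Icc (-h) h, q4 R (x - s) ≤ 16 / (a * t) ^ 4 := by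
    intro s hs
    have k1 : |s| ≤ h := abs_le.2 hs
    have k2 : |x| / 2 ≤ |x - s| := by
      have := abs_sub_abs_le_abs_sub x s
      linarith
    have k3 : (R * (x - s)) ^ 4 ≥ (a * t) ^ 4 / 16 := by
      have k4 : (R * (x - s)) ^ 4 = (R * |x - s|) ^ 4 := by
        rw [mul_pow, mul_pow]
        congr 1
        exact (Even.pow_abs (by decide) _).symm
      have k5 : (a * t) ^ 4 / 16 = (R * (|x| / 2)) ^ 4 := by
        have : (a * t) = R * x := by rw [ha, hxt]; ring
        rw [this, mul_pow, mul_pow, div_pow]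
        have : x ^ 4 = |x| ^ 4 := (Even.pow_abs (by decide) _).symm
        rw [this]
        ring
      rw [k4, k5]
      have : R * (|x| / 2) ≤ R * |x - s| := mul_le_mul_of_nonneg_left k2 hR0.le
      have h0 : 0 ≤ R * (|x| / 2) := by positivity
      gcongr
    have hat : 0 < (a * t) ^ 4 := by
      have : a * t ≠ 0 := by
        apply mul_ne_zero (by linarith)
        intro h0
        rw [h0] at ht2
        norm_num at ht2
      positivity
    unfold q4
    rw [div_le_div_iff₀ (by positivity) hat]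
    nlinarith
  have e2 : II R h x ≤ 16 / (a * t) ^ 4 * (2 * h) := by
    have k1 : ‖II R h x‖ ≤ 16 / (a * t) ^ 4 * (volume (Icc (-h) h)).toReal := by
      refine norm_setIntegral_le_of_norm_le_const (by simp) fun s hs => ?_
      rw [Real.norm_of_nonneg (q4_nonneg _ _)]
      exact e1 s hs
    rw [Real.norm_of_nonneg (II_nonneg _ _ _), Real.volume_Icc, ENNReal.toReal_ofReal (by linarith)]
      at k1
    linarith
  rw [← ht, ← ha]
  have ht0 : 0 < t ^ 4 := by nlinarith
  have ha0 : 0 < a := by linarith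
  calc R * II R h x ≤ R * (16 / (a * t) ^ 4 * (2 * h)) := mul_le_mul_of_nonneg_left e2 hR0.le
    _ = 32 * a / (a ^ 4 * t ^ 4) := by
        rw [ha]
        ring
    _ = 32 / (a ^ 3 * t ^ 4) := by
        rw [show a ^ 4 * t ^ 4 = a * (a ^ 3 * t ^ 4) by ring]
        rw [mul_comm 32 a, mul_div_mul_left _ _ (by linarith : a ≠ 0)]
    _ ≤ 32 / (a ^ 2 * (1 + t ^ 2)) := by
        apply div_le_div_of_nonneg_left (by norm_num) (by positivity)
        have k1 : 1 + t ^ 2 ≤ t ^ 4 := by nlinarith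
        have k2 : a ^ 2 ≤ a ^ 3 := by nlinarith [sq_nonneg a]
        exact mul_le_mul k2 k1 (by positivity) (by positivity)
    _ = 32 / a ^ 2 / (1 + t ^ 2) := by rw [div_div]

lemma five {h x : ℝ} (hh : 0 < h) (hx : |x| ≤ 2 * h) : 1 + (x / h) ^ 2 ≤ 5 := by
  have h1 : |x / h| ≤ 2 := by
    rw [abs_div, abs_of_pos hh, div_le_iff₀ hh]
    exact hx
  have h2 : (x / h) ^ 2 ≤ 4 := by
    rw [← sq_abs]
    nlinarith [abs_nonneg (x / h)]
  linarith

lemma II_le {R h : ℝ} (hR : 1 ≤ R) (hh : 0 < h) (hRh : 1 ≤ R * h) (x : ℝ) :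
    R * II R h x ≤ (5 * (∫ u, q4 1 u) + 32) / (1 + (x / h) ^ 2) := by
  have hc : 0 ≤ ∫ u, q4 1 u := integral_nonneg fun u => q4_nonneg _ _
  rcases le_total (|x|) (2 * h) with hx | hx
  · rw [le_div_iff₀ (by positivity)]
    have h1 := II_le1 hR h x
    have h2 := five hh hx
    have h3 : 0 ≤ R * II R h x := mul_nonneg (by linarith) (II_nonneg _ _ _)
    nlinarith
  · refine (II_le2 hR hh hRh hx).trans ?_
    apply div_le_div_of_nonneg_right _ (by positivity)
    have h1 : 32 / (R * h) ^ 2 ≤ 32 := by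
      rw [div_le_iff₀ (by positivity)]
      nlinarith
    linarith

/-- the formula for the smoothing error on the real line (from the proof of `t_L1A`) -/
lemma key {C1 : ℝ} (hC1 : 0 < C1)
    (hk : ∀ R x : ℝ, 1 ≤ R → ‖WR R (x : ℂ)‖ ≤ C1 * R / (1 + (R * x) ^ 4)) {F : ℝ → ℝ}
    (hF : C2c F) {R : ℝ} (hR : 1 ≤ R) (x : ℝ) : KF F R (x : ℂ) - F x =
      (∫ w : ℝ, ((F (x - w) - F x + w * deriv F x : ℝ) : ℂ) * WR R (w : ℂ)) +
        ((om R - 1 : ℝ) : ℂ) * (F x : ℂ) := by
  have hFc : Continuous F := hF.cd.continuous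
  have hsupp : HasCompactSupport F := by
    refine HasCompactSupport.intro (isCompact_closedBall (0 : ℝ) 1) fun x hx => hF.supp x ?_
    simp only [Metric.mem_closedBall, dist_zero_right, Real.norm_eq_abs, not_le] at hx
    exact hx.le
  have iW := int_W hC1 hk R hR
  have iwW := int_wW hC1 hk R hR
  have hb : ∃ B, ∀ x, ‖F x‖ ≤ B := hsupp.exists_bound_of_continuous hFc
  obtain ⟨B, hB⟩ := hb
  have iFW : ∀ x : ℝ, Integrable fun w : ℝ => (F (x - w) : ℂ) * WR R (w : ℂ) := by
    intro x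
    refine iW.bdd_mul (c := B) ?_ ?_
    · exact (continuous_ofReal.comp (hFc.comp (by fun_prop))).aestronglyMeasurable
    · exact Eventually.of_forall fun w => by
        simpa using hB (x - w)
  have eKF : ∀ x : ℝ, KF F R (x : ℂ) = ∫ w : ℝ, (F (x - w) : ℂ) * WR R (w : ℂ) := by
    intro x
    rw [← integral_sub_left_eq_self (fun w : ℝ => (F (x - w) : ℂ) * WR R (w : ℂ)) volume x]
    unfold KF
    refine integral_congr_ae (Eventually.of_forall fun s => ?_)
    simp only [sub_sub_cancel, ofReal_sub]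
  have e1 : (∫ w : ℝ, ((F (x - w) - F x + w * deriv F x : ℝ) : ℂ) * WR R (w : ℂ)) =
      (∫ w : ℝ, (F (x - w) : ℂ) * WR R (w : ℂ)) - (F x : ℂ) * (om R : ℂ) := by
    have e2 : ∀ w : ℝ, ((F (x - w) - F x + w * deriv F x : ℝ) : ℂ) * WR R (w : ℂ) =
        ((F (x - w) : ℂ) * WR R (w : ℂ) - (F x : ℂ) * WR R (w : ℂ)) +
          ((deriv F x : ℝ) : ℂ) * ((w : ℂ) * WR R (w : ℂ)) := by
      intro w; push_cast; ring
    simp only [e2]
    have r1 : ∫ w : ℝ, (((F (x - w) : ℂ) * WR R (w : ℂ) - (F x : ℂ) * WR R (w : ℂ)) +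
          ((deriv F x : ℝ) : ℂ) * ((w : ℂ) * WR R (w : ℂ))) =
        (∫ w : ℝ, ((F (x - w) : ℂ) * WR R (w : ℂ) - (F x : ℂ) * WR R (w : ℂ))) +
          ∫ w : ℝ, ((deriv F x : ℝ) : ℂ) * ((w : ℂ) * WR R (w : ℂ)) :=
      integral_add ((iFW x).sub (iW.const_mul _)) (iwW.const_mul _)
    rw [r1, integral_sub (iFW x) (iW.const_mul _), integral_const_mul, integral_const_mul,
      int_odd hC1 hk R, int_W_eq hC1 hk R, mul_zero, add_zero]
  rw [e1, eKF]
  push_cast; ring

/-- the smoothing error on the real line -/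
lemma real_part {C1 C2 : ℝ} (hC1 : 0 < C1) (hC2 : 0 < C2)
    (hk : ∀ R x : ℝ, 1 ≤ R → ‖WR R (x : ℂ)‖ ≤ C1 * R / (1 + (R * x) ^ 4))
    (hom : ∀ R : ℝ, 1 ≤ R → |om R - 1| ≤ C2 / R ^ 2) {F : ℝ → ℝ}
    (hF : C2c F) {M h : ℝ} (hh : 0 < h) (hh1 : h ≤ 1) (hM : ∀ x, |deriv (deriv F) x| ≤ M)
    (hs : ∀ x : ℝ, h ≤ |x| → F x = 0) {R : ℝ} (hR : 1 ≤ R) (hRh : 1 ≤ R * h) (x : ℝ) :
    ‖KF F R (x : ℂ) - F x‖ ≤ (5 * (2 * Real.pi * C1 + 9 * C2) + 288 * C1) * M / R ^ 2 /
      (1 + (x / h) ^ 2) := by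
  have hM0 : 0 ≤ M := (abs_nonneg _).trans (hM 0)
  have hR0 : 0 < R := by linarith
  have hpi := Real.pi_pos
  rcases le_total (|x|) (2 * h) with hx | hx
  · have h5 := five hh hx
    have e1 : ‖KF F R (x : ℂ) - F x‖ ≤ (2 * Real.pi * C1 + 9 * C2) * M / R ^ 2 := by
      rw [key hC1 hk hF hR x]
      have k1 : ‖∫ w : ℝ, ((F (x - w) - F x + w * deriv F x : ℝ) : ℂ) * WR R (w : ℂ)‖ ≤
          M * (2 * Real.pi * C1 / R ^ 2) := by
        have k2 : M * (2 * Real.pi * C1 / R ^ 2) =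
            ∫ w : ℝ, M * (2 * C1 / R * (1 + (R * w) ^ 2)⁻¹) := by
          rw [integral_const_mul, integral_const_mul, int_base_eq R hR]
          field_simp
        rw [k2]
        refine norm_integral_le_of_norm_le (((int_base R hR).const_mul _).const_mul _)
          (Eventually.of_forall fun w => ?_)
        rw [norm_mul, norm_real, Real.norm_eq_abs]
        calc |F (x - w) - F x + w * deriv F x| * ‖WR R (w : ℂ)‖
            ≤ M * w ^ 2 * ‖WR R (w : ℂ)‖ :=
              mul_le_mul_of_nonneg_right (taylor hF.cd hM x w) (norm_nonneg _)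
          _ = M * (w ^ 2 * ‖WR R (w : ℂ)‖) := by ring
          _ ≤ _ := mul_le_mul_of_nonneg_left (WR_le2 hC1 hk R w hR) hM0
      have k3 : ‖((om R - 1 : ℝ) : ℂ) * (F x : ℂ)‖ ≤ C2 / R ^ 2 * (9 * M) := by
        rw [norm_mul, norm_real, norm_real, Real.norm_eq_abs, Real.norm_eq_abs]
        have k4 := size hF.cd hh hM hs x
        have k5 : 9 * M * h ^ 2 ≤ 9 * M := by
          have : h ^ 2 ≤ 1 := by nlinarith
          nlinarith
        exact mul_le_mul (hom R hR) (k4.trans k5) (abs_nonneg _) (by positivity)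
      refine (norm_add_le _ _).trans ((add_le_add k1 k3).trans (le_of_eq ?_))
      ring
    rw [le_div_iff₀ (by positivity)]
    have k0 : 0 ≤ ‖KF F R (x : ℂ) - F x‖ := norm_nonneg _
    have k1 : 0 ≤ (2 * Real.pi * C1 + 9 * C2) * M / R ^ 2 := by positivity
    calc ‖KF F R (x : ℂ) - F x‖ * (1 + (x / h) ^ 2)
        ≤ (2 * Real.pi * C1 + 9 * C2) * M / R ^ 2 * 5 := mul_le_mul e1 h5 (by positivity) k1
      _ = 5 * (2 * Real.pi * C1 + 9 * C2) * M / R ^ 2 := by ring
      _ ≤ (5 * (2 * Real.pi * C1 + 9 * C2) + 288 * C1) * M / R ^ 2 := by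
          apply div_le_div_of_nonneg_right _ (by positivity)
          apply mul_le_mul_of_nonneg_right _ hM0
          linarith
  · have hFx : F x = 0 := hs x (by linarith)
    rw [hFx]
    have e1 : ‖KF F R (x : ℂ)‖ ≤ 9 * M * h ^ 2 * (C1 * R) * II R h x := by
      have k0 : KF F R (x : ℂ) = ∫ s in Icc (-h) h, (F s : ℂ) * WR R ((x : ℂ) - s) := by
        unfold KF
        symm
        apply setIntegral_eq_integral_of_forall_compl_eq_zero
        intro s hs'
        have : F s = 0 := by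
          apply hs
          by_contra hlt
          push Not at hlt
          exact hs' ⟨(abs_lt.1 hlt).1.le, (abs_lt.1 hlt).2.le⟩
        simp [this]
      rw [k0]
      unfold II
      rw [← integral_const_mul]
      refine norm_integral_le_of_norm_le ?_ (Eventually.of_forall fun s => ?_)
      · have := q4_cont R
        have hc : Continuous fun s => 9 * M * h ^ 2 * (C1 * R) * q4 R (x - s) := by fun_prop
        exact hc.continuousOn.integrableOn_Icc
      · rw [norm_mul, Complex.norm_real, Real.norm_eq_abs]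
        have k1 : ‖WR R ((x : ℂ) - s)‖ ≤ C1 * R * q4 R (x - s) := by
          have := hk R (x - s) hR
          rw [ofReal_sub] at this
          refine this.trans (le_of_eq ?_)
          unfold q4
          ring
        calc |F s| * ‖WR R ((x : ℂ) - s)‖ ≤ 9 * M * h ^ 2 * (C1 * R * q4 R (x - s)) :=
              mul_le_mul (size hF.cd hh hM hs s) k1 (norm_nonneg _) (by positivity)
          _ = _ := by ring
    rw [ofReal_zero, sub_zero]
    have e2 := II_le2 hR hh hRh hx
    calc ‖KF F R (x : ℂ)‖ ≤ 9 * M * h ^ 2 * (C1 * R) * II R h x := e1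
      _ = 9 * M * h ^ 2 * C1 * (R * II R h x) := by ring
      _ ≤ 9 * M * h ^ 2 * C1 * (32 / (R * h) ^ 2 / (1 + (x / h) ^ 2)) :=
          mul_le_mul_of_nonneg_left e2 (by positivity)
      _ = 288 * C1 * M / R ^ 2 / (1 + (x / h) ^ 2) := by
          have : h ≠ 0 := hh.ne'
          field_simp
          ring
      _ ≤ _ := by
          apply div_le_div_of_nonneg_right _ (by positivity)
          apply div_le_div_of_nonneg_right _ (by positivity)
          apply mul_le_mul_of_nonneg_right _ hM0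
          have : 0 ≤ 5 * (2 * Real.pi * C1 + 9 * C2) := by positivity
          linarith

/-- the integral of the second derivative against the weight -/
lemma conv_le {F : ℝ → ℝ} (hF : C2c F) {M h : ℝ} (hM : ∀ x, |deriv (deriv F) x| ≤ M)
    (hs : ∀ x : ℝ, h ≤ |x| → F x = 0) (R x : ℝ) :
    ∫ s, |deriv (deriv F) s| * q4 R (x - s) ≤ M * II R h x := by
  have hM0 : 0 ≤ M := (abs_nonneg _).trans (hM 0)
  have k0 : ∫ s, |deriv (deriv F) s| * q4 R (x - s) =
      ∫ s in Icc (-h) h, |deriv (deriv F) s| * q4 R (x - s) := by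
    symm
    apply setIntegral_eq_integral_of_forall_compl_eq_zero
    intro s hs'
    have : deriv (deriv F) s = 0 := by
      apply supp2 hs
      by_contra hlt
      push Not at hlt
      exact hs' ⟨(abs_le.1 hlt).1, (abs_le.1 hlt).2⟩
    simp [this]
  have hF1 : ContDiff ℝ 1 (deriv F) := by
    have := (contDiff_succ_iff_deriv (n := 1) (𝕜 := ℝ) (f := F)).1
      (hF.cd.of_le one_add_one_eq_two.le)
    exact this.2.2
  have hc2 : Continuous (deriv (deriv F)) := hF1.continuous_deriv (by norm_num)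
  have hq := q4_cont R
  rw [k0]
  unfold II
  rw [← integral_const_mul]
  refine setIntegral_mono_on ?_ ?_ measurableSet_Icc fun s _ => ?_
  · have hc : Continuous fun s => |deriv (deriv F) s| * q4 R (x - s) := by fun_prop
    exact hc.continuousOn.integrableOn_Icc
  · have hc : Continuous fun s => M * q4 R (x - s) := by fun_prop
    exact hc.continuousOn.integrableOn_Icc
  · exact mul_le_mul_of_nonneg_right (hM s) (q4_nonneg _ _)

end KPTL

open KPTL L1BL L1AL in
theorem t_KPT : S_KPT := by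
  intro f hf hfs
  obtain ⟨C1, hC1, hker⟩ := t_KER
  obtain ⟨C2, hC2, hom⟩ := t_OM
  have hk : ∀ R x : ℝ, 1 ≤ R → ‖WR R (x : ℂ)‖ ≤ C1 * R / (1 + (R * x) ^ 4) :=
    fun R x hR => ker_bound hker R x hR
  have hc4 : 0 ≤ ∫ u, q4 1 u := integral_nonneg fun u => q4_nonneg _ _
  have hpi := Real.pi_pos
  have he := Real.exp_pos 1
  obtain ⟨K1, hK1⟩ : ∃ K1 : ℝ, K1 = 5 * (2 * Real.pi * C1 + 9 * C2) + 288 * C1 := ⟨_, rfl⟩
  obtain ⟨K2, hK2⟩ : ∃ K2 : ℝ, K2 = 2 * C1 * Real.exp 1 * (5 * (∫ u, q4 1 u) + 32) := ⟨_, rfl⟩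
  have hK1p : 0 < K1 := by rw [hK1]; positivity
  have hK2p : 0 < K2 := by rw [hK2]; positivity
  -- the support and the bound of the second derivative
  obtain ⟨A, hA1, hA⟩ : ∃ A : ℝ, 1 ≤ A ∧ ∀ x : ℝ, A ≤ |x| → f x = 0 := by
    obtain ⟨A, hA⟩ := hfs.isCompact.isBounded.exists_norm_le
    refine ⟨max A 0 + 1, by linarith [le_max_right A 0], fun x hx => ?_⟩
    by_contra h
    have h1 := hA x (subset_tsupport f h)
    rw [Real.norm_eq_abs] at h1
    linarith [le_max_left A 0]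
  have hf1 : ContDiff ℝ 1 (deriv f) := by
    have := (contDiff_succ_iff_deriv (n := 1) (𝕜 := ℝ) (f := f)).1 (hf.of_le one_add_one_eq_two.le)
    exact this.2.2
  have hcf2 : Continuous (deriv (deriv f)) := hf1.continuous_deriv (by norm_num)
  obtain ⟨B, hB⟩ : ∃ B : ℝ, ∀ x, |deriv (deriv f) x| ≤ B := by
    obtain ⟨B, hB⟩ := (hfs.deriv.deriv).exists_bound_of_continuous hcf2
    exact ⟨B, fun x => by simpa [Real.norm_eq_abs] using hB x⟩
  have hB0 : 0 ≤ B := (abs_nonneg _).trans (hB 0)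
  have hA0 : 0 < A := by linarith
  refine ⟨(K1 + K2) * (B + 1) * A ^ 2, A, by positivity, hA1, ?_⟩
  intro h R hh hhA hRh x
  have hhA' : h * A ≤ 1 := by rwa [le_div_iff₀ hA0] at hhA
  have hh1 : h ≤ 1 := by nlinarith
  have hR : 1 ≤ R := by
    by_contra hc
    push Not at hc
    nlinarith
  have hR0 : 0 < R := by linarith
  have hF : C2c (fun x => f (x / h)) := by
    refine ⟨hf.comp (contDiff_id.div_const h), fun x hx => ?_⟩
    apply hA
    rw [abs_div, abs_of_pos hh, le_div_iff₀ hh]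
    linarith
  have hd : ∀ (g : ℝ → ℝ), ContDiff ℝ 1 g → deriv (fun x => g (x / h)) = fun x => deriv g (x / h) / h := by
    intro g hg
    funext x
    have h1 : HasDerivAt g (deriv g (x / h)) (x / h) := (hg.differentiable (by norm_num) _).hasDerivAt
    have h2 : HasDerivAt (fun x : ℝ => x / h) (1 / h) x := (hasDerivAt_id x).div_const h
    have h3 : HasDerivAt (fun x => g (x / h)) (deriv g (x / h) * (1 / h)) x := h1.comp x h2
    rw [h3.deriv]; ring
  have hd2 : deriv (deriv (fun x => f (x / h))) = fun x => deriv (deriv f) (x / h) / h / h := by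
    rw [hd f (hf.of_le (by norm_num))]
    funext x
    rw [deriv_div_const, hd (deriv f) hf1]
  have hM : ∀ x, |deriv (deriv (fun x => f (x / h))) x| ≤ B / h ^ 2 := by
    intro x
    rw [hd2]
    simp only
    rw [div_div, abs_div, abs_of_pos (by positivity : 0 < h * h), ← sq]
    exact div_le_div_of_nonneg_right (hB _) (by positivity)
  have hM0 : 0 ≤ B / h ^ 2 := by positivity
  have hhA0 : 0 < h * A := by positivity
  have hs : ∀ x : ℝ, h * A ≤ |x| → (fun x => f (x / h)) x = 0 := by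
    intro x hx
    apply hA
    rw [abs_div, abs_of_pos hh, le_div_iff₀ hh]
    linarith
  have hRhA : 1 ≤ R * (h * A) := by nlinarith
  have hw : 1 / (1 + (x / (h * A)) ^ 2) ≤ A ^ 2 * w1 (x / h) := by
    unfold w1
    rw [mul_one_div, div_le_div_iff₀ (by positivity) (by positivity), one_mul]
    have e1 : A ^ 2 * (1 + (x / (h * A)) ^ 2) = A ^ 2 + (x / h) ^ 2 := by
      have : h ≠ 0 := hh.ne'
      field_simp
    rw [e1]
    nlinarith
  have hw0 : 0 ≤ w1 (x / h) := by unfold w1; positivity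
  refine ⟨?_, fun y hy => ?_⟩
  · have e1 := real_part hC1 hC2 hk hom hF hhA0 hhA' hM hs hR hRhA x
    rw [← hK1] at e1
    refine e1.trans ?_
    calc K1 * (B / h ^ 2) / R ^ 2 / (1 + (x / (h * A)) ^ 2)
        = K1 * (B / h ^ 2) / R ^ 2 * (1 / (1 + (x / (h * A)) ^ 2)) := by ring
      _ ≤ K1 * (B / h ^ 2) / R ^ 2 * (A ^ 2 * w1 (x / h)) :=
          mul_le_mul_of_nonneg_left hw (by positivity)
      _ = (K1 * B * A ^ 2) / (h * R) ^ 2 * w1 (x / h) := by
          have : h ≠ 0 := hh.ne'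
          field_simp
      _ ≤ _ := by
          apply mul_le_mul_of_nonneg_right _ hw0
          apply div_le_div_of_nonneg_right _ (by positivity)
          apply mul_le_mul_of_nonneg_right _ (by positivity)
          nlinarith [mul_nonneg hK2p.le hB0]
  · have e2 := sec hC1 hker hF hR hy x
    have e3 := conv_le hF hM hs R x
    have e4 := II_le hR hhA0 hRhA x
    have e5 : 0 ≤ 2 * y ^ 2 * (C1 * R * Real.exp (R * |y|) * Real.exp 1) := by positivity
    calc _ ≤ _ := e2
      _ ≤ 2 * y ^ 2 * (C1 * R * Real.exp (R * |y|) * Real.exp 1) * (B / h ^ 2 * II R (h * A) x) :=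
          mul_le_mul_of_nonneg_left e3 e5
      _ = 2 * y ^ 2 * (C1 * Real.exp (R * |y|) * Real.exp 1) * (B / h ^ 2) *
          (R * II R (h * A) x) := by ring
      _ ≤ 2 * y ^ 2 * (C1 * Real.exp (R * |y|) * Real.exp 1) * (B / h ^ 2) *
          ((5 * (∫ u, q4 1 u) + 32) / (1 + (x / (h * A)) ^ 2)) :=
          mul_le_mul_of_nonneg_left e4 (by positivity)
      _ = K2 * B * ((y / h) ^ 2 * Real.exp (R * |y|)) * (1 / (1 + (x / (h * A)) ^ 2)) := by
          rw [hK2]
          have : h ≠ 0 := hh.ne'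
          field_simp
      _ ≤ K2 * B * ((y / h) ^ 2 * Real.exp (R * |y|)) * (A ^ 2 * w1 (x / h)) :=
          mul_le_mul_of_nonneg_left hw (by positivity)
      _ = K2 * B * A ^ 2 * ((y / h) ^ 2 * Real.exp (R * |y|) * w1 (x / h)) := by ring
      _ ≤ (K1 + K2) * (B + 1) * A ^ 2 * ((y / h) ^ 2 * Real.exp (R * |y|) * w1 (x / h)) := by
          apply mul_le_mul_of_nonneg_right _ (by positivity)
          apply mul_le_mul_of_nonneg_right _ (by positivity)
          nlinarith [mul_nonneg hK1p.le hB0]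
      _ = _ := by ring

end Pool.Agent.H203.ME
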