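import Pool.Agent.H203.ME.Defs

set_option autoImplicit false

open Complex Filter Topology Set MeasureTheory

namespace Pool.Agent.H203.ME

namespace MOML

theorem perm_pf {j : ℕ} (x : Fin j → ℕ) (hx : ∀ i, (x i).Prime) (n : ℕ) (h : ∏ i, x i = n) :
    (List.ofFn x).Perm n.primeFactorsList :=
  Nat.primeFactorsList_unique (by rw [List.prod_ofFn, h]) (by
    intro p hp
    rw [List.mem_ofFn] at hp
    obtain ⟨i, rfl⟩ := hp
    exact hx i)

/-- two tuples of primes with the same product are permutations of each other -/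
theorem exists_perm {j : ℕ} (x y : Fin j → ℕ) (hx : ∀ i, (x i).Prime) (hy : ∀ i, (y i).Prime)
    (h : ∏ i, x i = ∏ i, y i) : ∃ σ : Equiv.Perm (Fin j), y = x ∘ σ := by
  have h1 : (List.ofFn x).Perm (List.ofFn y) :=
    (perm_pf x hx _ rfl).trans (perm_pf y hy _ h.symm).symm
  have h2 : x ∘ Tuple.sort x = y ∘ Tuple.sort y := by
    apply List.ofFn_injective
    exact (((Tuple.sort x).ofFn_comp_perm x).trans (h1.trans
      ((Tuple.sort y).ofFn_comp_perm y).symm)).eq_of_pairwise'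
      (Tuple.monotone_sort x).sortedLE_ofFn.pairwise (Tuple.monotone_sort y).sortedLE_ofFn.pairwise
  refine ⟨(Tuple.sort y).symm.trans (Tuple.sort x), ?_⟩
  ext i
  have := congrFun h2 ((Tuple.sort y).symm i)
  simpa using this.symm

theorem len_eq {j l : ℕ} (x : Fin j → ℕ) (y : Fin l → ℕ) (hx : ∀ i, (x i).Prime) (hy : ∀ i, (y i).Prime)
    (h : ∏ i, x i = ∏ i, y i) : j = l := by
  simpa using ((perm_pf x hx _ rfl).trans (perm_pf y hy _ h.symm).symm).length_eq

/-- the primes up to `N` -/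
noncomputable def PP (N : ℕ) : Finset ℕ := (Finset.Icc 1 N).filter Nat.Prime

theorem mem_PP {N p : ℕ} (h : p ∈ PP N) : p.Prime ∧ p ≤ N := by
  simp only [PP, Finset.mem_filter, Finset.mem_Icc] at h
  exact ⟨h.2, h.1.2⟩

theorem card_PP (N : ℕ) : (PP N).card ≤ N := by
  unfold PP
  refine (Finset.card_filter_le _ _).trans ?_
  simp

/-- tuples of primes -/
noncomputable def TP (N j : ℕ) : Finset (Fin j → ℕ) := Fintype.piFinset fun _ : Fin j => PP N

theorem mem_TP {N j : ℕ} {x : Fin j → ℕ} (h : x ∈ TP N j) (i : Fin j) : (x i).Prime ∧ x i ≤ N :=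
  mem_PP (Fintype.mem_piFinset.1 h i)

theorem card_TP (N j : ℕ) : (TP N j).card ≤ N ^ j := by
  unfold TP
  rw [Fintype.card_piFinset]
  simp only [Finset.prod_const, Finset.card_univ, Fintype.card_fin]
  exact Nat.pow_le_pow_left (card_PP N) j

theorem prod_pos' {N j : ℕ} {x : Fin j → ℕ} (h : x ∈ TP N j) : 0 < ∏ i, x i :=
  Finset.prod_pos fun i _ => (mem_TP h i).1.pos

theorem prod_le' {N j : ℕ} {x : Fin j → ℕ} (h : x ∈ TP N j) : ∏ i, x i ≤ N ^ j := by
  calc ∏ i, x i ≤ ∏ _i : Fin j, N := Finset.prod_le_prod' fun i _ => (mem_TP h i).2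
    _ = N ^ j := by simp

theorem ee_prod {j : ℕ} (x : Fin j → ℕ) (hx : ∀ i, 0 < x i) (t : ℝ) :
    ∏ i, ee (x i) t = ee (∏ i, x i) t := by
  unfold ee
  rw [← Complex.exp_sum]
  congr 1
  rw [Finset.sum_neg_distrib, ← Finset.sum_mul]
  congr 2
  rw [← Complex.ofReal_sum]
  congr 1
  rw [← Finset.mul_sum]
  congr 1
  push_cast
  rw [Real.log_prod]
  intro i _
  exact_mod_cast (hx i).ne'

theorem conj_ee (n : ℕ) (t : ℝ) : (starRingEnd ℂ) (ee n t) = cexp (((t * Real.log n : ℝ) : ℂ) * I) := by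
  unfold ee
  rw [← Complex.exp_conj]
  congr 1
  rw [map_neg, map_mul, Complex.conj_ofReal, Complex.conj_I]
  ring

theorem ee_mul_conj (m n : ℕ) (t : ℝ) : ee m t * (starRingEnd ℂ) (ee n t) =
    cexp ((-((Real.log m - Real.log n : ℝ) : ℂ) * I) * t) := by
  rw [conj_ee, ee, ← Complex.exp_add]
  congr 1
  push_cast
  ring

theorem J_eq (m : ℕ) (T : ℝ) : ∫ t in T..(2 * T), ee m t * (starRingEnd ℂ) (ee m t) = T := by
  simp only [ee_mul_conj]
  simp
  ring

theorem J_le {m n : ℕ} (hm : 0 < m) (hn : 0 < n) (hmn : m ≠ n) (T : ℝ) :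
    ‖∫ t in T..(2 * T), ee m t * (starRingEnd ℂ) (ee n t)‖ ≤ 2 * (max m n : ℕ) := by
  simp only [ee_mul_conj]
  set d : ℝ := Real.log m - Real.log n with hd
  have hm' : (0 : ℝ) < m := by exact_mod_cast hm
  have hn' : (0 : ℝ) < n := by exact_mod_cast hn
  have hdl : 1 / ((max m n : ℕ) : ℝ) ≤ |d| := by
    rcases lt_or_gt_of_ne hmn with h | h
    · rw [max_eq_right h.le]
      have h1 : (m : ℝ) + 1 ≤ n := by exact_mod_cast h
      have h2 := Real.log_le_sub_one_of_pos (div_pos hm' hn')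
      rw [Real.log_div hm'.ne' hn'.ne'] at h2
      have h3 : (m : ℝ) / n - 1 ≤ -(1 / n) := by
        rw [div_sub_one hn'.ne', ← neg_div, div_le_div_iff_of_pos_right hn']
        linarith
      rw [abs_of_nonpos (by have : 0 < 1 / (n : ℝ) := by positivity
                            linarith)]
      linarith
    · rw [max_eq_left h.le]
      have h1 : (n : ℝ) + 1 ≤ m := by exact_mod_cast h
      have h2 := Real.log_le_sub_one_of_pos (div_pos hn' hm')
      rw [Real.log_div hn'.ne' hm'.ne'] at h2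
      have h3 : (n : ℝ) / m - 1 ≤ -(1 / m) := by
        rw [div_sub_one hm'.ne', ← neg_div, div_le_div_iff_of_pos_right hm']
        linarith
      rw [abs_of_nonneg (by have : 0 < 1 / (m : ℝ) := by positivity
                            linarith)]
      linarith
  have hM : (0 : ℝ) < (max m n : ℕ) := by exact_mod_cast lt_max_of_lt_left hm
  have hdpos : 0 < |d| := lt_of_lt_of_le (by positivity) hdl
  have hc : (-(d : ℂ) * I) ≠ 0 := by
    simp only [ne_eq, mul_eq_zero, neg_eq_zero, Complex.ofReal_eq_zero, Complex.I_ne_zero, or_false]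
    exact abs_pos.1 hdpos
  rw [integral_exp_mul_complex hc, norm_div]
  have hn1 : ∀ s : ℝ, ‖cexp (-(d : ℂ) * I * s)‖ = 1 := by
    intro s
    have : -(d : ℂ) * I * s = ((-(d * s) : ℝ) : ℂ) * I := by push_cast; ring
    rw [this, Complex.norm_exp_ofReal_mul_I]
  have h4 : ‖cexp (-(d : ℂ) * I * ((2 * T : ℝ) : ℂ)) - cexp (-(d : ℂ) * I * (T : ℂ))‖ ≤ 2 := by
    refine (norm_sub_le _ _).trans ?_
    rw [hn1, hn1]; norm_num
  have h5 : ‖-(d : ℂ) * I‖ = |d| := by simp
  rw [h5, div_le_iff₀ hdpos]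
  rw [div_le_iff₀ hM] at hdl
  refine h4.trans ?_
  nlinarith

/-- number of tuples with the same product -/
noncomputable def cc (N j : ℕ) (x : Fin j → ℕ) : ℕ := ((TP N j).filter fun y => ∏ i, x i = ∏ i, y i).card

theorem cc_le {N j : ℕ} {x : Fin j → ℕ} (hx : x ∈ TP N j) : cc N j x ≤ j.factorial := by
  classical
  unfold cc
  have h1 : ((TP N j).filter fun y => ∏ i, x i = ∏ i, y i) ⊆
      (Finset.univ : Finset (Equiv.Perm (Fin j))).image fun σ : Equiv.Perm (Fin j) => x ∘ σ := by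
    intro y hy
    rw [Finset.mem_filter] at hy
    obtain ⟨σ, hσ⟩ := exists_perm x y (fun i => (mem_TP hx i).1) (fun i => (mem_TP hy.1 i).1) hy.2
    exact Finset.mem_image.2 ⟨σ, Finset.mem_univ _, hσ.symm⟩
  refine (Finset.card_le_card h1).trans (Finset.card_image_le.trans ?_)
  rw [Finset.card_univ, Fintype.card_perm, Fintype.card_fin]

theorem cc_eq {N j : ℕ} {x : Fin j → ℕ} (hx : x ∈ TP N j) (hi : Function.Injective x) :
    cc N j x = j.factorial := by
  classical
  refine le_antisymm (cc_le hx) ?_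
  have h1 : ((Finset.univ : Finset (Equiv.Perm (Fin j))).image fun σ : Equiv.Perm (Fin j) => x ∘ σ) ⊆
      ((TP N j).filter fun y => ∏ i, x i = ∏ i, y i) := by
    intro y hy
    obtain ⟨σ, -, rfl⟩ := Finset.mem_image.1 hy
    rw [Finset.mem_filter]
    refine ⟨Fintype.mem_piFinset.2 fun i => Fintype.mem_piFinset.1 hx (σ i), ?_⟩
    exact (Equiv.prod_comp σ x).symm
  have h2 := Finset.card_le_card h1
  rw [Finset.card_image_of_injective, Finset.card_univ, Fintype.card_perm, Fintype.card_fin] at h2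
  · exact h2
  · intro σ τ h
    ext i
    have := congrFun h i
    exact congrArg Fin.val (hi this)

/-- the tuples with a repetition -/
theorem noninj {N j : ℕ} (b : ℕ → ℝ) (θ : ℝ) (hb : ∀ p, 0 ≤ b p) (hb2 : ∀ p, b p ≤ θ ^ 2) :
    ∑ x ∈ (TP N j).filter (fun x => ¬ Function.Injective x), ∏ i, b (x i) ≤
      j ^ 2 * θ ^ 2 * (1 + ∑ p ∈ PP N, b p) ^ j := by
  classical
  set S := ∑ p ∈ PP N, b p with hS
  have hS0 : 0 ≤ S := Finset.sum_nonneg fun p _ => hb p
  have hpair : ∀ i k : Fin j, i ≠ k →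
      ∑ x ∈ (TP N j).filter (fun x => x i = x k), ∏ m, b (x m) ≤ θ ^ 2 * (1 + S) ^ j := by
    intro i k hik
    have h1 : ∑ x ∈ (TP N j).filter (fun x => x i = x k), ∏ m, b (x m) =
        ∑ p ∈ PP N, ∑ x ∈ TP N j, ∏ m, (if m = i ∨ m = k then (if x m = p then b (x m) else 0)
          else b (x m)) := by
      rw [Finset.sum_comm, Finset.sum_filter]
      refine Finset.sum_congr rfl fun x hx => ?_
      rw [Finset.sum_eq_single (x i)]
      · split_ifs with h
        · refine Finset.prod_congr rfl fun m _ => ?_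
          by_cases hm : m = i ∨ m = k
          · rw [if_pos hm, if_pos]
            rcases hm with rfl | rfl
            · rfl
            · exact h.symm
          · rw [if_neg hm]
        · symm
          apply Finset.prod_eq_zero (Finset.mem_univ k)
          rw [if_pos (Or.inr rfl), if_neg (fun h' => h h'.symm)]
      · intro p _ hp
        apply Finset.prod_eq_zero (Finset.mem_univ i)
        rw [if_pos (Or.inl rfl), if_neg (fun h' => hp h'.symm)]
      · intro h
        exact absurd (Fintype.mem_piFinset.1 hx i) h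
    rw [h1]
    have h2 : ∀ p ∈ PP N, ∑ x ∈ TP N j, ∏ m, (if m = i ∨ m = k then (if x m = p then b (x m) else 0)
          else b (x m)) = b p ^ 2 * S ^ (j - 2) := by
      intro p hp
      have h3 := Finset.sum_prod_piFinset (ι := Fin j) (PP N) (fun (m : Fin j) (q : ℕ) =>
        (if m = i ∨ m = k then (if q = p then b q else 0) else b q))
      rw [TP, h3]
      have h4 : ∀ m : Fin j, ∑ q ∈ PP N, (if m = i ∨ m = k then (if q = p then b q else 0) else b q) =
          if m ∈ ({i, k} : Finset (Fin j)) then b p else S := by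
        intro m
        by_cases hm : m = i ∨ m = k
        · simp only [if_pos hm]
          rw [if_pos (by simpa using hm), Finset.sum_ite_eq' , if_pos hp]
        · simp only [if_neg hm]
          rw [if_neg (by simpa using hm)]
      simp only [h4]
      rw [Finset.prod_ite, Finset.prod_const, Finset.prod_const]
      have h5 : (Finset.univ.filter fun m => m ∈ ({i, k} : Finset (Fin j))) = {i, k} := by
        ext m; simp
      have h6 : (Finset.univ.filter fun m => m ∉ ({i, k} : Finset (Fin j))) = ({i, k} : Finset (Fin j))ᶜ := by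
        ext m; simp
      rw [h5, h6, Finset.card_compl, Finset.card_pair hik, Fintype.card_fin]
    rw [Finset.sum_congr rfl h2, ← Finset.sum_mul]
    have hj : 2 ≤ j := by
      have := i.2; have := k.2
      have : (i : ℕ) ≠ k := fun h => hik (Fin.ext h)
      omega
    have h7 : ∑ p ∈ PP N, b p ^ 2 ≤ θ ^ 2 * S := by
      rw [hS, Finset.mul_sum]
      refine Finset.sum_le_sum fun p _ => ?_
      rw [pow_two]
      exact mul_le_mul_of_nonneg_right (hb2 p) (hb p)
    calc (∑ p ∈ PP N, b p ^ 2) * S ^ (j - 2) ≤ (θ ^ 2 * S) * S ^ (j - 2) :=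
          mul_le_mul_of_nonneg_right h7 (by positivity)
      _ = θ ^ 2 * S ^ (j - 1) := by
          rw [mul_assoc, ← pow_succ']
          congr 2
          omega
      _ ≤ θ ^ 2 * (1 + S) ^ j := by
          refine mul_le_mul_of_nonneg_left ?_ (by positivity)
          calc S ^ (j - 1) ≤ (1 + S) ^ (j - 1) := pow_le_pow_left₀ hS0 (by linarith) _
            _ ≤ (1 + S) ^ j := pow_le_pow_right₀ (by linarith) (by omega)
  calc ∑ x ∈ (TP N j).filter (fun x => ¬ Function.Injective x), ∏ i, b (x i)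
      ≤ ∑ x ∈ TP N j, ∑ q ∈ (Finset.univ : Finset (Fin j × Fin j)).filter fun q => q.1 ≠ q.2,
          (if x q.1 = x q.2 then ∏ i, b (x i) else 0) := by
        rw [Finset.sum_filter]
        refine Finset.sum_le_sum fun x _ => ?_
        have hw : 0 ≤ ∏ i, b (x i) := Finset.prod_nonneg fun i _ => hb _
        split_ifs with h
        · exact Finset.sum_nonneg fun q _ => by split_ifs <;> simp [hw]
        · rw [Function.Injective] at h
          push Not at h
          obtain ⟨i, k, h1, h2⟩ := h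
          have h3 := Finset.single_le_sum (f := fun q : Fin j × Fin j =>
            (if x q.1 = x q.2 then ∏ i, b (x i) else 0)) (fun q _ => by
              split_ifs <;> simp [hw]) (show (i, k) ∈
              (Finset.univ : Finset (Fin j × Fin j)).filter fun q => q.1 ≠ q.2 by simpa using h2)
          rw [if_pos h1] at h3
          exact h3
    _ = ∑ q ∈ (Finset.univ : Finset (Fin j × Fin j)).filter fun q => q.1 ≠ q.2,
        ∑ x ∈ (TP N j).filter (fun x => x q.1 = x q.2), ∏ i, b (x i) := by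
        rw [Finset.sum_comm]
        refine Finset.sum_congr rfl fun q _ => ?_
        rw [Finset.sum_filter]
    _ ≤ ∑ q ∈ (Finset.univ : Finset (Fin j × Fin j)).filter fun q => q.1 ≠ q.2,
        θ ^ 2 * (1 + S) ^ j := Finset.sum_le_sum fun q hq => hpair q.1 q.2 (by simpa using hq)
    _ ≤ j ^ 2 * θ ^ 2 * (1 + S) ^ j := by
        rw [Finset.sum_const, nsmul_eq_mul, mul_assoc]
        refine mul_le_mul_of_nonneg_right ?_ (by positivity)
        have : (((Finset.univ : Finset (Fin j × Fin j)).filter fun q => q.1 ≠ q.2).card : ℝ) ≤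
            ((Finset.univ : Finset (Fin j × Fin j)).card : ℝ) := by
          exact_mod_cast Finset.card_filter_le _ _
        refine this.trans ?_
        rw [Finset.card_univ, Fintype.card_prod, Fintype.card_fin]
        push_cast
        rw [pow_two]

/-- product of the coefficients -/
noncomputable def al (a : ℕ → ℂ) {j : ℕ} (x : Fin j → ℕ) : ℂ := ∏ i, a (x i)

theorem al_le {a : ℕ → ℂ} {θ : ℝ} (hθ1 : θ ≤ 1) (ha : ∀ p, ‖a p‖ ≤ θ) {j : ℕ} (x : Fin j → ℕ) :
    ‖al a x‖ ≤ 1 := by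
  unfold al
  rw [norm_prod]
  exact Finset.prod_le_one (fun i _ => norm_nonneg _) fun i _ => (ha _).trans hθ1

theorem pow_exp (N j : ℕ) (a : ℕ → ℂ) (t : ℝ) : (∑ p ∈ PP N, a p * ee p t) ^ j =
    ∑ x ∈ TP N j, al a x * ee (∏ i, x i) t := by
  rw [Finset.sum_pow']
  refine Finset.sum_congr rfl fun x hx => ?_
  rw [Finset.prod_mul_distrib, ee_prod x (fun i => (mem_TP hx i).1.pos)]
  rfl

theorem ee_cont (n : ℕ) : Continuous (ee n) := by
  unfold ee
  fun_prop

theorem int_exp (N j l : ℕ) (a : ℕ → ℂ) (T : ℝ) :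
    ∫ t in T..(2 * T), (∑ p ∈ PP N, a p * ee p t) ^ j *
      ((starRingEnd ℂ) (∑ p ∈ PP N, a p * ee p t)) ^ l =
    ∑ x ∈ TP N j, ∑ y ∈ TP N l, (al a x * (starRingEnd ℂ) (al a y)) *
      ∫ t in T..(2 * T), ee (∏ i, x i) t * (starRingEnd ℂ) (ee (∏ i, y i) t) := by
  have h1 : ∀ t, (∑ p ∈ PP N, a p * ee p t) ^ j * ((starRingEnd ℂ) (∑ p ∈ PP N, a p * ee p t)) ^ l =
      ∑ x ∈ TP N j, ∑ y ∈ TP N l, (al a x * (starRingEnd ℂ) (al a y)) *
        (ee (∏ i, x i) t * (starRingEnd ℂ) (ee (∏ i, y i) t)) := by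
    intro t
    rw [← map_pow, pow_exp, pow_exp, map_sum, Finset.sum_mul_sum]
    refine Finset.sum_congr rfl fun x _ => Finset.sum_congr rfl fun y _ => ?_
    rw [map_mul]
    ring
  simp only [h1]
  have hc : ∀ (x : Fin j → ℕ) (y : Fin l → ℕ), Continuous fun t : ℝ =>
      (al a x * (starRingEnd ℂ) (al a y)) * (ee (∏ i, x i) t * (starRingEnd ℂ) (ee (∏ i, y i) t)) :=
    fun x y => continuous_const.mul ((ee_cont _).mul (Complex.continuous_conj.comp (ee_cont _)))
  rw [intervalIntegral.integral_finsetSum]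
  · refine Finset.sum_congr rfl fun x _ => ?_
    rw [intervalIntegral.integral_finsetSum]
    · refine Finset.sum_congr rfl fun y _ => ?_
      rw [intervalIntegral.integral_const_mul]
    · intro y _
      exact (hc x y).intervalIntegrable _ _
  · intro x _
    exact (continuous_finsetSum _ fun y _ => hc x y).intervalIntegrable _ _

theorem diag {N j : ℕ} {a : ℕ → ℂ} {θ : ℝ} (ha : ∀ p, ‖a p‖ ≤ θ) :
    ‖(∑ x ∈ TP N j, ∑ y ∈ TP N j, if ∏ i, x i = ∏ i, y i then al a x * (starRingEnd ℂ) (al a y) else 0) -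
      (j.factorial : ℂ) * ((∑ p ∈ PP N, ‖a p‖ ^ 2 : ℝ) : ℂ) ^ j‖ ≤
    (j.factorial : ℝ) * j ^ 2 * θ ^ 2 * (1 + ∑ p ∈ PP N, ‖a p‖ ^ 2) ^ j := by
  classical
  have hal : ∀ x : Fin j → ℕ, ‖al a x‖ ^ 2 = ∏ i, ‖a (x i)‖ ^ 2 := by
    intro x
    rw [al, norm_prod, Finset.prod_pow]
  have h1 : ∀ x ∈ TP N j, (∑ y ∈ TP N j, if ∏ i, x i = ∏ i, y i then al a x * (starRingEnd ℂ) (al a y)
      else 0) = ((cc N j x * ‖al a x‖ ^ 2 : ℝ) : ℂ) := by
    intro x hx
    rw [← Finset.sum_filter]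
    have h2 : ∀ y ∈ (TP N j).filter (fun y => ∏ i, x i = ∏ i, y i),
        al a x * (starRingEnd ℂ) (al a y) = ((‖al a x‖ ^ 2 : ℝ) : ℂ) := by
      intro y hy
      rw [Finset.mem_filter] at hy
      obtain ⟨σ, hσ⟩ := exists_perm x y (fun i => (mem_TP hx i).1) (fun i => (mem_TP hy.1 i).1) hy.2
      have h3 : al a y = al a x := by
        rw [hσ, al, al]
        exact Equiv.prod_comp σ (fun i => a (x i))
      rw [h3, Complex.mul_conj, Complex.normSq_eq_norm_sq]
    rw [Finset.sum_congr rfl h2, Finset.sum_const, nsmul_eq_mul]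
    unfold cc
    push_cast
    rfl
  rw [Finset.sum_congr rfl h1]
  have h4 : ((∑ p ∈ PP N, ‖a p‖ ^ 2 : ℝ)) ^ j = ∑ x ∈ TP N j, ‖al a x‖ ^ 2 := by
    rw [Finset.sum_pow']
    exact Finset.sum_congr rfl fun x _ => (hal x).symm
  rw [← Complex.ofReal_pow, h4, ← Complex.ofReal_natCast, ← Complex.ofReal_sum, ← Complex.ofReal_mul,
    ← Complex.ofReal_sub, Complex.norm_real, Real.norm_eq_abs, Finset.mul_sum, ← Finset.sum_sub_distrib]
  have h5 : ∀ x ∈ TP N j, |(cc N j x : ℝ) * ‖al a x‖ ^ 2 - (j.factorial : ℝ) * ‖al a x‖ ^ 2| ≤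
      if ¬ Function.Injective x then (j.factorial : ℝ) * ∏ i, ‖a (x i)‖ ^ 2 else 0 := by
    intro x hx
    by_cases h : ¬ Function.Injective x
    · rw [if_pos h, ← sub_mul, abs_mul, abs_of_nonneg (sq_nonneg ‖al a x‖), hal]
      refine mul_le_mul_of_nonneg_right ?_ (Finset.prod_nonneg fun i _ => by positivity)
      have h6 : (cc N j x : ℝ) ≤ j.factorial := by exact_mod_cast cc_le hx
      have h7 : (0 : ℝ) ≤ cc N j x := Nat.cast_nonneg _
      rw [abs_le]
      constructor <;> linarith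
    · rw [if_neg h, cc_eq hx (not_not.1 h), sub_self, abs_zero]
  refine (Finset.abs_sum_le_sum_abs _ _).trans ((Finset.sum_le_sum h5).trans ?_)
  rw [← Finset.sum_filter, ← Finset.mul_sum]
  have h8 := noninj (N := N) (j := j) (fun p => ‖a p‖ ^ 2) θ (fun p => sq_nonneg _)
    (fun p => pow_le_pow_left₀ (norm_nonneg _) (ha p) 2)
  calc (j.factorial : ℝ) * ∑ x ∈ (TP N j).filter (fun x => ¬ Function.Injective x), ∏ i, ‖a (x i)‖ ^ 2
      ≤ (j.factorial : ℝ) * (j ^ 2 * θ ^ 2 * (1 + ∑ p ∈ PP N, ‖a p‖ ^ 2) ^ j) :=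
        mul_le_mul_of_nonneg_left h8 (Nat.cast_nonneg _)
    _ = _ := by ring

end MOML

open MOML in
theorem t_MOM : S_MOM := by
  classical
  intro j l N a θ T hN hθ0 hθ1 hT ha
  change ‖(1 / T : ℂ) * (∫ t in T..(2 * T), (∑ p ∈ PP N, a p * ee p t) ^ j *
      ((starRingEnd ℂ) (∑ p ∈ PP N, a p * ee p t)) ^ l) -
    (if j = l then ((j.factorial : ℂ)) * ((∑ p ∈ PP N, ‖a p‖ ^ 2 : ℝ) : ℂ) ^ j else 0)‖ ≤
    (j.factorial : ℝ) * j ^ 2 * θ ^ 2 * (1 + ∑ p ∈ PP N, ‖a p‖ ^ 2) ^ j +
      2 * (N : ℝ) ^ (2 * (j + l)) / T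
  rw [int_exp]
  have hT0 : (0 : ℝ) < T := by linarith
  have hTc : (T : ℂ) ≠ 0 := by exact_mod_cast hT0.ne'
  have hN1 : (1 : ℝ) ≤ N := by exact_mod_cast hN
  set D : ℂ := ∑ x ∈ TP N j, ∑ y ∈ TP N l, if ∏ i, x i = ∏ i, y i then
    al a x * (starRingEnd ℂ) (al a y) else 0 with hD
  set E : ℂ := ∑ x ∈ TP N j, ∑ y ∈ TP N l, if ∏ i, x i = ∏ i, y i then 0 else
    (al a x * (starRingEnd ℂ) (al a y)) *
      ∫ t in T..(2 * T), ee (∏ i, x i) t * (starRingEnd ℂ) (ee (∏ i, y i) t) with hE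
  have hsplit : ∑ x ∈ TP N j, ∑ y ∈ TP N l, (al a x * (starRingEnd ℂ) (al a y)) *
      ∫ t in T..(2 * T), ee (∏ i, x i) t * (starRingEnd ℂ) (ee (∏ i, y i) t) = D * T + E := by
    rw [hD, hE, Finset.sum_mul, ← Finset.sum_add_distrib]
    refine Finset.sum_congr rfl fun x _ => ?_
    rw [Finset.sum_mul, ← Finset.sum_add_distrib]
    refine Finset.sum_congr rfl fun y _ => ?_
    split_ifs with h
    · rw [← h, J_eq, add_zero]
    · rw [zero_mul, zero_add]
  rw [hsplit]
  have hEb : ‖E‖ ≤ 2 * (N : ℝ) ^ (2 * (j + l)) := by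
    rw [hE]
    calc ‖∑ x ∈ TP N j, ∑ y ∈ TP N l, if ∏ i, x i = ∏ i, y i then 0 else
        (al a x * (starRingEnd ℂ) (al a y)) *
        ∫ t in T..(2 * T), ee (∏ i, x i) t * (starRingEnd ℂ) (ee (∏ i, y i) t)‖
        ≤ ∑ x ∈ TP N j, ∑ y ∈ TP N l, 2 * (N : ℝ) ^ (j + l) := by
          refine (norm_sum_le _ _).trans (Finset.sum_le_sum fun x hx => ?_)
          refine (norm_sum_le _ _).trans (Finset.sum_le_sum fun y hy => ?_)
          split_ifs with h
          · rw [norm_zero]; positivity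
          · rw [norm_mul, norm_mul, RCLike.norm_conj]
            have h1 := J_le (prod_pos' hx) (prod_pos' hy) h T
            have h2 : ((max (∏ i, x i) (∏ i, y i) : ℕ) : ℝ) ≤ (N : ℝ) ^ (j + l) := by
              have : max (∏ i, x i) (∏ i, y i) ≤ N ^ (j + l) :=
                max_le ((prod_le' hx).trans (Nat.pow_le_pow_right hN (by omega)))
                  ((prod_le' hy).trans (Nat.pow_le_pow_right hN (by omega)))
              exact_mod_cast this
            have h3 := al_le hθ1 ha x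
            have h4 := al_le hθ1 ha y
            calc ‖al a x‖ * ‖al a y‖ * ‖∫ t in T..(2 * T), ee (∏ i, x i) t * (starRingEnd ℂ) (ee (∏ i, y i) t)‖
                ≤ 1 * 1 * (2 * (N : ℝ) ^ (j + l)) := by
                  refine mul_le_mul (mul_le_mul h3 h4 (norm_nonneg _) zero_le_one) (h1.trans ?_)
                    (norm_nonneg _) (by norm_num)
                  linarith
              _ = _ := by ring
      _ = ((TP N j).card : ℝ) * ((TP N l).card : ℝ) * (2 * (N : ℝ) ^ (j + l)) := by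
          rw [Finset.sum_const, Finset.sum_const, nsmul_eq_mul, nsmul_eq_mul]; ring
      _ ≤ (N : ℝ) ^ j * (N : ℝ) ^ l * (2 * (N : ℝ) ^ (j + l)) := by
          have h5 : ((TP N j).card : ℝ) ≤ (N : ℝ) ^ j := by exact_mod_cast card_TP N j
          have h6 : ((TP N l).card : ℝ) ≤ (N : ℝ) ^ l := by exact_mod_cast card_TP N l
          gcongr
      _ = 2 * (N : ℝ) ^ (2 * (j + l)) := by ring
  have heq : (1 / T : ℂ) * (D * T + E) -
      (if j = l then ((j.factorial : ℂ)) * ((∑ p ∈ PP N, ‖a p‖ ^ 2 : ℝ) : ℂ) ^ j else 0) =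
      (D - (if j = l then ((j.factorial : ℂ)) * ((∑ p ∈ PP N, ‖a p‖ ^ 2 : ℝ) : ℂ) ^ j else 0)) + E / T := by
    field_simp
    ring
  rw [heq]
  refine (norm_add_le _ _).trans (add_le_add ?_ ?_)
  · by_cases hjl : j = l
    · subst hjl
      rw [if_pos rfl]
      exact diag ha
    · rw [if_neg hjl]
      have hD0 : D = 0 := by
        rw [hD]
        refine Finset.sum_eq_zero fun x hx => Finset.sum_eq_zero fun y hy => ?_
        rw [if_neg]
        intro h
        exact hjl (len_eq x y (fun i => (mem_TP hx i).1) (fun i => (mem_TP hy i).1) h)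
      rw [hD0, sub_zero, norm_zero]
      have : 0 ≤ ∑ p ∈ PP N, ‖a p‖ ^ 2 := Finset.sum_nonneg fun p _ => sq_nonneg _
      positivity
  · rw [norm_div, Complex.norm_real, Real.norm_eq_abs, abs_of_pos hT0]
    exact div_le_div_of_nonneg_right hEb hT0.le

end Pool.Agent.H203.ME
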