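import Pool.Agent.H203.ME.Defs

set_option autoImplicit false

/-! The central limit theorem for prime polynomials, from the mean values of powers. -/

open Complex Filter Topology Set MeasureTheory

namespace Pool.Agent.H203.ME

namespace CLTL

/-- the remainder of the exponential series on the imaginary axis, nonnegative arguments -/
theorem rem_nonneg (n : ℕ) : ∀ y : ℝ, 0 ≤ y →
    ‖cexp (I * y) - ∑ m ∈ Finset.range n, (I * y) ^ m / (m.factorial : ℂ)‖ ≤
      y ^ n / n.factorial := by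
  induction n with
  | zero =>
    intro y hy
    simp only [Finset.range_zero, Finset.sum_empty, sub_zero, pow_zero, Nat.factorial_zero,
      Nat.cast_one, div_one]
    rw [mul_comm, Complex.norm_exp_ofReal_mul_I]
  | succ n ih =>
    intro y hy
    have hderiv : ∀ x : ℝ, HasDerivAt
        (fun y : ℝ => cexp (I * y) - ∑ m ∈ Finset.range (n + 1), (I * y) ^ m / (m.factorial : ℂ))
        (I * (cexp (I * x) - ∑ m ∈ Finset.range n, (I * x) ^ m / (m.factorial : ℂ))) x := by
      intro x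
      have h0 : HasDerivAt (fun y : ℝ => (I * y : ℂ)) (I * 1) x :=
        (Complex.ofRealCLM.hasDerivAt (x := x)).const_mul I
      have h1 : HasDerivAt (fun y : ℝ => cexp (I * y)) (cexp (I * x) * (I * 1)) x := h0.cexp
      have h2 : HasDerivAt (fun y : ℝ => ∑ m ∈ Finset.range (n + 1), (I * y) ^ m / (m.factorial : ℂ))
          (∑ m ∈ Finset.range (n + 1), (m : ℂ) * (I * x) ^ (m - 1) * (I * 1) / (m.factorial : ℂ)) x := by
        refine HasDerivAt.fun_sum fun m _ => ?_
        exact (h0.pow m).div_const _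
      have h3 : ∑ m ∈ Finset.range (n + 1), (m : ℂ) * (I * x) ^ (m - 1) * (I * 1) / (m.factorial : ℂ)
          = I * ∑ m ∈ Finset.range n, (I * x) ^ m / (m.factorial : ℂ) := by
        rw [Finset.sum_range_succ', Finset.mul_sum]
        simp only [Nat.cast_zero, zero_mul, zero_div, add_zero]
        refine Finset.sum_congr rfl fun m _ => ?_
        rw [Nat.add_sub_cancel, Nat.factorial_succ]
        have : ((m : ℂ) + 1) ≠ 0 := by exact_mod_cast Nat.succ_ne_zero m
        have h4 : (m.factorial : ℂ) ≠ 0 := by exact_mod_cast Nat.factorial_ne_zero m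
        push_cast
        field_simp
      have h5 := h1.sub h2
      rw [h3] at h5
      have e : I * (cexp (I * x) - ∑ m ∈ Finset.range n, (I * x) ^ m / (m.factorial : ℂ)) =
          cexp (I * x) * (I * 1) - I * ∑ m ∈ Finset.range n, (I * x) ^ m / (m.factorial : ℂ) := by ring
      rw [e]
      exact h5
    have key := image_norm_le_of_norm_deriv_right_le_deriv_boundary
      (f := fun y : ℝ => cexp (I * y) - ∑ m ∈ Finset.range (n + 1), (I * y) ^ m / (m.factorial : ℂ))
      (f' := fun x : ℝ => I * (cexp (I * x) - ∑ m ∈ Finset.range n, (I * x) ^ m / (m.factorial : ℂ)))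
      (a := 0) (b := y)
      (B := fun x : ℝ => x ^ (n + 1) / (n + 1).factorial)
      (B' := fun x : ℝ => x ^ n / n.factorial)
      (fun x _ => (hderiv x).continuousAt.continuousWithinAt)
      (fun x _ => (hderiv x).hasDerivWithinAt)
      (by
        simp only [Complex.ofReal_zero, mul_zero, Complex.exp_zero]
        rw [Finset.sum_range_succ']
        simp)
      (by
        intro x
        have h1 := (hasDerivAt_pow (n + 1) x).div_const ((n + 1).factorial : ℝ)
        have e : x ^ n / (n.factorial : ℝ) = ((n + 1 : ℕ) : ℝ) * x ^ (n + 1 - 1) / ((n + 1).factorial : ℝ) := by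
          rw [Nat.add_sub_cancel, Nat.factorial_succ]
          have : ((n : ℝ) + 1) ≠ 0 := by positivity
          have h4 : (n.factorial : ℝ) ≠ 0 := by exact_mod_cast Nat.factorial_ne_zero n
          push_cast
          field_simp
        simp only [e]
        exact h1)
      (by
        intro x hx
        rw [norm_mul, Complex.norm_I, one_mul]
        exact ih x hx.1)
    exact key ⟨hy, le_rfl⟩

theorem rem_abs (n : ℕ) (y : ℝ) :
    ‖cexp (I * y) - ∑ m ∈ Finset.range n, (I * y) ^ m / (m.factorial : ℂ)‖ ≤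
      |y| ^ n / n.factorial := by
  rcases le_total 0 y with hy | hy
  · rw [abs_of_nonneg hy]
    exact rem_nonneg n y hy
  · rw [abs_of_nonpos hy]
    have h := rem_nonneg n (-y) (by linarith)
    have e : (starRingEnd ℂ) (cexp (I * y) - ∑ m ∈ Finset.range n, (I * y) ^ m / (m.factorial : ℂ)) =
        cexp (I * ((-y : ℝ) : ℂ)) - ∑ m ∈ Finset.range n, (I * ((-y : ℝ) : ℂ)) ^ m / (m.factorial : ℂ) := by
      have e1 : (starRingEnd ℂ) (I * y) = I * ((-y : ℝ) : ℂ) := by
        rw [map_mul, Complex.conj_I, Complex.conj_ofReal]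
        push_cast
        ring
      rw [map_sub, ← Complex.exp_conj, map_sum, e1]
      congr 1
      refine Finset.sum_congr rfl fun m _ => ?_
      rw [map_div₀, map_pow, e1]
      simp
    rw [← e, RCLike.norm_conj] at h
    exact h

/-- tail of the exponential series -/
theorem tail_exp (x : ℝ) (hx : 0 ≤ x) (K : ℕ) :
    Real.exp x - ∑ m ∈ Finset.range K, x ^ m / m.factorial ≤ x ^ K / K.factorial * Real.exp x := by
  have h1 : HasSum (fun n : ℕ => x ^ n / n.factorial) (Real.exp x) := by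
    rw [Real.exp_eq_exp_ℝ]
    exact NormedSpace.expSeries_div_hasSum_exp x
  have h2 := h1.summable
  have h3 : Real.exp x - ∑ m ∈ Finset.range K, x ^ m / m.factorial =
      ∑' m : ℕ, x ^ (m + K) / (m + K).factorial := by
    rw [← h1.tsum_eq, ← h2.sum_add_tsum_nat_add K]
    ring
  rw [h3, ← h1.tsum_eq, ← tsum_mul_left]
  refine Summable.tsum_le_tsum (fun m => ?_) ((summable_nat_add_iff K).2 h2) (h2.mul_left _)
  have h4 : (m.factorial * K.factorial : ℝ) ≤ (m + K).factorial := by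
    exact_mod_cast Nat.factorial_mul_factorial_dvd_factorial_add m K |> Nat.le_of_dvd (Nat.factorial_pos _)
  have h5 : (0 : ℝ) < m.factorial := by exact_mod_cast Nat.factorial_pos m
  have h6 : (0 : ℝ) < K.factorial := by exact_mod_cast Nat.factorial_pos K
  rw [div_mul_div_comm, ← pow_add, add_comm K m, mul_comm (K.factorial : ℝ)]
  exact div_le_div_of_nonneg_left (by positivity) (by positivity) h4

variable {N : ℕ} {a : ℕ → ℂ}

/-- the prime polynomial -/
noncomputable def AA (N : ℕ) (a : ℕ → ℂ) (t : ℝ) : ℂ :=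
  ∑ p ∈ (Finset.Icc 1 N).filter Nat.Prime, a p * ee p t

/-- the sum of the squares of the coefficients -/
noncomputable def SS (N : ℕ) (a : ℕ → ℂ) : ℝ := ∑ p ∈ (Finset.Icc 1 N).filter Nat.Prime, ‖a p‖ ^ 2

theorem SS_nonneg (N : ℕ) (a : ℕ → ℂ) : 0 ≤ SS N a := Finset.sum_nonneg fun _ _ => by positivity

theorem cont_AA (N : ℕ) (a : ℕ → ℂ) : Continuous (AA N a) := by
  unfold AA ee
  fun_prop

/-- the Gaussian moments, as they come from the expansion -/
noncomputable def GG (S : ℝ) (m : ℕ) : ℂ :=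
  (1 / 2) ^ m * ∑ j ∈ Finset.range (m + 1),
    (if j = m - j then (j.factorial : ℂ) * (S : ℂ) ^ j else 0) * (m.choose j : ℂ)

theorem GG_even (S : ℝ) (q : ℕ) :
    GG S (2 * q) = ((2 * q).factorial : ℂ) / q.factorial * ((S : ℂ) / 4) ^ q := by
  unfold GG
  rw [Finset.sum_eq_single q]
  · rw [if_pos (by omega)]
    have h := Nat.choose_mul_factorial_mul_factorial (show q ≤ 2 * q by omega)
    have h2 : 2 * q - q = q := by omega
    rw [h2] at h
    have h3 : (((2 * q).choose q : ℕ) : ℂ) * q.factorial * q.factorial = ((2 * q).factorial : ℂ) := by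
      exact_mod_cast h
    rw [← h3]
    have h4 : (q.factorial : ℂ) ≠ 0 := by exact_mod_cast Nat.factorial_ne_zero q
    rw [pow_mul, show ((1 / 2 : ℂ) ^ 2) = 1 / 4 by norm_num, div_pow, div_pow, one_pow]
    field_simp
  · intro j hj hjq
    rw [if_neg (by rw [Finset.mem_range] at hj; omega), zero_mul]
  · intro h
    exact absurd (Finset.mem_range.2 (by omega)) h

theorem GG_odd (S : ℝ) (q : ℕ) : GG S (2 * q + 1) = 0 := by
  unfold GG
  rw [Finset.sum_eq_zero, mul_zero]
  intro j hj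
  rw [if_neg (by rw [Finset.mem_range] at hj; omega), zero_mul]

theorem GG_sum (S : ℝ) (K : ℕ) :
    ∑ m ∈ Finset.range (2 * K), I ^ m / (m.factorial : ℂ) * GG S m =
      ∑ q ∈ Finset.range K, (-(S : ℂ) / 4) ^ q / (q.factorial : ℂ) := by
  induction K with
  | zero => simp
  | succ K ih =>
    rw [show 2 * (K + 1) = 2 * K + 1 + 1 by ring, Finset.sum_range_succ, Finset.sum_range_succ, ih,
      Finset.sum_range_succ, GG_odd, mul_zero, add_zero, GG_even]
    congr 1
    have h4 : (K.factorial : ℂ) ≠ 0 := by exact_mod_cast Nat.factorial_ne_zero K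
    have h5 : ((2 * K).factorial : ℂ) ≠ 0 := by exact_mod_cast Nat.factorial_ne_zero (2 * K)
    rw [pow_mul, Complex.I_sq, neg_div, neg_pow ((S : ℂ) / 4)]
    field_simp

/-- the moments -/
noncomputable def mo (N : ℕ) (a : ℕ → ℂ) (T : ℝ) (m : ℕ) : ℂ :=
  (1 / T : ℂ) * ∫ t in T..(2 * T), (((AA N a t).re : ℝ) : ℂ) ^ m

theorem mo_expand (N : ℕ) (a : ℕ → ℂ) (T : ℝ) (m : ℕ) :
    mo N a T m = (1 / 2) ^ m * ∑ j ∈ Finset.range (m + 1),
      ((1 / T : ℂ) * ∫ t in T..(2 * T), (AA N a t) ^ j * ((starRingEnd ℂ) (AA N a t)) ^ (m - j)) *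
        (m.choose j : ℂ) := by
  have hc := cont_AA N a
  have e1 : ∀ t : ℝ, (((AA N a t).re : ℝ) : ℂ) ^ m = ∑ j ∈ Finset.range (m + 1),
      ((1 / 2) ^ m * (m.choose j : ℂ)) * ((AA N a t) ^ j * ((starRingEnd ℂ) (AA N a t)) ^ (m - j)) := by
    intro t
    rw [Complex.re_eq_add_conj, div_pow, add_pow, Finset.sum_div]
    refine Finset.sum_congr rfl fun j _ => ?_
    rw [one_div, inv_pow]
    ring
  unfold mo
  simp_rw [e1]
  rw [intervalIntegral.integral_finsetSum]
  · rw [Finset.mul_sum, Finset.mul_sum]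
    refine Finset.sum_congr rfl fun j _ => ?_
    rw [intervalIntegral.integral_const_mul]
    ring
  · intro j _
    apply Continuous.intervalIntegrable
    have : Continuous fun t => (starRingEnd ℂ) (AA N a t) := Complex.continuous_conj.comp hc
    fun_prop

theorem mo_le (h : S_MOM) (N : ℕ) (a : ℕ → ℂ) (θ T : ℝ) (hN : 1 ≤ N) (h0 : 0 ≤ θ) (h1 : θ ≤ 1)
    (hT : 1 ≤ T) (ha : ∀ p, ‖a p‖ ≤ θ) (m : ℕ) :
    ‖mo N a T m - GG (SS N a) m‖ ≤
      (m.factorial : ℝ) * m ^ 2 * θ ^ 2 * (1 + SS N a) ^ m + 2 * (N : ℝ) ^ (2 * m) / T := by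
  set S := SS N a with hS
  have hS0 : 0 ≤ S := SS_nonneg N a
  have hN' : (1 : ℝ) ≤ N := by exact_mod_cast hN
  rw [mo_expand]
  unfold GG
  rw [← mul_sub, ← Finset.sum_sub_distrib, norm_mul, norm_pow]
  have hb : ∀ j ∈ Finset.range (m + 1),
      ‖((1 / T : ℂ) * ∫ t in T..(2 * T), (AA N a t) ^ j * ((starRingEnd ℂ) (AA N a t)) ^ (m - j)) *
        (m.choose j : ℂ) - (if j = m - j then (j.factorial : ℂ) * (S : ℂ) ^ j else 0) *
          (m.choose j : ℂ)‖ ≤
      ((m.factorial : ℝ) * m ^ 2 * θ ^ 2 * (1 + S) ^ m + 2 * (N : ℝ) ^ (2 * m) / T) *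
        (m.choose j : ℝ) := by
    intro j hj
    have hjm : j ≤ m := by rw [Finset.mem_range] at hj; omega
    rw [← sub_mul, norm_mul, Complex.norm_natCast]
    refine mul_le_mul_of_nonneg_right ?_ (Nat.cast_nonneg _)
    refine (h j (m - j) N a θ T hN h0 h1 hT ha).trans ?_
    have e : j + (m - j) = m := by omega
    rw [e]
    refine add_le_add ?_ le_rfl
    have f1 : (j.factorial : ℝ) ≤ m.factorial := by exact_mod_cast Nat.factorial_le hjm
    have f2 : (j : ℝ) ≤ m := by exact_mod_cast hjm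
    have f3 : (1 + S) ^ j ≤ (1 + S) ^ m := pow_le_pow_right₀ (by linarith) hjm
    change (j.factorial : ℝ) * j ^ 2 * θ ^ 2 * (1 + S) ^ j ≤ _
    gcongr
  refine (mul_le_mul_of_nonneg_left ((norm_sum_le _ _).trans (Finset.sum_le_sum hb))
    (by positivity)).trans (le_of_eq ?_)
  rw [← Finset.mul_sum]
  have hch : ∑ j ∈ Finset.range (m + 1), (m.choose j : ℝ) = 2 ^ m := by
    exact_mod_cast Nat.sum_range_choose m
  rw [hch]
  have : ‖(1 / 2 : ℂ)‖ = 1 / 2 := by norm_num
  rw [this, one_div, inv_pow]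
  have : (2 : ℝ) ^ m ≠ 0 := by positivity
  field_simp

/-- the characteristic function against the partial sum of the exponential series -/
theorem char_le (h : S_MOM) (N : ℕ) (a : ℕ → ℂ) (θ T S0 : ℝ) (hN : 1 ≤ N) (h0 : 0 ≤ θ) (h1 : θ ≤ 1)
    (hT : 1 ≤ T) (ha : ∀ p, ‖a p‖ ≤ θ) (hS : SS N a ≤ S0) (K : ℕ) :
    ‖(1 / T : ℂ) * (∫ t in T..(2 * T), cexp (I * ((AA N a t).re : ℂ))) -
      ∑ q ∈ Finset.range K, (-(SS N a : ℂ) / 4) ^ q / (q.factorial : ℂ)‖ ≤
      (S0 / 4) ^ K / K.factorial +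
        (2 * K + 1) * ((2 * K) ^ 2 * θ ^ 2 * (1 + S0) ^ (2 * K) + 2 * (N : ℝ) ^ (4 * K) / T) := by
  set S := SS N a with hSdef
  have hS0 : 0 ≤ S := SS_nonneg N a
  have hT0 : 0 < T := by linarith
  have hN' : (1 : ℝ) ≤ N := by exact_mod_cast hN
  have hc := cont_AA N a
  have hcr : Continuous fun t : ℝ => (AA N a t).re := Complex.continuous_re.comp hc
  have hcc : Continuous fun t : ℝ => (((AA N a t).re : ℝ) : ℂ) := Complex.continuous_ofReal.comp hcr
  -- the error of one moment
  set E : ℝ := (2 * K) ^ 2 * θ ^ 2 * (1 + S0) ^ (2 * K) + 2 * (N : ℝ) ^ (4 * K) / T with hE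
  have hmo : ∀ m ≤ 2 * K, ‖mo N a T m - GG S m‖ ≤ (m.factorial : ℝ) * E := by
    intro m hm
    refine (mo_le h N a θ T hN h0 h1 hT ha m).trans ?_
    rw [hE, mul_add]
    have f2 : (m : ℝ) ≤ 2 * K := by exact_mod_cast hm
    have f3 : (1 + S) ^ m ≤ (1 + S0) ^ (2 * K) :=
      (pow_le_pow_left₀ (by linarith) (by linarith) m).trans
        (pow_le_pow_right₀ (by linarith) hm)
    have f4 : (N : ℝ) ^ (2 * m) ≤ (N : ℝ) ^ (4 * K) := pow_le_pow_right₀ hN' (by omega)
    have f5 : (1 : ℝ) ≤ m.factorial := by exact_mod_cast Nat.factorial_pos m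
    refine add_le_add ?_ ?_
    · have f6 : (m.factorial : ℝ) * ((2 * K) ^ 2 * θ ^ 2 * (1 + S0) ^ (2 * K)) =
        (m.factorial : ℝ) * (2 * K) ^ 2 * θ ^ 2 * (1 + S0) ^ (2 * K) := by ring
      rw [f6]
      gcongr
    · calc 2 * (N : ℝ) ^ (2 * m) / T ≤ 2 * (N : ℝ) ^ (4 * K) / T := by gcongr
        _ ≤ (m.factorial : ℝ) * (2 * (N : ℝ) ^ (4 * K) / T) :=
            le_mul_of_one_le_left (by positivity) f5
  -- the partial sum of the exponential series, integrated
  have hsum : (1 / T : ℂ) * ∫ t in T..(2 * T), ∑ m ∈ Finset.range (2 * K),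
      (I * ((AA N a t).re : ℂ)) ^ m / (m.factorial : ℂ) =
      ∑ m ∈ Finset.range (2 * K), I ^ m / (m.factorial : ℂ) * mo N a T m := by
    rw [intervalIntegral.integral_finsetSum]
    · rw [Finset.mul_sum]
      refine Finset.sum_congr rfl fun m _ => ?_
      have e : ∀ t : ℝ, (I * ((AA N a t).re : ℂ)) ^ m / (m.factorial : ℂ) =
          (I ^ m / (m.factorial : ℂ)) * ((AA N a t).re : ℂ) ^ m := by
        intro t
        rw [mul_pow]
        ring
      simp_rw [e]
      rw [intervalIntegral.integral_const_mul]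
      unfold mo
      ring
    · intro m _
      apply Continuous.intervalIntegrable
      fun_prop
  have hrem : ‖(1 / T : ℂ) * (∫ t in T..(2 * T), cexp (I * ((AA N a t).re : ℂ))) -
      (1 / T : ℂ) * ∫ t in T..(2 * T), ∑ m ∈ Finset.range (2 * K),
        (I * ((AA N a t).re : ℂ)) ^ m / (m.factorial : ℂ)‖ ≤
      ‖mo N a T (2 * K)‖ / (2 * K).factorial := by
    rw [← mul_sub, ← intervalIntegral.integral_sub, norm_mul]
    · have hb : ‖∫ t in T..(2 * T), (cexp (I * ((AA N a t).re : ℂ)) - ∑ m ∈ Finset.range (2 * K),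
          (I * ((AA N a t).re : ℂ)) ^ m / (m.factorial : ℂ))‖ ≤
          ∫ t in T..(2 * T), (AA N a t).re ^ (2 * K) / (2 * K).factorial := by
        refine intervalIntegral.norm_integral_le_of_norm_le (by linarith) ?_ ?_
        · filter_upwards with t _
          have h5 := rem_abs (2 * K) ((AA N a t).re)
          rwa [pow_mul |(AA N a t).re|, sq_abs, ← pow_mul] at h5
        · apply Continuous.intervalIntegrable
          fun_prop
      have hmo2 : mo N a T (2 * K) = (((1 / T) * ∫ t in T..(2 * T), (AA N a t).re ^ (2 * K) : ℝ) : ℂ) := by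
        unfold mo
        push_cast
        congr 1
        rw [← intervalIntegral.integral_ofReal]
        refine intervalIntegral.integral_congr fun t _ => ?_
        push_cast
        rfl
      have hpos : 0 ≤ ∫ t in T..(2 * T), (AA N a t).re ^ (2 * K) := by
        apply intervalIntegral.integral_nonneg (by linarith)
        intro t _
        rw [pow_mul]
        positivity
      have hn1 : ‖mo N a T (2 * K)‖ = (1 / T) * ∫ t in T..(2 * T), (AA N a t).re ^ (2 * K) := by
        rw [hmo2, Complex.norm_real, Real.norm_of_nonneg]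
        exact mul_nonneg (by positivity) hpos
      have hn2 : ‖(1 / T : ℂ)‖ = 1 / T := by
        rw [norm_div, norm_one, Complex.norm_real, Real.norm_of_nonneg hT0.le]
      rw [hn1, hn2, mul_div_assoc, ← intervalIntegral.integral_div]
      exact mul_le_mul_of_nonneg_left hb (by positivity)
    · apply Continuous.intervalIntegrable
      fun_prop
    · apply Continuous.intervalIntegrable
      fun_prop
  have hGG := GG_sum S K
  have hdiff : ‖(∑ m ∈ Finset.range (2 * K), I ^ m / (m.factorial : ℂ) * mo N a T m) -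
      ∑ m ∈ Finset.range (2 * K), I ^ m / (m.factorial : ℂ) * GG S m‖ ≤ 2 * K * E := by
    rw [← Finset.sum_sub_distrib]
    refine (norm_sum_le _ _).trans ?_
    have : ∀ m ∈ Finset.range (2 * K), ‖I ^ m / (m.factorial : ℂ) * mo N a T m -
        I ^ m / (m.factorial : ℂ) * GG S m‖ ≤ E := by
      intro m hm
      rw [← mul_sub, norm_mul, norm_div, norm_pow, Complex.norm_I, one_pow, Complex.norm_natCast]
      have f5 : (0 : ℝ) < m.factorial := by exact_mod_cast Nat.factorial_pos m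
      have := hmo m (by rw [Finset.mem_range] at hm; omega)
      rw [one_div, inv_mul_le_iff₀ f5]
      exact this
    refine (Finset.sum_le_sum this).trans ?_
    simp
  have hlast : ‖mo N a T (2 * K)‖ / (2 * K).factorial ≤ (S0 / 4) ^ K / K.factorial + E := by
    have f5 : (0 : ℝ) < (2 * K).factorial := by exact_mod_cast Nat.factorial_pos (2 * K)
    have f6 : (0 : ℝ) < K.factorial := by exact_mod_cast Nat.factorial_pos K
    rw [div_le_iff₀ f5]
    have h5 := hmo (2 * K) le_rfl
    have h6 : ‖mo N a T (2 * K)‖ ≤ ‖GG S (2 * K)‖ + ‖mo N a T (2 * K) - GG S (2 * K)‖ := by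
      have := norm_add_le (GG S (2 * K)) (mo N a T (2 * K) - GG S (2 * K))
      rwa [add_sub_cancel] at this
    have h7 : ‖GG S (2 * K)‖ = ((2 * K).factorial : ℝ) / K.factorial * (S / 4) ^ K := by
      rw [GG_even, norm_mul, norm_div, norm_pow, norm_div, Complex.norm_natCast,
        Complex.norm_natCast, Complex.norm_real, Real.norm_of_nonneg hS0]
      norm_num
    have h8 : (S / 4) ^ K ≤ (S0 / 4) ^ K := pow_le_pow_left₀ (by positivity) (by linarith) K
    calc ‖mo N a T (2 * K)‖ ≤ ((2 * K).factorial : ℝ) / K.factorial * (S / 4) ^ K +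
          ((2 * K).factorial : ℝ) * E := by rw [← h7]; linarith
      _ ≤ ((2 * K).factorial : ℝ) / K.factorial * (S0 / 4) ^ K + ((2 * K).factorial : ℝ) * E := by
          gcongr
      _ = ((S0 / 4) ^ K / K.factorial + E) * (2 * K).factorial := by ring
  rw [← hGG]
  rw [hsum] at hrem
  have := norm_sub_le_norm_sub_add_norm_sub
    ((1 / T : ℂ) * (∫ t in T..(2 * T), cexp (I * ((AA N a t).re : ℂ))))
    (∑ m ∈ Finset.range (2 * K), I ^ m / (m.factorial : ℂ) * mo N a T m)
    (∑ m ∈ Finset.range (2 * K), I ^ m / (m.factorial : ℂ) * GG S m)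
  linarith

end CLTL

open CLTL in
theorem t_CLT (h : S_MOM) : S_CLT := by
  intro S0 ε hS0 hε
  -- the number of terms
  have hlim : Tendsto (fun K : ℕ => (S0 / 4) ^ K / K.factorial * (1 + Real.exp (S0 / 4))) atTop
      (𝓝 (0 * (1 + Real.exp (S0 / 4)))) :=
    (FloorSemiring.tendsto_pow_div_factorial_atTop (S0 / 4)).mul_const _
  rw [zero_mul] at hlim
  obtain ⟨K, hK1, hK⟩ := ((eventually_ge_atTop 1).and
    (hlim.eventually (gt_mem_nhds (show (0 : ℝ) < ε / 3 by positivity)))).exists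
  have hKR : (1 : ℝ) ≤ K := by exact_mod_cast hK1
  set D : ℝ := (2 * K + 1) * ((2 * K) ^ 2 * (1 + S0) ^ (2 * K)) with hD
  have hD0 : 0 < D := by positivity
  set η : ℝ := min 1 (ε / (3 * (D + 1))) with hη
  have hη0 : 0 < η := lt_min one_pos (by positivity)
  have hη1 : η ≤ 1 := min_le_left _ _
  have hηD : D * η ^ 2 ≤ ε / 3 := by
    have h1 : η ≤ ε / (3 * (D + 1)) := min_le_right _ _
    have h2 : η ^ 2 ≤ η := by nlinarith
    calc D * η ^ 2 ≤ D * (ε / (3 * (D + 1))) := by
          exact mul_le_mul_of_nonneg_left (h2.trans h1) hD0.le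
      _ = ε / 3 * (D / (D + 1)) := by field_simp
      _ ≤ ε / 3 * 1 := by
          refine mul_le_mul_of_nonneg_left ?_ (by positivity)
          rw [div_le_one (by positivity)]
          linarith
      _ = ε / 3 := mul_one _
  set T0 : ℝ := max 1 ((3 * ((2 * K + 1) * 2) / ε) ^ 2) with hT0def
  refine ⟨η, 1 / (8 * K), T0, hη0, by positivity, ?_, le_max_left _ _, ?_⟩
  · rw [div_le_one (by positivity)]
    linarith
  intro T hT N a hN ha hS
  have hT1 : 1 ≤ T := (le_max_left _ _).trans hT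
  have hTpos : 0 < T := by linarith
  -- replace `N` by `max N 1`
  have hfil : (Finset.Icc 1 (max N 1)).filter Nat.Prime = (Finset.Icc 1 N).filter Nat.Prime := by
    ext p
    simp only [Finset.mem_filter, Finset.mem_Icc]
    constructor
    · rintro ⟨⟨h1, h2⟩, h3⟩
      refine ⟨⟨h1, ?_⟩, h3⟩
      rcases le_max_iff.1 h2 with h4 | h4
      · exact h4
      · have := h3.two_le
        omega
    · rintro ⟨⟨h1, h2⟩, h3⟩
      exact ⟨⟨h1, h2.trans (le_max_left _ _)⟩, h3⟩
  have hAA : ∀ t, ∑ p ∈ (Finset.Icc 1 N).filter Nat.Prime, a p * ee p t = AA (max N 1) a t := by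
    intro t
    unfold AA
    rw [hfil]
  have hSS : ∑ p ∈ (Finset.Icc 1 N).filter Nat.Prime, ‖a p‖ ^ 2 = SS (max N 1) a := by
    unfold SS
    rw [hfil]
  simp_rw [hAA]
  rw [hSS] at hS ⊢
  have hSn := SS_nonneg (max N 1) a
  have hM := char_le h (max N 1) a η T S0 (le_max_right _ _) hη0.le hη1 hT1 ha hS K
  have hNT : ((max N 1 : ℕ) : ℝ) ≤ T ^ (1 / (8 * K : ℝ)) := by
    rw [Nat.cast_max, Nat.cast_one]
    exact max_le hN (Real.one_le_rpow hT1 (by positivity))
  have hpow : ((max N 1 : ℕ) : ℝ) ^ (4 * K) ≤ T ^ (1 / 2 : ℝ) := by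
    calc ((max N 1 : ℕ) : ℝ) ^ (4 * K) ≤ (T ^ (1 / (8 * K : ℝ))) ^ (4 * K) :=
          pow_le_pow_left₀ (Nat.cast_nonneg _) hNT _
      _ = T ^ (1 / 2 : ℝ) := by
          rw [← Real.rpow_natCast, ← Real.rpow_mul hTpos.le]
          congr 1
          push_cast
          field_simp
          norm_num
  have hfin : (2 * K + 1) * (2 * ((max N 1 : ℕ) : ℝ) ^ (4 * K) / T) ≤ ε / 3 := by
    have hsq : 0 < T ^ (1 / 2 : ℝ) := Real.rpow_pos_of_pos hTpos _
    have h1 : T = T ^ (1 / 2 : ℝ) * T ^ (1 / 2 : ℝ) := by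
      rw [← Real.rpow_add hTpos]
      norm_num
    have h2 : (3 * ((2 * K + 1) * 2) / ε) ≤ T ^ (1 / 2 : ℝ) := by
      rw [← Real.sqrt_eq_rpow]
      exact Real.le_sqrt_of_sq_le ((le_max_right _ _).trans hT)
    calc (2 * K + 1) * (2 * ((max N 1 : ℕ) : ℝ) ^ (4 * K) / T)
        ≤ (2 * K + 1) * (2 * T ^ (1 / 2 : ℝ) / T) := by gcongr
      _ = (2 * K + 1) * 2 / T ^ (1 / 2 : ℝ) := by
          nth_rewrite 2 [h1]
          field_simp
      _ ≤ ε / 3 := by
          rw [div_le_iff₀ hsq]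
          rw [div_le_iff₀ hε] at h2
          nlinarith
  have hexp : ‖cexp (-((SS (max N 1) a : ℝ) : ℂ) / 4) -
      ∑ q ∈ Finset.range K, (-(SS (max N 1) a : ℂ) / 4) ^ q / (q.factorial : ℂ)‖ ≤
      (S0 / 4) ^ K / K.factorial * Real.exp (S0 / 4) := by
    have h1 := Complex.norm_exp_sub_sum_le_exp_norm_sub_sum (-((SS (max N 1) a : ℝ) : ℂ) / 4) K
    have h2 : ‖(-((SS (max N 1) a : ℝ) : ℂ) / 4)‖ = SS (max N 1) a / 4 := by
      rw [norm_div, norm_neg, Complex.norm_real, Real.norm_of_nonneg hSn]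
      norm_num
    rw [h2] at h1
    refine h1.trans ((tail_exp _ (by positivity) K).trans ?_)
    have h3 : (SS (max N 1) a / 4) ^ K ≤ (S0 / 4) ^ K := pow_le_pow_left₀ (by positivity) (by linarith) K
    have h4 : Real.exp (SS (max N 1) a / 4) ≤ Real.exp (S0 / 4) := Real.exp_le_exp.2 (by linarith)
    gcongr
  have htri := norm_sub_le_norm_sub_add_norm_sub
    ((1 / T : ℂ) * (∫ t in T..(2 * T), cexp (I * ((AA (max N 1) a t).re : ℂ))))
    (∑ q ∈ Finset.range K, (-(SS (max N 1) a : ℂ) / 4) ^ q / (q.factorial : ℂ))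
    (cexp (-((SS (max N 1) a : ℝ) : ℂ) / 4))
  rw [norm_sub_rev (∑ q ∈ Finset.range K, _)] at htri
  refine htri.trans ?_
  have e1 : (2 * (K : ℝ) + 1) * ((2 * K) ^ 2 * η ^ 2 * (1 + S0) ^ (2 * K) +
      2 * ((max N 1 : ℕ) : ℝ) ^ (4 * K) / T) =
      D * η ^ 2 + (2 * K + 1) * (2 * ((max N 1 : ℕ) : ℝ) ^ (4 * K) / T) := by
    rw [hD]
    ring
  rw [e1] at hM
  have e2 : (S0 / 4) ^ K / K.factorial * (1 + Real.exp (S0 / 4)) =
    (S0 / 4) ^ K / K.factorial + (S0 / 4) ^ K / K.factorial * Real.exp (S0 / 4) := by ring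
  rw [e2] at hK
  linarith

end Pool.Agent.H203.ME
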