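import Pool.Agent.H203.ME.Defs

set_option autoImplicit false

open Complex Filter Topology Set MeasureTheory

namespace Pool.Agent.H203.ME

namespace BBIL

lemma gR_abs {R u : ℝ} (hR : 1 ≤ R) (hu : 0 ≤ u) (huR : u ≤ R) : |gR R u| ≤ 1 := by
  unfold gR
  have h0 : 0 < R := by linarith
  have h1 : u / R ≤ 1 := by rw [div_le_one h0]; exact huR
  have h2 : 0 ≤ u / R := by positivity
  have h3 : (u / R) ^ 2 ≤ 1 := by nlinarith
  have h4 : 0 ≤ 1 - (u / R) ^ 2 := by linarith
  have h5 : 1 - (u / R) ^ 2 ≤ 1 := by nlinarith [sq_nonneg (u / R)]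
  have h6 : (1 - (u / R) ^ 2) ^ 5 ≤ 1 := pow_le_one₀ h4 h5
  have h7 : 0 ≤ (1 - (u / R) ^ 2) ^ 5 := pow_nonneg h4 5
  have h8 : 1 / (2 * Real.pi) ≤ 1 := by
    rw [div_le_one (by positivity)]
    nlinarith [Real.pi_gt_three]
  have h9 : 0 ≤ 1 / (2 * Real.pi) := by positivity
  rw [abs_of_nonneg (mul_nonneg h9 h7)]
  calc 1 / (2 * Real.pi) * (1 - (u / R) ^ 2) ^ 5 ≤ 1 * 1 := by
        apply mul_le_mul h8 h6 h7 zero_le_one
    _ = 1 := by ring

lemma cR_abs {R : ℝ} (hR : 1 ≤ R) (x : ℝ) :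
    |cR R x| ≤ R * Real.exp (R ^ 2 / 2 + 9) * Real.exp (-(3 * x)) := by
  unfold cR
  have h := intervalIntegral.norm_integral_le_of_norm_le_const (a := (0:ℝ)) (b := R)
    (f := fun u => gR R u * Real.exp (-(u - x) ^ 2 / 2))
    (C := Real.exp (R ^ 2 / 2 + 9) * Real.exp (-(3 * x))) (by
      intro u hu
      rw [uIoc_of_le (by linarith)] at hu
      obtain ⟨hu0, huR⟩ := hu
      rw [Real.norm_eq_abs, abs_mul, abs_of_pos (Real.exp_pos _)]
      have h1 := gR_abs hR hu0.le huR
      have h2 : Real.exp (-(u - x) ^ 2 / 2) ≤ Real.exp (R ^ 2 / 2 + 9) * Real.exp (-(3 * x)) := by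
        rw [← Real.exp_add]
        apply Real.exp_le_exp.mpr
        have hu2 : u ^ 2 ≤ R ^ 2 := by nlinarith
        nlinarith [sq_nonneg (x / 2 - 3), sq_nonneg (x / 2 - u)]
      calc |gR R u| * Real.exp (-(u - x) ^ 2 / 2) ≤ 1 * Real.exp (-(u - x) ^ 2 / 2) := by
            apply mul_le_mul_of_nonneg_right h1 (Real.exp_pos _).le
        _ ≤ _ := by rw [one_mul]; exact h2)
  rw [Real.norm_eq_abs] at h
  refine h.trans (le_of_eq ?_)
  rw [sub_zero, abs_of_nonneg (by linarith : (0:ℝ) ≤ R)]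
  ring

lemma coef_abs {R : ℝ} (hR : 1 ≤ R) (n : ℕ) :
    |ArithmeticFunction.vonMangoldt n / Real.sqrt n * cR R (Real.log n)| ≤
      R * Real.exp (R ^ 2 / 2 + 9) * (1 / (n : ℝ) ^ 2) := by
  rcases Nat.eq_zero_or_pos n with hn | hn
  · subst hn
    simp
  have hn1 : (1 : ℝ) ≤ n := by exact_mod_cast hn
  have hn0 : (0 : ℝ) < n := by linarith
  have h1 : ArithmeticFunction.vonMangoldt n ≤ (n : ℝ) :=
    ArithmeticFunction.vonMangoldt_le_log.trans (by
      have := Real.log_le_sub_one_of_pos hn0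
      linarith)
  have h2 : 0 ≤ ArithmeticFunction.vonMangoldt n := ArithmeticFunction.vonMangoldt_nonneg
  have h3 : 1 ≤ Real.sqrt n := by
    rw [Real.one_le_sqrt]; exact hn1
  have h4 : |ArithmeticFunction.vonMangoldt n / Real.sqrt n| ≤ n := by
    rw [abs_of_nonneg (by positivity)]
    calc ArithmeticFunction.vonMangoldt n / Real.sqrt n ≤ ArithmeticFunction.vonMangoldt n :=
          div_le_self h2 h3
      _ ≤ n := h1
  rw [abs_mul]
  have h5 := cR_abs hR (Real.log n)
  have h6 : Real.exp (-(3 * Real.log n)) = 1 / (n : ℝ) ^ 3 := by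
    rw [Real.exp_neg, show 3 * Real.log n = Real.log ((n : ℝ) ^ 3) by rw [Real.log_pow]; norm_num,
      Real.exp_log (by positivity)]
    rw [one_div]
  rw [h6] at h5
  calc |ArithmeticFunction.vonMangoldt n / Real.sqrt n| * |cR R (Real.log n)|
      ≤ n * (R * Real.exp (R ^ 2 / 2 + 9) * (1 / (n : ℝ) ^ 3)) :=
        mul_le_mul h4 h5 (abs_nonneg _) hn0.le
    _ = R * Real.exp (R ^ 2 / 2 + 9) * (1 / (n : ℝ) ^ 2) := by
        field_simp

lemma coef_summable {R : ℝ} (hR : 1 ≤ R) :
    Summable (fun n : ℕ => |ArithmeticFunction.vonMangoldt n / Real.sqrt n * cR R (Real.log n)|) := by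
  refine Summable.of_nonneg_of_le (fun n => abs_nonneg _) (fun n => coef_abs hR n) ?_
  apply Summable.mul_left
  exact Real.summable_one_div_nat_pow.mpr (by norm_num)

lemma norm_ee (n : ℕ) (t : ℝ) : ‖ee n t‖ = 1 := by
  unfold ee
  rw [show (-(((t * Real.log n : ℝ) : ℂ) * I)) = (((-(t * Real.log n) : ℝ)) : ℂ) * I by
    push_cast; ring]
  exact Complex.norm_exp_ofReal_mul_I _

lemma ee_add (n : ℕ) (t s : ℝ) :
    ee n (t + s) = ee n t * cexp (-(((Real.log n * s : ℝ) : ℂ) * I)) := by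
  unfold ee
  rw [← Complex.exp_add]
  congr 1
  push_cast
  ring

lemma cont_ee (n : ℕ) (t : ℝ) : Continuous (fun s : ℝ => ee n (t + s)) := by
  unfold ee
  fun_prop

lemma hcs {F : ℝ → ℝ} (hF : C2c F) : HasCompactSupport F := by
  refine HasCompactSupport.intro (K := Icc (-1 : ℝ) 1) isCompact_Icc ?_
  intro x hx
  apply hF.supp
  by_contra h
  push Not at h
  exact hx ⟨by linarith [(abs_lt.mp h).1], by linarith [(abs_lt.mp h).2]⟩

end BBIL

open BBIL in
theorem t_BBI : S_BBI := by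
  intro F hF R t hR
  set c : ℕ → ℝ := fun n => ArithmeticFunction.vonMangoldt n / Real.sqrt n * cR R (Real.log n) with hc
  have hcs : Summable (fun n => |c n|) := coef_summable hR
  have hFc : Continuous F := hF.cd.continuous
  have hFk : HasCompactSupport F := BBIL.hcs hF
  have hFi : Integrable F := hFc.integrable_of_hasCompactSupport hFk
  -- the series
  set S : ℝ → ℂ := fun s => ∑' n : ℕ, (c n : ℂ) * ee n (t + s) with hS
  have hnorm : ∀ n s, ‖(c n : ℂ) * ee n (t + s)‖ = |c n| := by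
    intro n s
    rw [norm_mul, norm_ee, mul_one, Complex.norm_real, Real.norm_eq_abs]
  have hScont : Continuous S := by
    apply continuous_tsum (u := fun n => |c n|)
    · intro n
      exact continuous_const.mul (cont_ee n t)
    · exact hcs
    · intro n s
      exact (hnorm n s).le
  have hfc : Continuous (fun s : ℝ => (F s : ℂ) * S s) :=
    (Complex.continuous_ofReal.comp hFc).mul hScont
  have hfk : HasCompactSupport (fun s : ℝ => (F s : ℂ) * S s) := by
    apply HasCompactSupport.mul_right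
    exact hFk.comp_left (g := fun x : ℝ => (x : ℂ)) (by simp)
  have hfi : Integrable (fun s : ℝ => (F s : ℂ) * S s) := hfc.integrable_of_hasCompactSupport hfk
  -- interchange
  set G : ℕ → ℝ → ℂ := fun n s => (F s : ℂ) * ((c n : ℂ) * ee n (t + s)) with hG
  have hGc : ∀ n, Continuous (G n) := fun n =>
    (Complex.continuous_ofReal.comp hFc).mul (continuous_const.mul (cont_ee n t))
  have hGi : ∀ n, Integrable (G n) := by
    intro n
    apply (hGc n).integrable_of_hasCompactSupport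
    apply HasCompactSupport.mul_right
    exact hFk.comp_left (g := fun x : ℝ => (x : ℂ)) (by simp)
  have hGn : ∀ n s, ‖G n s‖ = |c n| * |F s| := by
    intro n s
    rw [hG]
    simp only [norm_mul, norm_ee, mul_one, Complex.norm_real, Real.norm_eq_abs]
    ring
  have hGs : Summable (fun n => ∫ s, ‖G n s‖) := by
    have : (fun n => ∫ s, ‖G n s‖) = fun n => |c n| * ∫ s, |F s| := by
      funext n
      simp_rw [hGn]
      rw [integral_const_mul]
    rw [this]
    exact hcs.mul_right _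
  have hsum := hasSum_integral_of_summable_integral_norm hGi hGs
  have hGS : ∀ s, ∑' n, G n s = (F s : ℂ) * S s := by
    intro s
    rw [hG, hS]
    simp only
    rw [tsum_mul_left]
  simp_rw [hGS] at hsum
  have hGint : ∀ n, ∫ s, G n s = (c n : ℂ) * FF F (Real.log n) * ee n t := by
    intro n
    unfold FF
    rw [show (c n : ℂ) * (∫ s : ℝ, (F s : ℂ) * cexp (-(((Real.log n * s : ℝ) : ℂ) * I))) * ee n t =
      ((c n : ℂ) * ee n t) * ∫ s : ℝ, (F s : ℂ) * cexp (-(((Real.log n * s : ℝ) : ℂ) * I)) by ring]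
    rw [← integral_const_mul]
    congr 1
    funext s
    rw [hG]
    simp only
    rw [ee_add]
    ring
  simp_rw [hGint] at hsum
  -- conclusion
  unfold BB
  rw [hsum.tsum_eq]
  have hre : (∫ s : ℝ, (F s : ℂ) * S s).re = ∫ s : ℝ, ((F s : ℂ) * S s).re :=
    (integral_re hfi).symm
  rw [hre, ← integral_const_mul]
  congr 1
  funext s
  unfold PR
  rw [Complex.re_ofReal_mul]
  simp only [hS, hc]
  ring

end Pool.Agent.H203.ME
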