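import Pool.Agent.H203.ME.Defs4

/-! (ADP) combinations of smoothed indicator functions are admissible. -/

set_option autoImplicit false

open Complex Filter Topology Set MeasureTheory ProbabilityTheory

namespace Pool.Agent.H203.ME

namespace ADPL

/-! ### majorants -/

noncomputable def mA (w θ : ℝ) : ℝ := w / ((1 + w * θ) * (1 + θ))
noncomputable def mB (w θ : ℝ) : ℝ := w ^ 2 / (1 + w * θ) ^ 2

theorem mA_int {w : ℝ} (hw : 2 ≤ w) :
    IntegrableOn (mA w) (Ioi 0) ∧ ∫ θ in Ioi (0 : ℝ), mA w θ ≤ 2 * Real.log w := by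
  have hw0 : 0 < w := by linarith
  have hw1 : 0 < w - 1 := by linarith
  set g : ℝ → ℝ := fun θ => w / (w - 1) * (Real.log (1 + w * θ) - Real.log (1 + θ)) with hg
  have hd : ∀ θ ∈ Ici (0 : ℝ), HasDerivAt g (mA w θ) θ := by
    intro θ hθ
    have hθ0 : (0 : ℝ) ≤ θ := hθ
    have h1 : (0 : ℝ) < 1 + w * θ := by positivity
    have h2 : (0 : ℝ) < 1 + θ := by positivity
    have d1 : HasDerivAt (fun θ : ℝ => 1 + w * θ) w θ := by
      simpa using ((hasDerivAt_id θ).const_mul w).const_add 1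
    have d2 : HasDerivAt (fun θ : ℝ => 1 + θ) 1 θ := by
      simpa using (hasDerivAt_id θ).const_add 1
    have d3 := ((d1.log h1.ne').sub (d2.log h2.ne')).const_mul (w / (w - 1))
    refine d3.congr_deriv ?_
    unfold mA
    have h3 : w - 1 ≠ 0 := hw1.ne'
    field_simp
    ring
  have hp : ∀ θ ∈ Ioi (0 : ℝ), 0 ≤ mA w θ := by
    intro θ hθ
    have hθ0 : (0 : ℝ) < θ := hθ
    unfold mA
    positivity
  have hlim : Tendsto g atTop (𝓝 (w / (w - 1) * Real.log w)) := by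
    refine Tendsto.const_mul _ ?_
    have h1 : Tendsto (fun θ : ℝ => w - (w - 1) * (1 + θ)⁻¹) atTop (𝓝 (w - (w - 1) * 0)) :=
      ((tendsto_inv_atTop_zero.comp (tendsto_atTop_add_const_left _ 1 tendsto_id)).const_mul _).const_sub _
    rw [mul_zero, sub_zero] at h1
    have h2 := (Real.continuousAt_log hw0.ne').tendsto.comp h1
    refine h2.congr' ?_
    filter_upwards [eventually_ge_atTop (0 : ℝ)] with θ hθ
    have h3 : (0 : ℝ) < 1 + w * θ := by positivity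
    have h4 : (0 : ℝ) < 1 + θ := by positivity
    simp only [Function.comp_apply]
    rw [← Real.log_div h3.ne' h4.ne']
    congr 1
    field_simp
    ring
  refine ⟨integrableOn_Ioi_deriv_of_nonneg' hd hp hlim, ?_⟩
  rw [integral_Ioi_of_hasDerivAt_of_nonneg' hd hp hlim]
  have h0 : g 0 = 0 := by simp [hg]
  rw [h0, sub_zero]
  refine mul_le_mul_of_nonneg_right ?_ (Real.log_nonneg (by linarith))
  rw [div_le_iff₀ hw1]
  linarith

theorem mB_int {w : ℝ} (hw0 : 0 < w) :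
    IntegrableOn (mB w) (Ioi 0) ∧ ∫ θ in Ioi (0 : ℝ), mB w θ = w := by
  set g : ℝ → ℝ := fun θ => -(w * (1 + w * θ)⁻¹) with hg
  have hd : ∀ θ ∈ Ici (0 : ℝ), HasDerivAt g (mB w θ) θ := by
    intro θ hθ
    have hθ0 : (0 : ℝ) ≤ θ := hθ
    have h1 : (0 : ℝ) < 1 + w * θ := by positivity
    have d1 : HasDerivAt (fun θ : ℝ => 1 + w * θ) w θ := by
      simpa using ((hasDerivAt_id θ).const_mul w).const_add 1
    have d3 := ((d1.inv h1.ne').const_mul w).neg
    refine d3.congr_deriv ?_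
    unfold mB
    field_simp
  have hp : ∀ θ ∈ Ioi (0 : ℝ), 0 ≤ mB w θ := by
    intro θ hθ
    unfold mB
    positivity
  have hlim : Tendsto g atTop (𝓝 0) := by
    have h1 : Tendsto (fun θ : ℝ => 1 + w * θ) atTop atTop :=
      tendsto_atTop_add_const_left _ 1 (tendsto_id.const_mul_atTop hw0)
    have h2 := ((tendsto_inv_atTop_zero.comp h1).const_mul w).neg
    rw [mul_zero, neg_zero] at h2
    exact h2
  refine ⟨integrableOn_Ioi_deriv_of_nonneg' hd hp hlim, ?_⟩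
  rw [integral_Ioi_of_hasDerivAt_of_nonneg' hd hp hlim]
  simp [hg]

theorem scale {g : ℝ → ℝ} {L : ℝ} (hL : 0 < L) (hg : IntegrableOn g (Ioi 0)) :
    IntegrableOn (fun ξ => g (ξ / L)) (Ioi 0) ∧
      ∫ ξ in Ioi (0 : ℝ), g (ξ / L) = L * ∫ θ in Ioi (0 : ℝ), g θ := by
  have hi : (0 : ℝ) < L⁻¹ := inv_pos.mpr hL
  have e : (fun ξ => g (ξ / L)) = fun ξ => g (L⁻¹ * ξ) := by
    funext ξ
    rw [div_eq_inv_mul]
  constructor
  · rw [e, integrableOn_Ioi_comp_mul_left_iff g 0 hi, mul_zero]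
    exact hg
  · rw [e, integral_comp_mul_left_Ioi g 0 hi, mul_zero, inv_inv, smul_eq_mul]

/-- domination -/
theorem dom {f g : ℝ → ℝ} (hf : ∀ ξ : ℝ, 0 < ξ → 0 ≤ f ξ) (hfg : ∀ ξ : ℝ, 0 < ξ → f ξ ≤ g ξ)
    (hg : IntegrableOn g (Ioi 0)) : ∫ ξ in Ioi (0 : ℝ), f ξ ≤ ∫ ξ in Ioi (0 : ℝ), g ξ := by
  refine integral_mono_of_nonneg ?_ hg ?_
  · exact (ae_restrict_iff' measurableSet_Ioi).mpr (Eventually.of_forall fun ξ hξ => hf ξ hξ)
  · exact (ae_restrict_iff' measurableSet_Ioi).mpr (Eventually.of_forall fun ξ hξ => hfg ξ hξ)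

theorem inv_le {θ : ℝ} (hθ : 0 < θ) : 1 / (1 + θ ^ 2) ≤ 2 / (1 + θ) ^ 2 := by
  rw [div_le_div_iff₀ (by positivity) (by positivity)]
  nlinarith [sq_nonneg (1 - θ)]

theorem inv_le' {θ : ℝ} (hθ : 0 < θ) : 1 / (1 + θ ^ 2) ≤ 2 / (1 + θ) := by
  rw [div_le_div_iff₀ (by positivity) (by positivity)]
  nlinarith [sq_nonneg (1 - θ)]

theorem inv_le1 {θ : ℝ} : 1 / (1 + θ ^ 2) ≤ 1 := by
  rw [div_le_one (by positivity)]
  nlinarith [sq_nonneg θ]

theorem est1 {f : ℝ → ℂ} {D L w : ℝ} (hL : 0 < L) (hD : 0 ≤ D) (hw : 2 ≤ w)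
    (h1 : ∀ ξ : ℝ, 0 < ξ → ‖f ξ‖ ≤ D / L * (w / (1 + w * (ξ / L)) * (1 / (1 + (ξ / L) ^ 2))))
    (h2 : ∀ ξ : ℝ, 0 < ξ → ‖deriv f ξ‖ ≤ D / L ^ 2 * (w / (ξ / L) * (1 / (1 + (ξ / L) ^ 2)))) :
    ∫ ξ in Ioi (0 : ℝ), ξ * ‖f ξ‖ ^ 2 ≤ 4 * D ^ 2 * Real.log w ∧
    ∫ ξ in Ioi (0 : ℝ), (‖f ξ‖ ^ 2 + 2 * ξ * ‖f ξ‖ * ‖deriv f ξ‖) ≤
      D ^ 2 * (w / L) * (1 + 8 * Real.log w) := by
  have hw0 : 0 < w := by linarith
  obtain ⟨iA, bA⟩ := mA_int hw
  obtain ⟨iB, bB⟩ := mB_int hw0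
  obtain ⟨sA, tA⟩ := scale hL iA
  obtain ⟨sB, tB⟩ := scale hL iB
  have hlog : 0 ≤ Real.log w := Real.log_nonneg (by linarith)
  constructor
  · have hd : ∫ ξ in Ioi (0 : ℝ), ξ * ‖f ξ‖ ^ 2 ≤ ∫ ξ in Ioi (0 : ℝ), 2 * D ^ 2 / L * mA w (ξ / L) := by
      refine dom (fun ξ hξ => by positivity) (fun ξ hξ => ?_) (sA.const_mul _)
      set θ := ξ / L with hθ
      have hθ0 : 0 < θ := by positivity
      have eξ : ξ = L * θ := by rw [hθ]; field_simp
      have a1 := h1 ξ hξ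
      have a2 : ‖f ξ‖ ^ 2 ≤ (D / L * (w / (1 + w * θ) * (1 / (1 + θ ^ 2)))) ^ 2 :=
        pow_le_pow_left₀ (norm_nonneg _) a1 2
      have a3 : ξ * ‖f ξ‖ ^ 2 ≤ ξ * (D / L * (w / (1 + w * θ) * (1 / (1 + θ ^ 2)))) ^ 2 :=
        mul_le_mul_of_nonneg_left a2 hξ.le
      refine a3.trans ?_
      have b1 : θ * (w / (1 + w * θ)) ≤ 1 := by
        rw [← mul_div_assoc, div_le_one (by positivity)]
        linarith [mul_comm θ w]
      have b2 := inv_le' hθ0
      have b3 := inv_le1 (θ := θ)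
      have b4 : 0 ≤ 1 / (1 + θ ^ 2) := by positivity
      have b5 : 0 ≤ w / (1 + w * θ) := by positivity
      calc ξ * (D / L * (w / (1 + w * θ) * (1 / (1 + θ ^ 2)))) ^ 2
          = D ^ 2 / L * ((θ * (w / (1 + w * θ))) * (w / (1 + w * θ)) *
              ((1 / (1 + θ ^ 2)) * (1 / (1 + θ ^ 2)))) := by
            rw [eξ]; field_simp
        _ ≤ D ^ 2 / L * (1 * (w / (1 + w * θ)) * (1 * (2 / (1 + θ)))) := by
            refine mul_le_mul_of_nonneg_left ?_ (by positivity)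
            refine mul_le_mul (mul_le_mul_of_nonneg_right b1 b5) (mul_le_mul b3 b2 b4 zero_le_one)
              (by positivity) (by positivity)
        _ = 2 * D ^ 2 / L * mA w θ := by unfold mA; field_simp
    refine hd.trans ?_
    rw [integral_const_mul, tA]
    calc 2 * D ^ 2 / L * (L * ∫ θ in Ioi (0 : ℝ), mA w θ) = 2 * D ^ 2 * ∫ θ in Ioi (0 : ℝ), mA w θ := by
          field_simp
      _ ≤ 2 * D ^ 2 * (2 * Real.log w) := mul_le_mul_of_nonneg_left bA (by positivity)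
      _ = _ := by ring
  · have hd : ∫ ξ in Ioi (0 : ℝ), (‖f ξ‖ ^ 2 + 2 * ξ * ‖f ξ‖ * ‖deriv f ξ‖) ≤
        ∫ ξ in Ioi (0 : ℝ), (D ^ 2 / L ^ 2 * mB w (ξ / L) + 4 * D ^ 2 / L ^ 2 * w * mA w (ξ / L)) := by
      refine dom (fun ξ hξ => by positivity) (fun ξ hξ => ?_)
        ((sB.const_mul _).add (sA.const_mul _))
      set θ := ξ / L with hθ
      have hθ0 : 0 < θ := by positivity
      have eξ : ξ = L * θ := by rw [hθ]; field_simp
      have a1 := h1 ξ hξ
      have a2 := h2 ξ hξ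
      have b2 := inv_le' hθ0
      have b3 := inv_le1 (θ := θ)
      have b4 : 0 ≤ 1 / (1 + θ ^ 2) := by positivity
      have b5 : 0 ≤ w / (1 + w * θ) := by positivity
      refine add_le_add ?_ ?_
      · calc ‖f ξ‖ ^ 2 ≤ (D / L * (w / (1 + w * θ) * (1 / (1 + θ ^ 2)))) ^ 2 :=
              pow_le_pow_left₀ (norm_nonneg _) a1 2
          _ ≤ (D / L * (w / (1 + w * θ) * 1)) ^ 2 := by
              refine pow_le_pow_left₀ (by positivity) ?_ 2
              exact mul_le_mul_of_nonneg_left (mul_le_mul_of_nonneg_left b3 b5) (by positivity)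
          _ = D ^ 2 / L ^ 2 * mB w θ := by unfold mB; field_simp
      · calc 2 * ξ * ‖f ξ‖ * ‖deriv f ξ‖ ≤
            2 * ξ * (D / L * (w / (1 + w * θ) * (1 / (1 + θ ^ 2)))) *
              (D / L ^ 2 * (w / θ * (1 / (1 + θ ^ 2)))) := by
              refine mul_le_mul (mul_le_mul_of_nonneg_left a1 (by positivity)) a2 (norm_nonneg _)
                (by positivity)
          _ = 2 * D ^ 2 / L ^ 2 * w * (w / (1 + w * θ) * ((1 / (1 + θ ^ 2)) * (1 / (1 + θ ^ 2)))) := by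
              rw [eξ]; field_simp
          _ ≤ 2 * D ^ 2 / L ^ 2 * w * (w / (1 + w * θ) * (1 * (2 / (1 + θ)))) := by
              refine mul_le_mul_of_nonneg_left ?_ (by positivity)
              exact mul_le_mul_of_nonneg_left (mul_le_mul b3 b2 b4 zero_le_one) b5
          _ = 4 * D ^ 2 / L ^ 2 * w * mA w θ := by unfold mA; field_simp; ring
    refine hd.trans ?_
    rw [integral_add (sB.const_mul _) (sA.const_mul _), integral_const_mul, integral_const_mul, tA, tB, bB]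
    calc D ^ 2 / L ^ 2 * (L * w) + 4 * D ^ 2 / L ^ 2 * w * (L * ∫ θ in Ioi (0 : ℝ), mA w θ)
        = D ^ 2 * (w / L) + 4 * D ^ 2 * (w / L) * ∫ θ in Ioi (0 : ℝ), mA w θ := by field_simp
      _ ≤ D ^ 2 * (w / L) + 4 * D ^ 2 * (w / L) * (2 * Real.log w) := by
          have : 4 * D ^ 2 * (w / L) * ∫ θ in Ioi (0 : ℝ), mA w θ ≤
            4 * D ^ 2 * (w / L) * (2 * Real.log w) := mul_le_mul_of_nonneg_left bA (by positivity)
          linarith
      _ = _ := by ring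

theorem est2 {f : ℝ → ℂ} {E L w : ℝ} (hL : 0 < L) (hE : 0 ≤ E) (hw : 0 ≤ w)
    (h1 : ∀ ξ : ℝ, 0 < ξ → ‖f ξ‖ ≤ E * (1 / (1 + (ξ / L) ^ 2)))
    (h2 : ∀ ξ : ℝ, 0 < ξ → ‖deriv f ξ‖ ≤ E / L * (w * (1 / (1 + (ξ / L) ^ 2)))) :
    ∫ ξ in Ioi (0 : ℝ), ξ * ‖f ξ‖ ^ 2 ≤ 2 * L ^ 2 * E ^ 2 ∧
    ∫ ξ in Ioi (0 : ℝ), (‖f ξ‖ ^ 2 + 2 * ξ * ‖f ξ‖ * ‖deriv f ξ‖) ≤ E ^ 2 * L * (2 + 4 * w) := by
  obtain ⟨iB, bB⟩ := mB_int one_pos
  obtain ⟨sB, tB⟩ := scale hL iB
  have hθi : ∀ θ : ℝ, 0 < θ → θ * (1 / (1 + θ ^ 2)) ≤ 1 := by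
    intro θ hθ
    rw [← mul_div_assoc, mul_one, div_le_one (by positivity)]
    nlinarith [sq_nonneg (1 - θ)]
  have hmB : ∀ θ : ℝ, mB 1 θ = 1 / (1 + θ) ^ 2 := by
    intro θ; unfold mB; rw [one_pow, one_mul]
  constructor
  · have hd : ∫ ξ in Ioi (0 : ℝ), ξ * ‖f ξ‖ ^ 2 ≤ ∫ ξ in Ioi (0 : ℝ), 2 * L * E ^ 2 * mB 1 (ξ / L) := by
      refine dom (fun ξ hξ => by positivity) (fun ξ hξ => ?_) (sB.const_mul _)
      set θ := ξ / L with hθ
      have hθ0 : 0 < θ := by positivity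
      have eξ : ξ = L * θ := by rw [hθ]; field_simp
      have b4 : 0 ≤ 1 / (1 + θ ^ 2) := by positivity
      calc ξ * ‖f ξ‖ ^ 2 ≤ ξ * (E * (1 / (1 + θ ^ 2))) ^ 2 :=
            mul_le_mul_of_nonneg_left (pow_le_pow_left₀ (norm_nonneg _) (h1 ξ hξ) 2) hξ.le
        _ = L * E ^ 2 * ((θ * (1 / (1 + θ ^ 2))) * (1 / (1 + θ ^ 2))) := by rw [eξ]; ring
        _ ≤ L * E ^ 2 * (1 * (2 / (1 + θ) ^ 2)) := by
            refine mul_le_mul_of_nonneg_left ?_ (by positivity)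
            exact mul_le_mul (hθi θ hθ0) (inv_le hθ0) b4 zero_le_one
        _ = 2 * L * E ^ 2 * mB 1 θ := by rw [hmB]; ring
    refine hd.trans ?_
    rw [integral_const_mul, tB, bB]
    exact le_of_eq (by ring)
  · have hd : ∫ ξ in Ioi (0 : ℝ), (‖f ξ‖ ^ 2 + 2 * ξ * ‖f ξ‖ * ‖deriv f ξ‖) ≤
        ∫ ξ in Ioi (0 : ℝ), E ^ 2 * (2 + 4 * w) * mB 1 (ξ / L) := by
      refine dom (fun ξ hξ => by positivity) (fun ξ hξ => ?_) (sB.const_mul _)
      set θ := ξ / L with hθ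
      have hθ0 : 0 < θ := by positivity
      have eξ : ξ = L * θ := by rw [hθ]; field_simp
      have b4 : 0 ≤ 1 / (1 + θ ^ 2) := by positivity
      have c1 : ‖f ξ‖ ^ 2 ≤ 2 * E ^ 2 * mB 1 θ := by
        calc ‖f ξ‖ ^ 2 ≤ (E * (1 / (1 + θ ^ 2))) ^ 2 := pow_le_pow_left₀ (norm_nonneg _) (h1 ξ hξ) 2
          _ = E ^ 2 * ((1 / (1 + θ ^ 2)) * (1 / (1 + θ ^ 2))) := by ring
          _ ≤ E ^ 2 * (1 * (2 / (1 + θ) ^ 2)) := by
              refine mul_le_mul_of_nonneg_left ?_ (by positivity)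
              exact mul_le_mul inv_le1 (inv_le hθ0) b4 zero_le_one
          _ = 2 * E ^ 2 * mB 1 θ := by rw [hmB]; ring
      have c2 : 2 * ξ * ‖f ξ‖ * ‖deriv f ξ‖ ≤ 4 * E ^ 2 * w * mB 1 θ := by
        calc 2 * ξ * ‖f ξ‖ * ‖deriv f ξ‖ ≤ 2 * ξ * (E * (1 / (1 + θ ^ 2))) *
              (E / L * (w * (1 / (1 + θ ^ 2)))) := by
              refine mul_le_mul (mul_le_mul_of_nonneg_left (h1 ξ hξ) (by positivity)) (h2 ξ hξ)
                (norm_nonneg _) (by positivity)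
          _ = 2 * E ^ 2 * w * ((θ * (1 / (1 + θ ^ 2))) * (1 / (1 + θ ^ 2))) := by
              rw [eξ]; field_simp
          _ ≤ 2 * E ^ 2 * w * (1 * (2 / (1 + θ) ^ 2)) := by
              refine mul_le_mul_of_nonneg_left ?_ (by positivity)
              exact mul_le_mul (hθi θ hθ0) (inv_le hθ0) b4 zero_le_one
          _ = 4 * E ^ 2 * w * mB 1 θ := by rw [hmB]; ring
      calc _ ≤ 2 * E ^ 2 * mB 1 θ + 4 * E ^ 2 * w * mB 1 θ := add_le_add c1 c2
        _ = _ := by ring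
    refine hd.trans ?_
    rw [integral_const_mul, tB, bB]
    exact le_of_eq (by ring)

/-! ### the transform of the smoothed indicator function -/

/-- `(1 - e^{-2πivθ}) R(θ)` -/
noncomputable def sf (v θ : ℝ) : ℂ :=
  (1 - cexp (-(((2 * Real.pi * v * θ : ℝ) : ℂ) * I))) * FF (deriv sst) θ

/-- its derivative -/
noncomputable def sd (v θ : ℝ) : ℂ :=
  (((2 * Real.pi * v : ℝ) : ℂ) * I) * cexp (-(((2 * Real.pi * v * θ : ℝ) : ℂ) * I)) *
    FF (deriv sst) θ +
  (1 - cexp (-(((2 * Real.pi * v * θ : ℝ) : ℂ) * I))) * deriv (FF (deriv sst)) θ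

theorem norm_e (a : ℝ) : ‖cexp (-((a : ℂ) * I))‖ = 1 := by
  rw [Complex.norm_exp]
  simp

theorem norm_1e (a : ℝ) : ‖1 - cexp (-((a : ℂ) * I))‖ ≤ 2 := by
  refine (norm_sub_le _ _).trans ?_
  rw [norm_e, norm_one]
  norm_num

theorem norm_1e' (a : ℝ) : ‖1 - cexp (-((a : ℂ) * I))‖ ≤ |a| := by
  have h := Real.norm_exp_I_mul_ofReal_sub_one_le (x := -a)
  rw [norm_neg, Real.norm_eq_abs] at h
  rw [norm_sub_rev]
  have e : -((a : ℂ) * I) = I * ((-a : ℝ) : ℂ) := by push_cast; ring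
  rw [e]
  exact h

theorem sf_deriv {v θ : ℝ} (hR : DifferentiableAt ℝ (FF (deriv sst)) θ) :
    HasDerivAt (sf v) (sd v θ) θ := by
  have h1 : HasDerivAt (fun θ : ℝ => -(((2 * Real.pi * v * θ : ℝ) : ℂ) * I))
      (-(((2 * Real.pi * v : ℝ) : ℂ) * I)) θ := by
    have h2 : HasDerivAt (fun θ : ℝ => 2 * Real.pi * v * θ) (2 * Real.pi * v) θ := by
      simpa using (hasDerivAt_id θ).const_mul (2 * Real.pi * v)
    exact (h2.ofReal_comp.mul_const I).neg
  have h3 := (h1.cexp.const_sub 1).mul hR.hasDerivAt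
  refine h3.congr_deriv ?_
  unfold sd
  ring

theorem sf_le {C v θ : ℝ} (hR : ‖FF (deriv sst) θ‖ ≤ C / (1 + θ ^ 2)) :
    ‖sf v θ‖ ≤ 2 * C * (1 / (1 + θ ^ 2)) := by
  unfold sf
  rw [norm_mul]
  calc _ ≤ 2 * (C / (1 + θ ^ 2)) := mul_le_mul (norm_1e _) hR (norm_nonneg _) (by norm_num)
    _ = _ := by ring

theorem sf_le' {C v θ w : ℝ} (hv : 0 ≤ v) (hvw : v ≤ w) (hw : 0 < w) (hθ : 0 < θ)
    (hR : ‖FF (deriv sst) θ‖ ≤ C / (1 + θ ^ 2)) :
    ‖sf v θ‖ ≤ 4 * Real.pi * C * (θ * (w / (1 + w * θ)) * (1 / (1 + θ ^ 2))) := by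
  have hpi := Real.pi_gt_three
  have h1 : ‖1 - cexp (-(((2 * Real.pi * v * θ : ℝ) : ℂ) * I))‖ ≤
      4 * Real.pi * (θ * (w / (1 + w * θ))) := by
    by_cases h : w * θ ≤ 1
    · refine (norm_1e' _).trans ?_
      rw [abs_of_nonneg (by positivity)]
      have h2 : v * θ ≤ w * θ := mul_le_mul_of_nonneg_right hvw hθ.le
      have h3 : w * θ ≤ 2 * (θ * (w / (1 + w * θ))) := by
        have h4 : 2 * (θ * (w / (1 + w * θ))) = (2 * (w * θ)) / (1 + w * θ) := by ring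
        rw [h4, le_div_iff₀ (by positivity)]
        nlinarith [mul_pos hw hθ]
      calc 2 * Real.pi * v * θ = 2 * Real.pi * (v * θ) := by ring
        _ ≤ 2 * Real.pi * (2 * (θ * (w / (1 + w * θ)))) :=
            mul_le_mul_of_nonneg_left (h2.trans h3) (by positivity)
        _ = _ := by ring
    · push Not at h
      refine (norm_1e _).trans ?_
      have h3 : 1 ≤ 2 * (θ * (w / (1 + w * θ))) := by
        have h4 : 2 * (θ * (w / (1 + w * θ))) = (2 * (w * θ)) / (1 + w * θ) := by ring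
        rw [h4, le_div_iff₀ (by positivity)]
        linarith
      nlinarith
  unfold sf
  rw [norm_mul]
  calc _ ≤ 4 * Real.pi * (θ * (w / (1 + w * θ))) * (C / (1 + θ ^ 2)) :=
        mul_le_mul h1 hR (norm_nonneg _) (by positivity)
    _ = _ := by ring

theorem sf_le'' {C v θ w : ℝ} (hv : 0 ≤ v) (hvw : v ≤ w) (hθ : 0 < θ)
    (hR : ‖FF (deriv sst) θ‖ ≤ C / (1 + θ ^ 2)) :
    ‖sf v θ‖ ≤ 2 * Real.pi * C * (w * θ * (1 / (1 + θ ^ 2))) := by
  have hpi := Real.pi_gt_three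
  unfold sf
  rw [norm_mul]
  calc _ ≤ 2 * Real.pi * (w * θ) * (C / (1 + θ ^ 2)) := by
        refine mul_le_mul ((norm_1e' _).trans ?_) hR (norm_nonneg _) (by
          have : 0 ≤ w := hv.trans hvw
          positivity)
        rw [abs_of_nonneg (by positivity)]
        have h2 : v * θ ≤ w * θ := mul_le_mul_of_nonneg_right hvw hθ.le
        nlinarith
    _ = _ := by ring

theorem sd_le {C v θ w : ℝ} (hC : 0 < C) (hv : 0 ≤ v) (hvw : v + 2 ≤ w)
    (hR : ‖FF (deriv sst) θ‖ ≤ C / (1 + θ ^ 2))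
    (hR' : ‖deriv (FF (deriv sst)) θ‖ ≤ C / (1 + θ ^ 2)) :
    ‖sd v θ‖ ≤ 2 * Real.pi * C * (w * (1 / (1 + θ ^ 2))) := by
  have hpi := Real.pi_gt_three
  unfold sd
  refine (norm_add_le _ _).trans ?_
  rw [norm_mul, norm_mul, norm_mul, norm_e, norm_mul, norm_I, Complex.norm_real,
    Real.norm_of_nonneg (by positivity)]
  have h1 : ‖1 - cexp (-(((2 * Real.pi * v * θ : ℝ) : ℂ) * I))‖ * ‖deriv (FF (deriv sst)) θ‖ ≤
      2 * (C / (1 + θ ^ 2)) := mul_le_mul (norm_1e _) hR' (norm_nonneg _) (by norm_num)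
  have h2 : 2 * Real.pi * v * 1 * 1 * ‖FF (deriv sst) θ‖ ≤ 2 * Real.pi * v * (C / (1 + θ ^ 2)) := by
    rw [mul_one, mul_one]
    exact mul_le_mul_of_nonneg_left hR (by positivity)
  have h3 : 0 < C / (1 + θ ^ 2) := by positivity
  calc _ ≤ 2 * Real.pi * v * (C / (1 + θ ^ 2)) + 2 * (C / (1 + θ ^ 2)) := add_le_add h2 h1
    _ = (2 * Real.pi * v + 2) * (C / (1 + θ ^ 2)) := by ring
    _ ≤ (2 * Real.pi * w) * (C / (1 + θ ^ 2)) := by
        refine mul_le_mul_of_nonneg_right ?_ h3.le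
        nlinarith
    _ = _ := by ring

/-! ### combinations -/

noncomputable def Fn {k : ℕ} (L : ℝ) (b v : Fin k → ℝ) (x : ℝ) : ℝ := ∑ j, b j * Pv L (v j) x

theorem Pv_cd (hb : S_PVB) (L v : ℝ) : ContDiff ℝ 5 (Pv L v) := by
  have h := hb.1
  have h1 : ContDiff ℝ 5 (fun x : ℝ => sst (L * x)) := h.comp (contDiff_const.mul contDiff_id)
  have h2 : ContDiff ℝ 5 (fun x : ℝ => sst (L * x - 2 * Real.pi * v)) :=
    h.comp ((contDiff_const.mul contDiff_id).sub contDiff_const)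
  exact h1.sub h2

theorem Pv_hcs (hb : S_PVB) {L v : ℝ} (hL : 0 < L) (hv : 0 ≤ v) : HasCompactSupport (Pv L v) := by
  obtain ⟨-, -, -, -, -, -, hl, hr, -⟩ := hb
  refine HasCompactSupport.intro (isCompact_Icc (a := -1 / L) (b := 2 * Real.pi * v / L + 1 / L))
    fun x hx => ?_
  rw [mem_Icc, not_and_or, not_le, not_le] at hx
  rcases hx with h | h
  · exact hl L v x hL hv h.le
  · exact hr L v x hL hv h.le

theorem Pv_int (hb : S_PVB) {L v : ℝ} (hL : 0 < L) (hv : 0 ≤ v) : Integrable (Pv L v) :=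
  (Pv_cd hb L v).continuous.integrable_of_hasCompactSupport (Pv_hcs hb hL hv)

theorem Fn_cd (hb : S_PVB) {k : ℕ} (L : ℝ) (b v : Fin k → ℝ) : ContDiff ℝ 5 (Fn L b v) := by
  have h : ContDiff ℝ 5 (fun x => ∑ j, b j * Pv L (v j) x) :=
    ContDiff.sum fun j _ => contDiff_const.mul (Pv_cd hb L (v j))
  exact h

theorem Fn_zero (hb : S_PVB) {k : ℕ} {L : ℝ} (hL : 0 < L) {b v : Fin k → ℝ} (hv : ∀ j, 0 ≤ v j)
    {x : ℝ} {r : ℝ} (hr : 1 / L ≤ r) (hvr : ∀ j, 2 * Real.pi * v j / L + 1 / L ≤ r) (hx : r ≤ |x|) :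
    Fn L b v x = 0 := by
  obtain ⟨-, -, -, -, -, -, hl, hr', -⟩ := hb
  unfold Fn
  refine Finset.sum_eq_zero fun j _ => ?_
  rcases abs_cases x with ⟨h1, h2⟩ | ⟨h1, h2⟩
  · rw [hr' L (v j) x hL (hv j) ((hvr j).trans (by linarith)), mul_zero]
  · rw [hl L (v j) x hL (hv j) (by rw [neg_div]; linarith), mul_zero]

theorem FF_Fn' (hb : S_PVB) {k : ℕ} {L : ℝ} (hL : 0 < L) {b v : Fin k → ℝ} (hv : ∀ j, 0 ≤ v j)
    (ξ : ℝ) : FF (Fn L b v) ξ = ∑ j, (b j : ℂ) * FF (Pv L (v j)) ξ := by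
  have hi : ∀ j, Integrable (fun s : ℝ => ((b j : ℂ)) * ((Pv L (v j) s : ℂ) *
      cexp (-(((ξ * s : ℝ) : ℂ) * I)))) := by
    intro j
    refine Integrable.const_mul ?_ _
    apply Continuous.integrable_of_hasCompactSupport
    · have h1 := (Pv_cd hb L (v j)).continuous
      have h2 : Continuous fun s : ℝ => cexp (-(((ξ * s : ℝ) : ℂ) * I)) := by fun_prop
      exact (Complex.continuous_ofReal.comp h1).mul h2
    · have h3 : HasCompactSupport (fun s : ℝ => ((Pv L (v j) s : ℝ) : ℂ)) :=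
        (Pv_hcs hb hL (hv j)).comp_left (g := fun y : ℝ => (y : ℂ)) Complex.ofReal_zero
      exact h3.mul_right
  unfold FF
  have e : (fun s : ℝ => ((Fn L b v s : ℝ) : ℂ) * cexp (-(((ξ * s : ℝ) : ℂ) * I))) =
      fun s : ℝ => ∑ j, ((b j : ℂ)) * ((Pv L (v j) s : ℂ) * cexp (-(((ξ * s : ℝ) : ℂ) * I))) := by
    funext s
    unfold Fn
    push_cast
    rw [Finset.sum_mul]
    exact Finset.sum_congr rfl fun j _ => by ring
  rw [e, integral_finsetSum _ fun j _ => hi j]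
  exact Finset.sum_congr rfl fun j _ => integral_const_mul _ _

theorem FF_Fn (hb : S_PVB) (hf : S_FPV) {k : ℕ} {L : ℝ} (hL : 0 < L) {b v : Fin k → ℝ}
    (hv : ∀ j, 0 ≤ v j) {ξ : ℝ} (hξ : ξ ≠ 0) :
    FF (Fn L b v) ξ = ∑ j, (b j : ℂ) * (sf (v j) (ξ / L) / (I * (ξ : ℂ))) := by
  rw [FF_Fn' hb hL hv]
  exact Finset.sum_congr rfl fun j _ => by rw [hf.2 L (v j) ξ hL hξ]; rfl

theorem comb_le {k : ℕ} {b : Fin k → ℝ} {β : ℝ} (hβ : ∀ j, |b j| ≤ β) (z : Fin k → ℂ) {M : ℝ}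
    (hz : ∀ j, ‖z j‖ ≤ M) : ‖∑ j, (b j : ℂ) * z j‖ ≤ k * β * M := by
  refine (norm_sum_le _ _).trans ?_
  calc ∑ j, ‖(b j : ℂ) * z j‖ ≤ ∑ j : Fin k, β * M := by
        refine Finset.sum_le_sum fun j _ => ?_
        rw [norm_mul, Complex.norm_real, Real.norm_eq_abs]
        exact mul_le_mul (hβ j) (hz j) (norm_nonneg _) ((abs_nonneg _).trans (hβ j))
    _ = k * β * M := by
        rw [Finset.sum_const, Finset.card_univ, Fintype.card_fin, nsmul_eq_mul]; ring

theorem F_bounds (hb : S_PVB) (hf : S_FPV) {C : ℝ} (hC : 0 < C)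
    (hR : ∀ θ : ℝ, ‖FF (deriv sst) θ‖ ≤ C / (1 + θ ^ 2) ∧
    DifferentiableAt ℝ (FF (deriv sst)) θ ∧ ‖deriv (FF (deriv sst)) θ‖ ≤ C / (1 + θ ^ 2))
    {k : ℕ} {L : ℝ} (hL : 0 < L) {b v : Fin k → ℝ} {β w : ℝ} (hw2 : 2 ≤ w) (hv : ∀ j, 0 ≤ v j) (hw : ∀ j, v j + 2 ≤ w) (hβ : ∀ j, |b j| ≤ β)
    {ξ : ℝ} (hξ : 0 < ξ) :
    ‖FF (Fn L b v) ξ‖ ≤ (k * β * (4 * Real.pi * C)) / L *
      (w / (1 + w * (ξ / L)) * (1 / (1 + (ξ / L) ^ 2))) ∧
    ‖deriv (FF (Fn L b v)) ξ‖ ≤ (k * β * (4 * Real.pi * C)) / L ^ 2 *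
      (w / (ξ / L) * (1 / (1 + (ξ / L) ^ 2))) := by
  have hpi := Real.pi_pos
  have hw0 : 0 < w := by linarith
  set θ := ξ / L with hθ
  have hθ0 : 0 < θ := by positivity
  have eξ : ξ = L * θ := by rw [hθ]; field_simp
  have hξc : (ξ : ℂ) ≠ 0 := by exact_mod_cast hξ.ne'
  constructor
  · rw [FF_Fn hb hf hL hv hξ.ne']
    have h1 : ∀ j, ‖sf (v j) (ξ / L) / (I * (ξ : ℂ))‖ ≤
        (4 * Real.pi * C) / L * (w / (1 + w * θ) * (1 / (1 + θ ^ 2))) := by
      intro j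
      rw [norm_div, norm_mul, norm_I, one_mul, Complex.norm_real, Real.norm_of_nonneg hξ.le]
      rw [div_le_iff₀ hξ]
      refine (sf_le' (hv j) (by linarith [hw j] : v j ≤ w) hw0 hθ0 (hR θ).1).trans (le_of_eq ?_)
      rw [eξ]
      field_simp
    refine (comb_le hβ _ h1).trans (le_of_eq ?_)
    ring
  · have hder : HasDerivAt (FF (Fn L b v)) (∑ j, (b j : ℂ) * ((sd (v j) (ξ / L) * ((1 / L : ℝ) : ℂ)) /
        (I * (ξ : ℂ)) - sf (v j) (ξ / L) * I / (I * (ξ : ℂ)) ^ 2)) ξ := by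
      have h1 : HasDerivAt (fun ξ : ℝ => ∑ j, (b j : ℂ) * (sf (v j) (ξ / L) / (I * (ξ : ℂ))))
          (∑ j, (b j : ℂ) * ((sd (v j) (ξ / L) * ((1 / L : ℝ) : ℂ)) /
        (I * (ξ : ℂ)) - sf (v j) (ξ / L) * I / (I * (ξ : ℂ)) ^ 2)) ξ := by
        refine HasDerivAt.fun_sum fun j _ => ?_
        refine HasDerivAt.const_mul _ ?_
        have h2 : HasDerivAt (fun ξ : ℝ => ξ / L) (1 / L) ξ := (hasDerivAt_id ξ).div_const L
        have h3 : HasDerivAt (fun ξ : ℝ => sf (v j) (ξ / L)) (sd (v j) (ξ / L) * ((1 / L : ℝ) : ℂ)) ξ := by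
          have h4 := (sf_deriv (v := v j) (hR (ξ / L)).2.1).scomp ξ h2
          rw [Complex.real_smul, mul_comm] at h4
          exact h4
        have h5 : HasDerivAt (fun ξ : ℝ => I * (ξ : ℂ)) I ξ := by
          have := (Complex.ofRealCLM.hasDerivAt (x := ξ)).const_mul I
          simpa using this
        have h6 := h3.div h5 (mul_ne_zero I_ne_zero hξc)
        refine h6.congr_deriv ?_
        have h7 : I * (ξ : ℂ) ≠ 0 := mul_ne_zero I_ne_zero hξc
        field_simp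
      refine h1.congr_of_eventuallyEq ?_
      filter_upwards [lt_mem_nhds hξ] with ζ hζ
      exact FF_Fn hb hf hL hv (ne_of_gt hζ)
    rw [hder.deriv]
    have h1 : ∀ j, ‖(sd (v j) (ξ / L) * ((1 / L : ℝ) : ℂ)) /
        (I * (ξ : ℂ)) - sf (v j) (ξ / L) * I / (I * (ξ : ℂ)) ^ 2‖ ≤
        (4 * Real.pi * C) / L ^ 2 * (w / θ * (1 / (1 + θ ^ 2))) := by
      intro j
      refine (norm_sub_le _ _).trans ?_
      have n1 : ‖I * (ξ : ℂ)‖ = ξ := by
        rw [norm_mul, norm_I, one_mul, Complex.norm_real, Real.norm_of_nonneg hξ.le]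
      have n2 : ‖((1 / L : ℝ) : ℂ)‖ = 1 / L := by
        rw [Complex.norm_real, Real.norm_of_nonneg (by positivity : 0 ≤ 1 / L)]
      rw [norm_div, norm_mul (sd (v j) (ξ / L)), n1, n2, norm_div, norm_mul (sf (v j) (ξ / L)),
        norm_I, mul_one, norm_pow, n1]
      have c1 := sd_le hC (hv j) (hw j) (hR θ).1 (hR θ).2.2
      have c2 := sf_le'' (hv j) (by linarith [hw j] : v j ≤ w) hθ0 (hR θ).1
      have c3 : ‖sd (v j) θ‖ * (1 / L) / ξ ≤ 2 * Real.pi * C * (w * (1 / (1 + θ ^ 2))) * (1 / L) / ξ := by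
        refine div_le_div_of_nonneg_right ?_ hξ.le
        exact mul_le_mul_of_nonneg_right c1 (by positivity)
      have c4 : ‖sf (v j) θ‖ / ξ ^ 2 ≤ 2 * Real.pi * C * (w * θ * (1 / (1 + θ ^ 2))) / ξ ^ 2 :=
        div_le_div_of_nonneg_right c2 (by positivity)
      refine (add_le_add c3 c4).trans (le_of_eq ?_)
      rw [eξ]
      field_simp
      ring
    refine (comb_le hβ _ h1).trans (le_of_eq ?_)
    ring

theorem G_bounds (hb : S_PVB) (hf : S_FPV) {C : ℝ} (hC : 0 < C)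
    (hR : ∀ θ : ℝ, ‖FF (deriv sst) θ‖ ≤ C / (1 + θ ^ 2) ∧
    DifferentiableAt ℝ (FF (deriv sst)) θ ∧ ‖deriv (FF (deriv sst)) θ‖ ≤ C / (1 + θ ^ 2))
    {k : ℕ} {L η : ℝ} (hL : 0 < L) (hη : 0 < η) {b v : Fin k → ℝ} {β w : ℝ} (hv : ∀ j, 0 ≤ v j) (hw : ∀ j, v j + 2 ≤ w) (hβ : ∀ j, |b j| ≤ β)
    (hcs : HasCompactSupport (Fn L b v)) {ξ : ℝ} (hξ : 0 < ξ) :
    ‖FF (fun x => 1 / (η * L) * deriv (Fn L b v) x) ξ‖ ≤ (k * β * (4 * Real.pi * C) / (η * L)) *
      (1 / (1 + (ξ / L) ^ 2)) ∧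
    ‖deriv (FF (fun x => 1 / (η * L) * deriv (Fn L b v) x)) ξ‖ ≤
      (k * β * (4 * Real.pi * C) / (η * L)) / L * (w * (1 / (1 + (ξ / L) ^ 2))) := by
  have hpi := Real.pi_gt_three
  set θ := ξ / L with hθ
  have hθ0 : 0 < θ := by positivity
  have hξc : (ξ : ℂ) ≠ 0 := by exact_mod_cast hξ.ne'
  have hcd : ContDiff ℝ 1 (Fn L b v) := (Fn_cd hb L b v).of_le (by norm_num)
  have key : ∀ ζ : ℝ, ζ ≠ 0 → FF (fun x => 1 / (η * L) * deriv (Fn L b v) x) ζ =
      ((1 / (η * L) : ℝ) : ℂ) * ∑ j, (b j : ℂ) * sf (v j) (ζ / L) := by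
    intro ζ hζ
    have hζc : (ζ : ℂ) ≠ 0 := by exact_mod_cast hζ
    have h1 : FF (fun x => 1 / (η * L) * deriv (Fn L b v) x) ζ =
        ((1 / (η * L) : ℝ) : ℂ) * FF (deriv (Fn L b v)) ζ := by
      unfold FF
      rw [← integral_const_mul]
      congr 1
      funext s
      push_cast
      ring
    rw [h1, VARL.FF_der hcd hcs ζ, FF_Fn hb hf hL hv hζ, Finset.mul_sum]
    congr 1
    refine Finset.sum_congr rfl fun j _ => ?_
    have h7 : I * (ζ : ℂ) ≠ 0 := mul_ne_zero I_ne_zero hζc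
    field_simp
  have hn : ‖((1 / (η * L) : ℝ) : ℂ)‖ = 1 / (η * L) := by
    rw [Complex.norm_real, Real.norm_of_nonneg (by positivity)]
  constructor
  · rw [key ξ hξ.ne', norm_mul, hn]
    have h1 : ∀ j, ‖sf (v j) (ξ / L)‖ ≤ 4 * Real.pi * C * (1 / (1 + θ ^ 2)) := by
      intro j
      refine (sf_le (hR θ).1).trans ?_
      have : 0 < C * (1 / (1 + θ ^ 2)) := by positivity
      nlinarith
    calc 1 / (η * L) * ‖∑ j, (b j : ℂ) * sf (v j) (ξ / L)‖ ≤
        1 / (η * L) * (k * β * (4 * Real.pi * C * (1 / (1 + θ ^ 2)))) :=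
          mul_le_mul_of_nonneg_left (comb_le hβ _ h1) (by positivity)
      _ = _ := by field_simp
  · have hder : HasDerivAt (FF (fun x => 1 / (η * L) * deriv (Fn L b v) x))
        (((1 / (η * L) : ℝ) : ℂ) * ∑ j, (b j : ℂ) * (sd (v j) (ξ / L) * ((1 / L : ℝ) : ℂ))) ξ := by
      have h1 : HasDerivAt (fun ζ : ℝ => ((1 / (η * L) : ℝ) : ℂ) * ∑ j, (b j : ℂ) * sf (v j) (ζ / L))
          (((1 / (η * L) : ℝ) : ℂ) * ∑ j, (b j : ℂ) * (sd (v j) (ξ / L) * ((1 / L : ℝ) : ℂ))) ξ := by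
        refine HasDerivAt.const_mul _ ?_
        refine HasDerivAt.fun_sum fun j _ => ?_
        refine HasDerivAt.const_mul _ ?_
        have h2 : HasDerivAt (fun ξ : ℝ => ξ / L) (1 / L) ξ := (hasDerivAt_id ξ).div_const L
        have h4 := (sf_deriv (v := v j) (hR (ξ / L)).2.1).scomp ξ h2
        rw [Complex.real_smul, mul_comm] at h4
        exact h4
      refine h1.congr_of_eventuallyEq ?_
      filter_upwards [lt_mem_nhds hξ] with ζ hζ
      exact key ζ (ne_of_gt hζ)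
    rw [hder.deriv, norm_mul, hn]
    have h1 : ∀ j, ‖sd (v j) (ξ / L) * ((1 / L : ℝ) : ℂ)‖ ≤
        4 * Real.pi * C * (w * (1 / (1 + θ ^ 2))) * (1 / L) := by
      intro j
      rw [norm_mul, Complex.norm_real, Real.norm_of_nonneg (by positivity : 0 ≤ 1 / L)]
      refine mul_le_mul_of_nonneg_right ?_ (by positivity)
      refine (sd_le hC (hv j) (hw j) (hR θ).1 (hR θ).2.2).trans ?_
      have hw0 : 0 ≤ w := by linarith [hw j, hv j]
      have : 0 ≤ C * (w * (1 / (1 + θ ^ 2))) := by positivity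
      nlinarith
    calc 1 / (η * L) * ‖∑ j, (b j : ℂ) * (sd (v j) (ξ / L) * ((1 / L : ℝ) : ℂ))‖ ≤
        1 / (η * L) * (k * β * (4 * Real.pi * C * (w * (1 / (1 + θ ^ 2))) * (1 / L))) :=
          mul_le_mul_of_nonneg_left (comb_le hβ _ h1) (by positivity)
      _ = _ := by field_simp

/-! ### norms -/

noncomputable def Sc {k : ℕ} (L : ℝ) (b v : Fin k → ℝ) (h : ℝ → ℝ) (x : ℝ) : ℝ :=
  ∑ j, b j * (h (L * x) - h (L * x - 2 * Real.pi * v j))

theorem Fn_eq {k : ℕ} (L : ℝ) (b v : Fin k → ℝ) : Fn L b v = Sc L b v sst := rfl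

theorem Sc_deriv {k : ℕ} (L : ℝ) (b v : Fin k → ℝ) {h : ℝ → ℝ} (hh : Differentiable ℝ h) :
    deriv (Sc L b v h) = fun x => L * Sc L b v (deriv h) x := by
  funext x
  have h1 : HasDerivAt (Sc L b v h) (∑ j, b j * (deriv h (L * x) * L -
      deriv h (L * x - 2 * Real.pi * v j) * L)) x := by
    have e : Sc L b v h = fun x => ∑ j, b j * (h (L * x) - h (L * x - 2 * Real.pi * v j)) := rfl
    rw [e]
    refine HasDerivAt.fun_sum fun j _ => ?_
    refine HasDerivAt.const_mul _ ?_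
    have d1 : HasDerivAt (fun x : ℝ => L * x) L x := by
      simpa using (hasDerivAt_id x).const_mul L
    have d2 : HasDerivAt (fun x : ℝ => L * x - 2 * Real.pi * v j) L x := d1.sub_const _
    exact ((hh (L * x)).hasDerivAt.comp x d1).sub
      ((hh (L * x - 2 * Real.pi * v j)).hasDerivAt.comp x d2)
  rw [h1.deriv]
  unfold Sc
  rw [Finset.mul_sum]
  exact Finset.sum_congr rfl fun j _ => by ring

theorem Sc_int {k : ℕ} {L : ℝ} (hL : 0 < L) {b v : Fin k → ℝ} {β : ℝ} (hβ : ∀ j, |b j| ≤ β)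
    {h : ℝ → ℝ} (hi : Integrable h) :
    ∫ x : ℝ, |Sc L b v h x| ≤ k * β * (2 / L * ∫ x : ℝ, |h x|) := by
  have i1 : ∀ a : ℝ, Integrable (fun x : ℝ => |h (L * x - a)|) := fun a =>
    ((hi.abs.comp_sub_right a).comp_mul_left' hL.ne')
  have e1 : ∀ a : ℝ, ∫ x : ℝ, |h (L * x - a)| = 1 / L * ∫ x : ℝ, |h x| := by
    intro a
    rw [Measure.integral_comp_mul_left (fun y : ℝ => |h (y - a)|) L,
      integral_sub_right_eq_self (fun y : ℝ => |h y|) a, abs_of_pos (inv_pos.mpr hL), smul_eq_mul,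
      one_div]
  have h1 : ∀ x : ℝ, |Sc L b v h x| ≤ ∑ j : Fin k, β * (|h (L * x - 0)| +
      |h (L * x - 2 * Real.pi * v j)|) := by
    intro x
    unfold Sc
    refine (Finset.abs_sum_le_sum_abs _ _).trans (Finset.sum_le_sum fun j _ => ?_)
    rw [abs_mul, sub_zero]
    exact mul_le_mul (hβ j) (abs_sub _ _) (abs_nonneg _) ((abs_nonneg _).trans (hβ j))
  have i2 : ∀ j : Fin k, Integrable (fun x : ℝ => β * (|h (L * x - 0)| +
      |h (L * x - 2 * Real.pi * v j)|)) := fun j => ((i1 0).add (i1 _)).const_mul _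
  have h2 : ∫ x : ℝ, |Sc L b v h x| ≤ ∫ x : ℝ, ∑ j : Fin k, β * (|h (L * x - 0)| +
      |h (L * x - 2 * Real.pi * v j)|) := by
    refine integral_mono_of_nonneg (Eventually.of_forall fun x => abs_nonneg _) ?_
      (Eventually.of_forall h1)
    exact integrable_finsetSum _ fun j _ => i2 j
  refine h2.trans (le_of_eq ?_)
  rw [integral_finsetSum _ fun j _ => i2 j]
  have h3 : ∀ j : Fin k, ∫ x : ℝ, β * (|h (L * x - 0)| + |h (L * x - 2 * Real.pi * v j)|) =
      β * (2 / L * ∫ x : ℝ, |h x|) := by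
    intro j
    rw [integral_const_mul, integral_add (i1 _) (i1 _), e1, e1]
    ring
  rw [Finset.sum_congr rfl fun j _ => h3 j, Finset.sum_const, Finset.card_univ, Fintype.card_fin,
    nsmul_eq_mul]
  ring

theorem Fn_l1 (hb : S_PVB) {k : ℕ} {L : ℝ} (hL : 0 < L) {b v : Fin k → ℝ} {β M : ℝ}
    (hv : ∀ j, 0 ≤ v j) (hβ : ∀ j, |b j| ≤ β) (hM : ∀ j, 2 * Real.pi * v j / L ≤ M) :
    ∫ x : ℝ, |Fn L b v x| ≤ k * β * M := by
  have hP0 : ∀ j x, 0 ≤ Pv L (v j) x := fun j x => (hb.2.2.2.2.2.1 L (v j) x hL (hv j)).1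
  have hPi : ∀ j, ∫ x : ℝ, Pv L (v j) x = 2 * Real.pi * v j / L := fun j =>
    hb.2.2.2.2.2.2.2.2.2.1 L (v j) hL (hv j)
  have h1 : ∀ x : ℝ, |Fn L b v x| ≤ ∑ j : Fin k, β * Pv L (v j) x := by
    intro x
    unfold Fn
    refine (Finset.abs_sum_le_sum_abs _ _).trans (Finset.sum_le_sum fun j _ => ?_)
    rw [abs_mul, abs_of_nonneg (hP0 j x)]
    exact mul_le_mul_of_nonneg_right (hβ j) (hP0 j x)
  have hi : ∀ j, Integrable (fun x => β * Pv L (v j) x) := fun j => (Pv_int hb hL (hv j)).const_mul _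
  have h2 : ∫ x : ℝ, |Fn L b v x| ≤ ∫ x : ℝ, ∑ j : Fin k, β * Pv L (v j) x := by
    refine integral_mono_of_nonneg (Eventually.of_forall fun x => abs_nonneg _) ?_
      (Eventually.of_forall h1)
    exact integrable_finsetSum _ fun j _ => hi j
  refine h2.trans ?_
  rw [integral_finsetSum _ fun j _ => hi j]
  calc ∑ j : Fin k, ∫ x : ℝ, β * Pv L (v j) x ≤ ∑ j : Fin k, β * M := by
        refine Finset.sum_le_sum fun j _ => ?_
        rw [integral_const_mul, hPi]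
        exact mul_le_mul_of_nonneg_left (hM j) ((abs_nonneg _).trans (hβ j))
    _ = k * β * M := by
        rw [Finset.sum_const, Finset.card_univ, Fintype.card_fin, nsmul_eq_mul]; ring

end ADPL

open ADPL

theorem t_ADP (hb : S_PVB) (hf : S_FPV) : S_ADP := by
  intro k B hB
  obtain ⟨C, hC, hCR⟩ := hf.1
  have hR : ∀ θ : ℝ, ‖FF (deriv sst) θ‖ ≤ C / (1 + θ ^ 2) ∧
    DifferentiableAt ℝ (FF (deriv sst)) θ ∧ ‖deriv (FF (deriv sst)) θ‖ ≤ C / (1 + θ ^ 2) :=
    fun θ => ⟨(hCR θ).1, (hCR θ).2.1, (hCR θ).2.2.1⟩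
  have hpi := Real.pi_gt_three
  have hpi' := Real.pi_lt_d2
  have hB0 : 0 < B := by linarith
  -- the smooth step
  have hsst : ContDiff ℝ 5 sst := hb.1
  have c1 : ContDiff ℝ 4 (deriv sst) := by
    have h := hsst
    rw [show (5 : WithTop ℕ∞) = 4 + 1 by norm_num] at h
    exact (contDiff_succ_iff_deriv.mp h).2.2
  have c2 : ContDiff ℝ 3 (deriv (deriv sst)) := by
    have h := c1
    rw [show (4 : WithTop ℕ∞) = 3 + 1 by norm_num] at h
    exact (contDiff_succ_iff_deriv.mp h).2.2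
  have c3 : ContDiff ℝ 2 (deriv (deriv (deriv sst))) := by
    have h := c2
    rw [show (3 : WithTop ℕ∞) = 2 + 1 by norm_num] at h
    exact (contDiff_succ_iff_deriv.mp h).2.2
  have s1 : HasCompactSupport (deriv sst) :=
    HasCompactSupport.intro (isCompact_Icc (a := (-1 : ℝ)) (b := 1)) fun x hx => by
      refine hb.2.2.2.2.2.2.2.2.2.2.2 x ?_
      by_contra h
      push Not at h
      exact hx ⟨(abs_lt.mp h).1.le, (abs_lt.mp h).2.le⟩
  have s2 : HasCompactSupport (deriv (deriv sst)) := s1.deriv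
  have s3 : HasCompactSupport (deriv (deriv (deriv sst))) := s2.deriv
  have i1 : Integrable (deriv sst) := c1.continuous.integrable_of_hasCompactSupport s1
  have i2 : Integrable (deriv (deriv sst)) := c2.continuous.integrable_of_hasCompactSupport s2
  have i3 : Integrable (deriv (deriv (deriv sst))) := c3.continuous.integrable_of_hasCompactSupport s3
  set A0 : ℝ := ∫ x : ℝ, |deriv sst x| with hA0
  set A1 : ℝ := ∫ x : ℝ, |deriv (deriv sst) x| with hA1
  set A2 : ℝ := ∫ x : ℝ, |deriv (deriv (deriv sst)) x| with hA2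
  have A0n : 0 ≤ A0 := integral_nonneg fun x => abs_nonneg _
  have A1n : 0 ≤ A1 := integral_nonneg fun x => abs_nonneg _
  have A2n : 0 ≤ A2 := integral_nonneg fun x => abs_nonneg _
  -- constants
  set q : ℝ := k * B * (4 * Real.pi * C) with hq
  have hq0 : 0 ≤ q := by positivity
  set Q : ℝ := q ^ 2 with hQ
  have hQ0 : 0 ≤ Q := sq_nonneg _
  have hk0 : (0 : ℝ) ≤ k := Nat.cast_nonneg k
  refine ⟨4 * Q * (k + 1 + B) + 1, by positivity, fun η hη => ?_⟩
  set T1 : ℝ := 7 * (k * B) / η with hT1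
  set T2 : ℝ := (2 * (k * B) * A1 / η) ^ 2 with hT2
  set T3 : ℝ := 2 * (k * B) * A0 / η ^ 2 with hT3
  set T4 : ℝ := (2 * (k * B) * A2 / η ^ 2) ^ 2 with hT4
  set T5 : ℝ := 2 * Q / η ^ 2 with hT5
  set T6 : ℝ := Q * ((k + 2) * (9 + 8 * k + 8 * B)) / η with hT6
  set T7 : ℝ := Q * (4 * k + 10) / η ^ 3 with hT7
  have T1n : 0 ≤ T1 := by positivity
  have T2n : 0 ≤ T2 := by positivity
  have T3n : 0 ≤ T3 := by positivity
  have T4n : 0 ≤ T4 := by positivity
  have T5n : 0 ≤ T5 := by positivity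
  have T6n : 0 ≤ T6 := by positivity
  have T7n : 0 ≤ T7 := by positivity
  refine ⟨10 + T1 + T2 + T3 + T4 + T5 + T6 + T7, by linarith, fun L V v c hKL hKV hv => ?_⟩
  set K : ℝ := 10 + T1 + T2 + T3 + T4 + T5 + T6 + T7 with hK
  have hK10 : 10 ≤ K := by linarith
  have hK0 : 0 < K := by linarith
  have hL0 : 0 < L := by linarith
  have hV0 : 0 < V := by linarith
  have hV1 : 1 ≤ V := by linarith
  have hsq1 : 1 ≤ √V := by rw [Real.one_le_sqrt]; exact hV1
  have hsq0 : 0 < √V := by linarith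
  set b : Fin k → ℝ := fun j => c j / √V with hbdef
  set β : ℝ := B / √V with hβdef
  have hβ0 : 0 ≤ β := by positivity
  have hβB : β ≤ B := div_le_self hB0.le hsq1
  have hβ : ∀ j, |b j| ≤ β := by
    intro j
    rw [hbdef, hβdef]
    simp only
    rw [abs_div, abs_of_pos hsq0]
    exact div_le_div_of_nonneg_right (hv j).2.2.2 hsq0.le
  have hv0 : ∀ j, 0 ≤ v j := fun j => (hv j).1
  have hvL : ∀ j, v j / L ≤ 1 / K := by
    intro j
    rw [div_le_div_iff₀ hL0 hK0, one_mul]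
    have := (hv j).2.1
    rwa [le_div_iff₀ hK0] at this
  -- the scale
  set w : ℝ := 2 + ∑ j, v j with hw
  have hsumv : 0 ≤ ∑ j, v j := Finset.sum_nonneg fun j _ => hv0 j
  have hw2 : 2 ≤ w := by linarith
  have hwj : ∀ j, v j + 2 ≤ w := by
    intro j
    have := Finset.single_le_sum (fun i _ => hv0 i) (Finset.mem_univ j)
    linarith
  have hwL : w / L ≤ (k + 2) / K := by
    have h1 : ∑ j, v j ≤ k * (L / K) := by
      calc ∑ j, v j ≤ ∑ _j : Fin k, L / K := Finset.sum_le_sum fun j _ => (hv j).2.1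
        _ = k * (L / K) := by
            rw [Finset.sum_const, Finset.card_univ, Fintype.card_fin, nsmul_eq_mul]
    have h2 : 1 ≤ L / K := by rw [le_div_iff₀ hK0]; linarith
    rw [div_le_iff₀ hL0]
    calc w ≤ 2 * (L / K) + k * (L / K) := by linarith
      _ = (k + 2) / K * L := by ring
  have hwL0 : 0 ≤ w / L := by positivity
  have hlogw : Real.log w ≤ (k + 1 + B) * V := by
    have h1 : ∀ j, v j ≤ Real.exp (B * V) - 1 := by
      intro j
      have h2 := (hv j).2.2.1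
      rw [Real.log_le_iff_le_exp (by linarith [hv0 j])] at h2
      linarith
    have hexp : 1 ≤ Real.exp (B * V) := Real.one_le_exp (by positivity)
    have h3 : w ≤ (k + 2) * Real.exp (B * V) := by
      have h4 : ∑ j, v j ≤ k * (Real.exp (B * V) - 1) := by
        calc ∑ j, v j ≤ ∑ _j : Fin k, (Real.exp (B * V) - 1) := Finset.sum_le_sum fun j _ => h1 j
          _ = k * (Real.exp (B * V) - 1) := by
              rw [Finset.sum_const, Finset.card_univ, Fintype.card_fin, nsmul_eq_mul]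
      rw [hw]
      linarith
    calc Real.log w ≤ Real.log ((k + 2) * Real.exp (B * V)) :=
          Real.log_le_log (by linarith) h3
      _ = Real.log (k + 2) + B * V := by
          rw [Real.log_mul (by positivity) (Real.exp_pos _).ne', Real.log_exp]
      _ ≤ (k + 1) + B * V := by
          have := Real.log_le_sub_one_of_pos (show (0 : ℝ) < k + 2 by positivity)
          linarith
      _ ≤ (k + 1 + B) * V := by
          have h5 : ((k : ℝ) + 1) ≤ (k + 1) * V := le_mul_of_one_le_right (by positivity) hV1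
          linarith
  have hlog0 : 0 ≤ Real.log w := Real.log_nonneg (by linarith)
  -- the constant of the transform
  set D : ℝ := k * β * (4 * Real.pi * C) with hD
  have hD0 : 0 ≤ D := by positivity
  have hD2 : D ^ 2 = Q / V := by
    have e1 : D = q / √V := by rw [hD, hβdef, hq]; ring
    rw [e1, div_pow, Real.sq_sqrt hV0.le]
  have hD2K : D ^ 2 ≤ Q / K := by
    rw [hD2]
    exact div_le_div_of_nonneg_left hQ0 hK0 hKV
  have hD2Q : D ^ 2 ≤ Q := by
    rw [hD2]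
    exact div_le_self hQ0 hV1
  -- supports
  have hFz : ∀ x : ℝ, 3 / 4 ≤ |x| → Fn L b v x = 0 := by
    intro x hx
    have h1 : 1 / L ≤ 1 / 10 := one_div_le_one_div_of_le (by norm_num) (by linarith)
    refine Fn_zero hb hL0 hv0 (by linarith) (fun j => ?_) hx
    have h2 : 2 * Real.pi * v j / L = 2 * Real.pi * (v j / L) := by ring
    have h3 : 1 / K ≤ 1 / 10 := one_div_le_one_div_of_le (by norm_num) hK10
    have h4 : v j / L ≤ 1 / 10 := (hvL j).trans h3
    have h5 : 2 * Real.pi * (v j / L) ≤ 2 * 3.15 * (1 / 10) :=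
      mul_le_mul (by linarith) h4 (div_nonneg (hv0 j) hL0.le) (by norm_num)
    rw [h2]
    linarith
  have hcs : HasCompactSupport (Fn L b v) :=
    HasCompactSupport.intro (isCompact_Icc (a := (-1 : ℝ)) (b := 1)) fun x hx => by
      apply hFz
      by_contra h
      push Not at h
      exact hx ⟨by linarith [(abs_lt.mp h).1], by linarith [(abs_lt.mp h).2]⟩
  have hdz : ∀ x : ℝ, 1 ≤ |x| → deriv (Fn L b v) x = 0 := by
    intro x hx
    have h1 : Fn L b v =ᶠ[𝓝 x] fun _ => 0 := by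
      have h2 : ∀ᶠ y in 𝓝 x, 3 / 4 < |y| :=
        continuous_abs.continuousAt.eventually (lt_mem_nhds (by linarith))
      filter_upwards [h2] with y hy
      exact hFz y hy.le
    rw [h1.deriv_eq]
    exact deriv_const x 0
  -- derivatives
  have hd1 : deriv (Fn L b v) = fun x => L * Sc L b v (deriv sst) x := by
    rw [Fn_eq]
    exact Sc_deriv L b v (hsst.differentiable (by norm_num))
  have hSd : ∀ {h : ℝ → ℝ}, Differentiable ℝ h →
      deriv (fun x => L * Sc L b v h x) = fun x => L * (L * Sc L b v (deriv h) x) := by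
    intro h hh
    funext x
    rw [deriv_const_mul_field, Sc_deriv L b v hh]
  have hd2 : deriv (deriv (Fn L b v)) = fun x => L * (L * Sc L b v (deriv (deriv sst)) x) := by
    rw [hd1, hSd (c1.differentiable (by norm_num))]
  have hd3 : deriv (deriv (deriv (Fn L b v))) =
      fun x => L * (L * (L * Sc L b v (deriv (deriv (deriv sst))) x)) := by
    rw [hd2]
    funext x
    rw [deriv_const_mul_field, hSd (c2.differentiable (by norm_num))]
  have hcd : ContDiff ℝ 5 (Fn L b v) := Fn_cd hb L b v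
  have hcd4 : ContDiff ℝ 4 (deriv (Fn L b v)) := by
    have h := hcd
    rw [show (5 : WithTop ℕ∞) = 4 + 1 by norm_num] at h
    exact (contDiff_succ_iff_deriv.mp h).2.2
  have hKη : ∀ {T X : ℝ}, 0 ≤ X → T = X / η → T ≤ K → X / K ≤ η := by
    intro T X hX hT hTK
    rw [div_le_iff₀ hK0]
    rw [hT, div_le_iff₀ hη] at hTK
    linarith
  have tK1 : T1 ≤ K := by linarith
  have tK2 : T2 ≤ K := by linarith
  have tK3 : T3 ≤ K := by linarith
  have tK4 : T4 ≤ K := by linarith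
  have tK5 : T5 ≤ K := by linarith
  have tK6 : T6 ≤ K := by linarith
  have tK7 : T7 ≤ K := by linarith
  constructor
  · -- the function itself
    show Adm η (4 * Q * (k + 1 + B) + 1) L (Fn L b v)
    obtain ⟨e1, e2⟩ := est1 (f := FF (Fn L b v)) hL0 hD0 hw2
      (fun ξ hξ => (F_bounds hb hf hC hR hL0 hw2 hv0 hwj hβ hξ).1)
      (fun ξ hξ => (F_bounds hb hf hC hR hL0 hw2 hv0 hwj hβ hξ).2)
    refine ⟨⟨hcd.of_le (by norm_num), fun x hx => hFz x (by linarith)⟩, ?_, ?_, ?_, ?_⟩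
    · -- l1
      have h1 : ∀ j, 2 * Real.pi * v j / L ≤ 7 / K := by
        intro j
        have h2 : 2 * Real.pi * v j / L = 2 * Real.pi * (v j / L) := by ring
        have h5 : 0 ≤ v j / L := div_nonneg (hv0 j) hL0.le
        rw [h2]
        calc 2 * Real.pi * (v j / L) ≤ 7 * (v j / L) := mul_le_mul_of_nonneg_right (by linarith) h5
          _ ≤ 7 * (1 / K) := mul_le_mul_of_nonneg_left (hvL j) (by norm_num)
          _ = 7 / K := by ring
      refine (Fn_l1 hb hL0 hv0 hβ h1).trans ?_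
      calc k * β * (7 / K) ≤ k * B * (7 / K) :=
            mul_le_mul_of_nonneg_right (mul_le_mul_of_nonneg_left hβB hk0) (by positivity)
        _ = 7 * (k * B) / K := by ring
        _ ≤ η := hKη (by positivity) hT1 tK1
    · -- l2
      rw [hd2]
      have h1 : (fun x : ℝ => |L * (L * Sc L b v (deriv (deriv sst)) x)|) =
          fun x : ℝ => L ^ 2 * |Sc L b v (deriv (deriv sst)) x| := by
        funext x
        rw [abs_mul, abs_mul, abs_of_pos hL0]; ring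
      rw [h1, integral_const_mul]
      calc L ^ 2 * ∫ x : ℝ, |Sc L b v (deriv (deriv sst)) x| ≤ L ^ 2 * (k * β * (2 / L * A1)) :=
            mul_le_mul_of_nonneg_left (Sc_int hL0 hβ i2) (by positivity)
        _ = (2 * (k * B) * A1 / √V) * L := by rw [hβdef]; field_simp
        _ ≤ η * L := by
            refine mul_le_mul_of_nonneg_right ?_ hL0.le
            rw [div_le_iff₀ hsq0]
            have h2 : 2 * (k * B) * A1 / η ≤ √V := by
              rw [Real.le_sqrt (by positivity) hV0.le]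
              linarith
            rw [div_le_iff₀ hη] at h2
            linarith
    · -- va
      refine e1.trans ?_
      rw [hD2]
      have h1 : 4 * (Q / V) * Real.log w ≤ 4 * (Q / V) * ((k + 1 + B) * V) :=
        mul_le_mul_of_nonneg_left hlogw (by positivity)
      have h2 : 4 * (Q / V) * ((k + 1 + B) * V) = 4 * Q * (k + 1 + B) := by field_simp
      linarith
    · -- tv
      refine e2.trans ?_
      have h1 : 1 + 8 * Real.log w ≤ (9 + 8 * k + 8 * B) * V := by linarith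
      calc D ^ 2 * (w / L) * (1 + 8 * Real.log w) ≤
            D ^ 2 * (w / L) * ((9 + 8 * k + 8 * B) * V) :=
              mul_le_mul_of_nonneg_left h1 (by positivity)
        _ = Q * (9 + 8 * k + 8 * B) * (w / L) := by rw [hD2]; field_simp
        _ ≤ Q * (9 + 8 * k + 8 * B) * ((k + 2) / K) :=
              mul_le_mul_of_nonneg_left hwL (by positivity)
        _ = Q * ((k + 2) * (9 + 8 * k + 8 * B)) / K := by ring
        _ ≤ η := hKη (by positivity) hT6 tK6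
  · -- the scaled derivative
    show Adm η (4 * Q * (k + 1 + B) + 1) L (fun x => 1 / (η * L) * deriv (Fn L b v) x)
    have hE0 : 0 ≤ k * β * (4 * Real.pi * C) / (η * L) := by positivity
    have hw0 : 0 ≤ w := by linarith
    obtain ⟨e1, e2⟩ := est2 (f := FF (fun x => 1 / (η * L) * deriv (Fn L b v) x)) hL0 hE0 hw0
      (fun ξ hξ => (G_bounds hb hf hC hR hL0 hη hv0 hwj hβ hcs hξ).1)
      (fun ξ hξ => (G_bounds hb hf hC hR hL0 hη hv0 hwj hβ hcs hξ).2)
    rw [← hD] at e1 e2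
    refine ⟨⟨contDiff_const.mul (hcd4.of_le (by norm_num)), fun x hx => by rw [hdz x hx, mul_zero]⟩,
      ?_, ?_, ?_, ?_⟩
    · -- l1
      rw [hd1]
      have h1 : (fun x : ℝ => |1 / (η * L) * (L * Sc L b v (deriv sst) x)|) =
          fun x : ℝ => 1 / η * |Sc L b v (deriv sst) x| := by
        funext x
        rw [abs_mul, abs_mul, abs_of_pos hL0, abs_of_pos (by positivity : 0 < 1 / (η * L))]
        field_simp
      rw [h1, integral_const_mul]
      calc 1 / η * ∫ x : ℝ, |Sc L b v (deriv sst) x| ≤ 1 / η * (k * β * (2 / L * A0)) :=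
            mul_le_mul_of_nonneg_left (Sc_int hL0 hβ i1) (by positivity)
        _ ≤ 1 / η * (k * B * (2 / L * A0)) :=
            mul_le_mul_of_nonneg_left (mul_le_mul_of_nonneg_right
              (mul_le_mul_of_nonneg_left hβB hk0) (by positivity)) (by positivity)
        _ = T3 * η / L := by rw [hT3]; field_simp
        _ ≤ η := by
            rw [div_le_iff₀ hL0, mul_comm]
            exact mul_le_mul_of_nonneg_left (tK3.trans hKL) hη.le
    · -- l2
      have h0 : deriv (deriv (fun x => 1 / (η * L) * deriv (Fn L b v) x)) =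
          fun x => 1 / (η * L) * deriv (deriv (deriv (Fn L b v))) x := by
        have h1 : deriv (fun x => 1 / (η * L) * deriv (Fn L b v) x) =
            fun x => 1 / (η * L) * deriv (deriv (Fn L b v)) x := by
          funext x
          rw [deriv_const_mul_field]
        rw [h1]
        funext x
        rw [deriv_const_mul_field]
      rw [h0, hd3]
      have h1 : (fun x : ℝ => |1 / (η * L) * (L * (L * (L * Sc L b v (deriv (deriv (deriv sst))) x)))|) =
          fun x : ℝ => L ^ 2 / η * |Sc L b v (deriv (deriv (deriv sst))) x| := by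
        funext x
        rw [abs_mul, abs_mul, abs_mul, abs_mul, abs_of_pos hL0,
          abs_of_pos (by positivity : 0 < 1 / (η * L))]
        field_simp
      rw [h1, integral_const_mul]
      calc L ^ 2 / η * ∫ x : ℝ, |Sc L b v (deriv (deriv (deriv sst))) x| ≤
            L ^ 2 / η * (k * β * (2 / L * A2)) :=
            mul_le_mul_of_nonneg_left (Sc_int hL0 hβ i3) (by positivity)
        _ = (2 * (k * B) * A2 / (η * √V)) * L := by rw [hβdef]; field_simp
        _ ≤ η * L := by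
            refine mul_le_mul_of_nonneg_right ?_ hL0.le
            rw [div_le_iff₀ (by positivity)]
            have h2 : 2 * (k * B) * A2 / η ^ 2 ≤ √V := by
              rw [Real.le_sqrt (by positivity) hV0.le]
              linarith
            rw [div_le_iff₀ (by positivity)] at h2
            refine h2.trans (le_of_eq ?_)
            ring
    · -- va
      refine e1.trans ?_
      have h1 : 2 * L ^ 2 * (D / (η * L)) ^ 2 = 2 * D ^ 2 / η ^ 2 := by field_simp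
      rw [h1]
      have h2 : 2 * D ^ 2 / η ^ 2 ≤ 2 * (Q / K) / η ^ 2 :=
        div_le_div_of_nonneg_right (by linarith) (by positivity)
      have h3 : 2 * (Q / K) / η ^ 2 = T5 / K := by rw [hT5]; field_simp
      have h4 : T5 / K ≤ 1 := by rw [div_le_one hK0]; exact tK5
      have h5 : 0 ≤ 4 * Q * (k + 1 + B) := by positivity
      linarith
    · -- tv
      refine e2.trans ?_
      have h1 : (D / (η * L)) ^ 2 * L * (2 + 4 * w) = D ^ 2 / η ^ 2 * (2 * (1 / L) + 4 * (w / L)) := by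
        field_simp
      rw [h1]
      have h2 : 1 / L ≤ 1 / K := one_div_le_one_div_of_le hK0 hKL
      calc D ^ 2 / η ^ 2 * (2 * (1 / L) + 4 * (w / L)) ≤
            Q / η ^ 2 * (2 * (1 / K) + 4 * ((k + 2) / K)) := by
              refine mul_le_mul (div_le_div_of_nonneg_right hD2Q (by positivity)) (by linarith)
                (by positivity) (by positivity)
        _ = T7 * η / K := by rw [hT7]; field_simp; ring
        _ ≤ η := by
            rw [div_le_iff₀ hK0, mul_comm]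
            exact mul_le_mul_of_nonneg_left tK7 hη.le

end Pool.Agent.H203.ME
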