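import Pool.Agent.H203.ME.Defs

set_option autoImplicit false

/-! (DEN) the zeros are close to the critical line on average. -/

open Complex Filter Topology Set MeasureTheory
open scoped ComplexConjugate

namespace Pool.Agent.H203.ME

namespace DENL

open Pool.Agent.Results.MP_db1c88_nt

/-- elementary inequality -/
lemma elem {x : ℝ} (hx : 0 ≤ x) : x ^ 2 * Real.exp (x / 2) ≤ 8 * Real.exp x := by
  have h1 : x / 2 + 1 ≤ Real.exp (x / 2) := Real.add_one_le_exp _
  have h3 := Real.quadratic_le_exp_of_nonneg (by linarith : (0 : ℝ) ≤ x / 2)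
  have h2 : Real.exp x = Real.exp (x / 2) * Real.exp (x / 2) := by
    rw [← Real.exp_add]; congr 1; ring
  rw [h2]
  have h4 : x ^ 2 ≤ 8 * Real.exp (x / 2) := by nlinarith
  calc x ^ 2 * Real.exp (x / 2) ≤ (8 * Real.exp (x / 2)) * Real.exp (x / 2) :=
        mul_le_mul_of_nonneg_right h4 (Real.exp_pos _).le
    _ = _ := by ring

/-- the summand -/
noncomputable def g (T : ℝ) (s : ℂ) : ℝ :=
  (mz s : ℝ) * ((s.re - 1 / 2) ^ 2 * Real.exp (Real.log T * |s.re - 1 / 2| / 2))

lemma g_nonneg (T : ℝ) (s : ℂ) : 0 ≤ g T s := by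
  unfold g
  positivity

lemma g_refl {T : ℝ} {s : ℂ} (h1 : 0 < s.re) (h2 : s.re < 1) (h3 : 1 ≤ s.im) :
    g T (1 - conj s) = g T s := by
  unfold g mz
  rw [H370.mult_refl H370.good_zeta h1 h2 h3]
  have hre : (1 - conj s).re = 1 - s.re := by simp
  rw [hre]
  have e1 : (1 - s.re - 1 / 2) ^ 2 = (s.re - 1 / 2) ^ 2 := by ring
  have e2 : |1 - s.re - 1 / 2| = |s.re - 1 / 2| := by
    rw [← abs_neg]; congr 1; ring
  rw [e1, e2]

lemma g_le {T : ℝ} (hT : 10 ≤ T) {s : ℂ} (h : 1 / 2 ≤ s.re) :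
    g T s ≤ 8 / (Real.log T) ^ 2 *
      ((analyticOrderNatAt riemannZeta s : ℝ) * (2 * T) ^ ((1 : ℝ) * (s.re - 1 / 2))) := by
  have hL : 0 < Real.log T := Real.log_pos (by linarith)
  have h0 : 0 ≤ s.re - 1 / 2 := by linarith
  have e := elem (mul_nonneg hL.le h0)
  have h1 : Real.exp (Real.log T * (s.re - 1 / 2)) ≤ (2 * T) ^ ((1 : ℝ) * (s.re - 1 / 2)) := by
    rw [← Real.rpow_def_of_pos (by linarith : (0 : ℝ) < T), one_mul]
    exact Real.rpow_le_rpow (by linarith) (by linarith) h0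
  have h2 : (s.re - 1 / 2) ^ 2 * Real.exp (Real.log T * |s.re - 1 / 2| / 2) ≤
      8 / (Real.log T) ^ 2 * (2 * T) ^ ((1 : ℝ) * (s.re - 1 / 2)) := by
    rw [abs_of_nonneg h0, div_mul_eq_mul_div, le_div_iff₀ (by positivity)]
    calc (s.re - 1 / 2) ^ 2 * Real.exp (Real.log T * (s.re - 1 / 2) / 2) * Real.log T ^ 2
        = (Real.log T * (s.re - 1 / 2)) ^ 2 * Real.exp (Real.log T * (s.re - 1 / 2) / 2) := by ring
      _ ≤ 8 * Real.exp (Real.log T * (s.re - 1 / 2)) := e
      _ ≤ _ := by linarith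
  unfold g mz H370.mult
  calc (analyticOrderNatAt riemannZeta s : ℝ) *
        ((s.re - 1 / 2) ^ 2 * Real.exp (Real.log T * |s.re - 1 / 2| / 2))
      ≤ (analyticOrderNatAt riemannZeta s : ℝ) *
        (8 / (Real.log T) ^ 2 * (2 * T) ^ ((1 : ℝ) * (s.re - 1 / 2))) :=
        mul_le_mul_of_nonneg_left h2 (Nat.cast_nonneg _)
    _ = _ := by ring

end DENL

open DENL Pool.Agent.Results.MP_db1c88_nt in
/-- (DEN) -/
theorem t_DEN : S_DEN := by
  classical
  obtain ⟨C, hC⟩ := DistancesToTheLine.moment_four_thirds (c := 1) (by norm_num)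
  refine ⟨64 * (|C| + 1), 10, by positivity, le_rfl, ?_⟩
  intro T hT U1 U2 h1 _ _ h4
  have hU : 1 ≤ U1 := by linarith
  have hL : 0 < Real.log T := Real.log_pos (by linarith)
  set Z := H370.Zf riemannZeta U1 U2 with hZ
  have hmem : ∀ s ∈ Z, 0 < s.re ∧ s.re < 1 ∧ U1 < s.im ∧ s.im ≤ U2 ∧ riemannZeta s = 0 := by
    intro s hs
    exact (H370.mem_Zf H370.good_zeta hU).1 hs
  change ∑ s ∈ Z, g T s ≤ _
  -- split
  have hsplit : ∑ s ∈ Z, g T s ≤ 2 * ∑ s ∈ Z.filter (fun s => 1 / 2 ≤ s.re), g T s := by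
    rw [← Finset.sum_filter_add_sum_filter_not Z (fun s : ℂ => 1 / 2 ≤ s.re) (g T)]
    have h5 : ∑ s ∈ Z.filter (fun s => ¬ 1 / 2 ≤ s.re), g T s ≤
        ∑ s ∈ Z.filter (fun s => 1 / 2 ≤ s.re), g T s := by
      have h6 : ∑ s ∈ Z.filter (fun s => ¬ 1 / 2 ≤ s.re), g T s =
          ∑ s ∈ (Z.filter (fun s => ¬ 1 / 2 ≤ s.re)).image (fun s => 1 - conj s), g T s := by
        rw [Finset.sum_image]
        · refine Finset.sum_congr rfl fun s hs => ?_
          rw [Finset.mem_filter] at hs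
          obtain ⟨a1, a2, a3, _, _⟩ := hmem s hs.1
          exact (g_refl a1 a2 (by linarith)).symm
        · intro a _ b _ hab
          have h7 : conj a = conj b := by
            have := hab
            simp only [sub_right_inj] at this
            exact this
          exact (starRingEnd ℂ).injective h7
      rw [h6]
      refine Finset.sum_le_sum_of_subset_of_nonneg ?_ fun s _ _ => g_nonneg T s
      intro s hs
      rw [Finset.mem_image] at hs
      obtain ⟨a, ha, rfl⟩ := hs
      rw [Finset.mem_filter] at ha ⊢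
      refine ⟨?_, ?_⟩
      · rw [hZ, H370.mem_Zf H370.good_zeta hU]
        exact H370.zset_refl H370.good_zeta hU ((H370.mem_Zf H370.good_zeta hU).1 ha.1)
      · have hre : (1 - conj a).re = 1 - a.re := by simp
        rw [hre]
        have := ha.2
        push Not at this
        linarith
    linarith
  -- compare with E
  have hE : ∑ s ∈ Z.filter (fun s => 1 / 2 ≤ s.re), g T s ≤
      8 / (Real.log T) ^ 2 * DistancesToTheLine.E 1 (2 * T) := by
    rw [DistancesToTheLine.E_eq, Finset.mul_sum]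
    refine le_trans (Finset.sum_le_sum (g := fun s : ℂ => 8 / (Real.log T) ^ 2 *
      ((analyticOrderNatAt riemannZeta s : ℝ) * (2 * T) ^ ((1 : ℝ) * (s.re - 1 / 2)))) ?_) ?_
    · intro s hs
      rw [Finset.mem_filter] at hs
      exact g_le hT hs.2
    · refine Finset.sum_le_sum_of_subset_of_nonneg ?_ ?_
      · intro s hs
        rw [Finset.mem_filter] at hs
        obtain ⟨_, _, a3, a4, a5⟩ := hmem s hs.1
        rw [Set.Finite.mem_toFinset]
        exact ⟨a5, hs.2, by linarith, by linarith⟩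
      · intro s _ _
        have : (0 : ℝ) ≤ 2 * T := by linarith
        positivity
  have hE2 := hC (2 * T) (by linarith)
  have hlog : Real.log (2 * T) ≤ 2 * Real.log T := by
    rw [Real.log_mul (by norm_num) (by linarith)]
    have : Real.log 2 ≤ Real.log T := Real.log_le_log (by norm_num) (by linarith)
    linarith
  have hlog0 : 0 ≤ Real.log (2 * T) := Real.log_nonneg (by linarith)
  have hE3 : DistancesToTheLine.E 1 (2 * T) ≤ 4 * (|C| + 1) * T * Real.log T := by
    refine hE2.trans ?_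
    calc C * (2 * T) * Real.log (2 * T) ≤ (|C| + 1) * (2 * T) * Real.log (2 * T) := by
          refine mul_le_mul_of_nonneg_right ?_ hlog0
          refine mul_le_mul_of_nonneg_right ?_ (by linarith)
          linarith [le_abs_self C]
      _ ≤ (|C| + 1) * (2 * T) * (2 * Real.log T) := by
          refine mul_le_mul_of_nonneg_left hlog ?_
          have := abs_nonneg C
          positivity
      _ = _ := by ring
  calc ∑ s ∈ Z, g T s ≤ 2 * ∑ s ∈ Z.filter (fun s => 1 / 2 ≤ s.re), g T s := hsplit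
    _ ≤ 2 * (8 / (Real.log T) ^ 2 * DistancesToTheLine.E 1 (2 * T)) := by linarith
    _ ≤ 2 * (8 / (Real.log T) ^ 2 * (4 * (|C| + 1) * T * Real.log T)) := by
        have h8 : (0 : ℝ) ≤ 8 / (Real.log T) ^ 2 := by positivity
        have := mul_le_mul_of_nonneg_left hE3 h8
        linarith
    _ = 64 * (|C| + 1) * T / Real.log T := by
        field_simp
        ring

end Pool.Agent.H203.ME
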