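import Pool.Agent.H203.ME.Defs

set_option autoImplicit false

/-! Leaf EFW: the explicit formula of zeta for the band-limited kernel. -/

open Complex Filter Topology Set MeasureTheory

namespace Pool.Agent.H203.ME

namespace EFWL

lemma gR_even (R u : ℝ) : gR R (-u) = gR R u := by
  unfold gR; rw [neg_div, neg_sq]

lemma gR_cont (R : ℝ) : Continuous (gR R) := by
  unfold gR; fun_prop

lemma sq_le {R u : ℝ} (hR : 0 < R) (h : |u| ≤ R) : (u / R) ^ 2 ≤ 1 := by
  rw [sq_le_one_iff_abs_le_one, abs_div, abs_of_pos hR, div_le_one hR]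
  exact h

lemma gR_nonneg {R u : ℝ} (hR : 0 < R) (h : |u| ≤ R) : 0 ≤ gR R u := by
  unfold gR
  have h1 := sq_le hR h
  have h2 : 0 ≤ 1 - (u / R) ^ 2 := by linarith
  positivity

lemma gR_le {R u : ℝ} (hR : 0 < R) (h : |u| ≤ R) : gR R u ≤ 1 / (2 * Real.pi) := by
  unfold gR
  have h1 := sq_le hR h
  have h2 : 0 ≤ 1 - (u / R) ^ 2 := by linarith
  have h3 : 1 - (u / R) ^ 2 ≤ 1 := by nlinarith [sq_nonneg (u / R)]
  exact mul_le_of_le_one_right (by positivity) (pow_le_one₀ h2 h3)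

lemma gR_le_one {R u : ℝ} (hR : 0 < R) (h : |u| ≤ R) : gR R u ≤ 1 := by
  refine (gR_le hR h).trans ?_
  rw [div_le_one (by positivity)]
  have := Real.pi_gt_three
  linarith

lemma split_int {E : Type*} [NormedAddCommGroup E] [NormedSpace ℝ E] {f : ℝ → E}
    (hf : Continuous f) (R : ℝ) :
    ∫ u in (-R)..R, f u = ∫ u in (0 : ℝ)..R, (f u + f (-u)) := by
  have h1 : ∫ u in (-R)..0, f u = ∫ u in (0 : ℝ)..R, f (-u) := by
    rw [intervalIntegral.integral_comp_neg]; simp
  have h2 : Continuous fun u : ℝ => f (-u) := hf.comp continuous_neg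
  rw [← intervalIntegral.integral_add_adjacent_intervals (b := 0)
    (hf.intervalIntegrable _ _) (hf.intervalIntegrable _ _), h1,
    intervalIntegral.integral_add (hf.intervalIntegrable _ _) (h2.intervalIntegrable _ _), add_comm]

/-- Fourier transform of the Gaussian -/
lemma gauss_ft (u : ℝ) :
    ∫ x : ℝ, cexp (I * u * x) * cexp (-(x : ℂ) ^ 2 / 2) =
      (Real.sqrt (2 * Real.pi) : ℂ) * (Real.exp (-u ^ 2 / 2) : ℂ) := by
  have h1 : ∀ x : ℝ, cexp (I * u * x) * cexp (-(x : ℂ) ^ 2 / 2) =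
      cexp (-(I * u - x) ^ 2 / 2) * (Real.exp (-u ^ 2 / 2) : ℂ) := by
    intro x
    rw [Complex.ofReal_exp, ← Complex.exp_add, ← Complex.exp_add]
    congr 1
    push_cast
    have : (I * (u : ℂ) - x) ^ 2 = -(u : ℂ) ^ 2 - 2 * I * u * x + x ^ 2 := by
      have hI : I ^ 2 = -1 := I_sq
      linear_combination (u : ℂ) ^ 2 * hI
    rw [this]; ring
  simp_rw [h1]
  rw [integral_mul_const, H370.gauss_single]

lemma prod_int (R : ℝ) :
    Integrable (fun p : ℝ × ℝ => (gR R p.2 : ℂ) * cexp (I * p.2 * p.1) * cexp (-(p.1 : ℂ) ^ 2 / 2))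
      ((volume : Measure ℝ).prod (volume.restrict (Ioc (-R) R))) := by
  have h1 : Integrable (fun x : ℝ => Real.exp (-x ^ 2 / 2)) := by
    have := integrable_exp_neg_mul_sq (b := 1 / 2) (by norm_num)
    refine this.congr (Eventually.of_forall fun x => ?_)
    simp only
    congr 1; ring
  have h2 : Integrable (fun u : ℝ => |gR R u|) (volume.restrict (Ioc (-R) R)) := by
    have h3 : IntegrableOn (fun u : ℝ => |gR R u|) (Icc (-R) R) :=
      (gR_cont R).abs.continuousOn.integrableOn_compact isCompact_Icc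
    exact h3.mono_set Ioc_subset_Icc_self
  have h4 := h1.mul_prod h2
  refine Integrable.mono' h4 ?_ (Eventually.of_forall fun p => ?_)
  · apply Continuous.aestronglyMeasurable
    have := gR_cont R
    fun_prop
  · rw [norm_mul, norm_mul, Complex.norm_real, Real.norm_eq_abs, Complex.norm_exp, Complex.norm_exp]
    have e1 : (I * (p.2 : ℂ) * (p.1 : ℂ)).re = 0 := by simp
    have e2 : (-(p.1 : ℂ) ^ 2 / 2).re = -p.1 ^ 2 / 2 := by
      rw [show (-(p.1 : ℂ) ^ 2 / 2) = ((-p.1 ^ 2 / 2 : ℝ) : ℂ) by push_cast; ring]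
      exact Complex.ofReal_re _
    rw [e1, e2, Real.exp_zero, mul_one, mul_comm]

lemma WR_eq {R : ℝ} (hR : 0 ≤ R) (x : ℝ) : WR R (x : ℂ) =
    ∫ u in Ioc (-R) R, (gR R u : ℂ) * cexp (I * u * x) * cexp (-(x : ℂ) ^ 2 / 2) := by
  unfold WR
  rw [intervalIntegral.integral_of_le (by linarith), integral_mul_const]

lemma WR_int {R : ℝ} (hR : 0 ≤ R) : Integrable (fun x : ℝ => WR R (x : ℂ)) := by
  have h := (prod_int R).integral_prod_left
  refine h.congr (Eventually.of_forall fun x => ?_)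
  exact (WR_eq hR x).symm

lemma om_eq {R : ℝ} (hR : 0 ≤ R) :
    om R = Real.sqrt (2 * Real.pi) * (2 * ∫ u in (0 : ℝ)..R, gR R u * Real.exp (-u ^ 2 / 2)) := by
  have h1 : (∫ x : ℝ, WR R (x : ℂ)) =
      ∫ u in Ioc (-R) R, ∫ x : ℝ, (gR R u : ℂ) * cexp (I * u * x) * cexp (-(x : ℂ) ^ 2 / 2) := by
    simp_rw [WR_eq hR]
    exact integral_integral_swap (f := fun (x u : ℝ) =>
      (gR R u : ℂ) * cexp (I * u * x) * cexp (-(x : ℂ) ^ 2 / 2)) (prod_int R)
  have h2 : ∀ u : ℝ, ∫ x : ℝ, (gR R u : ℂ) * cexp (I * u * x) * cexp (-(x : ℂ) ^ 2 / 2) =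
      ((Real.sqrt (2 * Real.pi) * (gR R u * Real.exp (-u ^ 2 / 2)) : ℝ) : ℂ) := by
    intro u
    simp_rw [mul_assoc]
    rw [integral_const_mul]
    have := gauss_ft u
    simp_rw [mul_assoc] at this
    rw [this]
    push_cast
    ring
  simp_rw [h2] at h1
  have h1' := h1.trans (integral_ofReal (𝕜 := ℂ) (μ := volume.restrict (Ioc (-R) R))
    (f := fun u : ℝ => Real.sqrt (2 * Real.pi) * (gR R u * Real.exp (-u ^ 2 / 2))))
  rw [integral_const_mul] at h1'
  have h3 : om R = (∫ x : ℝ, WR R (x : ℂ)).re := by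
    unfold om
    exact integral_re (WR_int hR)
  rw [h3, h1']
  change Real.sqrt (2 * Real.pi) * (∫ u in Ioc (-R) R, gR R u * Real.exp (-u ^ 2 / 2)) = _
  congr 1
  rw [← intervalIntegral.integral_of_le (by linarith)]
  rw [split_int (by have := gR_cont R; fun_prop), ← intervalIntegral.integral_const_mul]
  refine intervalIntegral.integral_congr fun u _ => ?_
  rw [gR_even, neg_sq]
  ring

/-! ### the zero side -/

/-- the normalised zero side -/
noncomputable def DD (U1 U2 t u : ℝ) : ℂ := cexp (-(I * u * t)) * H370.AA riemannZeta U1 U2 u t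

lemma DD_sum {U1 U2 : ℝ} (hU : 1 ≤ U1) (t u : ℝ) : DD U1 U2 t u =
    ∑ s ∈ H370.Zf riemannZeta U1 U2, (mz s : ℂ) *
      (cexp (I * u * (H370.zz s - t)) * cexp (-(H370.zz s - t) ^ 2 / 2)) := by
  unfold DD
  rw [H370.AA_eq H370.good_zeta hU, Finset.mul_sum]
  refine Finset.sum_congr rfl fun s _ => ?_
  rw [H370.hh_eq, show I * (u : ℂ) * (H370.zz s - t) = -(I * u * t) + I * u * H370.zz s by ring,
    Complex.exp_add]
  unfold mz
  ring

lemma DD_cont {U1 U2 : ℝ} (hU : 1 ≤ U1) (t : ℝ) : Continuous (DD U1 U2 t) := by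
  have h : DD U1 U2 t = fun u : ℝ => ∑ s ∈ H370.Zf riemannZeta U1 U2, (mz s : ℂ) *
      (cexp (I * u * (H370.zz s - t)) * cexp (-(H370.zz s - t) ^ 2 / 2)) :=
    funext fun u => DD_sum hU t u
  rw [h]
  fun_prop

lemma DD_neg {U1 U2 : ℝ} (hU : 1 ≤ U1) (t u : ℝ) :
    DD U1 U2 t (-u) = (starRingEnd ℂ) (DD U1 U2 t u) := by
  rw [DD_sum hU, DD_sum hU, ← H370.sum_refl H370.good_zeta hU, map_sum]
  refine Finset.sum_congr rfl fun s hs => ?_
  rw [H370.mem_Zf H370.good_zeta hU] at hs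
  have h1 : mz (1 - (starRingEnd ℂ) s) = mz s := by
    unfold mz
    exact H370.mult_refl H370.good_zeta hs.1 hs.2.1 (by linarith [hs.2.2.1])
  rw [h1, H370.zz_refl]
  simp only [map_mul, ← Complex.exp_conj, Complex.conj_natCast, Complex.conj_I, Complex.conj_ofReal,
    map_sub, map_div₀, map_neg, map_pow, Complex.conj_ofNat]
  congr 3
  push_cast
  ring

lemma sum_WR {U1 U2 : ℝ} (hU : 1 ≤ U1) (R t : ℝ) :
    (∑ s ∈ H370.Zf riemannZeta U1 U2, (mz s : ℂ) * WR R (H370.zz s - t)) =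
      ((∫ u in (0 : ℝ)..R, gR R u * (2 * (DD U1 U2 t u).re) : ℝ) : ℂ) := by
  have h1 : (∑ s ∈ H370.Zf riemannZeta U1 U2, (mz s : ℂ) * WR R (H370.zz s - t)) =
      ∫ u in (-R)..R, (gR R u : ℂ) * DD U1 U2 t u := by
    simp_rw [DD_sum hU, Finset.mul_sum]
    rw [intervalIntegral.integral_finsetSum]
    · refine Finset.sum_congr rfl fun s _ => ?_
      unfold WR
      rw [← intervalIntegral.integral_mul_const, ← intervalIntegral.integral_const_mul]
      refine intervalIntegral.integral_congr fun u _ => ?_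
      ring
    · intro s _
      apply Continuous.intervalIntegrable
      have := gR_cont R
      fun_prop
  rw [h1, split_int (by
    have := gR_cont R
    have := DD_cont (U1 := U1) (U2 := U2) hU t
    fun_prop), ← intervalIntegral.integral_ofReal]
  refine intervalIntegral.integral_congr fun u _ => ?_
  rw [gR_even, DD_neg hU, ← mul_add, Complex.add_conj]
  push_cast
  ring

/-! ### the prime side -/

/-- the terms of the prime side -/
noncomputable def FN (R t : ℝ) (n : ℕ) (u : ℝ) : ℂ :=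
  ((ArithmeticFunction.vonMangoldt n / Real.sqrt n : ℝ) : ℂ) * ee n t *
    ((gR R u * Real.exp (-(u - Real.log n) ^ 2 / 2) : ℝ) : ℂ)

lemma norm_ee (n : ℕ) (t : ℝ) : ‖ee n t‖ = 1 := by
  unfold ee
  rw [← neg_mul, ← Complex.ofReal_neg, Complex.norm_exp_ofReal_mul_I]

lemma FN_cont (R t : ℝ) (n : ℕ) : Continuous (FN R t n) := by
  unfold FN
  have := gR_cont R
  fun_prop

lemma FN_bound {R : ℝ} (hR : 0 < R) (t : ℝ) (n : ℕ) {u : ℝ} (hu : u ∈ Icc (0 : ℝ) R) :
    ‖FN R t n u‖ ≤ Real.exp ((R + 1) ^ 2 / 2) *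
      (ArithmeticFunction.vonMangoldt n * (n : ℝ) ^ (-(3 / 2 : ℝ))) := by
  rcases Nat.eq_zero_or_pos n with h | h
  · subst h
    simp [FN]
  have hn : (0 : ℝ) < n := by exact_mod_cast h
  unfold FN
  rw [norm_mul, norm_mul, norm_ee, mul_one, Complex.norm_real, Complex.norm_real, Real.norm_eq_abs,
    Real.norm_eq_abs]
  have habs : |u| ≤ R := by rw [abs_of_nonneg hu.1]; exact hu.2
  have hg0 := gR_nonneg hR habs
  have hg1 := gR_le_one hR habs
  have hΛ : (0 : ℝ) ≤ ArithmeticFunction.vonMangoldt n := ArithmeticFunction.vonMangoldt_nonneg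
  rw [abs_of_nonneg (by positivity), abs_of_nonneg (by positivity)]
  set x := Real.log n with hx
  have hexp : Real.exp (-(u - x) ^ 2 / 2) ≤ Real.exp ((R + 1) ^ 2 / 2) * Real.exp (-x) := by
    rw [← Real.exp_add]
    apply Real.exp_le_exp.2
    have hx0 : 0 ≤ x := Real.log_natCast_nonneg n
    nlinarith [sq_nonneg (x - (R + 1)), mul_nonneg hx0 (sub_nonneg.2 hu.2), sq_nonneg u]
  have hex : Real.exp (-x) = (n : ℝ) ^ (-(1 : ℝ)) := by
    rw [Real.rpow_neg_one, Real.exp_neg, hx, Real.exp_log hn]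
  have hsq : (Real.sqrt n)⁻¹ = (n : ℝ) ^ (-(1 / 2 : ℝ)) := by
    rw [Real.rpow_neg hn.le, Real.sqrt_eq_rpow]
  have hprod : (n : ℝ) ^ (-(3 / 2 : ℝ)) = (n : ℝ) ^ (-(1 : ℝ)) * (n : ℝ) ^ (-(1 / 2 : ℝ)) := by
    rw [← Real.rpow_add hn]; norm_num
  calc ArithmeticFunction.vonMangoldt n / Real.sqrt n *
        (gR R u * Real.exp (-(u - x) ^ 2 / 2)) ≤
      ArithmeticFunction.vonMangoldt n / Real.sqrt n *
        (1 * (Real.exp ((R + 1) ^ 2 / 2) * Real.exp (-x))) := by
        apply mul_le_mul_of_nonneg_left _ (by positivity)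
        exact mul_le_mul hg1 hexp (Real.exp_pos _).le zero_le_one
    _ = _ := by
        rw [hex, hprod, ← hsq]
        ring

lemma FN_summable (R : ℝ) : Summable (fun n : ℕ => Real.exp ((R + 1) ^ 2 / 2) *
      (ArithmeticFunction.vonMangoldt n * (n : ℝ) ^ (-(3 / 2 : ℝ)))) :=
  H370.lam_summable.mul_left _

lemma FN_tsum (R t u : ℝ) : ∑' n : ℕ, FN R t n u =
    (gR R u : ℂ) * (cexp (-(I * u * t)) *
      H370.PP (fun n => (ArithmeticFunction.vonMangoldt n : ℂ)) u t) := by
  unfold H370.PP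
  rw [← tsum_mul_left, ← tsum_mul_left]
  refine tsum_congr fun n => ?_
  unfold FN ee
  have h1 : cexp (-(((t * Real.log n : ℝ) : ℂ) * I)) =
      cexp (-(I * u * t)) * cexp (I * t * (u - Real.log n)) := by
    rw [← Complex.exp_add]
    congr 1
    push_cast
    ring
  rw [h1]
  push_cast
  ring

lemma FN_hasSum {R : ℝ} (hR : 0 < R) (t : ℝ) :
    HasSum (fun n : ℕ => ∫ u in (0 : ℝ)..R, FN R t n u) (∫ u in (0 : ℝ)..R, ∑' n : ℕ, FN R t n u) := by
  have hb : ∀ n : ℕ, ∀ u : ℝ, u ∈ uIoc (0 : ℝ) R → ‖FN R t n u‖ ≤ Real.exp ((R + 1) ^ 2 / 2) *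
      (ArithmeticFunction.vonMangoldt n * (n : ℝ) ^ (-(3 / 2 : ℝ))) := by
    intro n u hu
    rw [uIoc_of_le hR.le] at hu
    exact FN_bound hR t n ⟨hu.1.le, hu.2⟩
  refine intervalIntegral.hasSum_integral_of_dominated_convergence
    (fun n _ => Real.exp ((R + 1) ^ 2 / 2) *
      (ArithmeticFunction.vonMangoldt n * (n : ℝ) ^ (-(3 / 2 : ℝ)))) ?_ ?_ ?_ ?_ ?_
  · intro n
    exact (FN_cont R t n).aestronglyMeasurable
  · intro n
    exact Eventually.of_forall fun u hu => hb n u hu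
  · exact Eventually.of_forall fun u _ => FN_summable R
  · exact intervalIntegrable_const
  · exact Eventually.of_forall fun u hu =>
      (Summable.of_norm_bounded (FN_summable R) fun n => hb n u hu).hasSum

lemma FN_contOn {R : ℝ} (hR : 0 < R) (t : ℝ) :
    ContinuousOn (fun u : ℝ => ∑' n : ℕ, FN R t n u) (Icc (0 : ℝ) R) :=
  continuousOn_tsum (fun n => (FN_cont R t n).continuousOn) (FN_summable R)
    (fun n _ hu => FN_bound hR t n hu)

lemma FN_integral (R t : ℝ) (n : ℕ) : ∫ u in (0 : ℝ)..R, FN R t n u =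
    ((ArithmeticFunction.vonMangoldt n / Real.sqrt n * cR R (Real.log n) : ℝ) : ℂ) * ee n t := by
  unfold FN cR
  rw [intervalIntegral.integral_const_mul, intervalIntegral.integral_ofReal]
  push_cast
  ring

lemma PR_eq {R : ℝ} (hR : 0 < R) (t : ℝ) : PR R t =
    2 / Real.sqrt (2 * Real.pi) * ∫ u in (0 : ℝ)..R, (∑' n : ℕ, FN R t n u).re := by
  unfold PR
  congr 1
  have h1 := (FN_hasSum hR t).tsum_eq
  simp_rw [FN_integral] at h1
  rw [h1]
  have hint : IntervalIntegrable (fun u : ℝ => ∑' n : ℕ, FN R t n u) volume 0 R := by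
    apply ContinuousOn.intervalIntegrable
    rw [uIcc_of_le hR.le]
    exact FN_contOn hR t
  rw [intervalIntegral.integral_of_le hR.le, intervalIntegral.integral_of_le hR.le]
  exact (integral_re hint.1).symm

lemma exp_int {R : ℝ} : ∫ u in (0 : ℝ)..R, Real.exp (-u) ≤ 1 := by
  rw [intervalIntegral.integral_comp_neg (f := Real.exp), integral_exp]
  simp only [neg_zero, Real.exp_zero]
  linarith [Real.exp_pos (-R)]

end EFWL

open EFWL in
theorem t_EFW : S_EFW := by
  have hld : ∀ s : ℂ, 1 < s.re → 1 ≤ s.im → deriv riemannZeta s / riemannZeta s =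
      - ∑' n : ℕ, (ArithmeticFunction.vonMangoldt n : ℂ) * (n : ℂ) ^ (-s) := by
    intro s hs _
    have h1 := ArithmeticFunction.LSeries_vonMangoldt_eq_deriv_riemannZeta_div hs
    rw [neg_div, eq_neg_iff_add_eq_zero, add_comm, ← eq_neg_iff_add_eq_zero] at h1
    rw [h1]
    congr 1
    unfold LSeries
    refine tsum_congr fun n => ?_
    rw [H370.DL.term_eq_mul_cpow _ (by simp)]
  obtain ⟨C, T0, hC, hT0, hmain⟩ := H370.A2.ef_known H370.good_zeta
    (a := fun n => (ArithmeticFunction.vonMangoldt n : ℂ)) (fun n => by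
      rw [Complex.norm_real, Real.norm_eq_abs, abs_of_nonneg ArithmeticFunction.vonMangoldt_nonneg])
    hld
  refine ⟨C, T0, hC, hT0, fun T hT => ?_⟩
  obtain ⟨U1, U2, hU1, hU1', hU2, hU2', hm⟩ := hmain T hT
  refine ⟨U1, U2, hU1, hU1', hU2, hU2', fun R t hR1 hRL ht1 ht2 => ?_⟩
  have hU : 1 ≤ U1 := by linarith
  have hR : 0 < R := by linarith
  rw [sum_WR hU]
  set L := Real.log T with hL
  have hs2 : (0 : ℝ) < Real.sqrt (2 * Real.pi) := by positivity
  have hsq : Real.sqrt (2 * Real.pi) * Real.sqrt (2 * Real.pi) = 2 * Real.pi :=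
    Real.mul_self_sqrt (by positivity)
  -- the approximation
  set EE : ℝ → ℝ := fun u => (1 / Real.sqrt (2 * Real.pi)) *
    (L * (gR R u * Real.exp (-u ^ 2 / 2)) - (∑' n : ℕ, FN R t n u).re) with hEE
  have hFc := FN_contOn hR t
  have hFre : ContinuousOn (fun u : ℝ => (∑' n : ℕ, FN R t n u).re) (Icc (0 : ℝ) R) :=
    Complex.continuous_re.comp_continuousOn hFc
  have hgc := gR_cont R
  have hEc : ContinuousOn EE (Icc (0 : ℝ) R) := by
    rw [hEE]
    refine continuousOn_const.mul (ContinuousOn.sub ?_ hFre)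
    apply Continuous.continuousOn
    fun_prop
  have hEint : IntervalIntegrable EE volume 0 R := by
    apply ContinuousOn.intervalIntegrable
    rwa [uIcc_of_le hR.le]
  have hval : L / (2 * Real.pi) * om R - PR R t = ∫ u in (0 : ℝ)..R, 2 * EE u := by
    have hi1 : IntervalIntegrable (fun u : ℝ => L * (gR R u * Real.exp (-u ^ 2 / 2))) volume 0 R := by
      apply Continuous.intervalIntegrable
      fun_prop
    have hi2 : IntervalIntegrable (fun u : ℝ => (∑' n : ℕ, FN R t n u).re) volume 0 R := by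
      apply ContinuousOn.intervalIntegrable
      rwa [uIcc_of_le hR.le]
    rw [intervalIntegral.integral_const_mul, hEE, intervalIntegral.integral_const_mul,
      intervalIntegral.integral_sub hi1 hi2, intervalIntegral.integral_const_mul, PR_eq hR,
      om_eq hR.le]
    generalize Real.sqrt (2 * Real.pi) = s at hs2 hsq
    rw [← hsq]
    field_simp
  rw [hval, ← Complex.ofReal_sub, Complex.norm_real, Real.norm_eq_abs]
  have hDc := DD_cont (U1 := U1) (U2 := U2) hU t
  have hDi : Continuous fun u : ℝ => gR R u * (2 * (DD U1 U2 t u).re) :=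
    hgc.mul (continuous_const.mul (Complex.continuous_re.comp hDc))
  rw [← intervalIntegral.integral_sub (hDi.intervalIntegrable _ _) (hEint.const_mul 2)]
  have hpt : ∀ u ∈ Icc (0 : ℝ) R,
      ‖gR R u * (2 * (DD U1 U2 t u).re) - 2 * EE u‖ ≤ C / Real.pi * Real.exp (-u) := by
    intro u hu
    have h1 := hm u t hu.1 (hu.2.trans hRL) ht1 ht2
    have habs : |u| ≤ R := by rw [abs_of_nonneg hu.1]; exact hu.2
    have hg0 := gR_nonneg hR habs
    have hg1 := gR_le hR habs
    set P := H370.PP (fun n => (ArithmeticFunction.vonMangoldt n : ℂ)) u t with hP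
    have hE : EE u = gR R u * ((1 / Real.sqrt (2 * Real.pi)) *
        (L * Real.exp (-u ^ 2 / 2) - (cexp (-(I * u * t)) * P).re)) := by
      rw [hEE]
      simp only
      rw [FN_tsum, ← hP, Complex.re_ofReal_mul]
      ring
    have hdiff : DD U1 U2 t u - ((1 / Real.sqrt (2 * Real.pi) : ℝ) : ℂ) *
        (((L * Real.exp (-u ^ 2 / 2) : ℝ) : ℂ) - cexp (-(I * u * t)) * P) =
        cexp (-(I * u * t)) * (H370.AA riemannZeta U1 U2 u t -
          ((1 / Real.sqrt (2 * Real.pi) : ℝ) : ℂ) * ((L : ℂ) * cexp (I * u * t) *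
              (Real.exp (-u ^ 2 / 2) : ℂ) - P)) := by
      unfold DD
      have : cexp (-(I * u * t)) * cexp (I * u * t) = 1 := by
        rw [← Complex.exp_add]; simp
      push_cast
      linear_combination ((1 / (Real.sqrt (2 * Real.pi) : ℂ)) * L * cexp (-(u : ℂ) ^ 2 / 2)) * this
    have hn1 : ‖cexp (-(I * (u : ℂ) * t))‖ = 1 := by
      rw [show -(I * (u : ℂ) * t) = ((-(u * t) : ℝ) : ℂ) * I by push_cast; ring,
        Complex.norm_exp_ofReal_mul_I]
    have hre : |(DD U1 U2 t u).re - (1 / Real.sqrt (2 * Real.pi)) *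
        (L * Real.exp (-u ^ 2 / 2) - (cexp (-(I * u * t)) * P).re)| ≤ C * Real.exp (-u) := by
      have h2 : (DD U1 U2 t u).re - (1 / Real.sqrt (2 * Real.pi)) *
        (L * Real.exp (-u ^ 2 / 2) - (cexp (-(I * u * t)) * P).re) =
        (DD U1 U2 t u - ((1 / Real.sqrt (2 * Real.pi) : ℝ) : ℂ) *
        (((L * Real.exp (-u ^ 2 / 2) : ℝ) : ℂ) - cexp (-(I * u * t)) * P)).re := by
        rw [Complex.sub_re, Complex.re_ofReal_mul, Complex.sub_re, Complex.ofReal_re]
      rw [h2]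
      refine (Complex.abs_re_le_norm _).trans ?_
      rw [hdiff, norm_mul, hn1, one_mul]
      exact h1
    rw [hE, Real.norm_eq_abs]
    have h3 : gR R u * (2 * (DD U1 U2 t u).re) - 2 * (gR R u * ((1 / Real.sqrt (2 * Real.pi)) *
        (L * Real.exp (-u ^ 2 / 2) - (cexp (-(I * u * t)) * P).re))) =
        2 * gR R u * ((DD U1 U2 t u).re - (1 / Real.sqrt (2 * Real.pi)) *
        (L * Real.exp (-u ^ 2 / 2) - (cexp (-(I * u * t)) * P).re)) := by ring
    rw [h3, abs_mul, abs_of_nonneg (by positivity)]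
    calc _ ≤ 2 * (1 / (2 * Real.pi)) * (C * Real.exp (-u)) :=
          mul_le_mul (by linarith) hre (abs_nonneg _) (by positivity)
      _ = _ := by field_simp
  have hfin : ‖∫ u in (0 : ℝ)..R, (gR R u * (2 * (DD U1 U2 t u).re) - 2 * EE u)‖ ≤
      ∫ u in (0 : ℝ)..R, C / Real.pi * Real.exp (-u) := by
    refine intervalIntegral.norm_integral_le_of_norm_le hR.le
      (Eventually.of_forall fun u hu => hpt u ⟨hu.1.le, hu.2⟩) ?_
    apply Continuous.intervalIntegrable
    fun_prop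
  rw [Real.norm_eq_abs] at hfin
  refine hfin.trans ?_
  rw [intervalIntegral.integral_const_mul]
  calc C / Real.pi * ∫ u in (0 : ℝ)..R, Real.exp (-u) ≤ C / Real.pi * 1 :=
        mul_le_mul_of_nonneg_left exp_int (by positivity)
    _ ≤ C := by
        rw [mul_one, div_le_iff₀ Real.pi_pos]
        nlinarith [Real.pi_gt_three]

end Pool.Agent.H203.ME

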