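import Pool.Agent.H203.ME.Defs

set_option autoImplicit false

open Complex Filter Topology Set MeasureTheory

namespace Pool.Agent.H203.ME

namespace L1AL

/-! ### the kernel on the real line -/

/-- the entire factor -/
noncomputable def KK (R : ℝ) (z : ℂ) : ℂ := ∫ u in (-R)..R, (gR R u : ℂ) * cexp (I * u * z)

theorem WR_eq (R : ℝ) (z : ℂ) : WR R z = KK R z * cexp (-z ^ 2 / 2) := rfl

theorem gR_neg (R u : ℝ) : gR R (-u) = gR R u := by
  simp [gR, neg_div]

theorem cont_gR (R : ℝ) : Continuous (gR R) := by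
  unfold gR; fun_prop

theorem KK_neg (R : ℝ) (z : ℂ) : KK R (-z) = KK R z := by
  unfold KK
  have h := intervalIntegral.integral_comp_neg (a := -R) (b := R)
    (fun u : ℝ => (gR R u : ℂ) * cexp (I * u * (z)))
  rw [neg_neg] at h
  rw [← h]
  refine intervalIntegral.integral_congr fun u _ => ?_
  simp only [gR_neg, ofReal_neg]
  ring_nf

theorem KK_cont (R : ℝ) : Continuous (KK R) := by
  unfold KK
  refine intervalIntegral.continuous_parametric_intervalIntegral_of_continuous' ?_ _ _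
  have h1 : Continuous fun p : ℂ × ℝ => (gR R p.2 : ℂ) :=
    continuous_ofReal.comp ((cont_gR R).comp continuous_snd)
  have h2 : Continuous fun p : ℂ × ℝ => cexp (I * (p.2 : ℂ) * p.1) := by fun_prop
  exact h1.mul h2

theorem WR_cont (R : ℝ) : Continuous (WR R) := by
  have : WR R = fun z => KK R z * cexp (-z ^ 2 / 2) := rfl
  rw [this]
  exact (KK_cont R).mul (by fun_prop)

theorem KK_conj (R x : ℝ) : (starRingEnd ℂ) (KK R (x : ℂ)) = KK R (x : ℂ) := by
  have h : (starRingEnd ℂ) (KK R (x : ℂ)) = KK R (-(x : ℂ)) := by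
    unfold KK
    have : (starRingEnd ℂ) (∫ u in (-R)..R, (gR R u : ℂ) * cexp (I * u * (x : ℂ))) =
        ∫ u in (-R)..R, (starRingEnd ℂ) ((gR R u : ℂ) * cexp (I * u * (x : ℂ))) := by
      simp only [intervalIntegral, map_sub, ← integral_conj]
    rw [this]
    refine intervalIntegral.integral_congr fun u _ => ?_
    simp only [map_mul, conj_ofReal, ← Complex.exp_conj, conj_I]
    ring_nf
  rw [h, KK_neg]

theorem WR_conj (R x : ℝ) : (starRingEnd ℂ) (WR R (x : ℂ)) = WR R (x : ℂ) := by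
  have h : (starRingEnd ℂ) (-(x : ℂ) ^ 2 / 2) = -(x : ℂ) ^ 2 / 2 := by
    rw [map_div₀, map_neg, map_pow, conj_ofReal, map_ofNat]
  rw [WR_eq, map_mul, KK_conj, ← Complex.exp_conj, h]

theorem WR_real (R x : ℝ) : ((WR R (x : ℂ)).re : ℂ) = WR R (x : ℂ) :=
  conj_eq_iff_re.1 (WR_conj R x)

theorem WR_neg (R x : ℝ) : WR R ((-x : ℝ) : ℂ) = WR R (x : ℂ) := by
  rw [WR_eq, WR_eq, ofReal_neg, KK_neg]
  simp

theorem enorm_r (r : ℝ) : ‖(r : ℂ)‖ₑ = ‖r‖ₑ := by
  rw [← ofReal_norm, ← ofReal_norm, norm_real]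

/-! ### Minkowski for differences -/

theorem G1 (G : ℝ → ℝ) (hG : ContDiff ℝ 1 G) (h : ℝ) :
    ∫⁻ x, ‖G x - G (x - h)‖ₑ ≤ ‖h‖ₑ * ∫⁻ x, ‖deriv G x‖ₑ := by
  have hd : ∀ x, HasDerivAt G (deriv G x) x := fun x =>
    (hG.differentiable (by norm_num) x).hasDerivAt
  have hc : Continuous (deriv G) := hG.continuous_deriv (by norm_num)
  have e1 : ∀ x, G x - G (x - h) = ∫ v in (0 : ℝ)..h, deriv G (x - v) := by
    intro x
    have := intervalIntegral.integral_eq_sub_of_hasDerivAt (a := 0) (b := h)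
      (f := fun v => -G (x - v)) (f' := fun v => deriv G (x - v)) (fun v _ => by
        have h1 := HasDerivAt.comp_const_sub x v (hd (x - v))
        have h2 : HasDerivAt (fun v => -G (x - v)) (-(-(deriv G (x - v)))) v := h1.neg
        exact h2.congr_deriv (by ring))
      ((hc.comp (by fun_prop)).intervalIntegrable _ _)
    rw [this]
    simp; ring
  have e2 : ∀ x, ‖G x - G (x - h)‖ₑ ≤ ∫⁻ v in uIoc (0 : ℝ) h, ‖deriv G (x - v)‖ₑ := by
    intro x
    rw [e1, intervalIntegral.intervalIntegral_eq_integral_uIoc]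
    have : ‖(if (0 : ℝ) ≤ h then (1 : ℝ) else -1) • ∫ v in uIoc 0 h, deriv G (x - v)‖ₑ =
        ‖∫ v in uIoc 0 h, deriv G (x - v)‖ₑ := by
      split_ifs <;> simp
    rw [this]
    exact enorm_integral_le_lintegral_enorm _
  calc ∫⁻ x, ‖G x - G (x - h)‖ₑ ≤ ∫⁻ x, ∫⁻ v in uIoc (0 : ℝ) h, ‖deriv G (x - v)‖ₑ :=
        lintegral_mono e2
    _ = ∫⁻ v in uIoc (0 : ℝ) h, ∫⁻ x, ‖deriv G (x - v)‖ₑ := by
        refine lintegral_lintegral_swap ?_
        exact (Continuous.enorm (hc.comp (by fun_prop))).aemeasurable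
    _ = ∫⁻ v in uIoc (0 : ℝ) h, ∫⁻ x, ‖deriv G x‖ₑ := by
        refine lintegral_congr fun v => ?_
        exact lintegral_sub_right_eq_self (fun x => ‖deriv G x‖ₑ) v
    _ = ‖h‖ₑ * ∫⁻ x, ‖deriv G x‖ₑ := by
        rw [lintegral_const, Measure.restrict_apply_univ, mul_comm, uIoc, Real.volume_Ioc]
        congr 1
        rw [Real.enorm_eq_ofReal_abs, max_sub_min_eq_abs, sub_zero]

theorem G2 (F : ℝ → ℝ) (hF : ContDiff ℝ 2 F) (w : ℝ) :
    ∫⁻ x, ‖F (x - w) - F x + w * deriv F x‖ₑ ≤ ‖w‖ₑ ^ 2 * ∫⁻ x, ‖deriv (deriv F) x‖ₑ := by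
  have hF1 : ContDiff ℝ 1 (deriv F) := by
    have := (contDiff_succ_iff_deriv (n := 1) (𝕜 := ℝ) (f := F)).1 (hF.of_le one_add_one_eq_two.le)
    exact this.2.2
  have hd : ∀ x, HasDerivAt F (deriv F x) x := fun x =>
    (hF.differentiable (by norm_num) x).hasDerivAt
  have hc : Continuous (deriv F) := hF1.continuous
  have e1 : ∀ x, F (x - w) - F x + w * deriv F x =
      ∫ v in (0 : ℝ)..w, (deriv F x - deriv F (x - v)) := by
    intro x
    have := intervalIntegral.integral_eq_sub_of_hasDerivAt (a := 0) (b := w)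
      (f := fun v => F (x - v) + v * deriv F x) (f' := fun v => deriv F x - deriv F (x - v))
      (fun v _ => by
        have h1 := HasDerivAt.comp_const_sub x v (hd (x - v))
        have h2 : HasDerivAt (fun v : ℝ => v * deriv F x) (1 * deriv F x) v :=
          (hasDerivAt_id v).mul_const (deriv F x)
        exact (h1.add h2).congr_deriv (by ring))
      ((continuous_const.sub (hc.comp (by fun_prop))).intervalIntegrable _ _)
    rw [this]
    simp; ring
  have e2 : ∀ x, ‖F (x - w) - F x + w * deriv F x‖ₑ ≤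
      ∫⁻ v in uIoc (0 : ℝ) w, ‖deriv F x - deriv F (x - v)‖ₑ := by
    intro x
    rw [e1, intervalIntegral.intervalIntegral_eq_integral_uIoc]
    have : ‖(if (0 : ℝ) ≤ w then (1 : ℝ) else -1) • ∫ v in uIoc 0 w,
        (deriv F x - deriv F (x - v))‖ₑ =
        ‖∫ v in uIoc 0 w, (deriv F x - deriv F (x - v))‖ₑ := by
      split_ifs <;> simp
    rw [this]
    exact enorm_integral_le_lintegral_enorm _
  calc ∫⁻ x, ‖F (x - w) - F x + w * deriv F x‖ₑ
      ≤ ∫⁻ x, ∫⁻ v in uIoc (0 : ℝ) w, ‖deriv F x - deriv F (x - v)‖ₑ :=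
        lintegral_mono e2
    _ = ∫⁻ v in uIoc (0 : ℝ) w, ∫⁻ x, ‖deriv F x - deriv F (x - v)‖ₑ := by
        refine lintegral_lintegral_swap ?_
        exact (Continuous.enorm ((hc.comp continuous_fst).sub
          (hc.comp (by fun_prop)))).aemeasurable
    _ ≤ ∫⁻ v in uIoc (0 : ℝ) w, ‖w‖ₑ * ∫⁻ x, ‖deriv (deriv F) x‖ₑ := by
        refine setLIntegral_mono' measurableSet_uIoc fun v hv => ?_
        refine (G1 (deriv F) hF1 v).trans ?_
        gcongr
        rw [Real.enorm_eq_ofReal_abs, Real.enorm_eq_ofReal_abs]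
        refine ENNReal.ofReal_le_ofReal ?_
        rcases le_total 0 w with h | h
        · rw [uIoc_of_le h] at hv
          rw [abs_of_pos hv.1, abs_of_nonneg h]; exact hv.2
        · rw [uIoc_of_ge h] at hv
          rw [abs_of_nonpos hv.2, abs_of_nonpos h]; linarith [hv.1]
    _ = ‖w‖ₑ ^ 2 * ∫⁻ x, ‖deriv (deriv F) x‖ₑ := by
        rw [lintegral_const, Measure.restrict_apply_univ, mul_comm, uIoc, Real.volume_Ioc]
        rw [max_sub_min_eq_abs, sub_zero, ← Real.enorm_eq_ofReal_abs, sq, mul_assoc]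

/-! ### moments of the kernel -/

theorem ker_bound {C : ℝ} (h : ∀ R x y : ℝ, 1 ≤ R →
    ‖WR R ((x : ℂ) + (y : ℂ) * I)‖ ≤ C * R * Real.exp (R * |y|) * Real.exp (y ^ 2 / 2) /
      (1 + (R * x) ^ 4)) (R x : ℝ) (hR : 1 ≤ R) :
    ‖WR R (x : ℂ)‖ ≤ C * R / (1 + (R * x) ^ 4) := by
  have := h R x 0 hR
  simpa using this

theorem int_base (R : ℝ) (hR : 1 ≤ R) : Integrable (fun w : ℝ => (1 + (R * w) ^ 2)⁻¹) := by
  have := integrable_inv_one_add_sq.comp_mul_left' (R := R) (by linarith : R ≠ 0)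
  exact this

theorem int_base_eq (R : ℝ) (hR : 1 ≤ R) : ∫ w : ℝ, (1 + (R * w) ^ 2)⁻¹ = Real.pi / R := by
  rw [Measure.integral_comp_mul_left (fun x : ℝ => (1 + x ^ 2)⁻¹) R,
    integral_univ_inv_one_add_sq, abs_of_pos (by positivity), smul_eq_mul]
  field_simp

theorem frac0 (t : ℝ) : 1 / (1 + t ^ 4) ≤ 2 * (1 + t ^ 2)⁻¹ := by
  rw [← div_eq_mul_inv, div_le_div_iff₀ (by positivity) (by positivity)]
  nlinarith [sq_nonneg (t ^ 2 - 1), sq_nonneg t]

theorem frac1 (t : ℝ) : |t| / (1 + t ^ 4) ≤ 2 * (1 + t ^ 2)⁻¹ := by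
  rw [← div_eq_mul_inv, div_le_div_iff₀ (by positivity) (by positivity)]
  have h : t ^ 2 = |t| ^ 2 := (sq_abs t).symm
  have h4 : t ^ 4 = |t| ^ 4 := by
    have : t ^ 4 = (t ^ 2) ^ 2 := by ring
    rw [this, h]; ring
  rw [h, h4]
  have h0 := abs_nonneg t
  generalize |t| = a at h0
  nlinarith [sq_nonneg (a ^ 2 - 1), sq_nonneg (a ^ 2 - a), sq_nonneg (a - 1), sq_nonneg a]

theorem frac2 (t : ℝ) : t ^ 2 / (1 + t ^ 4) ≤ 2 * (1 + t ^ 2)⁻¹ := by
  rw [← div_eq_mul_inv, div_le_div_iff₀ (by positivity) (by positivity)]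
  nlinarith [sq_nonneg (t ^ 2 - 1), sq_nonneg t]

section
variable {C : ℝ} (hC : 0 < C) (hk : ∀ R x : ℝ, 1 ≤ R → ‖WR R (x : ℂ)‖ ≤ C * R / (1 + (R * x) ^ 4))
include hC hk

theorem WR_le (R w : ℝ) (hR : 1 ≤ R) : ‖WR R (w : ℂ)‖ ≤ 2 * C * R * (1 + (R * w) ^ 2)⁻¹ := by
  refine (hk R w hR).trans ?_
  have := mul_le_mul_of_nonneg_left (frac0 (R * w)) (by positivity : 0 ≤ C * R)
  calc C * R / (1 + (R * w) ^ 4) = C * R * (1 / (1 + (R * w) ^ 4)) := by ring
    _ ≤ C * R * (2 * (1 + (R * w) ^ 2)⁻¹) := this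
    _ = _ := by ring

theorem WR_le1 (R w : ℝ) (hR : 1 ≤ R) :
    ‖(w : ℂ) * WR R (w : ℂ)‖ ≤ 2 * C * (1 + (R * w) ^ 2)⁻¹ := by
  rw [norm_mul, norm_real, Real.norm_eq_abs]
  have h1 := mul_le_mul_of_nonneg_left (hk R w hR) (abs_nonneg w)
  refine h1.trans ?_
  have := mul_le_mul_of_nonneg_left (frac1 (R * w)) (by positivity : 0 ≤ C)
  calc |w| * (C * R / (1 + (R * w) ^ 4)) = C * (|R * w| / (1 + (R * w) ^ 4)) := by
        rw [abs_mul, abs_of_pos (by linarith : 0 < R)]; ring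
    _ ≤ C * (2 * (1 + (R * w) ^ 2)⁻¹) := this
    _ = _ := by ring

theorem WR_le2 (R w : ℝ) (hR : 1 ≤ R) :
    w ^ 2 * ‖WR R (w : ℂ)‖ ≤ 2 * C / R * (1 + (R * w) ^ 2)⁻¹ := by
  have h1 := mul_le_mul_of_nonneg_left (hk R w hR) (sq_nonneg w)
  refine h1.trans ?_
  have := mul_le_mul_of_nonneg_left (frac2 (R * w)) (by positivity : 0 ≤ C / R)
  calc w ^ 2 * (C * R / (1 + (R * w) ^ 4)) = C / R * ((R * w) ^ 2 / (1 + (R * w) ^ 4)) := by
        field_simp
    _ ≤ C / R * (2 * (1 + (R * w) ^ 2)⁻¹) := this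
    _ = _ := by ring

theorem int_W (R : ℝ) (hR : 1 ≤ R) : Integrable (fun w : ℝ => WR R (w : ℂ)) :=
  ((int_base R hR).const_mul (2 * C * R)).mono'
    ((WR_cont R).comp continuous_ofReal).aestronglyMeasurable
    (Eventually.of_forall fun w => WR_le hC hk R w hR)

theorem int_wW (R : ℝ) (hR : 1 ≤ R) : Integrable (fun w : ℝ => (w : ℂ) * WR R (w : ℂ)) :=
  ((int_base R hR).const_mul (2 * C)).mono'
    (continuous_ofReal.mul ((WR_cont R).comp continuous_ofReal)).aestronglyMeasurable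
    (Eventually.of_forall fun w => WR_le1 hC hk R w hR)

theorem lint2 (R : ℝ) (hR : 1 ≤ R) :
    ∫⁻ w : ℝ, ‖w‖ₑ ^ 2 * ‖WR R (w : ℂ)‖ₑ ≤ ENNReal.ofReal (2 * Real.pi * C / R ^ 2) := by
  have h1 : ∀ w : ℝ, ‖w‖ₑ ^ 2 * ‖WR R (w : ℂ)‖ₑ ≤
      ENNReal.ofReal (2 * C / R * (1 + (R * w) ^ 2)⁻¹) := by
    intro w
    have e : ‖w‖ₑ ^ 2 * ‖WR R (w : ℂ)‖ₑ = ENNReal.ofReal (w ^ 2 * ‖WR R (w : ℂ)‖) := by
      rw [ENNReal.ofReal_mul (sq_nonneg w), ofReal_norm, ← sq_abs w,
        ENNReal.ofReal_pow (abs_nonneg w), Real.enorm_eq_ofReal_abs]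
    rw [e]
    exact ENNReal.ofReal_le_ofReal (WR_le2 hC hk R w hR)
  refine (lintegral_mono h1).trans ?_
  rw [← ofReal_integral_eq_lintegral_ofReal ((int_base R hR).const_mul _)
    (Eventually.of_forall fun w => by positivity)]
  refine ENNReal.ofReal_le_ofReal (le_of_eq ?_)
  rw [integral_const_mul, int_base_eq R hR]
  field_simp

theorem int_odd (R : ℝ) : ∫ w : ℝ, (w : ℂ) * WR R (w : ℂ) = 0 := by
  have h := integral_neg_eq_self (fun w : ℝ => (w : ℂ) * WR R (w : ℂ)) volume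
  have h2 : ∀ w : ℝ, ((-w : ℝ) : ℂ) * WR R ((-w : ℝ) : ℂ) = -((w : ℂ) * WR R (w : ℂ)) := by
    intro w
    rw [WR_neg]; push_cast; ring
  simp only [h2, integral_neg] at h
  have := neg_eq_self.1 h
  exact this

theorem int_W_eq (R : ℝ) : ∫ w : ℝ, WR R (w : ℂ) = (om R : ℂ) := by
  unfold om
  rw [← integral_complex_ofReal]
  refine integral_congr_ae (Eventually.of_forall fun w => ?_)
  exact (WR_real R w).symm

end

end L1AL

open L1AL in
theorem t_L1A (h1 : S_KER) (h2 : S_OM) : S_L1A := by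
  obtain ⟨C1, hC1, hker⟩ := h1
  obtain ⟨C2, hC2, hom⟩ := h2
  have hk : ∀ R x : ℝ, 1 ≤ R → ‖WR R (x : ℂ)‖ ≤ C1 * R / (1 + (R * x) ^ 4) :=
    fun R x hR => ker_bound hker R x hR
  refine ⟨2 * Real.pi * C1 + C2, by positivity, fun F hF R hR => ?_⟩
  have hR0 : 0 < R := by linarith
  have hFc : Continuous F := hF.cd.continuous
  have hsupp : HasCompactSupport F := by
    refine HasCompactSupport.intro (isCompact_closedBall (0 : ℝ) 1) fun x hx => hF.supp x ?_
    simp only [Metric.mem_closedBall, dist_zero_right, Real.norm_eq_abs, not_le] at hx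
    exact hx.le
  have hF1 : ContDiff ℝ 1 (deriv F) := by
    have := (contDiff_succ_iff_deriv (n := 1) (𝕜 := ℝ) (f := F)).1 (hF.cd.of_le one_add_one_eq_two.le)
    exact this.2.2
  have hc1 : Continuous (deriv F) := hF1.continuous
  have hc2 : Continuous (deriv (deriv F)) := hF1.continuous_deriv (by norm_num)
  have iF : Integrable F := hFc.integrable_of_hasCompactSupport hsupp
  have iF2 : Integrable (deriv (deriv F)) :=
    hc2.integrable_of_hasCompactSupport (hsupp.deriv.deriv)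
  have iW := int_W hC1 hk R hR
  have iwW := int_wW hC1 hk R hR
  -- the formula
  have hb : ∃ B, ∀ x, ‖F x‖ ≤ B := hsupp.exists_bound_of_continuous hFc
  obtain ⟨B, hB⟩ := hb
  have iFW : ∀ x : ℝ, Integrable fun w : ℝ => (F (x - w) : ℂ) * WR R (w : ℂ) := by
    intro x
    refine iW.bdd_mul (c := B) ?_ ?_
    · exact (continuous_ofReal.comp (hFc.comp (by fun_prop))).aestronglyMeasurable
    · exact Eventually.of_forall fun w => by
        simpa using hB (x - w)
  have eKF : ∀ x : ℝ, KF F R (x : ℂ) = ∫ w : ℝ, (F (x - w) : ℂ) * WR R (w : ℂ) := by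
    intro x
    rw [← integral_sub_left_eq_self (fun w : ℝ => (F (x - w) : ℂ) * WR R (w : ℂ)) volume x]
    unfold KF
    refine integral_congr_ae (Eventually.of_forall fun s => ?_)
    simp only [sub_sub_cancel, ofReal_sub]
  have key : ∀ x : ℝ, KF F R (x : ℂ) - F x =
      (∫ w : ℝ, ((F (x - w) - F x + w * deriv F x : ℝ) : ℂ) * WR R (w : ℂ)) +
        ((om R - 1 : ℝ) : ℂ) * (F x : ℂ) := by
    intro x
    have e1 : (∫ w : ℝ, ((F (x - w) - F x + w * deriv F x : ℝ) : ℂ) * WR R (w : ℂ)) =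
        (∫ w : ℝ, (F (x - w) : ℂ) * WR R (w : ℂ)) - (F x : ℂ) * (om R : ℂ) := by
      have e2 : ∀ w : ℝ, ((F (x - w) - F x + w * deriv F x : ℝ) : ℂ) * WR R (w : ℂ) =
          ((F (x - w) : ℂ) * WR R (w : ℂ) - (F x : ℂ) * WR R (w : ℂ)) +
            ((deriv F x : ℝ) : ℂ) * ((w : ℂ) * WR R (w : ℂ)) := by
        intro w; push_cast; ring
      simp only [e2]
      have r1 : ∫ w : ℝ, (((F (x - w) : ℂ) * WR R (w : ℂ) - (F x : ℂ) * WR R (w : ℂ)) +
            ((deriv F x : ℝ) : ℂ) * ((w : ℂ) * WR R (w : ℂ))) =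
          (∫ w : ℝ, ((F (x - w) : ℂ) * WR R (w : ℂ) - (F x : ℂ) * WR R (w : ℂ))) +
            ∫ w : ℝ, ((deriv F x : ℝ) : ℂ) * ((w : ℂ) * WR R (w : ℂ)) :=
        integral_add ((iFW x).sub (iW.const_mul _)) (iwW.const_mul _)
      rw [r1, integral_sub (iFW x) (iW.const_mul _), integral_const_mul, integral_const_mul,
        int_odd hC1 hk R, int_W_eq hC1 hk R, mul_zero, add_zero]
    rw [e1, eKF]
    push_cast; ring
  -- the bound
  set A : ENNReal := ∫⁻ x, ‖deriv (deriv F) x‖ₑ with hA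
  have hmeas : Continuous fun p : ℝ × ℝ =>
      ((F (p.1 - p.2) - F p.1 + p.2 * deriv F p.1 : ℝ) : ℂ) * WR R (p.2 : ℂ) := by
    refine Continuous.mul (continuous_ofReal.comp ?_) ((WR_cont R).comp (by fun_prop))
    exact ((hFc.comp (by fun_prop)).sub (hFc.comp continuous_fst)).add
      (continuous_snd.mul (hc1.comp continuous_fst))
  have hbound : ∫⁻ x : ℝ, ‖KF F R (x : ℂ) - F x‖ₑ ≤
      ENNReal.ofReal ((2 * Real.pi * C1 + C2) / R ^ 2 *
        ((∫ x : ℝ, |F x|) + ∫ x : ℝ, |deriv (deriv F) x|)) := by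
    have s1 : ∀ x : ℝ, ‖KF F R (x : ℂ) - F x‖ₑ ≤
        (∫⁻ w : ℝ, ‖F (x - w) - F x + w * deriv F x‖ₑ * ‖WR R (w : ℂ)‖ₑ) +
          ‖om R - 1‖ₑ * ‖F x‖ₑ := by
      intro x
      rw [key x]
      refine (enorm_add_le _ _).trans (add_le_add ?_ ?_)
      · refine (enorm_integral_le_lintegral_enorm _).trans (lintegral_mono fun w => ?_)
        rw [enorm_mul, enorm_r]
      · rw [enorm_mul, enorm_r, enorm_r]
    refine (lintegral_mono s1).trans ?_
    have hm2 : Measurable fun x : ℝ => ‖om R - 1‖ₑ * ‖F x‖ₑ :=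
      (hFc.enorm.measurable).const_mul _
    rw [lintegral_add_right _ hm2, lintegral_lintegral_swap, lintegral_const_mul _
      hFc.enorm.measurable]
    · have s2 : ∫⁻ w : ℝ, ∫⁻ x : ℝ, ‖F (x - w) - F x + w * deriv F x‖ₑ * ‖WR R (w : ℂ)‖ₑ ≤
          A * ENNReal.ofReal (2 * Real.pi * C1 / R ^ 2) := by
        calc ∫⁻ w : ℝ, ∫⁻ x : ℝ, ‖F (x - w) - F x + w * deriv F x‖ₑ * ‖WR R (w : ℂ)‖ₑ
            ≤ ∫⁻ w : ℝ, A * (‖w‖ₑ ^ 2 * ‖WR R (w : ℂ)‖ₑ) := by
              refine lintegral_mono fun w => ?_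
              simp only []
              rw [lintegral_mul_const]
              · calc (∫⁻ x : ℝ, ‖F (x - w) - F x + w * deriv F x‖ₑ) * ‖WR R (w : ℂ)‖ₑ
                    ≤ (‖w‖ₑ ^ 2 * A) * ‖WR R (w : ℂ)‖ₑ := by
                      gcongr
                      exact G2 F hF.cd w
                  _ = A * (‖w‖ₑ ^ 2 * ‖WR R (w : ℂ)‖ₑ) := by ring
              · exact (Continuous.enorm (((hFc.comp (by fun_prop)).sub hFc).add
                  (continuous_const.mul hc1))).measurable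
          _ = A * ∫⁻ w : ℝ, (‖w‖ₑ ^ 2 * ‖WR R (w : ℂ)‖ₑ) := by
              rw [lintegral_const_mul]
              refine Measurable.mul (continuous_enorm.measurable.pow_const 2) ?_
              exact (Continuous.enorm ((WR_cont R).comp continuous_ofReal)).measurable
          _ ≤ A * ENNReal.ofReal (2 * Real.pi * C1 / R ^ 2) := by
              gcongr
              exact lint2 hC1 hk R hR
      have s3 : ‖om R - 1‖ₑ ≤ ENNReal.ofReal (C2 / R ^ 2) := by
        rw [Real.enorm_eq_ofReal_abs]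
        exact ENNReal.ofReal_le_ofReal (hom R hR)
      have hAe : A = ENNReal.ofReal (∫ x : ℝ, |deriv (deriv F) x|) := by
        rw [hA, ← ofReal_integral_norm_eq_lintegral_enorm iF2]
        rfl
      have hBe : ∫⁻ x : ℝ, ‖F x‖ₑ = ENNReal.ofReal (∫ x : ℝ, |F x|) := by
        rw [← ofReal_integral_norm_eq_lintegral_enorm iF]
        rfl
      have p1 : 0 ≤ ∫ x : ℝ, |F x| := integral_nonneg fun x => abs_nonneg _
      have p2 : 0 ≤ ∫ x : ℝ, |deriv (deriv F) x| := integral_nonneg fun x => abs_nonneg _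
      calc _ ≤ A * ENNReal.ofReal (2 * Real.pi * C1 / R ^ 2) +
            ENNReal.ofReal (C2 / R ^ 2) * ∫⁻ x : ℝ, ‖F x‖ₑ := by
              gcongr
        _ = ENNReal.ofReal ((∫ x : ℝ, |deriv (deriv F) x|) * (2 * Real.pi * C1 / R ^ 2) +
            (C2 / R ^ 2) * ∫ x : ℝ, |F x|) := by
              rw [hAe, hBe, ← ENNReal.ofReal_mul p2, ← ENNReal.ofReal_mul (by positivity),
                ← ENNReal.ofReal_add (by positivity) (by positivity)]
        _ ≤ _ := by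
              refine ENNReal.ofReal_le_ofReal ?_
              have q1 : 0 ≤ 2 * Real.pi * C1 / R ^ 2 * ∫ x : ℝ, |F x| := by positivity
              have q2 : 0 ≤ C2 / R ^ 2 * ∫ x : ℝ, |deriv (deriv F) x| := by positivity
              have e : (2 * Real.pi * C1 + C2) / R ^ 2 *
                  ((∫ x : ℝ, |F x|) + ∫ x : ℝ, |deriv (deriv F) x|) =
                  (∫ x : ℝ, |deriv (deriv F) x|) * (2 * Real.pi * C1 / R ^ 2) +
                  (C2 / R ^ 2) * (∫ x : ℝ, |F x|) + (2 * Real.pi * C1 / R ^ 2 * ∫ x : ℝ, |F x|) +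
                  (C2 / R ^ 2 * ∫ x : ℝ, |deriv (deriv F) x|) := by ring
              rw [e]; linarith
    · exact (Measurable.mul (Continuous.enorm (((hFc.comp (by fun_prop)).sub
        (hFc.comp continuous_fst)).add (continuous_snd.mul (hc1.comp continuous_fst)))).measurable
        (Continuous.enorm ((WR_cont R).comp (by fun_prop))).measurable).aemeasurable
  have hms : AEStronglyMeasurable (fun x : ℝ => KF F R (x : ℂ) - F x) volume := by
    have : (fun x : ℝ => KF F R (x : ℂ) - F x) = fun x : ℝ =>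
      (∫ w : ℝ, ((F (x - w) - F x + w * deriv F x : ℝ) : ℂ) * WR R (w : ℂ)) +
        ((om R - 1 : ℝ) : ℂ) * (F x : ℂ) := funext key
    rw [this]
    refine AEStronglyMeasurable.add ?_ ?_
    · exact (hmeas.stronglyMeasurable.integral_prod_right).aestronglyMeasurable
    · exact (continuous_const.mul (continuous_ofReal.comp hFc)).aestronglyMeasurable
  have hint : Integrable (fun x : ℝ => KF F R (x : ℂ) - F x) :=
    ⟨hms, lt_of_le_of_lt hbound ENNReal.ofReal_lt_top⟩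
  refine ⟨hint, ?_⟩
  have p1 : 0 ≤ ∫ x : ℝ, |F x| := integral_nonneg fun x => abs_nonneg _
  have p2 : 0 ≤ ∫ x : ℝ, |deriv (deriv F) x| := integral_nonneg fun x => abs_nonneg _
  have := ofReal_integral_norm_eq_lintegral_enorm hint
  rw [← this] at hbound
  exact (ENNReal.ofReal_le_ofReal_iff (by positivity)).1 hbound

end Pool.Agent.H203.ME
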