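import Pool.Agent.H203.ME.Defs

set_option autoImplicit false

open Complex Filter Topology Set MeasureTheory

namespace Pool.Agent.H203.ME

namespace L1BL

lemma gR_cont (R : ℝ) : Continuous (gR R) := by
  unfold gR
  fun_prop

/-- the Fourier factor is entire -/
lemma J_diff (R : ℝ) : Differentiable ℂ (fun z : ℂ => ∫ u in (-R)..R, (gR R u : ℂ) * cexp (I * u * z)) := by
  intro z₀
  have hcont : ∀ z : ℂ, Continuous fun u : ℝ => (gR R u : ℂ) * cexp (I * u * z) := by
    intro z
    have := gR_cont R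
    fun_prop
  have hcont' : ∀ z : ℂ, Continuous fun u : ℝ => (gR R u : ℂ) * (cexp (I * u * z) * (I * u)) := by
    intro z
    have := gR_cont R
    fun_prop
  have h := intervalIntegral.hasDerivAt_integral_of_dominated_loc_of_deriv_le
    (𝕜 := ℂ) (μ := volume) (a := -R) (b := R)
    (F := fun (z : ℂ) (u : ℝ) => (gR R u : ℂ) * cexp (I * u * z))
    (F' := fun (z : ℂ) (u : ℝ) => (gR R u : ℂ) * (cexp (I * u * z) * (I * u)))
    (x₀ := z₀) (s := Metric.ball z₀ 1)
    (bound := fun u : ℝ => |gR R u| * (Real.exp (|u| * (‖z₀‖ + 1)) * |u|))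
    (Metric.ball_mem_nhds z₀ one_pos)
    (Eventually.of_forall fun z => (hcont z).aestronglyMeasurable)
    ((hcont z₀).intervalIntegrable _ _)
    ((hcont' z₀).aestronglyMeasurable)
    (Eventually.of_forall fun u _ z hz => by
      rw [norm_mul, norm_mul, norm_mul, Complex.norm_real, Real.norm_eq_abs, Complex.norm_I, one_mul,
        Complex.norm_real, Real.norm_eq_abs, Complex.norm_exp]
      have hz' : ‖z‖ ≤ ‖z₀‖ + 1 := by
        have h1 : ‖z - z₀‖ < 1 := by simpa [dist_eq_norm] using hz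
        calc ‖z‖ = ‖z₀ + (z - z₀)‖ := by congr 1; ring
          _ ≤ ‖z₀‖ + ‖z - z₀‖ := norm_add_le _ _
          _ ≤ ‖z₀‖ + 1 := by linarith
      have h2 : (I * (u : ℂ) * z).re ≤ |u| * (‖z₀‖ + 1) := by
        calc (I * (u : ℂ) * z).re ≤ ‖I * (u : ℂ) * z‖ := Complex.re_le_norm _
          _ = |u| * ‖z‖ := by
            rw [norm_mul, norm_mul, Complex.norm_I, one_mul, Complex.norm_real, Real.norm_eq_abs]
          _ ≤ |u| * (‖z₀‖ + 1) := by gcongr
      gcongr)
    (Continuous.intervalIntegrable (by have := gR_cont R; fun_prop) _ _)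
    (Eventually.of_forall fun u _ z _ => by
      have h1 : HasDerivAt (fun z : ℂ => I * (u : ℂ) * z) (I * (u : ℂ)) z := by
        simpa using (hasDerivAt_id z).const_mul (I * (u : ℂ))
      exact (h1.cexp).const_mul _)
  exact h.2.differentiableAt

lemma WR_diff (R : ℝ) : Differentiable ℂ (WR R) := by
  unfold WR
  exact (J_diff R).mul (by fun_prop)

/-- continuous and supported in `[-1,1]` -/
structure Cc (f : ℝ → ℝ) : Prop where
  c : Continuous f
  supp : ∀ x : ℝ, 1 ≤ |x| → f x = 0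

lemma Cc.hcs {f : ℝ → ℝ} (h : Cc f) : HasCompactSupport f := by
  refine HasCompactSupport.intro (isCompact_Icc (a := (-1 : ℝ)) (b := 1)) fun x hx => h.supp x ?_
  by_contra hlt
  push Not at hlt
  exact hx ⟨by linarith [(abs_lt.1 hlt).1], by linarith [(abs_lt.1 hlt).2]⟩

lemma Cc.int {f : ℝ → ℝ} (h : Cc f) : Integrable f := h.c.integrable_of_hasCompactSupport h.hcs

lemma Cc.eq_interval {f : ℝ → ℝ} (h : Cc f) (g : ℝ → ℂ) :
    ∫ s : ℝ, (f s : ℂ) * g s = ∫ s in (-1 : ℝ)..1, (f s : ℂ) * g s := by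
  rw [intervalIntegral.integral_of_le (by norm_num)]
  symm
  apply setIntegral_eq_integral_of_forall_compl_eq_zero
  intro x hx
  have : f x = 0 := by
    apply h.supp
    by_contra hlt
    push Not at hlt
    exact hx ⟨(abs_lt.1 hlt).1, (abs_lt.1 hlt).2.le⟩
  simp [this]

lemma KF_eq {f : ℝ → ℝ} (h : Cc f) (R : ℝ) (z : ℂ) :
    KF f R z = ∫ s in (-1 : ℝ)..1, (f s : ℂ) * WR R (z - s) := h.eq_interval _

/-- derivative under the integral sign -/
lemma KF_hasDeriv0 {f : ℝ → ℝ} (h : Cc f) (R : ℝ) (z₀ : ℂ) :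
    HasDerivAt (KF f R) (∫ s in (-1 : ℝ)..1, (f s : ℂ) * deriv (WR R) (z₀ - s)) z₀ := by
  have hW := WR_diff R
  have hWc : Continuous (WR R) := hW.continuous
  have hWc' : Continuous (deriv (WR R)) := (hW.contDiff (n := 1)).continuous_deriv le_rfl
  have hcont : ∀ z : ℂ, Continuous fun s : ℝ => (f s : ℂ) * WR R (z - s) := by
    intro z
    have := h.c
    fun_prop
  have hcont' : ∀ z : ℂ, Continuous fun s : ℝ => (f s : ℂ) * deriv (WR R) (z - s) := by
    intro z
    have := h.c
    fun_prop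
  -- bound on a compact set
  obtain ⟨M, hM⟩ : ∃ M : ℝ, ∀ w ∈ Metric.closedBall (0 : ℂ) (‖z₀‖ + 2), ‖deriv (WR R) w‖ ≤ M :=
    (isCompact_closedBall _ _).exists_bound_of_continuousOn hWc'.continuousOn
  have hkf : KF f R = fun z => ∫ s in (-1 : ℝ)..1, (f s : ℂ) * WR R (z - s) := by
    funext z; exact KF_eq h R z
  rw [hkf]
  have h := intervalIntegral.hasDerivAt_integral_of_dominated_loc_of_deriv_le
    (𝕜 := ℂ) (μ := volume) (a := -1) (b := 1)
    (F := fun (z : ℂ) (s : ℝ) => (f s : ℂ) * WR R (z - s))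
    (F' := fun (z : ℂ) (s : ℝ) => (f s : ℂ) * deriv (WR R) (z - s))
    (x₀ := z₀) (s := Metric.ball z₀ 1)
    (bound := fun s : ℝ => |f s| * M)
    (Metric.ball_mem_nhds z₀ one_pos)
    (Eventually.of_forall fun z => (hcont z).aestronglyMeasurable)
    ((hcont z₀).intervalIntegrable _ _)
    ((hcont' z₀).aestronglyMeasurable)
    (Eventually.of_forall fun s hs z hz => by
      rw [norm_mul, Complex.norm_real, Real.norm_eq_abs]
      apply mul_le_mul_of_nonneg_left _ (abs_nonneg _)
      apply hM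
      have h1 : ‖z - z₀‖ < 1 := by simpa [dist_eq_norm] using hz
      have h2 : ‖(s : ℂ)‖ ≤ 1 := by
        rw [Complex.norm_real, Real.norm_eq_abs, abs_le]
        rw [uIoc_of_le (by norm_num)] at hs
        exact ⟨hs.1.le, hs.2⟩
      rw [mem_closedBall_zero_iff]
      calc ‖z - s‖ = ‖z₀ + (z - z₀) - s‖ := by congr 1; ring
        _ ≤ ‖z₀ + (z - z₀)‖ + ‖(s : ℂ)‖ := norm_sub_le _ _
        _ ≤ ‖z₀‖ + ‖z - z₀‖ + ‖(s : ℂ)‖ := by gcongr; exact norm_add_le _ _
        _ ≤ ‖z₀‖ + 2 := by linarith)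
    (Continuous.intervalIntegrable (by have := h.c; fun_prop) _ _)
    (Eventually.of_forall fun s _ z _ => by
      have h1 : HasDerivAt (fun z : ℂ => z - (s : ℂ)) 1 z := (hasDerivAt_id z).sub_const _
      have h2 : HasDerivAt (fun z : ℂ => WR R (z - s)) (deriv (WR R) (z - s)) z := by
        have := (hW (z - s)).hasDerivAt.comp z h1
        simpa [Function.comp_def] using this
      exact h2.const_mul _)
  exact h.2

/-- the derivative moved to the test function -/
lemma KF_hasDeriv {f : ℝ → ℝ} (h : Cc f) (hd : ContDiff ℝ 1 f) (R : ℝ) (z₀ : ℂ) :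
    HasDerivAt (KF f R) (KF (deriv f) R z₀) z₀ := by
  have hW := WR_diff R
  have hWc : Continuous (WR R) := hW.continuous
  have hWc' : Continuous (deriv (WR R)) := (hW.contDiff (n := 1)).continuous_deriv le_rfl
  have hfd : Differentiable ℝ f := hd.differentiable one_ne_zero
  have hfc' : Continuous (deriv f) := hd.continuous_deriv le_rfl
  have hcc' : Cc (deriv f) := by
    refine ⟨hfc', fun x hx => ?_⟩
    rcases hx.lt_or_eq with hx | hx
    · have : f =ᶠ[𝓝 x] fun _ => 0 := by
        have hop : IsOpen {x : ℝ | 1 < |x|} := isOpen_lt continuous_const continuous_abs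
        filter_upwards [hop.mem_nhds hx] with y hy
        exact h.supp y (le_of_lt hy)
      rw [this.deriv_eq]; simp
    · -- a boundary point: the derivative is a limit of zeros
      have hcl : IsClosed {x : ℝ | deriv f x = 0} := isClosed_eq hfc' continuous_const
      have hsub : {x : ℝ | 1 < |x|} ⊆ {x : ℝ | deriv f x = 0} := by
        intro y hy
        have : f =ᶠ[𝓝 y] fun _ => 0 := by
          have hop : IsOpen {x : ℝ | 1 < |x|} := isOpen_lt continuous_const continuous_abs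
          filter_upwards [hop.mem_nhds hy] with y hy
          exact h.supp y (le_of_lt hy)
        show deriv f y = 0
        rw [this.deriv_eq]; simp
      have hxcl : x ∈ closure {x : ℝ | 1 < |x|} := by
        rw [Metric.mem_closure_iff]
        intro ε hε
        refine ⟨x * (1 + ε / 2), ?_, ?_⟩
        · show 1 < |x * (1 + ε / 2)|
          rw [abs_mul, ← hx, one_mul, abs_of_pos (by linarith)]
          linarith
        · rw [Real.dist_eq]
          have : x - x * (1 + ε / 2) = -(x * (ε / 2)) := by ring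
          rw [this, abs_neg, abs_mul, ← hx, one_mul, abs_of_pos (by linarith)]
          linarith
      exact hcl.closure_subset_iff.2 hsub hxcl
  have h0 := KF_hasDeriv0 h R z₀
  have key : ∫ s in (-1 : ℝ)..1, (f s : ℂ) * deriv (WR R) (z₀ - s) = KF (deriv f) R z₀ := by
    rw [KF_eq hcc']
    have hu : ∀ x ∈ uIcc (-1 : ℝ) 1, HasDerivAt (fun s : ℝ => (f s : ℂ)) ((deriv f x : ℝ) : ℂ) x :=
      fun x _ => (hfd x).hasDerivAt.ofReal_comp
    have hv : ∀ x ∈ uIcc (-1 : ℝ) 1, HasDerivAt (fun s : ℝ => WR R (z₀ - s)) (-deriv (WR R) (z₀ - x)) x := by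
      intro x _
      have h1 : HasDerivAt (fun s : ℝ => z₀ - (s : ℂ)) (-1) x := by
        simpa using (Complex.ofRealCLM.hasDerivAt (x := x)).const_sub z₀
      have h2 := (hW (z₀ - x)).hasDerivAt.comp x h1
      simpa [mul_comm, Function.comp_def] using h2
    have hi := intervalIntegral.integral_mul_deriv_eq_deriv_mul hu hv
      (Continuous.intervalIntegrable (by fun_prop) _ _)
      (Continuous.intervalIntegrable (by fun_prop) _ _)
    have hf1 : f 1 = 0 := h.supp 1 (by simp)
    have hf2 : f (-1) = 0 := h.supp (-1) (by simp)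
    simp only [hf1, hf2, Complex.ofReal_zero, zero_mul, sub_zero, zero_sub, mul_neg,
      intervalIntegral.integral_neg] at hi
    exact neg_injective hi
  rw [← key]
  exact h0

lemma cc_deriv {f : ℝ → ℝ} (h : Cc f) (hd : ContDiff ℝ 1 f) : Cc (deriv f) := by
  have hfc' : Continuous (deriv f) := hd.continuous_deriv le_rfl
  refine ⟨hfc', fun x hx => ?_⟩
  have hcl : IsClosed {x : ℝ | deriv f x = 0} := isClosed_eq hfc' continuous_const
  have hsub : {x : ℝ | 1 < |x|} ⊆ {x : ℝ | deriv f x = 0} := by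
    intro y hy
    have : f =ᶠ[𝓝 y] fun _ => 0 := by
      have hop : IsOpen {x : ℝ | 1 < |x|} := isOpen_lt continuous_const continuous_abs
      filter_upwards [hop.mem_nhds hy] with y hy
      exact h.supp y (le_of_lt hy)
    show deriv f y = 0
    rw [this.deriv_eq]; simp
  have hxcl : x ∈ closure {x : ℝ | 1 < |x|} := by
    rw [Metric.mem_closure_iff]
    intro ε hε
    have hx0 : 0 < |x| := by linarith
    refine ⟨x * (1 + ε / (2 * |x|)), ?_, ?_⟩
    · show 1 < |x * (1 + ε / (2 * |x|))|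
      have h3 : 0 < ε / (2 * |x|) := by positivity
      rw [abs_mul, abs_of_pos (by linarith : 0 < 1 + ε / (2 * |x|))]
      have : |x| * (1 + ε / (2 * |x|)) = |x| + ε / 2 := by field_simp
      rw [this]
      linarith
    · rw [Real.dist_eq]
      have : x - x * (1 + ε / (2 * |x|)) = -(x * (ε / (2 * |x|))) := by ring
      have h3 : 0 < ε / (2 * |x|) := by positivity
      rw [this, abs_neg, abs_mul, abs_of_pos h3]
      have : |x| * (ε / (2 * |x|)) = ε / 2 := by field_simp
      rw [this]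
      linarith
  exact hcl.closure_subset_iff.2 hsub hxcl

/-- second difference -/
lemma second_diff {g g1 g2 : ℝ → ℂ} (h1 : ∀ v, HasDerivAt g (g1 v) v) (h2 : ∀ v, HasDerivAt g1 (g2 v) v)
    {M y : ℝ} (hy : 0 ≤ y) (hM : ∀ v, |v| ≤ y → ‖g2 v‖ ≤ M) :
    ‖g y + g (-y) - 2 * g 0‖ ≤ 2 * M * y ^ 2 := by
  have hM0 : 0 ≤ M := (norm_nonneg _).trans (hM 0 (by simpa using hy))
  -- first derivative of the symmetric part
  have hk1 : ∀ v, HasDerivAt (fun v => g1 v - g1 (-v)) (g2 v + g2 (-v)) v := by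
    intro v
    have hn : HasDerivAt (fun v : ℝ => -v) (-1) v := hasDerivAt_neg v
    have h3 : HasDerivAt (fun v : ℝ => g1 (-v)) (-g2 (-v)) v := by
      have := HasDerivAt.scomp v (h2 (-v)) hn
      simpa [Function.comp_def] using this
    have := (h2 v).sub h3
    simpa [Pi.sub_def] using this
  have hk : ∀ v, HasDerivAt (fun v => g v + g (-v) - 2 * g 0) (g1 v - g1 (-v)) v := by
    intro v
    have hn : HasDerivAt (fun v : ℝ => -v) (-1) v := hasDerivAt_neg v
    have h3 : HasDerivAt (fun v : ℝ => g (-v)) (-g1 (-v)) v := by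
      have := HasDerivAt.scomp v (h1 (-v)) hn
      simpa [Function.comp_def] using this
    have := ((h1 v).add h3).sub_const (2 * g 0)
    simpa [sub_eq_add_neg, Pi.add_def] using this
  have e1 : ∀ v ∈ Icc (0 : ℝ) y, ‖g1 v - g1 (-v)‖ ≤ 2 * M * y := by
    intro v hv
    have := (convex_Icc (0 : ℝ) y).norm_image_sub_le_of_norm_hasDerivWithin_le
      (f := fun v => g1 v - g1 (-v)) (f' := fun v => g2 v + g2 (-v)) (C := 2 * M)
      (fun x _ => (hk1 x).hasDerivWithinAt)
      (fun x hx => by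
        have hx' : |x| ≤ y := by rw [abs_of_nonneg hx.1]; exact hx.2
        calc ‖g2 x + g2 (-x)‖ ≤ ‖g2 x‖ + ‖g2 (-x)‖ := norm_add_le _ _
          _ ≤ M + M := add_le_add (hM x hx') (hM (-x) (by rwa [abs_neg]))
          _ = 2 * M := by ring)
      (left_mem_Icc.2 hy) hv
    simp only [neg_zero, sub_self, sub_zero, Real.norm_eq_abs] at this
    calc ‖g1 v - g1 (-v)‖ ≤ 2 * M * |v| := this
      _ ≤ 2 * M * y := by
        rw [abs_of_nonneg hv.1]
        exact mul_le_mul_of_nonneg_left hv.2 (by positivity)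
  have := (convex_Icc (0 : ℝ) y).norm_image_sub_le_of_norm_hasDerivWithin_le
      (f := fun v => g v + g (-v) - 2 * g 0) (f' := fun v => g1 v - g1 (-v)) (C := 2 * M * y)
      (fun x _ => (hk x).hasDerivWithinAt) e1
      (left_mem_Icc.2 hy) (right_mem_Icc.2 hy)
  have e2 : g 0 + g (-0) - 2 * g 0 = 0 := by simp; ring
  simp only [e2, sub_zero, Real.norm_eq_abs] at this
  calc _ ≤ 2 * M * y * |y| := this
    _ = 2 * M * y ^ 2 := by rw [abs_of_nonneg hy]; ring

/-- the weight `1 / (1 + (R u) ^ 4)` -/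
noncomputable def q4 (R u : ℝ) : ℝ := 1 / (1 + (R * u) ^ 4)

lemma q4_cont (R : ℝ) : Continuous (q4 R) := by
  unfold q4
  have : ∀ u : ℝ, 1 + (R * u) ^ 4 ≠ 0 := fun u => by positivity
  fun_prop (disch := assumption)

lemma q4_nonneg (R u : ℝ) : 0 ≤ q4 R u := by unfold q4; positivity

lemma q4_int1 : Integrable (q4 1) := by
  refine Integrable.mono' (integrable_inv_one_add_sq.const_mul 2) (q4_cont 1).aestronglyMeasurable
    (Eventually.of_forall fun u => ?_)
  rw [Real.norm_of_nonneg (q4_nonneg 1 u)]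
  unfold q4
  rw [one_mul, ← div_eq_mul_inv, div_le_div_iff₀ (by positivity) (by positivity)]
  nlinarith [sq_nonneg (u ^ 2 - 1), sq_nonneg (u ^ 2)]

lemma q4_int {R : ℝ} (hR : 1 ≤ R) : Integrable (q4 R) ∧ R * ∫ u, q4 R u = ∫ u, q4 1 u := by
  have h0 : R ≠ 0 := by linarith [hR] |> fun h : 0 < R => h.ne'
  have he : q4 R = fun u => q4 1 (R * u) := by funext u; unfold q4; rw [one_mul]
  constructor
  · rw [he]; exact q4_int1.comp_mul_left' h0
  · rw [he, Measure.integral_comp_mul_left, abs_of_pos (by positivity), smul_eq_mul, ← mul_assoc,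
      mul_inv_cancel₀ h0, one_mul]

end L1BL

open L1BL in
theorem t_L1B (hK : S_KER) : S_L1B := by
  obtain ⟨C, hC, hker⟩ := hK
  set c4 : ℝ := ∫ u, q4 1 u with hc4
  have hc40 : 0 ≤ c4 := integral_nonneg fun u => q4_nonneg 1 u
  refine ⟨2 * C * Real.exp 1 * (c4 + 1), by positivity, ?_⟩
  intro F hF R y hR hy
  have hF0 : Cc F := ⟨hF.cd.continuous, hF.supp⟩
  have hFd1 : ContDiff ℝ 1 F := hF.cd.of_le (by norm_num)
  have hF'd : ContDiff ℝ 1 (deriv F) := by
    have := hF.cd
    rw [show (2 : WithTop ℕ∞) = 1 + 1 by norm_num] at this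
    exact (contDiff_succ_iff_deriv.1 this).2.2
  have hF1 : Cc (deriv F) := cc_deriv hF0 hFd1
  have hF2 : Cc (deriv (deriv F)) := cc_deriv hF1 hF'd
  set f2 : ℝ → ℝ := deriv (deriv F) with hf2
  -- the majorant
  have hq := q4_int hR
  have hRpos : 0 < R := by linarith
  have hfa : Integrable (fun s => |f2 s|) := hF2.int.abs
  set Bx : ℝ → ℝ := fun x => ∫ s, |f2 s| * q4 R (x - s) with hBx
  have hconv : Bx = convolution (fun s => |f2 s|) (q4 R) (ContinuousLinearMap.mul ℝ ℝ) volume := by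
    funext x; rfl
  have hBint : Integrable Bx := by
    rw [hconv]
    exact hfa.integrable_convolution _ hq.1
  have hBI : ∫ x, Bx x = (∫ s, |f2 s|) * ∫ u, q4 R u := by
    rw [hconv, integral_convolution _ hfa hq.1]
    rfl
  set A : ℝ := C * R * Real.exp (R * |y|) * Real.exp 1 with hA
  have hA0 : 0 ≤ A := by positivity
  -- pointwise bound of the second derivative
  have hpt : ∀ x v : ℝ, |v| ≤ |y| → ‖KF f2 R ((x : ℂ) + (v : ℂ) * I)‖ ≤ A * Bx x := by
    intro x v hv
    unfold KF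
    rw [hBx]
    simp only
    rw [← integral_const_mul]
    refine norm_integral_le_of_norm_le ?_ (Eventually.of_forall fun s => ?_)
    · have hc : Continuous fun s => A * (|f2 s| * q4 R (x - s)) := by
        have := hF2.c
        have := q4_cont R
        fun_prop
      refine hc.integrable_of_hasCompactSupport ?_
      refine HasCompactSupport.intro (isCompact_Icc (a := (-1 : ℝ)) (b := 1)) fun s hs => ?_
      have : f2 s = 0 := by
        apply hF2.supp
        by_contra hlt
        push Not at hlt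
        exact hs ⟨(abs_lt.1 hlt).1.le, (abs_lt.1 hlt).2.le⟩
      simp [this]
    · rw [norm_mul, Complex.norm_real, Real.norm_eq_abs]
      have h1 := hker R (x - s) v hR
      have h2 : ((x : ℂ) + (v : ℂ) * I - s) = ((x - s : ℝ) : ℂ) + (v : ℂ) * I := by
        push_cast; ring
      rw [h2]
      have h3 : C * R * Real.exp (R * |v|) * Real.exp (v ^ 2 / 2) / (1 + (R * (x - s)) ^ 4) ≤
          A * q4 R (x - s) := by
        unfold q4
        rw [mul_one_div]
        apply div_le_div_of_nonneg_right _ (by positivity)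
        rw [hA]
        have h4 : v ^ 2 / 2 ≤ 1 := by
          have h5 : |v| ≤ 1 / 2 := hv.trans hy
          have h6 : v ^ 2 ≤ (1 / 2) ^ 2 := by
            rw [← sq_abs]; gcongr
          linarith
        gcongr
      calc |f2 s| * ‖WR R (((x - s : ℝ) : ℂ) + (v : ℂ) * I)‖ ≤ |f2 s| * (A * q4 R (x - s)) :=
            mul_le_mul_of_nonneg_left (h1.trans h3) (abs_nonneg _)
        _ = A * (|f2 s| * q4 R (x - s)) := by ring
  -- derivatives in the vertical direction
  have hder : ∀ (f : ℝ → ℝ), Cc f → ContDiff ℝ 1 f → ∀ x v : ℝ,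
      HasDerivAt (fun v : ℝ => KF f R ((x : ℂ) + (v : ℂ) * I)) (I * KF (deriv f) R ((x : ℂ) + (v : ℂ) * I)) v := by
    intro f hf hfd x v
    have h1 : HasDerivAt (fun v : ℝ => (x : ℂ) + (v : ℂ) * I) I v := by
      have := ((Complex.ofRealCLM.hasDerivAt (x := v)).mul_const I).const_add (x : ℂ)
      simpa using this
    have h2 := (KF_hasDeriv hf hfd R ((x : ℂ) + (v : ℂ) * I)).comp v h1
    simpa [mul_comm, Function.comp_def] using h2
  have hsec : ∀ x : ℝ, ‖KF F R ((x : ℂ) + (y : ℂ) * I) + KF F R ((x : ℂ) - (y : ℂ) * I) - 2 * KF F R x‖ ≤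
      2 * y ^ 2 * A * Bx x := by
    intro x
    have hsd : ∀ w : ℝ, 0 ≤ w → w = |y| → ‖KF F R ((x : ℂ) + (w : ℂ) * I) +
        KF F R ((x : ℂ) + ((-w : ℝ) : ℂ) * I) - 2 * KF F R ((x : ℂ) + ((0 : ℝ) : ℂ) * I)‖ ≤
        2 * (A * Bx x) * w ^ 2 := by
      intro w hw hwy
      refine second_diff (g := fun v : ℝ => KF F R ((x : ℂ) + (v : ℂ) * I))
        (g1 := fun v : ℝ => I * KF (deriv F) R ((x : ℂ) + (v : ℂ) * I))
        (g2 := fun v : ℝ => I * (I * KF f2 R ((x : ℂ) + (v : ℂ) * I)))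
        (hder F hF0 hFd1 x) (fun v => (hder (deriv F) hF1 hF'd x v).const_mul I) hw ?_
      intro v hv
      rw [norm_mul, norm_mul, Complex.norm_I, one_mul, one_mul]
      exact hpt x v (hv.trans hwy.le)
    have h0 := hsd |y| (abs_nonneg y) rfl
    rw [sq_abs] at h0
    have h00 : ((x : ℂ) + ((0 : ℝ) : ℂ) * I) = x := by simp
    rw [h00] at h0
    have h5 : ‖KF F R ((x : ℂ) + (y : ℂ) * I) + KF F R ((x : ℂ) - (y : ℂ) * I) - 2 * KF F R x‖ =
        ‖KF F R ((x : ℂ) + ((|y| : ℝ) : ℂ) * I) +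
        KF F R ((x : ℂ) + ((-|y| : ℝ) : ℂ) * I) - 2 * KF F R x‖ := by
      rcases abs_cases y with ⟨h, _⟩ | ⟨h, _⟩
      · rw [h]; congr 3; push_cast; congr 1; ring
      · rw [h]
        have e1 : (x : ℂ) + ((-y : ℝ) : ℂ) * I = (x : ℂ) - (y : ℂ) * I := by push_cast; ring
        have e2 : (x : ℂ) + ((- -y : ℝ) : ℂ) * I = (x : ℂ) + (y : ℂ) * I := by push_cast; ring
        rw [e1, e2, add_comm (KF F R ((x : ℂ) - (y : ℂ) * I))]
    rw [h5]
    calc _ ≤ 2 * (A * Bx x) * y ^ 2 := h0
      _ = 2 * y ^ 2 * A * Bx x := by ring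
  have hKc : Continuous (KF F R) := by
    rw [continuous_iff_continuousAt]
    intro z
    exact (KF_hasDeriv hF0 hFd1 R z).continuousAt
  have hmaj : Integrable (fun x => 2 * y ^ 2 * A * Bx x) := hBint.const_mul _
  have hI : Integrable (fun x : ℝ => KF F R ((x : ℂ) + (y : ℂ) * I) + KF F R ((x : ℂ) - (y : ℂ) * I) -
      2 * KF F R x) := by
    refine Integrable.mono' hmaj (Continuous.aestronglyMeasurable (by fun_prop))
      (Eventually.of_forall hsec)
  refine ⟨hI, ?_⟩
  calc ∫ x : ℝ, ‖KF F R ((x : ℂ) + (y : ℂ) * I) + KF F R ((x : ℂ) - (y : ℂ) * I) - 2 * KF F R x‖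
      ≤ ∫ x : ℝ, 2 * y ^ 2 * A * Bx x := integral_mono hI.norm hmaj hsec
    _ = 2 * y ^ 2 * A * ((∫ s, |f2 s|) * ∫ u, q4 R u) := by rw [integral_const_mul, hBI]
    _ = 2 * C * Real.exp 1 * (R * ∫ u, q4 R u) * y ^ 2 * Real.exp (R * |y|) * ∫ s, |f2 s| := by
        rw [hA]; ring
    _ = 2 * C * Real.exp 1 * c4 * y ^ 2 * Real.exp (R * |y|) * ∫ s, |f2 s| := by rw [hq.2]
    _ ≤ 2 * C * Real.exp 1 * (c4 + 1) * y ^ 2 * Real.exp (R * |y|) * ∫ s, |f2 s| := by
        have h7 : 0 ≤ ∫ s, |f2 s| := integral_nonneg fun s => abs_nonneg _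
        gcongr
        linarith

end Pool.Agent.H203.ME
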