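import Pool.Agent.H203.ME.APX3

set_option autoImplicit false

open Complex Filter Topology Set MeasureTheory

namespace Pool.Agent.H203.ME

/-- the central limit theorem, for a random height -/
def S_MAIN : Prop := ∀ V ε : ℝ, 0 < V → 0 < ε → ∃ η T0 : ℝ, 0 < η ∧ η ≤ 1 ∧ 10 ≤ T0 ∧ ∀ T : ℝ, T0 ≤ T →
  ∀ F : ℝ → ℝ, Adm η V (Real.log T) F →
    ‖(1 / T : ℂ) * (∫ t in T..(2 * T), cexp (I * (XF F T t : ℂ))) - cexp (-(sg F : ℂ) / 2)‖ ≤ ε

lemma XF_contOn {F : ℝ → ℝ} (hF : C2c F) {T a b : ℝ} (ha : 3 ≤ a) :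
    ContinuousOn (XF F T) (Icc a b) := by
  have h : ∀ t ∈ Icc a b, XF F T t =
      (∑ s ∈ H370.Zf riemannZeta (a - 2) (b + 2), (mz s : ℝ) * F (s.im - t)) -
        Real.log T / (2 * Real.pi) * ∫ x : ℝ, F x := fun t ht =>
    XF_eq hF (by linarith) (by linarith [ht.1]) (by linarith [ht.2])
  have hFc := hF.cont
  exact (Continuous.continuousOn (by fun_prop)).congr h

lemma exp_diff (x y : ℝ) : ‖cexp (I * (x : ℂ)) - cexp (I * (y : ℂ))‖ ≤ |x - y| := by
  have h : cexp (I * (x : ℂ)) - cexp (I * (y : ℂ)) = cexp (I * (y : ℂ)) * (cexp (I * ((x - y : ℝ) : ℂ)) - 1) := by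
    rw [mul_sub, ← Complex.exp_add, mul_one]
    congr 2
    push_cast; ring
  rw [h, norm_mul]
  have h1 : ‖cexp (I * (y : ℂ))‖ = 1 := by rw [mul_comm]; exact Complex.norm_exp_ofReal_mul_I y
  rw [h1, one_mul]
  exact Real.norm_exp_I_mul_ofReal_sub_one_le

lemma exp_diff2 (x y : ℝ) : ‖cexp (I * (x : ℂ)) - cexp (I * (y : ℂ))‖ ≤ 2 := by
  refine (norm_sub_le _ _).trans ?_
  rw [mul_comm, Complex.norm_exp_ofReal_mul_I, mul_comm, Complex.norm_exp_ofReal_mul_I]
  norm_num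

lemma exp_neg_diff {x y : ℝ} (hx : 0 ≤ x) (hy : 0 ≤ y) : |Real.exp (-x) - Real.exp (-y)| ≤ |x - y| := by
  wlog h : y ≤ x generalizing x y
  · rw [abs_sub_comm, abs_sub_comm x y]
    exact this hy hx (by linarith)
  have h1 : Real.exp (-x) ≤ Real.exp (-y) := Real.exp_le_exp.2 (by linarith)
  rw [abs_of_nonpos (by linarith), abs_of_nonneg (by linarith)]
  have h2 : Real.exp (-x) = Real.exp (-y) * Real.exp (-(x - y)) := by rw [← Real.exp_add]; congr 1; ring
  have h3 := Real.add_one_le_exp (-(x - y))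
  have h4 : Real.exp (-y) ≤ 1 := Real.exp_le_one_iff.2 (by linarith)
  have h5 := Real.exp_pos (-y)
  rw [h2]
  nlinarith

lemma log_div_sqrt_le (p : ℕ) : Real.log p / Real.sqrt p ≤ 1 := by
  rcases Nat.eq_zero_or_pos p with h | h
  · subst h; simp
  · have hp : (0 : ℝ) < p := by exact_mod_cast h
    have hs : 0 < Real.sqrt p := Real.sqrt_pos.2 hp
    rw [div_le_one hs]
    have h1 : Real.log p = 2 * Real.log (Real.sqrt p) := by
      rw [Real.log_sqrt hp.le]; ring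
    have h2 : Real.log (Real.sqrt p) = Real.log (Real.sqrt p / Real.exp 1) + 1 := by
      rw [Real.log_div hs.ne' (Real.exp_pos 1).ne', Real.log_exp]; ring
    have h3 : Real.log (Real.sqrt p / Real.exp 1) ≤ Real.sqrt p / Real.exp 1 - 1 :=
      Real.log_le_sub_one_of_pos (by positivity)
    have h4 : 2 < Real.exp 1 := by have := Real.exp_one_gt_d9; linarith
    have h5 : Real.sqrt p / Real.exp 1 ≤ Real.sqrt p / 2 := by gcongr
    linarith

lemma FF_norm_le (F : ℝ → ℝ) (ξ : ℝ) : ‖FF F ξ‖ ≤ ∫ x : ℝ, |F x| := by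
  unfold FF
  refine (norm_integral_le_integral_norm _).trans (le_of_eq ?_)
  congr 1
  funext s
  rw [norm_mul, Complex.norm_real, Real.norm_eq_abs]
  have : ‖cexp (-(((ξ * s : ℝ) : ℂ) * I))‖ = 1 := by
    have := Complex.norm_exp_ofReal_mul_I (-(ξ * s))
    rw [← this]; congr 2; push_cast; ring
  rw [this, mul_one]

lemma Y1_cont (F : ℝ → ℝ) (N : ℕ) : Continuous (Y1 F N) := by
  unfold Y1 ee
  fun_prop

/-- the coefficients -/
noncomputable def ap (F : ℝ → ℝ) (p : ℕ) : ℂ := -(((1 / Real.pi * (Real.log p / Real.sqrt p) : ℝ) : ℂ) * FF F (Real.log p))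

lemma ap_le (F : ℝ → ℝ) (p : ℕ) : ‖ap F p‖ ≤ ∫ x : ℝ, |F x| := by
  unfold ap
  rw [norm_neg, norm_mul, Complex.norm_real, Real.norm_eq_abs]
  have h0 : 0 ≤ ∫ x : ℝ, |F x| := integral_nonneg fun _ => abs_nonneg _
  have h1 : |1 / Real.pi * (Real.log p / Real.sqrt p)| ≤ 1 := by
    rw [abs_of_nonneg (by positivity)]
    have h2 := log_div_sqrt_le p
    have h3 : 1 / Real.pi ≤ 1 := by rw [div_le_one Real.pi_pos]; linarith [Real.pi_gt_three]
    have h4 : 0 ≤ Real.log p / Real.sqrt p := by positivity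
    have h5 : 0 ≤ 1 / Real.pi := by positivity
    nlinarith
  calc _ ≤ 1 * ∫ x : ℝ, |F x| := mul_le_mul h1 (FF_norm_le F _) (norm_nonneg _) zero_le_one
    _ = _ := one_mul _

lemma ap_sq (F : ℝ → ℝ) (p : ℕ) : ‖ap F p‖ ^ 2 = 1 / Real.pi ^ 2 * ((Real.log p) ^ 2 / p * ‖FF F (Real.log p)‖ ^ 2) := by
  unfold ap
  rw [norm_neg, norm_mul, Complex.norm_real, Real.norm_eq_abs, mul_pow, sq_abs]
  have h : (Real.sqrt (p : ℝ)) ^ 2 = p := Real.sq_sqrt (Nat.cast_nonneg _)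
  rw [mul_pow, div_pow, div_pow, h]
  ring

lemma Y1_eq (F : ℝ → ℝ) (N : ℕ) (t : ℝ) :
    ((∑ p ∈ (Finset.Icc 1 N).filter Nat.Prime, ap F p * ee p t).re : ℝ) = - Y1 F N t := by
  unfold Y1 ap
  rw [← Complex.neg_re, ← Finset.sum_neg_distrib]
  congr 1
  refine Finset.sum_congr rfl fun p _ => by ring

lemma floor_log {x : ℝ} (hx : 4 ≤ x) : Real.log x / 2 ≤ Real.log (⌊x⌋₊ : ℝ) ∧ 3 ≤ ⌊x⌋₊ := by
  have h1 : x - 1 < (⌊x⌋₊ : ℝ) := Nat.sub_one_lt_floor x
  have h3 : 4 ≤ ⌊x⌋₊ := Nat.le_floor (by exact_mod_cast hx)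
  refine ⟨?_, by omega⟩
  have h2 : Real.log x / 2 = Real.log (Real.sqrt x) := by rw [Real.log_sqrt (by linarith)]
  rw [h2]
  apply Real.log_le_log (Real.sqrt_pos.2 (by linarith))
  rw [Real.sqrt_le_left (by positivity)]
  nlinarith

theorem t_MAIN (hA : S_APX) (hBC : S_BBC) (hP : S_PRM) (hC : S_CLT) (hV : S_VAR) : S_MAIN := by
  obtain ⟨CA, TA, hCA, hTA, hA⟩ := hA
  obtain ⟨CP, hCP, hP⟩ := hP
  obtain ⟨CV, hCV, hV⟩ := hV
  intro V ε hV0 hε
  obtain ⟨ηc, κ, Tc, hηc, hκ, hκ1, hTc, hC⟩ := hC (V + 1) (ε / 4) (by linarith) (by linarith)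
  obtain ⟨δ, hδ⟩ : ∃ δ, δ = ε / 8 := ⟨_, rfl⟩
  have hδ0 : 0 < δ := by rw [hδ]; positivity
  obtain ⟨ε1, hε1⟩ : ∃ ε1, ε1 = min (min κ (1 / 4)) (δ ^ 2 / (2 * CP * (V + 1))) := ⟨_, rfl⟩
  have hε10 : 0 < ε1 := by rw [hε1]; positivity
  have hε1κ : ε1 ≤ κ := by rw [hε1]; exact (min_le_left _ _).trans (min_le_left _ _)
  have hε14 : ε1 ≤ 1 / 4 := by rw [hε1]; exact (min_le_left _ _).trans (min_le_right _ _)
  have hε1d : ε1 ≤ δ ^ 2 / (2 * CP * (V + 1)) := by rw [hε1]; exact min_le_right _ _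
  obtain ⟨TP, hTP, hP⟩ := hP ε1 hε10 hε14
  obtain ⟨m, hm⟩ : ∃ m, m = min 1 δ := ⟨_, rfl⟩
  have hm0 : 0 < m := by rw [hm]; positivity
  have hm1 : m ≤ 1 := by rw [hm]; exact min_le_left _ _
  have hmδ : m ≤ δ := by rw [hm]; exact min_le_right _ _
  obtain ⟨M, hM⟩ : ∃ M, M = CP + CV + CA + 1 := ⟨_, rfl⟩
  have hM0 : 0 < M := by rw [hM]; positivity
  obtain ⟨c, hc⟩ : ∃ c, c = ε1 ^ 2 * m ^ 2 / (16 * M) := ⟨_, rfl⟩
  have hc0 : 0 < c := by rw [hc]; positivity
  -- the threshold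
  have hev : ∀ᶠ T : ℝ in atTop, TA ≤ T ∧ TP ≤ T ∧ Tc ≤ T ∧ 4 ≤ T ^ ε1 ∧ 8 * Real.log T ≤ δ * T := by
    refine (eventually_ge_atTop TA).and ((eventually_ge_atTop TP).and ((eventually_ge_atTop Tc).and
      (((tendsto_rpow_atTop hε10).eventually (eventually_ge_atTop 4)).and ?_)))
    have h1 := Real.isLittleO_log_id_atTop.bound (show 0 < δ / 8 by positivity)
    filter_upwards [h1, eventually_ge_atTop (1 : ℝ)] with T h1 h2
    rw [Real.norm_eq_abs, abs_of_nonneg (Real.log_nonneg h2)] at h1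
    simp only [id, Real.norm_eq_abs] at h1
    rw [abs_of_nonneg (by linarith)] at h1
    linarith
  obtain ⟨T1, hT1⟩ := eventually_atTop.1 hev
  refine ⟨min ηc (min 1 c), max T1 10, by positivity, (min_le_right _ _).trans (min_le_left _ _), le_max_right _ _,
    fun T hT F hF => ?_⟩
  obtain ⟨hTA', hTP', hTc', hT4, hT8⟩ := hT1 T ((le_max_left _ _).trans hT)
  have hT10 : 10 ≤ T := (le_max_right _ _).trans hT
  have hT0 : 0 < T := by linarith
  obtain ⟨η, hη⟩ : ∃ η, η = min ηc (min 1 c) := ⟨_, rfl⟩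
  rw [← hη] at hF
  have hη0 : 0 < η := by rw [hη]; positivity
  have hηηc : η ≤ ηc := by rw [hη]; exact min_le_left _ _
  have hη1 : η ≤ 1 := by rw [hη]; exact (min_le_right _ _).trans (min_le_left _ _)
  have hηc' : η ≤ c := by rw [hη]; exact (min_le_right _ _).trans (min_le_right _ _)
  obtain ⟨hL20, hA⟩ := hA T hTA'
  obtain ⟨hXc, hab, hA⟩ := hA η V F hη0 hF
  have hP := hP T hTP' η V F hη0 hη1 hV0.le hF
  set L := Real.log T with hLd
  have hL0 : 0 < L := by linarith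
  set N := ⌊T ^ ε1⌋₊ with hN
  obtain ⟨hNlog, hN3⟩ := floor_log hT4
  rw [← hN] at hNlog hN3
  have hlogN : ε1 * L / 2 ≤ Real.log N := by
    rw [Real.log_rpow hT0] at hNlog; linarith
  have hlogN0 : 0 < Real.log N := lt_of_lt_of_le (by positivity) hlogN
  have hVN := hV η V L F hη0 (by linarith) hF N hN3
  -- numerical facts
  have n1 : η * M ≤ m ^ 2 / 16 := by
    calc η * M ≤ c * M := by gcongr
      _ = ε1 ^ 2 * m ^ 2 / 16 := by rw [hc]; field_simp
      _ ≤ 1 * m ^ 2 / 16 := by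
          gcongr
          nlinarith only [hε10, hε14]
      _ = _ := by ring
  have n2 : η ^ 2 / ε1 ^ 2 * M ≤ m ^ 2 / 16 := by
    calc η ^ 2 / ε1 ^ 2 * M = η / ε1 ^ 2 * (η * M) := by ring
      _ ≤ c / ε1 ^ 2 * (1 * M) := by gcongr
      _ = m ^ 2 / 16 := by rw [hc]; field_simp
  have hm2 : m ^ 2 ≤ m := by nlinarith only [hm0, hm1]
  have n3 : CV * (η + η ^ 2 + (η * L / Real.log N) ^ 2) ≤ m ^ 2 / 2 := by
    have h1 : η * L / Real.log N ≤ 2 * η / ε1 := by
      rw [div_le_div_iff₀ hlogN0 hε10]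
      nlinarith only [hlogN, hη0]
    have h2 : (η * L / Real.log N) ^ 2 ≤ (2 * η / ε1) ^ 2 := pow_le_pow_left₀ (by positivity) h1 2
    have h3 : CV ≤ M := by rw [hM]; linarith
    have h4 : η ^ 2 ≤ η := by nlinarith only [hη0, hη1]
    calc CV * (η + η ^ 2 + (η * L / Real.log N) ^ 2) ≤ M * (η + η + (2 * η / ε1) ^ 2) := by gcongr
      _ = 2 * (η * M) + 4 * (η ^ 2 / ε1 ^ 2 * M) := by ring
      _ ≤ 2 * (m ^ 2 / 16) + 4 * (m ^ 2 / 16) := by gcongr
      _ ≤ _ := by nlinarith only [sq_nonneg m]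
  set SS := ∑ p ∈ (Finset.Icc 1 N).filter Nat.Prime, (Real.log p) ^ 2 / p * ‖FF F (Real.log p)‖ ^ 2 with hSS
  set VV := ∫ ξ in Ioi (0 : ℝ), ξ * ‖FF F ξ‖ ^ 2 with hVV
  have hSap : ∑ p ∈ (Finset.Icc 1 N).filter Nat.Prime, ‖ap F p‖ ^ 2 = 1 / Real.pi ^ 2 * SS := by
    rw [hSS, Finset.mul_sum]
    exact Finset.sum_congr rfl fun p _ => ap_sq F p
  have hpi2 : 1 / Real.pi ^ 2 ≤ 1 := by
    rw [div_le_one (by positivity)]
    nlinarith only [Real.pi_gt_three]
  have hpi20 : 0 < 1 / Real.pi ^ 2 := by positivity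
  have hSS0 : 0 ≤ SS := Finset.sum_nonneg fun p _ => by positivity
  have hVV0 : 0 ≤ VV := by
    rw [hVV]
    apply setIntegral_nonneg measurableSet_Ioi
    intro ξ hξ
    have : (0 : ℝ) < ξ := hξ
    positivity
  have hVVV : VV ≤ V := hF.va
  have hSVabs := abs_le.1 (hVN.trans n3)
  -- the three parts
  have hC' := hC T hTc' N (ap F) ((Nat.floor_le (by positivity)).trans
      (Real.rpow_le_rpow_of_exponent_le (by linarith) hε1κ))
    (fun p => (ap_le F p).trans (hF.l1.trans hηηc)) (by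
      rw [hSap]
      have : SS ≤ V + 1 := by linarith only [hSVabs.2, hVVV, hm2, hm1]
      nlinarith only [this, hSS0, hpi2, hpi20])
  rw [hSap] at hC'
  have part3 : ‖cexp (-((1 / Real.pi ^ 2 * SS : ℝ) : ℂ) / 4) - cexp (-(sg F : ℂ) / 2)‖ ≤ δ := by
    have e1 : cexp (-((1 / Real.pi ^ 2 * SS : ℝ) : ℂ) / 4) = ((Real.exp (-(1 / Real.pi ^ 2 * SS / 4)) : ℝ) : ℂ) := by
      push_cast; congr 1; ring
    have e2 : cexp (-(sg F : ℂ) / 2) = ((Real.exp (-(sg F / 2)) : ℝ) : ℂ) := by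
      push_cast; congr 1; ring
    rw [e1, e2, ← Complex.ofReal_sub, Complex.norm_real, Real.norm_eq_abs]
    have hsg : sg F = 1 / (2 * Real.pi ^ 2) * VV := rfl
    refine (exp_neg_diff (by positivity) (by rw [hsg]; positivity)).trans ?_
    have : 1 / Real.pi ^ 2 * SS / 4 - sg F / 2 = 1 / Real.pi ^ 2 / 4 * (SS - VV) := by
      rw [hsg]; ring
    rw [this, abs_mul, abs_of_pos (by positivity)]
    have h1 : |SS - VV| ≤ m ^ 2 / 2 := hVN.trans n3
    have h2 : 1 / Real.pi ^ 2 / 4 ≤ 1 := by linarith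
    calc _ ≤ 1 * (m ^ 2 / 2) := by gcongr
      _ ≤ δ := by linarith only [hm2, hmδ, hm0]
  -- the first part
  set a := T + 2 * L with ha
  set b := 2 * T - 2 * L with hb
  have hFc2 := hF.c2
  have hYc := Y1_cont F N
  have hBc := hBC F hFc2 (L / 4) (by linarith)
  set f : ℝ → ℂ := fun t => cexp (I * (XF F T t : ℂ)) - cexp (I * ((-Y1 F N t : ℝ) : ℂ)) with hf
  have hXcT : ContinuousOn (XF F T) (Icc T (2 * T)) := XF_contOn hFc2 (by linarith)
  have hfc : ContinuousOn f (Icc T (2 * T)) := by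
    rw [hf]
    apply ContinuousOn.sub
    · apply ContinuousOn.cexp
      exact continuousOn_const.mul (Complex.continuous_ofReal.comp_continuousOn hXcT)
    · exact Continuous.continuousOn (by fun_prop)
  have hTa : T ≤ a := by rw [ha]; linarith
  have hb2 : b ≤ 2 * T := by rw [hb]; linarith
  have hii : ∀ x y : ℝ, T ≤ x → x ≤ y → y ≤ 2 * T → IntervalIntegrable f volume x y := by
    intro x y hx hxy hy
    apply ContinuousOn.intervalIntegrable
    rw [uIcc_of_le hxy]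
    exact hfc.mono (Icc_subset_Icc hx hy)
  have hsplit : ∫ t in T..(2 * T), f t = (∫ t in T..a, f t) + (∫ t in a..b, f t) + ∫ t in b..(2 * T), f t := by
    rw [intervalIntegral.integral_add_adjacent_intervals (hii T a le_rfl hTa (by linarith))
      (hii a b hTa hab hb2), intervalIntegral.integral_add_adjacent_intervals (hii T b le_rfl (by linarith) hb2)
      (hii b (2 * T) (by linarith) hb2 le_rfl)]
  have q1 : ‖∫ t in T..a, f t‖ ≤ 2 * (2 * L) := by
    have := intervalIntegral.norm_integral_le_of_norm_le_const (a := T) (b := a) (f := f) (C := 2)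
      (fun t _ => exp_diff2 _ _)
    rw [abs_of_nonneg (by linarith)] at this
    calc _ ≤ _ := this
      _ = _ := by rw [ha]; ring
  have q3 : ‖∫ t in b..(2 * T), f t‖ ≤ 2 * (2 * L) := by
    have := intervalIntegral.norm_integral_le_of_norm_le_const (a := b) (b := 2 * T) (f := f) (C := 2)
      (fun t _ => exp_diff2 _ _)
    rw [abs_of_nonneg (by linarith)] at this
    calc _ ≤ _ := this
      _ = _ := by rw [hb]; ring
  have q2 : ‖∫ t in a..b, f t‖ ≤ (∫ t in a..b, |XF F T t + BB F (L / 4) t|) +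
      ((∫ t in a..b, (BB F (L / 4) t - Y1 F N t) ^ 2) / (2 * δ) + δ / 2 * T) := by
    have i1 : IntervalIntegrable (fun t => |XF F T t + BB F (L / 4) t|) volume a b := by
      apply ContinuousOn.intervalIntegrable
      rw [uIcc_of_le hab]
      exact (hXc.add hBc.continuousOn).abs
    have i2 : IntervalIntegrable (fun t => (BB F (L / 4) t - Y1 F N t) ^ 2 / (2 * δ) + δ / 2) volume a b :=
      Continuous.intervalIntegrable (by fun_prop) _ _
    have h1 : ‖∫ t in a..b, f t‖ ≤ ∫ t in a..b, (|XF F T t + BB F (L / 4) t| +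
        ((BB F (L / 4) t - Y1 F N t) ^ 2 / (2 * δ) + δ / 2)) := by
      apply intervalIntegral.norm_integral_le_of_norm_le hab _ (i1.add i2)
      refine Eventually.of_forall fun t _ => ?_
      have h2 := exp_diff (XF F T t) (-Y1 F N t)
      have h3 : |XF F T t - -Y1 F N t| ≤ |XF F T t + BB F (L / 4) t| + |BB F (L / 4) t - Y1 F N t| := by
        have : XF F T t - -Y1 F N t = (XF F T t + BB F (L / 4) t) - (BB F (L / 4) t - Y1 F N t) := by ring
        rw [this]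
        exact abs_sub _ _
      have h4 : |BB F (L / 4) t - Y1 F N t| ≤ (BB F (L / 4) t - Y1 F N t) ^ 2 / (2 * δ) + δ / 2 := by
        rw [← sq_abs]
        set x := |BB F (L / 4) t - Y1 F N t|
        have h5 : x ^ 2 / (2 * δ) + δ / 2 - x = (x - δ) ^ 2 / (2 * δ) := by field_simp; ring
        have h6 : 0 ≤ (x - δ) ^ 2 / (2 * δ) := by positivity
        linarith
      exact h2.trans (by linarith)
    refine h1.trans ?_
    rw [intervalIntegral.integral_add i1 i2, intervalIntegral.integral_add, intervalIntegral.integral_const,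
      intervalIntegral.integral_div, smul_eq_mul]
    · have : (b - a) * (δ / 2) ≤ δ / 2 * T := by
        rw [mul_comm]
        apply mul_le_mul_of_nonneg_left _ (by positivity)
        rw [ha, hb]; linarith
      linarith
    · exact Continuous.intervalIntegrable (by fun_prop) _ _
    · exact intervalIntegrable_const
  have q4 : ∫ t in a..b, (BB F (L / 4) t - Y1 F N t) ^ 2 ≤ T * δ ^ 2 := by
    have h1 : ∫ t in a..b, (BB F (L / 4) t - Y1 F N t) ^ 2 ≤ ∫ t in T..(2 * T), (BB F (L / 4) t - Y1 F N t) ^ 2 := by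
      apply intervalIntegral.integral_mono_interval hTa hab hb2
      · exact Eventually.of_forall fun t => sq_nonneg _
      · exact Continuous.intervalIntegrable (by fun_prop) _ _
    refine h1.trans (hP.trans ?_)
    have h2 : CP * (η ^ 2 / ε1 ^ 2) ≤ δ ^ 2 / 2 := by
      have h3 : CP ≤ M := by rw [hM]; linarith
      calc CP * (η ^ 2 / ε1 ^ 2) ≤ M * (η ^ 2 / ε1 ^ 2) := by gcongr
        _ = η ^ 2 / ε1 ^ 2 * M := mul_comm _ _
        _ ≤ m ^ 2 / 16 := n2
        _ ≤ δ ^ 2 / 2 := by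
            have : m ^ 2 ≤ δ ^ 2 := pow_le_pow_left₀ hm0.le hmδ 2
            have := sq_nonneg δ
            linarith
    have h4 : CP * (ε1 ^ 4 * (V + 1)) ≤ δ ^ 2 / 2 := by
      have h5 : ε1 ^ 4 ≤ ε1 := by
        have : ε1 ^ 3 ≤ 1 := pow_le_one₀ hε10.le (by linarith)
        calc ε1 ^ 4 = ε1 ^ 3 * ε1 := by ring
          _ ≤ 1 * ε1 := by gcongr
          _ = ε1 := one_mul _
      calc CP * (ε1 ^ 4 * (V + 1)) ≤ CP * (ε1 * (V + 1)) := by gcongr
        _ ≤ CP * (δ ^ 2 / (2 * CP * (V + 1)) * (V + 1)) := by gcongr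
        _ = δ ^ 2 / 2 := by field_simp
    calc CP * T * (η ^ 2 / ε1 ^ 2 + ε1 ^ 4 * (V + 1)) = T * (CP * (η ^ 2 / ε1 ^ 2) + CP * (ε1 ^ 4 * (V + 1))) := by ring
      _ ≤ T * (δ ^ 2 / 2 + δ ^ 2 / 2) := by gcongr
      _ = _ := by ring
  have part1 : ‖(1 / T : ℂ) * ∫ t in T..(2 * T), f t‖ ≤ 3 * δ := by
    rw [norm_mul, hsplit]
    have h1 : ‖(1 / T : ℂ)‖ = 1 / T := by
      rw [norm_div, norm_one, Complex.norm_real, Real.norm_eq_abs, abs_of_pos hT0]
    rw [h1, div_mul_eq_mul_div, one_mul, div_le_iff₀ hT0]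
    have h2 := norm_add₃_le (a := ∫ t in T..a, f t) (b := ∫ t in a..b, f t) (c := ∫ t in b..(2 * T), f t)
    have h3 : (∫ t in a..b, (BB F (L / 4) t - Y1 F N t) ^ 2) / (2 * δ) ≤ T * δ / 2 := by
      rw [div_le_iff₀ (by positivity)]
      calc _ ≤ _ := q4
        _ = _ := by ring
    have h4 : CA * T * η ≤ δ * T / 2 := by
      have h5 : CA ≤ M := by rw [hM]; linarith
      calc CA * T * η ≤ M * T * η := by gcongr
        _ = T * (η * M) := by ring
        _ ≤ T * (m ^ 2 / 16) := by gcongr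
        _ ≤ _ := by nlinarith only [mul_le_mul_of_nonneg_left (hm2.trans hmδ) hT0.le, mul_pos hδ0 hT0]
    nlinarith only [h2, q1, q2, q3, h3, h4, hA, hT8, mul_pos hδ0 hT0]
  -- conclusion
  have hfin : (1 / T : ℂ) * (∫ t in T..(2 * T), cexp (I * (XF F T t : ℂ))) - cexp (-(sg F : ℂ) / 2) =
      (1 / T : ℂ) * (∫ t in T..(2 * T), f t) +
      ((1 / T : ℂ) * (∫ t in T..(2 * T), cexp (I * ((∑ p ∈ (Finset.Icc 1 N).filter Nat.Prime, ap F p * ee p t).re : ℂ))) -
        cexp (-((1 / Real.pi ^ 2 * SS : ℝ) : ℂ) / 4)) +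
      (cexp (-((1 / Real.pi ^ 2 * SS : ℝ) : ℂ) / 4) - cexp (-(sg F : ℂ) / 2)) := by
    have h1 : ∫ t in T..(2 * T), f t = (∫ t in T..(2 * T), cexp (I * (XF F T t : ℂ))) -
        ∫ t in T..(2 * T), cexp (I * ((∑ p ∈ (Finset.Icc 1 N).filter Nat.Prime, ap F p * ee p t).re : ℂ)) := by
      simp only [Y1_eq]
      rw [hf, ← intervalIntegral.integral_sub]
      · apply ContinuousOn.intervalIntegrable
        rw [uIcc_of_le (by linarith)]
        apply ContinuousOn.cexp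
        exact continuousOn_const.mul (Complex.continuous_ofReal.comp_continuousOn hXcT)
      · exact Continuous.intervalIntegrable (by fun_prop) _ _
    rw [h1]; ring
  rw [hfin]
  have h9 := norm_add₃_le (a := (1 / T : ℂ) * (∫ t in T..(2 * T), f t))
    (b := (1 / T : ℂ) * (∫ t in T..(2 * T), cexp (I * ((∑ p ∈ (Finset.Icc 1 N).filter Nat.Prime, ap F p * ee p t).re : ℂ))) -
        cexp (-((1 / Real.pi ^ 2 * SS : ℝ) : ℂ) / 4))
    (c := cexp (-((1 / Real.pi ^ 2 * SS : ℝ) : ℂ) / 4) - cexp (-(sg F : ℂ) / 2))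
  refine h9.trans ?_
  rw [hδ] at part1 part3
  linarith

end Pool.Agent.H203.ME
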