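import Pool.Agent.H203.ME.Defs

set_option autoImplicit false

/-! Leaf OM of project MESO (helper203), by helper282. -/

open Complex Filter Topology Set MeasureTheory

namespace Pool.Agent.H203.ME

namespace OML

theorem gR_neg (R u : ℝ) : gR R (-u) = gR R u := by
  unfold gR
  rw [neg_div, neg_sq]

theorem gR_cont (R : ℝ) : Continuous (gR R) := by
  unfold gR
  fun_prop

theorem int_neg (R : ℝ) (z : ℂ) :
    ∫ u in (-R)..R, (gR R u : ℂ) * cexp (I * u * (-z)) =
      ∫ u in (-R)..R, (gR R u : ℂ) * cexp (I * u * z) := by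
  have h := intervalIntegral.integral_comp_neg (a := -R) (b := R)
    (fun u : ℝ => (gR R u : ℂ) * cexp (I * u * z))
  rw [neg_neg] at h
  rw [← h]
  refine intervalIntegral.integral_congr fun u _ => ?_
  simp only [gR_neg, ofReal_neg]
  congr 2
  ring

theorem conj_int (R : ℝ) (x : ℝ) :
    (starRingEnd ℂ) (∫ u in (-R)..R, (gR R u : ℂ) * cexp (I * u * x)) =
      ∫ u in (-R)..R, (gR R u : ℂ) * cexp (I * u * x) := by
  have h : (starRingEnd ℂ) (∫ u in (-R)..R, (gR R u : ℂ) * cexp (I * u * x)) =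
      ∫ u in (-R)..R, (starRingEnd ℂ) ((gR R u : ℂ) * cexp (I * u * x)) := by
    unfold intervalIntegral
    rw [map_sub, ← integral_conj, ← integral_conj]
  rw [h, ← int_neg]
  refine intervalIntegral.integral_congr fun u _ => ?_
  simp only [map_mul, conj_ofReal, ← exp_conj, conj_I]
  congr 2
  ring

/-- the complex integrand -/
noncomputable def G (R x u : ℝ) : ℂ := (gR R u : ℂ) * cexp (I * u * x) * cexp (-(x : ℂ) ^ 2 / 2)

theorem WR_eq (R x : ℝ) : WR R x = ∫ u in (-R)..R, G R x u := by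
  unfold WR G
  rw [intervalIntegral.integral_mul_const]

theorem norm_G (R x u : ℝ) : ‖G R x u‖ = |gR R u| * Real.exp (-(1 / 2) * x ^ 2) := by
  unfold G
  rw [norm_mul, norm_mul, Complex.norm_exp, Complex.norm_exp, Complex.norm_real, Real.norm_eq_abs]
  have h1 : (I * (u : ℂ) * (x : ℂ)).re = 0 := by simp
  have h2 : (-(x : ℂ) ^ 2 / 2).re = -(1 / 2) * x ^ 2 := by
    have : (-(x : ℂ) ^ 2 / 2) = ((-(1 / 2) * x ^ 2 : ℝ) : ℂ) := by push_cast; ring
    rw [this, ofReal_re]
  rw [h1, h2, Real.exp_zero, mul_one]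

theorem int_G (R u : ℝ) : ∫ x : ℝ, G R x u =
    ((Real.sqrt (2 * Real.pi) * (gR R u * Real.exp (-u ^ 2 / 2)) : ℝ) : ℂ) := by
  have h := fourierIntegral_gaussian (b := 1 / 2) (by norm_num) (u : ℂ)
  unfold G
  have h1 : (fun x : ℝ => (gR R u : ℂ) * cexp (I * u * x) * cexp (-(x : ℂ) ^ 2 / 2)) =
      fun x : ℝ => (gR R u : ℂ) * (cexp (I * u * x) * cexp (-(1 / 2) * (x : ℂ) ^ 2)) := by
    funext x
    rw [mul_assoc]
    congr 3
    ring
  rw [h1, integral_const_mul, h]
  have h2 : ((Real.pi : ℂ) / (1 / 2)) ^ (1 / 2 : ℂ) = ((Real.sqrt (2 * Real.pi) : ℝ) : ℂ) := by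
    rw [Real.sqrt_eq_rpow, Complex.ofReal_cpow (by positivity)]
    congr 1
    · push_cast; ring
    · push_cast; ring
  have h3 : cexp (-(u : ℂ) ^ 2 / (4 * (1 / 2))) = ((Real.exp (-u ^ 2 / 2) : ℝ) : ℂ) := by
    rw [Complex.ofReal_exp]
    congr 1
    push_cast
    ring
  rw [h2, h3]
  push_cast
  ring

theorem G_cont (R : ℝ) : Continuous (fun p : ℝ × ℝ => G R p.1 p.2) := by
  unfold G
  have := gR_cont R
  fun_prop

theorem om_cplx {R : ℝ} (hR : 1 ≤ R) : (om R : ℂ) =
    ((Real.sqrt (2 * Real.pi) * ∫ u in (-R)..R, gR R u * Real.exp (-u ^ 2 / 2) : ℝ) : ℂ) := by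
  have hRR : -R ≤ R := by linarith
  have h1 : (om R : ℂ) = ∫ x : ℝ, WR R x := by
    unfold om
    rw [← integral_complex_ofReal]
    refine integral_congr_ae (Eventually.of_forall fun x => ?_)
    simp only
    unfold WR
    have : ∀ z : ℂ, (starRingEnd ℂ) z = z → ((z.re : ℝ) : ℂ) = z := fun z hz => conj_eq_iff_re.mp hz
    refine this _ ?_
    rw [map_mul, conj_int, ← exp_conj]
    congr 2
    rw [map_div₀, map_neg, map_pow, conj_ofReal]
    congr 1
    exact Complex.conj_ofReal 2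
  rw [h1]
  have h2 : (fun x : ℝ => WR R (x : ℂ)) = fun x : ℝ => ∫ u in Ioc (-R) R, G R x u := by
    funext x
    rw [WR_eq, intervalIntegral.integral_of_le hRR]
  rw [h2, integral_integral_swap]
  · rw [intervalIntegral.integral_of_le hRR, ← integral_const_mul, ← integral_complex_ofReal]
    refine integral_congr_ae (Eventually.of_forall fun u => ?_)
    exact int_G R u
  · have hg : IntegrableOn (fun u => |gR R u|) (Ioc (-R) R) :=
      ((gR_cont R).abs.continuousOn.integrableOn_Icc).mono_set Ioc_subset_Icc_self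
    have hx : Integrable (fun x : ℝ => Real.exp (-(1 / 2) * x ^ 2)) :=
      integrable_exp_neg_mul_sq (by norm_num)
    have hprod := hx.mul_prod hg
    refine hprod.mono' (G_cont R).aestronglyMeasurable (Eventually.of_forall fun p => ?_)
    simp only [Function.uncurry]
    rw [norm_G, mul_comm]

theorem om_sym {R : ℝ} : ∫ u in (-R)..R, gR R u * Real.exp (-u ^ 2 / 2) =
    2 * ∫ u in (0 : ℝ)..R, gR R u * Real.exp (-u ^ 2 / 2) := by
  have hc : Continuous (fun u : ℝ => gR R u * Real.exp (-u ^ 2 / 2)) := by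
    have := gR_cont R
    fun_prop
  rw [← intervalIntegral.integral_add_adjacent_intervals (hc.intervalIntegrable _ _)
    (hc.intervalIntegrable 0 _)]
  have h := intervalIntegral.integral_comp_neg (a := 0) (b := R)
    (fun u : ℝ => gR R u * Real.exp (-u ^ 2 / 2))
  rw [neg_zero] at h
  rw [← h]
  have h2 : ∫ x in (0 : ℝ)..R, gR R (-x) * Real.exp (-(-x) ^ 2 / 2) =
      ∫ u in (0 : ℝ)..R, gR R u * Real.exp (-u ^ 2 / 2) := by
    refine intervalIntegral.integral_congr fun u _ => ?_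
    simp only [gR_neg, neg_sq]
  rw [h2]
  ring

end OML

theorem WR_even (R : ℝ) (z : ℂ) : WR R (-z) = WR R z := by
  unfold WR
  rw [OML.int_neg, neg_sq]

theorem WR_real (R : ℝ) (x : ℝ) : WR R (x : ℂ) = ((WR R (x : ℂ)).re : ℂ) := by
  symm
  rw [← conj_eq_iff_re]
  unfold WR
  rw [map_mul, OML.conj_int, ← exp_conj]
  congr 2
  rw [map_div₀, map_neg, map_pow, conj_ofReal]
  congr 1
  exact Complex.conj_ofReal 2

theorem om_eq {R : ℝ} (hR : 1 ≤ R) : om R = Real.sqrt (2 * Real.pi) *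
    (2 * ∫ u in (0 : ℝ)..R, gR R u * Real.exp (-u ^ 2 / 2)) := by
  have h := OML.om_cplx hR
  rw [OML.om_sym] at h
  exact_mod_cast h

theorem t_OM : S_OM := by
  set b : ℝ := 1 / 2 with hb
  have hpi := Real.pi_pos
  have hI0 : Integrable (fun u : ℝ => Real.exp (-b * u ^ 2)) :=
    integrable_exp_neg_mul_sq (by norm_num)
  have hI2 : Integrable (fun u : ℝ => u ^ 2 * Real.exp (-b * u ^ 2)) := by
    have := integrable_rpow_mul_exp_neg_mul_sq (b := b) (by norm_num) (s := 2) (by norm_num)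
    simpa using this
  set M : ℝ := ∫ u in Ioi (0 : ℝ), u ^ 2 * Real.exp (-b * u ^ 2) with hM
  have hM0 : 0 ≤ M := setIntegral_nonneg measurableSet_Ioi fun u _ => by positivity
  set κ : ℝ := Real.sqrt (2 * Real.pi) * (2 * (1 / (2 * Real.pi))) with hκ
  have hκ0 : 0 < κ := by positivity
  refine ⟨κ * 5 * M + 1, by positivity, fun R hR => ?_⟩
  have hR0 : 0 < R := by linarith
  set h : ℝ → ℝ := fun u => (Iic R).indicator (fun u => (1 - (u / R) ^ 2) ^ 5) u with hh
  have hom : om R = κ * ∫ u in Ioi (0 : ℝ), h u * Real.exp (-b * u ^ 2) := by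
    rw [om_eq hR, hκ]
    have e1 : ∫ u in (0 : ℝ)..R, gR R u * Real.exp (-u ^ 2 / 2) =
        1 / (2 * Real.pi) * ∫ u in Ioi (0 : ℝ), h u * Real.exp (-b * u ^ 2) := by
      rw [intervalIntegral.integral_of_le hR0.le, ← integral_const_mul]
      have e2 : Ioc (0 : ℝ) R = Ioi 0 ∩ Iic R := by
        ext x; simp
      rw [e2, ← setIntegral_indicator measurableSet_Iic]
      refine setIntegral_congr_fun measurableSet_Ioi fun u _ => ?_
      simp only [hh, Set.indicator]
      split_ifs with h3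
      · unfold gR
        have : -u ^ 2 / 2 = -b * u ^ 2 := by rw [hb]; ring
        rw [this]
        ring
      · ring
    rw [e1]
    ring
  have hone : (1 : ℝ) = κ * ∫ u in Ioi (0 : ℝ), Real.exp (-b * u ^ 2) := by
    rw [integral_gaussian_Ioi, hκ, hb]
    have : Real.pi / (1 / 2) = 2 * Real.pi := by ring
    rw [this]
    have h2 := Real.mul_self_sqrt (show (0 : ℝ) ≤ 2 * Real.pi by positivity)
    field_simp
    nlinarith
  have hbd : ∀ u ∈ Ioi (0 : ℝ), |h u - 1| ≤ 5 * (u / R) ^ 2 := by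
    intro u hu
    rw [mem_Ioi] at hu
    simp only [hh, Set.indicator]
    split_ifs with h3
    · rw [mem_Iic] at h3
      have h4 : u / R ≤ 1 := by rwa [div_le_one hR0]
      have h5 : 0 ≤ u / R := by positivity
      have h6 : (u / R) ^ 2 ≤ 1 := by nlinarith
      have h7 := one_add_mul_le_pow (a := -(u / R) ^ 2) (by linarith) 5
      have h8 : (1 + -(u / R) ^ 2) ^ 5 ≤ 1 := pow_le_one₀ (by linarith) (by nlinarith)
      have h9 : (1 - (u / R) ^ 2) = (1 + -(u / R) ^ 2) := by ring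
      rw [h9, abs_le]
      constructor
      · push_cast at h7
        linarith
      · have : 0 ≤ 5 * (u / R) ^ 2 := by positivity
        linarith
    · rw [mem_Iic, not_le] at h3
      have h4 : 1 < u / R := by rwa [one_lt_div hR0]
      rw [zero_sub, abs_neg, abs_one]
      nlinarith
  have hmeas : Measurable h := by
    rw [hh]
    exact Measurable.indicator (by fun_prop) measurableSet_Iic
  have hmaj : IntegrableOn (fun u : ℝ => 5 / R ^ 2 * (u ^ 2 * Real.exp (-b * u ^ 2)))
      (Ioi 0) := (hI2.const_mul _).integrableOn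
  have hdiffI : IntegrableOn (fun u : ℝ => (h u - 1) * Real.exp (-b * u ^ 2)) (Ioi 0) := by
    refine hmaj.mono' (Measurable.aestronglyMeasurable (by fun_prop)) ?_
    refine (ae_restrict_iff' measurableSet_Ioi).mpr (Eventually.of_forall fun u hu => ?_)
    rw [norm_mul, Real.norm_eq_abs, Real.norm_eq_abs, abs_of_pos (Real.exp_pos _)]
    calc |h u - 1| * Real.exp (-b * u ^ 2) ≤ 5 * (u / R) ^ 2 * Real.exp (-b * u ^ 2) :=
          mul_le_mul_of_nonneg_right (hbd u hu) (Real.exp_pos _).le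
      _ = _ := by rw [div_pow]; ring
  have hhI : IntegrableOn (fun u : ℝ => h u * Real.exp (-b * u ^ 2)) (Ioi 0) := by
    have := hdiffI.add hI0.integrableOn
    refine this.congr (Eventually.of_forall fun u => ?_)
    simp only [Pi.add_apply]
    ring
  have hfin : om R - 1 = κ * ∫ u in Ioi (0 : ℝ), (h u - 1) * Real.exp (-b * u ^ 2) := by
    conv_lhs => rw [hom]
    conv_lhs => rw [hone]
    have : ∫ u in Ioi (0 : ℝ), (h u - 1) * Real.exp (-b * u ^ 2) =
        (∫ u in Ioi (0 : ℝ), h u * Real.exp (-b * u ^ 2)) -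
          ∫ u in Ioi (0 : ℝ), Real.exp (-b * u ^ 2) := by
      rw [← integral_sub hhI hI0.integrableOn]
      refine integral_congr_ae (Eventually.of_forall fun u => ?_)
      simp only
      ring
    rw [this]
    ring
  rw [hfin, abs_mul, abs_of_pos hκ0]
  have hle : |∫ u in Ioi (0 : ℝ), (h u - 1) * Real.exp (-b * u ^ 2)| ≤ 5 / R ^ 2 * M := by
    rw [hM, ← integral_const_mul]
    refine (abs_integral_le_integral_abs).trans ?_
    refine setIntegral_mono_on hdiffI.abs hmaj measurableSet_Ioi fun u hu => ?_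
    rw [abs_mul, abs_of_pos (Real.exp_pos _)]
    calc |h u - 1| * Real.exp (-b * u ^ 2) ≤ 5 * (u / R) ^ 2 * Real.exp (-b * u ^ 2) :=
          mul_le_mul_of_nonneg_right (hbd u hu) (Real.exp_pos _).le
      _ = _ := by rw [div_pow]; ring
  calc κ * |∫ u in Ioi (0 : ℝ), (h u - 1) * Real.exp (-b * u ^ 2)| ≤ κ * (5 / R ^ 2 * M) :=
        mul_le_mul_of_nonneg_left hle hκ0.le
    _ = κ * 5 * M / R ^ 2 := by ring
    _ ≤ (κ * 5 * M + 1) / R ^ 2 := by gcongr; linarith

end Pool.Agent.H203.ME
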