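import Pool.Agent.H203.ME.MAIN
import Pool.Agent.H203.ME.BBI

set_option autoImplicit false

open Complex Filter Topology Set MeasureTheory

namespace Pool.Agent.H203.ME

theorem t_PRC : S_PRC := by
  intro R hR
  unfold PR
  refine continuous_const.mul (Complex.continuous_re.comp ?_)
  refine continuous_tsum (u := fun n : ℕ =>
    |ArithmeticFunction.vonMangoldt n / Real.sqrt n * cR R (Real.log n)|) (fun n => ?_) (BBIL.coef_summable hR) ?_
  · unfold ee; fun_prop
  · intro n t
    rw [norm_mul, BBIL.norm_ee, mul_one, Complex.norm_real, Real.norm_eq_abs]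

theorem t_BBC : S_BBC := by
  intro F hF R hR
  unfold BB
  refine continuous_const.mul (Complex.continuous_re.comp ?_)
  refine continuous_tsum (u := fun n : ℕ =>
    |ArithmeticFunction.vonMangoldt n / Real.sqrt n * cR R (Real.log n)| * ∫ x : ℝ, |F x|) (fun n => ?_)
    ((BBIL.coef_summable hR).mul_right _) ?_
  · unfold ee; fun_prop
  · intro n t
    rw [norm_mul, norm_mul, BBIL.norm_ee, mul_one, Complex.norm_real, Real.norm_eq_abs]
    exact mul_le_mul_of_nonneg_left (FF_norm_le F _) (abs_nonneg _)

end Pool.Agent.H203.ME
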