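import Pool.Agent.H203.ME.Defs

set_option autoImplicit false

open Complex Filter Topology Set MeasureTheory

namespace Pool.Agent.H203.ME

namespace PRML

/-! ### the kernel weight -/

lemma gauss_int (x : ℝ) {b : ℝ} (hb : 0 < b) :
    ∫ u : ℝ, Real.exp (-b * (u - x) ^ 2) = Real.sqrt (Real.pi / b) := by
  have h := integral_sub_right_eq_self (μ := volume) (fun u : ℝ => Real.exp (-b * u ^ 2)) x
  rw [h, integral_gaussian]

lemma gauss_integrable (x : ℝ) {b : ℝ} (hb : 0 < b) :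
    Integrable (fun u : ℝ => Real.exp (-b * (u - x) ^ 2)) := by
  exact (integrable_exp_neg_mul_sq hb).comp_sub_right x

lemma sqrt_2pi_ge : (2 : ℝ) ≤ Real.sqrt (2 * Real.pi) := by
  apply Real.le_sqrt_of_sq_le
  linarith [Real.pi_gt_three]

lemma sqrt_4pi_le : Real.sqrt (4 * Real.pi) ≤ 4 := by
  rw [Real.sqrt_le_left (by norm_num)]
  linarith [Real.pi_lt_d2]

/-- deficiency of the kernel -/
noncomputable def hh (R x u : ℝ) : ℝ :=
  1 / (2 * Real.pi) * Real.exp (-(u - x) ^ 2 / 2) -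
    (Set.Ioc 0 R).indicator (fun u => gR R u * Real.exp (-(u - x) ^ 2 / 2)) u

lemma exp_form (u x : ℝ) : Real.exp (-(u - x) ^ 2 / 2) = Real.exp (-(1 / 2) * (u - x) ^ 2) := by
  congr 1; ring

lemma hh_integrable (R x : ℝ) : Integrable (hh R x) := by
  unfold hh
  have h1 : Integrable (fun u : ℝ => Real.exp (-(u - x) ^ 2 / 2)) := by
    simp only [exp_form]
    exact gauss_integrable x (by norm_num)
  refine (h1.const_mul _).sub ?_
  rw [integrable_indicator_iff measurableSet_Ioc]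
  have hc : Continuous (fun u : ℝ => gR R u * Real.exp (-(u - x) ^ 2 / 2)) := by
    unfold gR; fun_prop
  exact (hc.integrableOn_Icc (a := 0) (b := R)).mono_set Ioc_subset_Icc_self

lemma hh_integral (R x : ℝ) (hR : 0 ≤ R) :
    ∫ u : ℝ, hh R x u = 1 / (2 * Real.pi) * Real.sqrt (2 * Real.pi) - cR R x := by
  unfold hh cR
  have h1 : Integrable (fun u : ℝ => Real.exp (-(u - x) ^ 2 / 2)) := by
    simp only [exp_form]
    exact gauss_integrable x (by norm_num)
  have hc : Continuous (fun u : ℝ => gR R u * Real.exp (-(u - x) ^ 2 / 2)) := by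
    unfold gR; fun_prop
  rw [integral_sub (h1.const_mul _)
    ((integrable_indicator_iff measurableSet_Ioc).2
      ((hc.integrableOn_Icc (a := 0) (b := R)).mono_set Ioc_subset_Icc_self)),
    integral_indicator measurableSet_Ioc, intervalIntegral.integral_of_le hR,
    integral_const_mul]
  congr 2
  simp only [exp_form]
  rw [gauss_int x (by norm_num)]
  congr 1; ring

lemma hh_nonneg (R x u : ℝ) (hR : 0 < R) : 0 ≤ hh R x u := by
  unfold hh
  have hp := Real.pi_pos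
  by_cases hu : u ∈ Set.Ioc 0 R
  · rw [indicator_of_mem hu]
    have h1 : gR R u ≤ 1 / (2 * Real.pi) := by
      unfold gR
      have hw0 : 0 ≤ (u / R) ^ 2 := sq_nonneg _
      have hw1 : (u / R) ^ 2 ≤ 1 := by
        rw [sq_le_one_iff₀ (div_nonneg hu.1.le hR.le)]
        exact (div_le_one hR).2 hu.2
      have : (1 - (u / R) ^ 2) ^ 5 ≤ 1 := pow_le_one₀ (by linarith) (by linarith)
      have h2 : 0 ≤ 1 / (2 * Real.pi) := by positivity
      nlinarith
    have h3 := Real.exp_pos (-(u - x) ^ 2 / 2)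
    nlinarith
  · rw [indicator_of_notMem hu, sub_zero]
    positivity

lemma one_sub_pow5 {w : ℝ} (h0 : 0 ≤ w) (h1 : w ≤ 1) : 1 - (1 - w) ^ 5 ≤ 5 * w := by
  have := one_add_mul_le_pow (a := -w) (by linarith) 5
  have h : (1 + -w) ^ 5 = (1 - w) ^ 5 := by ring
  rw [h] at this
  push_cast at this
  linarith

lemma sq_exp_le (u x : ℝ) : u ^ 2 * Real.exp (-(u - x) ^ 2 / 2) ≤
    (8 + 2 * x ^ 2) * Real.exp (-(1 / 4) * (u - x) ^ 2) := by
  have h1 : u ^ 2 ≤ 2 * (u - x) ^ 2 + 2 * x ^ 2 := by nlinarith [sq_nonneg (u - 2 * x)]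
  set v := (u - x) ^ 2 with hv
  have hv0 : 0 ≤ v := sq_nonneg _
  have h2 : v ≤ 4 * Real.exp (v / 4) := by
    have := Real.add_one_le_exp (v / 4)
    linarith
  have h3 : Real.exp (-v / 2) = Real.exp (-(1 / 4) * v) * Real.exp (-v / 4) := by
    rw [← Real.exp_add]; congr 1; ring
  have h4 : Real.exp (v / 4) * Real.exp (-v / 4) = 1 := by
    rw [← Real.exp_add]; simp [neg_div]
  have h5 : Real.exp (-v / 4) ≤ 1 := by
    rw [Real.exp_le_one_iff]; linarith
  have h6 := Real.exp_pos (-v / 4)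
  have h7 := Real.exp_pos (-(1 / 4) * v)
  rw [h3]
  have h8 : u ^ 2 * Real.exp (-v / 4) ≤ 8 + 2 * x ^ 2 := by
    have h9 : u ^ 2 * Real.exp (-v / 4) ≤ (2 * (4 * Real.exp (v / 4)) + 2 * x ^ 2) * Real.exp (-v / 4) := by
      apply mul_le_mul_of_nonneg_right _ h6.le
      linarith
    have h10 : (2 * (4 * Real.exp (v / 4)) + 2 * x ^ 2) * Real.exp (-v / 4) =
        8 + 2 * x ^ 2 * Real.exp (-v / 4) := by
      linear_combination 8 * h4
    have h11 : 2 * x ^ 2 * Real.exp (-v / 4) ≤ 2 * x ^ 2 := by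
      have := sq_nonneg x
      nlinarith
    linarith
  calc u ^ 2 * (Real.exp (-(1 / 4) * v) * Real.exp (-v / 4))
      = (u ^ 2 * Real.exp (-v / 4)) * Real.exp (-(1 / 4) * v) := by ring
    _ ≤ _ := mul_le_mul_of_nonneg_right h8 h7.le

lemma hh_le (R x u : ℝ) (hR : 0 < R) (hx : 0 ≤ x) : hh R x u ≤
    Real.exp (-x ^ 2 / 2) * Real.exp (-(1 / 2) * (u - 0) ^ 2) +
      5 / R ^ 2 * ((8 + 2 * x ^ 2) * Real.exp (-(1 / 4) * (u - x) ^ 2)) := by
  have hp := Real.pi_gt_three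
  have hq0 : 0 < 1 / (2 * Real.pi) := by positivity
  have hq : 1 / (2 * Real.pi) ≤ 1 := by
    rw [div_le_one (by positivity)]; linarith
  have hs := sq_exp_le u x
  have hG := Real.exp_pos (-(u - x) ^ 2 / 2)
  have hA : 0 < Real.exp (-x ^ 2 / 2) * Real.exp (-(1 / 2) * (u - 0) ^ 2) := by positivity
  have hR2 : 0 < R ^ 2 := by positivity
  have key : 5 / R ^ 2 * (u ^ 2 * Real.exp (-(u - x) ^ 2 / 2)) ≤
      5 / R ^ 2 * ((8 + 2 * x ^ 2) * Real.exp (-(1 / 4) * (u - x) ^ 2)) :=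
    mul_le_mul_of_nonneg_left hs (by positivity)
  unfold hh
  by_cases hu : u ∈ Set.Ioc 0 R
  · rw [indicator_of_mem hu]
    have hw0 : 0 ≤ (u / R) ^ 2 := sq_nonneg _
    have hw1 : (u / R) ^ 2 ≤ 1 := by
      rw [sq_le_one_iff₀ (div_nonneg hu.1.le hR.le)]
      exact (div_le_one hR).2 hu.2
    have h5 := one_sub_pow5 hw0 hw1
    have h6 : 1 / (2 * Real.pi) * Real.exp (-(u - x) ^ 2 / 2) - gR R u * Real.exp (-(u - x) ^ 2 / 2)
        = 1 / (2 * Real.pi) * ((1 - (1 - (u / R) ^ 2) ^ 5) * Real.exp (-(u - x) ^ 2 / 2)) := by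
      unfold gR; ring
    have h60 : 0 ≤ 1 - (1 - (u / R) ^ 2) ^ 5 := by
      have : (1 - (u / R) ^ 2) ^ 5 ≤ 1 := pow_le_one₀ (by linarith) (by linarith)
      linarith
    have h7 : 1 / (2 * Real.pi) * ((1 - (1 - (u / R) ^ 2) ^ 5) * Real.exp (-(u - x) ^ 2 / 2)) ≤
        1 * ((5 * (u / R) ^ 2) * Real.exp (-(u - x) ^ 2 / 2)) := by
      apply mul_le_mul hq (mul_le_mul_of_nonneg_right h5 hG.le) (by positivity) (by norm_num)
    have h8 : 1 * ((5 * (u / R) ^ 2) * Real.exp (-(u - x) ^ 2 / 2)) =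
        5 / R ^ 2 * (u ^ 2 * Real.exp (-(u - x) ^ 2 / 2)) := by
      rw [div_pow]; ring
    rw [h6]
    linarith
  · rw [indicator_of_notMem hu, sub_zero]
    rw [Set.mem_Ioc, not_and_or, not_lt, not_le] at hu
    have hK : 0 ≤ 5 / R ^ 2 * ((8 + 2 * x ^ 2) * Real.exp (-(1 / 4) * (u - x) ^ 2)) := by positivity
    rcases hu with hu | hu
    · have h1 : Real.exp (-(u - x) ^ 2 / 2) ≤ Real.exp (-x ^ 2 / 2) * Real.exp (-(1 / 2) * (u - 0) ^ 2) := by
        rw [← Real.exp_add, Real.exp_le_exp]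
        nlinarith [mul_nonneg hx (neg_nonneg.2 hu)]
      nlinarith
    · have h1 : 1 ≤ u ^ 2 / R ^ 2 := by
        rw [le_div_iff₀ hR2, one_mul]
        exact pow_le_pow_left₀ hR.le hu.le 2
      have h2 : Real.exp (-(u - x) ^ 2 / 2) ≤ 5 / R ^ 2 * (u ^ 2 * Real.exp (-(u - x) ^ 2 / 2)) := by
        have : 5 / R ^ 2 * (u ^ 2 * Real.exp (-(u - x) ^ 2 / 2)) =
          5 * (u ^ 2 / R ^ 2) * Real.exp (-(u - x) ^ 2 / 2) := by ring
        rw [this]
        nlinarith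
      nlinarith

/-- normalised weight -/
noncomputable def kap (R x : ℝ) : ℝ := 2 / Real.sqrt (2 * Real.pi) * cR R x

lemma one_div_pi_eq : 2 / Real.sqrt (2 * Real.pi) * (1 / (2 * Real.pi) * Real.sqrt (2 * Real.pi)) = 1 / Real.pi := by
  have hs : 0 < Real.sqrt (2 * Real.pi) := by have := Real.pi_pos; positivity
  have hp := Real.pi_pos
  field_simp

lemma kap_diff (R x : ℝ) (hR : 0 ≤ R) :
    1 / Real.pi - kap R x = 2 / Real.sqrt (2 * Real.pi) * ∫ u : ℝ, hh R x u := by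
  rw [hh_integral R x hR, mul_sub, one_div_pi_eq]; rfl

lemma two_div_le_one : 2 / Real.sqrt (2 * Real.pi) ≤ 1 := by
  have hs := sqrt_2pi_ge
  rw [div_le_one (by linarith)]
  exact hs

lemma cR_nonneg (R x : ℝ) (hR : 0 < R) : 0 ≤ cR R x := by
  unfold cR
  apply intervalIntegral.integral_nonneg hR.le
  intro u hu
  have hw1 : (u / R) ^ 2 ≤ 1 := by
    rw [sq_le_one_iff₀ (div_nonneg hu.1 hR.le)]
    exact (div_le_one hR).2 hu.2
  have : 0 ≤ (1 - (u / R) ^ 2) ^ 5 := pow_nonneg (by linarith) 5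
  have hp := Real.pi_pos
  unfold gR
  positivity

lemma kap_nonneg (R x : ℝ) (hR : 0 < R) : 0 ≤ kap R x :=
  mul_nonneg (by positivity) (cR_nonneg R x hR)

lemma kap_le (R x : ℝ) (hR : 0 < R) : kap R x ≤ 1 := by
  have h1 := kap_diff R x hR.le
  have h2 : 0 ≤ ∫ u : ℝ, hh R x u := integral_nonneg fun u => hh_nonneg R x u hR
  have h3 : 1 / Real.pi ≤ 1 := by
    rw [div_le_one Real.pi_pos]; linarith [Real.pi_gt_three]
  have h4 : 0 ≤ 2 / Real.sqrt (2 * Real.pi) * ∫ u : ℝ, hh R x u := mul_nonneg (by positivity) h2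
  linarith

lemma kap_close (R x : ℝ) (hR : 0 < R) (hx : 0 ≤ x) :
    |kap R x - 1 / Real.pi| ≤ 2 * Real.exp (-x ^ 2 / 2) * 2 + 160 * (1 + x ^ 2) / R ^ 2 := by
  have h1 := kap_diff R x hR.le
  have h2 : 0 ≤ ∫ u : ℝ, hh R x u := integral_nonneg fun u => hh_nonneg R x u hR
  have h3 : ∫ u : ℝ, hh R x u ≤ ∫ u : ℝ, (Real.exp (-x ^ 2 / 2) * Real.exp (-(1 / 2) * (u - 0) ^ 2) +
      5 / R ^ 2 * ((8 + 2 * x ^ 2) * Real.exp (-(1 / 4) * (u - x) ^ 2))) := by
    apply integral_mono (hh_integrable R x)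
    · exact ((gauss_integrable 0 (by norm_num)).const_mul _).add
        (((gauss_integrable x (by norm_num)).const_mul _).const_mul _)
    · intro u; exact hh_le R x u hR hx
  rw [integral_add ((gauss_integrable 0 (by norm_num)).const_mul _)
    (((gauss_integrable x (by norm_num)).const_mul _).const_mul _), integral_const_mul,
    integral_const_mul, integral_const_mul, gauss_int 0 (by norm_num), gauss_int x (by norm_num)] at h3
  have h4 : Real.sqrt (Real.pi / (1 / 2)) ≤ 4 := by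
    rw [Real.sqrt_le_left (by norm_num)]
    linarith [Real.pi_lt_d2]
  have h5 : Real.sqrt (Real.pi / (1 / 4)) ≤ 4 := by
    rw [Real.sqrt_le_left (by norm_num)]
    linarith [Real.pi_lt_d2]
  have h6 : ∫ u : ℝ, hh R x u ≤ Real.exp (-x ^ 2 / 2) * 4 + 5 / R ^ 2 * ((8 + 2 * x ^ 2) * 4) := by
    refine h3.trans ?_
    gcongr
  have h7 : 5 / R ^ 2 * ((8 + 2 * x ^ 2) * 4) ≤ 160 * (1 + x ^ 2) / R ^ 2 := by
    have : 5 / R ^ 2 * ((8 + 2 * x ^ 2) * 4) = (160 + 40 * x ^ 2) / R ^ 2 := by ring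
    rw [this]
    gcongr
    nlinarith [sq_nonneg x]
  have h8 : 2 / Real.sqrt (2 * Real.pi) * ∫ u : ℝ, hh R x u ≤ 1 * ∫ u : ℝ, hh R x u :=
    mul_le_mul_of_nonneg_right two_div_le_one h2
  have h9 : 0 ≤ 2 / Real.sqrt (2 * Real.pi) * ∫ u : ℝ, hh R x u := mul_nonneg (by positivity) h2
  rw [abs_sub_comm, abs_of_nonneg (by linarith)]
  linarith

lemma cR_tail (R x : ℝ) (hR : 0 < R) (hx : 2 * R ≤ x) : cR R x ≤ R * Real.exp (-x ^ 2 / 8) := by
  unfold cR
  have hc : Continuous (fun u : ℝ => gR R u * Real.exp (-(u - x) ^ 2 / 2)) := by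
    unfold gR; fun_prop
  have h1 : ∫ u in (0 : ℝ)..R, gR R u * Real.exp (-(u - x) ^ 2 / 2) ≤
      ∫ u in (0 : ℝ)..R, Real.exp (-x ^ 2 / 8) := by
    apply intervalIntegral.integral_mono_on hR.le (hc.intervalIntegrable _ _) (by simp)
    intro u hu
    have hw1 : (u / R) ^ 2 ≤ 1 := by
      rw [sq_le_one_iff₀ (div_nonneg hu.1 hR.le)]
      exact (div_le_one hR).2 hu.2
    have hw0 : 0 ≤ (u / R) ^ 2 := sq_nonneg _
    have h5 : (1 - (u / R) ^ 2) ^ 5 ≤ 1 := pow_le_one₀ (by linarith) (by linarith)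
    have h50 : 0 ≤ (1 - (u / R) ^ 2) ^ 5 := pow_nonneg (by linarith) 5
    have hp := Real.pi_gt_three
    have hq : 1 / (2 * Real.pi) ≤ 1 := by
      rw [div_le_one (by positivity)]; linarith
    have hg : gR R u ≤ 1 := by
      unfold gR
      calc 1 / (2 * Real.pi) * (1 - (u / R) ^ 2) ^ 5 ≤ 1 * 1 :=
            mul_le_mul hq h5 h50 (by norm_num)
        _ = 1 := by norm_num
    have hg0 : 0 ≤ gR R u := by unfold gR; positivity
    have he : Real.exp (-(u - x) ^ 2 / 2) ≤ Real.exp (-x ^ 2 / 8) := by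
      rw [Real.exp_le_exp]
      have h6 : x / 2 ≤ x - u := by linarith [hu.2]
      have h7 : 0 ≤ x / 2 := by linarith
      nlinarith [mul_self_le_mul_self h7 h6]
    calc gR R u * Real.exp (-(u - x) ^ 2 / 2) ≤ 1 * Real.exp (-x ^ 2 / 8) :=
          mul_le_mul hg he (Real.exp_pos _).le (by norm_num)
      _ = _ := one_mul _
  simpa using h1

end PRML


namespace PRML

lemma norm_e (r : ℝ) : ‖cexp (-((r : ℂ) * I))‖ = 1 := by
  have : -((r : ℂ) * I) = ((-r : ℝ) : ℂ) * I := by push_cast; ring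
  rw [this, Complex.norm_exp_ofReal_mul_I]

lemma norm_ee (n : ℕ) (t : ℝ) : ‖ee n t‖ = 1 := norm_e _

lemma F_hcs {F : ℝ → ℝ} (h : C2c F) : HasCompactSupport F := by
  apply HasCompactSupport.intro (K := Set.Icc (-1) 1) isCompact_Icc
  intro x hx
  apply h.supp
  by_contra hc
  rw [not_le, abs_lt] at hc
  exact hx ⟨hc.1.le, hc.2.le⟩

lemma F_cont {F : ℝ → ℝ} (h : C2c F) : Continuous F := h.cd.continuous

lemma F_diff {F : ℝ → ℝ} (h : C2c F) (x : ℝ) : HasDerivAt F (deriv F x) x :=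
  (h.cd.differentiable (by norm_num) x).hasDerivAt

lemma F1_cd {F : ℝ → ℝ} (h : C2c F) : ContDiff ℝ 1 (deriv F) := by
  have := h.cd
  rw [show (2 : WithTop ℕ∞) = 1 + 1 by norm_num, contDiff_succ_iff_deriv] at this
  exact this.2.2

lemma F1_diff {F : ℝ → ℝ} (h : C2c F) (x : ℝ) : HasDerivAt (deriv F) (deriv (deriv F) x) x :=
  ((F1_cd h).differentiable (by norm_num) x).hasDerivAt

lemma F2_cont {F : ℝ → ℝ} (h : C2c F) : Continuous (deriv (deriv F)) := by
  have := F1_cd h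
  exact this.continuous_deriv (by norm_num)

lemma F1_hcs {F : ℝ → ℝ} (h : C2c F) : HasCompactSupport (deriv F) := (F_hcs h).deriv

lemma F2_hcs {F : ℝ → ℝ} (h : C2c F) : HasCompactSupport (deriv (deriv F)) := (F1_hcs h).deriv

/-- Fourier transform of a general real function -/
noncomputable def FT (f : ℝ → ℝ) (ξ : ℝ) : ℂ := ∫ s : ℝ, (f s : ℂ) * cexp (-(((ξ * s : ℝ) : ℂ) * I))

lemma FT_norm_le (f : ℝ → ℝ) (ξ : ℝ) : ‖FT f ξ‖ ≤ ∫ s : ℝ, |f s| := by
  unfold FT
  refine (norm_integral_le_integral_norm _).trans (le_of_eq ?_)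
  congr 1
  ext s
  rw [norm_mul, norm_e, mul_one, Complex.norm_real, Real.norm_eq_abs]

lemma FT_deriv {f : ℝ → ℝ} {f' : ℝ → ℝ} (hf : ∀ x, HasDerivAt f (f' x) x) (hc : Continuous f')
    (hs : HasCompactSupport f) (hs' : HasCompactSupport f') (ξ : ℝ) :
    FT f' ξ = (I * ξ) * FT f ξ := by
  have hcf : Continuous f := continuous_iff_continuousAt.2 fun x => (hf x).continuousAt
  have hE : Continuous (fun s : ℝ => cexp (-(((ξ * s : ℝ) : ℂ) * I))) := by fun_prop
  have hv : ∀ s : ℝ, HasDerivAt (fun s : ℝ => cexp (-(((ξ * s : ℝ) : ℂ) * I)))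
      (-(ξ * I) * cexp (-(((ξ * s : ℝ) : ℂ) * I))) s := by
    intro s
    have h1 : HasDerivAt (fun s : ℝ => (-(((ξ * s : ℝ) : ℂ) * I))) (-(ξ * I)) s := by
      have h2 : HasDerivAt (fun s : ℝ => ((ξ * s : ℝ) : ℂ)) ((ξ : ℝ) : ℂ) s := by
        have h3 : HasDerivAt (fun s : ℝ => ξ * s) ξ s := by
          simpa using (hasDerivAt_id s).const_mul ξ
        exact h3.ofReal_comp
      exact (h2.mul_const I).neg
    have h4 := h1.cexp
    rw [mul_comm] at h4
    exact h4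
  have hcs : ∀ {g : ℝ → ℝ}, HasCompactSupport g → HasCompactSupport (fun s => ((g s : ℝ) : ℂ)) := by
    intro g hg
    exact hg.comp_left (g := fun r : ℝ => (r : ℂ)) (by simp)
  have key := MeasureTheory.integral_mul_deriv_eq_deriv_mul_of_integrable
    (u := fun s : ℝ => (f s : ℂ)) (v := fun s : ℝ => cexp (-(((ξ * s : ℝ) : ℂ) * I)))
    (u' := fun s : ℝ => (f' s : ℂ)) (v' := fun s => -(ξ * I) * cexp (-(((ξ * s : ℝ) : ℂ) * I)))
    (fun s _ => (hf s).ofReal_comp) (fun s _ => hv s)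
    (by
      apply Continuous.integrable_of_hasCompactSupport
      · exact (Complex.continuous_ofReal.comp hcf).mul (continuous_const.mul hE)
      · exact (hcs hs).mul_right)
    (by
      apply Continuous.integrable_of_hasCompactSupport
      · exact (Complex.continuous_ofReal.comp hc).mul hE
      · exact (hcs hs').mul_right)
    (by
      apply Continuous.integrable_of_hasCompactSupport
      · exact (Complex.continuous_ofReal.comp hcf).mul hE
      · exact (hcs hs).mul_right)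
  have h5 : (∫ s : ℝ, (f s : ℂ) * (-(ξ * I) * cexp (-(((ξ * s : ℝ) : ℂ) * I)))) =
      -(ξ * I) * FT f ξ := by
    unfold FT
    rw [← integral_const_mul]
    congr 1
    ext s
    ring
  rw [h5] at key
  have h6 : (∫ s : ℝ, (f' s : ℂ) * cexp (-(((ξ * s : ℝ) : ℂ) * I))) = FT f' ξ := rfl
  rw [h6] at key
  linear_combination key

lemma FF_eq (F : ℝ → ℝ) (ξ : ℝ) : FF F ξ = FT F ξ := rfl

lemma FF_l1 {F : ℝ → ℝ} {η V L : ℝ} (h : Adm η V L F) (ξ : ℝ) : ‖FF F ξ‖ ≤ η :=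
  (FT_norm_le F ξ).trans h.l1

lemma FF_l2 {F : ℝ → ℝ} {η V L : ℝ} (h : Adm η V L F) (ξ : ℝ) : ξ ^ 2 * ‖FF F ξ‖ ≤ η * L := by
  have h1 := FT_deriv (F_diff h.c2) (F1_cd h.c2).continuous (F_hcs h.c2) (F1_hcs h.c2) ξ
  have h2 := FT_deriv (F1_diff h.c2) (F2_cont h.c2) (F1_hcs h.c2) (F2_hcs h.c2) ξ
  have h3 := (FT_norm_le (deriv (deriv F)) ξ).trans h.l2
  rw [h2, h1, norm_mul, norm_mul, norm_mul (I * (ξ : ℂ)), norm_mul I, norm_I, one_mul, Complex.norm_real, Real.norm_eq_abs] at h3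
  have h4 : |ξ| * (|ξ| * ‖FT F ξ‖) = ξ ^ 2 * ‖FF F ξ‖ := by
    rw [← sq_abs ξ, FF_eq]; ring
  rw [h4] at h3
  exact h3

end PRML


namespace PRML

/-! ### sums over primes -/

lemma log_sq_le {x : ℝ} (hx : 1 ≤ x) : (Real.log x) ^ 2 ≤ 4 * x := by
  have h0 : 0 < Real.sqrt x := Real.sqrt_pos.2 (by linarith)
  have h1 : Real.log (Real.sqrt x) ≤ Real.sqrt x := by
    have := Real.log_le_sub_one_of_pos h0
    linarith
  rw [Real.log_sqrt (by linarith)] at h1
  have h2 : 0 ≤ Real.log x := Real.log_nonneg hx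
  have h3 : Real.log x ≤ 2 * Real.sqrt x := by linarith
  have h4 := Real.sq_sqrt (by linarith : 0 ≤ x)
  nlinarith

lemma exp_neg_logsq_le {n : ℕ} (hn : 1 ≤ n) :
    Real.exp (-(Real.log n) ^ 2) ≤ 3 * (1 / (n : ℝ) ^ 2) := by
  have hn0 : (0 : ℝ) < n := by exact_mod_cast hn
  have h1 : -(Real.log n) ^ 2 ≤ 1 + -(2 * Real.log n) := by nlinarith [sq_nonneg (Real.log n - 1)]
  have h2 : Real.exp (-(2 * Real.log n)) = 1 / (n : ℝ) ^ 2 := by
    rw [Real.exp_neg, show 2 * Real.log n = Real.log ((n : ℝ) ^ 2) by rw [Real.log_pow]; norm_num,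
      Real.exp_log (by positivity)]
    simp
  calc Real.exp (-(Real.log n) ^ 2) ≤ Real.exp (1 + -(2 * Real.log n)) := Real.exp_le_exp.2 h1
    _ = Real.exp 1 * (1 / (n : ℝ) ^ 2) := by rw [Real.exp_add, h2]
    _ ≤ 3 * (1 / (n : ℝ) ^ 2) := by
      apply mul_le_mul_of_nonneg_right _ (by positivity)
      linarith [Real.exp_one_lt_d9]

lemma sum_gauss_primes : ∃ C : ℝ, 0 < C ∧ ∀ X : ℕ,
    ∑ n ∈ Finset.Icc 1 X, (Real.log n) ^ 2 / n * Real.exp (-(Real.log n) ^ 2) ≤ C := by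
  have hs : Summable (fun n : ℕ => 1 / (n : ℝ) ^ 2) := by
    exact Real.summable_one_div_nat_pow.2 (by norm_num)
  refine ⟨12 * ∑' n : ℕ, 1 / (n : ℝ) ^ 2 + 1, ?_, fun X => ?_⟩
  · have : 0 ≤ ∑' n : ℕ, 1 / (n : ℝ) ^ 2 := tsum_nonneg fun n => by positivity
    linarith
  · have h1 : ∑ n ∈ Finset.Icc 1 X, (Real.log n) ^ 2 / n * Real.exp (-(Real.log n) ^ 2) ≤
        ∑ n ∈ Finset.Icc 1 X, 12 * (1 / (n : ℝ) ^ 2) := by
      refine Finset.sum_le_sum fun n hn => ?_
      have hn1 : 1 ≤ n := (Finset.mem_Icc.1 hn).1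
      have hn0 : (0 : ℝ) < n := by exact_mod_cast hn1
      have h2 : (Real.log n) ^ 2 / n ≤ 4 := by
        rw [div_le_iff₀ hn0]
        exact log_sq_le (by exact_mod_cast hn1)
      have h3 := exp_neg_logsq_le hn1
      calc (Real.log n) ^ 2 / n * Real.exp (-(Real.log n) ^ 2) ≤ 4 * (3 * (1 / (n : ℝ) ^ 2)) :=
            mul_le_mul h2 h3 (Real.exp_pos _).le (by norm_num)
        _ = _ := by ring
    rw [← Finset.mul_sum] at h1
    have h4 : ∑ n ∈ Finset.Icc 1 X, 1 / (n : ℝ) ^ 2 ≤ ∑' n : ℕ, 1 / (n : ℝ) ^ 2 :=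
      hs.sum_le_tsum _ (fun n _ => by positivity)
    linarith

/-- the discrete summation by parts -/
lemma sum_cubes (N : ℕ) (hN : 3 ≤ N) (X : ℕ) (hX : N ≤ X) :
    ∑ n ∈ Finset.Ioc N X, ArithmeticFunction.vonMangoldt n / n * (1 / (Real.log n) ^ 3) ≤
      (1 / (2 * (Real.log N) ^ 2) - 1 / (2 * (Real.log X) ^ 2)) +
      6 * (1 / (Real.log N) ^ 3 - 1 / (Real.log X) ^ 3) +
      ((∑ d ∈ Finset.Icc 1 X, ArithmeticFunction.vonMangoldt d / d) - Real.log X) * (1 / (Real.log X) ^ 3) -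
      ((∑ d ∈ Finset.Icc 1 N, ArithmeticFunction.vonMangoldt d / d) - Real.log N) * (1 / (Real.log N) ^ 3) := by
  induction X, hX using Nat.le_induction with
  | base => simp
  | succ X hX ih =>
    have hX1 : 1 ≤ X := by omega
    have hXR : (1 : ℝ) < X := by exact_mod_cast (by omega : 1 < X)
    rw [Finset.sum_Ioc_succ_top (by omega : N ≤ X)]
    have h1 : ∑ d ∈ Finset.Icc 1 (X + 1), ArithmeticFunction.vonMangoldt d / (d : ℝ) =
        ∑ d ∈ Finset.Icc 1 X, ArithmeticFunction.vonMangoldt d / (d : ℝ) +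
          ArithmeticFunction.vonMangoldt (X + 1) / ((X + 1 : ℕ) : ℝ) := by
      rw [Finset.sum_Icc_succ_top (by omega)]
    have hup := H370.nt_mertens_upper X hX1
    set A := ∑ d ∈ Finset.Icc 1 X, ArithmeticFunction.vonMangoldt d / (d : ℝ) with hA
    set a := Real.log X with ha
    set b := Real.log ((X + 1 : ℕ) : ℝ) with hb
    have ha0 : 0 < a := Real.log_pos hXR
    have hab : a < b := by
      apply Real.log_lt_log (by linarith)
      push_cast; linarith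
    have hb0 : 0 < b := ha0.trans hab
    rw [h1]
    have h2 : 1 / b ^ 3 ≤ 1 / a ^ 3 := by
      apply one_div_le_one_div_of_le (by positivity)
      exact pow_le_pow_left₀ ha0.le hab.le 3
    have h3 : (b - a) * (1 / b ^ 3) ≤ 1 / (2 * a ^ 2) - 1 / (2 * b ^ 2) := by
      rw [div_sub_div _ _ (by positivity) (by positivity), ← mul_div_assoc, mul_one,
        div_le_div_iff₀ (by positivity) (by positivity)]
      have h4 : 0 ≤ (b - a) * b ^ 2 * (b - a) * (b + 2 * a) := by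
        have : 0 ≤ b - a := by linarith
        positivity
      nlinarith [h4, mul_pos ha0 hb0]
    have h5 : (A - a) * (1 / a ^ 3 - 1 / b ^ 3) ≤ 6 * (1 / a ^ 3 - 1 / b ^ 3) := by
      apply mul_le_mul_of_nonneg_right _ (by linarith)
      linarith
    nlinarith [ih, h3, h5]

lemma sum_cubes' (N : ℕ) (hN : 3 ≤ N) (X : ℕ) (hX : N ≤ X) :
    ∑ n ∈ Finset.Ioc N X, ArithmeticFunction.vonMangoldt n / n * (1 / (Real.log n) ^ 3) ≤
      8 / (Real.log N) ^ 2 := by
  refine (sum_cubes N hN X hX).trans ?_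
  have h3 : (1 : ℝ) ≤ Real.log N := by
    rw [Real.le_log_iff_exp_le (by exact_mod_cast (by omega : 0 < N))]
    have : (3 : ℝ) ≤ N := by exact_mod_cast hN
    linarith [Real.exp_one_lt_d9]
  have hX3 : (1 : ℝ) ≤ Real.log X := by
    rw [Real.le_log_iff_exp_le (by exact_mod_cast (by omega : 0 < X))]
    have : (3 : ℝ) ≤ X := by exact_mod_cast (hN.trans hX)
    linarith [Real.exp_one_lt_d9]
  have hup := H370.nt_mertens_upper X (by omega)
  have hlo := H370.nt_mertens_lower N (by omega)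
  set A := ∑ d ∈ Finset.Icc 1 X, ArithmeticFunction.vonMangoldt d / (d : ℝ) with hA
  set B := ∑ d ∈ Finset.Icc 1 N, ArithmeticFunction.vonMangoldt d / (d : ℝ) with hB
  set a := Real.log N with ha
  set b := Real.log X with hb
  have h1 : (A - b) * (1 / b ^ 3) ≤ 6 * (1 / b ^ 3) := by
    apply mul_le_mul_of_nonneg_right _ (by positivity)
    linarith
  have h2 : -1 * (1 / a ^ 3) ≤ (B - a) * (1 / a ^ 3) := by
    apply mul_le_mul_of_nonneg_right _ (by positivity)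
    linarith
  have h4 : 1 / a ^ 3 ≤ 1 / a ^ 2 := by
    apply one_div_le_one_div_of_le (by positivity)
    nlinarith [sq_nonneg a]
  have h5 : 0 ≤ 1 / (2 * b ^ 2) := by positivity
  have h6 : 1 / (2 * a ^ 2) = 1 / 2 * (1 / a ^ 2) := by
    field_simp
  have h7 : 8 / a ^ 2 = 8 * (1 / a ^ 2) := by ring
  have h8 : 0 ≤ 1 / a ^ 2 := by positivity
  rw [h6, h7]
  linarith

/-- the prime powers -/
lemma sum_prime_powers : ∃ C : ℝ, 0 < C ∧ ∀ X : ℕ,
    ∑ n ∈ (Finset.Icc 1 X).filter (fun n => ¬ n.Prime), (ArithmeticFunction.vonMangoldt n) ^ 2 / n ≤ C := by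
  have hs : Summable (fun n : ℕ => 32 / (n : ℝ) ^ (3 / 2 : ℝ)) := by
    have := (Real.summable_one_div_nat_rpow (p := 3 / 2)).2 (by norm_num)
    have h2 := this.mul_left 32
    simpa [div_eq_mul_inv] using h2
  refine ⟨∑' n : ℕ, 32 / (n : ℝ) ^ (3 / 2 : ℝ) + 1, ?_, fun X => ?_⟩
  · have : 0 ≤ ∑' n : ℕ, 32 / (n : ℝ) ^ (3 / 2 : ℝ) := tsum_nonneg fun n => by positivity
    linarith
  · classical
    -- only prime powers matter
    set S := (Finset.Icc 1 X).filter (fun n => ¬ n.Prime) with hS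
    set S' := S.filter IsPrimePow with hS'
    have h1 : ∑ n ∈ S, (ArithmeticFunction.vonMangoldt n) ^ 2 / (n : ℝ) =
        ∑ n ∈ S', (ArithmeticFunction.vonMangoldt n) ^ 2 / (n : ℝ) := by
      refine (Finset.sum_filter_of_ne ?_).symm
      intro n _ hne
      by_contra hn
      apply hne
      rw [ArithmeticFunction.vonMangoldt_apply, if_neg hn]; simp
    set P := ((Finset.Icc 2 X) ×ˢ (Finset.range X)).filter (fun q : ℕ × ℕ => q.1.Prime) with hP
    have hmap : ∀ n ∈ S', ∃ q ∈ P, q.1 ^ (q.2 + 2) = n := by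
      intro n hn
      rw [hS', Finset.mem_filter, hS, Finset.mem_filter, Finset.mem_Icc] at hn
      obtain ⟨⟨⟨hn1, hnX⟩, hnp⟩, hpp⟩ := hn
      obtain ⟨p, k, hp, hk, rfl⟩ := (isPrimePow_nat_iff _).1 hpp
      have hk2 : 2 ≤ k := by
        by_contra hc
        have : k = 1 := by omega
        subst this
        rw [pow_one] at hnp
        exact hnp hp
      refine ⟨(p, k - 2), ?_, ?_⟩
      · rw [hP, Finset.mem_filter, Finset.mem_product, Finset.mem_Icc, Finset.mem_range]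
        have hpX : p ≤ X := (Nat.le_self_pow (by omega) p).trans hnX
        have hkX : k < X + 1 := by
          have := Nat.lt_pow_self hp.one_lt (n := k)
          omega
        refine ⟨⟨⟨hp.two_le, hpX⟩, by simp only; omega⟩, hp⟩
      · simp only
        congr 1
        omega
    have h2 : ∑ n ∈ S', (ArithmeticFunction.vonMangoldt n) ^ 2 / (n : ℝ) ≤
        ∑ q ∈ P, (Real.log q.1) ^ 2 / ((q.1 : ℝ) ^ (q.2 + 2)) := by
      choose! g hg using hmap
      have hinj : Set.InjOn g S' := by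
        intro x hx y hy hxy
        rw [← (hg x hx).2, ← (hg y hy).2, hxy]
      have hsub : S'.image g ⊆ P := by
        intro q hq
        rw [Finset.mem_image] at hq
        obtain ⟨n, hn, rfl⟩ := hq
        exact (hg n hn).1
      refine le_trans (le_of_eq ?_) (Finset.sum_le_sum_of_subset_of_nonneg hsub
        (fun q _ _ => by positivity))
      rw [Finset.sum_image hinj]
      refine Finset.sum_congr rfl fun n hn => ?_
      have hgn := hg n hn
      have hp : (g n).1.Prime := by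
        have := hgn.1
        rw [hP, Finset.mem_filter] at this
        exact this.2
      have hL : ArithmeticFunction.vonMangoldt n = Real.log (g n).1 := by
        conv_lhs => rw [← hgn.2]
        rw [ArithmeticFunction.vonMangoldt_apply_pow (by omega), ArithmeticFunction.vonMangoldt_apply_prime hp]
      rw [hL]
      congr 1
      rw [← hgn.2]
      push_cast
      rw [hgn.2]
    have h3 : ∑ q ∈ P, (Real.log q.1) ^ 2 / ((q.1 : ℝ) ^ (q.2 + 2)) ≤
        ∑ p ∈ Finset.Icc 2 X, ∑ k ∈ Finset.range X, (Real.log p) ^ 2 / ((p : ℝ) ^ (k + 2)) := by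
      rw [← Finset.sum_product']
      apply Finset.sum_le_sum_of_subset_of_nonneg
      · rw [hP]; exact Finset.filter_subset _ _
      · intro q _ _; positivity
    have h4 : ∀ p ∈ Finset.Icc 2 X, ∑ k ∈ Finset.range X, (Real.log p) ^ 2 / ((p : ℝ) ^ (k + 2)) ≤
        32 / (p : ℝ) ^ (3 / 2 : ℝ) := by
      intro p hp
      have hp2 : (2 : ℝ) ≤ p := by exact_mod_cast (Finset.mem_Icc.1 hp).1
      have hp0 : (0 : ℝ) < p := by linarith
      have e1 : ∀ k ∈ Finset.range X, (Real.log p) ^ 2 / ((p : ℝ) ^ (k + 2)) =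
          (Real.log p) ^ 2 / (p : ℝ) ^ 2 * (1 / (p : ℝ)) ^ k := by
        intro k _
        rw [one_div, inv_pow, pow_add]
        field_simp
      rw [Finset.sum_congr rfl e1, ← Finset.mul_sum]
      have e2 : ∑ k ∈ Finset.range X, (1 / (p : ℝ)) ^ k ≤ 2 := by
        have hr : (1 / (p : ℝ)) ≤ 1 / 2 := one_div_le_one_div_of_le (by norm_num) hp2
        have hr0 : 0 ≤ 1 / (p : ℝ) := by positivity
        calc ∑ k ∈ Finset.range X, (1 / (p : ℝ)) ^ k ≤ ∑ k ∈ Finset.range X, (1 / 2 : ℝ) ^ k :=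
              Finset.sum_le_sum fun k _ => pow_le_pow_left₀ hr0 hr k
          _ ≤ 2 := sum_geometric_two_le X
      have e3 : (Real.log p) ^ 2 ≤ 16 * (p : ℝ) ^ (1 / 2 : ℝ) := by
        have h0 : 0 < (p : ℝ) ^ (1 / 4 : ℝ) := by positivity
        have h1 : Real.log ((p : ℝ) ^ (1 / 4 : ℝ)) ≤ (p : ℝ) ^ (1 / 4 : ℝ) := by
          have := Real.log_le_sub_one_of_pos h0
          linarith
        rw [Real.log_rpow hp0] at h1
        have h2 : 0 ≤ Real.log p := Real.log_nonneg (by linarith)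
        have h3 : Real.log p ≤ 4 * (p : ℝ) ^ (1 / 4 : ℝ) := by linarith
        have h4 : ((p : ℝ) ^ (1 / 4 : ℝ)) ^ 2 = (p : ℝ) ^ (1 / 2 : ℝ) := by
          rw [← Real.rpow_natCast, ← Real.rpow_mul hp0.le]; norm_num
        calc (Real.log p) ^ 2 ≤ (4 * (p : ℝ) ^ (1 / 4 : ℝ)) ^ 2 := pow_le_pow_left₀ h2 h3 2
          _ = 16 * (p : ℝ) ^ (1 / 2 : ℝ) := by rw [mul_pow, h4]; norm_num
      have e4 : (p : ℝ) ^ (1 / 2 : ℝ) * (p : ℝ) ^ (3 / 2 : ℝ) = (p : ℝ) ^ 2 := by
        rw [← Real.rpow_add hp0]; norm_num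
      have e5 : 0 < (p : ℝ) ^ (3 / 2 : ℝ) := by positivity
      calc (Real.log p) ^ 2 / (p : ℝ) ^ 2 * ∑ k ∈ Finset.range X, (1 / (p : ℝ)) ^ k
          ≤ (16 * (p : ℝ) ^ (1 / 2 : ℝ)) / (p : ℝ) ^ 2 * 2 := by
            apply mul_le_mul _ e2 (Finset.sum_nonneg fun k _ => by positivity) (by positivity)
            exact div_le_div_of_nonneg_right e3 (by positivity)
        _ = 32 / (p : ℝ) ^ (3 / 2 : ℝ) := by
            rw [← e4]
            field_simp
            norm_num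
    have h5 : ∑ p ∈ Finset.Icc 2 X, 32 / (p : ℝ) ^ (3 / 2 : ℝ) ≤ ∑' n : ℕ, 32 / (n : ℝ) ^ (3 / 2 : ℝ) :=
      hs.sum_le_tsum _ (fun n _ => by positivity)
    rw [h1]
    have h6 := Finset.sum_le_sum h4
    linarith

end PRML


namespace PRML

lemma ee_eq (n : ℕ) (hn : 1 ≤ n) (t : ℝ) : ee n t = (n : ℂ) ^ (-(t : ℂ) * I) := by
  have hn0 : (n : ℂ) ≠ 0 := by
    have : n ≠ 0 := by omega
    exact_mod_cast this
  rw [Complex.cpow_def_of_ne_zero hn0, ← Complex.natCast_log]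
  unfold ee
  congr 1
  push_cast
  ring

/-- the coefficients of the difference -/
noncomputable def bc (F : ℝ → ℝ) (R : ℝ) (N : ℕ) (n : ℕ) : ℂ :=
  ((kap R (Real.log n) * (ArithmeticFunction.vonMangoldt n / Real.sqrt n) -
    (if n.Prime ∧ n ≤ N then 1 / Real.pi * (Real.log n / Real.sqrt n) else 0) : ℝ) : ℂ) *
      FF F (Real.log n)

lemma tail_term {F : ℝ → ℝ} {η V L : ℝ} (hη : 0 ≤ η) (h : Adm η V L F) (hL : 64 ≤ L) (n : ℕ)
    (hn1 : 1 ≤ n) (hn : L / 2 ≤ Real.log n) (t : ℝ) :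
    ‖((ArithmeticFunction.vonMangoldt n / Real.sqrt n * cR (L / 4) (Real.log n) : ℝ) : ℂ) *
      FF F (Real.log n) * ee n t‖ ≤ 2 * η * (1 / (n : ℝ) ^ 2) := by
  have hn0 : (0 : ℝ) < n := by exact_mod_cast hn1
  have hn1' : (1 : ℝ) ≤ n := by exact_mod_cast hn1
  rw [norm_mul, norm_mul, norm_ee, mul_one, Complex.norm_real, Real.norm_eq_abs]
  have hR : 0 < L / 4 := by linarith
  have hc0 := cR_nonneg (L / 4) (Real.log n) hR
  have hc1 := cR_tail (L / 4) (Real.log n) hR (by linarith)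
  have hL0 : 0 ≤ ArithmeticFunction.vonMangoldt n := ArithmeticFunction.vonMangoldt_nonneg
  have hL1 : ArithmeticFunction.vonMangoldt n ≤ Real.log n := ArithmeticFunction.vonMangoldt_le_log
  have hs1 : 1 ≤ Real.sqrt n := by rw [Real.one_le_sqrt]; exact hn1'
  set l := Real.log n with hl
  have hl0 : 32 ≤ l := by linarith
  have h1 : ArithmeticFunction.vonMangoldt n / Real.sqrt n ≤ l :=
    (div_le_self hL0 hs1).trans hL1
  have h10 : 0 ≤ ArithmeticFunction.vonMangoldt n / Real.sqrt n := by positivity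
  have h2 : Real.exp (-l ^ 2 / 8) ≤ 1 / (n : ℝ) ^ 4 := by
    have h3 : -l ^ 2 / 8 ≤ -(4 * l) := by nlinarith
    have h4 : Real.exp (-(4 * l)) = 1 / (n : ℝ) ^ 4 := by
      rw [Real.exp_neg, show 4 * l = Real.log ((n : ℝ) ^ 4) by rw [Real.log_pow, ← hl]; norm_num,
        Real.exp_log (by positivity)]
      simp
    rw [← h4]
    exact Real.exp_le_exp.2 h3
  have h5 : l * (L / 4 * Real.exp (-l ^ 2 / 8)) ≤ 2 * (1 / (n : ℝ) ^ 2) := by
    have h6 : l * (L / 4) ≤ 2 * n := by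
      have := log_sq_le hn1'
      rw [← hl] at this
      nlinarith
    have h7 : (n : ℝ) * (1 / (n : ℝ) ^ 4) ≤ 1 / (n : ℝ) ^ 2 := by
      rw [mul_one_div, div_le_div_iff₀ (by positivity) (by positivity)]
      nlinarith [pow_pos hn0 3]
    calc l * (L / 4 * Real.exp (-l ^ 2 / 8)) = (l * (L / 4)) * Real.exp (-l ^ 2 / 8) := by ring
      _ ≤ (2 * n) * (1 / (n : ℝ) ^ 4) :=
          mul_le_mul h6 h2 (Real.exp_pos _).le (by positivity)
      _ = 2 * (n * (1 / (n : ℝ) ^ 4)) := by ring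
      _ ≤ 2 * (1 / (n : ℝ) ^ 2) := by linarith
  have h8 : ArithmeticFunction.vonMangoldt n / Real.sqrt n * cR (L / 4) l ≤ 2 * (1 / (n : ℝ) ^ 2) := by
    refine le_trans ?_ h5
    exact mul_le_mul h1 hc1 hc0 (by linarith)
  rw [abs_of_nonneg (mul_nonneg h10 hc0)]
  calc ArithmeticFunction.vonMangoldt n / Real.sqrt n * cR (L / 4) l * ‖FF F l‖
      ≤ (2 * (1 / (n : ℝ) ^ 2)) * η :=
        mul_le_mul h8 (FF_l1 h l) (norm_nonneg _) (by positivity)
    _ = _ := by ring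

/-- the constant of the tail -/
noncomputable def Z1 : ℝ := ∑' n : ℕ, 1 / ((n + 1 : ℕ) : ℝ) ^ 2

lemma Z1_summable : Summable (fun n : ℕ => 1 / ((n + 1 : ℕ) : ℝ) ^ 2) :=
  (summable_nat_add_iff (f := fun n : ℕ => 1 / (n : ℝ) ^ 2) 1).2
    (Real.summable_one_div_nat_pow.2 (by norm_num))

lemma Z1_nonneg : 0 ≤ Z1 := tsum_nonneg fun n => by positivity

lemma split_main {F : ℝ → ℝ} {η V L : ℝ} (hη : 0 ≤ η) (h : Adm η V L F) (hL : 64 ≤ L) (X N : ℕ)
    (hX : ∀ n : ℕ, X < n → L / 2 ≤ Real.log n) (hNX : N ≤ X) (t : ℝ) :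
    ∃ w : ℂ, ‖w‖ ≤ 2 * η * Z1 ∧ BB F (L / 4) t - Y1 F N t =
      ((∑ n ∈ Finset.Icc 1 X, bc F (L / 4) N n * (n : ℂ) ^ (-(t : ℂ) * I)) + w).re := by
  set f : ℕ → ℂ := fun n => ((ArithmeticFunction.vonMangoldt n / Real.sqrt n * cR (L / 4) (Real.log n) : ℝ) : ℂ) *
      FF F (Real.log n) * ee n t with hf
  have hb : ∀ n : ℕ, ‖f (n + (X + 1))‖ ≤ 2 * η * (1 / ((n + 1 : ℕ) : ℝ) ^ 2) := by
    intro n
    have h1 := tail_term hη h hL (n + (X + 1)) (by omega) (hX _ (by omega)) t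
    refine h1.trans ?_
    apply mul_le_mul_of_nonneg_left _ (by positivity)
    apply one_div_le_one_div_of_le (by positivity)
    apply pow_le_pow_left₀ (by positivity)
    push_cast
    have : (0 : ℝ) ≤ X := Nat.cast_nonneg X
    linarith
  have hsg : HasSum (fun n : ℕ => 2 * η * (1 / ((n + 1 : ℕ) : ℝ) ^ 2)) (2 * η * Z1) :=
    Z1_summable.hasSum.mul_left _
  have hsum' : Summable (fun n => f (n + (X + 1))) := Summable.of_norm_bounded hsg.summable hb
  have hsum : Summable f := (summable_nat_add_iff (X + 1)).1 hsum'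
  have htail : ‖∑' n, f (n + (X + 1))‖ ≤ 2 * η * Z1 := tsum_of_norm_bounded hsg hb
  have hsplit := hsum.sum_add_tsum_nat_add (X + 1)
  have hfin : ∑ n ∈ Finset.range (X + 1), f n = ∑ n ∈ Finset.Icc 1 X, f n := by
    symm
    apply Finset.sum_subset
    · intro n hn
      rw [Finset.mem_Icc] at hn
      rw [Finset.mem_range]; omega
    · intro n hn hn'
      rw [Finset.mem_range] at hn
      rw [Finset.mem_Icc] at hn'
      have : n = 0 := by omega
      subst this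
      simp [hf]
  set c : ℝ := 2 / Real.sqrt (2 * Real.pi) with hc
  refine ⟨(c : ℂ) * ∑' n, f (n + (X + 1)), ?_, ?_⟩
  · rw [norm_mul, Complex.norm_real, Real.norm_eq_abs, abs_of_nonneg (by positivity)]
    have h1 := two_div_le_one
    rw [← hc] at h1
    have h2 := norm_nonneg (∑' n, f (n + (X + 1)))
    nlinarith
  · have hBB : BB F (L / 4) t = ((c : ℂ) * ∑' n, f n).re := by
      unfold BB
      rw [Complex.re_ofReal_mul]
    have hY : Y1 F N t = (∑ n ∈ Finset.Icc 1 X,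
        (((if n.Prime ∧ n ≤ N then 1 / Real.pi * (Real.log n / Real.sqrt n) else 0 : ℝ) : ℂ) *
          FF F (Real.log n) * ee n t)).re := by
      unfold Y1
      congr 1
      rw [Finset.sum_filter]
      rw [← Finset.sum_subset (Finset.Icc_subset_Icc le_rfl hNX)]
      · refine Finset.sum_congr rfl fun n hn => ?_
        have hnN := (Finset.mem_Icc.1 hn).2
        by_cases hp : n.Prime
        · rw [if_pos hp, if_pos ⟨hp, hnN⟩]
        · rw [if_neg hp, if_neg (fun hh => hp hh.1)]; simp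
      · intro n hn hn'
        rw [Finset.mem_Icc] at hn hn'
        rw [if_neg (fun hh => hn' ⟨hn.1, hh.2⟩)]; simp
    rw [hBB, hY, ← Complex.sub_re, ← hsplit, hfin, mul_add]
    congr 1
    rw [Finset.mul_sum, add_sub_right_comm, ← Finset.sum_sub_distrib]
    congr 1
    refine Finset.sum_congr rfl fun n hn => ?_
    have hn1 := (Finset.mem_Icc.1 hn).1
    rw [← ee_eq n hn1 t, hf]
    unfold bc kap
    rw [← hc]
    push_cast
    ring

lemma bc_bound {F : ℝ → ℝ} {η V L : ℝ} (hη : 0 ≤ η) (h : Adm η V L F) (hL : 64 ≤ L) (N : ℕ)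
    (hN : 3 ≤ N) (n : ℕ) (hn1 : 1 ≤ n) :
    ‖bc F (L / 4) N n‖ ^ 2 ≤ η ^ 2 * (if ¬ n.Prime then (ArithmeticFunction.vonMangoldt n) ^ 2 / n else 0) +
      (if n.Prime ∧ n ≤ N then (Real.log n) ^ 2 / n * ‖FF F (Real.log n)‖ ^ 2 *
        (kap (L / 4) (Real.log n) - 1 / Real.pi) ^ 2 else 0) +
      (if N < n then (η * L) ^ 2 * (ArithmeticFunction.vonMangoldt n / n * (1 / (Real.log n) ^ 3)) else 0) := by
  have hn0 : (0 : ℝ) < n := by exact_mod_cast hn1
  have hR : 0 < L / 4 := by linarith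
  have hk0 := kap_nonneg (L / 4) (Real.log n) hR
  have hk1 := kap_le (L / 4) (Real.log n) hR
  have hL0 : 0 ≤ ArithmeticFunction.vonMangoldt n := ArithmeticFunction.vonMangoldt_nonneg
  have hsq : Real.sqrt n ^ 2 = n := Real.sq_sqrt hn0.le
  have hthird : 0 ≤ (if N < n then (η * L) ^ 2 * (ArithmeticFunction.vonMangoldt n / n * (1 / (Real.log n) ^ 3)) else 0) := by
    split_ifs
    · have : 0 ≤ Real.log n := Real.log_natCast_nonneg n
      positivity
    · exact le_rfl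
  have hnorm : ‖bc F (L / 4) N n‖ ^ 2 = (kap (L / 4) (Real.log n) * (ArithmeticFunction.vonMangoldt n / Real.sqrt n) -
    (if n.Prime ∧ n ≤ N then 1 / Real.pi * (Real.log n / Real.sqrt n) else 0)) ^ 2 * ‖FF F (Real.log n)‖ ^ 2 := by
    unfold bc
    rw [norm_mul, mul_pow, Complex.norm_real, Real.norm_eq_abs, sq_abs]
  rw [hnorm]
  by_cases hp : n.Prime
  · have hpL : ArithmeticFunction.vonMangoldt n = Real.log n := ArithmeticFunction.vonMangoldt_apply_prime hp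
    by_cases hnN : n ≤ N
    · rw [if_pos ⟨hp, hnN⟩, if_neg (by simpa using hp), if_pos ⟨hp, hnN⟩, if_neg (by omega)]
      rw [hpL]
      apply le_of_eq
      have : kap (L / 4) (Real.log n) * (Real.log n / Real.sqrt n) - 1 / Real.pi * (Real.log n / Real.sqrt n)
        = (kap (L / 4) (Real.log n) - 1 / Real.pi) * (Real.log n / Real.sqrt n) := by ring
      rw [this, mul_pow, div_pow, hsq]
      ring
    · have hnot : ¬ (n.Prime ∧ n ≤ N) := fun hh => hnN hh.2
      rw [if_neg hnot, if_neg (by simpa using hp), if_neg hnot, if_pos (by omega)]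
      rw [hpL]
      simp only [mul_zero, zero_add, sub_zero]
      set l := Real.log n with hl
      have hl0 : 0 < l := Real.log_pos (by exact_mod_cast hp.one_lt)
      have hF := FF_l2 h l
      have hF0 := norm_nonneg (FF F l)
      have h1 : ‖FF F l‖ ≤ η * L / l ^ 2 := by
        rw [le_div_iff₀ (by positivity)]; linarith
      have h2 : ‖FF F l‖ ^ 2 ≤ (η * L / l ^ 2) ^ 2 := pow_le_pow_left₀ hF0 h1 2
      have h3 : (kap (L / 4) l * (l / Real.sqrt n)) ^ 2 ≤ l ^ 2 / n := by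
        rw [mul_pow, div_pow, hsq]
        have : (kap (L / 4) l) ^ 2 ≤ 1 := pow_le_one₀ hk0 hk1
        have h4 : 0 ≤ l ^ 2 / n := by positivity
        nlinarith
      calc (kap (L / 4) l * (l / Real.sqrt n)) ^ 2 * ‖FF F l‖ ^ 2
          ≤ (l ^ 2 / n) * (η * L / l ^ 2) ^ 2 := mul_le_mul h3 h2 (by positivity) (by positivity)
        _ = (η * L) ^ 2 * (l / n * (1 / l ^ 3)) := by
            field_simp
  · have hnot : ¬ (n.Prime ∧ n ≤ N) := fun hh => hp hh.1
    rw [if_neg hnot, if_pos hp, if_neg hnot]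
    simp only [add_zero, sub_zero]
    have h1 : (kap (L / 4) (Real.log n) * (ArithmeticFunction.vonMangoldt n / Real.sqrt n)) ^ 2 ≤
        (ArithmeticFunction.vonMangoldt n) ^ 2 / n := by
      rw [mul_pow, div_pow, hsq]
      have : (kap (L / 4) (Real.log n)) ^ 2 ≤ 1 := pow_le_one₀ hk0 hk1
      have h4 : 0 ≤ (ArithmeticFunction.vonMangoldt n) ^ 2 / n := by positivity
      nlinarith
    have h2 : ‖FF F (Real.log n)‖ ^ 2 ≤ η ^ 2 := pow_le_pow_left₀ (norm_nonneg _) (FF_l1 h _) 2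
    have h3 : (kap (L / 4) (Real.log n) * (ArithmeticFunction.vonMangoldt n / Real.sqrt n)) ^ 2 *
        ‖FF F (Real.log n)‖ ^ 2 ≤ (ArithmeticFunction.vonMangoldt n) ^ 2 / n * η ^ 2 :=
      mul_le_mul h1 h2 (by positivity) (by positivity)
    linarith

lemma kap_close_small {L ε x : ℝ} (hε : 0 < ε) (hL : 64 ≤ L) (hεL : 4 / ε ≤ L) (hx0 : 0 ≤ x)
    (hx : x ≤ ε * L) : (kap (L / 4) x - 1 / Real.pi) ^ 2 ≤
      32 * Real.exp (-x ^ 2) + 52428800 * ε ^ 4 := by
  have hL0 : 0 < L := by linarith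
  have hR : 0 < L / 4 := by linarith
  have h1 := kap_close (L / 4) x hR hx0
  have h2 : 160 * (1 + x ^ 2) / (L / 4) ^ 2 ≤ 5120 * ε ^ 2 := by
    rw [div_le_iff₀ (by positivity)]
    have h3 : 4 ≤ ε * L := by
      rw [div_le_iff₀ hε] at hεL; linarith
    have h4 : x ^ 2 ≤ (ε * L) ^ 2 := pow_le_pow_left₀ hx0 hx 2
    nlinarith
  have h5 : |kap (L / 4) x - 1 / Real.pi| ≤ 4 * Real.exp (-x ^ 2 / 2) + 5120 * ε ^ 2 := by linarith
  have h6 : (kap (L / 4) x - 1 / Real.pi) ^ 2 ≤ (4 * Real.exp (-x ^ 2 / 2) + 5120 * ε ^ 2) ^ 2 := by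
    rw [← sq_abs]
    exact pow_le_pow_left₀ (abs_nonneg _) h5 2
  have h7 : Real.exp (-x ^ 2 / 2) ^ 2 = Real.exp (-x ^ 2) := by
    rw [← Real.exp_nat_mul]; congr 1; push_cast; ring
  nlinarith [sq_nonneg (4 * Real.exp (-x ^ 2 / 2) - 5120 * ε ^ 2)]

lemma sum_bc (hV : S_VAR) : ∃ K : ℝ, 0 < K ∧ ∀ (ε η V L : ℝ) (F : ℝ → ℝ), 0 < ε → ε ≤ 1 / 4 →
    0 < η → η ≤ 1 → 0 ≤ V → Adm η V L F → 64 ≤ L → 4 / ε ≤ L → ∀ N X : ℕ, 3 ≤ N → N ≤ X →
    Real.log N ≤ ε * L → ε * L / 2 ≤ Real.log N →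
    ∑ n ∈ Finset.Icc 1 X, ‖bc F (L / 4) N n‖ ^ 2 ≤ K * (η ^ 2 / ε ^ 2 + ε ^ 4 * (V + 1)) := by
  obtain ⟨C1, hC1, h1⟩ := sum_prime_powers
  obtain ⟨C2, hC2, h2⟩ := sum_gauss_primes
  obtain ⟨Cv, hCv, h3⟩ := hV
  refine ⟨C1 + 32 * C2 + 52428800 * (1 + 6 * Cv) + 32, by positivity, ?_⟩
  intro ε η V L F hε hε4 hη hη1 hV0 hF hL hεL N X hN hNX hlogN hlogN'
  have hL0 : 0 < L := by linarith
  have hlN0 : 0 < Real.log N := lt_of_lt_of_le (by positivity) hlogN'
  set q := η ^ 2 / ε ^ 2 with hq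
  have hq0 : 0 ≤ q := by positivity
  have hηq : η ^ 2 ≤ q := by
    rw [hq, le_div_iff₀ (by positivity)]
    have : ε ^ 2 ≤ 1 := by nlinarith
    nlinarith [sq_nonneg η]
  have hratio : (η * L / Real.log N) ^ 2 ≤ 4 * q := by
    have e1 : η * L / Real.log N ≤ 2 * η / ε := by
      rw [div_le_div_iff₀ hlN0 hε]
      nlinarith
    have e2 : 0 ≤ η * L / Real.log N := by positivity
    calc (η * L / Real.log N) ^ 2 ≤ (2 * η / ε) ^ 2 := pow_le_pow_left₀ e2 e1 2
      _ = 4 * q := by rw [hq]; ring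
  have hsum : ∑ n ∈ Finset.Icc 1 X, ‖bc F (L / 4) N n‖ ^ 2 ≤
      ∑ n ∈ Finset.Icc 1 X, (η ^ 2 * (if ¬ n.Prime then (ArithmeticFunction.vonMangoldt n) ^ 2 / n else 0) +
      (if n.Prime ∧ n ≤ N then (Real.log n) ^ 2 / n * ‖FF F (Real.log n)‖ ^ 2 *
        (kap (L / 4) (Real.log n) - 1 / Real.pi) ^ 2 else 0) +
      (if N < n then (η * L) ^ 2 * (ArithmeticFunction.vonMangoldt n / n * (1 / (Real.log n) ^ 3)) else 0)) :=
    Finset.sum_le_sum fun n hn => bc_bound hη.le hF hL N hN n (Finset.mem_Icc.1 hn).1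
  rw [Finset.sum_add_distrib, Finset.sum_add_distrib, ← Finset.mul_sum, ← Finset.sum_filter,
    ← Finset.sum_filter, ← Finset.sum_filter] at hsum
  -- third sum
  have hI3 : (Finset.Icc 1 X).filter (fun n => N < n) = Finset.Ioc N X := by
    ext n; rw [Finset.mem_filter, Finset.mem_Icc, Finset.mem_Ioc]; omega
  have hS3 : ∑ n ∈ (Finset.Icc 1 X).filter (fun n => N < n),
      (η * L) ^ 2 * (ArithmeticFunction.vonMangoldt n / n * (1 / (Real.log n) ^ 3)) ≤ 32 * q := by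
    rw [hI3, ← Finset.mul_sum]
    have := sum_cubes' N hN X hNX
    calc (η * L) ^ 2 * ∑ n ∈ Finset.Ioc N X, ArithmeticFunction.vonMangoldt n / n * (1 / (Real.log n) ^ 3)
        ≤ (η * L) ^ 2 * (8 / (Real.log N) ^ 2) := mul_le_mul_of_nonneg_left this (by positivity)
      _ = 8 * (η * L / Real.log N) ^ 2 := by ring
      _ ≤ 32 * q := by linarith
  -- first sum
  have hS1 := h1 X
  have hS1' : η ^ 2 * ∑ n ∈ (Finset.Icc 1 X).filter (fun n => ¬ n.Prime),
      (ArithmeticFunction.vonMangoldt n) ^ 2 / n ≤ q * C1 := by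
    apply mul_le_mul hηq hS1 _ hq0
    exact Finset.sum_nonneg fun n _ => by positivity
  -- second sum
  have hI2 : (Finset.Icc 1 X).filter (fun n => n.Prime ∧ n ≤ N) = (Finset.Icc 1 N).filter Nat.Prime := by
    ext n; rw [Finset.mem_filter, Finset.mem_filter, Finset.mem_Icc, Finset.mem_Icc]
    constructor
    · rintro ⟨⟨a, b⟩, c, d⟩; exact ⟨⟨a, d⟩, c⟩
    · rintro ⟨⟨a, b⟩, c⟩; exact ⟨⟨a, by omega⟩, c, b⟩
  have hvar := h3 η V L F hη (by linarith) hF N hN
  have hvar' : ∑ p ∈ (Finset.Icc 1 N).filter Nat.Prime, (Real.log p) ^ 2 / p * ‖FF F (Real.log p)‖ ^ 2 ≤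
      V + Cv * (2 + 4 * q) := by
    have e1 := le_of_abs_le hvar
    have e2 := hF.va
    have e3 : Cv * (η + η ^ 2 + (η * L / Real.log N) ^ 2) ≤ Cv * (2 + 4 * q) := by
      apply mul_le_mul_of_nonneg_left _ hCv.le
      nlinarith
    linarith
  have hS2 : ∑ n ∈ (Finset.Icc 1 X).filter (fun n => n.Prime ∧ n ≤ N),
      (Real.log n) ^ 2 / n * ‖FF F (Real.log n)‖ ^ 2 * (kap (L / 4) (Real.log n) - 1 / Real.pi) ^ 2 ≤
      32 * C2 * q + 52428800 * ε ^ 4 * (V + Cv * (2 + 4 * q)) := by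
    rw [hI2]
    have e1 : ∑ n ∈ (Finset.Icc 1 N).filter Nat.Prime,
        (Real.log n) ^ 2 / n * ‖FF F (Real.log n)‖ ^ 2 * (kap (L / 4) (Real.log n) - 1 / Real.pi) ^ 2 ≤
        ∑ n ∈ (Finset.Icc 1 N).filter Nat.Prime, (32 * η ^ 2 * ((Real.log n) ^ 2 / n * Real.exp (-(Real.log n) ^ 2)) +
          52428800 * ε ^ 4 * ((Real.log n) ^ 2 / n * ‖FF F (Real.log n)‖ ^ 2)) := by
      refine Finset.sum_le_sum fun n hn => ?_
      rw [Finset.mem_filter, Finset.mem_Icc] at hn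
      have hn0 : (0 : ℝ) < n := by exact_mod_cast hn.1.1
      have hl0 : 0 ≤ Real.log n := Real.log_natCast_nonneg n
      have hlN : Real.log n ≤ Real.log N := Real.log_le_log hn0 (by exact_mod_cast hn.1.2)
      have hk := kap_close_small hε hL hεL hl0 (hlN.trans hlogN)
      have hF2 : ‖FF F (Real.log n)‖ ^ 2 ≤ η ^ 2 := pow_le_pow_left₀ (norm_nonneg _) (FF_l1 hF _) 2
      have hA : 0 ≤ (Real.log n) ^ 2 / n := by positivity
      have hE := Real.exp_pos (-(Real.log n) ^ 2)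
      calc (Real.log n) ^ 2 / n * ‖FF F (Real.log n)‖ ^ 2 * (kap (L / 4) (Real.log n) - 1 / Real.pi) ^ 2
          ≤ (Real.log n) ^ 2 / n * ‖FF F (Real.log n)‖ ^ 2 *
            (32 * Real.exp (-(Real.log n) ^ 2) + 52428800 * ε ^ 4) :=
              mul_le_mul_of_nonneg_left hk (by positivity)
        _ = 32 * ‖FF F (Real.log n)‖ ^ 2 * ((Real.log n) ^ 2 / n * Real.exp (-(Real.log n) ^ 2)) +
            52428800 * ε ^ 4 * ((Real.log n) ^ 2 / n * ‖FF F (Real.log n)‖ ^ 2) := by ring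
        _ ≤ _ := by
            have : 32 * ‖FF F (Real.log n)‖ ^ 2 * ((Real.log n) ^ 2 / n * Real.exp (-(Real.log n) ^ 2)) ≤
              32 * η ^ 2 * ((Real.log n) ^ 2 / n * Real.exp (-(Real.log n) ^ 2)) := by
                apply mul_le_mul_of_nonneg_right _ (by positivity)
                linarith
            linarith
    rw [Finset.sum_add_distrib, ← Finset.mul_sum, ← Finset.mul_sum] at e1
    have e2 : ∑ n ∈ (Finset.Icc 1 N).filter Nat.Prime, ((Real.log n) ^ 2 / n * Real.exp (-(Real.log n) ^ 2)) ≤ C2 := by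
      refine le_trans (Finset.sum_le_sum_of_subset_of_nonneg (Finset.filter_subset _ _) ?_) (h2 N)
      intro n _ _; positivity
    have e3 : 32 * η ^ 2 * ∑ n ∈ (Finset.Icc 1 N).filter Nat.Prime,
        ((Real.log n) ^ 2 / n * Real.exp (-(Real.log n) ^ 2)) ≤ 32 * q * C2 := by
      apply mul_le_mul (by linarith) e2 (Finset.sum_nonneg fun n _ => by positivity) (by positivity)
    have e4 := mul_le_mul_of_nonneg_left hvar' (by positivity : 0 ≤ 52428800 * ε ^ 4)
    linarith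
  have hε41 : ε ^ 4 ≤ 1 := pow_le_one₀ hε.le (by linarith)
  have hε40 : 0 ≤ ε ^ 4 := by positivity
  have hfin : ε ^ 4 * (Cv * (2 + 4 * q)) ≤ 2 * Cv * ε ^ 4 + 4 * Cv * q := by
    have : ε ^ 4 * q ≤ q := by nlinarith
    nlinarith
  have hVV : 0 ≤ ε ^ 4 * (V + 1) := by positivity
  have htot := hsum.trans (add_le_add (add_le_add hS1' hS2) hS3)
  have g1 : 0 ≤ C1 * (ε ^ 4 * (V + 1)) := by positivity
  have g2 : 0 ≤ C2 * (ε ^ 4 * (V + 1)) := by positivity
  have g3 : 0 ≤ Cv * (ε ^ 4 * V) := by positivity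
  have g4 : 0 ≤ Cv * q := by positivity
  have g5 : 0 ≤ Cv * ε ^ 4 := by positivity
  nlinarith

end PRML

open PRML in
theorem t_PRM (hV : S_VAR) : S_PRM := by
  obtain ⟨K, hK, hbc⟩ := sum_bc hV
  refine ⟨4 * K + 8 * Z1 ^ 2, by positivity, ?_⟩
  intro ε hε hε4
  set M := max 64 (4 / ε) with hM
  refine ⟨Real.exp M, ?_, ?_⟩
  · have h1 : (64 : ℝ) ≤ M := le_max_left _ _
    have h2 := Real.add_one_le_exp M
    linarith
  intro T hT η V F hη hη1 hV0 hF
  have hT0 : 0 < T := (Real.exp_pos M).trans_le hT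
  set L := Real.log T with hLdef
  have hML : M ≤ L := (Real.le_log_iff_exp_le hT0).2 hT
  have hL : 64 ≤ L := (le_max_left _ _).trans hML
  have hεL : 4 / ε ≤ L := (le_max_right _ _).trans hML
  have hεL' : 4 ≤ ε * L := by
    rw [div_le_iff₀ hε] at hεL; linarith
  have hT1 : 1 < T := by
    have := Real.add_one_le_exp M
    have h1 : (64 : ℝ) ≤ M := le_max_left _ _
    linarith
  set N := ⌊T ^ ε⌋₊ with hN
  set X := ⌊T ^ (1 / 2 : ℝ)⌋₊ with hX
  have hpos : ∀ s : ℝ, 0 < T ^ s := fun s => Real.rpow_pos_of_pos hT0 s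
  have hTε : T ^ ε = Real.exp (ε * L) := by rw [Real.rpow_def_of_pos hT0, mul_comm]
  have hT12 : T ^ (1 / 2 : ℝ) = Real.exp (L / 2) := by
    rw [Real.rpow_def_of_pos hT0]; congr 1; ring
  -- N
  have hNle : (N : ℝ) ≤ T ^ ε := Nat.floor_le (hpos ε).le
  have hNge : T ^ ε - 1 ≤ (N : ℝ) := (Nat.sub_one_lt_floor _).le
  have hhalf : Real.exp (ε * L / 2) + 1 ≤ T ^ ε := by
    have h1 : T ^ ε = Real.exp (ε * L / 2) * Real.exp (ε * L / 2) := by
      rw [hTε, ← Real.exp_add]; congr 1; ring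
    have h2 : 3 ≤ Real.exp (ε * L / 2) := by
      have := Real.add_one_le_exp (ε * L / 2)
      linarith
    rw [h1]
    nlinarith
  have hNexp : Real.exp (ε * L / 2) ≤ N := by linarith
  have hN0 : (0 : ℝ) < N := (Real.exp_pos _).trans_le hNexp
  have hN3 : 3 ≤ N := by
    have h2 : 3 ≤ Real.exp (ε * L / 2) := by
      have := Real.add_one_le_exp (ε * L / 2)
      linarith
    have : (3 : ℝ) ≤ N := h2.trans hNexp
    exact_mod_cast this
  have hlogN : Real.log N ≤ ε * L := by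
    rw [Real.log_le_iff_le_exp hN0, ← hTε]
    exact hNle
  have hlogN' : ε * L / 2 ≤ Real.log N := (Real.le_log_iff_exp_le hN0).2 hNexp
  have hNX : N ≤ X := by
    apply Nat.floor_le_floor
    apply Real.rpow_le_rpow_of_exponent_le hT1.le
    linarith
  have hXn : ∀ n : ℕ, X < n → L / 2 ≤ Real.log n := by
    intro n hn
    have h1 : T ^ (1 / 2 : ℝ) < n := (Nat.floor_lt (hpos _).le).1 hn
    have hn0 : (0 : ℝ) < n := (hpos _).trans h1
    rw [Real.le_log_iff_exp_le hn0, ← hT12]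
    exact h1.le
  have hXle : (X : ℝ) ≤ Real.exp (L / 2) := by
    rw [← hT12]
    exact Nat.floor_le (hpos _).le
  have hX0 : (0 : ℝ) < X := by
    have : (N : ℝ) ≤ X := by exact_mod_cast hNX
    linarith
  have hlogX : Real.log X ≤ L / 2 := by
    rw [Real.log_le_iff_le_exp hX0]
    exact hXle
  have hlogX0 : 0 ≤ Real.log X := Real.log_natCast_nonneg X
  have hlen : 8 * (X : ℝ) * (1 + Real.log X) ≤ T := by
    have hTexp : T = Real.exp (L / 2) * Real.exp (L / 2) := by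
      rw [← Real.exp_add, add_halves, hLdef, Real.exp_log hT0]
    have h1 : 8 * (1 + L / 2) ≤ Real.exp (L / 2) := by
      have := Real.quadratic_le_exp_of_nonneg (by linarith : 0 ≤ L / 2)
      nlinarith
    calc 8 * (X : ℝ) * (1 + Real.log X) = X * (8 * (1 + Real.log X)) := by ring
      _ ≤ Real.exp (L / 2) * (8 * (1 + L / 2)) := by
          apply mul_le_mul hXle _ (by positivity) (Real.exp_pos _).le
          linarith
      _ ≤ Real.exp (L / 2) * Real.exp (L / 2) := mul_le_mul_of_nonneg_left h1 (Real.exp_pos _).le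
      _ = T := hTexp.symm
  have hsumbc := hbc ε η V L F hε hε4 hη hη1 hV0 hF hL hεL N X hN3 hNX hlogN hlogN'
  -- pointwise bound
  set D : ℝ → ℂ := fun t => ∑ n ∈ Finset.Icc 1 X, bc F (L / 4) N n * (n : ℂ) ^ (-(t : ℂ) * I) with hD
  have hpt : ∀ t : ℝ, (BB F (L / 4) t - Y1 F N t) ^ 2 ≤ 2 * ‖D t‖ ^ 2 + 2 * (2 * η * Z1) ^ 2 := by
    intro t
    obtain ⟨w, hw, he⟩ := split_main hη.le hF hL X N hXn hNX t
    rw [he]
    have h1 : |(D t + w).re| ≤ ‖D t‖ + 2 * η * Z1 :=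
      (Complex.abs_re_le_norm _).trans ((norm_add_le _ _).trans (by linarith))
    have h2 : ((D t + w).re) ^ 2 ≤ (‖D t‖ + 2 * η * Z1) ^ 2 := by
      rw [← sq_abs]
      exact pow_le_pow_left₀ (abs_nonneg _) h1 2
    calc ((D t + w).re) ^ 2 ≤ (‖D t‖ + 2 * η * Z1) ^ 2 := h2
      _ ≤ _ := by nlinarith [sq_nonneg (‖D t‖ - 2 * η * Z1)]
  have hDcont : Continuous D := by
    rw [hD]
    apply continuous_finsetSum
    intro n hn
    have hn1 := (Finset.mem_Icc.1 hn).1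
    have : (fun t : ℝ => (n : ℂ) ^ (-(t : ℂ) * I)) = fun t => ee n t := by
      ext t; rw [ee_eq n hn1]
    apply Continuous.mul continuous_const
    rw [this]
    unfold ee
    fun_prop
  have hmv := H370.mean_value (bc F (L / 4) N) X T (2 * T) (by linarith)
  have hint : ∫ t in T..(2 * T), ‖D t‖ ^ 2 ≤ (2 * T) * (K * (η ^ 2 / ε ^ 2 + ε ^ 4 * (V + 1))) := by
    refine hmv.trans ?_
    apply mul_le_mul _ hsumbc (Finset.sum_nonneg fun n _ => by positivity) (by positivity)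
    linarith
  have hRHS : 0 ≤ (4 * K + 8 * Z1 ^ 2) * T * (η ^ 2 / ε ^ 2 + ε ^ 4 * (V + 1)) := by positivity
  by_cases hii : IntervalIntegrable (fun t => (BB F (L / 4) t - Y1 F N t) ^ 2) volume T (2 * T)
  · have h1 : ∫ t in T..(2 * T), (BB F (L / 4) t - Y1 F N t) ^ 2 ≤
        ∫ t in T..(2 * T), (2 * ‖D t‖ ^ 2 + 2 * (2 * η * Z1) ^ 2) := by
      apply intervalIntegral.integral_mono_on (by linarith) hii
      · apply Continuous.intervalIntegrable
        fun_prop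
      · intro t _; exact hpt t
    rw [intervalIntegral.integral_add (by apply Continuous.intervalIntegrable; fun_prop) (by simp),
      intervalIntegral.integral_const_mul, intervalIntegral.integral_const] at h1
    have hηq : η ^ 2 ≤ η ^ 2 / ε ^ 2 := by
      rw [le_div_iff₀ (by positivity)]
      have : ε ^ 2 ≤ 1 := by nlinarith
      nlinarith [sq_nonneg η]
    have h2 : η ^ 2 ≤ η ^ 2 / ε ^ 2 + ε ^ 4 * (V + 1) := by
      have : 0 ≤ ε ^ 4 * (V + 1) := by positivity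
      linarith
    have h3 : (8 * Z1 ^ 2 * T) * η ^ 2 ≤ (8 * Z1 ^ 2 * T) * (η ^ 2 / ε ^ 2 + ε ^ 4 * (V + 1)) :=
      mul_le_mul_of_nonneg_left h2 (by positivity)
    have h4 : (2 * T - T) • (2 * (2 * η * Z1) ^ 2) = (8 * Z1 ^ 2 * T) * η ^ 2 := by
      rw [smul_eq_mul]; ring
    rw [h4] at h1
    linarith
  · rw [intervalIntegral.integral_undef hii]
    exact hRHS


end Pool.Agent.H203.ME
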