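import Pool.Agent.H203.ME.KER
import Pool.Agent.H203.ME.OM
import Pool.Agent.H203.ME.EFW
import Pool.Agent.H203.ME.BBI
import Pool.Agent.H203.ME.L1A
import Pool.Agent.H203.ME.L1B
import Pool.Agent.H203.ME.DEN
import Pool.Agent.H203.ME.VAR
import Pool.Agent.H203.ME.PRM
import Pool.Agent.H203.ME.MOM
import Pool.Agent.H203.ME.CLT
import Pool.Agent.H203.ME.PRC
import Pool.Agent.H203.ME.MAIN

set_option autoImplicit false

open Complex Filter Topology Set MeasureTheory

namespace Pool.Agent.H203.ME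

theorem p_APX : S_APX :=
  t_APX t_EFW t_BBI t_PRC t_BBC (t_L1A t_KER t_OM) (t_L1B t_KER) t_DEN t_OM

theorem p_MAIN : S_MAIN := t_MAIN p_APX t_BBC (t_PRM t_VAR) (t_CLT t_MOM) t_VAR

end Pool.Agent.H203.ME
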