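import Pool.Agent.H203.ME.Defs2
import Pool.Agent.H203.ME.VAR

set_option autoImplicit false

/-! Covariances of the limiting field at several scales. -/

open Complex Filter Topology Set MeasureTheory

namespace Pool.Agent.H203.ME

namespace COVL

/-- decay of the transform -/
theorem decay {g : ℝ → ℝ} (hg : ContDiff ℝ 2 g) (hs : HasCompactSupport g) :
    ∃ C : ℝ, 0 < C ∧ ∀ ξ : ℝ, ‖FF g ξ‖ ≤ C / (1 + ξ ^ 2) := by
  have h1 : ContDiff ℝ 1 g := hg.of_le (by norm_num)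
  have h2 : ContDiff ℝ 1 (deriv g) := by
    have := hg
    rw [show (2 : WithTop ℕ∞) = 1 + 1 by norm_num] at this
    exact (contDiff_succ_iff_deriv.1 this).2.2
  have hA : 0 ≤ ∫ x : ℝ, |g x| := integral_nonneg fun x => abs_nonneg _
  have hB : 0 ≤ ∫ x : ℝ, |deriv (deriv g) x| := integral_nonneg fun x => abs_nonneg _
  refine ⟨(∫ x : ℝ, |g x|) + (∫ x : ℝ, |deriv (deriv g) x|) + 1, by linarith, fun ξ => ?_⟩
  have h3 := VARL.FF_der h1 hs ξ
  have h4 := VARL.FF_der h2 hs.deriv ξ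
  have h5 : FF (deriv (deriv g)) ξ = -(ξ : ℂ) ^ 2 * FF g ξ := by
    rw [h4, h3]
    linear_combination ((ξ : ℂ) ^ 2 * FF g ξ) * I_sq
  have h6 : ‖FF (deriv (deriv g)) ξ‖ = ξ ^ 2 * ‖FF g ξ‖ := by
    rw [h5, norm_mul, norm_neg, norm_pow, Complex.norm_real, Real.norm_eq_abs, sq_abs]
  have h7 : ‖FF (deriv (deriv g)) ξ‖ ≤ ∫ x : ℝ, |deriv (deriv g) x| := VARL.le_l1 ξ
  have h8 : ‖FF g ξ‖ ≤ ∫ x : ℝ, |g x| := VARL.le_l1 ξ
  rw [h6] at h7
  rw [le_div_iff₀ (by positivity)]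
  nlinarith

theorem FF_term {g : ℝ → ℝ} (a c ξ : ℝ) (ha : 0 < a) :
    (∫ s : ℝ, ((c * g (s / a) : ℝ) : ℂ) * cexp (-(((ξ * s : ℝ) : ℂ) * I))) =
      ((c * a : ℝ) : ℂ) * FF g (a * ξ) := by
  have h1 := MeasureTheory.Measure.integral_comp_div
    (fun u : ℝ => ((c * g u : ℝ) : ℂ) * cexp (-(((a * ξ * u : ℝ) : ℂ) * I))) a
  have h2 : (fun s : ℝ => ((c * g (s / a) : ℝ) : ℂ) * cexp (-(((ξ * s : ℝ) : ℂ) * I))) =
      fun s : ℝ => ((c * g (s / a) : ℝ) : ℂ) * cexp (-(((a * ξ * (s / a) : ℝ) : ℂ) * I)) := by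
    funext s
    have h3 : a * ξ * (s / a) = ξ * s := by field_simp
    rw [h3]
  rw [h2, h1, abs_of_pos ha]
  have h4 : (fun u : ℝ => ((c * g u : ℝ) : ℂ) * cexp (-(((a * ξ * u : ℝ) : ℂ) * I))) =
      fun u : ℝ => (c : ℂ) * ((g u : ℂ) * cexp (-(((a * ξ * u : ℝ) : ℂ) * I))) := by
    funext u
    push_cast
    ring
  rw [h4, integral_const_mul]
  rw [FF, Complex.real_smul]
  push_cast
  ring

theorem FF_sum (k : ℕ) (f : Fin k → ℝ → ℝ) (hc : ∀ j, Continuous (f j))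
    (hs : ∀ j, HasCompactSupport (f j)) (h c : Fin k → ℝ) (hh : ∀ j, 0 < h j) (ξ : ℝ) :
    FF (fun x => ∑ j, c j * f j (x / h j)) ξ =
      ∑ j, ((c j * h j : ℝ) : ℂ) * FF (f j) (h j * ξ) := by
  have h1 : ∀ j, Integrable (fun s : ℝ =>
      ((c j * f j (s / h j) : ℝ) : ℂ) * cexp (-(((ξ * s : ℝ) : ℂ) * I))) := by
    intro j
    apply VARL.int_mul (F := fun s => c j * f j (s / h j))
    · have := hc j
      fun_prop
    · apply HasCompactSupport.mul_left
      have h2 : (fun s : ℝ => f j (s / h j)) = fun s : ℝ => f j ((h j)⁻¹ • s) := by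
        funext s
        rw [smul_eq_mul, div_eq_inv_mul]
      rw [h2]
      exact (hs j).comp_smul (inv_ne_zero (hh j).ne')
    · exact VARL.cont_e ξ
  have h2 : FF (fun x => ∑ j, c j * f j (x / h j)) ξ =
      ∫ s : ℝ, ∑ j, ((c j * f j (s / h j) : ℝ) : ℂ) * cexp (-(((ξ * s : ℝ) : ℂ) * I)) := by
    unfold FF
    congr 1
    funext s
    rw [← Finset.sum_mul]
    congr 1
    push_cast
    rfl
  rw [h2, integral_finsetSum _ (fun j _ => h1 j)]
  exact Finset.sum_congr rfl fun j _ => FF_term (h j) (c j) ξ (hh j)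

/-- the mixed term -/
noncomputable def Tm (f g : ℝ → ℝ) (a b : ℝ) : ℝ :=
  ∫ ξ in Ioi (0 : ℝ), ξ * (((a : ℂ) * FF f (a * ξ)) * (starRingEnd ℂ) ((b : ℂ) * FF g (b * ξ))).re

/-- the mixed term as a function of the ratio -/
noncomputable def Jm (f g : ℝ → ℝ) (ρ : ℝ) : ℝ :=
  ∫ u in Ioi (0 : ℝ), (((ρ * u : ℝ) : ℂ) * FF f (ρ * u) * (starRingEnd ℂ) (FF g u)).re

theorem Tm_symm (f g : ℝ → ℝ) (a b : ℝ) : Tm f g a b = Tm g f b a := by
  unfold Tm
  congr 1
  funext ξ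
  congr 1
  have h1 : ((b : ℂ) * FF g (b * ξ)) * (starRingEnd ℂ) ((a : ℂ) * FF f (a * ξ)) =
      (starRingEnd ℂ) (((a : ℂ) * FF f (a * ξ)) * (starRingEnd ℂ) ((b : ℂ) * FF g (b * ξ))) := by
    rw [map_mul (starRingEnd ℂ) ((a : ℂ) * FF f (a * ξ)), Complex.conj_conj, mul_comm]
  rw [h1, Complex.conj_re]

theorem Tm_eq (f g : ℝ → ℝ) {a b : ℝ} (hb : 0 < b) : Tm f g a b = Jm f g (a / b) := by
  have h1 := integral_comp_mul_left_Ioi
    (fun u : ℝ => ((((a / b) * u : ℝ) : ℂ) * FF f ((a / b) * u) * (starRingEnd ℂ) (FF g u)).re) 0 hb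
  rw [mul_zero] at h1
  unfold Jm
  have h2 : Tm f g a b = ∫ ξ in Ioi (0 : ℝ), b *
      ((((a / b) * (b * ξ) : ℝ) : ℂ) * FF f ((a / b) * (b * ξ)) * (starRingEnd ℂ) (FF g (b * ξ))).re := by
    unfold Tm
    congr 1
    funext ξ
    have h3 : (a / b) * (b * ξ) = a * ξ := by field_simp
    rw [h3]
    have h4 : (((a : ℂ) * FF f (a * ξ)) * (starRingEnd ℂ) ((b : ℂ) * FF g (b * ξ))) =
        ((b : ℝ) : ℂ) * ((a : ℂ) * FF f (a * ξ) * (starRingEnd ℂ) (FF g (b * ξ))) := by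
      rw [map_mul, Complex.conj_ofReal]
      ring
    have h5 : (((a * ξ : ℝ) : ℂ) * FF f (a * ξ) * (starRingEnd ℂ) (FF g (b * ξ))) =
        ((ξ : ℝ) : ℂ) * ((a : ℂ) * FF f (a * ξ) * (starRingEnd ℂ) (FF g (b * ξ))) := by
      push_cast
      ring
    rw [h4, h5, Complex.re_ofReal_mul, Complex.re_ofReal_mul]
    ring
  rw [h2, integral_const_mul, h1, smul_eq_mul, ← mul_assoc, mul_inv_cancel₀ hb.ne', one_mul]

theorem half (t : ℝ) : |t| / (1 + t ^ 2) ≤ 1 / 2 := by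
  rw [div_le_div_iff₀ (by positivity) (by norm_num)]
  nlinarith [sq_nonneg (|t| - 1), sq_abs t]

theorem bound1 {f : ℝ → ℝ} {C : ℝ} (hC : 0 < C) (h : ∀ ξ : ℝ, ‖FF f ξ‖ ≤ C / (1 + ξ ^ 2)) (t : ℝ) :
    ‖((t : ℝ) : ℂ) * FF f t‖ ≤ C / 2 := by
  rw [norm_mul, Complex.norm_real, Real.norm_eq_abs]
  calc |t| * ‖FF f t‖ ≤ |t| * (C / (1 + t ^ 2)) := by gcongr; exact h t
    _ = C * (|t| / (1 + t ^ 2)) := by ring
    _ ≤ C * (1 / 2) := mul_le_mul_of_nonneg_left (half t) hC.le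
    _ = C / 2 := by ring

theorem Tm_int {f g : ℝ → ℝ} (hf : ContDiff ℝ 2 f) (hg : ContDiff ℝ 2 g) (hfs : HasCompactSupport f)
    (hgs : HasCompactSupport g) {a b : ℝ} (_ha : 0 < a) (hb : 0 < b) :
    IntegrableOn (fun ξ : ℝ =>
      ξ * (((a : ℂ) * FF f (a * ξ)) * (starRingEnd ℂ) ((b : ℂ) * FF g (b * ξ))).re) (Ioi 0) := by
  obtain ⟨C, hC, hCf⟩ := decay hf hfs
  obtain ⟨D, hD, hDg⟩ := decay hg hgs
  have cf : Continuous (FF f) := VARL.FF_cont hf.continuous hfs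
  have cg : Continuous (FF g) := VARL.FF_cont hg.continuous hgs
  have h1 : Integrable (fun ξ : ℝ => (C / 2 * b * D) * (1 + (b * ξ) ^ 2)⁻¹) :=
    (integrable_inv_one_add_sq.comp_mul_left' hb.ne').const_mul _
  refine (Integrable.mono' h1 ?_ ?_).integrableOn
  · apply Continuous.aestronglyMeasurable
    have c1 : Continuous fun ξ : ℝ => FF f (a * ξ) := cf.comp (by fun_prop)
    have c2 : Continuous fun ξ : ℝ => FF g (b * ξ) := cg.comp (by fun_prop)
    have c3 : Continuous fun ξ : ℝ => (starRingEnd ℂ) ((b : ℂ) * FF g (b * ξ)) :=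
      Complex.continuous_conj.comp (continuous_const.mul c2)
    exact continuous_id.mul (Complex.continuous_re.comp ((continuous_const.mul c1).mul c3))
  · refine Eventually.of_forall fun ξ => ?_
    have h2 : ξ * (((a : ℂ) * FF f (a * ξ)) * (starRingEnd ℂ) ((b : ℂ) * FF g (b * ξ))).re =
        ((((a * ξ : ℝ) : ℂ) * FF f (a * ξ)) * (starRingEnd ℂ) ((b : ℂ) * FF g (b * ξ))).re := by
      rw [← Complex.re_ofReal_mul]
      congr 1
      push_cast
      ring
    rw [h2, Real.norm_eq_abs]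
    refine (Complex.abs_re_le_norm _).trans ?_
    rw [norm_mul, RCLike.norm_conj, norm_mul (b : ℂ), Complex.norm_real b, Real.norm_eq_abs,
      abs_of_pos hb]
    calc ‖((a * ξ : ℝ) : ℂ) * FF f (a * ξ)‖ * (b * ‖FF g (b * ξ)‖)
        ≤ C / 2 * (b * (D / (1 + (b * ξ) ^ 2))) := by
          gcongr
          · exact bound1 hC hCf _
          · exact hDg _
      _ = C / 2 * b * D * (1 + (b * ξ) ^ 2)⁻¹ := by
          rw [div_eq_mul_inv D]
          ring

theorem Jm_tendsto {f g : ℝ → ℝ} (hf : ContDiff ℝ 2 f) (hg : ContDiff ℝ 2 g)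
    (hfs : HasCompactSupport f) (hgs : HasCompactSupport g) {ρ : ℝ → ℝ}
    (hρ : Tendsto ρ atTop (𝓝 0)) : Tendsto (fun T => Jm f g (ρ T)) atTop (𝓝 0) := by
  obtain ⟨C, hC, hCf⟩ := decay hf hfs
  obtain ⟨D, hD, hDg⟩ := decay hg hgs
  have cf : Continuous (FF f) := VARL.FF_cont hf.continuous hfs
  have cg : Continuous (FF g) := VARL.FF_cont hg.continuous hgs
  have h0 : (0 : ℝ) = ∫ u in Ioi (0 : ℝ), (0 : ℝ) := by simp
  rw [h0]
  unfold Jm
  refine tendsto_integral_filter_of_dominated_convergence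
    (fun u : ℝ => C / 2 * D * (1 + u ^ 2)⁻¹) ?_ ?_ ?_ ?_
  · refine Eventually.of_forall fun T => ?_
    apply Continuous.aestronglyMeasurable
    have c1 : Continuous fun u : ℝ => FF f (ρ T * u) := cf.comp (by fun_prop)
    have c2 : Continuous fun u : ℝ => (((ρ T * u : ℝ)) : ℂ) := by fun_prop
    have c3 : Continuous fun u : ℝ => (starRingEnd ℂ) (FF g u) := Complex.continuous_conj.comp cg
    exact Complex.continuous_re.comp ((c2.mul c1).mul c3)
  · refine Eventually.of_forall fun T => Eventually.of_forall fun u => ?_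
    rw [Real.norm_eq_abs]
    refine (Complex.abs_re_le_norm _).trans ?_
    rw [norm_mul, RCLike.norm_conj]
    calc ‖((ρ T * u : ℝ) : ℂ) * FF f (ρ T * u)‖ * ‖FF g u‖ ≤ C / 2 * (D / (1 + u ^ 2)) := by
          gcongr
          · exact bound1 hC hCf _
          · exact hDg _
      _ = _ := by rw [div_eq_mul_inv D]; ring
  · exact (integrable_inv_one_add_sq.const_mul _).integrableOn
  · refine Eventually.of_forall fun u => ?_
    have h1 : Tendsto (fun T => ρ T * u) atTop (𝓝 0) := by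
      have := hρ.mul_const u
      rwa [zero_mul] at this
    have c : Continuous fun t : ℝ => (((t : ℝ) : ℂ) * FF f t * (starRingEnd ℂ) (FF g u)).re :=
      Complex.continuous_re.comp ((Complex.continuous_ofReal.mul cf).mul continuous_const)
    have h2 := (c.tendsto 0).comp h1
    simpa [Function.comp_def] using h2

theorem sq_sum {k : ℕ} (z : Fin k → ℂ) :
    ‖∑ j, z j‖ ^ 2 = ∑ i, ∑ j, (z i * (starRingEnd ℂ) (z j)).re := by
  have h1 : ((‖∑ j, z j‖ ^ 2 : ℝ) : ℂ) = (∑ i, z i) * (starRingEnd ℂ) (∑ j, z j) := by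
    rw [Complex.mul_conj']
    push_cast
    rfl
  have h2 : ‖∑ j, z j‖ ^ 2 = ((∑ i, z i) * (starRingEnd ℂ) (∑ j, z j)).re := by
    rw [← h1, Complex.ofReal_re]
  rw [h2, map_sum, Finset.sum_mul_sum, Complex.re_sum]
  exact Finset.sum_congr rfl fun i _ => by rw [Complex.re_sum]

theorem sg_eq (k : ℕ) (f : Fin k → ℝ → ℝ) (hf : ∀ j, ContDiff ℝ 2 (f j))
    (hs : ∀ j, HasCompactSupport (f j)) (h c : Fin k → ℝ) (hh : ∀ j, 0 < h j) :
    sg (fun x => ∑ j, c j * f j (x / h j)) =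
      ∑ i, ∑ j, c i * c j * (1 / (2 * Real.pi ^ 2) * Jm (f i) (f j) (h i / h j)) := by
  unfold sg
  have h1 : (fun ξ : ℝ => ξ * ‖FF (fun x => ∑ j, c j * f j (x / h j)) ξ‖ ^ 2) = fun ξ : ℝ =>
      ∑ i, ∑ j, c i * c j * (ξ * (((h i : ℂ) * FF (f i) (h i * ξ)) *
        (starRingEnd ℂ) ((h j : ℂ) * FF (f j) (h j * ξ))).re) := by
    funext ξ
    rw [FF_sum k f (fun j => (hf j).continuous) hs h c hh ξ, sq_sum, Finset.mul_sum]
    refine Finset.sum_congr rfl fun i _ => ?_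
    rw [Finset.mul_sum]
    refine Finset.sum_congr rfl fun j _ => ?_
    have h2 : ((c i * h i : ℝ) : ℂ) * FF (f i) (h i * ξ) *
        (starRingEnd ℂ) (((c j * h j : ℝ) : ℂ) * FF (f j) (h j * ξ)) =
        ((c i * c j : ℝ) : ℂ) * (((h i : ℂ) * FF (f i) (h i * ξ)) *
        (starRingEnd ℂ) ((h j : ℂ) * FF (f j) (h j * ξ))) := by
      rw [map_mul, map_mul, Complex.conj_ofReal, Complex.conj_ofReal]
      push_cast
      ring
    rw [h2, Complex.re_ofReal_mul]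
    ring
  rw [h1, integral_finsetSum]
  · rw [Finset.mul_sum]
    refine Finset.sum_congr rfl fun i _ => ?_
    rw [integral_finsetSum]
    · rw [Finset.mul_sum]
      refine Finset.sum_congr rfl fun j _ => ?_
      rw [integral_const_mul]
      have h3 := Tm_eq (f i) (f j) (a := h i) (hh j)
      unfold Tm at h3
      rw [h3]
      ring
    · intro j _
      exact (Tm_int (hf i) (hf j) (hs i) (hs j) (hh i) (hh j)).const_mul _
  · intro i _
    apply integrable_finsetSum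
    intro j _
    exact (Tm_int (hf i) (hf j) (hs i) (hs j) (hh i) (hh j)).const_mul _

end COVL

theorem t_COV : S_COV := by
  intro k f hf hs R _ h c hh hR hnR
  have h1 : (fun T => sg (fun x => ∑ j, c j * f j (x / h j T))) = fun T =>
      ∑ i, ∑ j, c i * c j * (1 / (2 * Real.pi ^ 2) * COVL.Jm (f i) (f j) (h i T / h j T)) := by
    funext T
    exact COVL.sg_eq k f hf hs (fun j => h j T) c (fun j => hh j T)
  rw [h1]
  refine tendsto_finsetSum _ fun i _ => tendsto_finsetSum _ fun j _ => ?_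
  refine Tendsto.const_mul _ ?_
  by_cases hij : R i j
  · rw [if_pos hij]
    have h2 : (fun T => 1 / (2 * Real.pi ^ 2) * COVL.Jm (f i) (f j) (h i T / h j T)) =
        fun _ => cv (f i) (f j) := by
      funext T
      rw [hR i j hij T, div_self (hh j T).ne']
      unfold cv COVL.Jm
      congr 2
      funext ξ
      rw [one_mul, mul_assoc, Complex.re_ofReal_mul]
    rw [h2]
    exact tendsto_const_nhds
  · rw [if_neg hij]
    have h0 : (0 : ℝ) = 1 / (2 * Real.pi ^ 2) * 0 := by ring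
    rw [h0]
    refine Tendsto.const_mul _ ?_
    rcases hnR i j hij with h2 | h2
    · exact COVL.Jm_tendsto (hf i) (hf j) (hs i) (hs j) h2
    · have h3 : (fun T => COVL.Jm (f i) (f j) (h i T / h j T)) =
          fun T => COVL.Jm (f j) (f i) (h j T / h i T) := by
        funext T
        rw [← COVL.Tm_eq (f i) (f j) (hh j T), COVL.Tm_symm, COVL.Tm_eq (f j) (f i) (hh i T)]
      rw [h3]
      exact COVL.Jm_tendsto (hf j) (hf i) (hs j) (hs i) h2

end Pool.Agent.H203.ME
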