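import Pool.Agent.H203.ME.FIN2

set_option autoImplicit false

open Complex Filter Topology Set MeasureTheory ProbabilityTheory
open scoped BoundedContinuousFunction RealInnerProductSpace

namespace Pool.Agent.H203.ME

namespace FINL

/-- an auxiliary scale below all the scales -/
noncomputable def hm {k : ℕ} (h : Fin k → ℝ → ℝ) (T : ℝ) : ℝ :=
  Finset.univ.inf' ⟨none, Finset.mem_univ _⟩
    (fun o : Option (Fin k) => o.elim (1 / Real.sqrt (Real.log T)) (fun j => h j T))

lemma hm_le {k : ℕ} (h : Fin k → ℝ → ℝ) (T : ℝ) (j : Fin k) : hm h T ≤ h j T :=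
  Finset.inf'_le (fun o : Option (Fin k) => o.elim (1 / Real.sqrt (Real.log T)) (fun j => h j T)) (Finset.mem_univ (some j))

lemma hm_le' {k : ℕ} (h : Fin k → ℝ → ℝ) (T : ℝ) : hm h T ≤ 1 / Real.sqrt (Real.log T) :=
  Finset.inf'_le (fun o : Option (Fin k) => o.elim (1 / Real.sqrt (Real.log T)) (fun j => h j T)) (Finset.mem_univ none)

lemma hm_ev {k : ℕ} {h : Fin k → ℝ → ℝ} (hh : Scales h) {η : ℝ} (hη : 0 < η) :
    ∀ᶠ T in atTop, 0 < hm h T ∧ hm h T ≤ η ∧ 1 ≤ η * (hm h T * Real.log T) := by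
  have h1 : ∀ᶠ T in atTop, ∀ j, 1 / η ≤ h j T * Real.log T := by
    rw [eventually_all]; exact fun j => (hh.infty j).eventually (eventually_ge_atTop _)
  have h2 : Tendsto (fun T : ℝ => Real.sqrt (Real.log T)) atTop atTop :=
    Real.tendsto_sqrt_atTop.comp Real.tendsto_log_atTop
  filter_upwards [pos hh, h1, h2.eventually (eventually_ge_atTop (1 / η)),
    Real.tendsto_log_atTop.eventually (eventually_gt_atTop 0)] with T a1 a2 a3 a4
  have a5 : 0 < Real.sqrt (Real.log T) := Real.sqrt_pos.2 a4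
  have b1 : ∀ o : Option (Fin k), 0 < o.elim (1 / Real.sqrt (Real.log T)) (fun j => h j T) := by
    rintro (_ | j)
    · simp only [Option.elim]; positivity
    · exact a1 j
  have b2 : ∀ o : Option (Fin k), 1 / (η * Real.log T) ≤ o.elim (1 / Real.sqrt (Real.log T)) (fun j => h j T) := by
    rintro (_ | j)
    · simp only [Option.elim]
      rw [div_le_div_iff₀ (by positivity) a5]
      have h3 : Real.log T = Real.sqrt (Real.log T) * Real.sqrt (Real.log T) := (Real.mul_self_sqrt a4.le).symm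
      have h4 : 1 ≤ η * Real.sqrt (Real.log T) := by
        rw [div_le_iff₀ hη] at a3; linarith
      calc 1 * Real.sqrt (Real.log T) ≤ η * Real.sqrt (Real.log T) * Real.sqrt (Real.log T) := by gcongr
        _ = 1 * (η * (Real.sqrt (Real.log T) * Real.sqrt (Real.log T))) := by ring
        _ = 1 * (η * Real.log T) := by rw [← h3]
    · simp only [Option.elim]
      have := a2 j
      rw [div_le_iff₀ hη] at this
      rw [div_le_iff₀ (by positivity)]
      linarith
  refine ⟨?_, ?_, ?_⟩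
  · unfold hm
    rw [Finset.lt_inf'_iff]
    exact fun o _ => b1 o
  · refine (hm_le' h T).trans ?_
    rw [div_le_iff₀ a5]
    rw [div_le_iff₀ hη] at a3
    linarith
  · have h3 : 1 / (η * Real.log T) ≤ hm h T := by
      unfold hm
      rw [Finset.le_inf'_iff]
      exact fun o _ => b2 o
    rw [div_le_iff₀ (by positivity)] at h3
    linarith

lemma zer_ev (hZ : S_ZER) (hA : S_ADM) {k : ℕ} {f : Fin k → ℝ → ℝ} (hf : ∀ j, ContDiff ℝ 3 (f j))
    (hs : ∀ j, HasCompactSupport (f j)) {h : Fin k → ℝ → ℝ} (hh : Scales h) (u : Fin k → ℝ) {ε : ℝ} (hε : 0 < ε) :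
    ∀ᶠ T in atTop, ‖(∑ z ∈ H370.Zf riemannZeta T (2 * T), (mz z : ℂ) * cexp (I * (XF (cb f h u T) T z.im : ℂ))) -
      (H370.NN riemannZeta T (2 * T) : ℂ) * cexp (-(sg (cb f h u T) : ℂ) / 2)‖ ≤ ε * (T * Real.log T) := by
  have hf2 : ∀ j, ContDiff ℝ 2 (f j) := fun j => (hf j).of_le (by norm_num)
  have hf' : ∀ j, ContDiff ℝ 2 (deriv (f j)) := fun j => by
    have h1 := hf j
    rw [show (3 : WithTop ℕ∞) = 2 + 1 by norm_num, contDiff_succ_iff_deriv] at h1
    exact h1.2.2
  obtain ⟨V1, hV1, hA1⟩ := adm_ev hA hf2 hs hh u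
  obtain ⟨V2, hV2, hA2⟩ := adm_ev hA hf' (fun j => (hs j).deriv) hh u
  obtain ⟨η, T0, hη, -, hT0, hZ⟩ := hZ (max V1 V2) ε (lt_max_of_lt_left hV1) hε
  have mono : ∀ {V V' L : ℝ} {F : ℝ → ℝ}, V ≤ V' → Adm η V L F → Adm η V' L F := fun hV h =>
    ⟨h.c2, h.l1, h.l2, h.va.trans hV, h.tv⟩
  filter_upwards [hA1 η hη, hA2 η hη, hm_ev hh hη, eventually_ge_atTop T0, pos hh] with T a1 a2 a3 a4 a5
  have e1 : (fun x => ∑ j, (1 : ℝ) * (u j * f j (x / h j T))) = cb f h u T := by
    funext x
    exact Finset.sum_congr rfl fun j _ => one_mul _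
  have b1 := a1 (fun _ => 1) (fun j => by simp)
  rw [e1] at b1
  have b2 := a2 (fun j => hm h T / h j T) (fun j => by
    rw [abs_of_pos (div_pos a3.1 (a5 j)), div_le_one (a5 j)]
    exact hm_le h T j)
  have e2 : (fun x => ∑ j, hm h T / h j T * (u j * deriv (f j) (x / h j T))) =
      fun x => hm h T * deriv (cb f h u T) x := by
    funext x
    have hd : HasDerivAt (cb f h u T) (∑ j, u j * (deriv (f j) (x / h j T) * (1 / h j T))) x := by
      unfold cb
      refine HasDerivAt.fun_sum fun j _ => HasDerivAt.const_mul _ ?_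
      have h1 : HasDerivAt (f j) (deriv (f j) (x / h j T)) (x / h j T) :=
        ((hf j).differentiable (by norm_num) _).hasDerivAt
      exact h1.comp x ((hasDerivAt_id x).div_const (h j T))
    rw [hd.deriv, Finset.mul_sum]
    exact Finset.sum_congr rfl fun j _ => by ring
  rw [e2] at b2
  exact hZ T a4 (cb f h u T) (hm h T) a3.1 a3.2.1 a3.2.2 (mono (le_max_left _ _) b1) (mono (le_max_right _ _) b2)

/-- the number of zeros -/
lemma nn_low : ∃ T0 : ℝ, 10 ≤ T0 ∧ ∀ T : ℝ, T0 ≤ T →
    T * Real.log T / 8 ≤ (H370.NN riemannZeta T (2 * T) : ℝ) ∧ 1 ≤ Real.log T := by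
  obtain ⟨C, T0, hC, hT0, hN⟩ := H370.nn_asymp H370.good_zeta
  refine ⟨max T0 (Real.exp (60 * C + 1)), le_max_of_le_left hT0, fun T hT => ?_⟩
  have h1 := hN T ((le_max_left _ _).trans hT) T (2 * T) le_rfl (by linarith) (by linarith) le_rfl
  have hT1 : 10 ≤ T := hT0.trans ((le_max_left _ _).trans hT)
  have h2 : 60 * C + 1 ≤ Real.log T := by
    rw [Real.le_log_iff_exp_le (by linarith)]
    exact (le_max_right _ _).trans hT
  refine ⟨?_, by nlinarith⟩
  have h3 := (abs_le.1 h1).1
  have h4 : T * Real.log T / 7 ≤ T * Real.log T / (2 * Real.pi) := by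
    apply div_le_div_of_nonneg_left (by nlinarith) (by positivity)
    have := Real.pi_lt_d2
    linarith
  have h5 : C * T ≤ T * Real.log T / 60 := by nlinarith
  nlinarith

end FINL

open FINL

/-- random zero -/
theorem finB (hZ : S_ZER) (hA : S_ADM) (hC : S_COV) {k : ℕ} {f : Fin k → ℝ → ℝ} (hf : ∀ j, ContDiff ℝ 3 (f j))
    (hs : ∀ j, HasCompactSupport (f j)) {h : Fin k → ℝ → ℝ} (hh : Scales h) (φ : EuclideanSpace ℝ (Fin k) →ᵇ ℝ) :
    Tendsto (fun T : ℝ => (∑ z ∈ H370.Zf riemannZeta T (2 * T), (mz z : ℝ) * φ (Xv f (fun j => h j T) T z.im)) /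
      H370.NN riemannZeta T (2 * T)) atTop
      (𝓝 (∫ x, φ x ∂(multivariateGaussian 0 (cM f h)))) := by
  classical
  have hf2 : ∀ j, ContDiff ℝ 2 (f j) := fun j => (hf j).of_le (by norm_num)
  set E := EuclideanSpace ℝ (Fin k)
  set N : ℝ → ℝ := fun T => (H370.NN riemannZeta T (2 * T) : ℝ) with hN
  obtain ⟨T0, hT0, hlow⟩ := nn_low
  have hsum : ∀ T : ℝ, T0 ≤ T → ∑ z ∈ H370.Zf riemannZeta T (2 * T), (mz z : ℝ) = N T := by
    intro T hT
    rw [hN]
    simp only
    rw [H370.NN_eq H370.good_zeta (by linarith)]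
    push_cast
    rfl
  set μ : ℝ → Measure E := fun T => ∑ z ∈ H370.Zf riemannZeta T (2 * T),
    ENNReal.ofReal ((mz z : ℝ) / N T) • Measure.dirac (Xv f (fun j => h j T) T z.im) with hμ
  have hNpos : ∀ T : ℝ, T0 ≤ T → 0 < N T := by
    intro T hT
    obtain ⟨h1, h2⟩ := hlow T hT
    have : 0 < T * Real.log T := by nlinarith
    rw [hN]; simp only; linarith
  have hp : ∀ᶠ T in atTop, IsProbabilityMeasure (μ T) := by
    filter_upwards [eventually_ge_atTop T0] with T hT
    constructor
    rw [hμ]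
    simp only [Measure.coe_finsetSum, Finset.sum_apply, Measure.smul_apply, smul_eq_mul, measure_univ, mul_one]
    rw [← ENNReal.ofReal_sum_of_nonneg (fun z _ => div_nonneg (Nat.cast_nonneg _) (hNpos T hT).le), ← Finset.sum_div,
      hsum T hT, div_self (hNpos T hT).ne', ENNReal.ofReal_one]
  have hint : ∀ᶠ T : ℝ in atTop, ∀ {G : Type} [NormedAddCommGroup G] [NormedSpace ℝ G] [CompleteSpace G] (g : E → G), Continuous g →
      ∫ x, g x ∂(μ T) = ∑ z ∈ H370.Zf riemannZeta T (2 * T), ((mz z : ℝ) / N T) • g (Xv f (fun j => h j T) T z.im) := by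
    filter_upwards [eventually_ge_atTop T0] with T hT G _ _ _ g hg
    rw [hμ]
    simp only
    rw [integral_finsetSum_measure]
    · refine Finset.sum_congr rfl fun z _ => ?_
      rw [integral_smul_measure, integral_dirac, ENNReal.toReal_ofReal (div_nonneg (Nat.cast_nonneg _) (hNpos T hT).le)]
    · intro z _
      refine Integrable.smul_measure ?_ ENNReal.ofReal_ne_top
      exact integrable_dirac (by finiteness)
  have hchar : ∀ u, Tendsto (fun T => charFun (μ T) u) atTop (𝓝 (charFun (multivariateGaussian 0 (cM f h)) u)) := by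
    intro u
    rw [charG hC hf2 hs hh]
    have h1 : Tendsto (fun T : ℝ => cexp (-((sg (cb f h u T) : ℝ) : ℂ) / 2)) atTop
        (𝓝 (cexp (-((∑ i, ∑ j, u i * u j * cM f h i j : ℝ) : ℂ) / 2))) := by
      refine (Complex.continuous_exp.tendsto _).comp ?_
      exact (((Complex.continuous_ofReal.tendsto _).comp (sg_ev hC hf2 hs hh u)).neg).div_const 2
    have h2 : Tendsto (fun T : ℝ => charFun (μ T) u - cexp (-((sg (cb f h u T) : ℝ) : ℂ) / 2)) atTop (𝓝 0) := by
      rw [NormedAddGroup.tendsto_nhds_zero]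
      intro ε hε
      filter_upwards [hint, c2c_ev hf2 hs hh, eventually_ge_atTop T0,
        zer_ev hZ hA hf hs hh u (show 0 < ε / 16 by positivity)] with T a1 a2 a3 a4
      obtain ⟨b1, b2⟩ := hlow T a3
      have hNT := hNpos T a3
      have e1 : charFun (μ T) u - cexp (-((sg (cb f h u T) : ℝ) : ℂ) / 2) = (1 / N T : ℂ) *
          ((∑ z ∈ H370.Zf riemannZeta T (2 * T), (mz z : ℂ) * cexp (I * (XF (cb f h u T) T z.im : ℂ))) -
            (H370.NN riemannZeta T (2 * T) : ℂ) * cexp (-(sg (cb f h u T) : ℂ) / 2)) := by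
        rw [charFun_apply, a1 (fun x => cexp (⟪x, u⟫ * I)) (by fun_prop), mul_sub, Finset.mul_sum]
        congr 1
        · refine Finset.sum_congr rfl fun z hz => ?_
          rw [H370.mem_Zf H370.good_zeta (by linarith)] at hz
          obtain ⟨-, -, hz1, hz2, -⟩ := hz
          rw [inner_Xv a2 u (by linarith) hz1.le hz2, Complex.real_smul]
          push_cast
          rw [mul_comm I]
          ring
        · rw [hN]
          have : ((H370.NN riemannZeta T (2 * T) : ℝ) : ℂ) ≠ 0 := by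
            rw [Complex.ofReal_ne_zero]; exact hNT.ne'
          push_cast at this ⊢
          field_simp
      rw [e1, norm_mul, norm_div, norm_one, Complex.norm_real, Real.norm_eq_abs, abs_of_pos hNT]
      have hTL : 0 < T * Real.log T := by nlinarith
      have b1' : T * Real.log T / 8 ≤ N T := b1
      calc 1 / N T * _ ≤ 1 / N T * (ε / 16 * (T * Real.log T)) := by gcongr
        _ ≤ 1 / (T * Real.log T / 8) * (ε / 16 * (T * Real.log T)) := by gcongr
        _ = ε / 2 := by
            generalize T * Real.log T = X at hTL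
            have : X ≠ 0 := hTL.ne'
            field_simp
            norm_num
        _ < ε := by linarith
    have h3 := h2.add h1
    rw [zero_add] at h3
    exact h3.congr fun T => by ring
  have hw := weak hp hchar φ
  refine hw.congr' ?_
  filter_upwards [hint] with T h1
  rw [h1 φ φ.continuous, Finset.sum_div]
  exact Finset.sum_congr rfl fun z _ => by rw [smul_eq_mul]; ring

end Pool.Agent.H203.ME
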