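import Pool.Agent.H203.ME.Defs2

set_option autoImplicit false

/-! (L1X) the linear statistics are bounded in `L¹`. -/

open Complex Filter Topology Set MeasureTheory

namespace Pool.Agent.H203.ME

namespace L1XL

/-- second moment of a prime polynomial -/
lemma mom2 (hM : S_MOM) (N : ℕ) (a : ℕ → ℂ) (T : ℝ) (hN : 1 ≤ N) (hT : 1 ≤ T) (hNT : (N : ℝ) ^ 4 ≤ T)
    (ha : ∀ p, ‖a p‖ ≤ 1) :
    ∫ t in T..(2 * T), ‖∑ p ∈ (Finset.Icc 1 N).filter Nat.Prime, a p * ee p t‖ ^ 2 ≤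
      T * (2 * (∑ p ∈ (Finset.Icc 1 N).filter Nat.Prime, ‖a p‖ ^ 2) + 3) := by
  have hT0 : 0 < T := by linarith
  have h := hM 1 1 N a 1 T hN zero_le_one le_rfl hT ha
  set S := ∑ p ∈ (Finset.Icc 1 N).filter Nat.Prime, ‖a p‖ ^ 2 with hS
  simp only [pow_one, if_true, Nat.factorial_one, Nat.cast_one, one_mul, one_pow, mul_one] at h
  set J := ∫ t in T..(2 * T), ‖∑ p ∈ (Finset.Icc 1 N).filter Nat.Prime, a p * ee p t‖ ^ 2 with hJ
  have e : (∫ t in T..(2 * T), (∑ p ∈ (Finset.Icc 1 N).filter Nat.Prime, a p * ee p t) *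
      ((starRingEnd ℂ) (∑ p ∈ (Finset.Icc 1 N).filter Nat.Prime, a p * ee p t))) = (J : ℂ) := by
    rw [hJ, ← intervalIntegral.integral_ofReal]
    congr 1
    funext t
    rw [Complex.mul_conj, Complex.normSq_eq_norm_sq]
  rw [e] at h
  have e2 : (1 / T : ℂ) * (J : ℂ) - (S : ℂ) = ((1 / T * J - S : ℝ) : ℂ) := by push_cast; ring
  rw [e2, Complex.norm_real, Real.norm_eq_abs] at h
  have h1 := (abs_le.1 h).2
  have h2 : 2 * (N : ℝ) ^ (2 * (1 + 1)) / T ≤ 2 := by
    rw [div_le_iff₀ hT0]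
    norm_num
    exact hNT
  have h3 : 1 / T * J ≤ 2 * S + 3 := by linarith
  calc J = T * (1 / T * J) := by field_simp
    _ ≤ T * (2 * S + 3) := by gcongr

end L1XL

theorem t_L1X (hA : S_APX) (hBC : S_BBC) (hP : S_PRM) (hM : S_MOM) (hV : S_VAR) : S_L1X := by
  obtain ⟨CA, TA, hCA, hTA, hA⟩ := hA
  obtain ⟨CP, hCP, hP⟩ := hP
  obtain ⟨CV, hCV, hV⟩ := hV
  obtain ⟨TP, hTP, hP⟩ := hP (1 / 4) (by norm_num) le_rfl
  have hev : ∀ᶠ T : ℝ in atTop, TA ≤ T ∧ TP ≤ T ∧ 4 ≤ T ^ (1 / 4 : ℝ) :=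
    (eventually_ge_atTop TA).and ((eventually_ge_atTop TP).and
      ((tendsto_rpow_atTop (show (0 : ℝ) < 1 / 4 by norm_num)).eventually (eventually_ge_atTop 4)))
  obtain ⟨T1, hT1⟩ := eventually_atTop.1 hev
  refine ⟨CA + 17 * CP + 132 * CV + 6, max T1 10, by positivity, le_max_right _ _,
    fun T hT η V F hη0 hη1 hV0 hF => ?_⟩
  obtain ⟨hTA', hTP', hT4⟩ := hT1 T ((le_max_left _ _).trans hT)
  have hT10 : 10 ≤ T := (le_max_right _ _).trans hT
  have hT0 : 0 < T := by linarith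
  obtain ⟨hL20, hA⟩ := hA T hTA'
  obtain ⟨hXc, hab, hA⟩ := hA η V F hη0 hF
  have hP := hP T hTP' η V F hη0 hη1 hV0 hF
  set L := Real.log T with hLd
  have hL0 : 0 < L := by linarith
  set N := ⌊T ^ (1 / 4 : ℝ)⌋₊ with hN
  obtain ⟨hNlog, hN3⟩ := floor_log hT4
  rw [← hN] at hNlog hN3
  have hlogN : L / 8 ≤ Real.log N := by
    rw [Real.log_rpow hT0] at hNlog; linarith
  have hlogN0 : 0 < Real.log N := lt_of_lt_of_le (by positivity) hlogN
  have hVN := hV η V L F hη0 (by linarith) hF N hN3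
  have hN4 : (N : ℝ) ^ 4 ≤ T := by
    have h1 : (N : ℝ) ≤ T ^ (1 / 4 : ℝ) := Nat.floor_le (by positivity)
    calc (N : ℝ) ^ 4 ≤ (T ^ (1 / 4 : ℝ)) ^ 4 := pow_le_pow_left₀ (Nat.cast_nonneg _) h1 4
      _ = T := by rw [← Real.rpow_natCast, ← Real.rpow_mul hT0.le]; norm_num
  have hη2 : η ^ 2 ≤ 1 := by nlinarith
  have n3 : CV * (η + η ^ 2 + (η * L / Real.log N) ^ 2) ≤ 66 * CV := by
    have h1 : η * L / Real.log N ≤ 8 := by
      rw [div_le_iff₀ hlogN0]
      nlinarith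
    have h2 : (η * L / Real.log N) ^ 2 ≤ 8 ^ 2 := pow_le_pow_left₀ (by positivity) h1 2
    calc CV * (η + η ^ 2 + (η * L / Real.log N) ^ 2) ≤ CV * (1 + 1 + 8 ^ 2) := by gcongr
      _ = _ := by ring
  set SS := ∑ p ∈ (Finset.Icc 1 N).filter Nat.Prime, (Real.log p) ^ 2 / p * ‖FF F (Real.log p)‖ ^ 2 with hSS
  set VV := ∫ ξ in Ioi (0 : ℝ), ξ * ‖FF F ξ‖ ^ 2 with hVV
  have hSap : ∑ p ∈ (Finset.Icc 1 N).filter Nat.Prime, ‖ap F p‖ ^ 2 = 1 / Real.pi ^ 2 * SS := by
    rw [hSS, Finset.mul_sum]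
    exact Finset.sum_congr rfl fun p _ => ap_sq F p
  have hpi2 : 1 / Real.pi ^ 2 ≤ 1 := by
    rw [div_le_one (by positivity)]
    nlinarith [Real.pi_gt_three]
  have hpi20 : 0 < 1 / Real.pi ^ 2 := by positivity
  have hSS0 : 0 ≤ SS := Finset.sum_nonneg fun p _ => by positivity
  have hVVV : VV ≤ V := hF.va
  have hSVabs := abs_le.1 (hVN.trans n3)
  have hSS1 : SS ≤ V + 66 * CV := by linarith [hSVabs.2]
  have hS1 : 1 / Real.pi ^ 2 * SS ≤ V + 66 * CV :=
    (mul_le_of_le_one_left hSS0 hpi2).trans hSS1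
  have hmom := L1XL.mom2 hM N (ap F) T (by omega) (by linarith) hN4
    (fun p => (ap_le F p).trans (hF.l1.trans hη1))
  rw [hSap] at hmom
  -- the pieces
  set a := T + 2 * L with ha
  set b := 2 * T - 2 * L with hb
  have hFc2 := hF.c2
  have hYc := Y1_cont F N
  have hBc := hBC F hFc2 (L / 4) (by linarith)
  have hTa : T ≤ a := by rw [ha]; linarith
  have hb2 : b ≤ 2 * T := by rw [hb]; linarith
  obtain ⟨v, hv⟩ : ∃ v, v = Real.sqrt (V + 1) := ⟨_, rfl⟩
  have hv2 : v ^ 2 = V + 1 := by rw [hv]; exact Real.sq_sqrt (by linarith)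
  have hv1 : 1 ≤ v := by rw [hv]; exact Real.one_le_sqrt.2 (by linarith)
  rw [← hv]
  have hY : ∫ t in a..b, (Y1 F N t) ^ 2 ≤ T * ((5 + 132 * CV) * v ^ 2) := by
    have h1 : ∫ t in a..b, (Y1 F N t) ^ 2 ≤ ∫ t in T..(2 * T), (Y1 F N t) ^ 2 := by
      apply intervalIntegral.integral_mono_interval hTa hab hb2
      · exact Eventually.of_forall fun t => sq_nonneg _
      · exact Continuous.intervalIntegrable (by fun_prop) _ _
    have h2 : ∫ t in T..(2 * T), (Y1 F N t) ^ 2 ≤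
        ∫ t in T..(2 * T), ‖∑ p ∈ (Finset.Icc 1 N).filter Nat.Prime, ap F p * ee p t‖ ^ 2 := by
      apply intervalIntegral.integral_mono_on (by linarith)
      · exact Continuous.intervalIntegrable (by fun_prop) _ _
      · apply Continuous.intervalIntegrable
        unfold ee
        fun_prop
      · intro t _
        have h3 := Complex.abs_re_le_norm (∑ p ∈ (Finset.Icc 1 N).filter Nat.Prime, ap F p * ee p t)
        rw [Y1_eq, abs_neg] at h3
        rw [← sq_abs]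
        exact pow_le_pow_left₀ (abs_nonneg _) h3 2
    refine (h1.trans (h2.trans hmom)).trans ?_
    apply mul_le_mul_of_nonneg_left _ hT0.le
    rw [hv2]
    have k1 : 0 ≤ CV * V := mul_nonneg hCV.le hV0
    have k2 : (5 + 132 * CV) * (V + 1) = 5 * V + 5 + 132 * (CV * V) + 132 * CV := by ring
    rw [k2]
    linarith
  have hD : ∫ t in a..b, (BB F (L / 4) t - Y1 F N t) ^ 2 ≤ T * (17 * CP * v ^ 2) := by
    have h1 : ∫ t in a..b, (BB F (L / 4) t - Y1 F N t) ^ 2 ≤ ∫ t in T..(2 * T), (BB F (L / 4) t - Y1 F N t) ^ 2 := by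
      apply intervalIntegral.integral_mono_interval hTa hab hb2
      · exact Eventually.of_forall fun t => sq_nonneg _
      · exact Continuous.intervalIntegrable (by fun_prop) _ _
    refine h1.trans (hP.trans ?_)
    rw [hv2]
    have h2 : η ^ 2 / (1 / 4) ^ 2 + (1 / 4) ^ 4 * (V + 1) ≤ 17 * (V + 1) := by
      have : η ^ 2 / (1 / 4) ^ 2 = 16 * η ^ 2 := by ring
      rw [this]
      nlinarith
    calc CP * T * (η ^ 2 / (1 / 4) ^ 2 + (1 / 4) ^ 4 * (V + 1)) ≤ CP * T * (17 * (V + 1)) := by gcongr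
      _ = _ := by ring
  have i0 : IntervalIntegrable (fun t => |XF F T t|) volume a b := by
    apply ContinuousOn.intervalIntegrable
    rw [uIcc_of_le hab]
    exact hXc.abs
  have i1 : IntervalIntegrable (fun t => |XF F T t + BB F (L / 4) t|) volume a b := by
    apply ContinuousOn.intervalIntegrable
    rw [uIcc_of_le hab]
    exact (hXc.add hBc.continuousOn).abs
  have i2 : IntervalIntegrable (fun t => (BB F (L / 4) t - Y1 F N t) ^ 2) volume a b :=
    Continuous.intervalIntegrable (by fun_prop) _ _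
  have i3 : IntervalIntegrable (fun t => (Y1 F N t) ^ 2) volume a b :=
    Continuous.intervalIntegrable (by fun_prop) _ _
  have i4 : IntervalIntegrable (fun _ : ℝ => v / 2) volume a b := intervalIntegrable_const
  have hmain : ∫ t in a..b, |XF F T t| ≤ ∫ t in a..b, (|XF F T t + BB F (L / 4) t| +
      (1 / v * (BB F (L / 4) t - Y1 F N t) ^ 2 + (1 / v * (Y1 F N t) ^ 2 + v / 2))) := by
    apply intervalIntegral.integral_mono_on hab i0
    · exact i1.add ((i2.const_mul _).add ((i3.const_mul _).add i4))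
    · intro t _
      have h1 : |XF F T t| ≤ |XF F T t + BB F (L / 4) t| + |BB F (L / 4) t| := by
        have : XF F T t = (XF F T t + BB F (L / 4) t) - BB F (L / 4) t := by ring
        calc |XF F T t| = |(XF F T t + BB F (L / 4) t) - BB F (L / 4) t| := by rw [← this]
          _ ≤ _ := abs_sub _ _
      have h2 : |BB F (L / 4) t| ≤ (BB F (L / 4) t) ^ 2 / (2 * v) + v / 2 := by
        rw [← sq_abs (BB F (L / 4) t)]
        set x := |BB F (L / 4) t|
        have h5 : x ^ 2 / (2 * v) + v / 2 - x = (x - v) ^ 2 / (2 * v) := by field_simp; ring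
        have h6 : 0 ≤ (x - v) ^ 2 / (2 * v) := by positivity
        linarith
      have h3 : (BB F (L / 4) t) ^ 2 ≤ 2 * (BB F (L / 4) t - Y1 F N t) ^ 2 + 2 * (Y1 F N t) ^ 2 := by
        have h6 := sq_nonneg (BB F (L / 4) t - 2 * Y1 F N t)
        have h7 : 2 * (BB F (L / 4) t - Y1 F N t) ^ 2 + 2 * (Y1 F N t) ^ 2 - (BB F (L / 4) t) ^ 2 =
          (BB F (L / 4) t - 2 * Y1 F N t) ^ 2 := by ring
        linarith
      have h4 : (BB F (L / 4) t) ^ 2 / (2 * v) ≤
          1 / v * (BB F (L / 4) t - Y1 F N t) ^ 2 + 1 / v * (Y1 F N t) ^ 2 := by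
        calc (BB F (L / 4) t) ^ 2 / (2 * v) ≤
            (2 * (BB F (L / 4) t - Y1 F N t) ^ 2 + 2 * (Y1 F N t) ^ 2) / (2 * v) := by gcongr
          _ = _ := by field_simp
      linarith
  have hsum : ∫ t in a..b, (|XF F T t + BB F (L / 4) t| +
      (1 / v * (BB F (L / 4) t - Y1 F N t) ^ 2 + (1 / v * (Y1 F N t) ^ 2 + v / 2))) =
      (∫ t in a..b, |XF F T t + BB F (L / 4) t|) + (1 / v * (∫ t in a..b, (BB F (L / 4) t - Y1 F N t) ^ 2) +
        (1 / v * (∫ t in a..b, (Y1 F N t) ^ 2) + (b - a) * (v / 2))) := by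
    rw [intervalIntegral.integral_add i1 ((i2.const_mul _).add ((i3.const_mul _).add i4)),
      intervalIntegral.integral_add (i2.const_mul _) ((i3.const_mul _).add i4),
      intervalIntegral.integral_add (i3.const_mul _) i4, intervalIntegral.integral_const_mul,
      intervalIntegral.integral_const_mul, intervalIntegral.integral_const, smul_eq_mul]
  rw [hsum] at hmain
  refine hmain.trans ?_
  have hv0 : 0 < v := by linarith
  have g1 : CA * T * η ≤ CA * T * v := by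
    have : η ≤ v := hη1.trans hv1
    gcongr
  have g2 : 1 / v * (∫ t in a..b, (BB F (L / 4) t - Y1 F N t) ^ 2) ≤ T * (17 * CP * v) := by
    calc _ ≤ 1 / v * (T * (17 * CP * v ^ 2)) := by gcongr
      _ = _ := by field_simp
  have g3 : 1 / v * (∫ t in a..b, (Y1 F N t) ^ 2) ≤ T * ((5 + 132 * CV) * v) := by
    calc _ ≤ 1 / v * (T * ((5 + 132 * CV) * v ^ 2)) := by gcongr
      _ = _ := by field_simp
  have g4 : (b - a) * (v / 2) ≤ T * v := by
    have h7 : b - a ≤ T := by rw [ha, hb]; linarith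
    have h8 : (b - a) * (v / 2) ≤ T * (v / 2) := mul_le_mul_of_nonneg_right h7 (by positivity)
    have h9 : 0 ≤ T * v := by positivity
    linarith
  have e : (CA + 17 * CP + 132 * CV + 6) * T * v =
      CA * T * v + (T * (17 * CP * v) + (T * ((5 + 132 * CV) * v) + T * v)) := by ring
  rw [e]
  linarith

end Pool.Agent.H203.ME
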