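import Pool.Agent.H203.ME.ALL
import Pool.Agent.H203.ME.L1X
import Pool.Agent.H203.ME.ADM
import Pool.Agent.H203.ME.LLN
import Pool.Agent.H203.ME.ZER
import Pool.Agent.H203.ME.COV
import Pool.Agent.H203.ME.FIN3

set_option autoImplicit false

open Complex Filter Topology Set MeasureTheory

namespace Pool.Agent.H203.ME

theorem p_L1X : S_L1X := t_L1X p_APX t_BBC (t_PRM t_VAR) t_MOM t_VAR

theorem p_LLN : S_LLN := t_LLN p_L1X t_ADM

theorem p_ZER : S_ZER := t_ZER p_MAIN p_L1X p_LLN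

end Pool.Agent.H203.ME
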