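import Pool.Agent.H203.ME.Defs4

set_option autoImplicit false

/-! Mesoscopic statistics of the zeros of zeta: the smoothed and the sharp number of zeros in a window. -/

open Complex Filter Topology Set MeasureTheory

namespace Pool.Agent.H203.ME

namespace CNL

lemma mem_Zf {U1 U2 : ℝ} (hU : 1 ≤ U1) (s : ℂ) :
    s ∈ H370.Zf riemannZeta U1 U2 ↔ s ∈ H370.zset riemannZeta U1 U2 :=
  H370.mem_Zf H370.good_zeta hU

/-- the number of zeros of a smaller window -/
lemma NN_sub {U1 U2 a b : ℝ} (hU : 1 ≤ U1) (ha : U1 ≤ a) (hb : b ≤ U2) :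
    (H370.NN riemannZeta a b : ℝ) = ∑ s ∈ H370.Zf riemannZeta U1 U2,
      (mz s : ℝ) * (if a < s.im ∧ s.im ≤ b then 1 else 0) := by
  classical
  have h1 : H370.NN riemannZeta a b = ∑ s ∈ H370.Zf riemannZeta a b, mz s :=
    H370.NN_eq H370.good_zeta (hU.trans ha)
  have h2 : H370.Zf riemannZeta a b =
      (H370.Zf riemannZeta U1 U2).filter fun s => a < s.im ∧ s.im ≤ b := by
    ext s
    rw [Finset.mem_filter, mem_Zf (hU.trans ha), mem_Zf hU]
    constructor
    · rintro ⟨q1, q2, q3, q4, q5⟩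
      exact ⟨⟨q1, q2, by linarith, by linarith, q5⟩, q3, q4⟩
    · rintro ⟨⟨q1, q2, _, _, q5⟩, q3, q4⟩
      exact ⟨q1, q2, q3, q4, q5⟩
  rw [h1, h2, Nat.cast_sum, Finset.sum_filter]
  refine Finset.sum_congr rfl fun s _ => ?_
  split_ifs
  · rw [mul_one]
  · rw [mul_zero]

/-- the zeros of a window, as a real sum -/
lemma XF_win {F : ℝ → ℝ} {U1 U2 T t : ℝ} (hU : 1 ≤ U1)
    (h1 : ∀ x : ℝ, t + x ≤ U1 → F x = 0) (h2 : ∀ x : ℝ, U2 < t + x → F x = 0) :
    XF F T t = (∑ s ∈ H370.Zf riemannZeta U1 U2, (mz s : ℝ) * F (s.im - t)) -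
      Real.log T / (2 * Real.pi) * ∫ x : ℝ, F x := by
  unfold XF
  congr 1
  rw [finsum_mem_eq_sum_of_inter_support_eq]
  ext s
  simp only [mem_inter_iff, Function.mem_support, SetLike.mem_coe, mem_Zf hU]
  constructor
  · rintro ⟨⟨ha, hb, hc⟩, hd⟩
    refine ⟨⟨hb, hc, ?_, ?_, ha⟩, hd⟩
    · by_contra h
      push Not at h
      exact hd (by rw [h1 _ (by linarith), mul_zero])
    · by_contra h
      push Not at h
      exact hd (by rw [h2 _ (by linarith), mul_zero])
  · rintro ⟨⟨ha, hb, hc, hd, he⟩, hf⟩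
    exact ⟨⟨he, ha, hb⟩, hf⟩

end CNL

open CNL

theorem t_CN (hb : S_PVB) : S_CN := by
  obtain ⟨_, _, _, _, _, hP01, hPl, hPr, hPm, hPi, _, _⟩ := hb
  refine ⟨10, le_rfl, fun T hT v t hv ht1 ht2 => ?_⟩
  set L := Real.log T with hL
  have hL2 : 2 ≤ L := by
    have h1 : Real.exp 2 ≤ 10 := by
      have h2 : Real.exp 1 < 2.7182818286 := Real.exp_one_lt_d9
      have h3 : Real.exp 2 = Real.exp 1 * Real.exp 1 := by
        rw [← Real.exp_add]; norm_num
      rw [h3]
      nlinarith [Real.exp_pos 1]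
    rw [hL, Real.le_log_iff_exp_le (by linarith)]
    linarith
  have hL0 : 0 < L := by linarith
  set w := 2 * Real.pi * v / L with hw
  have hw0 : 0 ≤ w := by
    rw [hw]
    have := Real.pi_pos
    positivity
  set e := 1 / L with he
  have he0 : 0 < e := by rw [he]; positivity
  have he2 : 2 / L = 2 * e := by rw [he]; ring
  have he1 : 2 * e ≤ 1 := by
    rw [← he2, div_le_one hL0]
    exact hL2
  have hne : -1 / L = -e := by rw [he]; ring
  rw [he2]
  have hU : 1 ≤ t - 2 * e := by linarith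
  have hX : XF (Pv L v) T t = (∑ s ∈ H370.Zf riemannZeta (t - 2 * e) (t + w + 2 * e),
      (mz s : ℝ) * Pv L v (s.im - t)) - Real.log T / (2 * Real.pi) * ∫ x : ℝ, Pv L v x := by
    refine XF_win hU (fun x hx => ?_) fun x hx => ?_
    · exact hPl L v x hL0 hv (by rw [hne]; linarith)
    · exact hPr L v x hL0 hv (by rw [← hw, ← he]; linarith)
  have hv' : Real.log T / (2 * Real.pi) * ∫ x : ℝ, Pv L v x = v := by
    rw [hPi L v hL0 hv, ← hL]
    have := Real.pi_pos
    field_simp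
  rw [hX, hv', NN_sub (U1 := t - 2 * e) (U2 := t + w + 2 * e) hU (a := t) (b := t + w)
      (by linarith) (by linarith),
    NN_sub (U1 := t - 2 * e) (U2 := t + w + 2 * e) hU (a := t - 2 * e) (b := t + 2 * e)
      (by linarith) (by linarith),
    NN_sub (U1 := t - 2 * e) (U2 := t + w + 2 * e) hU (a := t + w - 2 * e) (b := t + w + 2 * e)
      (by linarith) (by linarith), sub_sub_sub_cancel_right, ← Finset.sum_sub_distrib,
    ← Finset.sum_add_distrib]
  refine (Finset.abs_sum_le_sum_abs _ _).trans (Finset.sum_le_sum fun s _ => ?_)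
  rw [← mul_sub, ← mul_add, abs_mul, abs_of_nonneg (Nat.cast_nonneg _)]
  refine mul_le_mul_of_nonneg_left ?_ (Nat.cast_nonneg _)
  obtain ⟨p0, p1⟩ := hP01 L v (s.im - t) hL0 hv
  have i0 : ∀ P : Prop, ∀ [Decidable P], (0 : ℝ) ≤ if P then 1 else 0 := by
    intro P _
    split_ifs
    · exact zero_le_one
    · exact le_rfl
  have hb1 : |Pv L v (s.im - t) - (if t < s.im ∧ s.im ≤ t + w then 1 else 0)| ≤ 1 := by
    split_ifs
    · rw [abs_le]; constructor <;> linarith
    · rw [abs_le]; constructor <;> linarith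
  by_cases c1 : s.im - t ≤ -e
  · rw [hPl L v _ hL0 hv (by rw [hne]; exact c1), if_neg (by rintro ⟨q, _⟩; linarith), sub_zero,
      abs_zero]
    exact add_nonneg (i0 _) (i0 _)
  by_cases c2 : w + e ≤ s.im - t
  · rw [hPr L v _ hL0 hv (by rw [← hw, ← he]; exact c2), if_neg (by rintro ⟨_, q⟩; linarith),
      sub_zero, abs_zero]
    exact add_nonneg (i0 _) (i0 _)
  push Not at c1 c2
  by_cases c3 : s.im - t < e
  · refine hb1.trans ?_
    rw [if_pos (show t - 2 * e < s.im ∧ s.im ≤ t + 2 * e by constructor <;> linarith)]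
    exact le_add_of_nonneg_right (i0 _)
  by_cases c4 : w - e < s.im - t
  · refine hb1.trans ?_
    rw [if_pos (show t + w - 2 * e < s.im ∧ s.im ≤ t + w + 2 * e by constructor <;> linarith)]
    exact le_add_of_nonneg_left (i0 _)
  push Not at c3 c4
  rw [hPm L v _ hL0 hv (by rw [← he]; exact c3) (by rw [← hw, ← he]; exact c4),
    if_pos (show t < s.im ∧ s.im ≤ t + w by constructor <;> linarith), sub_self, abs_zero]
  exact add_nonneg (i0 _) (i0 _)

end Pool.Agent.H203.ME
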