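import Pool.Agent.H203.ME.Defs4

/-! (DYA) from dyadic blocks to all indices. -/

set_option autoImplicit false

open Complex Filter Topology Set MeasureTheory ProbabilityTheory

namespace Pool.Agent.H203.ME

namespace DYAL

theorem NZ_add (a b : ℝ) (ha : 1 ≤ a) (hab : a ≤ b) :
    SG.NZ b = SG.NZ a + H370.NN riemannZeta a b := by
  refine le_antisymm (SG.NZ_le_add a b ha) ?_
  rw [H370.NN_eq_sum H370.good_zeta a b ha]
  refine SG.NZ_add_le a b hab _ fun s hs => ?_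
  rw [Set.Finite.mem_toFinset] at hs
  exact ⟨⟨hs.2.2.2.2, hs.1, hs.2.1, by linarith [hs.2.2.1], hs.2.2.2.1⟩, hs.2.2.1⟩

/-- growth of the counting function -/
theorem growth : ∃ c s0 : ℝ, 0 < c ∧ 10 ≤ s0 ∧ ∀ s : ℝ, s0 ≤ s →
    (1 + c) * (SG.NZ s : ℝ) ≤ SG.NZ (2 * s) ∧ s ≤ SG.NZ (2 * s) := by
  obtain ⟨C, T0, hC, hT0, hnn⟩ := H370.nn_asymp H370.good_zeta
  obtain ⟨C2, hC2, hb⟩ := SG.NZ_nat_bound
  set A : ℝ := (SG.NZ 3 : ℝ) + 4 * C2 with hA
  have hA0 : 0 < A := by positivity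
  have hpi := Real.pi_pos
  refine ⟨1 / (4 * Real.pi) / A, max T0 (Real.exp (4 * Real.pi * (C + 1))), by positivity,
    hT0.trans (le_max_left _ _), fun s hs => ?_⟩
  have hs1 : T0 ≤ s := (le_max_left _ _).trans hs
  have hs10 : 10 ≤ s := hT0.trans hs1
  have hs2 : Real.exp (4 * Real.pi * (C + 1)) ≤ s := (le_max_right _ _).trans hs
  have hlog : 4 * Real.pi * (C + 1) ≤ Real.log s := by
    rw [Real.le_log_iff_exp_le (by linarith)]
    exact hs2
  have h1 := hnn s hs1 s (2 * s) le_rfl (by linarith) (by linarith) le_rfl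
  have h2 := (abs_le.mp h1).1
  -- lower bound
  have h3 : s * Real.log s / (4 * Real.pi) ≤ (H370.NN riemannZeta s (2 * s) : ℝ) := by
    have h4 : C * s ≤ s * Real.log s / (4 * Real.pi) := by
      rw [le_div_iff₀ (by positivity)]
      have : 4 * Real.pi * C ≤ Real.log s := by nlinarith
      nlinarith
    have h5 : s * Real.log s / (2 * Real.pi) = s * Real.log s / (4 * Real.pi) +
        s * Real.log s / (4 * Real.pi) := by
      field_simp
      ring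
    linarith
  have h6 : s ≤ s * Real.log s / (4 * Real.pi) := by
    rw [le_div_iff₀ (by positivity)]
    have : 4 * Real.pi ≤ Real.log s := by nlinarith
    nlinarith
  -- upper bound
  have hlog2 : 1 ≤ Real.log s := by
    have h7 : (3 : ℝ) < Real.pi := Real.pi_gt_three
    nlinarith
  have h8 : (SG.NZ s : ℝ) ≤ A * (s * Real.log s) := by
    have hm : 3 ≤ ⌈s⌉₊ := by
      have h9 : (3 : ℝ) ≤ s := by linarith
      have := h9.trans (Nat.le_ceil s)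
      exact_mod_cast this
    have h10 := hb _ hm
    have h11 : SG.NZ s ≤ SG.NZ (⌈s⌉₊ : ℝ) := SG.NZ_mono (Nat.le_ceil s)
    have h12 : (⌈s⌉₊ : ℝ) ≤ 2 * s := by
      have := Nat.ceil_lt_add_one (show 0 ≤ s by linarith)
      linarith
    have h13 : Real.log (⌈s⌉₊ : ℝ) ≤ 2 * Real.log s := by
      have h14 : (0 : ℝ) < (⌈s⌉₊ : ℝ) := by
        have : (3 : ℝ) ≤ (⌈s⌉₊ : ℝ) := by exact_mod_cast hm
        linarith
      calc Real.log (⌈s⌉₊ : ℝ) ≤ Real.log (s ^ 2) := by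
            refine Real.log_le_log h14 (h12.trans ?_)
            nlinarith
        _ = 2 * Real.log s := by rw [Real.log_pow]; norm_num
    have h15 : (0 : ℝ) ≤ Real.log (⌈s⌉₊ : ℝ) := Real.log_natCast_nonneg _
    have h16 : C2 * (⌈s⌉₊ : ℝ) * Real.log (⌈s⌉₊ : ℝ) ≤ C2 * (2 * s) * (2 * Real.log s) := by
      apply mul_le_mul _ h13 h15 (by positivity)
      exact mul_le_mul_of_nonneg_left h12 hC2.le
    have h17 : (1 : ℝ) ≤ s * Real.log s := by nlinarith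
    have h18 : (0 : ℝ) ≤ (SG.NZ 3 : ℝ) := Nat.cast_nonneg _
    calc (SG.NZ s : ℝ) ≤ SG.NZ (⌈s⌉₊ : ℝ) := by exact_mod_cast h11
      _ ≤ (SG.NZ 3 : ℝ) + C2 * (⌈s⌉₊ : ℝ) * Real.log (⌈s⌉₊ : ℝ) := h10
      _ ≤ (SG.NZ 3 : ℝ) * (s * Real.log s) + C2 * (2 * s) * (2 * Real.log s) := by
          nlinarith
      _ = A * (s * Real.log s) := by rw [hA]; ring
  have hadd := NZ_add s (2 * s) (by linarith) (by linarith)
  have hadd' : (SG.NZ (2 * s) : ℝ) = SG.NZ s + H370.NN riemannZeta s (2 * s) := by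
    rw [hadd]; push_cast; ring
  have hnn0 : (0 : ℝ) ≤ SG.NZ s := Nat.cast_nonneg _
  constructor
  · have h19 : 1 / (4 * Real.pi) / A * (SG.NZ s : ℝ) ≤ s * Real.log s / (4 * Real.pi) := by
      calc 1 / (4 * Real.pi) / A * (SG.NZ s : ℝ) ≤ 1 / (4 * Real.pi) / A * (A * (s * Real.log s)) :=
            mul_le_mul_of_nonneg_left h8 (by positivity)
        _ = s * Real.log s / (4 * Real.pi) := by field_simp
    rw [hadd']
    linarith
  · rw [hadd']
    linarith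

theorem growth_pow {c s0 : ℝ} (hc : 0 < c) (hs0 : 10 ≤ s0)
    (h : ∀ s : ℝ, s0 ≤ s → (1 + c) * (SG.NZ s : ℝ) ≤ SG.NZ (2 * s) ∧ s ≤ SG.NZ (2 * s)) (B : ℕ) :
    ∀ t : ℝ, s0 * 2 ^ B ≤ t → (1 + c) ^ B * (SG.NZ (t / 2 ^ B) : ℝ) ≤ SG.NZ t := by
  induction B with
  | zero => intro t _; simp
  | succ B ih =>
    intro t ht
    have h2 : (0 : ℝ) < 2 ^ B := by positivity
    have h1 : s0 ≤ t / 2 ^ (B + 1) := by
      rw [le_div_iff₀ (by positivity)]; exact ht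
    have h3 := (h _ h1).1
    have h4 : 2 * (t / 2 ^ (B + 1)) = t / 2 ^ B := by rw [pow_succ]; field_simp
    rw [h4] at h3
    have h5 := ih t (by
      refine le_trans ?_ ht
      rw [pow_succ]
      nlinarith)
    calc (1 + c) ^ (B + 1) * (SG.NZ (t / 2 ^ (B + 1)) : ℝ) =
        (1 + c) ^ B * ((1 + c) * (SG.NZ (t / 2 ^ (B + 1)) : ℝ)) := by ring
      _ ≤ (1 + c) ^ B * (SG.NZ (t / 2 ^ B) : ℝ) := mul_le_mul_of_nonneg_left h3 (by positivity)
      _ ≤ _ := h5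

/-- the number of ordinates up to the `N`-th one -/
theorem NZ_ord_le {c s0 : ℝ} (hs0 : 10 ≤ s0)
    (h : ∀ s : ℝ, s0 ≤ s → (1 + c) * (SG.NZ s : ℝ) ≤ SG.NZ (2 * s) ∧ s ≤ SG.NZ (2 * s))
    {η : ℝ} (hη : 0 < η) : ∀ᶠ N : ℕ in atTop, (SG.NZ (SG.ord N) : ℝ) ≤ (1 + η) * N := by
  obtain ⟨C, hC, hz⟩ := H370.zcount H370.good_zeta
  have hlim : ∀ᶠ t : ℝ in atTop, Real.log t ≤ η / (4 * C) * t := by
    have := Real.isLittleO_log_id_atTop.def (show 0 < η / (4 * C) by positivity)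
    filter_upwards [this, eventually_ge_atTop (1 : ℝ)] with t ht ht1
    rw [Real.norm_of_nonneg (Real.log_nonneg ht1)] at ht
    simp only [id_eq, Real.norm_of_nonneg (show (0 : ℝ) ≤ t by linarith)] at ht
    exact ht
  filter_upwards [SG.ord_tendsto.eventually hlim, SG.ord_tendsto.eventually (eventually_ge_atTop (2 * s0 + 1)),
    eventually_ge_atTop 1] with N hN1 hN2 hN3
  set t := SG.ord N with ht
  have h1 : ¬ N ≤ SG.NZ (t - 1) := by
    rw [← SG.ord_le_iff hN3, not_le]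
    linarith
  push Not at h1
  have h2 := SG.NZ_le_add (t - 1) t (by linarith)
  have h3 : H370.NN riemannZeta (t - 1) t ≤ H370.NN riemannZeta (t - 1) (t + 1) :=
    H370.NN_mono H370.good_zeta (by linarith) le_rfl (by linarith)
  have h4 := hz t (by linarith)
  have h5 : (SG.NZ t : ℝ) ≤ N + C * Real.log t := by
    have : (SG.NZ t : ℝ) ≤ SG.NZ (t - 1) + H370.NN riemannZeta (t - 1) (t + 1) := by
      exact_mod_cast h2.trans (Nat.add_le_add_left h3 _)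
    have h6 : (SG.NZ (t - 1) : ℝ) ≤ N := by exact_mod_cast h1.le
    linarith
  have h7 := (h ((t - 1) / 2) (by linarith)).2
  have h8 : 2 * ((t - 1) / 2) = t - 1 := by ring
  rw [h8] at h7
  have h9 : (SG.NZ (t - 1) : ℝ) ≤ N := by exact_mod_cast h1.le
  have h10 : C * Real.log t ≤ η * N := by
    calc C * Real.log t ≤ C * (η / (4 * C) * t) := mul_le_mul_of_nonneg_left hN1 hC.le
      _ = η * (t / 4) := by field_simp
      _ ≤ η * N := by
          refine mul_le_mul_of_nonneg_left ?_ hη.le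
          linarith
  linarith

theorem block {a : ℕ → ℂ} {z : ℂ} {m n : ℕ} (hmn : m ≤ n) :
    ‖∑ i ∈ Finset.Ioc m n, a i - ((n : ℂ) - m) * z‖ ≤
      (n : ℝ) * ‖(∑ i ∈ Finset.Ioc m n, a i) / ((n : ℂ) - (m : ℂ)) - z‖ := by
  rcases hmn.lt_or_eq with h | h
  · have hne : ((n : ℂ) - (m : ℂ)) ≠ 0 := by
      rw [sub_ne_zero]
      exact_mod_cast h.ne'
    have e : ∑ i ∈ Finset.Ioc m n, a i - ((n : ℂ) - m) * z =
        ((n : ℂ) - m) * ((∑ i ∈ Finset.Ioc m n, a i) / ((n : ℂ) - (m : ℂ)) - z) := by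
      field_simp
    rw [e, norm_mul]
    refine mul_le_mul_of_nonneg_right ?_ (norm_nonneg _)
    have e2 : ((n : ℂ) - (m : ℂ)) = ((n - m : ℕ) : ℂ) := by rw [Nat.cast_sub hmn]
    rw [e2, Complex.norm_natCast]
    exact_mod_cast Nat.sub_le _ _
  · subst h
    simp only [Finset.Ioc_self, Finset.sum_empty, sub_self, zero_mul, norm_zero]
    positivity

theorem norm_sum_le1 (a : ℕ → ℂ) (ha : ∀ n, ‖a n‖ ≤ 1) (m n : ℕ) (h : m ≤ n) :
    ‖∑ i ∈ Finset.Ioc m n, a i‖ ≤ (n : ℝ) - m := by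
  calc ‖∑ i ∈ Finset.Ioc m n, a i‖ ≤ ∑ i ∈ Finset.Ioc m n, ‖a i‖ := norm_sum_le _ _
    _ ≤ ∑ i ∈ Finset.Ioc m n, (1 : ℝ) := Finset.sum_le_sum fun i _ => ha i
    _ = (n : ℝ) - m := by
        rw [Finset.sum_const, Nat.card_Ioc, nsmul_eq_mul, mul_one, Nat.cast_sub h]

theorem tele (a : ℕ → ℂ) (z : ℂ) (M : ℕ → ℕ) (hM : ∀ b, M (b + 1) ≤ M b) (B : ℕ) :
    M B ≤ M 0 ∧ ‖∑ i ∈ Finset.Ioc (M B) (M 0), a i - ((M 0 : ℂ) - M B) * z‖ ≤
      (M 0 : ℝ) * ∑ b ∈ Finset.range B,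
        ‖(∑ i ∈ Finset.Ioc (M (b + 1)) (M b), a i) / ((M b : ℂ) - (M (b + 1) : ℂ)) - z‖ := by
  induction B with
  | zero => simp
  | succ B ih =>
    obtain ⟨h1, h2⟩ := ih
    have h3 := hM B
    refine ⟨h3.trans h1, ?_⟩
    have h4 := Finset.sum_Ioc_consecutive (fun i => a i) h3 h1
    rw [← h4, Finset.sum_range_succ]
    have e : ∑ i ∈ Finset.Ioc (M (B + 1)) (M B), a i + ∑ i ∈ Finset.Ioc (M B) (M 0), a i -
        ((M 0 : ℂ) - M (B + 1)) * z =
        (∑ i ∈ Finset.Ioc (M (B + 1)) (M B), a i - ((M B : ℂ) - M (B + 1)) * z) +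
        (∑ i ∈ Finset.Ioc (M B) (M 0), a i - ((M 0 : ℂ) - M B) * z) := by ring
    rw [e]
    refine (norm_add_le _ _).trans ?_
    have h5 := block (a := a) (z := z) h3
    have h6 : (M B : ℝ) * ‖(∑ i ∈ Finset.Ioc (M (B + 1)) (M B), a i) /
        ((M B : ℂ) - (M (B + 1) : ℂ)) - z‖ ≤ (M 0 : ℝ) *
        ‖(∑ i ∈ Finset.Ioc (M (B + 1)) (M B), a i) / ((M B : ℂ) - (M (B + 1) : ℂ)) - z‖ :=
      mul_le_mul_of_nonneg_right (by exact_mod_cast h1) (norm_nonneg _)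
    rw [mul_add]
    linarith

end DYAL

open DYAL

theorem t_DYA : S_DYA := by
  intro a z ha hz hlim
  obtain ⟨c, s0, hc, hs0, hg⟩ := growth
  rw [Metric.tendsto_atTop']
  intro ε hε
  -- the number of blocks
  obtain ⟨B, hB⟩ : ∃ B : ℕ, 4 * (1 / (1 + c)) ^ B < ε / 4 := by
    have h1 : Tendsto (fun B : ℕ => 4 * (1 / (1 + c)) ^ B) atTop (𝓝 (4 * 0)) :=
      (tendsto_pow_atTop_nhds_zero_of_lt_one (by positivity)
        (by rw [div_lt_one (by positivity)]; linarith)).const_mul 4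
    rw [mul_zero] at h1
    exact (h1.eventually (gt_mem_nhds (show 0 < ε / 4 by positivity))).exists
  set η : ℝ := min 1 (ε / 8) with hη
  have hη0 : 0 < η := lt_min one_pos (by positivity)
  have hη1 : η ≤ 1 := min_le_left _ _
  have hη2 : η ≤ ε / 8 := min_le_right _ _
  have hsum : Tendsto (fun N : ℕ => ∑ b ∈ Finset.range B, ‖(∑ n ∈ Finset.Ioc
      (SG.NZ (SG.ord N / 2 ^ (b + 1))) (SG.NZ (2 * (SG.ord N / 2 ^ (b + 1)))), a N n) /
      ((SG.NZ (2 * (SG.ord N / 2 ^ (b + 1))) : ℂ) - (SG.NZ (SG.ord N / 2 ^ (b + 1)) : ℂ)) - z‖)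
      atTop (𝓝 (∑ b ∈ Finset.range B, 0)) := by
    refine tendsto_finsetSum _ fun b _ => ?_
    have h1 := (hlim b).sub_const z
    rw [sub_self] at h1
    have h2 := h1.norm
    rwa [norm_zero] at h2
  rw [Finset.sum_const_zero] at hsum
  have hev := (hsum.eventually (gt_mem_nhds (show 0 < ε / 8 by positivity))).and
    ((NZ_ord_le hs0 hg hη0).and ((SG.ord_tendsto.eventually
      (eventually_ge_atTop (s0 * 2 ^ B))).and (eventually_ge_atTop 1)))
  obtain ⟨N0, hN0⟩ := eventually_atTop.mp hev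
  refine ⟨N0, fun N hN => ?_⟩
  obtain ⟨h1, h2, h3, h4⟩ := hN0 N (le_of_lt hN)
  have hNpos : (0 : ℝ) < N := by exact_mod_cast h4
  set M : ℕ → ℕ := fun b => SG.NZ (SG.ord N / 2 ^ b) with hM
  have hord : 0 < SG.ord N := SG.ord_pos h4
  have hMm : ∀ b, M (b + 1) ≤ M b := by
    intro b
    refine SG.NZ_mono ?_
    rw [pow_succ]
    refine div_le_div_of_nonneg_left hord.le (by positivity) ?_
    have : (0 : ℝ) < 2 ^ b := by positivity
    linarith
  have hM0 : M 0 = SG.NZ (SG.ord N) := by simp [hM]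
  obtain ⟨h5, h6⟩ := tele (a N) z M hMm B
  have h7 : ∑ b ∈ Finset.range B,
        ‖(∑ i ∈ Finset.Ioc (M (b + 1)) (M b), a N i) / ((M b : ℂ) - (M (b + 1) : ℂ)) - z‖ < ε / 8 := by
    refine lt_of_eq_of_lt ?_ h1
    refine Finset.sum_congr rfl fun b _ => ?_
    have e : 2 * (SG.ord N / 2 ^ (b + 1)) = SG.ord N / 2 ^ b := by rw [pow_succ]; field_simp
    rw [e]
  have hNM : N ≤ M 0 := by rw [hM0]; exact SG.le_NZ_ord h4
  have hM0' : (M 0 : ℝ) ≤ (1 + η) * N := by rw [hM0]; exact h2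
  have hMB : (M B : ℝ) ≤ (1 / (1 + c)) ^ B * (M 0 : ℝ) := by
    have := growth_pow hc hs0 hg B (SG.ord N) h3
    rw [← hM0] at this
    rw [one_div, inv_pow, ← div_eq_inv_mul, le_div_iff₀ (by positivity), mul_comm]
    exact this
  -- the decomposition
  have hIcc : Finset.Icc 1 N = Finset.Ioc 0 N := rfl
  have e1 := Finset.sum_Ioc_consecutive (fun i => a N i) (Nat.zero_le N) hNM
  have e2 := Finset.sum_Ioc_consecutive (fun i => a N i) (Nat.zero_le (M B)) h5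
  have e3 : (∑ n ∈ Finset.Icc 1 N, a N n) - N * z =
      (∑ i ∈ Finset.Ioc 0 (M B), a N i) - (∑ i ∈ Finset.Ioc N (M 0), a N i) +
      (∑ i ∈ Finset.Ioc (M B) (M 0), a N i - ((M 0 : ℂ) - M B) * z) +
      (((M 0 : ℂ) - N) - M B) * z := by
    rw [hIcc]
    have : ∑ i ∈ Finset.Ioc 0 N, a N i = ∑ i ∈ Finset.Ioc 0 (M B), a N i +
        ∑ i ∈ Finset.Ioc (M B) (M 0), a N i - ∑ i ∈ Finset.Ioc N (M 0), a N i := by
      rw [e2, ← e1]; ring
    rw [this]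
    ring
  have n1 := DYAL.norm_sum_le1 (a N) (ha N) 0 (M B) (Nat.zero_le _)
  have n2 := DYAL.norm_sum_le1 (a N) (ha N) N (M 0) hNM
  have n3 : ‖(((M 0 : ℂ) - N) - M B) * z‖ ≤ ((M 0 : ℝ) - N) + M B := by
    rw [norm_mul]
    have h8 : ‖(((M 0 : ℂ) - N) - M B)‖ ≤ ((M 0 : ℝ) - N) + M B := by
      refine (norm_sub_le _ _).trans ?_
      have e4 : ((M 0 : ℂ) - N) = ((M 0 - N : ℕ) : ℂ) := by rw [Nat.cast_sub hNM]
      rw [e4, Complex.norm_natCast, Complex.norm_natCast, Nat.cast_sub hNM]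
    calc _ ≤ (((M 0 : ℝ) - N) + M B) * 1 := mul_le_mul h8 hz (norm_nonneg _) (by
            have : (N : ℝ) ≤ M 0 := by exact_mod_cast hNM
            have : (0 : ℝ) ≤ M B := Nat.cast_nonneg _
            linarith)
      _ = _ := mul_one _
  have n4 : ‖(∑ n ∈ Finset.Icc 1 N, a N n) - N * z‖ ≤ 2 * (M B : ℝ) + 2 * ((M 0 : ℝ) - N) +
      (M 0 : ℝ) * (ε / 8) := by
    rw [e3]
    refine (norm_add_le _ _).trans ?_
    have h8 : (M 0 : ℝ) * ∑ b ∈ Finset.range B,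
        ‖(∑ i ∈ Finset.Ioc (M (b + 1)) (M b), a N i) / ((M b : ℂ) - (M (b + 1) : ℂ)) - z‖ ≤
        (M 0 : ℝ) * (ε / 8) := mul_le_mul_of_nonneg_left h7.le (Nat.cast_nonneg _)
    have h9 := norm_add_le ((∑ i ∈ Finset.Ioc 0 (M B), a N i) - (∑ i ∈ Finset.Ioc N (M 0), a N i))
      (∑ i ∈ Finset.Ioc (M B) (M 0), a N i - ((M 0 : ℂ) - M B) * z)
    have h10 := norm_sub_le (∑ i ∈ Finset.Ioc 0 (M B), a N i) (∑ i ∈ Finset.Ioc N (M 0), a N i)
    push_cast at n1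
    linarith
  rw [dist_eq_norm]
  have hNc : (N : ℂ) ≠ 0 := by exact_mod_cast (by omega : N ≠ 0)
  have e5 : (∑ n ∈ Finset.Icc 1 N, a N n) / (N : ℂ) - z =
      ((∑ n ∈ Finset.Icc 1 N, a N n) - N * z) / N := by field_simp
  rw [e5, norm_div, Complex.norm_natCast, div_lt_iff₀ hNpos]
  refine n4.trans_lt ?_
  have hr0 : 0 ≤ (1 / (1 + c)) ^ B := by positivity
  have h11 : (M 0 : ℝ) ≤ 2 * N := by nlinarith
  have h12 : (M B : ℝ) ≤ (1 / (1 + c)) ^ B * (2 * N) := hMB.trans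
    (mul_le_mul_of_nonneg_left h11 hr0)
  have h13 : (1 / (1 + c)) ^ B < ε / 16 := by linarith
  have h14 : (1 / (1 + c)) ^ B * (2 * N) ≤ ε / 16 * (2 * N) :=
    mul_le_mul_of_nonneg_right h13.le (by positivity)
  have h15 : η * N ≤ ε / 8 * N := mul_le_mul_of_nonneg_right hη2 hNpos.le
  have h16 : (M 0 : ℝ) * (ε / 8) ≤ 2 * N * (ε / 8) :=
    mul_le_mul_of_nonneg_right h11 (by positivity)
  have h17 : 0 < ε * N := by positivity
  nlinarith

end Pool.Agent.H203.ME
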