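import Pool.Agent.H203.ME.Defs4

set_option autoImplicit false

open Complex Filter Topology Set MeasureTheory ProbabilityTheory
open scoped BoundedContinuousFunction RealInnerProductSpace

namespace Pool.Agent.H203.ME

namespace LEVL

/-- Levy's continuity theorem for sequences of measures which are eventually probability measures -/
lemma weakE {E : Type} [NormedAddCommGroup E] [InnerProductSpace ℝ E] [FiniteDimensional ℝ E] [MeasurableSpace E] [BorelSpace E]
    {μ : ℕ → Measure E} {ν : Measure E} [IsProbabilityMeasure ν] (hp : ∀ᶠ n in atTop, IsProbabilityMeasure (μ n))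
    (hc : ∀ u, Tendsto (fun n => charFun (μ n) u) atTop (𝓝 (charFun ν u))) (φ : E →ᵇ ℝ) :
    Tendsto (fun n => ∫ x, φ x ∂(μ n)) atTop (𝓝 (∫ x, φ x ∂ν)) := by
  classical
  obtain ⟨P, hP⟩ : ∃ P : ℕ → ProbabilityMeasure E,
      ∀ n, IsProbabilityMeasure (μ n) → (P n : Measure E) = μ n := by
    refine ⟨fun n => if h : IsProbabilityMeasure (μ n) then ⟨μ n, h⟩ else ⟨ν, inferInstance⟩, fun n hn => ?_⟩
    simp only [hn, dif_pos]
    rfl
  have h1 : Tendsto P atTop (𝓝 ⟨ν, inferInstance⟩) := by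
    rw [ProbabilityMeasure.tendsto_iff_tendsto_charFun]
    intro u
    refine (hc u).congr' ?_
    filter_upwards [hp] with n hn
    rw [hP n hn]
  rw [ProbabilityMeasure.tendsto_iff_forall_integral_tendsto] at h1
  refine (h1 φ).congr' ?_
  filter_upwards [hp] with n hn
  rw [hP n hn]

/-- Levy's continuity theorem for weighted families of points -/
lemma levy {E ι : Type} [NormedAddCommGroup E] [InnerProductSpace ℝ E] [FiniteDimensional ℝ E] [MeasurableSpace E]
    [BorelSpace E] (S : ℕ → Finset ι) (w : ℕ → ι → ℝ) (Y : ℕ → ι → E) (ν : Measure E) [IsProbabilityMeasure ν]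
    (hw : ∀ n i, 0 ≤ w n i) (h1 : ∀ᶠ n in atTop, ∑ i ∈ S n, w n i = 1)
    (hc : ∀ u : E, Tendsto (fun n => ∑ i ∈ S n, (w n i : ℂ) * cexp (I * ((⟪Y n i, u⟫ : ℝ) : ℂ))) atTop (𝓝 (charFun ν u)))
    (φ : E →ᵇ ℝ) : Tendsto (fun n => ∑ i ∈ S n, w n i * φ (Y n i)) atTop (𝓝 (∫ x, φ x ∂ν)) := by
  set μ : ℕ → Measure E := fun n => ∑ i ∈ S n, ENNReal.ofReal (w n i) • Measure.dirac (Y n i) with hμ
  have hint : ∀ n, ∀ {G : Type} [NormedAddCommGroup G] [NormedSpace ℝ G] [CompleteSpace G] (g : E → G), Continuous g →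
      ∫ x, g x ∂(μ n) = ∑ i ∈ S n, w n i • g (Y n i) := by
    intro n G _ _ _ g hg
    rw [hμ]
    simp only
    rw [integral_finsetSum_measure]
    · refine Finset.sum_congr rfl fun z _ => ?_
      rw [integral_smul_measure, integral_dirac, ENNReal.toReal_ofReal (hw n z)]
    · intro z _
      refine Integrable.smul_measure ?_ ENNReal.ofReal_ne_top
      exact integrable_dirac (by finiteness)
  have hp : ∀ᶠ n in atTop, IsProbabilityMeasure (μ n) := by
    filter_upwards [h1] with n hn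
    constructor
    rw [hμ]
    simp only [Measure.coe_finsetSum, Finset.sum_apply, Measure.smul_apply, smul_eq_mul, measure_univ, mul_one]
    rw [← ENNReal.ofReal_sum_of_nonneg (fun z _ => hw n z), hn, ENNReal.ofReal_one]
  have hchar : ∀ u, Tendsto (fun n => charFun (μ n) u) atTop (𝓝 (charFun ν u)) := by
    intro u
    refine (hc u).congr fun n => ?_
    rw [charFun_apply, hint n (fun x => cexp (⟪x, u⟫ * I)) (by fun_prop)]
    refine Finset.sum_congr rfl fun i _ => ?_
    rw [Complex.real_smul, mul_comm I]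
  refine (weakE hp hchar φ).congr fun n => ?_
  rw [hint n φ φ.continuous]
  exact Finset.sum_congr rfl fun z _ => smul_eq_mul _ _

end LEVL

open LEVL

theorem t_LEV : S_LEV := by
  intro S w Y s hw h1 hc φ
  refine levy S w Y (gaussianReal 0 s) hw h1 (fun u => ?_) φ
  rw [charFun_gaussianReal]
  have h2 := hc u
  have e : cexp ((u : ℂ) * ((0 : ℝ) : ℂ) * I - ((s : ℝ) : ℂ) * (u : ℂ) ^ 2 / 2) = cexp (-((u ^ 2 * s : ℝ) : ℂ) / 2) := by
    congr 1
    push_cast
    ring
  have e' : cexp ((u : ℂ) * ((0 : ℝ) : ℂ) * I - (s : ℂ) * (u : ℂ) ^ 2 / 2) = cexp (-((u ^ 2 * s : ℝ) : ℂ) / 2) := e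
  rw [e']
  refine h2.congr fun n => Finset.sum_congr rfl fun i _ => ?_
  congr 4

theorem t_LEK : S_LEK := by
  intro k Y M hM hc
  have hq : ∀ c : Fin k → ℝ, 0 ≤ ∑ i, ∑ j, c i * c j * M i j := by
    intro c
    have h1 := (hc c).norm
    have h2 : ‖cexp (-((∑ i, ∑ j, c i * c j * M i j : ℝ) : ℂ) / 2)‖ ≤ 1 := by
      refine le_of_tendsto h1 (Eventually.of_forall fun N => ?_)
      rw [norm_div]
      have h3 : ‖∑ n ∈ Finset.Icc 1 N, cexp (I * ((∑ j, c j * Y N n j : ℝ) : ℂ))‖ ≤ (N : ℝ) := by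
        refine (norm_sum_le _ _).trans ?_
        have : ∀ n ∈ Finset.Icc 1 N, ‖cexp (I * ((∑ j, c j * Y N n j : ℝ) : ℂ))‖ = 1 := fun n _ => by
          rw [mul_comm]; exact Complex.norm_exp_ofReal_mul_I _
        rw [Finset.sum_congr rfl this]
        simp
      have h4 : ‖((N : ℕ) : ℂ)‖ = (N : ℝ) := by simp
      rw [h4]
      exact div_le_one_of_le₀ h3 (Nat.cast_nonneg _)
    rw [Complex.norm_exp, Real.exp_le_one_iff] at h2
    have h5 : (-((∑ i, ∑ j, c i * c j * M i j : ℝ) : ℂ) / 2).re = -(∑ i, ∑ j, c i * c j * M i j) / 2 := by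
      rw [show (-((∑ i, ∑ j, c i * c j * M i j : ℝ) : ℂ) / 2) = ((-(∑ i, ∑ j, c i * c j * M i j) / 2 : ℝ) : ℂ) by push_cast; ring]
      exact Complex.ofReal_re _
    rw [h5] at h2
    linarith
  have hdot : ∀ c : Fin k → ℝ, (c ⬝ᵥ M.mulVec c) = ∑ i, ∑ j, c i * c j * M i j := by
    intro c
    simp only [dotProduct, Matrix.mulVec, Finset.mul_sum]
    exact Finset.sum_congr rfl fun i _ => Finset.sum_congr rfl fun j _ => by ring
  have hpsd : M.PosSemidef := by
    refine Matrix.PosSemidef.of_dotProduct_mulVec_nonneg ?_ fun c => ?_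
    · rw [Matrix.IsHermitian, Matrix.conjTranspose_eq_transpose_of_trivial]
      exact hM
    · rw [show star c = c by ext i; simp]
      rw [hdot]
      exact hq c
  refine ⟨hpsd, fun φ => ?_⟩
  have h := levy (fun N => Finset.Icc 1 N) (fun N _ => 1 / (N : ℝ)) Y (multivariateGaussian 0 M)
    (fun n i => by positivity) ?_ (fun u => ?_) φ
  · refine h.congr fun N => ?_
    rw [Finset.sum_div]
    exact Finset.sum_congr rfl fun n _ => by ring
  · filter_upwards [eventually_gt_atTop 0] with N hN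
    rw [Finset.sum_const, Nat.card_Icc, nsmul_eq_mul]
    have : (N : ℝ) ≠ 0 := by positivity
    simp only [add_tsub_cancel_right]
    field_simp
  · rw [charFun_multivariateGaussian hpsd]
    have e : (⟪u, (0 : EuclideanSpace ℝ (Fin k))⟫ : ℝ) = 0 := inner_zero_right _
    have e2 : cexp (((⟪u, (0 : EuclideanSpace ℝ (Fin k))⟫ : ℝ) : ℂ) * I - ((u.ofLp ⬝ᵥ M.mulVec u.ofLp : ℝ) : ℂ) / 2) =
        cexp (-((∑ i, ∑ j, u i * u j * M i j : ℝ) : ℂ) / 2) := by
      rw [e, hdot]
      congr 1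
      push_cast
      ring
    refine Tendsto.congr (fun N => ?_) ((e2 ▸ hc u.ofLp :))
    rw [Finset.sum_div]
    refine Finset.sum_congr rfl fun n _ => ?_
    have e3 : (⟪Y N n, u⟫ : ℝ) = ∑ j, u.ofLp j * (Y N n) j := by
      simp only [PiLp.inner_apply]
      exact Finset.sum_congr rfl fun j _ => by simp
    rw [e3]
    push_cast
    ring

end Pool.Agent.H203.ME
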