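import Pool.Agent.H203.ME.BLK
import Pool.Agent.H203.ME.DYA
import Pool.Agent.H203.ME.LEV

set_option autoImplicit false

open Complex Filter Topology Set MeasureTheory ProbabilityTheory
open scoped BoundedContinuousFunction

namespace Pool.Agent.H203.ME

namespace F5L

open BLKL

lemma log_le (b : ℕ) : ∀ᶠ N : ℕ in atTop, 0 < Real.log (SG.ord N / 2 ^ (b + 1)) ∧
    Real.log N ≤ 2 * Real.log (SG.ord N / 2 ^ (b + 1)) := by
  obtain ⟨T1, h1⟩ := SG.NZ_pow_bound (1 / 2) (by norm_num)
  have ho : Tendsto (fun N : ℕ => SG.ord N) atTop atTop := SG.ord_tendsto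
  have hb : Tendsto (fun N : ℕ => Real.log (SG.ord N / 2 ^ (b + 1))) atTop atTop :=
    Real.tendsto_log_atTop.comp (ho.atTop_div_const (by positivity))
  filter_upwards [ho.eventually_ge_atTop (2 * T1), ho.eventually_ge_atTop 2, eventually_ge_atTop 1,
    hb.eventually_gt_atTop (3 * b * Real.log 2), hb.eventually_gt_atTop 0] with N a1 a2 a3 a4 a5
  refine ⟨a5, ?_⟩
  have h2 := h1 (SG.ord N / 2) (by linarith)
  have e1 : 2 * (SG.ord N / 2) = SG.ord N := by ring
  rw [e1] at h2
  have h3 : (N : ℝ) ≤ SG.NZ (SG.ord N) := by exact_mod_cast SG.le_NZ_ord a3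
  have h4 : (0 : ℝ) < N := by exact_mod_cast a3
  have h5 : Real.log N ≤ (1 + 1 / 2) * Real.log (SG.ord N / 2) := by
    rw [← Real.log_rpow (by linarith)]
    exact Real.log_le_log h4 (h3.trans h2)
  have h6 : Real.log (SG.ord N / 2 ^ (b + 1)) = Real.log (SG.ord N / 2) - b * Real.log 2 := by
    rw [pow_succ, mul_comm, ← div_div, Real.log_div (by linarith) (by positivity), Real.log_pow]
  rw [h6] at a4 ⊢
  linarith

lemma ratio_lim {f : ℕ → ℝ} (hf : ∀ᶠ N in atTop, 0 ≤ f N) (h : Tendsto (fun N : ℕ => f N / Real.log N) atTop (𝓝 0))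
    (b : ℕ) : Tendsto (fun N : ℕ => f N / Real.log (SG.ord N / 2 ^ (b + 1))) atTop (𝓝 0) := by
  have h2 := h.const_mul 2
  rw [mul_zero] at h2
  refine squeeze_zero' ?_ ?_ h2
  · filter_upwards [log_le b, hf] with N a1 a2
    exact div_nonneg a2 a1.1.le
  · filter_upwards [log_le b, hf, eventually_ge_atTop 2] with N a1 a2 a3
    have h3 : 0 < Real.log N := Real.log_pos (by exact_mod_cast a3)
    rw [← mul_div_assoc, div_le_div_iff₀ a1.1 h3]
    have := mul_le_mul_of_nonneg_left a1.2 a2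
    linarith

/-- the characteristic function of the sums of gaps, all indices up to `N` -/
theorem chf (hZ : S_ZER) (hA : S_ADP) (hS : S_SGF) (hJ : S_JB) (hL : S_LEV) (hW : S_WIN) (hC : S_CN)
    (hI : S_IDX) (hD : S_IND) (hR : S_NRM) (hY : S_DYA) {k : ℕ} {V : ℕ → ℝ} {u : Fin k → ℕ → ℕ} (c : Fin k → ℝ)
    {a0 : Fin k → ℝ} {a : Fin k → Fin k → ℝ} (hV : Tendsto V atTop atTop)
    (hVL : Tendsto (fun N : ℕ => V N / Real.log N) atTop (𝓝 0))
    (hu : ∀ j, Tendsto (fun N : ℕ => (u j N : ℝ) / Real.log N) atTop (𝓝 0))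
    (ha0 : ∀ j, Tendsto (fun n => Real.log (1 + u j n) / V n) atTop (𝓝 (a0 j)))
    (ha : ∀ i j, Tendsto (fun n => Real.log (1 + |(u i n : ℝ) - u j n|) / V n) atTop (𝓝 (a i j))) :
    Tendsto (fun N : ℕ => (∑ n ∈ Finset.Icc 1 N, cexp (I * ((∑ j, c j * Sn (V N) (u j N) n : ℝ) : ℂ))) / (N : ℂ)) atTop
      (𝓝 (cexp (-((1 / (2 * Real.pi ^ 2) * ∑ i, ∑ j, c i * c j * (a0 i + a0 j - a i j) : ℝ) : ℂ) / 2))) := by
  have ho : Tendsto (fun N : ℕ => SG.ord N) atTop atTop := SG.ord_tendsto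
  have hblk := fun b : ℕ => blk hZ hA hS hJ hL hW hC hI hD hR (T := fun N => SG.ord N / 2 ^ (b + 1)) c
    (ho.atTop_div_const (by positivity)) hV
    (ratio_lim (hV.eventually_ge_atTop 0) hVL b)
    (fun j => ratio_lim (Eventually.of_forall fun N => Nat.cast_nonneg _) (hu j) b) ha0 ha
  have hnorm : ∀ N n : ℕ, ‖cexp (I * ((∑ j, c j * Sn (V N) (u j N) n : ℝ) : ℂ))‖ ≤ 1 := by
    intro N n
    rw [mul_comm, Complex.norm_exp_ofReal_mul_I]
  have hz : ‖cexp (-((1 / (2 * Real.pi ^ 2) * ∑ i, ∑ j, c i * c j * (a0 i + a0 j - a i j) : ℝ) : ℂ) / 2)‖ ≤ 1 := by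
    refine le_of_tendsto (hblk 0).norm (Eventually.of_forall fun N => ?_)
    rw [norm_div]
    have h1 : ‖((SG.NZ (2 * (SG.ord N / 2 ^ (0 + 1))) : ℂ) - (SG.NZ (SG.ord N / 2 ^ (0 + 1)) : ℂ))‖ =
        |(SG.NZ (2 * (SG.ord N / 2 ^ (0 + 1))) : ℝ) - (SG.NZ (SG.ord N / 2 ^ (0 + 1)) : ℝ)| := by
      rw [← Real.norm_eq_abs, ← Complex.norm_real]
      push_cast
      rfl
    rw [h1]
    apply div_le_one_of_le₀ _ (abs_nonneg _)
    refine (norm_sum_le _ _).trans ((Finset.sum_le_sum fun n _ => hnorm N n).trans ?_)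
    rw [Finset.sum_const, Nat.card_Ioc, nsmul_eq_mul, mul_one]
    rcases le_total (SG.NZ (SG.ord N / 2 ^ (0 + 1))) (SG.NZ (2 * (SG.ord N / 2 ^ (0 + 1)))) with h2 | h2
    · rw [Nat.cast_sub h2]
      exact le_abs_self _
    · rw [Nat.sub_eq_zero_of_le h2]
      simp
  exact hY (fun N n => cexp (I * ((∑ j, c j * Sn (V N) (u j N) n : ℝ) : ℂ))) _ hnorm hz hblk

/-- the limiting covariance matrix -/
noncomputable def cK {k : ℕ} (a0 : Fin k → ℝ) (a : Fin k → Fin k → ℝ) : Matrix (Fin k) (Fin k) ℝ :=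
  Matrix.of fun i j => 1 / (2 * Real.pi ^ 2) * (a0 i + a0 j - a i j)

/-- the joint law of the sums of gaps -/
theorem finE (hZ : S_ZER) (hA : S_ADP) (hS : S_SGF) (hJ : S_JB) (hL : S_LEV) (hW : S_WIN) (hC : S_CN)
    (hI : S_IDX) (hD : S_IND) (hR : S_NRM) (hY : S_DYA) (hK : S_LEK) {k : ℕ} {V : ℕ → ℝ} {u : Fin k → ℕ → ℕ}
    {a0 : Fin k → ℝ} {a : Fin k → Fin k → ℝ} (hV : Tendsto V atTop atTop)
    (hVL : Tendsto (fun N : ℕ => V N / Real.log N) atTop (𝓝 0))
    (hu : ∀ j, Tendsto (fun N : ℕ => (u j N : ℝ) / Real.log N) atTop (𝓝 0))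
    (ha0 : ∀ j, Tendsto (fun n => Real.log (1 + u j n) / V n) atTop (𝓝 (a0 j)))
    (ha : ∀ i j, Tendsto (fun n => Real.log (1 + |(u i n : ℝ) - u j n|) / V n) atTop (𝓝 (a i j))) :
    (cK a0 a).PosSemidef ∧ ∀ φ : EuclideanSpace ℝ (Fin k) →ᵇ ℝ,
      Tendsto (fun N : ℕ => (∑ n ∈ Finset.Icc 1 N, φ (WithLp.toLp 2 fun j => Sn (V N) (u j N) n)) / (N : ℝ)) atTop
        (𝓝 (∫ x, φ x ∂(multivariateGaussian 0 (cK a0 a)))) := by
  refine hK k (fun N n => WithLp.toLp 2 fun j => Sn (V N) (u j N) n) (cK a0 a) ?_ fun c => ?_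
  · ext i j
    unfold cK
    rw [Matrix.transpose_apply, Matrix.of_apply, Matrix.of_apply]
    have h1 : a j i = a i j := by
      refine tendsto_nhds_unique (ha j i) ((ha i j).congr fun n => ?_)
      rw [abs_sub_comm]
    rw [h1]
    ring
  · have h := chf hZ hA hS hJ hL hW hC hI hD hR hY c hV hVL hu ha0 ha
    have e1 : (1 / (2 * Real.pi ^ 2) * ∑ i, ∑ j, c i * c j * (a0 i + a0 j - a i j) : ℝ) =
        ∑ i, ∑ j, c i * c j * cK a0 a i j := by
      rw [Finset.mul_sum]
      refine Finset.sum_congr rfl fun i _ => ?_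
      rw [Finset.mul_sum]
      refine Finset.sum_congr rfl fun j _ => ?_
      unfold cK
      rw [Matrix.of_apply]
      ring
    rw [e1] at h
    exact h

/-- distribution functions -/
lemma cdf_of_weak {Y : ℕ → ℕ → ℝ} (h : ∀ φ : ℝ →ᵇ ℝ, Tendsto (fun N : ℕ => (∑ n ∈ Finset.Icc 1 N, φ (Y N n)) / (N : ℝ)) atTop
    (𝓝 (∫ x, φ x ∂(gaussianReal 0 1)))) (x : ℝ) :
    Tendsto (fun N : ℕ => (((Finset.Icc 1 N).filter (fun n => Y N n ≤ x)).card : ℝ) / (N : ℝ)) atTop
      (𝓝 ((gaussianReal 0 1).real (Iic x))) := by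
  classical
  set μ : ℕ → Measure ℝ := fun N => if N = 0 then Measure.dirac 0 else
    ∑ n ∈ Finset.Icc 1 N, ENNReal.ofReal (1 / (N : ℝ)) • Measure.dirac (Y N n) with hμ
  have hprob : ∀ N, IsProbabilityMeasure (μ N) := by
    intro N
    rw [hμ]
    simp only
    split_ifs with h0
    · infer_instance
    · constructor
      rw [Measure.finsetSum_apply]
      simp only [Measure.smul_apply, measure_univ, smul_eq_mul, mul_one, Finset.sum_const, Nat.card_Icc,
        add_tsub_cancel_right, nsmul_eq_mul]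
      have h1 : (0 : ℝ) < N := by exact_mod_cast Nat.pos_of_ne_zero h0
      rw [← ENNReal.ofReal_natCast, ← ENNReal.ofReal_mul h1.le, mul_one_div_cancel h1.ne', ENNReal.ofReal_one]
  have hint : ∀ N : ℕ, N ≠ 0 → ∀ φ : ℝ →ᵇ ℝ, ∫ y, φ y ∂(μ N) = (∑ n ∈ Finset.Icc 1 N, φ (Y N n)) / (N : ℝ) := by
    intro N h0 φ
    rw [hμ]
    simp only [if_neg h0]
    rw [integral_finsetSum_measure]
    · simp only [integral_smul_measure, integral_dirac, smul_eq_mul]
      rw [Finset.sum_div]
      refine Finset.sum_congr rfl fun n _ => ?_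
      rw [ENNReal.toReal_ofReal (by positivity)]
      ring
    · intro n _
      apply Integrable.smul_measure _ (by simp)
      exact φ.integrable _
  set P : ℕ → ProbabilityMeasure ℝ := fun N => ⟨μ N, hprob N⟩ with hP
  set G : ProbabilityMeasure ℝ := ⟨gaussianReal 0 1, inferInstance⟩ with hG
  have hconv : Tendsto P atTop (𝓝 G) := by
    rw [ProbabilityMeasure.tendsto_iff_forall_integral_tendsto]
    intro φ
    refine (h φ).congr' ?_
    filter_upwards [eventually_ne_atTop 0] with N hN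
    exact (hint N hN φ).symm
  have hfr : (G : Measure ℝ) (frontier (Iic x)) = 0 := by
    rw [frontier_Iic]
    have : NullSingletonClass (gaussianReal 0 1) := nullSingletonClass_gaussianReal one_ne_zero
    show (gaussianReal 0 1) {x} = 0
    exact measure_singleton x
  have h2 := ProbabilityMeasure.tendsto_measure_of_null_frontier_of_tendsto' hconv hfr
  have h3 := (ENNReal.tendsto_toReal (measure_ne_top (G : Measure ℝ) (Iic x))).comp h2
  refine h3.congr' ?_
  filter_upwards [eventually_ne_atTop 0] with N hN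
  have hNp : (0 : ℝ) < N := by exact_mod_cast Nat.pos_of_ne_zero hN
  show ((μ N) (Iic x)).toReal = _
  rw [hμ]
  simp only [if_neg hN]
  rw [Measure.finsetSum_apply]
  simp only [Measure.smul_apply, smul_eq_mul]
  rw [ENNReal.toReal_sum (by
    intro n _
    exact ENNReal.mul_ne_top (by simp) (measure_ne_top _ _))]
  simp only [ENNReal.toReal_mul, Measure.dirac_apply' _ measurableSet_Iic]
  rw [Finset.card_filter]
  push_cast
  rw [Finset.sum_div]
  refine Finset.sum_congr rfl fun n _ => ?_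
  rw [ENNReal.toReal_ofReal (by positivity)]
  by_cases hc : Y N n ≤ x
  · rw [if_pos hc, Set.indicator_of_mem (show Y N n ∈ Iic x from hc)]
    simp
  · rw [if_neg hc, Set.indicator_of_notMem (show Y N n ∉ Iic x from hc)]
    simp

/-- one sum of gaps -/
theorem finS (hZ : S_ZER) (hA : S_ADP) (hS : S_SGF) (hJ : S_JB) (hL : S_LEV) (hW : S_WIN) (hC : S_CN)
    (hI : S_IDX) (hD : S_IND) (hR : S_NRM) (hY : S_DYA) {r : ℕ → ℕ} (hr : Tendsto r atTop atTop)
    (hrL : Tendsto (fun N : ℕ => (r N : ℝ) / Real.log N) atTop (𝓝 0)) (x : ℝ) :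
    Tendsto (fun N : ℕ => (((Finset.Icc 1 N).filter (fun n =>
      (∑ i ∈ Finset.range (r N), dl (n + i) - r N) / (Real.sqrt (Real.log (r N)) / Real.pi) ≤ x)).card : ℝ) / (N : ℝ)) atTop
      (𝓝 ((gaussianReal 0 1).real (Iic x))) := by
  have hrR : Tendsto (fun N : ℕ => (r N : ℝ)) atTop atTop := tendsto_natCast_atTop_atTop.comp hr
  have hlr : Tendsto (fun N : ℕ => Real.log (r N)) atTop atTop := Real.tendsto_log_atTop.comp hrR
  set V : ℕ → ℝ := fun N => Real.log (r N) / Real.pi ^ 2 with hVd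
  have hV : Tendsto V atTop atTop := hlr.atTop_div_const (by positivity)
  have hVL : Tendsto (fun N : ℕ => V N / Real.log N) atTop (𝓝 0) := by
    refine squeeze_zero' ?_ ?_ hrL
    · filter_upwards [hlr.eventually_gt_atTop 0, eventually_ge_atTop 2] with N a1 a2
      have : 0 < Real.log N := Real.log_pos (by exact_mod_cast a2)
      positivity
    · filter_upwards [hlr.eventually_gt_atTop 0, eventually_ge_atTop 2, hrR.eventually_ge_atTop 1] with N a1 a2 a3
      have h1 : 0 < Real.log N := Real.log_pos (by exact_mod_cast a2)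
      gcongr
      simp only [hVd]
      rw [div_le_iff₀ (by positivity)]
      have h2 := Real.log_le_sub_one_of_pos (show (0 : ℝ) < r N by linarith)
      have h3 : 1 ≤ Real.pi ^ 2 := by nlinarith [Real.pi_gt_three]
      nlinarith
  have ha0 : Tendsto (fun N : ℕ => Real.log (1 + (r N : ℝ)) / V N) atTop (𝓝 (Real.pi ^ 2)) := by
    have h1 : Tendsto (fun N : ℕ => Real.log (1 + (r N : ℝ)) / Real.log (r N)) atTop (𝓝 1) := by
      have h2 : Tendsto (fun N : ℕ => Real.log 2 / Real.log (r N)) atTop (𝓝 0) := hlr.const_div_atTop _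
      have h3 := h2.add_const 1
      rw [zero_add] at h3
      refine tendsto_of_tendsto_of_tendsto_of_le_of_le' tendsto_const_nhds h3 ?_ ?_
      · filter_upwards [hlr.eventually_gt_atTop 0, hrR.eventually_ge_atTop 1] with N a1 a2
        rw [le_div_iff₀ a1, one_mul]
        exact Real.log_le_log (by linarith) (by linarith)
      · filter_upwards [hlr.eventually_gt_atTop 0, hrR.eventually_ge_atTop 1] with N a1 a2
        have h4 : Real.log (1 + (r N : ℝ)) ≤ Real.log 2 + Real.log (r N) := by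
          rw [← Real.log_mul (by norm_num) (by linarith)]
          exact Real.log_le_log (by linarith) (by linarith)
        rw [div_add_one a1.ne']
        gcongr
    have h2 := h1.const_mul (Real.pi ^ 2)
    rw [mul_one] at h2
    refine h2.congr fun N => ?_
    simp only [hVd]
    rw [div_div_eq_mul_div]
    ring
  have hchf := fun y : ℝ => chf hZ hA hS hJ hL hW hC hI hD hR hY (k := 1) (V := V) (u := ![r]) ![y]
    (a0 := ![Real.pi ^ 2]) (a := fun _ _ => 0) hV hVL
    (by intro j; fin_cases j; exact hrL)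
    (by intro j; fin_cases j; exact ha0)
    (by
      intro i j
      fin_cases i; fin_cases j
      simp)
  have hweak : ∀ φ : ℝ →ᵇ ℝ, Tendsto (fun N : ℕ => (∑ n ∈ Finset.Icc 1 N, φ (Sn (V N) (r N) n)) / (N : ℝ)) atTop
      (𝓝 (∫ x, φ x ∂(gaussianReal 0 1))) := by
    intro φ
    have h1 := hL (fun N => (Finset.Icc 1 N).map ⟨fun n : ℕ => (n : ℂ), Nat.cast_injective⟩) (fun N _ => 1 / (N : ℝ))
      (fun N z => Sn (V N) (r N) ⌊z.re⌋₊) 1 (fun N z => by positivity) (by
        filter_upwards [eventually_ne_atTop 0] with N hN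
        have hNp : (0 : ℝ) < N := by exact_mod_cast Nat.pos_of_ne_zero hN
        rw [Finset.sum_const, Finset.card_map, Nat.card_Icc, add_tsub_cancel_right, nsmul_eq_mul,
          mul_one_div_cancel hNp.ne']) (fun y => by
        have h2 := hchf y
        simp only [Fin.sum_univ_one, Matrix.cons_val_zero] at h2
        have e1 : (1 / (2 * Real.pi ^ 2) * (y * y * (Real.pi ^ 2 + Real.pi ^ 2 - 0)) : ℝ) =
            y ^ 2 * ((1 : NNReal) : ℝ) := by
          have := Real.pi_ne_zero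
          rw [NNReal.coe_one]
          field_simp
          ring
        rw [e1] at h2
        refine h2.congr fun N => ?_
        rw [Finset.sum_map, Finset.sum_div]
        refine Finset.sum_congr rfl fun n _ => ?_
        simp only [Function.Embedding.coeFn_mk, natCast_re, Nat.floor_natCast]
        push_cast
        ring) φ
    refine h1.congr fun N => ?_
    rw [Finset.sum_map, Finset.sum_div]
    refine Finset.sum_congr rfl fun n _ => ?_
    simp only [Function.Embedding.coeFn_mk, natCast_re, Nat.floor_natCast]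
    ring
  refine (cdf_of_weak hweak x).congr' ?_
  filter_upwards [hlr.eventually_gt_atTop 0] with N hN
  have e2 : Real.sqrt (V N) = Real.sqrt (Real.log (r N)) / Real.pi := by
    simp only [hVd]
    rw [Real.sqrt_div' _ (by positivity), Real.sqrt_sq Real.pi_pos.le]
  unfold Sn
  rw [e2]

end F5L

end Pool.Agent.H203.ME
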