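import Pool.Agent.H203.ME.Defs4

set_option autoImplicit false

open Complex Filter Topology Set MeasureTheory

namespace Pool.Agent.H203.ME

namespace FPVL

/-- decay of the Fourier transform -/
theorem decay {F : ℝ → ℝ} (hF : C2c F) (θ : ℝ) :
    ‖FF F θ‖ ≤ ((∫ x : ℝ, |F x|) + ∫ x : ℝ, |deriv (deriv F) x|) / (1 + θ ^ 2) := by
  have h0 := FF_le hF θ
  have hB : 0 ≤ ∫ x : ℝ, |deriv (deriv F) x| := integral_nonneg fun x => abs_nonneg _
  rw [le_div_iff₀ (by positivity)]
  have h1 : θ ^ 2 * ‖FF F θ‖ ≤ ∫ x : ℝ, |deriv (deriv F) x| := by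
    by_cases hθ : θ = 0
    · rw [hθ]; simpa using hB
    · have := FF_le2 hF θ hθ
      rw [le_div_iff₀ (by positivity)] at this
      linarith
  linarith

theorem C2c_rho (hb : S_PVB) : C2c (deriv sst) := by
  have h1 := hb.1
  rw [show (5 : WithTop ℕ∞) = 4 + 1 by norm_num] at h1
  have h2 := (contDiff_succ_iff_deriv.1 h1).2.2
  exact ⟨h2.of_le (by norm_num), hb.2.2.2.2.2.2.2.2.2.2.2⟩

theorem sst_diff (hb : S_PVB) : Differentiable ℝ sst := hb.1.differentiable (by norm_num)

theorem rho_nonneg (hb : S_PVB) (x : ℝ) : 0 ≤ deriv sst x :=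
  hb.2.2.2.2.1.deriv_nonneg

theorem rho_int (hb : S_PVB) : ∫ x : ℝ, deriv sst x = 1 := hb.2.2.2.2.2.2.2.2.2.2.1

theorem near_one (hb : S_PVB) (θ : ℝ) : ‖FF (deriv sst) θ - 1‖ ≤ |θ| := by
  have hc := C2c_rho hb
  have hcs := VARL.hcs hc.supp
  have hcont := hc.cd.continuous
  have h1 : FF (deriv sst) θ - 1 =
      ∫ s : ℝ, ((deriv sst s : ℝ) : ℂ) * (cexp (-(((θ * s : ℝ) : ℂ) * I)) - 1) := by
    have h2 : (1 : ℂ) = ∫ s : ℝ, ((deriv sst s : ℝ) : ℂ) * 1 := by
      simp only [mul_one]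
      rw [integral_complex_ofReal, rho_int hb, Complex.ofReal_one]
    rw [FF]
    conv_lhs => rw [h2]
    rw [← integral_sub (VARL.int_mul hcont hcs _ (VARL.cont_e θ))
      (VARL.int_mul hcont hcs _ continuous_const)]
    congr 1
    funext s
    ring
  rw [h1]
  have hint : Integrable (fun s : ℝ => |θ| * deriv sst s) := by
    exact (hcont.integrable_of_hasCompactSupport hcs).const_mul _
  calc _ ≤ ∫ s : ℝ, |θ| * deriv sst s := by
        refine norm_integral_le_of_norm_le hint (Eventually.of_forall fun s => ?_)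
        rw [norm_mul, Complex.norm_real, Real.norm_eq_abs, abs_of_nonneg (rho_nonneg hb s), mul_comm]
        by_cases hs : 1 ≤ |s|
        · rw [hc.supp s hs, mul_zero, mul_zero]
        · refine mul_le_mul_of_nonneg_right ?_ (rho_nonneg hb s)
          have h3 : -(((θ * s : ℝ) : ℂ) * I) = I * ((-(θ * s) : ℝ) : ℂ) := by push_cast; ring
          rw [h3]
          refine (Real.norm_exp_I_mul_ofReal_sub_one_le).trans ?_
          rw [Real.norm_eq_abs, abs_neg, abs_mul]
          exact mul_le_of_le_one_right (abs_nonneg _) (not_le.1 hs).le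
    _ = |θ| := by rw [integral_const_mul, rho_int hb, mul_one]

theorem Pv_deriv (hb : S_PVB) (L v x : ℝ) :
    HasDerivAt (Pv L v) (L * deriv sst (L * x) - L * deriv sst (L * x - 2 * Real.pi * v)) x := by
  have h1 : HasDerivAt (fun x => L * x) L x := by simpa using (hasDerivAt_id x).const_mul L
  have h2 : HasDerivAt (fun x => L * x - 2 * Real.pi * v) L x := h1.sub_const _
  have h3 := ((sst_diff hb (L * x)).hasDerivAt).comp x h1
  have h4 := ((sst_diff hb (L * x - 2 * Real.pi * v)).hasDerivAt).comp x h2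
  have h5 := h3.sub h4
  refine (h5.congr_deriv ?_)
  ring

theorem Pv_contDiff (hb : S_PVB) (L v : ℝ) : ContDiff ℝ 1 (Pv L v) := by
  have h1 : ContDiff ℝ 1 sst := hb.1.of_le (by norm_num)
  unfold Pv
  exact (h1.comp (contDiff_const.mul contDiff_id)).sub
    (h1.comp ((contDiff_const.mul contDiff_id).sub contDiff_const))

theorem Pv_cs (hb : S_PVB) {L : ℝ} (v : ℝ) (hL : 0 < L) : HasCompactSupport (Pv L v) := by
  refine HasCompactSupport.intro (isCompact_Icc (a := -((1 + |2 * Real.pi * v|) / L))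
    (b := (1 + |2 * Real.pi * v|) / L)) (fun x hx => ?_)
  have ha := abs_nonneg (2 * Real.pi * v)
  have ha1 := le_abs_self (2 * Real.pi * v)
  have ha2 := neg_abs_le (2 * Real.pi * v)
  by_cases h1 : x < -((1 + |2 * Real.pi * v|) / L)
  · have h2 : L * x < -(1 + |2 * Real.pi * v|) := by
      rw [← neg_div, lt_div_iff₀ hL] at h1
      linarith
    unfold Pv
    rw [hb.2.2.1 (L * x) (by linarith), hb.2.2.1 (L * x - 2 * Real.pi * v) (by linarith), sub_self]
  · have h3 : (1 + |2 * Real.pi * v|) / L < x := by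
      by_contra h4
      exact hx ⟨not_lt.1 h1, not_lt.1 h4⟩
    have h2 : 1 + |2 * Real.pi * v| < L * x := by
      rw [div_lt_iff₀ hL] at h3
      linarith
    unfold Pv
    rw [hb.2.2.2.1 (L * x) (by linarith), hb.2.2.2.1 (L * x - 2 * Real.pi * v) (by linarith), sub_self]

/-- the substitution `y = L x - c` -/
theorem subst {L : ℝ} (hL : 0 < L) (c : ℝ) (ξ : ℝ) (F : ℝ → ℝ) :
    ∫ s : ℝ, ((L * F (L * s - c) : ℝ) : ℂ) * cexp (-(((ξ * s : ℝ) : ℂ) * I)) =
      cexp (-(((c * (ξ / L) : ℝ) : ℂ) * I)) * FF F (ξ / L) := by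
  set G : ℝ → ℂ := fun y => (L : ℂ) * (cexp (-(((c * (ξ / L) : ℝ) : ℂ) * I)) *
    ((F y : ℂ) * cexp (-(((ξ / L * y : ℝ) : ℂ) * I)))) with hG
  have h1 : (fun s : ℝ => ((L * F (L * s - c) : ℝ) : ℂ) * cexp (-(((ξ * s : ℝ) : ℂ) * I))) =
      fun s => (fun y => G (y - c)) (L * s) := by
    funext s
    simp only [hG]
    have h2 : -(((ξ * s : ℝ) : ℂ) * I) = -(((c * (ξ / L) : ℝ) : ℂ) * I) +
        -(((ξ / L * (L * s - c) : ℝ) : ℂ) * I) := by
      have : ξ * s = c * (ξ / L) + ξ / L * (L * s - c) := by field_simp; ring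
      rw [this]
      push_cast
      ring
    rw [h2, Complex.exp_add]
    push_cast
    ring
  rw [h1, Measure.integral_comp_mul_left (fun y => G (y - c)) L, integral_sub_right_eq_self G c, hG,
    integral_const_mul, integral_const_mul, abs_of_pos (inv_pos.2 hL), ← FF, Complex.real_smul,
    ← mul_assoc, ← mul_assoc]
  have h3 : ((L⁻¹ : ℝ) : ℂ) * (L : ℂ) = 1 := by
    rw [← Complex.ofReal_mul, inv_mul_cancel₀ hL.ne', Complex.ofReal_one]
  rw [h3, one_mul]

theorem formula (hb : S_PVB) (L v ξ : ℝ) (hL : 0 < L) (hξ : ξ ≠ 0) : FF (Pv L v) ξ =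
    (1 - cexp (-(((2 * Real.pi * v * (ξ / L) : ℝ) : ℂ) * I))) * FF (deriv sst) (ξ / L) / (I * (ξ : ℂ)) := by
  have hc := C2c_rho hb
  have hcs := VARL.hcs hc.supp
  have hcont := hc.cd.continuous
  have h1 := VARL.FF_der (Pv_contDiff hb L v) (Pv_cs hb v hL) ξ
  have h2 : deriv (Pv L v) = fun x => L * deriv sst (L * x) - L * deriv sst (L * x - 2 * Real.pi * v) :=
    funext fun x => (Pv_deriv hb L v x).deriv
  have h3 : FF (deriv (Pv L v)) ξ =
      (1 - cexp (-(((2 * Real.pi * v * (ξ / L) : ℝ) : ℂ) * I))) * FF (deriv sst) (ξ / L) := by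
    rw [h2, FF]
    have e1 := subst hL 0 ξ (deriv sst)
    have e2 := subst hL (2 * Real.pi * v) ξ (deriv sst)
    simp only [sub_zero, zero_mul, Complex.ofReal_zero, neg_zero, Complex.exp_zero, one_mul] at e1
    rw [sub_mul, one_mul, ← e2, ← e1, ← integral_sub]
    · congr 1
      funext s
      push_cast
      ring
    · refine VARL.int_mul (F := fun s => L * deriv sst (L * s)) (by fun_prop) ?_ _ (VARL.cont_e ξ)
      have : HasCompactSupport fun s => deriv sst (L * s) :=
        hcs.comp_homeomorph (Homeomorph.mulLeft₀ L hL.ne')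
      exact this.mul_left
    · refine VARL.int_mul (F := fun s => L * deriv sst (L * s - 2 * Real.pi * v)) (by fun_prop) ?_ _
        (VARL.cont_e ξ)
      have : HasCompactSupport fun s => deriv sst (L * s - 2 * Real.pi * v) :=
        hcs.comp_homeomorph ((Homeomorph.mulLeft₀ L hL.ne').trans (Homeomorph.subRight (2 * Real.pi * v)))
      exact this.mul_left
  rw [← h3, h1]
  have hξ' : (I * (ξ : ℂ)) ≠ 0 := mul_ne_zero I_ne_zero (Complex.ofReal_ne_zero.2 hξ)
  rw [eq_div_iff hξ']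
  ring

end FPVL

theorem t_FPV (hb : S_PVB) : S_FPV := by
  have hc := FPVL.C2c_rho hb
  have hc' := VARL.C2c_mul hc
  refine ⟨?_, FPVL.formula hb⟩
  set A := (∫ x : ℝ, |deriv sst x|) + ∫ x : ℝ, |deriv (deriv (deriv sst)) x| with hA
  set B := (∫ x : ℝ, |x * deriv sst x|) + ∫ x : ℝ, |deriv (deriv (fun x => x * deriv sst x)) x| with hB
  have hA0 : 0 ≤ A := add_nonneg (integral_nonneg fun x => abs_nonneg _)
    (integral_nonneg fun x => abs_nonneg _)
  have hB0 : 0 ≤ B := add_nonneg (integral_nonneg fun x => abs_nonneg _)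
    (integral_nonneg fun x => abs_nonneg _)
  refine ⟨A + B + 1, by linarith, fun θ => ⟨?_, ?_, ?_, FPVL.near_one hb θ⟩⟩
  · exact (FPVL.decay hc θ).trans (div_le_div_of_nonneg_right (by linarith) (by positivity))
  · exact (FF_hasDerivAt hc θ).differentiableAt
  · rw [FF_deriv hc]
    simp only
    rw [norm_mul, norm_neg, Complex.norm_I, one_mul]
    exact (FPVL.decay hc' θ).trans (div_le_div_of_nonneg_right (by linarith) (by positivity))

end Pool.Agent.H203.ME
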