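import Pool.Agent.H203.ME.Defs4

set_option autoImplicit false

/-! Stage 4, leaf IDX: indices and zeros. -/

open Complex Filter Topology Set MeasureTheory ProbabilityTheory
open scoped BoundedContinuousFunction

namespace Pool.Agent.H203.ME

namespace IDXL

theorem nz_add (a b : ℝ) (ha : 1 ≤ a) (hab : a ≤ b) :
    SG.NZ b = SG.NZ a + H370.NN riemannZeta a b := by
  apply le_antisymm (SG.NZ_le_add a b ha)
  rw [H370.NN_eq H370.good_zeta ha]
  apply SG.NZ_add_le a b hab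
  intro s hs
  rw [H370.mem_Zf H370.good_zeta ha] at hs
  obtain ⟨h1, h2, h3, h4, h5⟩ := hs
  exact ⟨⟨h5, h1, h2, by linarith, h4⟩, h3⟩

theorem lt_ord {n : ℕ} {T : ℝ} (hn : SG.NZ T < n) : T < SG.ord n := by
  by_contra h
  push Not at h
  have := (SG.ord_le_iff (by omega : 1 ≤ n) T).mp h
  omega

theorem fib (T t : ℝ) (hT : 1 ≤ T) (h1 : T < t) (h2 : t ≤ 2 * T) :
    ((Finset.Ioc (SG.NZ T) (SG.NZ (2 * T))).filter (fun n => SG.ord n = t)).card =
      ∑ z ∈ (H370.Zf riemannZeta T (2 * T)).filter (fun z => z.im = t), mz z := by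
  classical
  have e := SG.ord_count t (by linarith)
  have e1 : {n : ℕ | 1 ≤ n ∧ SG.ord n = t} =
      ((Finset.Ioc (SG.NZ T) (SG.NZ (2 * T))).filter (fun n => SG.ord n = t) : Finset ℕ) := by
    ext n
    rw [Finset.coe_filter, Set.mem_ofPred_eq, Set.mem_ofPred_eq, Finset.mem_Ioc]
    constructor
    · rintro ⟨a1, a2⟩
      refine ⟨⟨?_, ?_⟩, a2⟩
      · by_contra h
        push Not at h
        have := (SG.ord_le_iff a1 T).mpr h
        linarith
      · apply (SG.ord_le_iff a1 _).mp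
        linarith
    · rintro ⟨⟨a1, a2⟩, a3⟩
      exact ⟨by omega, a3⟩
  rw [e1, Set.ncard_coe_finset] at e
  rw [e]
  have e2 : {s : ℂ | riemannZeta s = 0 ∧ 0 < s.re ∧ s.re < 1 ∧ s.im = t} =
      ((H370.Zf riemannZeta T (2 * T)).filter (fun z => z.im = t) : Finset ℂ) := by
    ext s
    rw [Finset.coe_filter, Set.mem_ofPred_eq, Set.mem_ofPred_eq, H370.mem_Zf H370.good_zeta hT]
    constructor
    · rintro ⟨a1, a2, a3, a4⟩
      exact ⟨⟨a2, a3, by linarith, by linarith, a1⟩, a4⟩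
    · rintro ⟨⟨a1, a2, a3, a4, a5⟩, a6⟩
      exact ⟨a5, a1, a2, a6⟩
  rw [e2, finsum_mem_coe_finset]
  rfl

theorem sum_eq (T : ℝ) (hT : 1 ≤ T) (g : ℝ → ℂ) :
    ∑ n ∈ Finset.Ioc (SG.NZ T) (SG.NZ (2 * T)), g (SG.ord n) =
      ∑ z ∈ H370.Zf riemannZeta T (2 * T), (mz z : ℂ) * g z.im := by
  classical
  set A := Finset.Ioc (SG.NZ T) (SG.NZ (2 * T)) with hA
  set B := H370.Zf riemannZeta T (2 * T) with hB
  set S : Finset ℝ := A.image SG.ord ∪ B.image (fun z : ℂ => z.im) with hS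
  have hSb : ∀ t ∈ S, T < t ∧ t ≤ 2 * T := by
    intro t ht
    rw [hS, Finset.mem_union, Finset.mem_image, Finset.mem_image] at ht
    rcases ht with ⟨n, hn, rfl⟩ | ⟨z, hz, rfl⟩
    · rw [hA, Finset.mem_Ioc] at hn
      exact ⟨lt_ord hn.1, (SG.ord_le_iff (by omega) _).mpr hn.2⟩
    · rw [hB, H370.mem_Zf H370.good_zeta hT] at hz
      exact ⟨hz.2.2.1, hz.2.2.2.1⟩
  have m1 : ∀ n ∈ A, SG.ord n ∈ S := fun n hn =>
    Finset.mem_union_left _ (Finset.mem_image_of_mem _ hn)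
  have m2 : ∀ z ∈ B, z.im ∈ S := fun z hz =>
    Finset.mem_union_right _ (Finset.mem_image_of_mem (fun z : ℂ => z.im) hz)
  rw [← Finset.sum_fiberwise_of_maps_to m1, ← Finset.sum_fiberwise_of_maps_to m2]
  apply Finset.sum_congr rfl
  intro t ht
  have h1 : ∑ n ∈ A.filter (fun n => SG.ord n = t), g (SG.ord n) =
      ((A.filter (fun n => SG.ord n = t)).card : ℂ) * g t := by
    rw [Finset.sum_congr rfl (g := fun _ => g t)]
    · rw [Finset.sum_const, nsmul_eq_mul]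
    · intro n hn
      rw [(Finset.mem_filter.mp hn).2]
  have h2 : ∑ z ∈ B.filter (fun z => z.im = t), (mz z : ℂ) * g z.im =
      ((∑ z ∈ B.filter (fun z => z.im = t), mz z : ℕ) : ℂ) * g t := by
    rw [Nat.cast_sum, Finset.sum_mul]
    apply Finset.sum_congr rfl
    intro z hz
    rw [(Finset.mem_filter.mp hz).2]
  rw [h1, h2, hA, hB, fib T t hT (hSb t ht).1 (hSb t ht).2]

end IDXL

theorem t_IDX : S_IDX := by
  refine ⟨IDXL.nz_add, IDXL.sum_eq, ?_⟩
  intro n hn a ha han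
  rw [IDXL.nz_add a (SG.ord n) ha han.le]
  have : SG.NZ a < n := by
    by_contra h
    push Not at h
    have := (SG.ord_le_iff hn a).mpr h
    linarith
  omega

end Pool.Agent.H203.ME
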