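import Pool.Agent.H203.ME.Defs4

set_option autoImplicit false

open Complex Filter Topology Set MeasureTheory ProbabilityTheory

namespace Pool.Agent.H203.ME

namespace INDL

/-- abstract form -/
theorem core (N : ℝ → ℕ) (o : ℕ → ℝ) (n u q : ℕ) (hn : 1 ≤ n)
    (ho : ∀ m : ℕ, 1 ≤ m → ∀ t : ℝ, o m ≤ t ↔ m ≤ N t) (hq : 8 ≤ q) (L s ε : ℝ) (hL : 0 < L)
    (hs : 0 < s) (hε : 0 < ε) (X E : ℝ → ℝ)
    (hX : ∀ v : ℝ, 0 ≤ v → |X v - ((N (o n + 2 * Real.pi * v / L) : ℝ) - N (o n) - v)| ≤ E v)
    (h1 : 2 * |X u| < q * ε * s)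
    (h2 : ∀ j : ℤ, -(q : ℤ) ≤ j → j ≤ q → |X (max 0 (u + j * ε * s)) - X u| < ε * s)
    (h3 : ∀ j : ℤ, -(q : ℤ) ≤ j → j ≤ q → E (max 0 (u + j * ε * s)) < ε * s)
    (h4 : (N (o n) : ℝ) - n < ε * s) :
    |((o (n + u) - o n) * L / (2 * Real.pi) - u) / s + X u / s| ≤ 5 * ε := by
  have hpi : 0 < 2 * Real.pi := by positivity
  have hqR : (8 : ℝ) ≤ (q : ℝ) := by exact_mod_cast hq
  set Z := X u / s with hZ
  have hZs : X u = Z * s := by rw [hZ]; field_simp
  have hZb : 2 * |Z| < q * ε := by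
    have e : |X u| = |Z| * s := by rw [hZs, abs_mul, abs_of_pos hs]
    rw [e] at h1
    have : 2 * |Z| * s < q * ε * s := by linarith
    exact lt_of_mul_lt_mul_right this hs.le
  have hZ1 : Z ≤ |Z| := le_abs_self Z
  have hZ2 : -Z ≤ |Z| := neg_le_abs Z
  set D := ((o (n + u) - o n) * L / (2 * Real.pi) - u) / s with hD
  -- comparison of `D` with `jε`
  have hDle : ∀ v w : ℝ, o (n + u) ≤ o n + 2 * Real.pi * v / L → v = u + w * s → D ≤ w := by
    intro v w h hv
    rw [hD, div_le_iff₀ hs, sub_le_iff_le_add, div_le_iff₀ hpi]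
    have : (o (n + u) - o n) * L ≤ (2 * Real.pi * v / L) * L :=
      mul_le_mul_of_nonneg_right (by linarith) hL.le
    rw [div_mul_cancel₀ _ hL.ne'] at this
    rw [hv] at this
    nlinarith [this]
  have hDgt : ∀ v w : ℝ, o n + 2 * Real.pi * v / L < o (n + u) → v = u + w * s → w < D := by
    intro v w h hv
    rw [hD, lt_div_iff₀ hs, lt_sub_iff_add_lt, lt_div_iff₀ hpi]
    have : (2 * Real.pi * v / L) * L < (o (n + u) - o n) * L :=
      mul_lt_mul_of_pos_right (by linarith) hL
    rw [div_mul_cancel₀ _ hL.ne'] at this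
    rw [hv] at this
    nlinarith [this]
  have hnN : n ≤ N (o n) := (ho n hn _).1 le_rfl
  have hnNR : (n : ℝ) ≤ N (o n) := by exact_mod_cast hnN
  have hmono : o n ≤ o (n + u) := by
    have : n + u ≤ N (o (n + u)) := (ho (n + u) (by omega) _).1 le_rfl
    exact (ho n hn _).2 (by omega)
  -- upper bound
  have hup : D + Z ≤ 4 * ε := by
    set j : ℤ := ⌈(-Z + 3 * ε) / ε⌉ with hj
    have hj1 : -Z + 3 * ε ≤ j * ε := by
      have := Int.le_ceil ((-Z + 3 * ε) / ε)
      rw [div_le_iff₀ hε] at this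
      exact this
    have hj2 : (j : ℝ) * ε < -Z + 4 * ε := by
      have h := Int.ceil_lt_add_one ((-Z + 3 * ε) / ε)
      have h' : ((⌈(-Z + 3 * ε) / ε⌉ : ℤ) : ℝ) * ε < ((-Z + 3 * ε) / ε + 1) * ε :=
        mul_lt_mul_of_pos_right h hε
      have e : ((-Z + 3 * ε) / ε + 1) * ε = -Z + 4 * ε := by field_simp; ring
      rw [e] at h'
      exact h'
    have hjq : j ≤ q := by
      have : (j : ℝ) * ε < (q : ℝ) * ε := by nlinarith
      have := lt_of_mul_lt_mul_right this hε.le
      have : j < q := by exact_mod_cast this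
      exact this.le
    have hjq' : -(q : ℤ) ≤ j := by
      have : (-(q : ℝ)) * ε < (j : ℝ) * ε := by nlinarith
      have := lt_of_mul_lt_mul_right this hε.le
      have : (((-(q : ℤ)) : ℤ) : ℝ) < (j : ℝ) := by push_cast; exact this
      have := Int.cast_lt.1 this
      exact this.le
    have k2 := h2 j hjq' hjq
    have k3 := h3 j hjq' hjq
    have hv0 : 0 ≤ (u : ℝ) + j * ε * s := by
      by_contra hneg
      push Not at hneg
      rw [max_eq_left hneg.le] at k2 k3
      have k4 := hX 0 le_rfl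
      simp only [mul_zero, zero_div, add_zero, sub_self, sub_zero] at k4
      have k5 : |X u| < 2 * (ε * s) := by
        have : |X u| ≤ |X 0 - X u| + |X 0| := by
          have e : X u = X 0 - (X 0 - X u) := by ring
          calc |X u| = |X 0 - (X 0 - X u)| := by rw [← e]
            _ ≤ |X 0| + |X 0 - X u| := abs_sub _ _
            _ = _ := by ring
        linarith
      rw [hZs, abs_mul, abs_of_pos hs] at k5
      have k6 : |Z| * s < (2 * ε) * s := by linarith
      have k7 := lt_of_mul_lt_mul_right k6 hs.le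
      have k8 : 0 < (j : ℝ) * ε := by linarith
      have k9 : 0 < (j : ℝ) * ε * s := mul_pos k8 hs
      have : (0 : ℝ) ≤ u := Nat.cast_nonneg u
      linarith
    rw [max_eq_right hv0] at k2 k3
    have k4 := hX _ hv0
    rw [abs_le] at k4
    rw [abs_lt] at k2
    have k5 : (u : ℝ) < (N (o n + 2 * Real.pi * (u + j * ε * s) / L) : ℝ) - N (o n) := by
      have : (-Z + 3 * ε) * s ≤ (j * ε) * s := mul_le_mul_of_nonneg_right hj1 hs.le
      rw [hZs] at k2
      have hes : 0 < ε * s := mul_pos hε hs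
      nlinarith [k4.1, k4.2, k2.1, k2.2]
    have k6 : n + u ≤ N (o n + 2 * Real.pi * (u + j * ε * s) / L) := by
      have : ((n + u : ℕ) : ℝ) < (N (o n + 2 * Real.pi * (u + j * ε * s) / L) : ℝ) := by
        push_cast; linarith
      have := Nat.cast_lt.1 this
      exact this.le
    have k7 := (ho (n + u) (by omega) _).2 k6
    have k8 := hDle _ ((j : ℝ) * ε) k7 rfl
    linarith
  have hlow : -(5 * ε) ≤ D + Z := by
    set j : ℤ := ⌊(-Z - 4 * ε) / ε⌋ with hj
    have hj1 : j * ε ≤ -Z - 4 * ε := by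
      have := Int.floor_le ((-Z - 4 * ε) / ε)
      rw [le_div_iff₀ hε] at this
      exact this
    have hj2 : -Z - 5 * ε < (j : ℝ) * ε := by
      have h := Int.sub_one_lt_floor ((-Z - 4 * ε) / ε)
      have h' : ((-Z - 4 * ε) / ε - 1) * ε < ((⌊(-Z - 4 * ε) / ε⌋ : ℤ) : ℝ) * ε :=
        mul_lt_mul_of_pos_right h hε
      have e : ((-Z - 4 * ε) / ε - 1) * ε = -Z - 5 * ε := by field_simp; ring
      rw [e] at h'
      exact h'
    have hjq : j ≤ q := by
      have : (j : ℝ) * ε < (q : ℝ) * ε := by nlinarith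
      have := lt_of_mul_lt_mul_right this hε.le
      have : j < q := by exact_mod_cast this
      exact this.le
    have hjq' : -(q : ℤ) ≤ j := by
      have : (-(q : ℝ) - 1) * ε < (j : ℝ) * ε := by nlinarith
      have := lt_of_mul_lt_mul_right this hε.le
      have : (((-(q : ℤ) - 1) : ℤ) : ℝ) < (j : ℝ) := by push_cast; exact this
      have := Int.cast_lt.1 this
      omega
    have k2 := h2 j hjq' hjq
    have k3 := h3 j hjq' hjq
    by_cases hv0 : 0 ≤ (u : ℝ) + j * ε * s
    · rw [max_eq_right hv0] at k2 k3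
      have k4 := hX _ hv0
      rw [abs_le] at k4
      rw [abs_lt] at k2
      have k5 : (N (o n + 2 * Real.pi * (u + j * ε * s) / L) : ℝ) < n + u := by
        have : (j * ε) * s ≤ (-Z - 4 * ε) * s := mul_le_mul_of_nonneg_right hj1 hs.le
        rw [hZs] at k2
        have hes : 0 < ε * s := mul_pos hε hs
        nlinarith [k4.1, k4.2, k2.1, k2.2]
      have k6 : N (o n + 2 * Real.pi * (u + j * ε * s) / L) < n + u := by
        have : (N (o n + 2 * Real.pi * (u + j * ε * s) / L) : ℝ) < ((n + u : ℕ) : ℝ) := by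
          push_cast; linarith
        exact Nat.cast_lt.1 this
      have k7 : o n + 2 * Real.pi * (u + j * ε * s) / L < o (n + u) := by
        by_contra hc
        push Not at hc
        have := (ho (n + u) (by omega) _).1 hc
        omega
      have k8 := hDgt _ ((j : ℝ) * ε) k7 rfl
      linarith
    · push Not at hv0
      have k5 : (j : ℝ) * ε < D := by
        rw [hD, lt_div_iff₀ hs]
        have : 0 ≤ (o (n + u) - o n) * L / (2 * Real.pi) := by
          apply div_nonneg (mul_nonneg (by linarith) hL.le) hpi.le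
        linarith
      linarith
  rw [abs_le]
  constructor
  · exact hlow
  · linarith

end INDL

theorem t_IND : S_IND := by
  intro n u q L V ε X E hn hq hL hV hε hX
  have hs : 0 < Real.sqrt V := Real.sqrt_pos.2 hV
  have hes : 0 < ε * Real.sqrt V := mul_pos hε hs
  set s := Real.sqrt V with hsdef
  have hqR : (8 : ℝ) ≤ (q : ℝ) := by exact_mod_cast hq
  have hqes : 0 < (q : ℝ) * ε * s := by positivity
  have hE0 : ∀ v : ℝ, 0 ≤ v → 0 ≤ E v := fun v hv => (abs_nonneg _).trans (hX v hv)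
  have hnN : (n : ℝ) ≤ SG.NZ (SG.ord n) := by exact_mod_cast SG.le_NZ_ord hn
  have nA : 0 ≤ min 1 (2 * |X u| / (q * ε * s)) := by positivity
  have nT : ∀ j : ℤ, 0 ≤ (min 1 (|X (max 0 (u + j * ε * s)) - X u| / (ε * s)) +
      E (max 0 (u + j * ε * s)) / (ε * s)) := by
    intro j
    have := hE0 (max 0 (u + j * ε * s)) (le_max_left _ _)
    positivity
  have nS : 0 ≤ ∑ j ∈ Finset.Icc (-(q : ℤ)) q, (min 1 (|X (max 0 (u + j * ε * s)) - X u| / (ε * s)) +
      E (max 0 (u + j * ε * s)) / (ε * s)) := Finset.sum_nonneg fun j _ => nT j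
  have nF : 0 ≤ ((SG.NZ (SG.ord n) : ℝ) - n) / (ε * s) := div_nonneg (by linarith) hes.le
  have n5 : 0 ≤ 5 * ε := by positivity
  have hmin1 : min 1 |((SG.ord (n + u) - SG.ord n) * L / (2 * Real.pi) - u) / s + X u / s| ≤ 1 :=
    min_le_left _ _
  by_cases c1 : 2 * |X u| < q * ε * s
  · by_cases c2 : ∀ j : ℤ, -(q : ℤ) ≤ j → j ≤ q → |X (max 0 (u + j * ε * s)) - X u| < ε * s
    · by_cases c3 : ∀ j : ℤ, -(q : ℤ) ≤ j → j ≤ q → E (max 0 (u + j * ε * s)) < ε * s
      · by_cases c4 : (SG.NZ (SG.ord n) : ℝ) - n < ε * s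
        · have := INDL.core SG.NZ SG.ord n u q hn (fun m hm t => SG.ord_le_iff hm t) hq L s ε hL hs hε
            X E hX c1 c2 c3 c4
          have h5 := (min_le_right 1
            |((SG.ord (n + u) - SG.ord n) * L / (2 * Real.pi) - u) / s + X u / s|).trans this
          linarith
        · have : 1 ≤ ((SG.NZ (SG.ord n) : ℝ) - n) / (ε * s) := by
            rw [le_div_iff₀ hes, one_mul]; linarith
          linarith
      · push Not at c3
        obtain ⟨j, hj1, hj2, hj3⟩ := c3
        have h6 : 1 ≤ E (max 0 (u + j * ε * s)) / (ε * s) := by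
          rw [le_div_iff₀ hes, one_mul]; exact hj3
        have h7 : 0 ≤ min 1 (|X (max 0 (u + j * ε * s)) - X u| / (ε * s)) := by positivity
        have h8 := Finset.single_le_sum (f := fun j : ℤ =>
          (min 1 (|X (max 0 (u + j * ε * s)) - X u| / (ε * s)) +
            E (max 0 (u + j * ε * s)) / (ε * s))) (fun j _ => nT j)
          (Finset.mem_Icc.2 ⟨hj1, hj2⟩)
        beta_reduce at h8
        linarith
    · push Not at c2
      obtain ⟨j, hj1, hj2, hj3⟩ := c2
      have h6 : min 1 (|X (max 0 (u + j * ε * s)) - X u| / (ε * s)) = 1 := by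
        apply min_eq_left
        rw [le_div_iff₀ hes, one_mul]; exact hj3
      have h7 : 0 ≤ E (max 0 (u + j * ε * s)) / (ε * s) :=
        div_nonneg (hE0 _ (le_max_left _ _)) hes.le
      have h8 := Finset.single_le_sum (f := fun j : ℤ =>
        (min 1 (|X (max 0 (u + j * ε * s)) - X u| / (ε * s)) +
          E (max 0 (u + j * ε * s)) / (ε * s))) (fun j _ => nT j)
        (Finset.mem_Icc.2 ⟨hj1, hj2⟩)
      beta_reduce at h8
      linarith
  · have : min 1 (2 * |X u| / (q * ε * s)) = 1 := by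
      apply min_eq_left
      rw [le_div_iff₀ hqes, one_mul]; linarith
    linarith

end Pool.Agent.H203.ME
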