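import Pool.Agent.H203.ME.Defs4

/-! (JB) the variance is the logarithm, up to a constant. -/

set_option autoImplicit false

open Complex Filter Topology Set MeasureTheory

namespace Pool.Agent.H203.ME

namespace JBL

lemma one_sub_cos (x : ℝ) : 0 ≤ 1 - Real.cos x ∧ 1 - Real.cos x ≤ 2 ∧ 1 - Real.cos x ≤ x ^ 2 / 2 :=
  ⟨by linarith [Real.cos_le_one x], by linarith [Real.neg_one_le_cos x],
    by linarith [Real.one_sub_sq_div_two_le_cos (x := x)]⟩

lemma abs_quot {a θ : ℝ} (hθ : 0 < θ) : |(1 - Real.cos (a * θ)) / θ| ≤ a ^ 2 * θ / 2 := by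
  obtain ⟨h1, h2, h3⟩ := one_sub_cos (a * θ)
  rw [abs_div, abs_of_nonneg h1, abs_of_pos hθ, div_le_iff₀ hθ]
  nlinarith

lemma meas_quot (a : ℝ) : Measurable fun θ : ℝ => (1 - Real.cos (a * θ)) / θ := by fun_prop

lemma intg_quot (a b : ℝ) (hb : 0 ≤ b) :
    IntervalIntegrable (fun θ : ℝ => (1 - Real.cos (a * θ)) / θ) volume 0 b := by
  rw [intervalIntegrable_iff_integrableOn_Ioc_of_le hb]
  refine Measure.integrableOn_of_bounded (M := a ^ 2 * b / 2) (by simp)
    (meas_quot a).aestronglyMeasurable ?_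
  refine (ae_restrict_iff' measurableSet_Ioc).2 (Eventually.of_forall fun θ hθ => ?_)
  rw [Real.norm_eq_abs]
  refine (abs_quot hθ.1).trans ?_
  have : a ^ 2 * θ ≤ a ^ 2 * b := mul_le_mul_of_nonneg_left hθ.2 (sq_nonneg a)
  linarith

lemma small (a b : ℝ) (hb : 0 ≤ b) :
    |∫ θ in (0:ℝ)..b, (1 - Real.cos (a * θ)) / θ| ≤ (a * b) ^ 2 / 2 := by
  have := intervalIntegral.norm_integral_le_of_norm_le_const (a := 0) (b := b)
    (f := fun θ : ℝ => (1 - Real.cos (a * θ)) / θ) (C := a ^ 2 * b / 2) (by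
      intro θ hθ
      rw [uIoc_of_le hb] at hθ
      rw [Real.norm_eq_abs]
      refine (abs_quot hθ.1).trans ?_
      have : a ^ 2 * θ ≤ a ^ 2 * b := mul_le_mul_of_nonneg_left hθ.2 (sq_nonneg a)
      linarith)
  rw [Real.norm_eq_abs, sub_zero, abs_of_nonneg hb] at this
  refine this.trans (le_of_eq (by ring))

/-- integration by parts -/
lemma osc (a : ℝ) (ha : 1 ≤ a) : |∫ θ in (1 / a)..1, Real.cos (a * θ) / θ| ≤ 3 := by
  have ha0 : 0 < a := by linarith
  have h1a : 0 < 1 / a := by positivity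
  have hle : 1 / a ≤ 1 := by rw [div_le_one ha0]; exact ha
  have hne : ∀ θ ∈ uIcc (1 / a) 1, θ ≠ 0 := by
    intro θ hθ
    rw [uIcc_of_le hle] at hθ
    exact (lt_of_lt_of_le h1a hθ.1).ne'
  have key := intervalIntegral.integral_mul_deriv_eq_deriv_mul (a := 1 / a) (b := 1)
    (u := fun θ : ℝ => θ⁻¹) (v := fun θ : ℝ => Real.sin (a * θ) / a)
    (u' := fun θ : ℝ => -(θ ^ 2)⁻¹) (v' := fun θ : ℝ => Real.cos (a * θ))
    (fun θ hθ => hasDerivAt_inv (hne θ hθ))
    (fun θ _ => by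
      have h := ((hasDerivAt_id θ).const_mul a).sin.div_const a
      simp only [id, mul_one] at h
      rwa [mul_div_assoc, div_self ha0.ne', mul_one] at h)
    (by
      apply ContinuousOn.intervalIntegrable
      refine ContinuousOn.neg (ContinuousOn.inv₀ (by fun_prop) fun θ hθ => ?_)
      exact pow_ne_zero 2 (hne θ hθ))
    (by apply Continuous.intervalIntegrable; fun_prop)
  have e : ∫ θ in (1 / a)..1, Real.cos (a * θ) / θ = ∫ θ in (1 / a)..1, θ⁻¹ * Real.cos (a * θ) := by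
    congr 1; funext θ; rw [div_eq_inv_mul]
  rw [e, key]
  have b1 : |(1:ℝ)⁻¹ * (Real.sin (a * 1) / a)| ≤ 1 := by
    rw [inv_one, one_mul, abs_div, abs_of_pos ha0, div_le_one ha0]
    exact (Real.abs_sin_le_one _).trans ha
  have b2 : |(1 / a)⁻¹ * (Real.sin (a * (1 / a)) / a)| ≤ 1 := by
    have : (1 / a)⁻¹ * (Real.sin (a * (1 / a)) / a) = Real.sin (a * (1 / a)) := by
      field_simp
    rw [this]
    exact Real.abs_sin_le_one _
  have b3 : |∫ θ in (1 / a)..1, -(θ ^ 2)⁻¹ * (Real.sin (a * θ) / a)| ≤ 1 := by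
    have h1 : |∫ θ in (1 / a)..1, -(θ ^ 2)⁻¹ * (Real.sin (a * θ) / a)| ≤
        ∫ θ in (1 / a)..1, (θ ^ 2)⁻¹ / a := by
      rw [← Real.norm_eq_abs]
      refine intervalIntegral.norm_integral_le_of_norm_le hle ?_ ?_
      · refine Eventually.of_forall fun θ hθ => ?_
        rw [Real.norm_eq_abs, abs_mul, abs_neg, abs_div, abs_of_pos ha0, abs_inv,
          abs_of_nonneg (sq_nonneg θ), div_eq_mul_inv]
        have h2 := Real.abs_sin_le_one (a * θ)
        have h3 : |Real.sin (a * θ)| * a⁻¹ ≤ 1 * a⁻¹ := mul_le_mul_of_nonneg_right h2 (by positivity)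
        rw [one_mul] at h3
        exact mul_le_mul_of_nonneg_left h3 (by positivity)
      · apply ContinuousOn.intervalIntegrable
        refine ContinuousOn.div_const (ContinuousOn.inv₀ (by fun_prop) fun θ hθ => ?_) a
        exact pow_ne_zero 2 (hne θ hθ)
    have h4 : ∫ θ in (1 / a)..1, (θ ^ 2)⁻¹ / a = (a - 1) / a := by
      have h5 := intervalIntegral.integral_eq_sub_of_hasDerivAt (a := 1 / a) (b := 1)
        (f := fun θ : ℝ => -(θ⁻¹) / a) (f' := fun θ : ℝ => (θ ^ 2)⁻¹ / a)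
        (fun θ hθ => by
          have := ((hasDerivAt_inv (hne θ hθ)).neg).div_const a
          simpa using this)
        (by
          apply ContinuousOn.intervalIntegrable
          refine ContinuousOn.div_const (ContinuousOn.inv₀ (by fun_prop) fun θ hθ => ?_) a
          exact pow_ne_zero 2 (hne θ hθ))
      rw [h5]
      field_simp
      ring
    refine h1.trans ?_
    rw [h4, div_le_one ha0]
    linarith
  calc _ ≤ |(1:ℝ)⁻¹ * (Real.sin (a * 1) / a) - (1 / a)⁻¹ * (Real.sin (a * (1 / a)) / a)| + _ :=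
        abs_sub _ _
    _ ≤ (1 + 1) + 1 := add_le_add ((abs_sub _ _).trans (add_le_add b1 b2)) b3
    _ = 3 := by norm_num

/-- the logarithm -/
lemma main (v : ℝ) (hv : 0 ≤ v) :
    |(∫ θ in (0:ℝ)..1, (1 - Real.cos (2 * Real.pi * v * θ)) / θ) - Real.log (1 + v)| ≤ 40 := by
  have hpi := Real.pi_pos
  have hpi4 := Real.pi_le_four
  rcases le_total v 1 with h | h
  · have h1 := small (2 * Real.pi * v) 1 zero_le_one
    have h2 : (2 * Real.pi * v * 1) ^ 2 / 2 ≤ 32 := by
      have : 2 * Real.pi * v * 1 ≤ 8 := by nlinarith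
      have h0 : 0 ≤ 2 * Real.pi * v * 1 := by positivity
      nlinarith
    have h3 : 0 ≤ Real.log (1 + v) := Real.log_nonneg (by linarith)
    have h4 : Real.log (1 + v) ≤ 1 := by
      have := Real.log_le_sub_one_of_pos (by linarith : 0 < 1 + v)
      linarith
    have h5 := abs_le.1 (h1.trans h2)
    rw [abs_le]
    constructor <;> linarith [h5.1, h5.2]
  · set a := 2 * Real.pi * v with ha
    have ha1 : 1 ≤ a := by
      have := Real.pi_gt_three
      rw [ha]; nlinarith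
    have ha0 : 0 < a := by linarith
    have h1a : 0 < 1 / a := by positivity
    have hle : 1 / a ≤ 1 := by rw [div_le_one ha0]; exact ha1
    have hne : ∀ θ ∈ uIcc (1 / a) 1, θ ≠ 0 := by
      intro θ hθ
      rw [uIcc_of_le hle] at hθ
      exact (lt_of_lt_of_le h1a hθ.1).ne'
    have i1 := intg_quot a (1 / a) h1a.le
    have i2 : IntervalIntegrable (fun θ : ℝ => (1 - Real.cos (a * θ)) / θ) volume (1 / a) 1 :=
      i1.symm.trans (intg_quot a 1 zero_le_one)
    rw [← intervalIntegral.integral_add_adjacent_intervals i1 i2]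
    have s1 := small a (1 / a) h1a.le
    have e1 : (a * (1 / a)) ^ 2 / 2 = 1 / 2 := by
      have := ha0.ne'
      field_simp
    rw [e1] at s1
    have e2 : ∫ θ in (1 / a)..1, (1 - Real.cos (a * θ)) / θ =
        Real.log a - ∫ θ in (1 / a)..1, Real.cos (a * θ) / θ := by
      have e3 : ∫ θ in (1 / a)..1, (1 - Real.cos (a * θ)) / θ =
          ∫ θ in (1 / a)..1, (1 / θ - Real.cos (a * θ) / θ) := by
        congr 1; funext θ; ring
      rw [e3, intervalIntegral.integral_sub]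
      · rw [integral_one_div_of_pos h1a one_pos]
        congr 2
        field_simp
      · apply ContinuousOn.intervalIntegrable
        exact ContinuousOn.div (by fun_prop) (by fun_prop) hne
      · apply ContinuousOn.intervalIntegrable
        exact ContinuousOn.div (by fun_prop) (by fun_prop) hne
    rw [e2]
    have o1 := osc a ha1
    have l1 : Real.log a - Real.log (1 + v) = Real.log (a / (1 + v)) := by
      rw [Real.log_div ha0.ne' (by linarith)]
    have l2 : 1 ≤ a / (1 + v) := by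
      have := Real.pi_gt_three
      rw [le_div_iff₀ (by linarith), ha]; nlinarith
    have l3 : a / (1 + v) ≤ 8 := by
      rw [div_le_iff₀ (by linarith), ha]; nlinarith
    have l4 : 0 ≤ Real.log (a / (1 + v)) := Real.log_nonneg l2
    have l5 : Real.log (a / (1 + v)) ≤ 7 := by
      have := Real.log_le_sub_one_of_pos (by linarith : 0 < a / (1 + v))
      linarith
    have s2 := abs_le.1 s1
    have o2 := abs_le.1 o1
    rw [abs_le]
    constructor <;> linarith [s2.1, s2.2, o2.1, o2.2]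

end JBL

open JBL in
theorem t_JB (hf : S_FPV) : S_JB := by
  obtain ⟨⟨C, hC, hF⟩, -⟩ := hf
  set r : ℝ → ℝ := fun θ => ‖FF (deriv sst) θ‖ ^ 2 with hr
  have hcont : Continuous (FF (deriv sst)) :=
    continuous_iff_continuousAt.2 fun θ => (hF θ).2.1.continuousAt
  have hrc : Continuous r := by rw [hr]; fun_prop
  have hr0 : ∀ θ, 0 ≤ r θ := fun θ => by rw [hr]; positivity
  have hr1 : ∀ θ, r θ ≤ C ^ 2 / (1 + θ ^ 2) := by
    intro θ
    have h1 := (hF θ).1
    have h2 : 1 ≤ 1 + θ ^ 2 := by nlinarith [sq_nonneg θ]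
    have h3 : r θ ≤ (C / (1 + θ ^ 2)) ^ 2 := pow_le_pow_left₀ (norm_nonneg _) h1 2
    refine h3.trans ?_
    rw [div_pow]
    apply div_le_div_of_nonneg_left (sq_nonneg C) (by linarith)
    nlinarith
  have hr2 : ∀ θ, 0 ≤ θ → |r θ - 1| ≤ (C + 1) * θ := by
    intro θ hθ
    have h1 := (hF θ).2.2.2
    have h2 : ‖FF (deriv sst) θ‖ ≤ C := by
      refine ((hF θ).1).trans ?_
      rw [div_le_iff₀ (by positivity)]
      nlinarith [mul_nonneg hC.le (sq_nonneg θ)]
    have h3 : |‖FF (deriv sst) θ‖ - 1| ≤ θ := by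
      have := abs_norm_sub_norm_le (FF (deriv sst) θ) 1
      rw [norm_one] at this
      rw [abs_of_nonneg hθ] at h1
      exact this.trans h1
    have h4 : r θ - 1 = (‖FF (deriv sst) θ‖ + 1) * (‖FF (deriv sst) θ‖ - 1) := by
      rw [hr]; ring
    rw [h4, abs_mul, abs_of_nonneg (by positivity)]
    exact mul_le_mul (by linarith) h3 (abs_nonneg _) (by linarith)
  have hmeas : ∀ a : ℝ, Measurable fun θ : ℝ => (1 - Real.cos (a * θ)) * (r θ / θ) := by
    intro a
    have := hrc.measurable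
    fun_prop
  have hr3 : ∀ θ, 0 ≤ θ → θ * r θ ≤ C ^ 2 * (1 + θ ^ 2)⁻¹ := by
    intro θ hθ
    have h1 := (hF θ).1
    have h2 : 0 < 1 + θ ^ 2 := by positivity
    have h3 : r θ ≤ (C / (1 + θ ^ 2)) ^ 2 := pow_le_pow_left₀ (norm_nonneg _) h1 2
    have h4 : θ ≤ 1 + θ ^ 2 := by nlinarith
    calc θ * r θ ≤ (1 + θ ^ 2) * (C / (1 + θ ^ 2)) ^ 2 := mul_le_mul h4 h3 (hr0 θ) h2.le
      _ = C ^ 2 * (1 + θ ^ 2)⁻¹ := by field_simp
  have hbd : ∀ a θ : ℝ, 0 < θ → |(1 - Real.cos (a * θ)) * (r θ / θ)| ≤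
      (a ^ 2 * C ^ 2 / 2) * (1 + θ ^ 2)⁻¹ := by
    intro a θ hθ
    have e : (1 - Real.cos (a * θ)) * (r θ / θ) = (1 - Real.cos (a * θ)) / θ * r θ := by ring
    rw [e, abs_mul, abs_of_nonneg (hr0 θ)]
    calc _ ≤ a ^ 2 * θ / 2 * r θ := mul_le_mul_of_nonneg_right (abs_quot hθ) (hr0 θ)
      _ = a ^ 2 / 2 * (θ * r θ) := by ring
      _ ≤ a ^ 2 / 2 * (C ^ 2 * (1 + θ ^ 2)⁻¹) :=
          mul_le_mul_of_nonneg_left (hr3 θ hθ.le) (by positivity)
      _ = _ := by ring
  have hint : ∀ a : ℝ, IntegrableOn (fun θ : ℝ => (1 - Real.cos (a * θ)) * (r θ / θ)) (Ioi 0) := by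
    intro a
    refine Integrable.mono' ((integrable_inv_one_add_sq.const_mul (a ^ 2 * C ^ 2 / 2)).integrableOn)
      (hmeas a).aestronglyMeasurable ?_
    refine (ae_restrict_iff' measurableSet_Ioi).2 (Eventually.of_forall fun θ hθ => ?_)
    rw [Real.norm_eq_abs]
    exact hbd a θ hθ
  refine ⟨fun v => hint (2 * Real.pi * v), 2 * C ^ 2 * Real.pi + (2 * (C + 1)) + 40, by positivity,
    fun v hv => ?_⟩
  set a := 2 * Real.pi * v with ha
  have hJ : JJ v = (∫ θ in Ioc (0:ℝ) 1, (1 - Real.cos (a * θ)) * (r θ / θ)) +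
      ∫ θ in Ioi (1:ℝ), (1 - Real.cos (a * θ)) * (r θ / θ) := by
    have hd : Disjoint (Ioc (0:ℝ) 1) (Ioi (1:ℝ)) :=
      Set.disjoint_left.2 fun x hx hx' => not_lt.2 hx.2 hx'
    have h0 := setIntegral_union hd measurableSet_Ioi
      ((hint a).mono_set (Ioc_subset_Ioi_self : Ioc (0:ℝ) 1 ⊆ Ioi 0))
      ((hint a).mono_set (Ioi_subset_Ioi zero_le_one : Ioi (1:ℝ) ⊆ Ioi 0))
    rw [Ioc_union_Ioi_eq_Ioi (zero_le_one : (0:ℝ) ≤ 1)] at h0
    exact h0
  have hA : |∫ θ in Ioi (1:ℝ), (1 - Real.cos (a * θ)) * (r θ / θ)| ≤ 2 * C ^ 2 * Real.pi := by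
    have h1 : |∫ θ in Ioi (1:ℝ), (1 - Real.cos (a * θ)) * (r θ / θ)| ≤
        ∫ θ in Ioi (1:ℝ), 2 * C ^ 2 * (1 + θ ^ 2)⁻¹ := by
      rw [← Real.norm_eq_abs]
      refine norm_integral_le_of_norm_le
        ((integrable_inv_one_add_sq.const_mul (2 * C ^ 2)).integrableOn) ?_
      refine (ae_restrict_iff' measurableSet_Ioi).2 (Eventually.of_forall fun θ hθ => ?_)
      have hθ1 : (1:ℝ) < θ := hθ
      have hθ0 : 0 < θ := by linarith
      obtain ⟨c1, c2, -⟩ := one_sub_cos (a * θ)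
      rw [Real.norm_eq_abs, abs_mul, abs_of_nonneg c1, abs_div, abs_of_nonneg (hr0 θ),
        abs_of_pos hθ0]
      have h3 : r θ / θ ≤ C ^ 2 * (1 + θ ^ 2)⁻¹ := by
        refine le_trans ?_ (hr3 θ hθ0.le)
        rw [div_le_iff₀ hθ0]
        have : 1 ≤ θ * θ := by nlinarith
        nlinarith [hr0 θ]
      calc _ ≤ 2 * (C ^ 2 * (1 + θ ^ 2)⁻¹) :=
            mul_le_mul c2 h3 (div_nonneg (hr0 θ) hθ0.le) (by norm_num)
        _ = _ := by ring
    refine h1.trans ?_
    have h4 : ∫ θ in Ioi (1:ℝ), 2 * C ^ 2 * (1 + θ ^ 2)⁻¹ ≤ ∫ θ : ℝ, 2 * C ^ 2 * (1 + θ ^ 2)⁻¹ :=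
      setIntegral_le_integral (integrable_inv_one_add_sq.const_mul (2 * C ^ 2))
        (Eventually.of_forall fun θ => by positivity)
    have h5 : ∫ θ : ℝ, 2 * C ^ 2 * (1 + θ ^ 2)⁻¹ = 2 * C ^ 2 * Real.pi := by
      rw [integral_const_mul, integral_univ_inv_one_add_sq]
    exact h4.trans h5.le
  have hB : |(∫ θ in Ioc (0:ℝ) 1, (1 - Real.cos (a * θ)) * (r θ / θ)) -
      ∫ θ in (0:ℝ)..1, (1 - Real.cos (a * θ)) / θ| ≤ 2 * (C + 1) := by
    rw [intervalIntegral.integral_of_le zero_le_one, ← integral_sub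
      ((hint a).mono_set Ioc_subset_Ioi_self)
      ((intervalIntegrable_iff_integrableOn_Ioc_of_le zero_le_one).1 (intg_quot a 1 zero_le_one))]
    rw [← Real.norm_eq_abs]
    have := norm_setIntegral_le_of_norm_le_const (μ := volume) (s := Ioc (0:ℝ) 1)
      (f := fun θ => (1 - Real.cos (a * θ)) * (r θ / θ) - (1 - Real.cos (a * θ)) / θ)
      (C := 2 * (C + 1)) (by simp) (by
        intro θ hθ
        have hθ0 : 0 < θ := hθ.1
        obtain ⟨c1, c2, -⟩ := one_sub_cos (a * θ)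
        have e : (1 - Real.cos (a * θ)) * (r θ / θ) - (1 - Real.cos (a * θ)) / θ =
            (1 - Real.cos (a * θ)) * ((r θ - 1) / θ) := by ring
        rw [e, Real.norm_eq_abs, abs_mul, abs_of_nonneg c1, abs_div, abs_of_pos hθ0]
        have h3 : |r θ - 1| / θ ≤ C + 1 := by
          rw [div_le_iff₀ hθ0]; exact hr2 θ hθ0.le
        exact mul_le_mul c2 h3 (by positivity) (by norm_num))
    simpa using this
  have hM := main v hv
  rw [hJ]
  have hA' := abs_le.1 hA
  have hB' := abs_le.1 hB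
  have hM' := abs_le.1 hM
  rw [← ha] at hM'
  rw [abs_le]
  constructor <;> linarith [hA'.1, hA'.2, hB'.1, hB'.2, hM'.1, hM'.2]

end Pool.Agent.H203.ME
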