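import Pool.Agent.H203.ME.Defs4

set_option autoImplicit false

/-! Stage 4, leaf NRM: sums of unfolded gaps and differences of ordinates. -/

open Complex Filter Topology Set MeasureTheory ProbabilityTheory
open scoped BoundedContinuousFunction

namespace Pool.Agent.H203.ME

namespace NRML

theorem nz_ge (a b : ℝ) (ha : 1 ≤ a) (hab : a ≤ b) :
    SG.NZ a + H370.NN riemannZeta a b ≤ SG.NZ b := by
  rw [H370.NN_eq H370.good_zeta ha]
  apply SG.NZ_add_le a b hab
  intro s hs
  rw [H370.mem_Zf H370.good_zeta ha] at hs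
  obtain ⟨h1, h2, h3, h4, h5⟩ := hs
  exact ⟨⟨h5, h1, h2, by linarith, h4⟩, h3⟩

theorem lt_ord {n : ℕ} {T : ℝ} (hn : SG.NZ T < n) : T < SG.ord n := by
  by_contra h
  push Not at h
  have := (SG.ord_le_iff (by omega : 1 ≤ n) T).mp h
  omega

theorem nz_large : ∃ T0 : ℝ, 10 ≤ T0 ∧ ∀ T : ℝ, T0 ≤ T →
    (SG.NZ (2 * T) : ℝ) + Real.log T ≤ SG.NZ (4 * T) := by
  obtain ⟨C, T1, hC, hT1, hasy⟩ := H370.nn_asymp H370.good_zeta
  refine ⟨max T1 (Real.exp (2 * Real.pi * (C + 1))), hT1.trans (le_max_left _ _), ?_⟩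
  intro T hT
  have hT1' : T1 ≤ T := (le_max_left _ _).trans hT
  have hT2 : Real.exp (2 * Real.pi * (C + 1)) ≤ T := (le_max_right _ _).trans hT
  have hT0 : 0 < T := by linarith
  have h1 := hasy (2 * T) (by linarith) (2 * T) (4 * T) le_rfl (by linarith) (by linarith)
    (by linarith)
  rw [abs_le] at h1
  have h2 := h1.1
  have hpi := Real.pi_pos
  have h3 : 2 * Real.pi * (C + 1) ≤ Real.log T := by
    rw [Real.le_log_iff_exp_le hT0]
    exact hT2
  have h4 : Real.log T ≤ Real.log (2 * T) := Real.log_le_log hT0 (by linarith)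
  have h5 : 2 * T * (C + 1) ≤ 2 * T * Real.log (2 * T) / (2 * Real.pi) := by
    rw [le_div_iff₀ (by positivity)]
    have : 2 * Real.pi * (C + 1) ≤ Real.log (2 * T) := h3.trans h4
    nlinarith
  have h6 : Real.log T ≤ T := (Real.log_le_sub_one_of_pos hT0).trans (by linarith)
  have h7 : (SG.NZ (2 * T) : ℝ) + (H370.NN riemannZeta (2 * T) (4 * T) : ℝ) ≤ SG.NZ (4 * T) := by
    exact_mod_cast nz_ge (2 * T) (4 * T) (by linarith) (by linarith)
  nlinarith

end NRML

theorem t_NRM : S_NRM := by
  obtain ⟨T0, hT0, hbig⟩ := NRML.nz_large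
  refine ⟨T0, hT0, ?_⟩
  intro T hT n u h1 h2 hu
  have hTp : 0 < T := by linarith
  have hn1 : 1 ≤ n := by omega
  have hpi := Real.pi_pos
  have hb : n + u ≤ SG.NZ (4 * T) := by
    have h3 := hbig T hT
    have h4 : (n : ℝ) ≤ SG.NZ (2 * T) := by exact_mod_cast h2
    have h5 : ((n + u : ℕ) : ℝ) ≤ SG.NZ (4 * T) := by
      push_cast
      linarith
    exact_mod_cast h5
  have hlow : ∀ i : ℕ, T < SG.ord (n + i) := fun i => NRML.lt_ord (by omega)
  have hupp : ∀ i : ℕ, i ≤ u → SG.ord (n + i) ≤ 4 * T := fun i hi =>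
    (SG.ord_le_iff (by omega) _).mpr (by omega)
  have hmono : ∀ i : ℕ, 0 ≤ SG.ord (n + (i + 1)) - SG.ord (n + i) := fun i =>
    sub_nonneg.mpr (SG.ord_mono (by omega) (by omega))
  have htel := Finset.sum_range_sub (fun i => SG.ord (n + i)) u
  simp only [add_zero] at htel
  have e1 : ∑ i ∈ Finset.range u, dl (n + i) -
      (SG.ord (n + u) - SG.ord n) * Real.log T / (2 * Real.pi) =
      ∑ i ∈ Finset.range u, (SG.ord (n + (i + 1)) - SG.ord (n + i)) / (2 * Real.pi) *
        (Real.log (SG.ord (n + i) / (2 * Real.pi)) - Real.log T) := by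
    rw [← htel, Finset.sum_mul, Finset.sum_div, ← Finset.sum_sub_distrib]
    apply Finset.sum_congr rfl
    intro i _
    unfold dl
    rw [← add_assoc]
    ring
  rw [e1]
  refine (Finset.abs_sum_le_sum_abs _ _).trans ?_
  rw [← htel]
  apply Finset.sum_le_sum
  intro i hi
  rw [Finset.mem_range] at hi
  have hl := hlow i
  have hup := hupp i hi.le
  have hop : 0 < SG.ord (n + i) := by linarith
  have hkey : |Real.log (SG.ord (n + i) / (2 * Real.pi)) - Real.log T| ≤ 2 * Real.pi := by
    rw [← Real.log_div (by positivity) hTp.ne', abs_le]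
    constructor
    · rw [Real.le_log_iff_exp_le (by positivity)]
      have h3 : Real.exp (-(2 * Real.pi)) ≤ 1 / (2 * Real.pi) := by
        rw [Real.exp_neg, inv_eq_one_div]
        apply one_div_le_one_div_of_le (by positivity)
        linarith [Real.add_one_le_exp (2 * Real.pi)]
      refine h3.trans ?_
      rw [div_div, div_le_div_iff₀ (by positivity) (by positivity)]
      nlinarith
    · have h3 : SG.ord (n + i) / (2 * Real.pi) / T ≤ 1 := by
        rw [div_div, div_le_one (by positivity)]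
        have : 4 * T ≤ 2 * Real.pi * T := by nlinarith [Real.pi_gt_three]
        linarith
      have h4 : Real.log (SG.ord (n + i) / (2 * Real.pi) / T) ≤ 0 :=
        Real.log_nonpos (by positivity) h3
      linarith
  rw [abs_mul, abs_of_nonneg (by have := hmono i; positivity)]
  calc (SG.ord (n + (i + 1)) - SG.ord (n + i)) / (2 * Real.pi) *
        |Real.log (SG.ord (n + i) / (2 * Real.pi)) - Real.log T|
      ≤ (SG.ord (n + (i + 1)) - SG.ord (n + i)) / (2 * Real.pi) * (2 * Real.pi) := by
        apply mul_le_mul_of_nonneg_left hkey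
        have := hmono i
        positivity
    _ = SG.ord (n + (i + 1)) - SG.ord (n + i) := by
        field_simp

end Pool.Agent.H203.ME
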