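import Pool.Agent.H203.ME.Defs4

set_option autoImplicit false

/-! Variance of a combination of smoothed indicator functions. -/

open Complex Filter Topology Set MeasureTheory ProbabilityTheory

namespace Pool.Agent.H203.ME

namespace SGFL

theorem normSq_comb (k : ℕ) (a c : Fin k → ℝ) :
    ‖∑ j, (c j : ℂ) * (1 - cexp (-((a j : ℂ) * I)))‖ ^ 2 =
      ∑ i, ∑ j, c i * c j *
        ((1 - Real.cos (a i)) + (1 - Real.cos (a j)) - (1 - Real.cos (a i - a j))) := by
  have h0 : ∀ j, (c j : ℂ) * (1 - cexp (-((a j : ℂ) * I))) =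
      ((c j * (1 - Real.cos (a j)) : ℝ) : ℂ) + ((c j * Real.sin (a j) : ℝ) : ℂ) * I := by
    intro j
    rw [← neg_mul, Complex.exp_mul_I, Complex.cos_neg, Complex.sin_neg]
    push_cast
    ring
  have h1 : (∑ j, (c j : ℂ) * (1 - cexp (-((a j : ℂ) * I)))).re = ∑ j, c j * (1 - Real.cos (a j)) := by
    rw [Complex.re_sum]
    refine Finset.sum_congr rfl fun j _ => ?_
    rw [h0 j, Complex.add_re, Complex.ofReal_re, Complex.re_ofReal_mul, Complex.I_re, mul_zero,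
      add_zero]
  have h2 : (∑ j, (c j : ℂ) * (1 - cexp (-((a j : ℂ) * I)))).im = ∑ j, c j * Real.sin (a j) := by
    rw [Complex.im_sum]
    refine Finset.sum_congr rfl fun j _ => ?_
    rw [h0 j, Complex.add_im, Complex.ofReal_im, Complex.im_ofReal_mul, Complex.I_im, mul_one,
      zero_add]
  rw [Complex.sq_norm, Complex.normSq_apply, h1, h2, Finset.sum_mul_sum, Finset.sum_mul_sum,
    ← Finset.sum_add_distrib]
  refine Finset.sum_congr rfl fun i _ => ?_
  rw [← Finset.sum_add_distrib]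
  refine Finset.sum_congr rfl fun j _ => ?_
  rw [Real.cos_sub]
  ring

theorem Pv_int (hb : S_PVB) {L : ℝ} (hL : 0 < L) (v : ℝ) : Integrable (Pv L v) := by
  obtain ⟨h5, _, h0, h1, _⟩ := hb
  have hs := h5.continuous
  have hc : Continuous (Pv L v) := by
    unfold Pv
    exact (hs.comp (continuous_const.mul continuous_id)).sub
      (hs.comp ((continuous_const.mul continuous_id).sub continuous_const))
  have hpi := Real.pi_pos
  have hv1 := le_abs_self v
  have hv2 := neg_abs_le v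
  have hp1 : 2 * Real.pi * v ≤ 2 * Real.pi * |v| := by nlinarith
  have hp2 : -(2 * Real.pi * |v|) ≤ 2 * Real.pi * v := by nlinarith
  have hp3 : 0 ≤ 2 * Real.pi * |v| := by positivity
  refine hc.integrable_of_hasCompactSupport
    (HasCompactSupport.of_support_subset_isCompact
      (isCompact_Icc (a := -((1 + 2 * Real.pi * |v|) / L)) (b := (1 + 2 * Real.pi * |v|) / L)) ?_)
  intro x hx
  by_contra hx'
  apply hx
  unfold Pv
  rw [Set.mem_Icc, not_and_or, not_le, not_le] at hx'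
  rcases hx' with hx' | hx'
  · have h3 : L * x < -(1 + 2 * Real.pi * |v|) := by
      rw [← neg_div, lt_div_iff₀ hL] at hx'
      linarith
    rw [h0 _ (by linarith), h0 _ (by linarith), sub_zero]
  · have h3 : 1 + 2 * Real.pi * |v| < L * x := by
      rw [div_lt_iff₀ hL] at hx'
      linarith
    rw [h1 _ (by linarith), h1 _ (by linarith), sub_self]

theorem FF_comb (hb : S_PVB) {L : ℝ} (hL : 0 < L) (k : ℕ) (v c : Fin k → ℝ) (ξ : ℝ) :
    FF (fun x => ∑ j, c j * Pv L (v j) x) ξ = ∑ j, (c j : ℂ) * FF (Pv L (v j)) ξ := by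
  unfold FF
  have h1 : ∀ s : ℝ, ((∑ j, c j * Pv L (v j) s : ℝ) : ℂ) * cexp (-(((ξ * s : ℝ) : ℂ) * I)) =
      ∑ j, (c j : ℂ) * ((Pv L (v j) s : ℂ) * cexp (-(((ξ * s : ℝ) : ℂ) * I))) := by
    intro s
    rw [Complex.ofReal_sum, Finset.sum_mul]
    refine Finset.sum_congr rfl fun j _ => ?_
    rw [Complex.ofReal_mul, mul_assoc]
  have h2 : ∀ j, Integrable (fun s : ℝ => (Pv L (v j) s : ℂ) * cexp (-(((ξ * s : ℝ) : ℂ) * I))) := by
    intro j
    have h3 := Pv_int hb hL (v j)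
    refine h3.norm.mono' ?_ ?_
    · exact h3.ofReal.aestronglyMeasurable.mul (Continuous.aestronglyMeasurable (by fun_prop))
    · refine Filter.Eventually.of_forall fun s => ?_
      rw [norm_mul, ← neg_mul, ← Complex.ofReal_neg, Complex.norm_exp_ofReal_mul_I, mul_one,
        Complex.norm_real]
  simp_rw [h1]
  rw [integral_finsetSum _ fun j _ => (h2 j).const_mul _]
  exact Finset.sum_congr rfl fun j _ => integral_const_mul _ _

/-- the integrand of the variance -/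
noncomputable def gg (v θ : ℝ) : ℝ :=
  (1 - Real.cos (2 * Real.pi * v * θ)) * (‖FF (deriv sst) θ‖ ^ 2 / θ)

theorem gg_int (hj : S_JB) {L : ℝ} (hL : 0 < L) (v : ℝ) :
    IntegrableOn (fun ξ => L⁻¹ * gg v (L⁻¹ * ξ)) (Ioi 0) := by
  have h1 : IntegrableOn (gg v) (Ioi 0) := hj.1 v
  have h2 := (integrableOn_Ioi_comp_mul_left_iff (gg v) 0 (inv_pos.2 hL)).2 (by rwa [mul_zero])
  exact h2.const_mul _

theorem gg_val {L : ℝ} (hL : 0 < L) (v : ℝ) :
    ∫ ξ in Ioi (0 : ℝ), L⁻¹ * gg v (L⁻¹ * ξ) = JJ v := by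
  rw [integral_const_mul, integral_comp_mul_left_Ioi (gg v) 0 (inv_pos.2 hL), mul_zero, inv_inv,
    smul_eq_mul, ← mul_assoc, inv_mul_cancel₀ hL.ne', one_mul]
  rfl

theorem pt (hb : S_PVB) (hf : S_FPV) {L : ℝ} (hL : 0 < L) (k : ℕ) (v c : Fin k → ℝ) {ξ : ℝ}
    (hξ : 0 < ξ) : ξ * ‖FF (fun x => ∑ j, c j * Pv L (v j) x) ξ‖ ^ 2 =
      ∑ i, ∑ j, c i * c j * (L⁻¹ * gg (v i) (L⁻¹ * ξ) + L⁻¹ * gg (v j) (L⁻¹ * ξ) -
        L⁻¹ * gg (v i - v j) (L⁻¹ * ξ)) := by
  rw [FF_comb hb hL]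
  have h1 : ∑ j, (c j : ℂ) * FF (Pv L (v j)) ξ =
      (∑ j, (c j : ℂ) * (1 - cexp (-(((2 * Real.pi * v j * (ξ / L) : ℝ) : ℂ) * I)))) *
        (FF (deriv sst) (ξ / L) / (I * (ξ : ℂ))) := by
    rw [Finset.sum_mul]
    refine Finset.sum_congr rfl fun j _ => ?_
    rw [hf.2 L (v j) ξ hL hξ.ne']
    ring
  have h2 : ξ * ‖FF (deriv sst) (ξ / L) / (I * (ξ : ℂ))‖ ^ 2 =
      L⁻¹ * (‖FF (deriv sst) (L⁻¹ * ξ)‖ ^ 2 / (L⁻¹ * ξ)) := by
    have h3 : ξ / L = L⁻¹ * ξ := by rw [div_eq_mul_inv, mul_comm]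
    rw [norm_div, norm_mul, Complex.norm_I, one_mul, Complex.norm_real, Real.norm_of_nonneg hξ.le, h3]
    have h4 := hξ.ne'
    have h5 := hL.ne'
    field_simp
  rw [h1, norm_mul, mul_pow, mul_left_comm, h2,
    normSq_comb k (fun j => 2 * Real.pi * v j * (ξ / L)) c, Finset.sum_mul]
  refine Finset.sum_congr rfl fun i _ => ?_
  rw [Finset.sum_mul]
  refine Finset.sum_congr rfl fun j _ => ?_
  unfold gg
  have h6 : 2 * Real.pi * v i * (ξ / L) - 2 * Real.pi * v j * (ξ / L) =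
      2 * Real.pi * (v i - v j) * (L⁻¹ * ξ) := by
    rw [div_eq_mul_inv]; ring
  have h7 : ∀ w : ℝ, 2 * Real.pi * w * (ξ / L) = 2 * Real.pi * w * (L⁻¹ * ξ) := by
    intro w
    rw [div_eq_mul_inv]; ring
  rw [h6, h7 (v i), h7 (v j)]
  ring

end SGFL

open SGFL in
theorem t_SGF (hb : S_PVB) (hf : S_FPV) (hj : S_JB) : S_SGF := by
  intro k L v c hL
  unfold sg
  congr 1
  rw [setIntegral_congr_fun measurableSet_Ioi fun ξ hξ => pt hb hf hL k v c hξ]
  have hI : ∀ i j, IntegrableOn (fun ξ => c i * c j * (L⁻¹ * gg (v i) (L⁻¹ * ξ) +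
      L⁻¹ * gg (v j) (L⁻¹ * ξ) - L⁻¹ * gg (v i - v j) (L⁻¹ * ξ))) (Ioi 0) := fun i j =>
    (((gg_int hj hL (v i)).add (gg_int hj hL (v j))).sub (gg_int hj hL (v i - v j))).const_mul _
  rw [integral_finsetSum _ fun i _ => integrable_finsetSum _ fun j _ => hI i j]
  refine Finset.sum_congr rfl fun i _ => ?_
  rw [integral_finsetSum _ fun j _ => hI i j]
  refine Finset.sum_congr rfl fun j _ => ?_
  rw [integral_const_mul]
  congr 1
  have hs := integral_sub ((gg_int hj hL (v i)).add (gg_int hj hL (v j))) (gg_int hj hL (v i - v j))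
  have ha := integral_add (gg_int hj hL (v i)) (gg_int hj hL (v j))
  rw [gg_val hL, gg_val hL] at ha
  rw [gg_val hL] at hs
  exact hs.trans (congrArg (fun z => z - JJ (v i - v j)) ha)

end Pool.Agent.H203.ME
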