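import Mathlib

set_option autoImplicit false

open Filter Topology Set

namespace Pool.Agent.H203.ME

/-- from arbitrary slowly growing functions to a uniform statement -/
theorem unif_of_seq {P : ℕ → ℕ → ℝ} {c : ℝ}
    (h : ∀ r : ℕ → ℕ, Tendsto r atTop atTop → Tendsto (fun N : ℕ => (r N : ℝ) / Real.log N) atTop (𝓝 0) →
      Tendsto (fun N => P N (r N)) atTop (𝓝 c)) (ε : ℝ) (hε : 0 < ε) :
    ∃ r0 : ℕ, ∃ κ : ℝ, 0 < κ ∧ ∃ N0 : ℕ, ∀ N : ℕ, N0 ≤ N → ∀ r : ℕ, r0 ≤ r → (r : ℝ) ≤ κ * Real.log N →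
      |P N r - c| ≤ ε := by
  by_contra hcon
  push Not at hcon
  have hfreq : ∀ m : ℕ, ∃ᶠ N : ℕ in atTop, ∃ r : ℕ, m ≤ r ∧ (r : ℝ) ≤ 1 / ((m : ℝ) + 1) * Real.log N ∧ ε < |P N r - c| := by
    intro m
    rw [frequently_atTop]
    intro N0
    obtain ⟨N, hN, r, h1, h2, h3⟩ := hcon m (1 / ((m : ℝ) + 1)) (by positivity) N0
    exact ⟨N, hN, r, h1, h2, h3⟩
  obtain ⟨φ, hφ, hP⟩ := extraction_forall_of_frequently hfreq
  choose ρ h1 h2 h3 using hP
  classical
  set s : ℕ → ℕ := fun N => ⌊Real.sqrt (Real.log N)⌋₊ with hs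
  set r : ℕ → ℕ := fun N => if hN : ∃ m, φ m = N then ρ hN.choose else s N with hr
  have hrφ : ∀ m, r (φ m) = ρ m := by
    intro m
    have hN : ∃ m', φ m' = φ m := ⟨m, rfl⟩
    simp only [hr, dif_pos hN]
    congr 1
    exact hφ.injective hN.choose_spec
  have hlog : Tendsto (fun N : ℕ => Real.log N) atTop atTop := Real.tendsto_log_atTop.comp tendsto_natCast_atTop_atTop
  have hsq : Tendsto (fun N : ℕ => Real.sqrt (Real.log N)) atTop atTop := Real.tendsto_sqrt_atTop.comp hlog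
  have hrt : Tendsto r atTop atTop := by
    rw [tendsto_atTop]
    intro M
    filter_upwards [hsq.eventually_ge_atTop (M : ℝ), eventually_ge_atTop (φ M)] with N a1 a2
    by_cases hN : ∃ m, φ m = N
    · obtain ⟨m, rfl⟩ := hN
      rw [hrφ]
      have : M ≤ m := (hφ.le_iff_le).1 a2
      exact this.trans (h1 m)
    · simp only [hr, dif_neg hN, hs]
      exact Nat.le_floor a1
  have hrl : Tendsto (fun N : ℕ => (r N : ℝ) / Real.log N) atTop (𝓝 0) := by
    rw [Metric.tendsto_nhds]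
    intro δ hδ
    obtain ⟨M, hM⟩ := exists_nat_gt (1 / δ)
    filter_upwards [hsq.eventually_gt_atTop (1 / δ), eventually_ge_atTop (φ M), hlog.eventually_gt_atTop 0] with N a1 a2 a3
    rw [Real.dist_eq, sub_zero, abs_of_nonneg (by positivity), div_lt_iff₀ a3]
    by_cases hN : ∃ m, φ m = N
    · obtain ⟨m, rfl⟩ := hN
      rw [hrφ]
      have h4 : M ≤ m := (hφ.le_iff_le).1 a2
      have h5 : (M : ℝ) ≤ m := by exact_mod_cast h4
      refine (h2 m).trans_lt ?_
      apply mul_lt_mul_of_pos_right _ a3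
      rw [div_lt_iff₀ (by positivity)]
      rw [div_lt_iff₀ hδ] at hM
      nlinarith
    · simp only [hr, dif_neg hN, hs]
      have h4 : (⌊Real.sqrt (Real.log N)⌋₊ : ℝ) ≤ Real.sqrt (Real.log N) := Nat.floor_le (Real.sqrt_nonneg _)
      refine h4.trans_lt ?_
      have h5 : Real.sqrt (Real.log N) * Real.sqrt (Real.log N) = Real.log N := Real.mul_self_sqrt a3.le
      have h6 : 0 < Real.sqrt (Real.log N) := Real.sqrt_pos.2 a3
      rw [div_lt_iff₀ hδ] at a1
      nlinarith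
  have hlim := (h r hrt hrl).comp hφ.tendsto_atTop
  rw [Metric.tendsto_nhds] at hlim
  obtain ⟨m, hm⟩ := (hlim ε hε).exists
  have h4 := h3 m
  simp only [Function.comp_apply, hrφ] at hm
  rw [Real.dist_eq] at hm
  linarith

end Pool.Agent.H203.ME
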