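import Pool.Agent.H203.ME.Defs4

set_option autoImplicit false

/-! (WIN) pairs of zeros at a given distance, in windows of the size of the mean spacing. -/

open Complex Filter Topology Set MeasureTheory

namespace Pool.Agent.H203.ME

namespace WINL

open ZERL W2L

lemma dn_integrable (s γ : ℝ) : Integrable (dn s γ) := by
  unfold dn
  rw [integrable_indicator_iff measurableSet_Ico]
  exact integrableOn_const (by simp) (by simp)

lemma dn_integral (s γ : ℝ) (hs : 0 ≤ s) : ∫ t, dn s γ t = s := by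
  unfold dn
  rw [integral_indicator measurableSet_Ico, setIntegral_const, smul_eq_mul, mul_one,
    Real.volume_real_Ico_of_le (by linarith)]
  ring

lemma cnt_integrable (T s : ℝ) : Integrable (fun t => cnt T t (t + s)) := by
  have : (fun t => cnt T t (t + s)) = fun t =>
      ∑ z ∈ H370.Zf riemannZeta T (2 * T), (mz z : ℝ) * dn s z.im t := by
    funext t; exact cnt_eq T s t
  rw [this]
  exact integrable_finsetSum _ fun z _ => (dn_integrable s z.im).const_mul _

lemma cw_integrable (T s : ℝ) : Integrable (fun t => cw T t (t + s)) := by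
  have : (fun t => cw T t (t + s)) = fun t =>
      ∑ z ∈ H370.Zf riemannZeta T (2 * T), (mz z : ℝ) * ww T z * dn s z.im t := by
    funext t; exact cw_eq T s t
  rw [this]
  exact integrable_finsetSum _ fun z _ => (dn_integrable s z.im).const_mul _

lemma sq_integrable {f : ℝ → ℝ} (hf : Integrable f) {K : ℝ} (hK : ∀ t, |f t| ≤ K) :
    Integrable (fun t => f t ^ 2) := by
  have h := hf.bdd_mul hf.aestronglyMeasurable (c := K) (Eventually.of_forall fun t => by
    rw [Real.norm_eq_abs]; exact hK t)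
  refine h.congr (Eventually.of_forall fun t => ?_)
  simp only
  ring

lemma cnt_sq_integrable (T s : ℝ) : Integrable (fun t => cnt T t (t + s) ^ 2) :=
  sq_integrable (cnt_integrable T s) (K := tot T) fun t => by
    rw [abs_of_nonneg (cnt_nonneg _ _ _)]; exact cnt_le_tot _ _ _

lemma cw_nonneg (T a b : ℝ) : 0 ≤ cw T a b := by
  unfold cw
  refine Finset.sum_nonneg fun z _ => mul_nonneg (mul_nonneg (Nat.cast_nonneg _) ?_)
    (indicator_nonneg (fun _ _ => zero_le_one) _)
  have := ww_one T z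
  linarith

lemma cw_le (T a b : ℝ) : cw T a b ≤ ∑ z ∈ H370.Zf riemannZeta T (2 * T), (mz z : ℝ) * ww T z := by
  unfold cw
  refine Finset.sum_le_sum fun z _ => ?_
  have h1 : (Ioc a b).indicator (fun _ => (1 : ℝ)) z.im ≤ 1 := by
    by_cases h : z.im ∈ Ioc a b
    · rw [indicator_of_mem h]
    · rw [indicator_of_notMem h]; exact zero_le_one
  have h2 : 0 ≤ (mz z : ℝ) * ww T z := by
    have := ww_one T z
    positivity
  calc (mz z : ℝ) * ww T z * (Ioc a b).indicator (fun _ => (1 : ℝ)) z.im ≤ (mz z : ℝ) * ww T z * 1 :=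
        mul_le_mul_of_nonneg_left h1 h2
    _ = _ := mul_one _

lemma cnt_le_cw (T a b : ℝ) : cnt T a b ≤ cw T a b := by
  unfold cnt cw
  refine Finset.sum_le_sum fun z _ => ?_
  have h1 : 0 ≤ (Ioc a b).indicator (fun _ => (1 : ℝ)) z.im := indicator_nonneg (fun _ _ => zero_le_one) _
  have h2 : (mz z : ℝ) ≤ (mz z : ℝ) * ww T z := by
    have := ww_one T z
    have h3 : (0 : ℝ) ≤ mz z := Nat.cast_nonneg _
    nlinarith
  exact mul_le_mul_of_nonneg_right h2 h1

lemma int_cnt_sq (T s : ℝ) : ∫ t, cnt T t (t + s) ^ 2 ≤ ∫ t, cw T t (t + s) ^ 2 := by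
  refine integral_mono (cnt_sq_integrable T s) ?_ fun t => ?_
  · exact sq_integrable (cw_integrable T s) (K := ∑ z ∈ H370.Zf riemannZeta T (2 * T), (mz z : ℝ) * ww T z)
      fun t => by rw [abs_of_nonneg (cw_nonneg _ _ _)]; exact cw_le _ _ _
  · exact pow_le_pow_left₀ (cnt_nonneg _ _ _) (cnt_le_cw _ _ _) 2

/-- a window of five mean spacings -/
lemma cnt_five (T a s : ℝ) (hs : 0 ≤ s) : cnt T (a - 2 * s) (a + 3 * s) =
    cnt T (a - 2 * s) (a - 2 * s + s) + cnt T (a - s) (a - s + s) + cnt T a (a + s) +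
      cnt T (a + s) (a + s + s) + cnt T (a + 2 * s) (a + 2 * s + s) := by
  have h1 := cnt_add T (a - 2 * s) s (4 * s) hs (by linarith)
  have h2 := cnt_add T (a - s) s (3 * s) hs (by linarith)
  have h3 := cnt_add T a s (2 * s) hs (by linarith)
  have h4 := cnt_add T (a + s) s s hs hs
  have e1 : a - 2 * s + s + 4 * s = a + 3 * s := by ring
  have e2 : a - 2 * s + s = a - s := by ring
  have e3 : a - s + s + 3 * s = a + 3 * s := by ring
  have e4 : a - s + s = a := by ring
  have e5 : a + s + 2 * s = a + 3 * s := by ring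
  have e6 : a + s + s + s = a + 3 * s := by ring
  have e7 : a + s + s = a + 2 * s := by ring
  have e8 : a + 2 * s + s = a + 3 * s := by ring
  rw [e1, e2] at h1
  rw [e3, e4] at h2
  rw [e5] at h3
  rw [e6, e7] at h4
  rw [e2, e4, e7, e8, h1, h2, h3, h4]
  ring

lemma shift_sq (T s c : ℝ) : Integrable (fun t => cnt T (t + c) (t + c + s) ^ 2) ∧
    ∫ t, cnt T (t + c) (t + c + s) ^ 2 = ∫ t, cnt T t (t + s) ^ 2 := by
  refine ⟨(cnt_sq_integrable T s).comp_add_right c, ?_⟩
  exact integral_add_right_eq_self (fun t => cnt T t (t + s) ^ 2) c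

/-- the sum over the zeros away from the ends -/
lemma pair_le (T s h : ℝ) (hs : 0 < s) :
    s * ∑ z ∈ H370.Zf riemannZeta T (2 * T), (mz z : ℝ) * cnt T (z.im + h - 2 * s) (z.im + h + 2 * s) ≤
      13 * ∫ t, cnt T t (t + s) ^ 2 := by
  set M : ℝ → ℝ := fun t => cnt T (t + h - 2 * s) (t + h + 3 * s) with hM
  set J := ∫ t, cnt T t (t + s) ^ 2 with hJ
  have hMmeas : Measurable M := by
    have h0 := cnt_meas T (5 * s)
    have h1 : M = (fun t => cnt T t (t + 5 * s)) ∘ fun t => t + (h - 2 * s) := by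
      funext t
      simp only [hM, Function.comp]
      congr 1 <;> ring
    rw [h1]
    exact h0.comp (measurable_id.add_const _)
  have hMb : ∀ t, |M t| ≤ tot T := fun t => by
    rw [abs_of_nonneg (cnt_nonneg _ _ _)]; exact cnt_le_tot _ _ _
  have hprod : ∀ γ, Integrable (fun t => dn s γ t * M t) := fun γ => by
    have := (dn_integrable s γ).bdd_mul (hMmeas.aestronglyMeasurable) (c := tot T)
      (Eventually.of_forall fun t => by rw [Real.norm_eq_abs]; exact hMb t)
    refine this.congr (Eventually.of_forall fun t => ?_)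
    simp only
    ring
  -- each zero
  have h1 : ∀ γ, s * cnt T (γ + h - 2 * s) (γ + h + 2 * s) ≤ ∫ t, dn s γ t * M t := by
    intro γ
    have e0 : s * cnt T (γ + h - 2 * s) (γ + h + 2 * s) =
        ∫ t, dn s γ t * cnt T (γ + h - 2 * s) (γ + h + 2 * s) := by
      rw [integral_mul_const, dn_integral s γ hs.le]
    rw [e0]
    refine integral_mono ((dn_integrable s γ).mul_const _) (hprod γ) fun t => ?_
    simp only
    by_cases ht : t ∈ Ico (γ - s) γ
    · refine mul_le_mul_of_nonneg_left ?_ (dn_nonneg _ _ _)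
      exact cnt_mono T (by linarith [ht.2]) (by linarith [ht.1])
    · have : dn s γ t = 0 := by unfold dn; exact indicator_of_notMem ht _
      rw [this]; simp
  have h2 : s * ∑ z ∈ H370.Zf riemannZeta T (2 * T), (mz z : ℝ) * cnt T (z.im + h - 2 * s) (z.im + h + 2 * s) ≤
      ∫ t, cnt T t (t + s) * M t := by
    have e : (fun t => cnt T t (t + s) * M t) = fun t =>
        ∑ z ∈ H370.Zf riemannZeta T (2 * T), (mz z : ℝ) * (dn s z.im t * M t) := by
      funext t
      rw [cnt_eq, Finset.sum_mul]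
      exact Finset.sum_congr rfl fun z _ => by ring
    rw [e, integral_finsetSum _ fun z _ => (hprod z.im).const_mul _, Finset.mul_sum]
    refine Finset.sum_le_sum fun z _ => ?_
    rw [integral_const_mul]
    have h3 := mul_le_mul_of_nonneg_left (h1 z.im) (Nat.cast_nonneg (α := ℝ) (mz z))
    linarith
  -- Cauchy-Schwarz
  set N : ℝ → ℝ := fun t => cnt T t (t + s) with hN
  have hNi : Integrable fun t => N t ^ 2 := cnt_sq_integrable T s
  have hsh : ∀ c, Integrable (fun t => N (t + c) ^ 2) ∧ ∫ t, N (t + c) ^ 2 = J := fun c => shift_sq T s c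
  set c : ℕ → ℝ := fun i => h + ((i : ℝ) - 2) * s with hc
  have hpt : ∀ t, N t * M t ≤ 1 / 2 * N t ^ 2 + 5 / 2 * ∑ i ∈ Finset.range 5, N (t + c i) ^ 2 := by
    intro t
    have e := cnt_five T (t + h) s hs.le
    have e1 : M t = ∑ i ∈ Finset.range 5, N (t + c i) := by
      simp only [Finset.sum_range_succ, Finset.sum_range_zero, hM, hN, hc, zero_add]
      rw [e]
      push_cast
      congr 1
      · congr 1
        · congr 1
          · congr 1
            · congr 1 <;> ring
            · congr 1 <;> ring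
          · congr 1 <;> ring
        · congr 1 <;> ring
      · congr 1 <;> ring
    have h5 : (∑ i ∈ Finset.range 5, N (t + c i)) ^ 2 ≤ 5 * ∑ i ∈ Finset.range 5, N (t + c i) ^ 2 := by
      have := sq_sum_le_card_mul_sum_sq (s := Finset.range 5) (f := fun i => N (t + c i))
      simpa using this
    rw [e1]
    nlinarith [sq_nonneg (N t - ∑ i ∈ Finset.range 5, N (t + c i))]
  have hi5 : Integrable (fun t => ∑ i ∈ Finset.range 5, N (t + c i) ^ 2) :=
    integrable_finsetSum _ fun i _ => (hsh (c i)).1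
  have hI : ∫ t, ∑ i ∈ Finset.range 5, N (t + c i) ^ 2 = 5 * J := by
    rw [integral_finsetSum _ fun i _ => (hsh (c i)).1]
    rw [Finset.sum_congr rfl fun i _ => (hsh (c i)).2]
    simp
  have hright : Integrable (fun t => 1 / 2 * N t ^ 2 + 5 / 2 * ∑ i ∈ Finset.range 5, N (t + c i) ^ 2) :=
    (hNi.const_mul _).add (hi5.const_mul _)
  refine h2.trans ((integral_mono_of_nonneg (Eventually.of_forall fun t =>
    mul_nonneg (cnt_nonneg _ _ _) (cnt_nonneg _ _ _)) hright (Eventually.of_forall hpt)).trans ?_)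
  rw [integral_add (hNi.const_mul _) (hi5.const_mul _), integral_const_mul, integral_const_mul, hI]
  have : ∫ t, N t ^ 2 = J := rfl
  rw [this]
  linarith

/-- the number of zeros in a window inside `(T, 2T]` -/
lemma NN_eq_cnt {T a b : ℝ} (hT : 1 ≤ T) (ha : T ≤ a) (hb : b ≤ 2 * T) :
    (H370.NN riemannZeta a b : ℝ) = cnt T a b := by
  classical
  rw [H370.NN_eq H370.good_zeta (hT.trans ha)]
  push_cast
  unfold cnt
  have hsub : H370.Zf riemannZeta a b = (H370.Zf riemannZeta T (2 * T)).filter (fun z => z.im ∈ Ioc a b) := by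
    ext z
    rw [Finset.mem_filter, H370.mem_Zf H370.good_zeta (hT.trans ha), H370.mem_Zf H370.good_zeta hT]
    constructor
    · rintro ⟨h1, h2, h3, h4, h5⟩
      exact ⟨⟨h1, h2, by linarith, by linarith, h5⟩, h3, h4⟩
    · rintro ⟨⟨h1, h2, h3, h4, h5⟩, h6, h7⟩
      exact ⟨h1, h2, h6, h7, h5⟩
  rw [hsub, Finset.sum_filter]
  refine Finset.sum_congr rfl fun z _ => ?_
  by_cases h : z.im ∈ Ioc a b
  · rw [if_pos h, indicator_of_mem h, mul_one]; rfl
  · rw [if_neg h, indicator_of_notMem h, mul_zero]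

end WINL

open ZERL W2L WINL in
theorem t_WIN (hw : S_W2) : S_WIN := by
  classical
  obtain ⟨CW, TW, hCW, hTW, hW⟩ := hw
  obtain ⟨CB, hCB, hbad⟩ := bad_le
  obtain ⟨CZ, hCZ, hz⟩ := H370.zcount H370.good_zeta
  refine ⟨13 * CW + 32 * CB * CZ, max TW (Real.exp 20), by positivity,
    hTW.trans (le_max_left _ _), ?_⟩
  intro T hT h hh0 hh1
  have hTW' : TW ≤ T := (le_max_left _ _).trans hT
  have hTe : Real.exp 20 ≤ T := (le_max_right _ _).trans hT
  have hT10 : 10 ≤ T := hTW.trans hTW'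
  set L := Real.log T with hLdef
  have hL : 20 ≤ L := by
    rw [hLdef, Real.le_log_iff_exp_le (by linarith)]; exact hTe
  have hTexp : T = Real.exp L := by rw [hLdef, Real.exp_log (by linarith)]
  have hL2 : L ^ 2 ≤ 2 * T := by
    have := Real.quadratic_le_exp_of_nonneg (show 0 ≤ L by linarith)
    rw [hTexp]
    nlinarith
  have hT100 : 100 ≤ T := by nlinarith
  have hTpos : 0 < T := by linarith
  set s := 1 / L with hs
  have hs0 : 0 < s := by positivity
  have hs1 : s ≤ 1 / 20 := by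
    rw [hs]; exact one_div_le_one_div_of_le (by norm_num) hL
  have hsL : s * L = 1 := by rw [hs]; field_simp
  have h2s : 2 / L = 2 * s := by rw [hs]; ring
  rw [h2s]
  set Z := H370.Zf riemannZeta T (2 * T) with hZ
  have hmem : ∀ z ∈ Z, T < z.im ∧ z.im ≤ 2 * T := by
    intro z hz'
    have := (H370.mem_Zf H370.good_zeta (by linarith : (1:ℝ) ≤ T)).1 hz'
    exact ⟨this.2.2.1, this.2.2.2.1⟩
  rw [← Finset.sum_filter_add_sum_filter_not Z (fun z : ℂ => T + 2 * L + 1 ≤ z.im ∧ z.im ≤ 2 * T - 2 * L)]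
  -- the good zeros
  have hgood : ∑ z ∈ Z.filter (fun z : ℂ => T + 2 * L + 1 ≤ z.im ∧ z.im ≤ 2 * T - 2 * L), (mz z : ℝ) *
      (H370.NN riemannZeta (z.im + h - 2 * s) (z.im + h + 2 * s) : ℝ) ≤ 13 * CW * (T * L) := by
    have e1 : ∑ z ∈ Z.filter (fun z : ℂ => T + 2 * L + 1 ≤ z.im ∧ z.im ≤ 2 * T - 2 * L), (mz z : ℝ) *
        (H370.NN riemannZeta (z.im + h - 2 * s) (z.im + h + 2 * s) : ℝ) ≤
        ∑ z ∈ Z, (mz z : ℝ) * cnt T (z.im + h - 2 * s) (z.im + h + 2 * s) := by
      refine le_trans (le_of_eq (Finset.sum_congr rfl fun z hz' => ?_))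
        (Finset.sum_le_sum_of_subset_of_nonneg (Finset.filter_subset _ _)
          fun z _ _ => mul_nonneg (Nat.cast_nonneg _) (cnt_nonneg _ _ _))
      have hz2 := (Finset.mem_filter.1 hz').2
      rw [NN_eq_cnt (T := T) (by linarith) (by linarith [hz2.1]) (by linarith [hz2.2])]
    have e2 := pair_le T s h hs0
    have e3 := (int_cnt_sq T s).trans (hW T hTW')
    have e4 : s * ∑ z ∈ Z, (mz z : ℝ) * cnt T (z.im + h - 2 * s) (z.im + h + 2 * s) ≤ 13 * (CW * T) :=
      e2.trans (mul_le_mul_of_nonneg_left e3 (by norm_num))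
    have e5 : ∑ z ∈ Z, (mz z : ℝ) * cnt T (z.im + h - 2 * s) (z.im + h + 2 * s) =
        L * (s * ∑ z ∈ Z, (mz z : ℝ) * cnt T (z.im + h - 2 * s) (z.im + h + 2 * s)) := by
      rw [← mul_assoc, mul_comm L s, hsL, one_mul]
    refine e1.trans ?_
    rw [e5]
    calc L * (s * ∑ z ∈ Z, (mz z : ℝ) * cnt T (z.im + h - 2 * s) (z.im + h + 2 * s))
        ≤ L * (13 * (CW * T)) := mul_le_mul_of_nonneg_left e4 (by linarith)
      _ = 13 * CW * (T * L) := by ring
  -- the bad zeros
  have hbadz : ∑ z ∈ Z.filter (fun z : ℂ => ¬ (T + 2 * L + 1 ≤ z.im ∧ z.im ≤ 2 * T - 2 * L)), (mz z : ℝ) *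
      (H370.NN riemannZeta (z.im + h - 2 * s) (z.im + h + 2 * s) : ℝ) ≤ 32 * CB * CZ * (T * L) := by
    have hlog2 : Real.log (2 * T + 1) ≤ 2 * L := by
      have h1 : Real.log (2 * T + 1) ≤ Real.log (T ^ 2) := Real.log_le_log (by linarith) (by nlinarith)
      rw [Real.log_pow] at h1
      exact_mod_cast h1
    have hwin : ∀ z ∈ Z, (H370.NN riemannZeta (z.im + h - 2 * s) (z.im + h + 2 * s) : ℝ) ≤ CZ * (2 * L) := by
      intro z hz'
      obtain ⟨a1, a2⟩ := hmem z hz'
      have h1 := hz (z.im + h) (by linarith)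
      have h2 : H370.NN riemannZeta (z.im + h - 2 * s) (z.im + h + 2 * s) ≤
          H370.NN riemannZeta (z.im + h - 1) (z.im + h + 1) :=
        H370.NN_mono H370.good_zeta (by linarith) (by linarith) (by linarith)
      have h3 : Real.log (z.im + h) ≤ 2 * L := (Real.log_le_log (by linarith) (by linarith)).trans hlog2
      have h4 : (H370.NN riemannZeta (z.im + h - 2 * s) (z.im + h + 2 * s) : ℝ) ≤
          H370.NN riemannZeta (z.im + h - 1) (z.im + h + 1) := by exact_mod_cast h2
      exact h4.trans (h1.trans (mul_le_mul_of_nonneg_left h3 hCZ.le))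
    have hb := hbad T 1 hT100 one_pos le_rfl
    calc ∑ z ∈ Z.filter (fun z : ℂ => ¬ (T + 2 * L + 1 ≤ z.im ∧ z.im ≤ 2 * T - 2 * L)), (mz z : ℝ) *
          (H370.NN riemannZeta (z.im + h - 2 * s) (z.im + h + 2 * s) : ℝ)
        ≤ ∑ z ∈ Z.filter (fun z : ℂ => ¬ (T + 2 * L + 1 ≤ z.im ∧ z.im ≤ 2 * T - 2 * L)), (mz z : ℝ) *
          (CZ * (2 * L)) := Finset.sum_le_sum fun z hz' =>
            mul_le_mul_of_nonneg_left (hwin z (Finset.mem_filter.1 hz').1) (Nat.cast_nonneg _)
      _ = (∑ z ∈ Z.filter (fun z : ℂ => ¬ (T + 2 * L + 1 ≤ z.im ∧ z.im ≤ 2 * T - 2 * L)), (mz z : ℝ)) *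
          (CZ * (2 * L)) := by rw [Finset.sum_mul]
      _ ≤ (CB * L ^ 2) * (CZ * (2 * L)) := mul_le_mul_of_nonneg_right hb (by positivity)
      _ ≤ (CB * (2 * T)) * (CZ * (2 * L)) := by gcongr
      _ ≤ 32 * CB * CZ * (T * L) := by
        have : 0 ≤ CB * CZ * (T * L) := by positivity
        nlinarith
  calc _ ≤ 13 * CW * (T * L) + 32 * CB * CZ * (T * L) := add_le_add hgood hbadz
    _ = _ := by ring

end Pool.Agent.H203.ME
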