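import Pool.Agent.H203.ME.PVB
import Pool.Agent.H203.ME.FPV
import Pool.Agent.H203.ME.JB
import Pool.Agent.H203.ME.SGF
import Pool.Agent.H203.ME.ADP
import Pool.Agent.H203.ME.WIN
import Pool.Agent.H203.ME.CN
import Pool.Agent.H203.ME.IDX
import Pool.Agent.H203.ME.NRM
import Pool.Agent.H203.ME.DYA
import Pool.Agent.H203.ME.IND
import Pool.Agent.H203.ME.LEV
import Pool.Agent.H203.ME.FIN5
import Pool.Agent.H203.ME.UNI

set_option autoImplicit false

open Complex Filter Topology Set MeasureTheory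

namespace Pool.Agent.H203.ME

theorem p_FPV : S_FPV := t_FPV t_PVB

theorem p_JB : S_JB := t_JB p_FPV

theorem p_SGF : S_SGF := t_SGF t_PVB p_FPV p_JB

theorem p_ADP : S_ADP := t_ADP t_PVB p_FPV

theorem p_WIN : S_WIN := t_WIN p_W2

theorem p_CN : S_CN := t_CN t_PVB

end Pool.Agent.H203.ME
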