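import Pool.Agent.H203.ME.Defs

set_option autoImplicit false

open Complex Filter Topology Set MeasureTheory

namespace Pool.Agent.H203.ME

/-! ### basic facts -/

lemma gR_cont (R : ℝ) : Continuous (gR R) := by unfold gR; fun_prop

lemma WR_cont (R : ℝ) : Continuous (WR R) := by
  unfold WR
  refine Continuous.mul ?_ (by fun_prop)
  apply intervalIntegral.continuous_parametric_intervalIntegral_of_continuous'
  have := gR_cont R
  unfold Function.uncurry
  fun_prop

lemma C2c.hcs {F : ℝ → ℝ} (hF : C2c F) : HasCompactSupport F :=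
  HasCompactSupport.intro (isCompact_Icc (a := (-1 : ℝ)) (b := 1)) fun x hx => by
    apply hF.supp
    by_contra h
    push Not at h
    exact hx ⟨by linarith [(abs_lt.1 h).1], by linarith [(abs_lt.1 h).2]⟩

lemma C2c.cont {F : ℝ → ℝ} (hF : C2c F) : Continuous F := hF.cd.continuous

lemma C2c.int {F : ℝ → ℝ} (hF : C2c F) : Integrable F := hF.cont.integrable_of_hasCompactSupport hF.hcs

lemma C2c.intmul {F : ℝ → ℝ} (hF : C2c F) {g : ℝ → ℂ} (hg : Continuous g) :
    Integrable (fun s : ℝ => (F s : ℂ) * g s) := by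
  apply Continuous.integrable_of_hasCompactSupport
  · have := hF.cont; fun_prop
  · apply HasCompactSupport.mul_right
    exact hF.hcs.comp_left (g := fun x : ℝ => (x : ℂ)) (by simp)

lemma KF_cont {F : ℝ → ℝ} (hF : C2c F) (R : ℝ) : Continuous (KF F R) := by
  have h : KF F R = fun z => ∫ s in (-1 : ℝ)..1, (F s : ℂ) * WR R (z - s) := by
    funext z
    unfold KF
    rw [intervalIntegral.integral_of_le (by norm_num), ← integral_Icc_eq_integral_Ioc]
    symm
    apply setIntegral_eq_integral_of_forall_compl_eq_zero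
    intro x hx
    rw [hF.supp x]
    · simp
    · by_contra h
      push Not at h
      exact hx ⟨by linarith [(abs_lt.1 h).1], by linarith [(abs_lt.1 h).2]⟩
  rw [h]
  apply intervalIntegral.continuous_parametric_intervalIntegral_of_continuous'
  have h1 := hF.cont
  have h2 := WR_cont R
  unfold Function.uncurry
  fun_prop

lemma int_shift_le {g : ℝ → ℝ} (hg : Integrable g) (h0 : ∀ x, 0 ≤ g x) (c a b : ℝ) (hab : a ≤ b) :
    ∫ t in a..b, g (c - t) ≤ ∫ x, g x := by
  rw [intervalIntegral.integral_of_le hab]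
  calc ∫ t in Ioc a b, g (c - t) ≤ ∫ t, g (c - t) :=
        setIntegral_le_integral (hg.comp_sub_left c) (Eventually.of_forall fun t => h0 _)
    _ = ∫ x, g x := integral_sub_left_eq_self g volume c

/-- the zeros of a window, as a real sum -/
lemma XF_eq {F : ℝ → ℝ} (hF : C2c F) {U1 U2 T t : ℝ} (hU : 1 ≤ U1) (h1 : U1 + 1 ≤ t) (h2 : t ≤ U2 - 1) :
    XF F T t = (∑ s ∈ H370.Zf riemannZeta U1 U2, (mz s : ℝ) * F (s.im - t)) -
      Real.log T / (2 * Real.pi) * ∫ x : ℝ, F x := by
  unfold XF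
  congr 1
  have hZ : ∀ s : ℂ, s ∈ H370.Zf riemannZeta U1 U2 ↔ s ∈ H370.zset riemannZeta U1 U2 := fun s =>
    H370.mem_Zf H370.good_zeta hU
  rw [finsum_mem_eq_sum_of_inter_support_eq]
  ext s
  simp only [mem_inter_iff, Function.mem_support, SetLike.mem_coe, hZ]
  constructor
  · rintro ⟨⟨ha, hb, hc⟩, hd⟩
    refine ⟨⟨hb, hc, ?_, ?_, ha⟩, hd⟩
    · by_contra h
      push Not at h
      exact hd (by rw [hF.supp _ (by rw [le_abs]; right; linarith), mul_zero])
    · by_contra h
      push Not at h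
      exact hd (by rw [hF.supp _ (by rw [le_abs]; left; linarith), mul_zero])
  · rintro ⟨⟨ha, hb, hc, hd, he⟩, hf⟩
    exact ⟨⟨he, ha, hb⟩, hf⟩

/-- symmetry of the zeros -/
lemma Zf_symm {U1 U2 : ℝ} (hU : 1 ≤ U1) (g : ℂ → ℂ) :
    ∑ s ∈ H370.Zf riemannZeta U1 U2, (mz s : ℂ) * g s =
      ∑ s ∈ H370.Zf riemannZeta U1 U2, (mz s : ℂ) * g (1 - (starRingEnd ℂ) s) := by
  have hG := H370.good_zeta
  have hZ : ∀ s : ℂ, s ∈ H370.Zf riemannZeta U1 U2 ↔ s ∈ H370.zset riemannZeta U1 U2 := fun s =>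
    H370.mem_Zf hG hU
  have hord : ∀ s ∈ H370.Zf riemannZeta U1 U2,
      analyticOrderAt riemannZeta (1 - (starRingEnd ℂ) s) = analyticOrderAt riemannZeta s := by
    intro s hs
    obtain ⟨ha, hb, hc, hd, he⟩ := (hZ s).1 hs
    exact hG.symm s ha hb (by linarith)
  have hmem : ∀ s ∈ H370.Zf riemannZeta U1 U2, 1 - (starRingEnd ℂ) s ∈ H370.Zf riemannZeta U1 U2 := by
    intro s hs
    obtain ⟨ha, hb, hc, hd, he⟩ := (hZ s).1 hs
    rw [hZ]
    refine ⟨by simp; linarith, by simp; linarith, by simpa using hc, by simpa using hd, ?_⟩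
    have h1 := hord s hs
    have h2 : analyticOrderAt riemannZeta s ≠ 0 := by
      rw [(hG.an s (by linarith)).analyticOrderAt_ne_zero]; exact he
    rw [← h1] at h2
    by_contra h3
    apply h2
    have h4 : AnalyticAt ℂ riemannZeta (1 - (starRingEnd ℂ) s) := hG.an _ (by simp; linarith)
    rw [h4.analyticOrderAt_eq_zero]; exact h3
  symm
  refine Finset.sum_nbij' (fun s => 1 - (starRingEnd ℂ) s) (fun s => 1 - (starRingEnd ℂ) s) hmem hmem
    (fun s _ => by simp) (fun s _ => by simp) (fun s hs => ?_)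
  have : mz (1 - (starRingEnd ℂ) s) = mz s := by
    unfold mz H370.mult analyticOrderNatAt
    rw [hord s hs]
  rw [this]

end Pool.Agent.H203.ME
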