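import Pool.Agent.H203.ME.APX

set_option autoImplicit false

open Complex Filter Topology Set MeasureTheory

namespace Pool.Agent.H203.ME

def S_PRC : Prop := ∀ R : ℝ, 1 ≤ R → Continuous (PR R)
def S_BBC : Prop := ∀ F : ℝ → ℝ, C2c F → ∀ R : ℝ, 1 ≤ R → Continuous (BB F R)

/-- the explicit formula integrated against `F` -/
lemma Z_eq {F : ℝ → ℝ} (hF : C2c F) (hPC : S_PRC) (hB : S_BBI) {C T U1 U2 R t : ℝ} (hR : 1 ≤ R)
    (hE : ∀ t : ℝ, T + Real.log T ≤ t → t ≤ 2 * T - Real.log T →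
      ‖(∑ s ∈ H370.Zf riemannZeta U1 U2, (mz s : ℂ) * WR R (H370.zz s - t)) -
        ((Real.log T / (2 * Real.pi) * om R - PR R t : ℝ) : ℂ)‖ ≤ C)
    (h1 : T + Real.log T + 1 ≤ t) (h2 : t ≤ 2 * T - Real.log T - 1) :
    ‖(∑ s ∈ H370.Zf riemannZeta U1 U2, (mz s : ℂ) * KF F R (H370.zz s - t)) -
      ((Real.log T / (2 * Real.pi) * om R * (∫ x : ℝ, F x) - BB F R t : ℝ) : ℂ)‖ ≤ C * ∫ x : ℝ, |F x| := by
  have hW := WR_cont R
  have hP := hPC R hR
  -- the first sum as an integral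
  have e1 : (∑ s ∈ H370.Zf riemannZeta U1 U2, (mz s : ℂ) * KF F R (H370.zz s - t)) =
      ∫ s : ℝ, (F s : ℂ) * ∑ ρ ∈ H370.Zf riemannZeta U1 U2, (mz ρ : ℂ) * WR R (H370.zz ρ - (t + s : ℝ)) := by
    simp only [Finset.mul_sum]
    rw [integral_finsetSum]
    · refine Finset.sum_congr rfl fun ρ _ => ?_
      unfold KF
      rw [← integral_const_mul]
      congr 1
      funext s
      have : H370.zz ρ - (t : ℂ) - (s : ℂ) = H370.zz ρ - ((t + s : ℝ) : ℂ) := by push_cast; ring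
      rw [this]; ring
    · intro ρ _
      apply hF.intmul
      fun_prop
  have e2 : ((Real.log T / (2 * Real.pi) * om R * (∫ x : ℝ, F x) - BB F R t : ℝ) : ℂ) =
      ∫ s : ℝ, (F s : ℂ) * ((Real.log T / (2 * Real.pi) * om R - PR R (t + s) : ℝ) : ℂ) := by
    rw [← hB F hF R t hR]
    have h3 : ∫ s : ℝ, F s * (Real.log T / (2 * Real.pi) * om R - PR R (t + s)) =
        Real.log T / (2 * Real.pi) * om R * (∫ x : ℝ, F x) - ∫ s : ℝ, F s * PR R (t + s) := by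
      rw [← integral_const_mul, ← integral_sub]
      · congr 1
        funext s
        ring
      · exact hF.int.const_mul _
      · apply Continuous.integrable_of_hasCompactSupport
        · have := hF.cont; fun_prop
        · exact hF.hcs.mul_right
    rw [← h3, ← integral_complex_ofReal]
    congr 1
    funext s
    push_cast
    ring
  rw [e1, e2, ← integral_sub]
  · calc ‖∫ s : ℝ, ((F s : ℂ) * ∑ ρ ∈ H370.Zf riemannZeta U1 U2, (mz ρ : ℂ) * WR R (H370.zz ρ - (t + s : ℝ)) -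
          (F s : ℂ) * ((Real.log T / (2 * Real.pi) * om R - PR R (t + s) : ℝ) : ℂ))‖ ≤
        ∫ s : ℝ, C * |F s| := by
          apply norm_integral_le_of_norm_le (hF.int.abs.const_mul C)
          refine Eventually.of_forall fun s => ?_
          rw [← mul_sub, norm_mul, Complex.norm_real, Real.norm_eq_abs, mul_comm]
          by_cases hs : 1 ≤ |s|
          · rw [hF.supp s hs]; simp
          · push Not at hs
            have hs' := abs_lt.1 hs
            exact mul_le_mul_of_nonneg_right (hE (t + s) (by linarith) (by linarith)) (abs_nonneg _)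
      _ = C * ∫ x : ℝ, |F x| := integral_const_mul _ _
  · apply hF.intmul
    fun_prop
  · apply hF.intmul
    fun_prop

/-- the zero parameter -/
lemma zz_eq (s : ℂ) : H370.zz s = ((s.im : ℝ) : ℂ) - (((s.re - 1 / 2 : ℝ)) : ℂ) * I := by
  unfold H370.zz
  apply Complex.ext
  · simp
  · simp

lemma zz_symm (s : ℂ) : H370.zz (1 - (starRingEnd ℂ) s) =
    ((s.im : ℝ) : ℂ) + (((s.re - 1 / 2 : ℝ)) : ℂ) * I := by
  unfold H370.zz
  apply Complex.ext
  · simp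
  · simp; ring

/-- passage from the complex zeros to the ordinates, pointwise -/
lemma point_diff {F : ℝ → ℝ} {R U1 U2 t : ℝ} (hU : 1 ≤ U1) :
    ‖((∑ s ∈ H370.Zf riemannZeta U1 U2, (mz s : ℝ) * F (s.im - t) : ℝ) : ℂ) -
      ∑ s ∈ H370.Zf riemannZeta U1 U2, (mz s : ℂ) * KF F R (H370.zz s - t)‖ ≤
    ∑ s ∈ H370.Zf riemannZeta U1 U2, (mz s : ℝ) * (‖KF F R ((s.im - t : ℝ) : ℂ) - F (s.im - t)‖ +
      ‖KF F R (((s.im - t : ℝ) : ℂ) + ((s.re - 1 / 2 : ℝ) : ℂ) * I) +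
        KF F R (((s.im - t : ℝ) : ℂ) - ((s.re - 1 / 2 : ℝ) : ℂ) * I) - 2 * KF F R ((s.im - t : ℝ) : ℂ)‖) := by
  have h1 := Zf_symm (U2 := U2) hU (fun s => KF F R (H370.zz s - t))
  have h2 : ∑ s ∈ H370.Zf riemannZeta U1 U2, (mz s : ℂ) * KF F R (H370.zz s - t) =
      ∑ s ∈ H370.Zf riemannZeta U1 U2, (mz s : ℂ) * (1 / 2 *
        (KF F R (((s.im - t : ℝ) : ℂ) + ((s.re - 1 / 2 : ℝ) : ℂ) * I) +
          KF F R (((s.im - t : ℝ) : ℂ) - ((s.re - 1 / 2 : ℝ) : ℂ) * I))) := by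
    have h3 : ∑ s ∈ H370.Zf riemannZeta U1 U2, (mz s : ℂ) * KF F R (H370.zz s - t) =
        1 / 2 * (∑ s ∈ H370.Zf riemannZeta U1 U2, (mz s : ℂ) * KF F R (H370.zz s - t) +
          ∑ s ∈ H370.Zf riemannZeta U1 U2, (mz s : ℂ) * KF F R (H370.zz (1 - (starRingEnd ℂ) s) - t)) := by
      rw [← h1]; ring
    rw [h3, ← Finset.sum_add_distrib, Finset.mul_sum]
    refine Finset.sum_congr rfl fun s _ => ?_
    have e1 : H370.zz s - (t : ℂ) = ((s.im - t : ℝ) : ℂ) - ((s.re - 1 / 2 : ℝ) : ℂ) * I := by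
      rw [zz_eq]; push_cast; ring
    have e2 : H370.zz (1 - (starRingEnd ℂ) s) - (t : ℂ) =
        ((s.im - t : ℝ) : ℂ) + ((s.re - 1 / 2 : ℝ) : ℂ) * I := by
      rw [zz_symm]; push_cast; ring
    rw [e1, e2]; ring
  rw [h2]
  push_cast
  rw [← Finset.sum_sub_distrib]
  refine (norm_sum_le _ _).trans (Finset.sum_le_sum fun s _ => ?_)
  have h4 : (mz s : ℂ) * (F (s.im - t) : ℂ) - (mz s : ℂ) * (1 / 2 *
        (KF F R ((s.im : ℂ) - (t : ℂ) + ((s.re : ℂ) - 1 / 2) * I) +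
          KF F R ((s.im : ℂ) - (t : ℂ) - ((s.re : ℂ) - 1 / 2) * I))) =
      (mz s : ℂ) * (-(KF F R ((s.im : ℂ) - (t : ℂ)) - F (s.im - t)) -
        1 / 2 * (KF F R ((s.im : ℂ) - (t : ℂ) + ((s.re : ℂ) - 1 / 2) * I) +
          KF F R ((s.im : ℂ) - (t : ℂ) - ((s.re : ℂ) - 1 / 2) * I) - 2 * KF F R ((s.im : ℂ) - (t : ℂ)))) := by
    ring
  rw [h4, norm_mul]
  have h5 : ‖(mz s : ℂ)‖ = (mz s : ℝ) := by simp
  rw [h5]
  apply mul_le_mul_of_nonneg_left _ (Nat.cast_nonneg _)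
  refine (norm_sub_le _ _).trans ?_
  rw [norm_neg, norm_mul]
  have h6 : ‖(1 / 2 : ℂ)‖ = 1 / 2 := by simp
  rw [h6]
  have h7 := norm_nonneg (KF F R ((s.im : ℂ) - (t : ℂ) + ((s.re : ℂ) - 1 / 2) * I) +
          KF F R ((s.im : ℂ) - (t : ℂ) - ((s.re : ℂ) - 1 / 2) * I) - 2 * KF F R ((s.im : ℂ) - (t : ℂ)))
  linarith

end Pool.Agent.H203.ME
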