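import Pool.Agent.H203.ME.APX2

set_option autoImplicit false

open Complex Filter Topology Set MeasureTheory

namespace Pool.Agent.H203.ME

/-- the approximate formula on average -/
def S_APX : Prop := ∃ C T0 : ℝ, 0 < C ∧ 10 ≤ T0 ∧ ∀ T : ℝ, T0 ≤ T → 20 ≤ Real.log T ∧
  ∀ (η V : ℝ) (F : ℝ → ℝ), 0 < η → Adm η V (Real.log T) F →
    ContinuousOn (XF F T) (Icc (T + 2 * Real.log T) (2 * T - 2 * Real.log T)) ∧
    T + 2 * Real.log T ≤ 2 * T - 2 * Real.log T ∧
    ∫ t in (T + 2 * Real.log T)..(2 * T - 2 * Real.log T), |XF F T t + BB F (Real.log T / 4) t| ≤ C * T * η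

lemma log_le_tenth {T : ℝ} (hT : Real.exp 20 ≤ T) : Real.log T ≤ T / 10 := by
  have h0 : 0 < T := (Real.exp_pos _).trans_le hT
  have h1 : 20 ≤ Real.log T := by rw [Real.le_log_iff_exp_le h0]; exact hT
  have h2 : Real.log T = 4 * Real.log (T ^ (1/4 : ℝ)) := by
    rw [Real.log_rpow h0]; ring
  have h3 : Real.log (T ^ (1/4 : ℝ)) ≤ T ^ (1/4 : ℝ) := (Real.log_le_sub_one_of_pos (by positivity)).trans (by linarith)
  have h4 : T = (T ^ (1/4 : ℝ)) ^ 4 := by
    rw [← Real.rpow_natCast, ← Real.rpow_mul h0.le]; norm_num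
  have h5 : 5 ≤ T ^ (1/4 : ℝ) := by linarith
  set x := T ^ (1/4 : ℝ)
  rw [h2]
  have h6 : 4 * Real.log x ≤ 4 * x := by linarith
  refine h6.trans ?_
  rw [h4]
  have : 125 ≤ x ^ 3 := by
    have := pow_le_pow_left₀ (by norm_num : (0:ℝ) ≤ 5) h5 3
    norm_num at this; exact this
  nlinarith [mul_le_mul_of_nonneg_left this (by linarith : (0:ℝ) ≤ x)]

theorem t_APX (hEF : S_EFW) (hB : S_BBI) (hPC : S_PRC) (hBC : S_BBC) (hA : S_L1A) (hL : S_L1B) (hD : S_DEN)
    (hO : S_OM) : S_APX := by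
  obtain ⟨C1, T1, hC1, hT1, hEF⟩ := hEF
  obtain ⟨C2, hC2, hA⟩ := hA
  obtain ⟨C3, hC3, hL⟩ := hL
  obtain ⟨C4, T4, hC4, hT4, hD⟩ := hD
  obtain ⟨C5, hC5, hO⟩ := hO
  obtain ⟨C6, T6, hC6, hT6, hN⟩ := H370.nn_asymp H370.good_zeta
  refine ⟨(1 + C6) * (16 * C2) * 2 + C3 * C4 + C1 + 16 * C5, max (max T1 T4) (max T6 (Real.exp 20)),
    by positivity, le_trans hT1 ((le_max_left _ _).trans (le_max_left _ _)), fun T hT => ?_⟩
  have hTT1 : T1 ≤ T := ((le_max_left _ _).trans (le_max_left _ _)).trans hT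
  have hTT4 : T4 ≤ T := ((le_max_right _ _).trans (le_max_left _ _)).trans hT
  have hTT6 : T6 ≤ T := ((le_max_left _ _).trans (le_max_right _ _)).trans hT
  have hTe : Real.exp 20 ≤ T := ((le_max_right _ _).trans (le_max_right _ _)).trans hT
  have hT0 : 0 < T := (Real.exp_pos _).trans_le hTe
  have hL20 : 20 ≤ Real.log T := by rw [Real.le_log_iff_exp_le hT0]; exact hTe
  refine ⟨hL20, fun η V F hη hF => ?_⟩
  have hLT := log_le_tenth hTe
  set L := Real.log T with hLd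
  have hab : T + 2 * L ≤ 2 * T - 2 * L := by linarith
  obtain ⟨U1, U2, hU1, hU1', hU2, hU2', hE⟩ := hEF T hTT1
  have hT10 : 10 ≤ T := hT1.trans hTT1
  have hU : 1 ≤ U1 := by linarith
  have hc2 := hF.c2
  have hFc := hc2.cont
  have hR : 1 ≤ L / 4 := by linarith
  set Z := H370.Zf riemannZeta U1 U2 with hZ
  set IF := ∫ x : ℝ, F x with hIF
  set I1 := ∫ x : ℝ, |F x| with hI1
  set I2 := ∫ x : ℝ, |deriv (deriv F) x| with hI2
  have hI10 : 0 ≤ I1 := integral_nonneg fun _ => abs_nonneg _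
  have hI20 : 0 ≤ I2 := integral_nonneg fun _ => abs_nonneg _
  have hKc := KF_cont hc2 (L / 4)
  have hBc := hBC F hc2 (L / 4) hR
  -- the statistic on the window
  have hXF : ∀ t ∈ Icc (T + 2 * L) (2 * T - 2 * L), XF F T t =
      (∑ s ∈ Z, (mz s : ℝ) * F (s.im - t)) - L / (2 * Real.pi) * IF := by
    intro t ht
    exact XF_eq hc2 hU (by linarith [ht.1]) (by linarith [ht.2])
  have hXc : Continuous fun t : ℝ => (∑ s ∈ Z, (mz s : ℝ) * F (s.im - t)) - L / (2 * Real.pi) * IF := by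
    fun_prop
  refine ⟨hXc.continuousOn.congr hXF, hab, ?_⟩
  -- the bound functions
  set g1 : ℝ → ℝ := fun x => ‖KF F (L / 4) x - F x‖ with hg1
  set g2 : ℂ → ℝ → ℝ := fun s x => ‖KF F (L / 4) ((x : ℂ) + ((s.re - 1 / 2 : ℝ) : ℂ) * I) +
        KF F (L / 4) ((x : ℂ) - ((s.re - 1 / 2 : ℝ) : ℂ) * I) - 2 * KF F (L / 4) x‖ with hg2
  have hg1c : Continuous g1 := by rw [hg1]; fun_prop
  have hg2c : ∀ s, Continuous (g2 s) := by intro s; rw [hg2]; fun_prop
  have hpt : ∀ t ∈ Icc (T + 2 * L) (2 * T - 2 * L), |XF F T t + BB F (L / 4) t| ≤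
      (∑ s ∈ Z, (mz s : ℝ) * (g1 (s.im - t) + g2 s (s.im - t))) +
        (C1 * I1 + L / (2 * Real.pi) * (C5 / (L / 4) ^ 2) * I1) := by
    intro t ht
    have h1 := point_diff (F := F) (R := L / 4) (U2 := U2) (t := t) hU
    have h2 := Z_eq hc2 hPC hB (T := T) (U1 := U1) (U2 := U2) (t := t) hR
      (fun t h1 h2 => hE (L / 4) t hR (by linarith) h1 h2) (by linarith [ht.1]) (by linarith [ht.2])
    have h3 : |XF F T t + BB F (L / 4) t| = ‖(((XF F T t + BB F (L / 4) t : ℝ)) : ℂ)‖ := by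
      rw [Complex.norm_real, Real.norm_eq_abs]
    rw [h3, hXF t ht]
    have h4 : (((∑ s ∈ Z, (mz s : ℝ) * F (s.im - t)) - L / (2 * Real.pi) * IF + BB F (L / 4) t : ℝ) : ℂ) =
        (((∑ s ∈ Z, (mz s : ℝ) * F (s.im - t) : ℝ) : ℂ) -
          ∑ s ∈ Z, (mz s : ℂ) * KF F (L / 4) (H370.zz s - t)) +
        ((∑ s ∈ Z, (mz s : ℂ) * KF F (L / 4) (H370.zz s - t)) -
          ((L / (2 * Real.pi) * om (L / 4) * IF - BB F (L / 4) t : ℝ) : ℂ)) +
        ((L / (2 * Real.pi) * (om (L / 4) - 1) * IF : ℝ) : ℂ) := by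
      push_cast; ring
    rw [h4]
    refine (norm_add_le _ _).trans ?_
    have h5 : ‖((L / (2 * Real.pi) * (om (L / 4) - 1) * IF : ℝ) : ℂ)‖ ≤
        L / (2 * Real.pi) * (C5 / (L / 4) ^ 2) * I1 := by
      rw [Complex.norm_real, Real.norm_eq_abs, abs_mul, abs_mul]
      have h6 : |IF| ≤ I1 := by
        rw [hIF, ← Real.norm_eq_abs]
        exact norm_integral_le_integral_norm _
      have h7 : |L / (2 * Real.pi)| = L / (2 * Real.pi) := abs_of_nonneg (by positivity)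
      rw [h7]
      have h8 := hO (L / 4) hR
      exact mul_le_mul (mul_le_mul_of_nonneg_left h8 (by positivity)) h6 (abs_nonneg _) (by positivity)
    have h9 := norm_add_le (((∑ s ∈ Z, (mz s : ℝ) * F (s.im - t) : ℝ) : ℂ) -
          ∑ s ∈ Z, (mz s : ℂ) * KF F (L / 4) (H370.zz s - t))
        ((∑ s ∈ Z, (mz s : ℂ) * KF F (L / 4) (H370.zz s - t)) -
          ((L / (2 * Real.pi) * om (L / 4) * IF - BB F (L / 4) t : ℝ) : ℂ))
    have h10 : ‖((∑ s ∈ Z, (mz s : ℝ) * F (s.im - t) : ℝ) : ℂ) -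
          ∑ s ∈ Z, (mz s : ℂ) * KF F (L / 4) (H370.zz s - t)‖ ≤
        ∑ s ∈ Z, (mz s : ℝ) * (g1 (s.im - t) + g2 s (s.im - t)) := h1
    linarith
  -- integrate
  have hint : ∫ t in (T + 2 * L)..(2 * T - 2 * L), |XF F T t + BB F (L / 4) t| ≤
      ∫ t in (T + 2 * L)..(2 * T - 2 * L), ((∑ s ∈ Z, (mz s : ℝ) * (g1 (s.im - t) + g2 s (s.im - t))) +
        (C1 * I1 + L / (2 * Real.pi) * (C5 / (L / 4) ^ 2) * I1)) := by
    have he : ∫ t in (T + 2 * L)..(2 * T - 2 * L), |XF F T t + BB F (L / 4) t| =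
        ∫ t in (T + 2 * L)..(2 * T - 2 * L), |(∑ s ∈ Z, (mz s : ℝ) * F (s.im - t)) -
          L / (2 * Real.pi) * IF + BB F (L / 4) t| := by
      apply intervalIntegral.integral_congr
      intro t ht
      rw [uIcc_of_le hab] at ht
      simp only
      rw [hXF t ht]
    rw [he]
    apply intervalIntegral.integral_mono_on hab
    · exact Continuous.intervalIntegrable (by fun_prop) _ _
    · exact Continuous.intervalIntegrable (by fun_prop) _ _
    · intro t ht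
      have := hpt t ht
      rw [hXF t ht] at this
      exact this
  refine hint.trans ?_
  have hsplit : ∫ t in (T + 2 * L)..(2 * T - 2 * L), ((∑ s ∈ Z, (mz s : ℝ) * (g1 (s.im - t) + g2 s (s.im - t))) +
        (C1 * I1 + L / (2 * Real.pi) * (C5 / (L / 4) ^ 2) * I1)) =
      (∑ s ∈ Z, (mz s : ℝ) * ((∫ t in (T + 2 * L)..(2 * T - 2 * L), g1 (s.im - t)) +
        ∫ t in (T + 2 * L)..(2 * T - 2 * L), g2 s (s.im - t))) +
      (2 * T - 2 * L - (T + 2 * L)) * (C1 * I1 + L / (2 * Real.pi) * (C5 / (L / 4) ^ 2) * I1) := by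
    rw [intervalIntegral.integral_add, intervalIntegral.integral_const, smul_eq_mul]
    · congr 1
      rw [intervalIntegral.integral_finsetSum]
      · refine Finset.sum_congr rfl fun s _ => ?_
        rw [intervalIntegral.integral_const_mul, intervalIntegral.integral_add]
        · exact (hg1c.comp (by fun_prop)).intervalIntegrable _ _
        · exact ((hg2c s).comp (by fun_prop)).intervalIntegrable _ _
      · intro s _
        have := hg2c s
        exact Continuous.intervalIntegrable (by fun_prop) _ _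
    · have := hg2c
      exact Continuous.intervalIntegrable (by fun_prop) _ _
    · exact intervalIntegrable_const
  rw [hsplit]
  -- the two parts
  obtain ⟨ha1, ha2⟩ := hA F hc2 (L / 4) hR
  have hb : ∀ s ∈ Z, (mz s : ℝ) * ((∫ t in (T + 2 * L)..(2 * T - 2 * L), g1 (s.im - t)) +
        ∫ t in (T + 2 * L)..(2 * T - 2 * L), g2 s (s.im - t)) ≤
      (mz s : ℝ) * (C2 / (L / 4) ^ 2 * (I1 + I2)) +
        C3 * I2 * ((mz s : ℝ) * ((s.re - 1 / 2) ^ 2 * Real.exp (L * |s.re - 1 / 2| / 2))) := by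
    intro s hs
    rw [hZ, H370.mem_Zf H370.good_zeta hU] at hs
    obtain ⟨hs1, hs2, -⟩ := hs
    have hy : |s.re - 1 / 2| ≤ 1 / 2 := by rw [abs_le]; constructor <;> linarith
    obtain ⟨hb1, hb2⟩ := hL F hc2 (L / 4) (s.re - 1 / 2) hR hy
    have h1 := int_shift_le ha1.norm (fun _ => norm_nonneg _) s.im (T + 2 * L) (2 * T - 2 * L) hab
    have h2 := int_shift_le hb1.norm (fun _ => norm_nonneg _) s.im (T + 2 * L) (2 * T - 2 * L) hab
    have h3 : ∫ t in (T + 2 * L)..(2 * T - 2 * L), g1 (s.im - t) ≤ C2 / (L / 4) ^ 2 * (I1 + I2) := h1.trans ha2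
    have h4 : ∫ t in (T + 2 * L)..(2 * T - 2 * L), g2 s (s.im - t) ≤
        C3 * (s.re - 1 / 2) ^ 2 * Real.exp (L / 4 * |s.re - 1 / 2|) * I2 := h2.trans hb2
    have h5 : Real.exp (L / 4 * |s.re - 1 / 2|) ≤ Real.exp (L * |s.re - 1 / 2| / 2) := by
      apply Real.exp_le_exp.2
      nlinarith [mul_nonneg (by linarith : (0:ℝ) ≤ L) (abs_nonneg (s.re - 1 / 2))]
    have h6 : C3 * (s.re - 1 / 2) ^ 2 * Real.exp (L / 4 * |s.re - 1 / 2|) * I2 ≤
        C3 * I2 * ((s.re - 1 / 2) ^ 2 * Real.exp (L * |s.re - 1 / 2| / 2)) := by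
      have : C3 * (s.re - 1 / 2) ^ 2 * Real.exp (L / 4 * |s.re - 1 / 2|) * I2 =
        C3 * I2 * ((s.re - 1 / 2) ^ 2 * Real.exp (L / 4 * |s.re - 1 / 2|)) := by ring
      rw [this]
      gcongr
    have hm : (0 : ℝ) ≤ mz s := Nat.cast_nonneg _
    calc _ ≤ (mz s : ℝ) * (C2 / (L / 4) ^ 2 * (I1 + I2) +
          C3 * I2 * ((s.re - 1 / 2) ^ 2 * Real.exp (L * |s.re - 1 / 2| / 2))) :=
          mul_le_mul_of_nonneg_left (by linarith) hm
      _ = _ := by ring
  have hsum := Finset.sum_le_sum hb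
  rw [Finset.sum_add_distrib, ← Finset.sum_mul, ← Finset.mul_sum] at hsum
  have hNN : ∑ s ∈ Z, (mz s : ℝ) ≤ (1 + C6) * T * L := by
    have h1 := hN T hTT6 U1 U2 hU1 hU1' hU2 hU2'
    have h2 : (H370.NN riemannZeta U1 U2 : ℝ) = ∑ s ∈ Z, (mz s : ℝ) := by
      rw [H370.NN_eq H370.good_zeta hU]
      push_cast
      rfl
    rw [h2] at h1
    have h3 := (abs_le.1 h1).2
    have hpi := Real.pi_gt_three
    have h4 : T * L / (2 * Real.pi) ≤ T * L := by
      apply div_le_self (by positivity); linarith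
    nlinarith [mul_pos hT0 (by linarith : (0:ℝ) < L), mul_le_mul_of_nonneg_left (by linarith : (1:ℝ) ≤ L) (by positivity : (0:ℝ) ≤ C6 * T)]
  have hDD := hD T hTT4 U1 U2 hU1 hU1' hU2 hU2'
  have hη1 := hF.l1
  have hη2 := hF.l2
  rw [← hI1] at hη1
  rw [← hI2] at hη2
  have hL0 : 0 < L := by linarith
  have p1 : (∑ s ∈ Z, (mz s : ℝ)) * (C2 / (L / 4) ^ 2 * (I1 + I2)) ≤ (1 + C6) * (16 * C2) * 2 * (T * η) := by
    calc (∑ s ∈ Z, (mz s : ℝ)) * (C2 / (L / 4) ^ 2 * (I1 + I2)) ≤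
        ((1 + C6) * T * L) * (C2 / (L / 4) ^ 2 * (η + η * L)) := by gcongr
      _ = (1 + C6) * (16 * C2) * (1 / L + 1) * (T * η) := by field_simp; ring
      _ ≤ _ := by
          have : 1 / L + 1 ≤ 2 := by
            have : 1 / L ≤ 1 := by rw [div_le_one hL0]; linarith
            linarith
          gcongr
  have p2 : C3 * I2 * (∑ s ∈ Z, (mz s : ℝ) * ((s.re - 1 / 2) ^ 2 * Real.exp (L * |s.re - 1 / 2| / 2))) ≤
      C3 * C4 * (T * η) := by
    calc C3 * I2 * (∑ s ∈ Z, (mz s : ℝ) * ((s.re - 1 / 2) ^ 2 * Real.exp (L * |s.re - 1 / 2| / 2))) ≤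
        C3 * (η * L) * (C4 * T / L) := by
          apply mul_le_mul (mul_le_mul_of_nonneg_left hη2 hC3.le) hDD _ (by positivity)
          exact Finset.sum_nonneg fun s _ => by positivity
      _ = _ := by field_simp
  have p3 : (2 * T - 2 * L - (T + 2 * L)) * (C1 * I1 + L / (2 * Real.pi) * (C5 / (L / 4) ^ 2) * I1) ≤
      (C1 + 16 * C5) * (T * η) := by
    have h1 : L / (2 * Real.pi) * (C5 / (L / 4) ^ 2) ≤ 16 * C5 := by
      have hpi := Real.pi_gt_three
      have : L / (2 * Real.pi) * (C5 / (L / 4) ^ 2) = 16 * C5 / (2 * Real.pi * L) := by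
        field_simp
        norm_num
      rw [this]
      apply div_le_self (by positivity)
      nlinarith
    calc _ ≤ T * (C1 * I1 + 16 * C5 * I1) := by
          apply mul_le_mul (by linarith) _ (by positivity) hT0.le
          gcongr
      _ = (C1 + 16 * C5) * (T * I1) := by ring
      _ ≤ _ := by gcongr
  calc _ ≤ (1 + C6) * (16 * C2) * 2 * (T * η) + C3 * C4 * (T * η) + (C1 + 16 * C5) * (T * η) := by linarith
    _ = _ := by ring

end Pool.Agent.H203.ME
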