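import Pool.Agent.H203.ME.Defs3

set_option autoImplicit false

open Complex Filter Topology Set MeasureTheory

namespace Pool.Agent.H203.ME

theorem t_PT : S_PT := by
  have hPC := t_PRC
  have hBC := t_BBC
  have hB := t_BBI
  obtain ⟨C1, T1, hC1, hT1, hEF⟩ := t_EFW
  obtain ⟨C5, hC5, hO⟩ := t_OM
  refine ⟨C1 + 16 * C5, max T1 (Real.exp 20), by positivity, le_trans hT1 (le_max_left _ _), fun T hT => ?_⟩
  have hTT1 : T1 ≤ T := (le_max_left _ _).trans hT
  have hTe : Real.exp 20 ≤ T := (le_max_right _ _).trans hT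
  have hT0 : 0 < T := (Real.exp_pos _).trans_le hTe
  have hL20 : 20 ≤ Real.log T := by rw [Real.le_log_iff_exp_le hT0]; exact hTe
  have hLT := log_le_tenth hTe
  refine ⟨hL20, hLT, ?_⟩
  set L := Real.log T with hLd
  have hab : T + 2 * L ≤ 2 * T - 2 * L := by linarith
  obtain ⟨U1, U2, hU1, hU1', hU2, hU2', hE⟩ := hEF T hTT1
  have hT10 : 10 ≤ T := hT1.trans hTT1
  have hU : 1 ≤ U1 := by linarith
  refine ⟨U1, U2, hU1, hU1', hU2, hU2', fun F hc2 t ht1 ht2 => ?_⟩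
  have ht : t ∈ Icc (T + 2 * L) (2 * T - 2 * L) := ⟨ht1, ht2⟩
  have hFc := hc2.cont
  have hR : 1 ≤ L / 4 := by linarith
  set Z := H370.Zf riemannZeta U1 U2 with hZ
  set IF := ∫ x : ℝ, F x with hIF
  set I1 := ∫ x : ℝ, |F x| with hI1
  have hI10 : 0 ≤ I1 := integral_nonneg fun _ => abs_nonneg _
  have hXF : ∀ t ∈ Icc (T + 2 * L) (2 * T - 2 * L), XF F T t =
      (∑ s ∈ Z, (mz s : ℝ) * F (s.im - t)) - L / (2 * Real.pi) * IF := by
    intro t ht
    exact XF_eq hc2 hU (by linarith [ht.1]) (by linarith [ht.2])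
  have h1 := point_diff (F := F) (R := L / 4) (U2 := U2) (t := t) hU
  have h2 := Z_eq hc2 hPC hB (T := T) (U1 := U1) (U2 := U2) (t := t) hR
      (fun t h1 h2 => hE (L / 4) t hR (by linarith) h1 h2) (by linarith [ht.1]) (by linarith [ht.2])
  have h3 : |XF F T t + BB F (L / 4) t| = ‖(((XF F T t + BB F (L / 4) t : ℝ)) : ℂ)‖ := by
    rw [Complex.norm_real, Real.norm_eq_abs]
  rw [h3, hXF t ht]
  have h4 : (((∑ s ∈ Z, (mz s : ℝ) * F (s.im - t)) - L / (2 * Real.pi) * IF + BB F (L / 4) t : ℝ) : ℂ) =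
        (((∑ s ∈ Z, (mz s : ℝ) * F (s.im - t) : ℝ) : ℂ) -
          ∑ s ∈ Z, (mz s : ℂ) * KF F (L / 4) (H370.zz s - t)) +
        ((∑ s ∈ Z, (mz s : ℂ) * KF F (L / 4) (H370.zz s - t)) -
          ((L / (2 * Real.pi) * om (L / 4) * IF - BB F (L / 4) t : ℝ) : ℂ)) +
        ((L / (2 * Real.pi) * (om (L / 4) - 1) * IF : ℝ) : ℂ) := by
    push_cast; ring
  rw [h4]
  refine (norm_add_le _ _).trans ?_
  have h5 : ‖((L / (2 * Real.pi) * (om (L / 4) - 1) * IF : ℝ) : ℂ)‖ ≤ 16 * C5 * I1 := by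
    rw [Complex.norm_real, Real.norm_eq_abs, abs_mul, abs_mul]
    have h6 : |IF| ≤ I1 := by
      rw [hIF, ← Real.norm_eq_abs]
      exact norm_integral_le_integral_norm _
    have h7 : |L / (2 * Real.pi)| = L / (2 * Real.pi) := abs_of_nonneg (by positivity)
    rw [h7]
    have h8 := hO (L / 4) hR
    have h9 : L / (2 * Real.pi) * (C5 / (L / 4) ^ 2) ≤ 16 * C5 := by
      have hpi := Real.pi_gt_three
      have hL0 : 0 < L := by linarith
      have : L / (2 * Real.pi) * (C5 / (L / 4) ^ 2) = 16 * C5 / (2 * Real.pi * L) := by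
        field_simp
        norm_num
      rw [this]
      apply div_le_self (by positivity)
      nlinarith
    calc L / (2 * Real.pi) * |om (L / 4) - 1| * |IF| ≤ L / (2 * Real.pi) * (C5 / (L / 4) ^ 2) * I1 :=
          mul_le_mul (mul_le_mul_of_nonneg_left h8 (by positivity)) h6 (abs_nonneg _) (by positivity)
      _ ≤ 16 * C5 * I1 := mul_le_mul_of_nonneg_right h9 hI10
  have h9 := norm_add_le (((∑ s ∈ Z, (mz s : ℝ) * F (s.im - t) : ℝ) : ℂ) -
          ∑ s ∈ Z, (mz s : ℂ) * KF F (L / 4) (H370.zz s - t))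
        ((∑ s ∈ Z, (mz s : ℂ) * KF F (L / 4) (H370.zz s - t)) -
          ((L / (2 * Real.pi) * om (L / 4) * IF - BB F (L / 4) t : ℝ) : ℂ))
  have h10 : ‖((∑ s ∈ Z, (mz s : ℝ) * F (s.im - t) : ℝ) : ℂ) -
          ∑ s ∈ Z, (mz s : ℂ) * KF F (L / 4) (H370.zz s - t)‖ ≤
        ∑ s ∈ Z, (mz s : ℝ) * gz F (L / 4) s (s.im - t) := h1
  linarith

lemma gz_cont {F : ℝ → ℝ} (hF : C2c F) (R : ℝ) (s : ℂ) : Continuous (gz F R s) := by
  have h1 := KF_cont hF R
  have h2 := hF.cont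
  unfold gz
  fun_prop

theorem t_APM : S_APM := by
  obtain ⟨C1, T1, hC1, hT1, hP⟩ := t_PT
  obtain ⟨C2, hC2, hA⟩ := t_L1A t_KER t_OM
  obtain ⟨C3, hC3, hL⟩ := t_L1B t_KER
  obtain ⟨C4, T4, hC4, hT4, hD⟩ := t_DEN
  obtain ⟨C6, T6, hC6, hT6, hN⟩ := H370.nn_asymp H370.good_zeta
  refine ⟨C1 + (1 + C6) * (16 * C2) + C3 * C4, max (max T1 T4) T6,
    by positivity, le_trans hT1 ((le_max_left _ _).trans (le_max_left _ _)), fun T hT => ?_⟩
  have hTT1 : T1 ≤ T := ((le_max_left _ _).trans (le_max_left _ _)).trans hT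
  have hTT4 : T4 ≤ T := ((le_max_right _ _).trans (le_max_left _ _)).trans hT
  have hTT6 : T6 ≤ T := (le_max_right _ _).trans hT
  obtain ⟨hL20, hLT, U1, U2, hU1, hU1', hU2, hU2', hP⟩ := hP T hTT1
  refine ⟨hL20, hLT, fun F hc2 => ?_⟩
  have hP := hP F hc2
  set L := Real.log T with hLd
  have hT10 : 10 ≤ T := hT1.trans hTT1
  have hT0 : 0 < T := by linarith
  have hL0 : 0 < L := by linarith
  have hU : 1 ≤ U1 := by linarith
  have hab : T + 2 * L ≤ 2 * T - 2 * L := by linarith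
  have hR : 1 ≤ L / 4 := by linarith
  set C := C1 + (1 + C6) * (16 * C2) + C3 * C4 with hCd
  set Z := H370.Zf riemannZeta U1 U2 with hZ
  set I1 := ∫ x : ℝ, |F x| with hI1
  set I2 := ∫ x : ℝ, |deriv (deriv F) x| with hI2
  have hI10 : 0 ≤ I1 := integral_nonneg fun _ => abs_nonneg _
  have hI20 : 0 ≤ I2 := integral_nonneg fun _ => abs_nonneg _
  have hgc := fun s => gz_cont hc2 (L / 4) s
  have hXc : ContinuousOn (XF F T) (Icc (T + 2 * L) (2 * T - 2 * L)) := XF_contOn hc2 (by linarith)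
  have hBc := t_BBC F hc2 (L / 4) hR
  have s1 : ∫ t in (T + 2 * L)..(2 * T - 2 * L), max 0 (|XF F T t + BB F (L / 4) t| - C * I1) ≤
      ∫ t in (T + 2 * L)..(2 * T - 2 * L), ∑ s ∈ Z, (mz s : ℝ) * gz F (L / 4) s (s.im - t) := by
    apply intervalIntegral.integral_mono_on hab
    · apply ContinuousOn.intervalIntegrable
      rw [uIcc_of_le hab]
      exact ContinuousOn.sup continuousOn_const (((hXc.add hBc.continuousOn).abs).sub continuousOn_const)
    · exact Continuous.intervalIntegrable (by fun_prop) _ _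
    · intro t ht
      have hn : 0 ≤ ∑ s ∈ Z, (mz s : ℝ) * gz F (L / 4) s (s.im - t) :=
        Finset.sum_nonneg fun s _ => mul_nonneg (Nat.cast_nonneg _) (by unfold gz; positivity)
      apply max_le hn
      have h1 := hP t ht.1 ht.2
      have h2 : C1 * I1 ≤ C * I1 := by
        apply mul_le_mul_of_nonneg_right _ hI10
        rw [hCd]
        have : 0 ≤ (1 + C6) * (16 * C2) + C3 * C4 := by positivity
        linarith
      linarith
  have s2 : ∫ t in (T + 2 * L)..(2 * T - 2 * L), ∑ s ∈ Z, (mz s : ℝ) * gz F (L / 4) s (s.im - t) =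
      ∑ s ∈ Z, (mz s : ℝ) * ∫ t in (T + 2 * L)..(2 * T - 2 * L), gz F (L / 4) s (s.im - t) := by
    rw [intervalIntegral.integral_finsetSum]
    · exact Finset.sum_congr rfl fun s _ => intervalIntegral.integral_const_mul _ _
    · intro s _
      exact Continuous.intervalIntegrable (by fun_prop) _ _
  refine s1.trans ?_
  rw [s2]
  obtain ⟨ha1, ha2⟩ := hA F hc2 (L / 4) hR
  have hb : ∀ s ∈ Z, (mz s : ℝ) * (∫ t in (T + 2 * L)..(2 * T - 2 * L), gz F (L / 4) s (s.im - t)) ≤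
      (mz s : ℝ) * (C2 / (L / 4) ^ 2 * (I1 + I2)) +
        C3 * I2 * ((mz s : ℝ) * ((s.re - 1 / 2) ^ 2 * Real.exp (L * |s.re - 1 / 2| / 2))) := by
    intro s hs
    rw [hZ, H370.mem_Zf H370.good_zeta hU] at hs
    obtain ⟨hs1, hs2, -⟩ := hs
    have hy : |s.re - 1 / 2| ≤ 1 / 2 := by rw [abs_le]; constructor <;> linarith
    obtain ⟨hb1, hb2⟩ := hL F hc2 (L / 4) (s.re - 1 / 2) hR hy
    have hsplit : ∫ t in (T + 2 * L)..(2 * T - 2 * L), gz F (L / 4) s (s.im - t) =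
        (∫ t in (T + 2 * L)..(2 * T - 2 * L), ‖KF F (L / 4) ((s.im - t : ℝ) : ℂ) - F (s.im - t)‖) +
        ∫ t in (T + 2 * L)..(2 * T - 2 * L), ‖KF F (L / 4) (((s.im - t : ℝ) : ℂ) + ((s.re - 1 / 2 : ℝ) : ℂ) * I) +
          KF F (L / 4) (((s.im - t : ℝ) : ℂ) - ((s.re - 1 / 2 : ℝ) : ℂ) * I) - 2 * KF F (L / 4) ((s.im - t : ℝ) : ℂ)‖ := by
      unfold gz
      have hKc := KF_cont hc2 (L / 4)
      have hFc := hc2.cont
      rw [intervalIntegral.integral_add]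
      · exact Continuous.intervalIntegrable (by fun_prop) _ _
      · exact Continuous.intervalIntegrable (by fun_prop) _ _
    have h1 := int_shift_le ha1.norm (fun _ => norm_nonneg _) s.im (T + 2 * L) (2 * T - 2 * L) hab
    have h2 := int_shift_le hb1.norm (fun _ => norm_nonneg _) s.im (T + 2 * L) (2 * T - 2 * L) hab
    have h3 := h1.trans ha2
    have h4 := h2.trans hb2
    have h5 : Real.exp (L / 4 * |s.re - 1 / 2|) ≤ Real.exp (L * |s.re - 1 / 2| / 2) := by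
      apply Real.exp_le_exp.2
      nlinarith [mul_nonneg (by linarith : (0:ℝ) ≤ L) (abs_nonneg (s.re - 1 / 2))]
    have h6 : C3 * (s.re - 1 / 2) ^ 2 * Real.exp (L / 4 * |s.re - 1 / 2|) * I2 ≤
        C3 * I2 * ((s.re - 1 / 2) ^ 2 * Real.exp (L * |s.re - 1 / 2| / 2)) := by
      have : C3 * (s.re - 1 / 2) ^ 2 * Real.exp (L / 4 * |s.re - 1 / 2|) * I2 =
        C3 * I2 * ((s.re - 1 / 2) ^ 2 * Real.exp (L / 4 * |s.re - 1 / 2|)) := by ring
      rw [this]
      gcongr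
    have hm : (0 : ℝ) ≤ mz s := Nat.cast_nonneg _
    rw [hsplit]
    calc _ ≤ (mz s : ℝ) * (C2 / (L / 4) ^ 2 * (I1 + I2) +
          C3 * I2 * ((s.re - 1 / 2) ^ 2 * Real.exp (L * |s.re - 1 / 2| / 2))) :=
          mul_le_mul_of_nonneg_left (add_le_add h3 (h4.trans h6)) hm
      _ = _ := by ring
  have hsum := Finset.sum_le_sum hb
  rw [Finset.sum_add_distrib, ← Finset.sum_mul, ← Finset.mul_sum] at hsum
  refine hsum.trans ?_
  have hNN : ∑ s ∈ Z, (mz s : ℝ) ≤ (1 + C6) * T * L := by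
    have h1 := hN T hTT6 U1 U2 hU1 hU1' hU2 hU2'
    have h2 : (H370.NN riemannZeta U1 U2 : ℝ) = ∑ s ∈ Z, (mz s : ℝ) := by
      rw [H370.NN_eq H370.good_zeta hU]
      push_cast
      rfl
    rw [h2] at h1
    have h3 := (abs_le.1 h1).2
    have hpi := Real.pi_gt_three
    have h4 : T * L / (2 * Real.pi) ≤ T * L := by
      apply div_le_self (by positivity); linarith
    nlinarith [mul_pos hT0 (by linarith : (0:ℝ) < L), mul_le_mul_of_nonneg_left (by linarith : (1:ℝ) ≤ L) (by positivity : (0:ℝ) ≤ C6 * T)]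
  have hDD := hD T hTT4 U1 U2 hU1 hU1' hU2 hU2'
  have p1 : (∑ s ∈ Z, (mz s : ℝ)) * (C2 / (L / 4) ^ 2 * (I1 + I2)) ≤ (1 + C6) * (16 * C2) * (T / L * (I1 + I2)) := by
    calc (∑ s ∈ Z, (mz s : ℝ)) * (C2 / (L / 4) ^ 2 * (I1 + I2)) ≤
        ((1 + C6) * T * L) * (C2 / (L / 4) ^ 2 * (I1 + I2)) := by gcongr
      _ = _ := by field_simp; ring
  have p2 : C3 * I2 * (∑ s ∈ Z, (mz s : ℝ) * ((s.re - 1 / 2) ^ 2 * Real.exp (L * |s.re - 1 / 2| / 2))) ≤
      C3 * C4 * (T / L * (I1 + I2)) := by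
    calc C3 * I2 * (∑ s ∈ Z, (mz s : ℝ) * ((s.re - 1 / 2) ^ 2 * Real.exp (L * |s.re - 1 / 2| / 2))) ≤
        C3 * I2 * (C4 * T / L) := by
          apply mul_le_mul_of_nonneg_left hDD (by positivity)
      _ ≤ C3 * (I1 + I2) * (C4 * T / L) := by gcongr; linarith
      _ = _ := by ring
  have p3 : 0 ≤ C1 * (T / L * (I1 + I2)) := by positivity
  calc _ ≤ (1 + C6) * (16 * C2) * (T / L * (I1 + I2)) + C3 * C4 * (T / L * (I1 + I2)) + C1 * (T / L * (I1 + I2)) := by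
        linarith
    _ = _ := by rw [hCd]; ring

end Pool.Agent.H203.ME
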