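import Pool.Agent.H203.ME.INV2

set_option autoImplicit false

open Complex Filter Topology Set MeasureTheory ProbabilityTheory
open scoped BoundedContinuousFunction

namespace Pool.Agent.H203.ME

namespace BLKL

open INVL

/-- the normalised centred sum of unfolded gaps -/
noncomputable def Sn (V : ℝ) (u n : ℕ) : ℝ := (∑ i ∈ Finset.range u, dl (n + i) - u) / Real.sqrt V

lemma min_sub (a b : ℝ) (ha : 0 ≤ a) (hb : 0 ≤ b) : min 1 (a + b) ≤ min 1 a + min 1 b := by
  rcases le_total 1 a with h | h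
  · rw [min_eq_left h]
    exact (min_le_left _ _).trans (by have := le_min zero_le_one hb; linarith)
  · rcases le_total 1 b with h' | h'
    · rw [min_eq_left h']
      exact (min_le_left _ _).trans (by have := le_min zero_le_one ha; linarith)
    · rw [min_eq_right h, min_eq_right h']
      exact min_le_right _ _

lemma min_two (a : ℝ) (ha : 0 ≤ a) : min 1 (2 * a) ≤ 2 * min 1 a := by
  rw [two_mul, two_mul]
  exact min_sub a a ha ha

/-- the sums of gaps are close to minus the smoothed counts -/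
theorem sn_close (hZ : S_ZER) (hA : S_ADP) (hS : S_SGF) (hJ : S_JB) (hL : S_LEV) (hW : S_WIN) (hC : S_CN)
    (hI : S_IDX) (hD : S_IND) (hR : S_NRM) {T V : ℕ → ℝ} {u : ℕ → ℕ} {a0 : ℝ}
    (hT : Tendsto T atTop atTop) (hV : Tendsto V atTop atTop)
    (hVL : Tendsto (fun n => V n / Real.log (T n)) atTop (𝓝 0))
    (hu : Tendsto (fun n => (u n : ℝ) / Real.log (T n)) atTop (𝓝 0))
    (hlim : Tendsto (fun n => Real.log (1 + u n) / V n) atTop (𝓝 a0)) :
    Tendsto (fun N => (∑ n ∈ Finset.Ioc (SG.NZ (T N)) (SG.NZ (2 * T N)),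
      min 1 |Sn (V N) (u N) n + XF (Pv (Real.log (T N)) (u N)) (T N) (SG.ord n) / Real.sqrt (V N)|) /
        (H370.NN riemannZeta (T N) (2 * T N) : ℝ)) atTop (𝓝 0) := by
  obtain ⟨T1, hT1, hlow⟩ := FINL.nn_low
  obtain ⟨T2, hT2, hNR⟩ := hR
  have hLt : Tendsto (fun n => Real.log (T n)) atTop atTop := Real.tendsto_log_atTop.comp hT
  have hinv := inv_prob hZ hA hS hJ hL hW hC hI hD hT hV hVL hu hlim
  -- the middle term
  have hmid : Tendsto (fun N => 2 * Real.pi * ((u N : ℝ) / Real.log (T N))) atTop (𝓝 0) := by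
    have := hu.const_mul (2 * Real.pi)
    rwa [mul_zero] at this
  -- the last term
  have hlast : Tendsto (fun N => (∑ z ∈ H370.Zf riemannZeta (T N) (2 * T N), (mz z : ℝ) *
      min 1 (|XF (Pv (Real.log (T N)) (u N)) (T N) z.im| / (Real.log (T N) / (2 * Real.pi) * Real.sqrt (V N)))) /
        (H370.NN riemannZeta (T N) (2 * T N) : ℝ)) atTop (𝓝 0) := by
    rw [Metric.tendsto_nhds]
    intro ε hε
    obtain ⟨M0, hM0, ht⟩ := tight hZ hA hS hJ hL hT hV (w := fun n => (u n : ℝ))
      (Eventually.of_forall fun n => Nat.cast_nonneg _) hu hlim hε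
    filter_upwards [ht M0 le_rfl, hLt.eventually_ge_atTop (2 * Real.pi * M0), hV.eventually_gt_atTop 0,
      hT.eventually_ge_atTop T1] with N h1 h2 h3 h4
    obtain ⟨hn1, hn2⟩ := hlow (T N) h4
    have hN : 0 < (H370.NN riemannZeta (T N) (2 * T N) : ℝ) := by
      have : 0 < T N * Real.log (T N) := by nlinarith
      linarith
    have hs : 0 < Real.sqrt (V N) := Real.sqrt_pos.2 h3
    have h5 : M0 ≤ Real.log (T N) / (2 * Real.pi) := by
      rw [le_div_iff₀ (by positivity)]
      linarith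
    have hLp : 0 < Real.log (T N) := by linarith
    rw [Real.dist_eq, sub_zero, abs_of_nonneg (div_nonneg (Finset.sum_nonneg fun z _ => by positivity) hN.le)]
    refine lt_of_le_of_lt ?_ h1
    gcongr
  have hall : Tendsto (fun N => 2 * ((∑ n ∈ Finset.Ioc (SG.NZ (T N)) (SG.NZ (2 * T N)),
      min 1 |Dn (T N) (V N) (u N) n + XF (Pv (Real.log (T N)) (u N)) (T N) (SG.ord n) / Real.sqrt (V N)|) /
        (H370.NN riemannZeta (T N) (2 * T N) : ℝ)) + 2 * Real.pi * ((u N : ℝ) / Real.log (T N)) +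
      (∑ z ∈ H370.Zf riemannZeta (T N) (2 * T N), (mz z : ℝ) *
      min 1 (|XF (Pv (Real.log (T N)) (u N)) (T N) z.im| / (Real.log (T N) / (2 * Real.pi) * Real.sqrt (V N)))) /
        (H370.NN riemannZeta (T N) (2 * T N) : ℝ)) atTop (𝓝 0) := by
    have := ((hinv.const_mul 2).add hmid).add hlast
    simpa using this
  refine squeeze_zero' (Eventually.of_forall fun N => ?_) ?_ hall
  · exact div_nonneg (Finset.sum_nonneg fun n _ => by positivity) (Nat.cast_nonneg _)
  filter_upwards [hT.eventually_ge_atTop T1, hT.eventually_ge_atTop T2, hLt.eventually_ge_atTop 7,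
    hV.eventually_ge_atTop 1, hT.eventually_ge_atTop 16, hu.eventually_lt_const zero_lt_one] with N b1 b2 b3 b4 b5 b6
  obtain ⟨hn1, hn2⟩ := hlow (T N) b1
  have hL0 : 0 < Real.log (T N) := by linarith
  have hTL : 0 < T N * Real.log (T N) := mul_pos (by linarith) hL0
  have hN : 0 < (H370.NN riemannZeta (T N) (2 * T N) : ℝ) := by linarith
  have hVp : 0 < V N := by linarith
  have hs : 0 < Real.sqrt (V N) := Real.sqrt_pos.2 hVp
  have hs1 : 1 ≤ Real.sqrt (V N) := by
    rw [show (1 : ℝ) = Real.sqrt 1 by simp]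
    exact Real.sqrt_le_sqrt b4
  have hpi := Real.pi_lt_d2
  have hpi0 := Real.pi_pos
  set L := Real.log (T N) with hLdef
  have huL : (u N : ℝ) ≤ L := by
    rw [div_lt_one hL0] at b6
    exact b6.le
  set X : ℝ → ℝ := fun t => XF (Pv L (u N)) (T N) t with hX
  have hpt : ∀ n ∈ Finset.Ioc (SG.NZ (T N)) (SG.NZ (2 * T N)),
      min 1 |Sn (V N) (u N) n + X (SG.ord n) / Real.sqrt (V N)| ≤
        2 * min 1 |Dn (T N) (V N) (u N) n + X (SG.ord n) / Real.sqrt (V N)| +
          2 * Real.pi * ((u N : ℝ) / L) + min 1 (|X (SG.ord n)| / (L / (2 * Real.pi) * Real.sqrt (V N))) := by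
    intro n hn
    rw [Finset.mem_Ioc] at hn
    have h1 := hNR (T N) b2 n (u N) hn.1 hn.2 huL
    -- the difference of ordinates
    have h2 : SG.ord (n + u N) - SG.ord n = 2 * Real.pi / L * (u N + Real.sqrt (V N) * Dn (T N) (V N) (u N) n) := by
      unfold Dn
      rw [← hLdef]
      field_simp
      ring
    have h3 : |Sn (V N) (u N) n - Dn (T N) (V N) (u N) n| ≤
        2 * Real.pi / L * ((u N : ℝ) + |Dn (T N) (V N) (u N) n|) := by
      have e1 : Sn (V N) (u N) n - Dn (T N) (V N) (u N) n = (∑ i ∈ Finset.range (u N), dl (n + i) -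
          (SG.ord (n + u N) - SG.ord n) * L / (2 * Real.pi)) / Real.sqrt (V N) := by
        unfold Sn Dn
        rw [← hLdef]
        ring
      rw [e1, abs_div, abs_of_pos hs, div_le_iff₀ hs]
      refine h1.trans ?_
      rw [h2, mul_assoc]
      apply mul_le_mul_of_nonneg_left _ (by positivity)
      have h4 : (u N : ℝ) ≤ u N * Real.sqrt (V N) := le_mul_of_one_le_right (Nat.cast_nonneg _) hs1
      have h5 : Real.sqrt (V N) * Dn (T N) (V N) (u N) n ≤ |Dn (T N) (V N) (u N) n| * Real.sqrt (V N) := by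
        rw [mul_comm]
        exact mul_le_mul_of_nonneg_right (le_abs_self _) hs.le
      linarith
    have h4 : |Dn (T N) (V N) (u N) n| ≤ |Dn (T N) (V N) (u N) n + X (SG.ord n) / Real.sqrt (V N)| +
        |X (SG.ord n) / Real.sqrt (V N)| := by
      have := abs_sub (Dn (T N) (V N) (u N) n + X (SG.ord n) / Real.sqrt (V N)) (X (SG.ord n) / Real.sqrt (V N))
      rwa [add_sub_cancel_right] at this
    have h5 : 2 * Real.pi / L ≤ 1 := by
      rw [div_le_one hL0]
      linarith
    have h50 : 0 < 2 * Real.pi / L := by positivity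
    have h6 : |Sn (V N) (u N) n + X (SG.ord n) / Real.sqrt (V N)| ≤
        2 * |Dn (T N) (V N) (u N) n + X (SG.ord n) / Real.sqrt (V N)| + 2 * Real.pi * ((u N : ℝ) / L) +
          |X (SG.ord n)| / (L / (2 * Real.pi) * Real.sqrt (V N)) := by
      have e2 : Sn (V N) (u N) n + X (SG.ord n) / Real.sqrt (V N) =
          (Dn (T N) (V N) (u N) n + X (SG.ord n) / Real.sqrt (V N)) +
          (Sn (V N) (u N) n - Dn (T N) (V N) (u N) n) := by ring
      have h7 := abs_add_le (Dn (T N) (V N) (u N) n + X (SG.ord n) / Real.sqrt (V N))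
        (Sn (V N) (u N) n - Dn (T N) (V N) (u N) n)
      rw [← e2] at h7
      have h8 : 2 * Real.pi / L * ((u N : ℝ) + |Dn (T N) (V N) (u N) n|) ≤
          2 * Real.pi / L * ((u N : ℝ) + (|Dn (T N) (V N) (u N) n + X (SG.ord n) / Real.sqrt (V N)| +
          |X (SG.ord n) / Real.sqrt (V N)|)) := by gcongr
      have h9 : 2 * Real.pi / L * |Dn (T N) (V N) (u N) n + X (SG.ord n) / Real.sqrt (V N)| ≤
          1 * |Dn (T N) (V N) (u N) n + X (SG.ord n) / Real.sqrt (V N)| := by gcongr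
      have e3 : 2 * Real.pi / L * |X (SG.ord n) / Real.sqrt (V N)| =
          |X (SG.ord n)| / (L / (2 * Real.pi) * Real.sqrt (V N)) := by
        rw [abs_div, abs_of_pos hs]
        field_simp
      have e4 : 2 * Real.pi / L * (u N : ℝ) = 2 * Real.pi * ((u N : ℝ) / L) := by ring
      rw [← e3, ← e4]
      linarith
    have hq1 : 0 ≤ 2 * |Dn (T N) (V N) (u N) n + X (SG.ord n) / Real.sqrt (V N)| := by positivity
    have hq2 : 0 ≤ 2 * Real.pi * ((u N : ℝ) / L) := by positivity
    have hq3 : 0 ≤ |X (SG.ord n)| / (L / (2 * Real.pi) * Real.sqrt (V N)) := by positivity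
    calc min 1 |Sn (V N) (u N) n + X (SG.ord n) / Real.sqrt (V N)|
        ≤ min 1 (2 * |Dn (T N) (V N) (u N) n + X (SG.ord n) / Real.sqrt (V N)| + 2 * Real.pi * ((u N : ℝ) / L) +
          |X (SG.ord n)| / (L / (2 * Real.pi) * Real.sqrt (V N))) := min_le_min_left _ h6
      _ ≤ min 1 (2 * |Dn (T N) (V N) (u N) n + X (SG.ord n) / Real.sqrt (V N)| + 2 * Real.pi * ((u N : ℝ) / L)) +
          min 1 (|X (SG.ord n)| / (L / (2 * Real.pi) * Real.sqrt (V N))) := min_sub _ _ (by positivity) hq3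
      _ ≤ (min 1 (2 * |Dn (T N) (V N) (u N) n + X (SG.ord n) / Real.sqrt (V N)|) +
          min 1 (2 * Real.pi * ((u N : ℝ) / L))) +
          min 1 (|X (SG.ord n)| / (L / (2 * Real.pi) * Real.sqrt (V N))) := by
            gcongr
            exact min_sub _ _ hq1 hq2
      _ ≤ _ := by
            gcongr
            · exact min_two _ (abs_nonneg _)
            · exact min_le_right _ _
  have hcard : ((Finset.Ioc (SG.NZ (T N)) (SG.NZ (2 * T N))).card : ℝ) = (H370.NN riemannZeta (T N) (2 * T N) : ℝ) := by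
    rw [Nat.card_Ioc, hI.1 (T N) (2 * T N) (by linarith) (by linarith)]
    congr 1
    omega
  have hsum := Finset.sum_le_sum hpt
  rw [Finset.sum_add_distrib, Finset.sum_add_distrib, Finset.sum_const, nsmul_eq_mul, hcard, ← Finset.mul_sum,
    idx_real hI (by linarith) (fun t => min 1 (|X t| / (L / (2 * Real.pi) * Real.sqrt (V N))))] at hsum
  rw [div_le_iff₀ hN, add_mul, add_mul]
  refine hsum.trans (le_of_eq ?_)
  congr 1
  · congr 1
    · rw [mul_assoc, div_mul_cancel₀ _ hN.ne']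
    · ring
  · rw [div_mul_cancel₀ _ hN.ne']

/-- (BLK) the characteristic function of the sums of gaps, in a dyadic block -/
theorem blk (hZ : S_ZER) (hA : S_ADP) (hS : S_SGF) (hJ : S_JB) (hL : S_LEV) (hW : S_WIN) (hC : S_CN)
    (hI : S_IDX) (hD : S_IND) (hR : S_NRM) {k : ℕ} {T V : ℕ → ℝ} {u : Fin k → ℕ → ℕ} (c : Fin k → ℝ)
    {a0 : Fin k → ℝ} {a : Fin k → Fin k → ℝ} (hT : Tendsto T atTop atTop) (hV : Tendsto V atTop atTop)
    (hVL : Tendsto (fun n => V n / Real.log (T n)) atTop (𝓝 0))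
    (hu : ∀ j, Tendsto (fun n => (u j n : ℝ) / Real.log (T n)) atTop (𝓝 0))
    (ha0 : ∀ j, Tendsto (fun n => Real.log (1 + u j n) / V n) atTop (𝓝 (a0 j)))
    (ha : ∀ i j, Tendsto (fun n => Real.log (1 + |(u i n : ℝ) - u j n|) / V n) atTop (𝓝 (a i j))) :
    Tendsto (fun N => (∑ n ∈ Finset.Ioc (SG.NZ (T N)) (SG.NZ (2 * T N)),
      cexp (I * ((∑ j, c j * Sn (V N) (u j N) n : ℝ) : ℂ))) /
        ((SG.NZ (2 * T N) : ℂ) - (SG.NZ (T N) : ℂ))) atTop
      (𝓝 (cexp (-((1 / (2 * Real.pi ^ 2) * ∑ i, ∑ j, c i * c j * (a0 i + a0 j - a i j) : ℝ) : ℂ) / 2))) := by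
  obtain ⟨T1, hT1, hlow⟩ := FINL.nn_low
  have hgen := t_GEN hZ hA hS hJ (fun j => -c j) (v := fun j n => (u j n : ℝ)) hT hV
    (fun j => Eventually.of_forall fun n => Nat.cast_nonneg _) hu ha0 ha
  have e0 : (1 / (2 * Real.pi ^ 2) * ∑ i, ∑ j, -c i * -c j * (a0 i + a0 j - a i j) : ℝ) =
      1 / (2 * Real.pi ^ 2) * ∑ i, ∑ j, c i * c j * (a0 i + a0 j - a i j) := by
    congr 1
    exact Finset.sum_congr rfl fun i _ => Finset.sum_congr rfl fun j _ => by ring
  rw [e0] at hgen
  -- the difference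
  have hclose : Tendsto (fun N => ∑ j, 2 * (1 + |c j|) * ((∑ n ∈ Finset.Ioc (SG.NZ (T N)) (SG.NZ (2 * T N)),
      min 1 |Sn (V N) (u j N) n + XF (Pv (Real.log (T N)) (u j N)) (T N) (SG.ord n) / Real.sqrt (V N)|) /
        (H370.NN riemannZeta (T N) (2 * T N) : ℝ))) atTop (𝓝 0) := by
    have := tendsto_finsetSum (Finset.univ : Finset (Fin k)) (fun j _ =>
      (sn_close hZ hA hS hJ hL hW hC hI hD hR hT hV hVL (hu j) (ha0 j)).const_mul (2 * (1 + |c j|)))
    simpa using this
  have hd : Tendsto (fun N => (∑ n ∈ Finset.Ioc (SG.NZ (T N)) (SG.NZ (2 * T N)),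
      cexp (I * ((∑ j, c j * Sn (V N) (u j N) n : ℝ) : ℂ))) /
        ((SG.NZ (2 * T N) : ℂ) - (SG.NZ (T N) : ℂ)) -
      (∑ z ∈ H370.Zf riemannZeta (T N) (2 * T N), (mz z : ℂ) *
        cexp (I * ((∑ j, -c j * (XF (Pv (Real.log (T N)) (u j N)) (T N) z.im / Real.sqrt (V N)) : ℝ) : ℂ))) /
        (H370.NN riemannZeta (T N) (2 * T N) : ℂ)) atTop (𝓝 0) := by
    refine squeeze_zero_norm' ?_ hclose
    filter_upwards [hT.eventually_ge_atTop T1, hT.eventually_ge_atTop 16] with N b1 b2
    obtain ⟨hn1, hn2⟩ := hlow (T N) b1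
    have hTL : 0 < T N * Real.log (T N) := mul_pos (by linarith) (by linarith)
    have hN : 0 < (H370.NN riemannZeta (T N) (2 * T N) : ℝ) := by linarith
    have hNZ := hI.1 (T N) (2 * T N) (by linarith) (by linarith)
    have e1 : (SG.NZ (2 * T N) : ℂ) - (SG.NZ (T N) : ℂ) = (H370.NN riemannZeta (T N) (2 * T N) : ℂ) := by
      rw [hNZ]
      push_cast
      ring
    rw [e1, ← hI.2.1 (T N) (by linarith) (fun t => cexp (I * ((∑ j, -c j *
      (XF (Pv (Real.log (T N)) (u j N)) (T N) t / Real.sqrt (V N)) : ℝ) : ℂ))), ← sub_div, ← Finset.sum_sub_distrib,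
      norm_div, Complex.norm_natCast, div_le_iff₀ hN]
    refine (norm_sum_le _ _).trans ?_
    have hpt : ∀ n ∈ Finset.Ioc (SG.NZ (T N)) (SG.NZ (2 * T N)),
        ‖cexp (I * ((∑ j, c j * Sn (V N) (u j N) n : ℝ) : ℂ)) -
          cexp (I * ((∑ j, -c j * (XF (Pv (Real.log (T N)) (u j N)) (T N) (SG.ord n) / Real.sqrt (V N)) : ℝ) : ℂ))‖ ≤
        ∑ j, 2 * (1 + |c j|) *
          min 1 |Sn (V N) (u j N) n + XF (Pv (Real.log (T N)) (u j N)) (T N) (SG.ord n) / Real.sqrt (V N)| := by
      intro n _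
      set A : ℝ := ∑ j, c j * Sn (V N) (u j N) n with hA
      set B : ℝ := ∑ j, -c j * (XF (Pv (Real.log (T N)) (u j N)) (T N) (SG.ord n) / Real.sqrt (V N)) with hB
      have hdiff : A - B = ∑ j, c j * (Sn (V N) (u j N) n +
          XF (Pv (Real.log (T N)) (u j N)) (T N) (SG.ord n) / Real.sqrt (V N)) := by
        rw [hA, hB, ← Finset.sum_sub_distrib]
        exact Finset.sum_congr rfl fun j _ => by ring
      have h1 : ‖cexp (I * (A : ℂ)) - cexp (I * (B : ℂ))‖ ≤ |A - B| := by
        have h2 : cexp (I * (A : ℂ)) - cexp (I * (B : ℂ)) =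
            cexp (I * (B : ℂ)) * (cexp (I * ((A - B : ℝ) : ℂ)) - 1) := by
          rw [mul_sub, ← Complex.exp_add, mul_one]
          congr 2
          push_cast
          ring
        rw [h2, norm_mul, mul_comm I (B : ℂ), Complex.norm_exp_ofReal_mul_I, one_mul, mul_comm I]
        have h3 := Real.norm_exp_I_mul_ofReal_sub_one_le (x := A - B)
        rw [mul_comm, Real.norm_eq_abs] at h3
        exact h3
      have h1' : ‖cexp (I * (A : ℂ)) - cexp (I * (B : ℂ))‖ ≤ 2 := by
        refine (norm_sub_le _ _).trans ?_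
        rw [mul_comm I (A : ℂ), mul_comm I (B : ℂ), Complex.norm_exp_ofReal_mul_I, Complex.norm_exp_ofReal_mul_I]
        norm_num
      -- either some term is at least one, or all are small
      by_cases hbig : ∃ j, 1 ≤ |Sn (V N) (u j N) n +
          XF (Pv (Real.log (T N)) (u j N)) (T N) (SG.ord n) / Real.sqrt (V N)|
      · obtain ⟨j, hj⟩ := hbig
        refine h1'.trans ?_
        refine le_trans ?_ (Finset.single_le_sum (f := fun j => 2 * (1 + |c j|) *
          min 1 |Sn (V N) (u j N) n + XF (Pv (Real.log (T N)) (u j N)) (T N) (SG.ord n) / Real.sqrt (V N)|)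
          (fun j _ => by positivity) (Finset.mem_univ j))
        rw [min_eq_left hj, mul_one]
        have := abs_nonneg (c j)
        linarith
      · push Not at hbig
        refine h1.trans ?_
        rw [hdiff]
        refine (Finset.abs_sum_le_sum_abs _ _).trans (Finset.sum_le_sum fun j _ => ?_)
        rw [min_eq_right (hbig j).le, abs_mul]
        apply mul_le_mul_of_nonneg_right _ (abs_nonneg _)
        have := abs_nonneg (c j)
        linarith
    refine (Finset.sum_le_sum hpt).trans (le_of_eq ?_)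
    rw [Finset.sum_comm, Finset.sum_mul]
    refine Finset.sum_congr rfl fun j _ => ?_
    rw [← Finset.mul_sum]
    field_simp
  have := hd.add hgen
  rw [zero_add] at this
  refine this.congr fun N => ?_
  ring

end BLKL

end Pool.Agent.H203.ME
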