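import Pool.Agent.H203.ME.MAIN

set_option autoImplicit false

/-! Mesoscopic statistics of the zeros of zeta, second stage: law of large numbers for windows, random zeros,
admissibility of scaled functions, limiting covariances. -/

open Complex Filter Topology Set MeasureTheory

namespace Pool.Agent.H203.ME

/-- number of zeros (with multiplicity) with ordinate in `(a, b]`, among those with ordinate in `(T, 2T]` -/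
noncomputable def cnt (T a b : ℝ) : ℝ :=
  ∑ z ∈ H370.Zf riemannZeta T (2 * T), (mz z : ℝ) * (Set.Ioc a b).indicator (fun _ => (1 : ℝ)) z.im

/-- (L1X) the linear statistics are bounded in `L¹`.
Proof.  Write `L = log T`, `R = L / 4`, `a = T + 2L`, `b = 2T - 2L`.  By `S_APX`, `∫_a^b |XF + BB| ≤ C T η ≤ C T`
(and `XF F T` is continuous on `[a, b]`).  So it is enough that `∫_T^{2T} |BB F R t| dt ≤ C T √(V + 1)`, which by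
Cauchy-Schwarz (or `|x| ≤ x²/(2√(V+1)) + √(V+1)/2`) follows from `∫_T^{2T} (BB F R t)² dt ≤ C T (V + 1)`.  `S_PRM` with
`ε = 1/4`, `N = ⌊T^{1/4}⌋`: `∫ (BB - Y1)² ≤ C T (16 η² + (V + 1)/256) ≤ C T (V + 1)`.  And `Y1 F N t = - Re A(t)`,
`A(t) = ∑_{p ≤ N} ap F p · ee p t` (`Y1_eq` in MAIN.lean), so `∫_T^{2T} Y1² ≤ ∫ ‖A‖²`, which `S_MOM` with `j = l = 1`,
`θ = 1` (`ap_le` : `‖ap F p‖ ≤ ∫|F| ≤ η ≤ 1`) bounds by `T (S + (1 + S) + 2 N⁴ / T)`, `N⁴ ≤ T`,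
`S = ∑_{p ≤ N} ‖ap F p‖² = (1/π²) ∑ (log p)²/p ‖FF‖²` (`ap_sq`), and `S_VAR` (with `N ≥ 3`,
`log N ≥ log(T^{1/4})/2 = L/8`, `floor_log`) gives `S ≤ V + C (η + η² + 64 η²) ≤ C (V + 1)`.  `A * conj A = ‖A‖²`. -/
def S_L1X : Prop := ∃ C T0 : ℝ, 0 < C ∧ 10 ≤ T0 ∧ ∀ T : ℝ, T0 ≤ T → ∀ (η V : ℝ) (F : ℝ → ℝ), 0 < η → η ≤ 1 → 0 ≤ V →
  Adm η V (Real.log T) F →
  ∫ t in (T + 2 * Real.log T)..(2 * T - 2 * Real.log T), |XF F T t| ≤ C * T * Real.sqrt (V + 1)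

/-- (ADM) scaled functions are admissible.
Proof.  `F(x) = ∑_j c_j f_j(x / h_j)`, `|c_j| ≤ 1`.  Let `A` be such that all `f_j` vanish outside `[-A, A]`; for
`h_j ≤ 1/K ≤ 1/(A+1)` the function `F` vanishes for `|x| ≥ 1`; it is `C²`.  `∫|F| ≤ ∑ h_j ∫|f_j| ≤ (1/K) ∑ ∫|f_j|`;
`F'' = ∑ c_j h_j⁻² f_j''(x/h_j)`, `∫|F''| ≤ ∑ h_j⁻¹ ∫|f_j''| ≤ (L/K) ∑ ∫|f_j''|`.
`FF (x ↦ f(x/h)) ξ = h · FF f (h ξ)`, so `FF F ξ = ∑ c_j h_j FF f_j (h_j ξ)` and its derivative is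
`∑ c_j h_j² (FF f_j)'(h_j ξ)`.  By `(∑_{j<k} a_j)² ≤ k ∑ a_j²`:
`ξ ‖FF F ξ‖² ≤ k ∑ ξ h_j² ‖FF f_j (h_j ξ)‖²`, whose integral over `ξ > 0` is `k ∑_j ∫ u ‖FF f_j u‖² du =: V'`, (`V = V' + 1`),
and `‖FF‖² + 2 ξ ‖FF‖ ‖FF'‖ ≤ 2 ‖FF‖² + ξ² ‖FF'‖² ≤ k ∑_j (2 h_j² ‖FF f_j(h_j ξ)‖² + ξ² h_j⁴ ‖(FF f_j)'(h_j ξ)‖²)`, whose
integral is `k ∑_j h_j ∫_{u>0} (2 ‖FF f_j u‖² + u² ‖(FF f_j)' u‖²) du ≤ C/K`.
All the integrals are finite: for `g` of class `C²` with compact support `‖FF g u‖ ≤ min (∫|g|) (∫|g''| / u²)`, and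
`(FF g)' u = -i FF (s g(s)) u` (see VAR.lean: `FF_le`, `FF_le2`, `FF_hasDerivAt`, `VARL.FF_hasDeriv`, which are for functions
supported in `[-1,1]`; the lemmas in the namespace `VARL` work for any compactly supported function, or rescale). -/
def S_ADM : Prop := ∀ (k : ℕ) (f : Fin k → ℝ → ℝ), (∀ j, ContDiff ℝ 2 (f j)) → (∀ j, HasCompactSupport (f j)) →
  ∃ V : ℝ, 0 < V ∧ ∀ η : ℝ, 0 < η → ∃ K : ℝ, 1 ≤ K ∧ ∀ (L : ℝ) (h c : Fin k → ℝ), 1 ≤ L →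
    (∀ j, 0 < h j ∧ h j ≤ 1 / K ∧ K ≤ h j * L) → (∀ j, |c j| ≤ 1) →
    Adm η V L (fun x => ∑ j, c j * f j (x / h j))

/-- (LLN) law of large numbers for windows longer than the mean spacing.
Proof.  Given `ε` choose `ν ∈ (0, 1/4)` with `4 ν / (2π) ≤ ε / 4`, and smooth (`C²`) compactly supported `f⁺`, `f⁻`,
`1_{[0,1]} ≤ f⁺ ≤ 1_{[-ν,1+ν]}`, `1_{[ν,1-ν]} ≤ f⁻ ≤ 1_{[0,1]}` (for instance from `Real.smoothTransition` or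
`ContDiffBump`).  For `t` with `T + 2L ≤ t ≤ 2T - 2L`, `0 < s ≤ 1/K` small, `F^± (x) = f^±(x/s)`:
`∑_γ m F^-(γ - t) ≤ cnt T t (t+s) ≤ ∑_γ m F^+(γ - t)` (for the lower bound modify: `f^-` vanishes at `0`, so the zeros with
`γ = t` do not matter), and by the definition of `XF` (and `XF_eq` in APX.lean, which writes it as a finite sum over
`Zf riemannZeta T (2T)`; `∫ F^± = s ∫ f^±`) `∑_γ m F^±(γ - t) = XF F^± T t + (L/2π) s ∫ f^±`, `1 - 2ν ≤ ∫ f^- ≤ 1 ≤ ∫ f^+ ≤ 1 + 2ν`.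
So `|cnt T t (t+s) - s L/(2π)| ≤ |XF F^+ T t| + |XF F^- T t| + 2ν s L/(2π)`.
By `S_ADM` (with `k = 1`, `c = 1`, `h = s`) both `F^±` are in `Adm 1 V L` for some `V = V(ν)` as soon as `s ≤ 1/K`, `K ≤ s L`;
`S_L1X` bounds the integral by `2 C √(V+1) T + 2 ν s L T / (2π) ≤ ε s L T` for `K` large.  (The integrand is a piecewise
constant function of `t`: a finite sum of indicators, hence interval integrable.) -/
def S_LLN : Prop := ∀ ε : ℝ, 0 < ε → ∃ K T0 : ℝ, 1 ≤ K ∧ 10 ≤ T0 ∧ ∀ T : ℝ, T0 ≤ T →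
  ∀ s : ℝ, K ≤ s * Real.log T → s ≤ 1 / K →
  ∫ t in (T + 2 * Real.log T)..(2 * T - 2 * Real.log T), |cnt T t (t + s) - s * Real.log T / (2 * Real.pi)| ≤
    ε * s * Real.log T * T

/-- (ZER) the characteristic function seen from a random zero.
Proof.  `L = log T`, `X = XF F T`, `G = h0 F'`, `a = T + 2L`, `b = 2T - 2L`, `s = τ h0` with `τ ∈ (0,1]` small (fixed,
depending on `V, ε` only).
(1) For `a ≤ x ≤ y ≤ b`: `X` is on `[a, b]` a finite sum over zeros (`XF_eq`), differentiable with `X'(t) = - XF F' T t`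
(`∫ F' = 0`), so `|X(y) - X(x)| ≤ h0⁻¹ ∫_x^y |XF G T r| dr`.
(2) `s ∑_γ m e^{iX(γ)}` versus `∫_a^b e^{iX(t)} cnt T t (t+s) dt = ∑_γ m ∫_a^b 1[t < γ ≤ t+s] e^{iX(t)} dt`: for
`a + s ≤ γ ≤ b` the inner integral is over `[γ - s, γ)`, where `|e^{iX(γ)} - e^{iX(t)}| ≤ min(2, W(t))`,
`W(t) = h0⁻¹ ∫_t^{t+s} |XF G T r| dr` (with `r` restricted to `≤ b`); the other zeros contribute at most `s` each to both
sides, and there are at most `C L²` of them (`H370.zcount`: at most `C log T` zeros in each unit interval).  Hence the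
difference is at most `∫_a^b min(2, W(t)) cnt T t (t+s) dt + 2 C s L²
≤ (sL/2π) ∫_a^b W + 2 ∫_a^b |cnt T t (t+s) - sL/2π| dt + 2 C s L²`, and `∫_a^b W ≤ s h0⁻¹ ∫_a^b |XF G T| ≤ τ C T √(V+1)` by
`S_L1X`; the second term is at most `2 ε' s L T` by `S_LLN` (`s L = τ h0 L ≥ τ/η ≥ K`, `s ≤ τ η ≤ 1/K` for small `η`).
(3) `∫_a^b e^{iX(t)} cnt T t (t+s) dt = (sL/2π) ∫_a^b e^{iX} + O(ε' s L T) = (sL/2π) (T e^{-sg F/2} + O(ε' T) + O(L))` by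
`S_LLN` and `S_MAIN`.
(4) Divide by `s`: `|∑_γ m e^{iX(γ)} - (T L/2π) e^{-sg F/2}| ≤ T L (τ C √(V+1) + 4 ε') + C L²`; and
`H370.NN riemannZeta T (2T) = T L/2π + O(T)` (`H370.nn_asymp`, `H370.NN_ends`, `H370.NN_mono` with `H370.good_zeta`). -/
def S_ZER : Prop := ∀ V ε : ℝ, 0 < V → 0 < ε → ∃ η T0 : ℝ, 0 < η ∧ η ≤ 1 ∧ 10 ≤ T0 ∧ ∀ T : ℝ, T0 ≤ T →
  ∀ (F : ℝ → ℝ) (h0 : ℝ), 0 < h0 → h0 ≤ η → 1 ≤ η * (h0 * Real.log T) →
    Adm η V (Real.log T) F → Adm η V (Real.log T) (fun x => h0 * deriv F x) →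
    ‖(∑ z ∈ H370.Zf riemannZeta T (2 * T), (mz z : ℂ) * cexp (I * (XF F T z.im : ℂ))) -
      (H370.NN riemannZeta T (2 * T) : ℂ) * cexp (-(sg F : ℂ) / 2)‖ ≤ ε * (T * Real.log T)

/-- covariance of the limiting Gaussian field -/
noncomputable def cv (f g : ℝ → ℝ) : ℝ :=
  1 / (2 * Real.pi ^ 2) * ∫ ξ in Ioi (0 : ℝ), ξ * (FF f ξ * (starRingEnd ℂ) (FF g ξ)).re

/-- (COV) the variance of a combination at several scales; `R i j` says that `i`, `j` have the same scale.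
Proof.  `FF F ξ = ∑_j c_j h_j FF f_j (h_j ξ)`, so `sg F = ∑_{i,j} c_i c_j (1/2π²) ∫_{ξ>0} ξ h_i h_j Re(FF f_i (h_i ξ)
conj (FF f_j (h_j ξ))) dξ`.  If `h_i = h_j` the substitution `u = h_i ξ` gives `cv (f i) (f j)`.  If `ρ = h_i / h_j → 0`:
`|∫ ξ h_i h_j FF f_i(h_i ξ) conj FF f_j(h_j ξ)| = |∫ u ρ FF f_i(ρ u) conj FF f_j(u) du| ≤
ρ (∫ ‖FF f_i(ρu)‖² du)^{1/2} (∫ u² ‖FF f_j u‖² du)^{1/2} = √ρ ‖FF f_i‖_2 ‖u FF f_j‖_2 → 0` (or, avoiding square roots,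
`ρ a b ≤ √ρ (ρ a² + b²)/2`), both norms being finite since `‖FF g u‖ ≤ C/(1+u²)`.  The case `ρ → ∞` is symmetric. -/
def S_COV : Prop := ∀ (k : ℕ) (f : Fin k → ℝ → ℝ), (∀ j, ContDiff ℝ 2 (f j)) → (∀ j, HasCompactSupport (f j)) →
  ∀ (R : Fin k → Fin k → Prop) [∀ i j, Decidable (R i j)] (h : Fin k → ℝ → ℝ) (c : Fin k → ℝ),
    (∀ j T, 0 < h j T) → (∀ i j, R i j → ∀ T, h i T = h j T) →
    (∀ i j, ¬ R i j → Tendsto (fun T => h i T / h j T) atTop (𝓝 0) ∨ Tendsto (fun T => h j T / h i T) atTop (𝓝 0)) →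
    Tendsto (fun T => sg (fun x => ∑ j, c j * f j (x / h j T))) atTop
      (𝓝 (∑ i, ∑ j, c i * c j * (if R i j then cv (f i) (f j) else 0)))

end Pool.Agent.H203.ME
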