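import Pool.Agent.H203.ME.ALL2

set_option autoImplicit false

/-! Mesoscopic statistics of the zeros of zeta, third stage: second moments and the pair correlation at mesoscopic
distances, without any hypothesis on the zeros. -/

open Complex Filter Topology Set MeasureTheory

namespace Pool.Agent.H203.ME

/-- the error at one zero of replacing the ordinate by the complex zero -/
noncomputable def gz (F : ℝ → ℝ) (R : ℝ) (s : ℂ) (x : ℝ) : ℝ :=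
  ‖KF F R ((x : ℝ) : ℂ) - F x‖ +
    ‖KF F R (((x : ℝ) : ℂ) + ((s.re - 1 / 2 : ℝ) : ℂ) * I) +
      KF F R (((x : ℝ) : ℂ) - ((s.re - 1 / 2 : ℝ) : ℂ) * I) - 2 * KF F R ((x : ℝ) : ℂ)‖

/-- (PT) the pointwise approximate formula (proved by helper203). -/
def S_PT : Prop := ∃ C T0 : ℝ, 0 < C ∧ 10 ≤ T0 ∧ ∀ T : ℝ, T0 ≤ T → 20 ≤ Real.log T ∧ Real.log T ≤ T / 10 ∧
  ∃ U1 U2 : ℝ, T ≤ U1 ∧ U1 ≤ T + 1 ∧ 2 * T - 1 ≤ U2 ∧ U2 ≤ 2 * T ∧ ∀ F : ℝ → ℝ, C2c F →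
    ∀ t : ℝ, T + 2 * Real.log T ≤ t → t ≤ 2 * T - 2 * Real.log T →
      |XF F T t + BB F (Real.log T / 4) t| ≤
        (∑ s ∈ H370.Zf riemannZeta U1 U2, (mz s : ℝ) * gz F (Real.log T / 4) s (s.im - t)) + C * ∫ x : ℝ, |F x|

/-- (APM) the part of the error which is not uniformly small is small in `L¹` (proved by helper203). -/
def S_APM : Prop := ∃ C T0 : ℝ, 0 < C ∧ 10 ≤ T0 ∧ ∀ T : ℝ, T0 ≤ T → 20 ≤ Real.log T ∧ Real.log T ≤ T / 10 ∧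
  ∀ F : ℝ → ℝ, C2c F →
    ∫ t in (T + 2 * Real.log T)..(2 * T - 2 * Real.log T),
      max 0 (|XF F T t + BB F (Real.log T / 4) t| - C * ∫ x : ℝ, |F x|) ≤
        C * T / Real.log T * ((∫ x : ℝ, |F x|) + ∫ x : ℝ, |deriv (deriv F) x|)

/-- (BB2) the mean square of the prime side.
Proof.  This is contained in the proof of `t_L1X` (file L1X.lean): `S_PRM` with `ε = 1/4`, `S_MOM` with `j = l = 1`,
`S_VAR`, `floor_log`, `Y1_eq`, `ap_le`, `ap_sq`.  (`BB²  ≤ 2 (BB - Y1)² + 2 Y1²`.) -/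
def S_BB2 : Prop := ∃ C T0 : ℝ, 0 < C ∧ 10 ≤ T0 ∧ ∀ T : ℝ, T0 ≤ T → ∀ (η V : ℝ) (F : ℝ → ℝ), 0 < η → η ≤ 1 → 0 ≤ V →
  Adm η V (Real.log T) F → ∫ t in T..(2 * T), (BB F (Real.log T / 4) t) ^ 2 ≤ C * T * (V + 1)

/-- (BBV) the mean square of the prime side, asymptotically.
Proof.  `L = log T`, `a = T + 2L`, `b = 2T - 2L`.  Write `A(t) = ∑_{p ≤ N} ap F p · ee p t`, `N = ⌊T^{ε₁}⌋` with `ε₁ ≤ 1/8` small
depending on `ε, V`; `Y1 F N t = - Re A(t)` (`Y1_eq` in MAIN.lean), `(Re A)² = (‖A‖² + Re A²)/2`.  `S_MOM` with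
`(j,l) = (1,1)` and `(2,0)`, `θ = η` (`ap_le`): `(1/T) ∫_T^{2T} Y1² = S/2 + O(η² (1+S)² + N⁴/T)`,
`S = ∑ ‖ap F p‖² = (1/π²) ∑_{p ≤ N} (log p)²/p ‖FF F (log p)‖²` (`ap_sq`), and `S_VAR` gives
`|S/2 - sg F| ≤ C (η + η² + (η/ε₁)²)` (`log N ≥ ε₁ L / 2`, see `floor_log` and the proof of `t_MAIN`).
`|Y1| ≤ ∑_{p ≤ N} ‖ap F p‖ ≤ N`, so the integral of `Y1²` over the rest of `[T, 2T]` is at most `4 L N² = o(T)`.
By `S_PRM`: `∫_a^b (BB - Y1)² ≤ ∫_T^{2T} (BB - Y1)² ≤ C T (η²/ε₁² + ε₁⁴ (V+1))`, and `|∫ BB² - ∫ Y1²| ≤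
∫ |BB - Y1| (|BB - Y1| + 2 |Y1|) ≤ (1 + 1/δ) ∫ (BB - Y1)² + δ ∫ Y1²` for every `δ > 0`.  Choose `δ`, then `ε₁`, then `η`,
then `T0`.  (`BB F (L/4)` is continuous by `t_BBC`.) -/
def S_BBV : Prop := ∀ V ε : ℝ, 0 < V → 0 < ε → ∃ η T0 : ℝ, 0 < η ∧ η ≤ 1 ∧ 10 ≤ T0 ∧ ∀ T : ℝ, T0 ≤ T →
  ∀ F : ℝ → ℝ, Adm η V (Real.log T) F →
    |(∫ t in (T + 2 * Real.log T)..(2 * T - 2 * Real.log T), (BB F (Real.log T / 4) t) ^ 2) - T * sg F| ≤ ε * T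

/-- (NT) tail of the number of zeros in a window of one mean spacing.
Proof.  `L = log T`, `a = T + 2L`, `b = 2T - 2L`.  Fix a `C²` function `f`, `1_{[-1,1]} ≤ f ≤ 1_{[-2,2]}` (`LLNL.bu` in LLN.lean),
`F_s(x) = f(x/s)`, `X = XF F_s T`, `BB = BB F_s (L/4)`; `∫ F_s ≤ 4 s`, `∫ |F_s''| = s⁻¹ ∫ |f''|`; by `S_ADM` (`k = 1`)
`F_s ∈ Adm 1 V L` if `s ≤ 1/K`, `s L ≥ K` (`K ≥ 1`).
(1) For `y ≥ 32 C s` (`C` from `S_APM`) `∫_a^b |X| 1(|X| ≥ y) ≤ C' T (1/(sL) + 1/y)`: with `E = max 0 (|X + BB| - C ∫|F_s|)` one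
has on `|X| ≥ y`: `(7/8)|X| ≤ E + |BB|`, so either `|X| ≤ 3 E` or `|BB| ≥ |X|/2 ≥ y/2` and then `|X| ≤ 4 BB²/y`; use `S_APM` and
`S_BB2`.
(2) Let `x ≥ x0` and `x ≤ c L` (`x0` large, `c` small constants), `s = x/(2L)`.  Let `N(t) = cnt T t (t + 1/L)`.  If
`N(t) ≥ x` and `|t' - t| ≤ s/2` then (as `1/L ≤ s/2`) `cnt T (t'-s) (t'+s) ≥ N(t) ≥ x` and `X(t') ≥ cnt T (t'-s) (t'+s) - (L/2π) 4 s
≥ (2/3) cnt T (t'-s) (t'+s) ≥ (2/3) x` (`XF_eq` in APX.lean).  Hence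
`∫ N(t) 1(N(t) ≥ x) dt = (1/s) ∫∫_{|t'-t| ≤ s/2} ... ≤ (1/s) ∫_a^b 1(X(t') ≥ 2x/3) (∫_{|t-t'| ≤ s/2} N(t) dt) dt'` and
`∫_{|t-t'| ≤ s/2} N(t) dt ≤ (1/L) cnt T (t'-s) (t'+s) ≤ (3/(2L)) X(t')`, so the integral is at most
`(3/(2sL)) ∫ X 1(X ≥ 2x/3) ≤ (3/x) C' T (2/x + 3/(2x))`.
(3) `cnt T t (t+1/L) ≤ C0 L` always (`H370.zcount`, see `ZERL.NN_le`), so nothing to prove for `x > C0 L`; for `c L < x ≤ C0 L`
apply (2) with `c L`; for `x < x0` use `∫ N(t) dt ≤ (1/L) ∑ mz ≤ C T` (`H370.nn_asymp`). -/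
def S_NT : Prop := ∃ C T0 : ℝ, 0 < C ∧ 10 ≤ T0 ∧ ∀ T : ℝ, T0 ≤ T → ∀ x : ℝ, 1 ≤ x →
  ∫ t in (T + 3 * Real.log T)..(2 * T - 3 * Real.log T),
    (if x ≤ cnt T t (t + 1 / Real.log T) then cnt T t (t + 1 / Real.log T) else 0) ≤ C * T / x ^ 2

/-- the weight of a zero -/
noncomputable def ww (T : ℝ) (s : ℂ) : ℝ :=
  1 + (Real.log T * (s.re - 1 / 2)) ^ 2 * Real.exp (Real.log T * |s.re - 1 / 2| / 4)

/-- weighted number of zeros with ordinate in `(a, b]`, among those with ordinate in `(T, 2T]` -/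
noncomputable def cw (T a b : ℝ) : ℝ :=
  ∑ z ∈ H370.Zf riemannZeta T (2 * T), (mz z : ℝ) * ww T z * (Set.Ioc a b).indicator (fun _ => (1 : ℝ)) z.im

/-- (W2) mean square of the weighted number of zeros in windows of one mean spacing.
Proof.  `L = log T`, `N(t) = cnt T t (t + 1/L)`.  By Cauchy-Schwarz `cw(t)² ≤ N(t) ∑_{t < γ ≤ t + 1/L} m w²`, so
`∫_ℝ cw² ≤ ∑_z m w_z² ∫ 1[t < γ_z ≤ t + 1/L] N(t) dt ≤ (1/L) ∑_z m w_z² M_z`, `M_z = cnt T (γ_z - 1/L) (γ_z + 1/L)`.  By Young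
(or Hölder) `w² M ≤ w⁵ + M^{5/3}`.  First sum: `(1 + u² e^{u/4})⁵ ≤ C e^{1.3 u}` for `u = L |β - 1/2| ≥ 0` and
`∑ m e^{1.3 L |β - 1/2|} ≤ C T L` by `Pool.Agent.Results.MP_db1c88_nt.DistancesToTheLine` (the exponent is `< 4/3`; see the
proof of `t_DEN` in DEN.lean, which does this for the exponent `1`, including the symmetry `s ↦ 1 - conj s`).
Second sum: the zeros with ordinate within `5 L` of `T` or `2T` are at most `C L²` in number, with `M_z ≤ C L` (`H370.zcount`), so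
they contribute `≤ C L⁴ ≤ C T`.  For the others `M_z ≤ cnt T t (t + 3/L)` for all `t ∈ [γ_z - 2/L, γ_z - 1/L]`, so
`∑ m M_z^{5/3} ≤ L ∫ cnt(t, t+3/L)^{5/3} cnt(t, t + 3/L) dt ≤ 3^{5/3} L ∑_{i<3} ∫ N(t + i/L)^{8/3} dt` (range inside
`[T + 3L, 2T - 3L]`), and from `S_NT`, splitting dyadically (`N ^ (8/3) ≤ ∑_k 2^{5(k+1)/3} N 1(N ≥ 2^k)` for `N ≥ 1`; `N` is an
integer), `∫ N^{8/3} ≤ ∑_k 2^{5(k+1)/3} C T 4^{-k} ≤ C' T`. -/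
def S_W2 : Prop := ∃ C T0 : ℝ, 0 < C ∧ 10 ≤ T0 ∧ ∀ T : ℝ, T0 ≤ T →
  ∫ t : ℝ, (cw T t (t + 1 / Real.log T)) ^ 2 ≤ C * T

/-- (KP) pointwise bound for the smoothing error.
Proof.  `W = WR R` is entire, `|W(x + iv)| ≤ C R e^{R|v|} e^{v²/2} / (1 + (R x)⁴)` (`S_KER`).
(a) `KF(x+iy) + KF(x-iy) - 2 KF(x) = - ∫_0^y ∫_{-τ}^{τ} ∫ F''(s) W(x - s + iv) ds dv dτ` (proved in L1B.lean), hence its norm
is at most `C y² e^{R|y|} M R ∫_{-h}^{h} ds / (1 + (R (x-s))⁴)`; for `|x| ≤ 2h` the last integral is `≤ C/R`; for `|x| ≥ 2h`,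
`|x - s| ≥ |x|/2` and `R · 2h · 16/(R|x|)⁴ ≤ 32 (h/|x|)⁴` because `R h ≥ 1`.
(b) `KF(x) - F(x) = ∫ (F(x-w) - F(x) + w F'(x)) W(w) dw + (om R - 1) F(x)`; the first part is at most
`(M/2) ∫ w² |W(w)| dw ≤ C M / R²`, the second one `≤ (C/R²) |F(x)|`, `|F(x)| ≤ M h²/2 ≤ M/2` (Taylor at `±h`); and for `|x| ≥ 2h`,
`|KF(x) - F(x)| = |∫ F(s) W(x-s) ds| ≤ 2h · (M h²/2) · C R · 16/(R|x|)⁴ ≤ C (M/R²) (h/|x|)⁴ (R h)^{-1}`. -/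
def S_KP : Prop := ∃ C : ℝ, 0 < C ∧ ∀ (F : ℝ → ℝ), C2c F → ∀ M h : ℝ, 0 < h → h ≤ 1 →
  (∀ x : ℝ, |deriv (deriv F) x| ≤ M) → (∀ x : ℝ, h ≤ |x| → F x = 0) → ∀ R : ℝ, 1 ≤ R → 1 ≤ R * h →
  ∀ (s : ℂ) (x : ℝ), |s.re - 1 / 2| ≤ 1 / 2 →
    gz F R s x ≤ C * M * (1 / R ^ 2 + (s.re - 1 / 2) ^ 2 * Real.exp (R * |s.re - 1 / 2|)) / (1 + (x / h) ^ 2)

/-- (L2) the approximate formula in mean square.
Proof.  `L = log T`, `F(x) = f(x/h)`, `f` supported in `[-A, A]`, `A ≥ 1`, `h' = A h ≤ 1`, `M = sup|f''| / h²`.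
By `S_PT`, `|XF + BB| ≤ ∑_z m g_z(γ_z - t) + C ∫|F|`, and by `S_KP` with `R = L/4`, `h'`:
`g_z(x) ≤ C M (16/L² + y² e^{L|y|/4}) κ(x/h') ≤ C (hL)^{-2} ww T z κ(x/h')`, `κ(v) = 1/(1+v²)`.  If `1/L ≤ h'`,
`κ(x/h') ≤ 3 L ∫_{x-1/L}^{x} κ(r/h') dr`, so with `x = γ_z - t`:
`∑_z m ww κ((γ_z - t)/h') ≤ 3 L ∫_ℝ κ(r/h') cw T (t+r) (t+r+1/L) dr` (the zeros of `Zf U1 U2` are among those of
`Zf T 2T`).  Cauchy-Schwarz with `∫ κ(r/h') dr = π h'`: the square is at most `9 L² π h' ∫ κ(r/h') cw(t+r, ..)² dr`, and its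
integral over `t ∈ ℝ` is `9 L² π² h'² ∫ cw² ≤ C L² h'² T` by `S_W2` (Tonelli).  Total
`2 C (hL)^{-4} L² h² T + 2 T (C ∫|F|)²`, `∫|F| = h ∫|f|`. -/
def S_L2 : Prop := ∀ f : ℝ → ℝ, ContDiff ℝ 2 f → HasCompactSupport f → ∃ C K T0 : ℝ, 0 < C ∧ 1 ≤ K ∧ 10 ≤ T0 ∧
  ∀ T : ℝ, T0 ≤ T → ∀ h : ℝ, K ≤ h * Real.log T → h ≤ 1 / K →
    ∫ t in (T + 2 * Real.log T)..(2 * T - 2 * Real.log T),
      (XF (fun x => f (x / h)) T t + BB (fun x => f (x / h)) (Real.log T / 4) t) ^ 2 ≤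
        C * T * (1 / (h * Real.log T) ^ 2 + h ^ 2)

/-- (SEC) second moments of the linear statistics.
Proof.  First one function (`f = g`).  `L = log T`, `a = T + 2L`, `b = 2T - 2L`, `F_T(x) = f(x/h(T))`; by `S_ADM` (`k = 1`, `c = 1`)
`F_T ∈ Adm η V L` for a fixed `V`, every `η` and large `T`, and `sg F_T = sg f` (substitution; or `S_COV` with `k = 1`), so
`(1/T) ∫_a^b BB² → sg f` by `S_BBV`; by `S_L2` `(1/T) ∫_a^b (X + BB)² → 0`; `|X² - BB²| ≤ (1 + 1/δ)(X + BB)² + δ BB²`, so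
`(1/T) ∫_a^b X² → sg f`.  On the rest of `[T, 2T]` (length `4L`) `|X| ≤ C L` (`H370.zcount`, and `XF_eq` with `U1 = T - 1`,
`U2 = 2T + 1`), so its contribution is at most `C L³ / T → 0`.
Two functions: `X_f X_g = (X_{f+g}² - X_{f-g}²)/4` and `(sg (f+g) - sg (f-g))/4 = cv f g` (`XF` is linear:
`FINL.XF_lin`; `FF` is linear; the integrals defining `sg`, `cv` converge: `ADML.int_w1`, `COVL.decay`). -/
def S_SEC : Prop := ∀ f g : ℝ → ℝ, ContDiff ℝ 2 f → HasCompactSupport f → ContDiff ℝ 2 g → HasCompactSupport g →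
  ∀ h : ℝ → ℝ, Tendsto h atTop (𝓝 0) → Tendsto (fun T => h T * Real.log T) atTop atTop →
    Tendsto (fun T : ℝ => 1 / T * ∫ t in T..(2 * T), XF (fun x => f (x / h T)) T t * XF (fun x => g (x / h T)) T t)
      atTop (𝓝 (cv f g))

/-- (REP) every `C⁶` function with compact support is a sum of two correlations of `C²` functions.
Proof.  Let `E(v) = (1 + |v|) e^{-|v|} / 4`; `E` is `C²` (near `0`: `1 - v²/2 + |v|³/3 - ...`), and smooth with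
`(1 - ∂²)² E = 0` off `0`; the third derivative jumps by `1` at `0`, so `E * (1 - ∂²)² φ = φ` for `φ ∈ C⁴_c`.  Let `χ` be a smooth
even cutoff, `χ = 1` on `[-1, 1]`, `χ = 0` off `[-2, 2]`, `ψ = (1 - ∂²)² φ` (`C²`), `ρ = (1 - ∂²)² ((1 - χ) E)` (smooth, supported in
`1 ≤ |v| ≤ 2`).  Then `φ = (χ E) * ψ + ρ * φ`: integrate by parts four times on each half line in
`∫ χ(u) E(u) ψ(v - u) du` and in `∫ (1 - χ(u)) E(u) ψ(v-u) du = ∫ ρ(u) φ(v-u) du`.  `χ E` and `ρ` are even and `C²` with compact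
support, so `(χE * ψ)(v) = ∫ (χE)(u) ψ(u + v) du` and `(ρ * φ)(v) = ∫ ρ(u) φ(u + v) du`. -/
def S_REP : Prop := ∀ φ : ℝ → ℝ, ContDiff ℝ 6 φ → HasCompactSupport φ → ∃ f1 g1 f2 g2 : ℝ → ℝ,
  ContDiff ℝ 2 f1 ∧ ContDiff ℝ 2 g1 ∧ ContDiff ℝ 2 f2 ∧ ContDiff ℝ 2 g2 ∧ HasCompactSupport f1 ∧
  HasCompactSupport g1 ∧ HasCompactSupport f2 ∧ HasCompactSupport g2 ∧
  ∀ v : ℝ, φ v = (∫ u : ℝ, f1 u * g1 (u + v)) + ∫ u : ℝ, f2 u * g2 (u + v)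

/-- the pair sum over `γ ∈ (T, 2T]` and all `γ'` -/
noncomputable def PS (φ : ℝ → ℝ) (h T : ℝ) : ℝ :=
  ∑ z ∈ H370.Zf riemannZeta T (2 * T), (mz z : ℝ) * ∑ᶠ w ∈ ZS, (mz w : ℝ) * φ ((w.im - z.im) / h)

/-- (PCC) the pair correlation for correlations of `C²` functions.
Proof.  `φ(v) = ∫ f(u) g(u+v) du`, `h = h(T)`, `N_T = NN T 2T`, `D = N_T / T`.  By Fubini
`h · PS φ h T = ∫_ℝ A(t) B(t) dt`, `A(t) = ∑_{T < γ ≤ 2T} m f((γ - t)/h)`, `B(t) = ∑_{γ'} m' g((γ' - t)/h)`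
(`∫ f((γ-t)/h) g((γ'-t)/h) dt = h φ((γ'-γ)/h)`).  If `f, g` vanish off `[-A0, A0]`, then off `[T - A0 h, 2T + A0 h]` `A = 0`, and for
`t ∈ [T + A0 h, 2T - A0 h]`, `A(t)` is the full sum `X_f(t) + (hL/2π) ∫f`, `X_f = XF (f(·/h)) T`, `B(t) = X_g(t) + (hL/2π) ∫g`; on
the two pieces of length `2 A0 h` at the ends `|A|, |B| ≤ C L` (`H370.zcount`), so `h · PS = ∫_T^{2T} (X_f + c_f)(X_g + c_g) dt +
O(h L²)`, `c_f = (hL/2π) ∫f`.  Put `X'_f = X_f + (L/2π - D) h ∫ f`, `c'_f = D h ∫f`: `X_f + c_f = X'_f + c'_f`,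
`|L/2π - D| ≤ C` (`H370.nn_asymp`, `H370.NN_ends`), `∫_T^{2T} X'_f dt = O(h L)` (`∫_T^{2T} ∑_γ m f((γ-t)/h) dt = h N_T ∫ f + O(h L)`).
So `h · PS = ∫ X'_f X'_g + c'_f c'_g T + O(h² L²) + O(h L²)`, `c'_f c'_g T = h² N_T²/T ∫f ∫g = h² N_T² / T ∫ φ`, and
`(1/T) ∫ X'_f X'_g → cv f g` by `S_SEC` (the correction is `O(h)`, Cauchy-Schwarz).  Divide by `T`.
Finally `cv f g = (1/2π²) ∫_0^∞ ξ Re(FF φ ξ) dξ`, as `FF φ = conj(FF f) · FF g` (Fubini). -/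
def S_PCC : Prop := ∀ f g : ℝ → ℝ, ContDiff ℝ 2 f → HasCompactSupport f → ContDiff ℝ 2 g → HasCompactSupport g →
  ∀ h : ℝ → ℝ, Tendsto h atTop (𝓝 0) → Tendsto (fun T => h T * Real.log T) atTop atTop →
    Tendsto (fun T : ℝ => h T / T * (PS (fun v => ∫ u : ℝ, f u * g (u + v)) (h T) T -
        h T * (H370.NN riemannZeta T (2 * T) : ℝ) ^ 2 / T * ∫ v : ℝ, ∫ u : ℝ, f u * g (u + v)))
      atTop (𝓝 (1 / (2 * Real.pi ^ 2) * ∫ ξ in Ioi (0 : ℝ), ξ * (FF (fun v => ∫ u : ℝ, f u * g (u + v)) ξ).re)) ∧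
    IntegrableOn (fun ξ => ξ * (FF (fun v => ∫ u : ℝ, f u * g (u + v)) ξ).re) (Ioi 0)

end Pool.Agent.H203.ME
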