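import Pool.Agent.H203.ME.ALL3
import Pool.Graph.R_seed8.H382R2.Final0

set_option autoImplicit false

/-! Mesoscopic statistics of the zeros of zeta, fourth stage: sums of consecutive gaps.
`SG.NZ t` is the number of nontrivial zeros with ordinate in `(0, t]`, `SG.ord n` the `n`-th ordinate
(file Pool/Graph/R_seed8/H382R2/Final0.lean: `SG.ord_le_iff`, `SG.NZ_mono`, `SG.le_NZ_ord`, `SG.ord_mono`, `SG.ord_tendsto`). -/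

open Complex Filter Topology Set MeasureTheory ProbabilityTheory
open scoped BoundedContinuousFunction

namespace Pool.Agent.H203.ME

/-- smooth step: `0` for `x ≤ -1`, `1` for `x ≥ 1` -/
noncomputable def sst (x : ℝ) : ℝ := Real.smoothTransition ((x + 1) / 2)

/-- smoothed indicator function of `[0, 2πv/L]` (`v` mean spacings); the two transitions have width `2/L` -/
noncomputable def Pv (L v x : ℝ) : ℝ := sst (L * x) - sst (L * x - 2 * Real.pi * v)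

/-- `π²` times the variance of the smoothed number of zeros in `v` mean spacings -/
noncomputable def JJ (v : ℝ) : ℝ :=
  ∫ θ in Ioi (0 : ℝ), (1 - Real.cos (2 * Real.pi * v * θ)) * (‖FF (deriv sst) θ‖ ^ 2 / θ)

/-- the `n`-th unfolded gap -/
noncomputable def dl (n : ℕ) : ℝ := (SG.ord (n + 1) - SG.ord n) / (2 * Real.pi) * Real.log (SG.ord n / (2 * Real.pi))

/-- (PVB) elementary properties of the smoothed indicator function (proved by helper203). -/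
def S_PVB : Prop := ContDiff ℝ 5 sst ∧ (∀ x : ℝ, 0 ≤ sst x ∧ sst x ≤ 1) ∧ (∀ x : ℝ, x ≤ -1 → sst x = 0) ∧
  (∀ x : ℝ, 1 ≤ x → sst x = 1) ∧ Monotone sst ∧ (∀ L v x : ℝ, 0 < L → 0 ≤ v → 0 ≤ Pv L v x ∧ Pv L v x ≤ 1) ∧
  (∀ L v x : ℝ, 0 < L → 0 ≤ v → x ≤ -1 / L → Pv L v x = 0) ∧
  (∀ L v x : ℝ, 0 < L → 0 ≤ v → 2 * Real.pi * v / L + 1 / L ≤ x → Pv L v x = 0) ∧
  (∀ L v x : ℝ, 0 < L → 0 ≤ v → 1 / L ≤ x → x ≤ 2 * Real.pi * v / L - 1 / L → Pv L v x = 1) ∧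
  (∀ L v : ℝ, 0 < L → 0 ≤ v → ∫ x : ℝ, Pv L v x = 2 * Real.pi * v / L) ∧
  (∫ x : ℝ, deriv sst x = 1) ∧ (∀ x : ℝ, 1 ≤ |x| → deriv sst x = 0)

/-- (FPV) the Fourier transform of the smoothed indicator function.
Proof.  Let `ρ = deriv sst`, of class `C⁴`, supported in `[-1, 1]`, `ρ ≥ 0`, `∫ ρ = 1`.  `‖FF ρ θ‖ ≤ ∫|ρ|`, and two integrations
by parts give `‖FF ρ θ‖ ≤ ∫|ρ''| / θ²` (see `FF_le`, `FF_le2` in VAR.lean); `FF ρ` is differentiable with derivative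
`FF (-i x ρ(x))` (see `FF_hasDerivAt`, `VARL.FF_hasDeriv` in VAR.lean), which has the same decay; `|e^{-iθx} - 1| ≤ |θ x|`.
The formula: `d/dx Pv L v x = L ρ(Lx) - L ρ(Lx - 2πv)`, one integration by parts and the substitutions `y = Lx`, `y = Lx - 2πv`. -/
def S_FPV : Prop := (∃ C : ℝ, 0 < C ∧ ∀ θ : ℝ, ‖FF (deriv sst) θ‖ ≤ C / (1 + θ ^ 2) ∧
    DifferentiableAt ℝ (FF (deriv sst)) θ ∧ ‖deriv (FF (deriv sst)) θ‖ ≤ C / (1 + θ ^ 2) ∧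
    ‖FF (deriv sst) θ - 1‖ ≤ |θ|) ∧
  ∀ L v ξ : ℝ, 0 < L → ξ ≠ 0 → FF (Pv L v) ξ =
    (1 - cexp (-(((2 * Real.pi * v * (ξ / L) : ℝ) : ℂ) * I))) * FF (deriv sst) (ξ / L) / (I * (ξ : ℂ))

/-- (JB) the variance is the logarithm, up to a constant.
Proof.  Let `r(θ) = ‖FF ρ θ‖²`, `ρ = deriv sst`.  By `S_FPV` `r(θ) ≤ C²/(1+θ²)²` and, for `0 ≤ θ ≤ 1`, `|r(θ) - 1| ≤ (C + 1) θ`.
`JJ v = ∫_0^1 (1 - cos(2πvθ))/θ + ∫_0^1 (1 - cos(2πvθ)) (r(θ)-1)/θ + ∫_1^∞ (1 - cos(2πvθ)) r(θ)/θ`; the second part is at most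
`2(C+1)`, the third one at most `2C²`.  The first one is `∫_0^{2πv} (1 - cos t)/t dt`, which is `≤ (2π)²/2` for `v ≤ 1`, and for
`v ≥ 1` it is `∫_0^1 (1 - cos t)/t dt + log(2πv) - ∫_1^{2πv} (cos t)/t dt`, the last integral being bounded (integration by parts). -/
def S_JB : Prop :=
  (∀ v : ℝ, IntegrableOn (fun θ : ℝ => (1 - Real.cos (2 * Real.pi * v * θ)) * (‖FF (deriv sst) θ‖ ^ 2 / θ)) (Ioi 0)) ∧
  ∃ C : ℝ, 0 < C ∧ ∀ v : ℝ, 0 ≤ v → |JJ v - Real.log (1 + v)| ≤ C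

/-- (SGF) the variance of a combination.
Proof.  With `a_j = 2π v_j θ`, `θ = ξ/L`: by `S_FPV` (linearity of `FF` on continuous functions with compact support)
`ξ ‖FF F ξ‖² dξ = θ ‖∑ c_j (1 - e^{-i a_j})‖² ‖FF ρ θ‖² / θ² dθ` and
`Re ((1 - e^{-ia})(1 - e^{ib})) = (1 - cos a) + (1 - cos b) - (1 - cos (a - b))`.  All integrals converge by `S_JB`. -/
def S_SGF : Prop := ∀ (k : ℕ) (L : ℝ) (v c : Fin k → ℝ), 0 < L →
  sg (fun x => ∑ j, c j * Pv L (v j) x) =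
    1 / (2 * Real.pi ^ 2) * ∑ i, ∑ j, c i * c j * (JJ (v i) + JJ (v j) - JJ (v i - v j))

/-- (ADP) combinations of smoothed indicator functions, divided by `√V`, are admissible, together with their scaled derivatives.
Proof.  `F = ∑ (c_j/√V) Pv L v_j`, `G = (1/(ηL)) F'`, `vm = L/K ≥ max v_j`, `R = FF ρ`, `ρ = deriv sst` (`S_FPV`).
Both are `C²` and vanish for `|x| ≥ 1` if `K ≥ 10` (`S_PVB`; `sst` is `C⁵`).
(1) `∫|F| ≤ (B/√V) ∑ 2πv_j/L ≤ 7kB/K`; `∫|F''| ≤ (B/√V) k 2L ∫|ρ'|`; `∫|G| ≤ 2kB/(ηL√V)`; `∫|G''| ≤ (1/(ηL)) (B/√V) k 2L² ∫|ρ''|`.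
(2) For `ξ > 0`, `θ = ξ/L`: `FF (Pv L v) ξ = L⁻¹ q_v(θ)`, `q_v(θ) = (1 - e^{-2πivθ}) R(θ)/(iθ)`,
`‖q_v(θ)‖ ≤ C' min(v, 1/θ)/(1+θ²)`, `‖q_v'(θ)‖ ≤ C' (1+v)/(θ(1+θ²))`; `(FF F)'(ξ) = ∑ (c_j/√V) L⁻² q_{v_j}'(θ)`.
`va`: `∫ξ‖FF F‖² ≤ (kB²/V) ∑ ∫ θ |q_{v_j}|² dθ ≤ (k²B²C'²/V) (1 + log(1+v_j)) ≤ k²B²C'² (1 + B)` (`V ≥ 1`).
`tv`: at most `(k²B²C'²/(VL)) ∫ (min(1+vm,1/θ)² + 2(1+vm) min(1+vm,1/θ))/(1+θ²) dθ ≤ (k²B²C'²/(VL)) · C'' (1+vm)(1 + log(1+vm'))`, where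
one may use `log(1+v_j) ≤ BV` in place of `log(1+vm)` (take the two indices `i, j` and `vm' = max v_j`); this is
`≤ C''' (1/L + 1/K) ≤ η` for `K` large.
(3) `FF G ξ = (1/(ηL)) iξ FF F ξ = (1/(ηL√V)) ∑ c_j i g_{v_j}(θ)`, `g_v(θ) = θ q_v(θ) = -i (1 - e^{-2πivθ}) R(θ)`, `‖g_v‖ ≤ C'/(1+θ²)`,
`‖g_v'‖ ≤ C'(1+v)/(1+θ²)`: `va ≤ k²B²C'²/(η²V) ≤ V₀`, `tv ≤ (k²B²C'²/(η²LV)) C'' (1 + vm) ≤ η` for `K` large. -/
def S_ADP : Prop := ∀ (k : ℕ) (B : ℝ), 1 ≤ B → ∃ V₀ : ℝ, 0 < V₀ ∧ ∀ η : ℝ, 0 < η → ∃ K : ℝ, 1 ≤ K ∧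
  ∀ (L V : ℝ) (v c : Fin k → ℝ), K ≤ L → K ≤ V →
    (∀ j, 0 ≤ v j ∧ v j ≤ L / K ∧ Real.log (1 + v j) ≤ B * V ∧ |c j| ≤ B) →
    Adm η V₀ L (fun x => ∑ j, c j / Real.sqrt V * Pv L (v j) x) ∧
    Adm η V₀ L (fun x => 1 / (η * L) * deriv (fun x => ∑ j, c j / Real.sqrt V * Pv L (v j) x) x)

/-- (WIN) pairs of zeros at a given distance, in windows of the size of the mean spacing.
Proof.  `L = log T`.  The zeros with ordinate in `(T, T+1]` or `(2T-2, 2T]` are at most `C L` in number and each window contains at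
most `C L` zeros (`H370.zcount`, see `ZERL.NN_le` in ZER.lean), total `C L² ≤ C T L`.  For the others, with `N(a,b) = cnt T a b` (all
the zeros involved have ordinates in `(T, 2T]`): for `t` with `t < γ ≤ t + 1/L` the window `(γ+h-2/L, γ+h+2/L]` is contained in
`(t+h-2/L, t+h+3/L]`, so `NN(γ+h-2/L, γ+h+2/L) ≤ L ∫ 1[t < γ ≤ t+1/L] N(t+h-2/L, t+h+3/L) dt`.  Sum over the zeros:
`≤ L ∫ N(t, t+1/L) N(t+h-2/L, t+h+3/L) dt ≤ (L/2) ∫ N(t,t+1/L)² + (5L/2) ∑_{i=-2}^{2} ∫ N(t+h+i/L, t+h+(i+1)/L)² ≤ 13 L C T`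
by `S_W2` (`cnt ≤ cw` because `ww ≥ 1`; translation invariance of the integral over `ℝ`). -/
def S_WIN : Prop := ∃ C T0 : ℝ, 0 < C ∧ 10 ≤ T0 ∧ ∀ T : ℝ, T0 ≤ T → ∀ h : ℝ, 0 ≤ h → h ≤ 1 →
  ∑ z ∈ H370.Zf riemannZeta T (2 * T), (mz z : ℝ) *
    (H370.NN riemannZeta (z.im + h - 2 / Real.log T) (z.im + h + 2 / Real.log T) : ℝ) ≤ C * (T * Real.log T)

/-- (CN) the smoothed and the sharp number of zeros in a window.
Proof.  `XF F T t = ∑_{γ} m F(γ - t) - (L/2π) ∫ F`, `(L/2π) ∫ Pv L v = v` (`S_PVB`), and `|Pv L v x - 1_{(0, 2πv/L]}(x)|` is at most `1`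
and vanishes unless `|x| ≤ 1/L` or `|x - 2πv/L| ≤ 1/L`.  (`XF` is a finite sum over the zeros with `|γ - t| ≤ 2πv/L + 1/L`; see
`XF_eq` in APX.lean or `H370.zset_finite`, `finsum_mem_eq_of_bijOn`, ...). -/
def S_CN : Prop := ∃ T0 : ℝ, 10 ≤ T0 ∧ ∀ T : ℝ, T0 ≤ T → ∀ v t : ℝ, 0 ≤ v → T ≤ t → t ≤ 2 * T →
  |XF (Pv (Real.log T) v) T t - ((H370.NN riemannZeta t (t + 2 * Real.pi * v / Real.log T) : ℝ) - v)| ≤
    (H370.NN riemannZeta (t - 2 / Real.log T) (t + 2 / Real.log T) : ℝ) +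
    (H370.NN riemannZeta (t + 2 * Real.pi * v / Real.log T - 2 / Real.log T)
      (t + 2 * Real.pi * v / Real.log T + 2 / Real.log T) : ℝ)

/-- (IDX) indices and zeros.
Proof.  `NZ b = NZ a + NN a b` for `1 ≤ a ≤ b` (compare the sets of zeros; `SG.NZ_eq`, `H370.NN_eq`, `SG.NZ_le_add`).  For the sum:
group the indices by the value of `SG.ord n`; `#{n : SG.ord n = t}` is the number of zeros with ordinate `t` with multiplicity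
(`SG.ord_count`), and `NZ T < n ≤ NZ (2T)` iff `T < ord n ≤ 2T` (`SG.ord_le_iff`).  (Or by induction on the distinct ordinates.)
Last part: if `a < ord n` then `NZ a < n` (`SG.ord_le_iff`), so `NZ (ord n) - n ≤ NZ (ord n) - NZ a = NN a (ord n)`. -/
def S_IDX : Prop := (∀ a b : ℝ, 1 ≤ a → a ≤ b → SG.NZ b = SG.NZ a + H370.NN riemannZeta a b) ∧
  (∀ T : ℝ, 1 ≤ T → ∀ g : ℝ → ℂ, ∑ n ∈ Finset.Ioc (SG.NZ T) (SG.NZ (2 * T)), g (SG.ord n) =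
    ∑ z ∈ H370.Zf riemannZeta T (2 * T), (mz z : ℂ) * g z.im) ∧
  (∀ n : ℕ, 1 ≤ n → ∀ a : ℝ, 1 ≤ a → a < SG.ord n → SG.NZ (SG.ord n) ≤ n + H370.NN riemannZeta a (SG.ord n))

/-- (NRM) the sums of gaps and the differences of ordinates.
Proof.  `L = log T`.  `NZ (3T) ≥ NZ (2T) + L` for large `T` (`H370.nn_asymp` for the window `(3T/2, 3T]` minus `(3T/2, 2T]`, or
`NN (2T) (3T) ≥ c T log T` from `nn_asymp` at `3T/2`, or the library), hence `ord (n+u) ≤ 3T` (`SG.ord_le_iff`), and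
`T < ord n` (`SG.ord_le_iff`).  All the ordinates involved are in `(T, 3T]`, where `|log(γ/2π) - L| ≤ 2 ≤ 2π`; the sum telescopes
(`Finset.sum_range_sub`): `|∑ dl(n+i) - (ord(n+u) - ord n) L/2π| ≤ (2/2π) (ord(n+u) - ord n)`. -/
def S_NRM : Prop := ∃ T0 : ℝ, 10 ≤ T0 ∧ ∀ T : ℝ, T0 ≤ T → ∀ n u : ℕ, SG.NZ T < n → n ≤ SG.NZ (2 * T) →
  (u : ℝ) ≤ Real.log T →
  |∑ i ∈ Finset.range u, dl (n + i) - (SG.ord (n + u) - SG.ord n) * Real.log T / (2 * Real.pi)| ≤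
    SG.ord (n + u) - SG.ord n

/-- (DYA) from dyadic blocks to all indices.
Proof.  `T_b = ord N / 2^{b+1}`.  For fixed `B`, `⋃_{b<B} Ioc (NZ T_b) (NZ (2 T_b)) = Ioc (NZ (ord N / 2^B)) (NZ (ord N))`, and
`N ≤ NZ (ord N) ≤ N + C log N` (jumps: `SG.ord_le_iff`, `H370.zcount`), `NZ (ord N / 2^B) ≤ ε_B N` for large `N`, with `ε_B → 0` as
`B → ∞` (from `NZ t ~ (t/2π) log t`, or from: `NZ (2T) ≥ (2 - o(1)) NZ T`, `H370.nn_asymp`; library `NZ_low`, `NZ_up`). -/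
def S_DYA : Prop := ∀ (a : ℕ → ℕ → ℂ) (z : ℂ), (∀ N n, ‖a N n‖ ≤ 1) → ‖z‖ ≤ 1 →
  (∀ b : ℕ, Tendsto (fun N : ℕ =>
    (∑ n ∈ Finset.Ioc (SG.NZ (SG.ord N / 2 ^ (b + 1))) (SG.NZ (2 * (SG.ord N / 2 ^ (b + 1)))), a N n) /
      ((SG.NZ (2 * (SG.ord N / 2 ^ (b + 1))) : ℂ) - (SG.NZ (SG.ord N / 2 ^ (b + 1)) : ℂ))) atTop (𝓝 z)) →
  Tendsto (fun N : ℕ => (∑ n ∈ Finset.Icc 1 N, a N n) / (N : ℂ)) atTop (𝓝 z)

/-- (IND) inversion: from the counting function to the ordinates, deterministic part.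
Proof.  Write `t = ord n`, `s = √V`, `D = ((ord (n+u) - t) L/2π - u)/s`, `Z = X u / s`, `v_j = max 0 (u + jεs)` for `-q ≤ j ≤ q`.  The right
side is at least `1` unless all of the following hold: `2|Z| < qε`, `|X v_j - X u| < εs`, `E v_j < εs` for all `j`, `NZ t - n < εs`.  In
that case we show `|D + Z| ≤ 5ε`.
Upper bound: let `j` be the smallest integer with `jε ≥ -Z + 3ε` (then `-q ≤ j ≤ q` as `q ≥ 8`).  `v_j = u + jεs`: otherwise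
`u + jεs < 0`, `v_j = 0`, `|X 0| ≤ E 0 < εs` (as `NZ(t + 0) - NZ t - 0 = 0`), so `Z < 2ε`, `jε > 0`, a contradiction.
`NZ(t + 2πv_j/L) - NZ t ≥ v_j + X v_j - E v_j ≥ u + jεs + Zs - 2εs ≥ u + εs > u`, so `NZ(t + 2πv_j/L) ≥ n + u` (`n ≤ NZ t`), so
`ord(n+u) ≤ t + 2πv_j/L`, `D ≤ jε ≤ -Z + 4ε`.
Lower bound: let `j` be the largest integer with `jε ≤ -Z - 4ε`.  If `u + jεs < 0` then `D ≥ -u/s > jε` (`ord` is monotone).
Otherwise `NZ(t + 2πv_j/L) ≤ NZ t + v_j + X v_j + E v_j < n + εs + u + jεs + Zs + 2εs ≤ n + u`, so `ord(n+u) > t + 2πv_j/L`, `D > jε`; and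
`jε ≥ -Z - 5ε`. -/
def S_IND : Prop := ∀ (n u q : ℕ) (L V ε : ℝ) (X E : ℝ → ℝ), 1 ≤ n → 8 ≤ q → 0 < L → 0 < V → 0 < ε →
  (∀ v : ℝ, 0 ≤ v → |X v - ((SG.NZ (SG.ord n + 2 * Real.pi * v / L) : ℝ) - SG.NZ (SG.ord n) - v)| ≤ E v) →
  min 1 |((SG.ord (n + u) - SG.ord n) * L / (2 * Real.pi) - u) / Real.sqrt V + X u / Real.sqrt V| ≤
    5 * ε + min 1 (2 * |X u| / (q * ε * Real.sqrt V)) +
    (∑ j ∈ Finset.Icc (-(q : ℤ)) q, (min 1 (|X (max 0 (u + j * ε * Real.sqrt V)) - X u| / (ε * Real.sqrt V)) +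
      E (max 0 (u + j * ε * Real.sqrt V)) / (ε * Real.sqrt V))) +
    ((SG.NZ (SG.ord n) : ℝ) - n) / (ε * Real.sqrt V)

/-- (LEV) Levy's continuity theorem for weighted families of points, in dimension one.
Proof.  As in the proof of `finB` in FIN3.lean: the measures `∑ w_i δ_{Y_i}` are probability measures whose characteristic functions
converge to that of the normal law. -/
def S_LEV : Prop := ∀ (S : ℕ → Finset ℂ) (w : ℕ → ℂ → ℝ) (Y : ℕ → ℂ → ℝ) (s : NNReal), (∀ n i, 0 ≤ w n i) →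
  (∀ᶠ n in atTop, ∑ i ∈ S n, w n i = 1) →
  (∀ x : ℝ, Tendsto (fun n => ∑ i ∈ S n, (w n i : ℂ) * cexp (I * ((x * Y n i : ℝ) : ℂ))) atTop
    (𝓝 (cexp (-((x ^ 2 * s : ℝ) : ℂ) / 2)))) →
  ∀ φ : ℝ →ᵇ ℝ, Tendsto (fun n => ∑ i ∈ S n, w n i * φ (Y n i)) atTop (𝓝 (∫ x, φ x ∂(gaussianReal 0 s)))

/-- (LEK) Levy's continuity theorem for averages over `1, ..., N`, in dimension `k`, with the positivity of the limiting matrix.
Proof.  The matrix: for large `N` the modulus of the characteristic function is at most `1`, so `cᵀ M c ≥ 0` for all `c`.  The rest as in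
the proof of `finB` in FIN3.lean. -/
def S_LEK : Prop := ∀ (k : ℕ) (Y : ℕ → ℕ → EuclideanSpace ℝ (Fin k)) (M : Matrix (Fin k) (Fin k) ℝ), M.IsSymm →
  (∀ c : Fin k → ℝ, Tendsto (fun N : ℕ => (∑ n ∈ Finset.Icc 1 N, cexp (I * ((∑ j, c j * Y N n j : ℝ) : ℂ))) / (N : ℂ)) atTop
    (𝓝 (cexp (-((∑ i, ∑ j, c i * c j * M i j : ℝ) : ℂ) / 2)))) →
  M.PosSemidef ∧ ∀ φ : EuclideanSpace ℝ (Fin k) →ᵇ ℝ,
    Tendsto (fun N : ℕ => (∑ n ∈ Finset.Icc 1 N, φ (Y N n)) / (N : ℝ)) atTop (𝓝 (∫ x, φ x ∂(multivariateGaussian 0 M)))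

end Pool.Agent.H203.ME
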