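import Pool.Agent.H203.ME.ALL2

set_option autoImplicit false

/-! Mesoscopic statistics of the zeros of zeta, fifth stage: all moments of the linear statistics.
Conditions on the scale: `h ≤ 1/K` and `(log log T)² ≤ h log T`. -/

open Complex Filter Topology Set MeasureTheory

namespace Pool.Agent.H203.ME

/-- the weight `1 / (1 + u²)` -/
noncomputable def w1 (u : ℝ) : ℝ := 1 / (1 + u ^ 2)

/-- weighted number of ordinates near `t` at the scale `h` -/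
noncomputable def NW (T h t : ℝ) : ℝ :=
  ∑ s ∈ H370.Zf riemannZeta T (2 * T), (mz s : ℝ) * w1 ((s.im - t) / h)

/-- the bandwidth `log T / (8 (m+1) log log T)` -/
noncomputable def Rm (m : ℕ) (T : ℝ) : ℝ := Real.log T / (8 * (m + 1) * Real.log (Real.log T))

open Classical in
/-- the contribution of the zeros at distance more than `1 / Rm` from the critical line -/
noncomputable def PF (m : ℕ) (T h t : ℝ) : ℝ :=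
  ∑ s ∈ (H370.Zf riemannZeta T (2 * T)).filter (fun s => 1 < Rm m T * |s.re - 1 / 2|),
    (mz s : ℝ) * (w1 ((s.im - t) / h) * (((s.re - 1 / 2) / h) ^ 2 * Real.exp (Rm m T * |s.re - 1 / 2|)))

/-- a smooth count of the ordinates in `[t, t + h]` (`bu (-1) 2 1` is `1` on `[0,1]` and `0` outside `[-1,2]`, see LLN.lean) -/
noncomputable def BG (T h t : ℝ) : ℝ :=
  ∑ s ∈ H370.Zf riemannZeta T (2 * T), (mz s : ℝ) * LLNL.bu (-1) 2 1 ((s.im - t) / h)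

/-- moments of the centred Gaussian law with variance `σ` -/
noncomputable def gm (k : ℕ) (σ : ℝ) : ℝ :=
  if Even k then (k.factorial : ℝ) / (2 ^ (k / 2) * (k / 2).factorial) * σ ^ (k / 2) else 0

/-- the sign of a Boolean -/
noncomputable def sn (b : Bool) : ℝ := if b then 1 else -1

/-- Wick sum: the sum over the perfect matchings of `Fin k` of the products of the entries of `C` over the pairs; each
matching is the image of `2 ^ (k/2) (k/2)!` bijections `Fin (k/2) × Fin 2 ≃ Fin k` (none if `k` is odd) -/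
noncomputable def wick {k : ℕ} (C : Fin k → Fin k → ℝ) : ℝ :=
  1 / (2 ^ (k / 2) * ((k / 2).factorial : ℝ)) * ∑ e : (Fin (k / 2) × Fin 2) ≃ Fin k, ∏ l, C (e (l, 0)) (e (l, 1))

/-- (KPT) pointwise bounds for the smoothing of `F(x) = f(x/h)`.
Proof.  Let `f(u) = 0` for `|u| ≥ A`, `A ≥ 1`, `|f|, |f''| ≤ B`; `K = A`.  `WR R` is real and even on the real line,
`S_KER` (`t_KER`) gives `‖WR R (w + iv)‖ ≤ C R e^{R|v|} e^{v²/2} / (1 + (Rw)^4)`, `S_OM` (`t_OM`) gives `|om R - 1| ≤ C/R²`.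
(a) `KF F R x - F x = ∫ (F(x-w) - F(x) + w F'(x)) WR(w) dw + (om R - 1) F(x)` (as in L1A.lean), and
`|F(x-w) - F(x) + w F'(x)| ≤ (w²/2) h⁻² B`; so it is `≤ C/(hR)²` for all `x` (`h ≤ 1`), which is enough for `|x| ≤ 2Ah`.
For `|x| > 2Ah`: `F x = 0` and `|KF F R x| ≤ ∫_{|s| ≤ Ah} B ‖WR(x - s)‖ ds ≤ C h R (R|x|/2)^{-4} ≤ C (hR)^{-3} (h/|x|)^4
≤ C (hR)^{-2} w1 (x/h)` as `hR ≥ 1`, `|x/h| ≥ 2`.
(b) `KF(x+iy) + KF(x-iy) - 2 KF(x) = - ∫_0^y ∫_{-τ}^{τ} ∫ F''(s) WR(x - s + iv) ds dv dτ` (as in L1B.lean), and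
`|∫ F''(s) WR(x-s+iv) ds| ≤ C h⁻² e^{R|y|} ∫_{|s| ≤ Ah} R/(1 + (R(x-s))^4) ds ≤ C h⁻² e^{R|y|} w1 (x/h)` (for `|x| > 2Ah` the
integral is at most `C h R (R|x|/2)^{-4} ≤ C (h/|x|)^4`). -/
def S_KPT : Prop := ∀ f : ℝ → ℝ, ContDiff ℝ 2 f → HasCompactSupport f → ∃ C K : ℝ, 0 < C ∧ 1 ≤ K ∧
  ∀ h R : ℝ, 0 < h → h ≤ 1 / K → 1 ≤ h * R → ∀ x : ℝ,
    ‖KF (fun x => f (x / h)) R (x : ℂ) - f (x / h)‖ ≤ C / (h * R) ^ 2 * w1 (x / h) ∧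
    ∀ y : ℝ, |y| ≤ 1 / 2 →
      ‖KF (fun x => f (x / h)) R ((x : ℂ) + (y : ℂ) * I) + KF (fun x => f (x / h)) R ((x : ℂ) - (y : ℂ) * I) -
        2 * KF (fun x => f (x / h)) R (x : ℂ)‖ ≤ C * (y / h) ^ 2 * Real.exp (R * |y|) * w1 (x / h)

/-- (PT) the approximate formula, pointwise (see the proof of `t_APX` in APX3.lean, `hpt`, which is the case `R = L/4`). -/
def S_PT : Prop := ∃ C T0 : ℝ, 0 < C ∧ 10 ≤ T0 ∧ ∀ T : ℝ, T0 ≤ T → 20 ≤ Real.log T ∧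
  T + 2 * Real.log T ≤ 2 * T - 2 * Real.log T ∧
  ∀ F : ℝ → ℝ, C2c F → ∀ R : ℝ, 1 ≤ R → R ≤ Real.log T →
    ∀ t ∈ Icc (T + 2 * Real.log T) (2 * T - 2 * Real.log T),
      |XF F T t + BB F R t| ≤ (∑ s ∈ H370.Zf riemannZeta T (2 * T), (mz s : ℝ) *
        (‖KF F R ((s.im - t : ℝ) : ℂ) - F (s.im - t)‖ +
          ‖KF F R (((s.im - t : ℝ) : ℂ) + ((s.re - 1 / 2 : ℝ) : ℂ) * I) +
            KF F R (((s.im - t : ℝ) : ℂ) - ((s.re - 1 / 2 : ℝ) : ℂ) * I) - 2 * KF F R ((s.im - t : ℝ) : ℂ)‖)) +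
        C * (1 + Real.log T / R ^ 2) * ∫ x : ℝ, |F x|

/-- (BMB) all moments of the prime side are bounded.  `F(x) = f(x/h)`, `c = ∫|f| + ∫|f''|`.
Proof.  `K` large: `F` is in `C2c`, `h c ≤ 1`, and `R ≥ 1/h ≥ K ≥ 8`.  `‖FF F ξ‖ ≤ c h` and `‖FF F ξ‖ ≤ c / (h ξ²)`
(VARL.FF_le, VARL.FF_le2; `∫|F''| = h⁻¹ ∫|f''|`).  `0 ≤ (2/√(2π)) cR R x =: kap R x ≤ 1` and better `2/√(2π) cR ≤ 1/π · √(2π)/...`; see
PRM.lean for `kap_le`, `cR_tail` (`cR R x ≤ R e^{-x²/8}` for `x ≥ 2R`).  Let `M = ⌊e^{4R}⌋`, so `M ≤ T^{1/(16(m+1))}`.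
Split the series of `BB F R t` (all terms have `‖ee n t‖ = 1`):
(i) `n > M`: `x = log n ≥ 4R`, `e^{-x²/8} ≤ n^{-R/2} ≤ n^{-4}`, so the sum of the absolute values is at most a constant
(`R n^{-R/4} ≤ R e^{-R²} ≤ 1`);
(ii) `n = p^k ≤ M`, `k ≥ 3`: absolute values at most `∑_p ∑_{k≥3} (log p) p^{-k/2} ≤ C`;
(iii) `n = p² ≤ M`: `A₂(t) = ∑_p b_p ee p (2t)`, `‖b_p‖ ≤ (log p)/p · c h ≤ 1`, `∑ ‖b_p‖² ≤ C`; `∫_T^{2T} ‖A₂(t)‖^{2m} dt =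
(1/2) ∫_{2T}^{4T} ‖∑_p b_p ee p t‖^{2m} dt ≤ C T` by `S_MOM` (`t_MOM`) with `j = l = m` at height `2T` (`M^{4m} ≤ T^{1/4}`);
(iv) primes `p ≤ M`: `a_p = (…) (log p)/√p cR FF F (log p)`, `‖a_p‖ ≤ c h ≤ 1` (`(log p)/√p ≤ 1`), and
`∑ ‖a_p‖² ≤ ∑_p (log p)²/p min(c h, c/(h (log p)²))² ≤ C`: the `p ≤ e^{1/h}` give at most `c² h² (1/h) ∑_{p ≤ e^{1/h}} (log p)/p
≤ C` (Mertens, `VARL.mert`), the others by dyadic blocks `log p ∈ [2^i/h, 2^{i+1}/h]` at most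
`∑_i c² h^{-2} (2^i/h)^{-3} · (2^{i+1}/h + 6) ≤ C` (or use `S_VAR`-type summation by parts).  `S_MOM` with `j = l = m`.
Finally `|BB|^{2m} ≤ 4^{2m} (sum of the four)`.  (`BB` is real: the real part of the complex sum.) -/
def S_BMB : Prop := ∀ (m : ℕ) (f : ℝ → ℝ), ContDiff ℝ 2 f → HasCompactSupport f → ∃ C K T0 : ℝ, 0 < C ∧ 1 ≤ K ∧ 10 ≤ T0 ∧
  ∀ T : ℝ, T0 ≤ T → ∀ h R : ℝ, 0 < h → h ≤ 1 / K → 1 ≤ h * R → R ≤ Real.log T / (64 * (m + 1)) →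
    ∫ t in T..(2 * T), (BB (fun x => f (x / h)) R t) ^ (2 * m) ≤ C * T

/-- (NCL) crude bound for the weighted count.  By `H370.zcount H370.good_zeta` there are at most `C log T` zeros
(with multiplicity) in each `{|im s - u| ≤ 1}`, `T ≤ u ≤ 2T`; `w1(x/h) ≤ w1 x` for `h ≤ 1`; sum over the unit intervals:
`∑_j C log T · 4/(1 + j²)`.  (The point `t` is arbitrary real.) -/
def S_NCL : Prop := ∃ C T0 : ℝ, 0 < C ∧ 10 ≤ T0 ∧ ∀ T : ℝ, T0 ≤ T → ∀ h : ℝ, 0 < h → h ≤ 1 → ∀ t : ℝ,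
  NW T h t ≤ C * Real.log T

/-- (FAR) moments of the contribution of the zeros far from the line.  `L = log T`, `R = Rm m T`, `Z` the far zeros.
Proof.  `m = 0` is trivial.  For `m ≥ 1` by Hölder (or Jensen, `inner_le_nnorm_mul_nnorm`, `Real.inner_le_Lp_mul_Lq`, or
`Finset.inner_mul_le_norm_mul_norm`...) `(∑ m w q)^m ≤ (∑ m w)^{m-1} ∑ m w q^m ≤ (C L)^{m-1} ∑ m w q^m`, (`S_NCL`),
`q = (y/h)² e^{R|y|}`, `y = β - 1/2`; `∫_ℝ w1((γ-t)/h) dt = π h`.  On the far zeros `|y| > 1/R`; `m R ≤ L/8` for large `T`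
(`log L ≥ 1`), `y^{2m} ≤ y²`, so `q^m ≤ h^{-2m} y² e^{L|y|/2} e^{-(3/8) L |y|}` and
`(3/8) L |y| ≥ (3/8) L / R = 3 (m+1) log L`, i.e. the last factor is `≤ L^{-3(m+1)}`.  With `S_DEN` (`t_DEN`; `U1 = T`, `U2 = 2T`):
`∫ (PF)^m ≤ (C L)^{m-1} π h h^{-2m} L^{-3(m+1)} C T / L ≤ C T L^{m-1+2m-1-3m-3-1} ≤ T` (as `h ≥ 1/L`). -/
def S_FAR : Prop := ∀ m : ℕ, ∃ T0 : ℝ, 10 ≤ T0 ∧ ∀ T : ℝ, T0 ≤ T → ∀ h : ℝ, (Real.log (Real.log T)) ^ 2 ≤ h * Real.log T →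
  h ≤ 1 → ∫ t in T..(2 * T), (PF m T h t) ^ m ≤ T

/-- (DEC) the decomposition.  Proof.  `F(x) = f(x/h)` is in `C2c` for `h ≤ 1/K` (`FINL.c2c_scale`).  Take `R = Rm m T`:
`1 ≤ h R` since `h R ≥ (log L)² / (8 (m+1) log L)` is large, `R ≤ L`.  Insert `S_KPT` in `S_PT`:
`|XF| ≤ |BB| + ∑ m (C/(hR)² + C (y/h)² e^{R|y|}) w1 + C (1 + L/R²) h ∫|f|`.  `C/(hR)² = 64 (m+1)² C (log L)²/(hL)²`; for the zeros with
`R|y| ≤ 1`, `(y/h)² e^{R|y|} ≤ e/(hR)²`; the others give `C · PF`.  `L/R² = 64 (m+1)² (log L)²/L ≤ 1`. -/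
def S_DEC : Prop := ∀ (m : ℕ) (f : ℝ → ℝ), ContDiff ℝ 2 f → HasCompactSupport f → ∃ C K T0 : ℝ, 0 < C ∧ 1 ≤ K ∧ 10 ≤ T0 ∧
  ∀ T : ℝ, T0 ≤ T → ∀ h : ℝ, (Real.log (Real.log T)) ^ 2 ≤ h * Real.log T → h ≤ 1 / K →
    ∀ t ∈ Icc (T + 2 * Real.log T) (2 * T - 2 * Real.log T),
      |XF (fun x => f (x / h)) T t| ≤ |BB (fun x => f (x / h)) (Rm m T) t| +
        C * (Real.log (Real.log T)) ^ 2 / (h * Real.log T) ^ 2 * NW T h t + C * PF m T h t + C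

/-- (CVR) covering.  Proof.  `u = (γ - t)/h`.  If `|γ - t| ≤ 1` then `j = ⌊u⌋` is in the range, `u - j ∈ [0,1)` so
`bu (-1) 2 1 (u - j) = 1` (`bu_one`), and `w1 u ≤ 4 / (1 + j²)`.  If `|γ - t| > 1` then `w1 u ≤ h² / (γ - t)²` and the sum of
`m / (γ - t)²` over these zeros is at most `C log T` (`H370.zcount`, unit intervals). -/
def S_CVR : Prop := ∃ C T0 : ℝ, 0 < C ∧ 10 ≤ T0 ∧ ∀ T : ℝ, T0 ≤ T → ∀ h : ℝ, 0 < h → h ≤ 1 → ∀ t ∈ Icc T (2 * T),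
  NW T h t ≤ C * ∑ j ∈ Finset.Icc (-⌈1 / h⌉) ⌈1 / h⌉, 1 / (1 + (j : ℝ) ^ 2) * BG T h (t + j * h) +
    C * (h ^ 2 * Real.log T)

/-- (WIN) moments of the weighted count.  Proof.  `L = log T`, `a = T + 2L`, `b = 2T - 2L`, `m ≥ 1`.  `0 ≤ bu ≤ 5 w1`, so
`0 ≤ BG ≤ 5 NW ≤ C L` (`S_NCL`).  Let `J = ∫_a^b BG^m`.
(1) By `S_CVR`, `(x+y)^m ≤ 2^{m-1}(x^m + y^m)`, and the weighted power mean inequality (`∑_j 1/(1+j²) ≤ 4`):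
`∫_a^b NW^m ≤ C ∑_j (1/(1+j²)) ∫_a^b BG(t + jh)^m dt + C (h² L)^m T`, and `|j h| ≤ 2`:
`∫_a^b BG(t+jh)^m dt ≤ ∫_{a-2}^{b+2} BG^m ≤ J + 4 (C L)^m ≤ J + T`.  So `∫_a^b NW^m ≤ C₁ (J + (hL)^m T)`.
(2) For `t ∈ [a,b]`: `BG T h t = XF G T t + (L/2π) h ∫ g`, `G(x) = g(x/h)`, `g = bu (-1) 2 1` (`XF_eq` in APX.lean), so by `S_DEC`
`BG ≤ C h L + |BB| + ν NW + C PF + C` with `ν = C (log L)²/(hL)² ≤ C/(log L)²`, which tends to `0`.  Take the `m`-th power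
(factor `5^{m-1}`), integrate: `∫|BB|^m ≤ ∫ (1 + BB^{2m}) ≤ C T` (`S_BMB`, `Rm m T ≤ L/(64(m+1))`), `∫ PF^m ≤ T` (`S_FAR`), and (1):
`J ≤ C (hL)^m T + 5^{m-1} ν^m C₁ (J + (hL)^m T)`; for large `T` the coefficient of `J` is `≤ 1/2`.  (`J` is finite.) -/
def S_WIN : Prop := ∀ m : ℕ, ∃ C K T0 : ℝ, 0 < C ∧ 1 ≤ K ∧ 10 ≤ T0 ∧
  ∀ T : ℝ, T0 ≤ T → ∀ h : ℝ, (Real.log (Real.log T)) ^ 2 ≤ h * Real.log T → h ≤ 1 / K →
    ∫ t in (T + 2 * Real.log T)..(2 * T - 2 * Real.log T), (NW T h t) ^ m ≤ C * (h * Real.log T) ^ m * T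

/-- (EDG) pointwise bound.  `XF_eq` with `U1 = T - 1`, `U2 = 2T + 1`, at most `C log T` zeros with `|γ - t| < 1` (`H370.zcount`). -/
def S_EDG : Prop := ∀ f : ℝ → ℝ, ContDiff ℝ 2 f → HasCompactSupport f → ∃ C K T0 : ℝ, 0 < C ∧ 1 ≤ K ∧ 10 ≤ T0 ∧
  ∀ T : ℝ, T0 ≤ T → ∀ h : ℝ, 0 < h → h ≤ 1 / K → ∀ t ∈ Icc T (2 * T), |XF (fun x => f (x / h)) T t| ≤ C * Real.log T

/-- (BMX) all moments of the linear statistics are bounded.  Proof.  On `[T + 2L, 2T - 2L]` by `S_DEC`: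
`|XF|^m ≤ 4^{m-1} (|BB|^m + (C (log L)²/(hL)²)^m NW^m + C^m PF^m + C^m)`; `S_BMB` (`|BB|^m ≤ 1 + BB^{2m}`), `S_WIN`
(`((log L)²/(hL)²)^m (hL)^m = ((log L)²/(hL))^m ≤ 1`), `S_FAR`.  The two edges by `S_EDG`: `4 L (C L)^m ≤ T`. -/
def S_BMX : Prop := ∀ (m : ℕ) (f : ℝ → ℝ), ContDiff ℝ 2 f → HasCompactSupport f → ∃ C K T0 : ℝ, 0 < C ∧ 1 ≤ K ∧ 10 ≤ T0 ∧
  ∀ T : ℝ, T0 ≤ T → ∀ h : ℝ, (Real.log (Real.log T)) ^ 2 ≤ h * Real.log T → h ≤ 1 / K →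
    ∫ t in T..(2 * T), |XF (fun x => f (x / h)) T t| ^ m ≤ C * T

/-- (ONE) the moment method backwards.  Proof.  Let `m_j(T) = (1/T) ∫ Y^j`, bounded for each `j`.  By
`|e^{iuy} - ∑_{j ≤ k} (iuy)^j/j!| ≤ |uy|^{k+1}/(k+1)!` (and the same for the Gaussian right side: `e^{-u²σ/2} = ∑_{j ≤ k} (iu)^j gm j σ / j!
+ O(|u|^{k+1})` for `|u| ≤ 1`).  Induction on `k` (strong): suppose `m_j(T) → gm j σ` for `j < k`.  For `0 < u ≤ 1`: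
`limsup |(iu)^k (m_k(T) - gm k σ)/k!| ≤ C u^{k+1}`, so `limsup |m_k(T) - gm k σ| ≤ C' u`, and `u → 0`. -/
def S_ONE : Prop := ∀ (Y : ℝ → ℝ → ℝ) (σ : ℝ), 0 ≤ σ → (∀ᶠ T : ℝ in atTop, ContinuousOn (Y T) (Icc T (2 * T))) →
  (∀ m : ℕ, ∃ C : ℝ, ∀ᶠ T : ℝ in atTop, ∫ t in T..(2 * T), |Y T t| ^ m ≤ C * T) →
  (∀ u : ℝ, Tendsto (fun T : ℝ => (1 / T : ℂ) * (∫ t in T..(2 * T), cexp (I * ((u * Y T t : ℝ) : ℂ)))) atTop
    (𝓝 (cexp (-((u ^ 2 * σ : ℝ) : ℂ) / 2)))) →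
  ∀ k : ℕ, Tendsto (fun T : ℝ => 1 / T * ∫ t in T..(2 * T), (Y T t) ^ k) atTop (𝓝 (gm k σ))

/-- (PO1) polarization.  Expand the power: `∑_a ∏ x_{a_i} ∑_ε ∏ ε_j ∏ ε_{a_i}` over `a : Fin k → Fin k`; the sum over `ε` is `2^k` if
every `j` is hit an odd number of times by `a`, i.e. if `a` is a permutation, and `0` otherwise. -/
def S_PO1 : Prop := ∀ (k : ℕ) (x : Fin k → ℝ),
  ∑ ε : Fin k → Bool, (∏ j, sn (ε j)) * (∑ j, sn (ε j) * x j) ^ k = 2 ^ k * (k.factorial : ℝ) * ∏ j, x j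

/-- (PO2) polarization of the Gaussian moments.  `k = 2n` (for odd `k` both sides are `0`: there is no bijection).  Expand
`(∑_{i,j} ε_i ε_j C i j)^n = ∑_a ∏_l ε_{a_l0} ε_{a_l1} C a_l0 a_l1` over `a : Fin n → Fin k × Fin k`, i.e. over the maps
`Fin n × Fin 2 → Fin k`; the sum over `ε` with the factor `∏ ε_j` is `2^k` if the map is a bijection, `0` otherwise. -/
def S_PO2 : Prop := ∀ (k : ℕ) (C : Fin k → Fin k → ℝ),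
  ∑ ε : Fin k → Bool, (∏ j, sn (ε j)) * gm k (∑ i, ∑ j, sn (ε i) * sn (ε j) * C i j) =
    2 ^ k * (k.factorial : ℝ) * wick C

end Pool.Agent.H203.ME
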