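import Pool.Agent.H203.ME.Defs2

set_option autoImplicit false

open Complex Filter Topology Set MeasureTheory ProbabilityTheory
open scoped BoundedContinuousFunction

namespace Pool.Agent.H203.ME

/-- the vector of the linear statistics -/
noncomputable def Xv {k : ℕ} (f : Fin k → ℝ → ℝ) (h : Fin k → ℝ) (T t : ℝ) : EuclideanSpace ℝ (Fin k) :=
  WithLp.toLp 2 (fun j => XF (fun x => f j (x / h j)) T t)

/-- the covariance matrix -/
noncomputable def cM {k : ℕ} (f : Fin k → ℝ → ℝ) (h : Fin k → ℝ → ℝ) : Matrix (Fin k) (Fin k) ℝ := by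
  classical
  exact Matrix.of fun i j => if h i = h j then cv (f i) (f j) else 0

/-- the scales: mesoscopic and either equal or separated -/
structure Scales {k : ℕ} (h : Fin k → ℝ → ℝ) : Prop where
  zero : ∀ j, Tendsto (h j) atTop (𝓝 0)
  infty : ∀ j, Tendsto (fun T => h j T * Real.log T) atTop atTop
  sep : ∀ i j, h i ≠ h j →
    Tendsto (fun T => h i T / h j T) atTop (𝓝 0) ∨ Tendsto (fun T => h j T / h i T) atTop (𝓝 0)

namespace FINL

lemma pos {k : ℕ} {h : Fin k → ℝ → ℝ} (hh : Scales h) : ∀ᶠ T in atTop, ∀ j, 0 < h j T := by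
  rw [eventually_all]
  intro j
  filter_upwards [(hh.infty j).eventually (eventually_gt_atTop 0), eventually_gt_atTop (1 : ℝ)] with T h1 h2
  have h3 := Real.log_pos h2
  by_contra h4
  push Not at h4
  nlinarith

lemma XF_scale (f : ℝ → ℝ) {h : ℝ} (hh : 0 < h) (T t : ℝ) :
    XF (fun x => f (x / h)) T t = (∑ᶠ s ∈ ZS, (mz s : ℝ) * f ((s.im - t) / h)) -
      h * Real.log T / (2 * Real.pi) * ∫ x : ℝ, f x := by
  unfold XF
  rw [Measure.integral_comp_div, abs_of_pos hh, smul_eq_mul]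
  ring

lemma c2c_scale {f : ℝ → ℝ} (hf : ContDiff ℝ 2 f) {A h : ℝ} (hA : ∀ x, A ≤ |x| → f x = 0) (hh : 0 < h)
    (h1 : h * A ≤ 1) : C2c (fun x => f (x / h)) where
  cd := hf.comp (contDiff_id.div_const h)
  supp := by
    intro x hx
    apply hA
    rw [abs_div, abs_of_pos hh, le_div_iff₀ hh]
    linarith

lemma bd {f : ℝ → ℝ} (hs : HasCompactSupport f) : ∃ A : ℝ, 0 < A ∧ ∀ x, A ≤ |x| → f x = 0 := by
  obtain ⟨r, hr⟩ := hs.isCompact.isBounded.subset_closedBall 0
  refine ⟨|r| + 1, by positivity, fun x hx => ?_⟩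
  by_contra h
  have h1 := hr (subset_tsupport f h)
  rw [mem_closedBall_zero_iff, Real.norm_eq_abs] at h1
  have := le_abs_self r
  linarith

lemma c2c_ev {k : ℕ} {f : Fin k → ℝ → ℝ} (hf : ∀ j, ContDiff ℝ 2 (f j)) (hs : ∀ j, HasCompactSupport (f j))
    {h : Fin k → ℝ → ℝ} (hh : Scales h) : ∀ᶠ T in atTop, ∀ j, C2c (fun x => f j (x / h j T)) := by
  rw [eventually_all]
  intro j
  obtain ⟨A, hA, hA'⟩ := bd (hs j)
  have h1 : ∀ᶠ T in atTop, h j T < 1 / A := (hh.zero j).eventually (gt_mem_nhds (by positivity))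
  filter_upwards [pos hh, h1] with T h2 h3
  refine c2c_scale (hf j) hA' (h2 j) ?_
  have := h2 j
  rw [lt_div_iff₀ hA] at h3
  linarith

lemma XF_lin {k : ℕ} {F : Fin k → ℝ → ℝ} (hF : ∀ j, C2c (F j)) (u : Fin k → ℝ) {T t : ℝ} (hT : 3 ≤ T) (h1 : T ≤ t)
    (h2 : t ≤ 2 * T) : XF (fun x => ∑ j, u j * F j x) T t = ∑ j, u j * XF (F j) T t := by
  have hc : C2c (fun x => ∑ j, u j * F j x) := by
    refine ⟨ContDiff.sum fun j _ => contDiff_const.mul (hF j).cd, fun x hx => ?_⟩
    exact Finset.sum_eq_zero fun j _ => by rw [(hF j).supp x hx, mul_zero]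
  rw [XF_eq hc (U1 := T - 1) (U2 := 2 * T + 1) (by linarith) (by linarith) (by linarith)]
  have h3 : ∀ j, XF (F j) T t = (∑ s ∈ H370.Zf riemannZeta (T - 1) (2 * T + 1), (mz s : ℝ) * F j (s.im - t)) -
      Real.log T / (2 * Real.pi) * ∫ x : ℝ, F j x := fun j =>
    XF_eq (hF j) (by linarith) (by linarith) (by linarith)
  simp_rw [h3]
  rw [integral_finsetSum _ fun j _ => ((hF j).int.const_mul (u j))]
  simp_rw [integral_const_mul, mul_sub, Finset.sum_sub_distrib, Finset.mul_sum]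
  congr 1
  · rw [Finset.sum_comm]
    exact Finset.sum_congr rfl fun j _ => Finset.sum_congr rfl fun s _ => by ring
  · exact Finset.sum_congr rfl fun j _ => by ring

/-- the combined function -/
noncomputable def cb {k : ℕ} (f : Fin k → ℝ → ℝ) (h : Fin k → ℝ → ℝ) (u : Fin k → ℝ) (T : ℝ) : ℝ → ℝ :=
  fun x => ∑ j, u j * f j (x / h j T)

lemma sc_cond {k : ℕ} {h : Fin k → ℝ → ℝ} (hh : Scales h) (K : ℝ) (hK : 1 ≤ K) :
    ∀ᶠ T in atTop, ∀ j, 0 < h j T ∧ h j T ≤ 1 / K ∧ K ≤ h j T * Real.log T := by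
  have h1 := pos hh
  have h2 : ∀ᶠ T in atTop, ∀ j, h j T < 1 / K := by
    rw [eventually_all]; exact fun j => (hh.zero j).eventually (gt_mem_nhds (by positivity))
  have h3 : ∀ᶠ T in atTop, ∀ j, K ≤ h j T * Real.log T := by
    rw [eventually_all]; exact fun j => (hh.infty j).eventually (eventually_ge_atTop K)
  filter_upwards [h1, h2, h3] with T h1 h2 h3 j
  exact ⟨h1 j, (h2 j).le, h3 j⟩

lemma adm_ev (hA : S_ADM) {k : ℕ} {f : Fin k → ℝ → ℝ} (hf : ∀ j, ContDiff ℝ 2 (f j)) (hs : ∀ j, HasCompactSupport (f j))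
    {h : Fin k → ℝ → ℝ} (hh : Scales h) (u : Fin k → ℝ) :
    ∃ V : ℝ, 0 < V ∧ ∀ η : ℝ, 0 < η → ∀ᶠ T in atTop, ∀ c : Fin k → ℝ, (∀ j, |c j| ≤ 1) →
      Adm η V (Real.log T) (fun x => ∑ j, c j * (u j * f j (x / h j T))) := by
  obtain ⟨V, hV, hA⟩ := hA k (fun j x => u j * f j x) (fun j => contDiff_const.mul (hf j))
    (fun j => (hs j).mul_left)
  refine ⟨V, hV, fun η hη => ?_⟩
  obtain ⟨K, hK, hA⟩ := hA η hη
  filter_upwards [sc_cond hh K hK, Real.tendsto_log_atTop.eventually (eventually_ge_atTop 1)] with T h1 h2 c hc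
  exact hA (Real.log T) (fun j => h j T) c h2 h1 hc

lemma sg_ev (hC : S_COV) {k : ℕ} {f : Fin k → ℝ → ℝ} (hf : ∀ j, ContDiff ℝ 2 (f j)) (hs : ∀ j, HasCompactSupport (f j))
    {h : Fin k → ℝ → ℝ} (hh : Scales h) (u : Fin k → ℝ) :
    Tendsto (fun T => sg (cb f h u T)) atTop (𝓝 (∑ i, ∑ j, u i * u j * cM f h i j)) := by
  classical
  have hC' := hC k f hf hs (fun i j => h i = h j) (fun j T => if 0 < h j T then h j T else 1) u
    (fun j T => by
      by_cases h1 : 0 < h j T
      · simp only [h1, if_true]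
      · simp only [h1, if_false]; norm_num)
    (fun i j hij T => by rw [hij])
    (fun i j hij => by
      have hev : ∀ᶠ T in atTop, h i T / h j T = (if 0 < h i T then h i T else 1) / (if 0 < h j T then h j T else 1) := by
        filter_upwards [pos hh] with T hT
        rw [if_pos (hT i), if_pos (hT j)]
      have hev' : ∀ᶠ T in atTop, h j T / h i T = (if 0 < h j T then h j T else 1) / (if 0 < h i T then h i T else 1) := by
        filter_upwards [pos hh] with T hT
        rw [if_pos (hT i), if_pos (hT j)]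
      rcases hh.sep i j hij with h1 | h1
      · left; exact h1.congr' hev
      · right; exact h1.congr' hev')
  have e1 : (∑ i, ∑ j, u i * u j * cM f h i j) = ∑ i, ∑ j, u i * u j * (if h i = h j then cv (f i) (f j) else 0) := by
    unfold cM
    simp only [Matrix.of_apply]
  rw [e1]
  refine hC'.congr' ?_
  filter_upwards [pos hh] with T hT
  unfold cb
  congr 1
  funext x
  exact Finset.sum_congr rfl fun j _ => by rw [if_pos (hT j)]

lemma sg_nonneg (F : ℝ → ℝ) : 0 ≤ sg F := by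
  unfold sg
  refine mul_nonneg (by positivity) (setIntegral_nonneg measurableSet_Ioi fun ξ hξ => ?_)
  have : (0 : ℝ) < ξ := hξ
  positivity

lemma cv_symm (f g : ℝ → ℝ) : cv f g = cv g f := by
  unfold cv
  congr 2
  funext ξ
  congr 1
  simp [Complex.mul_re]
  ring

lemma cM_psd (hC : S_COV) {k : ℕ} {f : Fin k → ℝ → ℝ} (hf : ∀ j, ContDiff ℝ 2 (f j)) (hs : ∀ j, HasCompactSupport (f j))
    {h : Fin k → ℝ → ℝ} (hh : Scales h) : (cM f h).PosSemidef := by
  classical
  refine Matrix.PosSemidef.of_dotProduct_mulVec_nonneg ?_ ?_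
  · ext i j
    unfold cM
    simp only [Matrix.conjTranspose_apply, Matrix.of_apply, star_trivial]
    by_cases h1 : h i = h j
    · rw [if_pos h1, if_pos h1.symm, cv_symm]
    · rw [if_neg h1, if_neg (Ne.symm h1)]
  · intro u
    have h1 : star u ⬝ᵥ (cM f h).mulVec u = ∑ i, ∑ j, u i * u j * cM f h i j := by
      simp only [dotProduct, Matrix.mulVec, star_trivial, Finset.mul_sum]
      exact Finset.sum_congr rfl fun i _ => Finset.sum_congr rfl fun j _ => by ring
    rw [h1]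
    exact ge_of_tendsto' (sg_ev hC hf hs hh u) fun T => sg_nonneg _

end FINL

end Pool.Agent.H203.ME
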