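import Pool.Agent.H203.ME.FIN

set_option autoImplicit false

open Complex Filter Topology Set MeasureTheory ProbabilityTheory
open scoped BoundedContinuousFunction RealInnerProductSpace

namespace Pool.Agent.H203.ME

namespace FINL

lemma weak {k : ℕ} {μ : ℝ → Measure (EuclideanSpace ℝ (Fin k))} {ν : Measure (EuclideanSpace ℝ (Fin k))}
    [IsProbabilityMeasure ν] (hp : ∀ᶠ T in atTop, IsProbabilityMeasure (μ T))
    (hc : ∀ u, Tendsto (fun T => charFun (μ T) u) atTop (𝓝 (charFun ν u))) (φ : EuclideanSpace ℝ (Fin k) →ᵇ ℝ) :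
    Tendsto (fun T => ∫ x, φ x ∂(μ T)) atTop (𝓝 (∫ x, φ x ∂ν)) := by
  classical
  apply tendsto_of_seq_tendsto
  intro x hx
  obtain ⟨P, hP⟩ : ∃ P : ℕ → ProbabilityMeasure (EuclideanSpace ℝ (Fin k)),
      ∀ n, IsProbabilityMeasure (μ (x n)) → (P n : Measure (EuclideanSpace ℝ (Fin k))) = μ (x n) := by
    refine ⟨fun n => if h : IsProbabilityMeasure (μ (x n)) then ⟨μ (x n), h⟩ else ⟨ν, inferInstance⟩, fun n hn => ?_⟩
    simp only [hn, dif_pos]
    rfl
  have hx' := hx.eventually hp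
  have h1 : Tendsto P atTop (𝓝 ⟨ν, inferInstance⟩) := by
    rw [ProbabilityMeasure.tendsto_iff_tendsto_charFun]
    intro u
    refine ((hc u).comp hx).congr' ?_
    filter_upwards [hx'] with n hn
    simp only [Function.comp]
    rw [hP n hn]
  rw [ProbabilityMeasure.tendsto_iff_forall_integral_tendsto] at h1
  refine (h1 φ).congr' ?_
  filter_upwards [hx'] with n hn
  rw [hP n hn]
  rfl

lemma charG (hC : S_COV) {k : ℕ} {f : Fin k → ℝ → ℝ} (hf : ∀ j, ContDiff ℝ 2 (f j)) (hs : ∀ j, HasCompactSupport (f j))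
    {h : Fin k → ℝ → ℝ} (hh : Scales h) (u : EuclideanSpace ℝ (Fin k)) :
    charFun (multivariateGaussian 0 (cM f h)) u = cexp (-((∑ i, ∑ j, u i * u j * cM f h i j : ℝ) : ℂ) / 2) := by
  rw [charFun_multivariateGaussian (cM_psd hC hf hs hh)]
  congr 1
  have : (u.ofLp ⬝ᵥ (cM f h).mulVec u.ofLp) = ∑ i, ∑ j, u i * u j * cM f h i j := by
    simp only [dotProduct, Matrix.mulVec, Finset.mul_sum]
    exact Finset.sum_congr rfl fun i _ => Finset.sum_congr rfl fun j _ => by ring
  rw [this]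
  simp
  ring

lemma inner_Xv {k : ℕ} {f : Fin k → ℝ → ℝ} {h : Fin k → ℝ → ℝ} {T t : ℝ} (hc : ∀ j, C2c (fun x => f j (x / h j T)))
    (u : EuclideanSpace ℝ (Fin k)) (hT : 3 ≤ T) (h1 : T ≤ t) (h2 : t ≤ 2 * T) :
    ⟪Xv f (fun j => h j T) T t, u⟫ = XF (cb f h u T) T t := by
  unfold cb
  rw [XF_lin hc _ hT h1 h2]
  simp only [PiLp.inner_apply, Xv]
  exact Finset.sum_congr rfl fun j _ => by simp

lemma main_ev (hM : S_MAIN) (hA : S_ADM) (hC : S_COV) {k : ℕ} {f : Fin k → ℝ → ℝ} (hf : ∀ j, ContDiff ℝ 2 (f j))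
    (hs : ∀ j, HasCompactSupport (f j)) {h : Fin k → ℝ → ℝ} (hh : Scales h) (u : Fin k → ℝ) :
    Tendsto (fun T : ℝ => (1 / T : ℂ) * (∫ t in T..(2 * T), cexp (I * (XF (cb f h u T) T t : ℂ)))) atTop
      (𝓝 (cexp (-((∑ i, ∑ j, u i * u j * cM f h i j : ℝ) : ℂ) / 2))) := by
  have h1 : Tendsto (fun T : ℝ => cexp (-((sg (cb f h u T) : ℝ) : ℂ) / 2)) atTop
      (𝓝 (cexp (-((∑ i, ∑ j, u i * u j * cM f h i j : ℝ) : ℂ) / 2))) := by
    refine (Complex.continuous_exp.tendsto _).comp ?_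
    exact (((Complex.continuous_ofReal.tendsto _).comp (sg_ev hC hf hs hh u)).neg).div_const 2
  obtain ⟨V, hV, hA⟩ := adm_ev hA hf hs hh u
  have h2 : Tendsto (fun T : ℝ => (1 / T : ℂ) * (∫ t in T..(2 * T), cexp (I * (XF (cb f h u T) T t : ℂ))) -
      cexp (-((sg (cb f h u T) : ℝ) : ℂ) / 2)) atTop (𝓝 0) := by
    rw [NormedAddGroup.tendsto_nhds_zero]
    intro ε hε
    obtain ⟨η, T0, hη, -, hT0, hM⟩ := hM V (ε / 2) hV (by positivity)
    filter_upwards [hA η hη, eventually_ge_atTop T0] with T hT1 hT2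
    have h3 := hT1 (fun _ => 1) (fun j => by simp)
    have h4 : (fun x => ∑ j, (1 : ℝ) * (u j * f j (x / h j T))) = cb f h u T := by
      funext x
      exact Finset.sum_congr rfl fun j _ => one_mul _
    rw [h4] at h3
    exact (hM T hT2 _ h3).trans_lt (by linarith)
  have h3 := h2.add h1
  rw [zero_add] at h3
  exact h3.congr fun T => by ring

end FINL

open FINL

/-- random height -/
theorem finA (hM : S_MAIN) (hA : S_ADM) (hC : S_COV) {k : ℕ} {f : Fin k → ℝ → ℝ} (hf : ∀ j, ContDiff ℝ 2 (f j))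
    (hs : ∀ j, HasCompactSupport (f j)) {h : Fin k → ℝ → ℝ} (hh : Scales h) (φ : EuclideanSpace ℝ (Fin k) →ᵇ ℝ) :
    Tendsto (fun T : ℝ => 1 / T * ∫ t in T..(2 * T), φ (Xv f (fun j => h j T) T t)) atTop
      (𝓝 (∫ x, φ x ∂(multivariateGaussian 0 (cM f h)))) := by
  classical
  set E := EuclideanSpace ℝ (Fin k)
  set μ : ℝ → Measure E := fun T => (ENNReal.ofReal T)⁻¹ •
    (volume.restrict (Ioc T (2 * T))).map (fun t => Xv f (fun j => h j T) T t) with hμ
  have hcont : ∀ᶠ T : ℝ in atTop, ContinuousOn (fun t => Xv f (fun j => h j T) T t) (Icc T (2 * T)) := by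
    filter_upwards [c2c_ev hf hs hh, eventually_ge_atTop (3 : ℝ)] with T h1 h2
    unfold Xv
    refine (PiLp.continuous_toLp 2 _).comp_continuousOn ?_
    rw [continuousOn_pi]
    exact fun j => XF_contOn (h1 j) h2
  have hmeas : ∀ᶠ T : ℝ in atTop, AEMeasurable (fun t => Xv f (fun j => h j T) T t) (volume.restrict (Ioc T (2 * T))) := by
    filter_upwards [hcont] with T h1
    exact (h1.mono Ioc_subset_Icc_self).aemeasurable measurableSet_Ioc
  have hp : ∀ᶠ T in atTop, IsProbabilityMeasure (μ T) := by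
    filter_upwards [hmeas, eventually_gt_atTop (0 : ℝ)] with T h1 h2
    constructor
    rw [hμ]
    simp only [Measure.smul_apply, smul_eq_mul]
    rw [Measure.map_apply_of_aemeasurable h1 MeasurableSet.univ, preimage_univ, Measure.restrict_apply_univ,
      Real.volume_Ioc, show 2 * T - T = T by ring]
    exact ENNReal.inv_mul_cancel (by simpa using h2) ENNReal.ofReal_ne_top
  have hint : ∀ᶠ T : ℝ in atTop, ∀ {G : Type} [NormedAddCommGroup G] [NormedSpace ℝ G] (g : E → G), Continuous g →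
      ∫ x, g x ∂(μ T) = (1 / T) • ∫ t in T..(2 * T), g (Xv f (fun j => h j T) T t) := by
    filter_upwards [hmeas, eventually_gt_atTop (0 : ℝ)] with T h1 h2 G _ _ g hg
    rw [hμ]
    simp only
    rw [integral_smul_measure, integral_map h1 hg.aestronglyMeasurable, intervalIntegral.integral_of_le (by linarith),
      ENNReal.toReal_inv, ENNReal.toReal_ofReal h2.le, one_div]
  have hchar : ∀ u, Tendsto (fun T => charFun (μ T) u) atTop (𝓝 (charFun (multivariateGaussian 0 (cM f h)) u)) := by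
    intro u
    rw [charG hC hf hs hh]
    refine (main_ev hM hA hC hf hs hh u).congr' ?_
    filter_upwards [hint, c2c_ev hf hs hh, eventually_ge_atTop (3 : ℝ)] with T h1 h2 h3
    rw [charFun_apply, h1 (fun x => cexp (⟪x, u⟫ * I)) (by fun_prop), Complex.real_smul]
    congr 1
    · push_cast; ring
    · apply intervalIntegral.integral_congr
      intro t ht
      rw [uIcc_of_le (by linarith)] at ht
      simp only
      rw [inner_Xv h2 u h3 ht.1 ht.2, mul_comm]
  have hw := weak hp hchar φ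
  refine hw.congr' ?_
  filter_upwards [hint] with T h1
  rw [h1 φ φ.continuous, smul_eq_mul]

end Pool.Agent.H203.ME
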