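import Pool.Agent.H203.ME.PVB

set_option autoImplicit false

open Complex Filter Topology Set MeasureTheory ProbabilityTheory

namespace Pool.Agent.H203.ME

namespace GENL

lemma JJ_abs (v : ℝ) : JJ v = JJ |v| := by
  unfold JJ
  congr 1
  funext θ
  rcases abs_choice v with h | h
  · rw [h]
  · rw [h, show 2 * Real.pi * (-v) * θ = -(2 * Real.pi * v * θ) by ring, Real.cos_neg]

/-- asymptotics of `JJ` -/
lemma JJ_lim (hJ : S_JB) {v V : ℕ → ℝ} {b : ℝ} (hV : Tendsto V atTop atTop) (hv : ∀ᶠ n in atTop, 0 ≤ v n)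
    (hb : Tendsto (fun n => Real.log (1 + v n) / V n) atTop (𝓝 b)) :
    Tendsto (fun n => JJ (v n) / V n) atTop (𝓝 b) := by
  obtain ⟨C, hC, h⟩ := hJ.2
  have h1 : Tendsto (fun n => (JJ (v n) - Real.log (1 + v n)) / V n) atTop (𝓝 0) := by
    have h2 : Tendsto (fun n => C / V n) atTop (𝓝 0) := hV.const_div_atTop _
    refine squeeze_zero_norm' ?_ h2
    filter_upwards [hv, hV.eventually_gt_atTop 0] with n h3 h4
    rw [norm_div, Real.norm_eq_abs, Real.norm_eq_abs, abs_of_pos h4]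
    gcongr
    exact h (v n) h3
  have h2 := h1.add hb
  rw [zero_add] at h2
  refine h2.congr fun n => ?_
  ring

lemma C2c_Pv {L v : ℝ} (hL : 0 < L) (hv : 0 ≤ v) (h : 2 * Real.pi * v / L + 1 / L ≤ 1) : C2c (Pv L v) := by
  have h1 : ContDiff ℝ 2 sst := PVBL.sst_cd.of_le (by norm_num)
  refine ⟨?_, fun x hx => ?_⟩
  · unfold Pv
    exact (h1.comp (contDiff_const.mul contDiff_id)).sub
      (h1.comp ((contDiff_const.mul contDiff_id).sub contDiff_const))
  · have h2 : 0 ≤ 2 * Real.pi * v / L := by positivity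
    have h3 : 0 < 1 / L := by positivity
    rcases le_abs.1 hx with h4 | h4
    · exact PVBL.Pv_zero_r hL hv (h.trans h4)
    · refine PVBL.Pv_zero_l hL hv ?_
      rw [neg_div]
      linarith

end GENL

open GENL

/-- (GEN) the characteristic function of combinations of smoothed counts, seen from a random zero. -/
theorem t_GEN (hZ : S_ZER) (hA : S_ADP) (hS : S_SGF) (hJ : S_JB) {k : ℕ} {T V : ℕ → ℝ} {v : Fin k → ℕ → ℝ}
    (c : Fin k → ℝ) {b0 : Fin k → ℝ} {b : Fin k → Fin k → ℝ} (hT : Tendsto T atTop atTop)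
    (hV : Tendsto V atTop atTop) (hv0 : ∀ j, ∀ᶠ n in atTop, 0 ≤ v j n)
    (hvL : ∀ j, Tendsto (fun n => v j n / Real.log (T n)) atTop (𝓝 0))
    (hb0 : ∀ j, Tendsto (fun n => Real.log (1 + v j n) / V n) atTop (𝓝 (b0 j)))
    (hb : ∀ i j, Tendsto (fun n => Real.log (1 + |v i n - v j n|) / V n) atTop (𝓝 (b i j))) :
    Tendsto (fun n => (∑ z ∈ H370.Zf riemannZeta (T n) (2 * T n), (mz z : ℂ) *
        cexp (I * ((∑ j, c j * (XF (Pv (Real.log (T n)) (v j n)) (T n) z.im / Real.sqrt (V n)) : ℝ) : ℂ))) /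
        (H370.NN riemannZeta (T n) (2 * T n) : ℂ)) atTop
      (𝓝 (cexp (-((1 / (2 * Real.pi ^ 2) * ∑ i, ∑ j, c i * c j * (b0 i + b0 j - b i j) : ℝ) : ℂ) / 2))) := by
  have hL : Tendsto (fun n => Real.log (T n)) atTop atTop := Real.tendsto_log_atTop.comp hT
  -- the function
  set F : ℕ → ℝ → ℝ := fun n x => ∑ j, c j / Real.sqrt (V n) * Pv (Real.log (T n)) (v j n) x with hF
  -- limit of the variances
  have hsg : Tendsto (fun n => sg (F n)) atTop
      (𝓝 (1 / (2 * Real.pi ^ 2) * ∑ i, ∑ j, c i * c j * (b0 i + b0 j - b i j))) := by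
    have h1 : Tendsto (fun n => 1 / (2 * Real.pi ^ 2) * ∑ i, ∑ j, c i * c j *
        (JJ (v i n) / V n + JJ (v j n) / V n - JJ |v i n - v j n| / V n)) atTop
        (𝓝 (1 / (2 * Real.pi ^ 2) * ∑ i, ∑ j, c i * c j * (b0 i + b0 j - b i j))) := by
      refine Tendsto.const_mul _ (tendsto_finsetSum _ fun i _ => tendsto_finsetSum _ fun j _ => ?_)
      refine Tendsto.const_mul _ (((JJ_lim hJ hV (hv0 i) (hb0 i)).add (JJ_lim hJ hV (hv0 j) (hb0 j))).sub ?_)
      exact JJ_lim hJ hV (Eventually.of_forall fun n => abs_nonneg _) (hb i j)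
    refine h1.congr' ?_
    filter_upwards [hL.eventually_gt_atTop 0, hV.eventually_gt_atTop 0] with n h2 h3
    rw [hF]
    simp only
    rw [hS k (Real.log (T n)) (fun j => v j n) (fun j => c j / Real.sqrt (V n)) h2]
    congr 1
    refine Finset.sum_congr rfl fun i _ => Finset.sum_congr rfl fun j _ => ?_
    rw [← JJ_abs (v i n - v j n)]
    have h4 : Real.sqrt (V n) * Real.sqrt (V n) = V n := Real.mul_self_sqrt h3.le
    have h5 : Real.sqrt (V n) ≠ 0 := (Real.sqrt_pos.2 h3).ne'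
    have h6 : c i / Real.sqrt (V n) * (c j / Real.sqrt (V n)) = c i * c j / V n := by
      rw [div_mul_div_comm, h4]
    rw [h6]
    ring
  have hexp : Tendsto (fun n => cexp (-((sg (F n) : ℝ) : ℂ) / 2)) atTop
      (𝓝 (cexp (-((1 / (2 * Real.pi ^ 2) * ∑ i, ∑ j, c i * c j * (b0 i + b0 j - b i j) : ℝ) : ℂ) / 2))) := by
    have h1 : Continuous fun x : ℝ => cexp (-(x : ℂ) / 2) := by fun_prop
    exact (h1.tendsto _).comp hsg
  -- the difference tends to zero
  refine (tendsto_iff_norm_sub_tendsto_zero.2 ?_)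
  have hdiff : Tendsto (fun n => ‖(∑ z ∈ H370.Zf riemannZeta (T n) (2 * T n), (mz z : ℂ) *
        cexp (I * ((∑ j, c j * (XF (Pv (Real.log (T n)) (v j n)) (T n) z.im / Real.sqrt (V n)) : ℝ) : ℂ))) /
        (H370.NN riemannZeta (T n) (2 * T n) : ℂ) - cexp (-((sg (F n) : ℝ) : ℂ) / 2)‖) atTop (𝓝 0) := by
    rw [Metric.tendsto_nhds]
    intro ε hε
    set B : ℝ := 1 + ∑ j, |c j| + ∑ j, (|b0 j| + 1) with hB
    have hB1 : 1 ≤ B := by
      have h1 : 0 ≤ ∑ j, |c j| := Finset.sum_nonneg fun j _ => abs_nonneg _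
      have h2 : 0 ≤ ∑ j, (|b0 j| + 1) := Finset.sum_nonneg fun j _ => by positivity
      rw [hB]; linarith
    obtain ⟨V0, hV0, hA⟩ := hA k B hB1
    obtain ⟨η, T0, hη, -, hT0, hZ⟩ := hZ V0 (ε / 16) hV0 (by positivity)
    obtain ⟨K, hK, hA⟩ := hA η hη
    obtain ⟨T1, hT1, hlow⟩ := FINL.nn_low
    have e1 : ∀ᶠ n in atTop, ∀ j, 0 ≤ v j n := by rw [eventually_all]; exact hv0
    have e2 : ∀ᶠ n in atTop, ∀ j, v j n / Real.log (T n) < min (1 / K) (1 / 16) := by
      rw [eventually_all]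
      exact fun j => (hvL j).eventually_lt_const (by positivity)
    have e3 : ∀ᶠ n in atTop, ∀ j, Real.log (1 + v j n) / V n < |b0 j| + 1 := by
      rw [eventually_all]
      exact fun j => (hb0 j).eventually_lt_const (by linarith [le_abs_self (b0 j)])
    filter_upwards [e1, e2, e3, hL.eventually_ge_atTop K, hV.eventually_ge_atTop K, hL.eventually_ge_atTop 16,
      hL.eventually_ge_atTop (1 / η ^ 2), hT.eventually_ge_atTop T0, hT.eventually_ge_atTop T1,
      hT.eventually_ge_atTop 16] with n a1 a2 a3 a4 a5 a6 a7 a8 a9 a10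
    have hL0 : 0 < Real.log (T n) := by linarith
    have hVp : 0 < V n := by linarith
    have hcj : ∀ j, 0 ≤ v j n ∧ v j n ≤ Real.log (T n) / K ∧ Real.log (1 + v j n) ≤ B * V n ∧ |c j| ≤ B := by
      intro j
      refine ⟨a1 j, ?_, ?_, ?_⟩
      · have := (a2 j).le.trans (min_le_left _ _)
        rw [div_le_iff₀ hL0] at this
        calc v j n ≤ 1 / K * Real.log (T n) := this
          _ = Real.log (T n) / K := by ring
      · have h1 := (a3 j).le
        rw [div_le_iff₀ hVp] at h1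
        refine h1.trans ?_
        apply mul_le_mul_of_nonneg_right _ hVp.le
        have h2 : |b0 j| + 1 ≤ ∑ j, (|b0 j| + 1) :=
          Finset.single_le_sum (f := fun j => |b0 j| + 1) (fun j _ => by positivity) (Finset.mem_univ j)
        have h3 : 0 ≤ ∑ j, |c j| := Finset.sum_nonneg fun j _ => abs_nonneg _
        rw [hB]; linarith
      · have h2 : |c j| ≤ ∑ j, |c j| :=
          Finset.single_le_sum (f := fun j => |c j|) (fun j _ => abs_nonneg _) (Finset.mem_univ j)
        have h3 : 0 ≤ ∑ j, (|b0 j| + 1) := Finset.sum_nonneg fun j _ => by positivity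
        rw [hB]; linarith
    obtain ⟨hA1, hA2⟩ := hA (Real.log (T n)) (V n) (fun j => v j n) c a4 a5 hcj
    have hz := hZ (T n) a8 (F n) (1 / (η * Real.log (T n))) (by positivity) (by
      rw [div_le_iff₀ (by positivity)]
      rw [div_le_iff₀ (by positivity)] at a7
      nlinarith) (by
      rw [div_mul_eq_mul_div, one_mul, ← mul_div_assoc, div_self (by positivity)]) hA1 hA2
    obtain ⟨hn1, hn2⟩ := hlow (T n) a9
    have hTL : 0 < T n * Real.log (T n) := by nlinarith
    have hN : 0 < (H370.NN riemannZeta (T n) (2 * T n) : ℝ) := by linarith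
    have hXF : ∀ z ∈ H370.Zf riemannZeta (T n) (2 * T n), XF (F n) (T n) z.im =
        ∑ j, c j * (XF (Pv (Real.log (T n)) (v j n)) (T n) z.im / Real.sqrt (V n)) := by
      intro z hz
      rw [H370.mem_Zf H370.good_zeta (by linarith)] at hz
      rw [hF]
      simp only
      rw [FINL.XF_lin (F := fun j => Pv (Real.log (T n)) (v j n)) (fun j => C2c_Pv hL0 (a1 j) (by
        have h1 := (a2 j).le.trans (min_le_right _ _)
        have h2 : 1 / Real.log (T n) ≤ 1 / 16 := one_div_le_one_div_of_le (by norm_num) a6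
        have h3 : 2 * Real.pi * v j n / Real.log (T n) = 2 * Real.pi * (v j n / Real.log (T n)) := by ring
        rw [h3]
        have h4 := Real.pi_lt_d2
        have h5 : 0 ≤ v j n / Real.log (T n) := div_nonneg (a1 j) hL0.le
        nlinarith)) (fun j => c j / Real.sqrt (V n)) (by linarith) hz.2.2.1.le hz.2.2.2.1]
      exact Finset.sum_congr rfl fun j _ => by ring
    have hsum : (∑ z ∈ H370.Zf riemannZeta (T n) (2 * T n), (mz z : ℂ) *
        cexp (I * ((∑ j, c j * (XF (Pv (Real.log (T n)) (v j n)) (T n) z.im / Real.sqrt (V n)) : ℝ) : ℂ))) =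
        ∑ z ∈ H370.Zf riemannZeta (T n) (2 * T n), (mz z : ℂ) * cexp (I * (XF (F n) (T n) z.im : ℂ)) :=
      Finset.sum_congr rfl fun z hz => by rw [hXF z hz]
    rw [dist_zero_right, norm_norm, hsum]
    have hNc : (H370.NN riemannZeta (T n) (2 * T n) : ℂ) ≠ 0 := by
      have : (H370.NN riemannZeta (T n) (2 * T n) : ℝ) ≠ 0 := hN.ne'
      exact_mod_cast this
    have e5 : (∑ z ∈ H370.Zf riemannZeta (T n) (2 * T n), (mz z : ℂ) * cexp (I * (XF (F n) (T n) z.im : ℂ))) /
        (H370.NN riemannZeta (T n) (2 * T n) : ℂ) - cexp (-((sg (F n) : ℝ) : ℂ) / 2) =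
        ((∑ z ∈ H370.Zf riemannZeta (T n) (2 * T n), (mz z : ℂ) * cexp (I * (XF (F n) (T n) z.im : ℂ))) -
          (H370.NN riemannZeta (T n) (2 * T n) : ℂ) * cexp (-((sg (F n) : ℝ) : ℂ) / 2)) /
          (H370.NN riemannZeta (T n) (2 * T n) : ℂ) := by
      field_simp
    rw [e5, norm_div, div_lt_iff₀ (by rw [Complex.norm_natCast]; exact hN), Complex.norm_natCast]
    refine hz.trans_lt ?_
    nlinarith
  have hfin := hdiff.add (tendsto_iff_norm_sub_tendsto_zero.1 hexp)
  rw [add_zero] at hfin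
  refine squeeze_zero (fun n => norm_nonneg _) (fun n => ?_) hfin
  exact norm_sub_le_norm_sub_add_norm_sub _ _ _

end Pool.Agent.H203.ME
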