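import Pool.Agent.H203.ME.GEN

set_option autoImplicit false

open Complex Filter Topology Set MeasureTheory ProbabilityTheory
open scoped BoundedContinuousFunction

namespace Pool.Agent.H203.ME

namespace INVL

/-- the distribution of combinations of smoothed counts -/
lemma dist (hZ : S_ZER) (hA : S_ADP) (hS : S_SGF) (hJ : S_JB) (hL : S_LEV) {k : ℕ} {T V : ℕ → ℝ} {v : Fin k → ℕ → ℝ}
    (c : Fin k → ℝ) {b0 : Fin k → ℝ} {b : Fin k → Fin k → ℝ} (hT : Tendsto T atTop atTop)
    (hV : Tendsto V atTop atTop) (hv0 : ∀ j, ∀ᶠ n in atTop, 0 ≤ v j n)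
    (hvL : ∀ j, Tendsto (fun n => v j n / Real.log (T n)) atTop (𝓝 0))
    (hb0 : ∀ j, Tendsto (fun n => Real.log (1 + v j n) / V n) atTop (𝓝 (b0 j)))
    (hb : ∀ i j, Tendsto (fun n => Real.log (1 + |v i n - v j n|) / V n) atTop (𝓝 (b i j)))
    (s : NNReal) (hs : (s : ℝ) = 1 / (2 * Real.pi ^ 2) * ∑ i, ∑ j, c i * c j * (b0 i + b0 j - b i j))
    (φ : ℝ →ᵇ ℝ) :
    Tendsto (fun n => (∑ z ∈ H370.Zf riemannZeta (T n) (2 * T n), (mz z : ℝ) *
        φ (∑ j, c j * (XF (Pv (Real.log (T n)) (v j n)) (T n) z.im / Real.sqrt (V n)))) /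
        (H370.NN riemannZeta (T n) (2 * T n) : ℝ)) atTop (𝓝 (∫ x, φ x ∂(gaussianReal 0 s))) := by
  obtain ⟨T1, hT1, hlow⟩ := FINL.nn_low
  have hpos : ∀ᶠ n in atTop, 0 < (H370.NN riemannZeta (T n) (2 * T n) : ℝ) ∧ 1 ≤ T n := by
    filter_upwards [hT.eventually_ge_atTop T1] with n hn
    obtain ⟨h1, h2⟩ := hlow (T n) hn
    refine ⟨?_, by linarith⟩
    have : 0 < T n * Real.log (T n) := by nlinarith
    linarith
  have h := hL (fun n => H370.Zf riemannZeta (T n) (2 * T n))
    (fun n z => (mz z : ℝ) / (H370.NN riemannZeta (T n) (2 * T n) : ℝ))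
    (fun n z => ∑ j, c j * (XF (Pv (Real.log (T n)) (v j n)) (T n) z.im / Real.sqrt (V n))) s
    (fun n z => by positivity) (by
      filter_upwards [hpos] with n hn
      rw [← Finset.sum_div, div_eq_one_iff_eq hn.1.ne', H370.NN_eq H370.good_zeta hn.2]
      push_cast
      rfl) (fun x => by
      have h1 := t_GEN hZ hA hS hJ (fun j => x * c j) hT hV hv0 hvL hb0 hb
      have e1 : (1 / (2 * Real.pi ^ 2) * ∑ i, ∑ j, x * c i * (x * c j) * (b0 i + b0 j - b i j) : ℝ) =
          x ^ 2 * (s : ℝ) := by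
        rw [hs]
        simp only [Finset.mul_sum]
        refine Finset.sum_congr rfl fun i _ => Finset.sum_congr rfl fun j _ => ?_
        ring
      rw [e1] at h1
      refine h1.congr fun n => ?_
      rw [Finset.sum_div]
      refine Finset.sum_congr rfl fun z _ => ?_
      have e2 : (∑ j, x * c j * (XF (Pv (Real.log (T n)) (v j n)) (T n) z.im / Real.sqrt (V n)) : ℝ) =
          x * ∑ j, c j * (XF (Pv (Real.log (T n)) (v j n)) (T n) z.im / Real.sqrt (V n)) := by
        rw [Finset.mul_sum]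
        exact Finset.sum_congr rfl fun j _ => by ring
      rw [e2]
      push_cast
      ring) φ
  refine h.congr fun n => ?_
  rw [Finset.sum_div]
  exact Finset.sum_congr rfl fun z _ => by ring

lemma log_sqrt_div {V : ℕ → ℝ} (hV : Tendsto V atTop atTop) (c : ℝ) (hc : 0 ≤ c) :
    Tendsto (fun n => Real.log (1 + c * Real.sqrt (V n)) / V n) atTop (𝓝 0) := by
  have h1 : Tendsto (fun n => c / Real.sqrt (V n)) atTop (𝓝 0) :=
    (Real.tendsto_sqrt_atTop.comp hV).const_div_atTop c
  refine squeeze_zero' ?_ ?_ h1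
  · filter_upwards [hV.eventually_gt_atTop 0] with n hn
    have : 0 ≤ c * Real.sqrt (V n) := by positivity
    exact div_nonneg (Real.log_nonneg (by linarith)) hn.le
  · filter_upwards [hV.eventually_gt_atTop 0] with n hn
    have h2 : 0 < Real.sqrt (V n) := Real.sqrt_pos.2 hn
    have h3 : 0 ≤ c * Real.sqrt (V n) := by positivity
    have h4 : Real.log (1 + c * Real.sqrt (V n)) ≤ c * Real.sqrt (V n) := by
      have := Real.log_le_sub_one_of_pos (show 0 < 1 + c * Real.sqrt (V n) by linarith)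
      linarith
    have h5 : Real.sqrt (V n) * Real.sqrt (V n) = V n := Real.mul_self_sqrt hn.le
    rw [div_le_div_iff₀ hn h2]
    calc Real.log (1 + c * Real.sqrt (V n)) * Real.sqrt (V n) ≤ c * Real.sqrt (V n) * Real.sqrt (V n) := by gcongr
      _ = c * V n := by rw [mul_assoc, h5]

/-- changing a parameter by `O(√V)` does not change the limit -/
lemma log_close {V v w : ℕ → ℝ} {a c : ℝ} (hV : Tendsto V atTop atTop) (hc : 0 ≤ c) (hv : ∀ᶠ n in atTop, 0 ≤ v n)
    (hw : ∀ᶠ n in atTop, 0 ≤ w n) (h : ∀ᶠ n in atTop, |v n - w n| ≤ c * Real.sqrt (V n))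
    (hlim : Tendsto (fun n => Real.log (1 + w n) / V n) atTop (𝓝 a)) :
    Tendsto (fun n => Real.log (1 + v n) / V n) atTop (𝓝 a) := by
  have h1 : Tendsto (fun n => (Real.log (1 + v n) - Real.log (1 + w n)) / V n) atTop (𝓝 0) := by
    refine squeeze_zero_norm' ?_ (log_sqrt_div hV c hc)
    filter_upwards [hv, hw, h, hV.eventually_gt_atTop 0] with n a1 a2 a3 a4
    rw [norm_div, Real.norm_eq_abs, Real.norm_eq_abs, abs_of_pos a4]
    apply div_le_div_of_nonneg_right _ a4.le
    have hs : 0 ≤ c * Real.sqrt (V n) := by positivity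
    rw [abs_le] at a3
    have b1 : Real.log (1 + v n) ≤ Real.log (1 + w n) + Real.log (1 + c * Real.sqrt (V n)) := by
      rw [← Real.log_mul (by positivity) (by positivity)]
      apply Real.log_le_log (by linarith)
      nlinarith
    have b2 : Real.log (1 + w n) ≤ Real.log (1 + v n) + Real.log (1 + c * Real.sqrt (V n)) := by
      rw [← Real.log_mul (by positivity) (by positivity)]
      apply Real.log_le_log (by linarith)
      nlinarith
    rw [abs_le]
    constructor <;> linarith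
  have h2 := h1.add hlim
  rw [zero_add] at h2
  refine h2.congr fun n => ?_
  ring

/-- the error function -/
noncomputable def Er (L v t : ℝ) : ℝ :=
  (H370.NN riemannZeta (t - 2 / L) (t + 2 / L) : ℝ) +
    (H370.NN riemannZeta (t + 2 * Real.pi * v / L - 2 / L) (t + 2 * Real.pi * v / L + 2 / L) : ℝ)

lemma Er_avg (hW : S_WIN) {T V v : ℕ → ℝ} (hT : Tendsto T atTop atTop)
    (hV : Tendsto V atTop atTop) (hv0 : ∀ᶠ n in atTop, 0 ≤ v n)
    (hvL : Tendsto (fun n => v n / Real.log (T n)) atTop (𝓝 0)) :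
    Tendsto (fun n => (∑ z ∈ H370.Zf riemannZeta (T n) (2 * T n), (mz z : ℝ) *
      (Er (Real.log (T n)) (v n) z.im / Real.sqrt (V n))) / (H370.NN riemannZeta (T n) (2 * T n) : ℝ)) atTop (𝓝 0) := by
  obtain ⟨C, T0, hC, hT0, hW⟩ := hW
  obtain ⟨T1, hT1, hlow⟩ := FINL.nn_low
  have hlim : Tendsto (fun n => 16 * C / Real.sqrt (V n)) atTop (𝓝 0) :=
    (Real.tendsto_sqrt_atTop.comp hV).const_div_atTop (16 * C)
  refine squeeze_zero' (Eventually.of_forall fun n => ?_) ?_ hlim
  · refine div_nonneg (Finset.sum_nonneg fun z _ => ?_) (by positivity)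
    unfold Er
    positivity
  · filter_upwards [hT.eventually_ge_atTop T0, hT.eventually_ge_atTop T1, hV.eventually_gt_atTop 0, hv0,
      hvL.eventually_lt_const (show (0 : ℝ) < 1 / 10 by norm_num)] with n a1 a2 a3 a4 a5
    obtain ⟨hn1, hn2⟩ := hlow (T n) a2
    have hL0 : 0 < Real.log (T n) := by linarith
    have hTL : 0 < T n * Real.log (T n) := mul_pos (by linarith) hL0
    have hN : 0 < (H370.NN riemannZeta (T n) (2 * T n) : ℝ) := by linarith
    have hs : 0 < Real.sqrt (V n) := Real.sqrt_pos.2 a3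
    have h1 := hW (T n) a1 0 le_rfl zero_le_one
    have h2 := hW (T n) a1 (2 * Real.pi * v n / Real.log (T n)) (by positivity) (by
      have h3 : 2 * Real.pi * v n / Real.log (T n) = 2 * Real.pi * (v n / Real.log (T n)) := by ring
      rw [h3]
      have h4 := Real.pi_lt_d2
      have h5 : 0 ≤ v n / Real.log (T n) := div_nonneg a4 hL0.le
      nlinarith)
    have e1 : (∑ z ∈ H370.Zf riemannZeta (T n) (2 * T n), (mz z : ℝ) *
        (Er (Real.log (T n)) (v n) z.im / Real.sqrt (V n))) =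
        ((∑ z ∈ H370.Zf riemannZeta (T n) (2 * T n), (mz z : ℝ) *
          (H370.NN riemannZeta (z.im + 0 - 2 / Real.log (T n)) (z.im + 0 + 2 / Real.log (T n)) : ℝ)) +
        ∑ z ∈ H370.Zf riemannZeta (T n) (2 * T n), (mz z : ℝ) *
          (H370.NN riemannZeta (z.im + 2 * Real.pi * v n / Real.log (T n) - 2 / Real.log (T n))
            (z.im + 2 * Real.pi * v n / Real.log (T n) + 2 / Real.log (T n)) : ℝ)) / Real.sqrt (V n) := by
      rw [← Finset.sum_add_distrib, Finset.sum_div]
      refine Finset.sum_congr rfl fun z _ => ?_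
      unfold Er
      rw [add_zero]
      ring
    rw [e1, div_div, div_le_div_iff₀ (by positivity) hs]
    have h6 : (∑ z ∈ H370.Zf riemannZeta (T n) (2 * T n), (mz z : ℝ) *
          (H370.NN riemannZeta (z.im + 0 - 2 / Real.log (T n)) (z.im + 0 + 2 / Real.log (T n)) : ℝ)) +
        ∑ z ∈ H370.Zf riemannZeta (T n) (2 * T n), (mz z : ℝ) *
          (H370.NN riemannZeta (z.im + 2 * Real.pi * v n / Real.log (T n) - 2 / Real.log (T n))
            (z.im + 2 * Real.pi * v n / Real.log (T n) + 2 / Real.log (T n)) : ℝ) ≤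
        2 * (C * (T n * Real.log (T n))) := by linarith
    have h7 : T n * Real.log (T n) ≤ 8 * (H370.NN riemannZeta (T n) (2 * T n) : ℝ) := by linarith
    have h8 : 2 * (C * (T n * Real.log (T n))) ≤ 16 * C * (H370.NN riemannZeta (T n) (2 * T n) : ℝ) := by nlinarith
    have h9 := h6.trans h8
    calc _ ≤ 16 * C * (H370.NN riemannZeta (T n) (2 * T n) : ℝ) * Real.sqrt (V n) := by gcongr
      _ = 16 * C * (Real.sqrt (V n) * (H370.NN riemannZeta (T n) (2 * T n) : ℝ)) := by ring

/-- the test function `min 1 |x/M|` -/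
noncomputable def mn (M : ℝ) (hM : 0 < M) : ℝ →ᵇ ℝ :=
  BoundedContinuousFunction.ofNormedAddCommGroup (fun x : ℝ => min 1 (|x| / M))
    (continuous_const.min (continuous_abs.div_const M)) 1 (fun x => by
      rw [Real.norm_eq_abs, abs_of_nonneg (le_min zero_le_one (by positivity))]
      exact min_le_left _ _)

lemma mn_apply (M : ℝ) (hM : 0 < M) (x : ℝ) : mn M hM x = min 1 (|x| / M) := rfl

/-- differences of two smoothed counts whose parameters differ by `O(√V)` -/
lemma diff_avg (hZ : S_ZER) (hA : S_ADP) (hS : S_SGF) (hJ : S_JB) (hL : S_LEV) {T V v w : ℕ → ℝ} {a0 c : ℝ}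
    (hT : Tendsto T atTop atTop) (hV : Tendsto V atTop atTop) (hc : 0 ≤ c) (hv : ∀ᶠ n in atTop, 0 ≤ v n)
    (hw : ∀ᶠ n in atTop, 0 ≤ w n) (h : ∀ᶠ n in atTop, |v n - w n| ≤ c * Real.sqrt (V n))
    (hvL : Tendsto (fun n => v n / Real.log (T n)) atTop (𝓝 0))
    (hwL : Tendsto (fun n => w n / Real.log (T n)) atTop (𝓝 0))
    (hlim : Tendsto (fun n => Real.log (1 + w n) / V n) atTop (𝓝 a0)) (M : ℝ) (hM : 0 < M) :
    Tendsto (fun n => (∑ z ∈ H370.Zf riemannZeta (T n) (2 * T n), (mz z : ℝ) *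
        min 1 (|XF (Pv (Real.log (T n)) (v n)) (T n) z.im - XF (Pv (Real.log (T n)) (w n)) (T n) z.im| /
          (M * Real.sqrt (V n)))) / (H370.NN riemannZeta (T n) (2 * T n) : ℝ)) atTop (𝓝 0) := by
  have hlv := log_close hV hc hv hw h hlim
  have hz : Tendsto (fun n => Real.log (1 + |v n - w n|) / V n) atTop (𝓝 0) :=
    log_close (w := fun _ => 0) hV hc (Eventually.of_forall fun n => abs_nonneg _)
      (Eventually.of_forall fun n => le_rfl) (by
        filter_upwards [h] with n hn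
        rwa [sub_zero, abs_abs]) (by simp)
  have hz2 : Tendsto (fun n => Real.log (1 + |w n - v n|) / V n) atTop (𝓝 0) := by
    refine hz.congr fun n => ?_
    rw [abs_sub_comm]
  have hself : ∀ y : ℕ → ℝ, Tendsto (fun n => Real.log (1 + |y n - y n|) / V n) atTop (𝓝 0) := by
    intro y
    simp
  have h1 := dist hZ hA hS hJ hL (k := 2) (T := T) (V := V) (v := ![v, w]) ![1, -1] (b0 := ![a0, a0])
    (b := fun _ _ => 0) hT hV
    (by intro j; fin_cases j; exacts [hv, hw])
    (by intro j; fin_cases j; exacts [hvL, hwL])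
    (by intro j; fin_cases j; exacts [hlv, hlim])
    (by
      intro i j
      fin_cases i <;> fin_cases j
      · exact hself v
      · exact hz
      · exact hz2
      · exact hself w)
    0 (by simp) (mn M hM)
  rw [gaussianReal_zero_var, integral_dirac, mn_apply, abs_zero, zero_div, min_eq_right zero_le_one] at h1
  refine h1.congr' ?_
  filter_upwards [hV.eventually_gt_atTop 0] with n hn
  have hs : 0 < Real.sqrt (V n) := Real.sqrt_pos.2 hn
  congr 1
  refine Finset.sum_congr rfl fun z _ => ?_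
  rw [mn_apply]
  congr 2
  simp only [Fin.sum_univ_two, Matrix.cons_val_zero, Matrix.cons_val_one]
  rw [one_mul, neg_one_mul, ← sub_eq_add_neg, ← sub_div, abs_div, abs_of_pos hs, div_div, mul_comm (Real.sqrt (V n)) M]

/-- tightness -/
lemma tight (hZ : S_ZER) (hA : S_ADP) (hS : S_SGF) (hJ : S_JB) (hL : S_LEV) {T V w : ℕ → ℝ} {a0 : ℝ}
    (hT : Tendsto T atTop atTop) (hV : Tendsto V atTop atTop)
    (hw : ∀ᶠ n in atTop, 0 ≤ w n) (hwL : Tendsto (fun n => w n / Real.log (T n)) atTop (𝓝 0))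
    (hlim : Tendsto (fun n => Real.log (1 + w n) / V n) atTop (𝓝 a0)) {ε : ℝ} (hε : 0 < ε) :
    ∃ M0 : ℝ, 0 < M0 ∧ ∀ M : ℝ, M0 ≤ M → ∀ᶠ n in atTop, (∑ z ∈ H370.Zf riemannZeta (T n) (2 * T n), (mz z : ℝ) *
        min 1 (|XF (Pv (Real.log (T n)) (w n)) (T n) z.im| /
          (M * Real.sqrt (V n)))) / (H370.NN riemannZeta (T n) (2 * T n) : ℝ) < ε := by
  have ha0 : 0 ≤ a0 := by
    refine ge_of_tendsto hlim ?_
    filter_upwards [hw, hV.eventually_gt_atTop 0] with n h1 h2
    exact div_nonneg (Real.log_nonneg (by linarith)) h2.le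
  obtain ⟨s, hs⟩ : ∃ s : NNReal, (s : ℝ) = a0 / Real.pi ^ 2 := ⟨⟨a0 / Real.pi ^ 2, by positivity⟩, rfl⟩
  have hint : Integrable (fun x : ℝ => |x|) (gaussianReal 0 s) := by
    have := (memLp_id_gaussianReal (μ := 0) (v := s) 1).integrable (by norm_num)
    simpa using this.abs
  set A : ℝ := ∫ x : ℝ, |x| ∂(gaussianReal 0 s) with hAd
  have hA0 : 0 ≤ A := integral_nonneg fun x => abs_nonneg x
  refine ⟨(A + 1) / ε, by positivity, fun M hM => ?_⟩
  have hM0 : 0 < M := lt_of_lt_of_le (by positivity) hM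
  have h1 := dist hZ hA hS hJ hL (k := 1) (T := T) (V := V) (v := ![w]) ![1] (b0 := ![a0])
    (b := fun _ _ => 0) hT hV
    (by intro j; fin_cases j; exact hw)
    (by intro j; fin_cases j; exact hwL)
    (by intro j; fin_cases j; exact hlim)
    (by
      intro i j
      fin_cases i; fin_cases j
      simp)
    s (by
      rw [hs]
      simp only [Fin.sum_univ_one, Matrix.cons_val_zero]
      ring) (mn M hM0)
  have h2 : (∫ x, mn M hM0 x ∂(gaussianReal 0 s)) < ε := by
    have h3 : (∫ x, mn M hM0 x ∂(gaussianReal 0 s)) ≤ ∫ x, |x| / M ∂(gaussianReal 0 s) := by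
      apply integral_mono ((mn M hM0).integrable _) (hint.div_const M)
      intro x
      exact min_le_right _ _
    rw [integral_div] at h3
    refine h3.trans_lt ?_
    rw [div_lt_iff₀ hM0]
    rw [div_le_iff₀ hε] at hM
    linarith
  filter_upwards [h1.eventually_lt_const h2, hV.eventually_gt_atTop 0] with n hn hn2
  have hs : 0 < Real.sqrt (V n) := Real.sqrt_pos.2 hn2
  refine lt_of_eq_of_lt ?_ hn
  congr 1
  refine Finset.sum_congr rfl fun z _ => ?_
  rw [mn_apply]
  congr 2
  simp only [Fin.sum_univ_one, Matrix.cons_val_zero]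
  rw [one_mul, abs_div, abs_of_pos hs, div_div, mul_comm (Real.sqrt (V n)) M]

end INVL

end Pool.Agent.H203.ME
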