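import Pool.Agent.H203.ME.INV

set_option autoImplicit false

open Complex Filter Topology Set MeasureTheory ProbabilityTheory
open scoped BoundedContinuousFunction

namespace Pool.Agent.H203.ME

namespace INVL

lemma idx_real (hI : S_IDX) {T : ℝ} (hT : 1 ≤ T) (g : ℝ → ℝ) :
    ∑ n ∈ Finset.Ioc (SG.NZ T) (SG.NZ (2 * T)), g (SG.ord n) =
      ∑ z ∈ H370.Zf riemannZeta T (2 * T), (mz z : ℝ) * g z.im := by
  have h := hI.2.1 T hT (fun t => (g t : ℂ))
  exact_mod_cast h

/-- the normalised and centred sum of `u` gaps -/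
noncomputable def Dn (T V : ℝ) (u n : ℕ) : ℝ :=
  ((SG.ord (n + u) - SG.ord n) * Real.log T / (2 * Real.pi) - u) / Real.sqrt V

/-- (INV) the inversion in probability -/
theorem inv_prob (hZ : S_ZER) (hA : S_ADP) (hS : S_SGF) (hJ : S_JB) (hL : S_LEV) (hW : S_WIN) (hC : S_CN)
    (hI : S_IDX) (hD : S_IND) {T V : ℕ → ℝ} {u : ℕ → ℕ} {a0 : ℝ}
    (hT : Tendsto T atTop atTop) (hV : Tendsto V atTop atTop)
    (hVL : Tendsto (fun n => V n / Real.log (T n)) atTop (𝓝 0))
    (hu : Tendsto (fun n => (u n : ℝ) / Real.log (T n)) atTop (𝓝 0))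
    (hlim : Tendsto (fun n => Real.log (1 + u n) / V n) atTop (𝓝 a0)) :
    Tendsto (fun N => (∑ n ∈ Finset.Ioc (SG.NZ (T N)) (SG.NZ (2 * T N)),
      min 1 |Dn (T N) (V N) (u N) n + XF (Pv (Real.log (T N)) (u N)) (T N) (SG.ord n) / Real.sqrt (V N)|) /
        (H370.NN riemannZeta (T N) (2 * T N) : ℝ)) atTop (𝓝 0) := by
  obtain ⟨T1, hT1, hlow⟩ := FINL.nn_low
  obtain ⟨T2, hT2, hCN⟩ := hC
  have hLt : Tendsto (fun n => Real.log (T n)) atTop atTop := Real.tendsto_log_atTop.comp hT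
  rw [Metric.tendsto_nhds]
  intro δ hδ
  set ε : ℝ := δ / 20 with hε
  have hε0 : 0 < ε := by positivity
  obtain ⟨M0, hM0, htight⟩ := tight hZ hA hS hJ hL hT hV (w := fun n => (u n : ℝ))
    (Eventually.of_forall fun n => Nat.cast_nonneg _) hu hlim (show 0 < δ / 8 by positivity)
  obtain ⟨q, hq8, hqM⟩ : ∃ q : ℕ, 8 ≤ q ∧ M0 ≤ q * ε / 2 := by
    refine ⟨max 8 ⌈2 * M0 / ε⌉₊, le_max_left _ _, ?_⟩
    have h1 : 2 * M0 / ε ≤ (max 8 ⌈2 * M0 / ε⌉₊ : ℕ) :=
      (Nat.le_ceil _).trans (by exact_mod_cast le_max_right _ _)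
    rw [div_le_iff₀ hε0] at h1
    linarith
  have hqp : (0 : ℝ) < q := by
    have : 0 < q := by omega
    exact_mod_cast this
  -- the parameters
  set w : ℤ → ℕ → ℝ := fun j n => max 0 ((u n : ℝ) + j * ε * Real.sqrt (V n)) with hw
  have hw0 : ∀ j n, 0 ≤ w j n := fun j n => le_max_left _ _
  have hwu : ∀ j n, |w j n - u n| ≤ |(j : ℝ)| * ε * Real.sqrt (V n) := by
    intro j n
    have h1 : |(j : ℝ)| * ε * Real.sqrt (V n) = |(j : ℝ) * ε * Real.sqrt (V n)| := by
      rw [abs_mul, abs_mul, abs_of_pos hε0, abs_of_nonneg (Real.sqrt_nonneg _)]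
    rw [h1]
    have hu0 : (0 : ℝ) ≤ u n := Nat.cast_nonneg _
    simp only [hw]
    rcases le_total 0 ((u n : ℝ) + j * ε * Real.sqrt (V n)) with h2 | h2
    · rw [max_eq_right h2]
      rw [show (u n : ℝ) + j * ε * Real.sqrt (V n) - u n = j * ε * Real.sqrt (V n) by ring]
    · rw [max_eq_left h2, zero_sub, abs_neg, abs_of_nonneg hu0]
      rw [abs_of_nonpos (by linarith)]
      linarith
  have hsq : Tendsto (fun n => Real.sqrt (V n) / Real.log (T n)) atTop (𝓝 0) := by
    refine squeeze_zero' ?_ ?_ hVL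
    · filter_upwards [hLt.eventually_gt_atTop 0] with n hn
      positivity
    · filter_upwards [hLt.eventually_gt_atTop 0, hV.eventually_ge_atTop 1] with n hn h1
      gcongr
      rw [Real.sqrt_le_left (by linarith)]
      nlinarith
  have hwL : ∀ j, Tendsto (fun n => w j n / Real.log (T n)) atTop (𝓝 0) := by
    intro j
    have h1 : Tendsto (fun n => (u n : ℝ) / Real.log (T n) + |(j : ℝ)| * ε * (Real.sqrt (V n) / Real.log (T n)))
        atTop (𝓝 (0 + |(j : ℝ)| * ε * 0)) := hu.add (hsq.const_mul _)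
    rw [mul_zero, add_zero] at h1
    refine squeeze_zero' ?_ ?_ h1
    · filter_upwards [hLt.eventually_gt_atTop 0] with n hn
      exact div_nonneg (hw0 j n) hn.le
    · filter_upwards [hLt.eventually_gt_atTop 0] with n hn
      have h2 := (abs_le.1 (hwu j n)).2
      rw [← mul_div_assoc, ← add_div]
      gcongr
      linarith
  -- the three kinds of errors
  have hdiff : ∀ j : ℤ, ∀ᶠ n in atTop, (∑ z ∈ H370.Zf riemannZeta (T n) (2 * T n), (mz z : ℝ) *
        min 1 (|XF (Pv (Real.log (T n)) (w j n)) (T n) z.im - XF (Pv (Real.log (T n)) (u n)) (T n) z.im| /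
          (ε * Real.sqrt (V n)))) / (H370.NN riemannZeta (T n) (2 * T n) : ℝ) < δ / (8 * (2 * q + 1)) := by
    intro j
    exact (diff_avg hZ hA hS hJ hL hT hV (c := |(j : ℝ)| * ε) (by positivity)
      (Eventually.of_forall fun n => hw0 j n) (w := fun n => (u n : ℝ))
      (Eventually.of_forall fun n => Nat.cast_nonneg _) (Eventually.of_forall fun n => hwu j n) (hwL j) hu
      hlim ε hε0).eventually_lt_const (by positivity)
  have herr : ∀ j : ℤ, ∀ᶠ n in atTop, (∑ z ∈ H370.Zf riemannZeta (T n) (2 * T n), (mz z : ℝ) *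
      (Er (Real.log (T n)) (w j n) z.im / Real.sqrt (V n))) / (H370.NN riemannZeta (T n) (2 * T n) : ℝ) <
        ε * (δ / (8 * (2 * q + 1))) := by
    intro j
    exact (Er_avg hW hT hV (Eventually.of_forall fun n => hw0 j n) (hwL j)).eventually_lt_const (by positivity)
  have herr0 : ∀ᶠ n in atTop, (∑ z ∈ H370.Zf riemannZeta (T n) (2 * T n), (mz z : ℝ) *
      (Er (Real.log (T n)) 0 z.im / Real.sqrt (V n))) / (H370.NN riemannZeta (T n) (2 * T n) : ℝ) <
        ε * (δ / 8) := by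
    refine (Er_avg hW (v := fun _ => 0) hT hV (Eventually.of_forall fun n => le_rfl) ?_).eventually_lt_const
      (by positivity)
    simp
  have hdiff' : ∀ᶠ n in atTop, ∀ j ∈ Finset.Icc (-(q : ℤ)) q,
      (∑ z ∈ H370.Zf riemannZeta (T n) (2 * T n), (mz z : ℝ) *
        min 1 (|XF (Pv (Real.log (T n)) (w j n)) (T n) z.im - XF (Pv (Real.log (T n)) (u n)) (T n) z.im| /
          (ε * Real.sqrt (V n)))) / (H370.NN riemannZeta (T n) (2 * T n) : ℝ) < δ / (8 * (2 * q + 1)) := by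
    rw [Filter.eventually_all_finset]
    exact fun j _ => hdiff j
  have herr' : ∀ᶠ n in atTop, ∀ j ∈ Finset.Icc (-(q : ℤ)) q,
      (∑ z ∈ H370.Zf riemannZeta (T n) (2 * T n), (mz z : ℝ) *
      (Er (Real.log (T n)) (w j n) z.im / Real.sqrt (V n))) / (H370.NN riemannZeta (T n) (2 * T n) : ℝ) <
        ε * (δ / (8 * (2 * q + 1))) := by
    rw [Filter.eventually_all_finset]
    exact fun j _ => herr j
  filter_upwards [htight (q * ε / 2) hqM, hdiff', herr', herr0, hT.eventually_ge_atTop T1,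
    hT.eventually_ge_atTop T2, hLt.eventually_ge_atTop 16, hV.eventually_ge_atTop 1, hT.eventually_ge_atTop 16]
    with N b1 b2 b3 b4 b5 b6 b7 b8 b9
  obtain ⟨hn1, hn2⟩ := hlow (T N) b5
  have hL0 : 0 < Real.log (T N) := by linarith
  have hTL : 0 < T N * Real.log (T N) := mul_pos (by linarith) hL0
  have hN : 0 < (H370.NN riemannZeta (T N) (2 * T N) : ℝ) := by linarith
  have hVp : 0 < V N := by linarith
  have hs : 0 < Real.sqrt (V N) := Real.sqrt_pos.2 hVp
  have h2L : 2 / Real.log (T N) ≤ 1 / 8 := by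
    rw [div_le_div_iff₀ hL0 (by norm_num)]
    linarith
  -- pointwise
  set L := Real.log (T N) with hLdef
  set G : ℝ → ℝ := fun t => 5 * ε + min 1 (|XF (Pv L (u N)) (T N) t| / (q * ε / 2 * Real.sqrt (V N))) +
    (∑ j ∈ Finset.Icc (-(q : ℤ)) q, (min 1 (|XF (Pv L (w j N)) (T N) t - XF (Pv L (u N)) (T N) t| /
      (ε * Real.sqrt (V N))) + Er L (w j N) t / (ε * Real.sqrt (V N)))) +
    Er L 0 t / (ε * Real.sqrt (V N)) with hG
  have hpt : ∀ n ∈ Finset.Ioc (SG.NZ (T N)) (SG.NZ (2 * T N)),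
      min 1 |Dn (T N) (V N) (u N) n + XF (Pv L (u N)) (T N) (SG.ord n) / Real.sqrt (V N)| ≤ G (SG.ord n) := by
    intro n hn
    rw [Finset.mem_Ioc] at hn
    have hn1 : 1 ≤ n := by omega
    have ho1 : T N < SG.ord n := by
      by_contra hc
      push Not at hc
      have := (SG.ord_le_iff hn1 (T N)).1 hc
      omega
    have ho2 : SG.ord n ≤ 2 * T N := (SG.ord_le_iff hn1 _).2 hn.2
    have key := hD n (u N) q L (V N) ε (fun v => XF (Pv L v) (T N) (SG.ord n)) (fun v => Er L v (SG.ord n))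
      hn1 hq8 hL0 hVp hε0 (by
        intro v hv
        have h1 := hCN (T N) b6 v (SG.ord n) hv ho1.le ho2
        have h2 : SG.NZ (SG.ord n + 2 * Real.pi * v / L) = SG.NZ (SG.ord n) +
            H370.NN riemannZeta (SG.ord n) (SG.ord n + 2 * Real.pi * v / L) :=
          hI.1 _ _ (by linarith) (by
            have : 0 ≤ 2 * Real.pi * v / L := by positivity
            linarith)
        have h3 : ((SG.NZ (SG.ord n + 2 * Real.pi * v / L) : ℝ) - SG.NZ (SG.ord n) - v) =
            (H370.NN riemannZeta (SG.ord n) (SG.ord n + 2 * Real.pi * v / L) : ℝ) - v := by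
          rw [h2]
          push_cast
          ring
        rw [h3]
        exact h1)
    refine key.trans ?_
    rw [hG]
    simp only
    have e1 : 2 * |XF (Pv L (u N)) (T N) (SG.ord n)| / (q * ε * Real.sqrt (V N)) =
        |XF (Pv L (u N)) (T N) (SG.ord n)| / (q * ε / 2 * Real.sqrt (V N)) := by
      field_simp
    have e2 : ((SG.NZ (SG.ord n) : ℝ) - n) / (ε * Real.sqrt (V N)) ≤ Er L 0 (SG.ord n) / (ε * Real.sqrt (V N)) := by
      apply div_le_div_of_nonneg_right _ (by positivity)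
      have h1 := hI.2.2 n hn1 (SG.ord n - 2 / L) (by linarith) (by
        have : 0 < 2 / L := by positivity
        linarith)
      have h2 : H370.NN riemannZeta (SG.ord n - 2 / L) (SG.ord n) ≤
          H370.NN riemannZeta (SG.ord n - 2 / L) (SG.ord n + 2 / L) :=
        H370.NN_mono H370.good_zeta (by linarith) le_rfl (by
          have : 0 < 2 / L := by positivity
          linarith)
      have h3 : (SG.NZ (SG.ord n) : ℝ) ≤ n + H370.NN riemannZeta (SG.ord n - 2 / L) (SG.ord n + 2 / L) := by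
        exact_mod_cast h1.trans (Nat.add_le_add_left h2 n)
      unfold Er
      have h4 : (0 : ℝ) ≤ (H370.NN riemannZeta (SG.ord n + 2 * Real.pi * 0 / L - 2 / L)
        (SG.ord n + 2 * Real.pi * 0 / L + 2 / L) : ℝ) := Nat.cast_nonneg _
      linarith
    rw [e1]
    gcongr
  have hsum : (∑ n ∈ Finset.Ioc (SG.NZ (T N)) (SG.NZ (2 * T N)),
      min 1 |Dn (T N) (V N) (u N) n + XF (Pv L (u N)) (T N) (SG.ord n) / Real.sqrt (V N)|) ≤
      ∑ z ∈ H370.Zf riemannZeta (T N) (2 * T N), (mz z : ℝ) * G z.im := by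
    rw [← idx_real hI (by linarith) G]
    exact Finset.sum_le_sum hpt
  have hmass : ∑ z ∈ H370.Zf riemannZeta (T N) (2 * T N), (mz z : ℝ) =
      (H370.NN riemannZeta (T N) (2 * T N) : ℝ) := by
    rw [H370.NN_eq H370.good_zeta (by linarith)]
    push_cast
    rfl
  have hexp : ∑ z ∈ H370.Zf riemannZeta (T N) (2 * T N), (mz z : ℝ) * G z.im =
      5 * ε * (H370.NN riemannZeta (T N) (2 * T N) : ℝ) +
      (∑ z ∈ H370.Zf riemannZeta (T N) (2 * T N), (mz z : ℝ) *
        min 1 (|XF (Pv L (u N)) (T N) z.im| / (q * ε / 2 * Real.sqrt (V N)))) +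
      (∑ j ∈ Finset.Icc (-(q : ℤ)) q, ((∑ z ∈ H370.Zf riemannZeta (T N) (2 * T N), (mz z : ℝ) *
        min 1 (|XF (Pv L (w j N)) (T N) z.im - XF (Pv L (u N)) (T N) z.im| / (ε * Real.sqrt (V N)))) +
        (∑ z ∈ H370.Zf riemannZeta (T N) (2 * T N), (mz z : ℝ) * (Er L (w j N) z.im / Real.sqrt (V N))) / ε)) +
      (∑ z ∈ H370.Zf riemannZeta (T N) (2 * T N), (mz z : ℝ) * (Er L 0 z.im / Real.sqrt (V N))) / ε := by
    have e1 : ∀ z ∈ H370.Zf riemannZeta (T N) (2 * T N), (mz z : ℝ) * G z.im =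
        (mz z : ℝ) * (5 * ε) + (mz z : ℝ) * min 1 (|XF (Pv L (u N)) (T N) z.im| / (q * ε / 2 * Real.sqrt (V N))) +
        (∑ j ∈ Finset.Icc (-(q : ℤ)) q, ((mz z : ℝ) *
          min 1 (|XF (Pv L (w j N)) (T N) z.im - XF (Pv L (u N)) (T N) z.im| / (ε * Real.sqrt (V N))) +
          (mz z : ℝ) * (Er L (w j N) z.im / Real.sqrt (V N)) / ε)) +
        (mz z : ℝ) * (Er L 0 z.im / Real.sqrt (V N)) / ε := by
      intro z _
      rw [hG]
      simp only
      rw [mul_add, mul_add, mul_add, Finset.mul_sum]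
      congr 1
      · congr 1
        refine Finset.sum_congr rfl fun j _ => ?_
        field_simp
      · field_simp
    rw [Finset.sum_congr rfl e1, Finset.sum_add_distrib, Finset.sum_add_distrib, Finset.sum_add_distrib, Finset.sum_comm,
      ← hmass]
    congr 1
    · congr 1
      · congr 1
        rw [Finset.mul_sum]
        exact Finset.sum_congr rfl fun z _ => by ring
      · refine Finset.sum_congr rfl fun j _ => ?_
        rw [Finset.sum_add_distrib, Finset.sum_div]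
    · rw [Finset.sum_div]
  have c1 := b1
  rw [div_lt_iff₀ hN] at c1 b4
  have c2 : ∑ j ∈ Finset.Icc (-(q : ℤ)) q, ((∑ z ∈ H370.Zf riemannZeta (T N) (2 * T N), (mz z : ℝ) *
        min 1 (|XF (Pv L (w j N)) (T N) z.im - XF (Pv L (u N)) (T N) z.im| / (ε * Real.sqrt (V N)))) +
        (∑ z ∈ H370.Zf riemannZeta (T N) (2 * T N), (mz z : ℝ) * (Er L (w j N) z.im / Real.sqrt (V N))) / ε) ≤
      ∑ j ∈ Finset.Icc (-(q : ℤ)) q, 2 * (δ / (8 * (2 * q + 1)) * (H370.NN riemannZeta (T N) (2 * T N) : ℝ)) := by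
    refine Finset.sum_le_sum fun j hj => ?_
    have d1 := b2 j hj
    have d2 := b3 j hj
    rw [div_lt_iff₀ hN] at d1 d2
    have d3 : (∑ z ∈ H370.Zf riemannZeta (T N) (2 * T N), (mz z : ℝ) * (Er L (w j N) z.im / Real.sqrt (V N))) / ε ≤
        δ / (8 * (2 * q + 1)) * (H370.NN riemannZeta (T N) (2 * T N) : ℝ) := by
      rw [div_le_iff₀ hε0]
      calc _ ≤ ε * (δ / (8 * (2 * q + 1))) * (H370.NN riemannZeta (T N) (2 * T N) : ℝ) := d2.le
        _ = _ := by ring
    linarith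
  have c3 : ∑ j ∈ Finset.Icc (-(q : ℤ)) q, 2 * (δ / (8 * (2 * q + 1)) * (H370.NN riemannZeta (T N) (2 * T N) : ℝ)) =
      δ / 4 * (H370.NN riemannZeta (T N) (2 * T N) : ℝ) := by
    rw [Finset.sum_const, Int.card_Icc, nsmul_eq_mul]
    have : ((((q : ℤ) + 1 - -(q : ℤ)).toNat : ℕ) : ℝ) = 2 * q + 1 := by
      have h1 : ((q : ℤ) + 1 - -(q : ℤ)).toNat = 2 * q + 1 := by omega
      rw [h1]
      push_cast
      ring
    rw [this]
    field_simp
    ring
  have c4 : (∑ z ∈ H370.Zf riemannZeta (T N) (2 * T N), (mz z : ℝ) * (Er L 0 z.im / Real.sqrt (V N))) / ε ≤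
      δ / 8 * (H370.NN riemannZeta (T N) (2 * T N) : ℝ) := by
    rw [div_le_iff₀ hε0]
    calc _ ≤ ε * (δ / 8) * (H370.NN riemannZeta (T N) (2 * T N) : ℝ) := b4.le
      _ = _ := by ring
  rw [Real.dist_eq, sub_zero, abs_of_nonneg (div_nonneg (Finset.sum_nonneg fun n _ => by positivity) hN.le),
    div_lt_iff₀ hN]
  refine hsum.trans_lt ?_
  rw [hexp]
  have c5 : 5 * ε = δ / 4 := by rw [hε]; ring
  rw [c5]
  rw [c3] at c2
  nlinarith

end INVL

end Pool.Agent.H203.ME
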