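import Pool.Agent.H203.ME.Defs

set_option autoImplicit false

open Complex Filter Topology Set MeasureTheory

namespace Pool.Agent.H203.ME

namespace KERL

/-- one integration by parts against an exponential -/
lemma ibp (f f' : ℝ → ℂ) (hf : ∀ w : ℝ, HasDerivAt f (f' w) w) (hf' : Continuous f')
    (h1 : f 1 = 0) (h2 : f (-1) = 0) (ζ : ℂ) :
    (I * ζ) * ∫ w in (-1 : ℝ)..1, f w * cexp (I * ζ * w) =
      -∫ w in (-1 : ℝ)..1, f' w * cexp (I * ζ * w) := by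
  have hcont : Continuous f := continuous_iff_continuousAt.2 fun w => (hf w).continuousAt
  have hd : ∀ w ∈ uIcc (-1 : ℝ) 1, HasDerivAt (fun w : ℝ => f w * cexp (I * ζ * w))
      (f' w * cexp (I * ζ * w) + f w * (cexp (I * ζ * w) * (I * ζ))) w := by
    intro w _
    have he : HasDerivAt (fun w : ℝ => cexp (I * ζ * w)) (cexp (I * ζ * w) * (I * ζ)) w := by
      have h3 : HasDerivAt (fun w : ℝ => I * ζ * (w : ℂ)) (I * ζ) w := by
        have := (Complex.ofRealCLM.hasDerivAt (x := w)).const_mul (I * ζ)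
        simpa using this
      exact h3.cexp
    exact (hf w).mul he
  have hi1 : IntervalIntegrable (fun w : ℝ => f' w * cexp (I * ζ * w)) volume (-1) 1 := by
    apply Continuous.intervalIntegrable
    fun_prop
  have hi2 : IntervalIntegrable (fun w : ℝ => f w * (cexp (I * ζ * w) * (I * ζ))) volume (-1) 1 := by
    apply Continuous.intervalIntegrable
    fun_prop
  have h4 := intervalIntegral.integral_eq_sub_of_hasDerivAt hd (hi1.add hi2)
  rw [intervalIntegral.integral_add hi1 hi2] at h4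
  rw [h1, h2] at h4
  have h5 : ∫ w in (-1 : ℝ)..1, f w * (cexp (I * ζ * w) * (I * ζ)) =
      (I * ζ) * ∫ w in (-1 : ℝ)..1, f w * cexp (I * ζ * w) := by
    rw [← intervalIntegral.integral_const_mul]
    congr 1
    ext w
    ring
  rw [h5] at h4
  linear_combination h4

/-- trivial bound of the integral -/
lemma triv (f : ℝ → ℂ) (B : ℝ) (hB : ∀ w ∈ Set.Icc (-1 : ℝ) 1, ‖f w‖ ≤ B) (ζ : ℂ) :
    ‖∫ w in (-1 : ℝ)..1, f w * cexp (I * ζ * w)‖ ≤ 2 * B * Real.exp |ζ.im| := by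
  have h0 : 0 ≤ B := (norm_nonneg _).trans (hB 0 (by constructor <;> norm_num))
  have h : ∀ w ∈ Set.uIoc (-1 : ℝ) 1, ‖f w * cexp (I * ζ * w)‖ ≤ B * Real.exp |ζ.im| := by
    intro w hw
    rw [Set.uIoc_of_le (by norm_num)] at hw
    have hw1 : |w| ≤ 1 := abs_le.2 ⟨hw.1.le, hw.2⟩
    rw [norm_mul]
    apply mul_le_mul (hB w ⟨hw.1.le, hw.2⟩) _ (norm_nonneg _) h0
    rw [Complex.norm_exp]
    apply Real.exp_le_exp.2
    have h3 : (I * ζ * (w : ℂ)).re = -(ζ.im * w) := by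
      simp [Complex.mul_re, Complex.mul_im]
    rw [h3]
    calc -(ζ.im * w) ≤ |ζ.im * w| := neg_le_abs _
      _ = |ζ.im| * |w| := abs_mul _ _
      _ ≤ |ζ.im| * 1 := mul_le_mul_of_nonneg_left hw1 (abs_nonneg _)
      _ = |ζ.im| := mul_one _
  have h2 := intervalIntegral.norm_integral_le_of_norm_le_const h
  calc ‖∫ w in (-1 : ℝ)..1, f w * cexp (I * ζ * w)‖ ≤ B * Real.exp |ζ.im| * |1 - (-1)| := h2
    _ = 2 * B * Real.exp |ζ.im| := by norm_num; ring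

def p0 (w : ℝ) : ℝ := (1 - w ^ 2) ^ 5
def p1 (w : ℝ) : ℝ := -10 * w * (1 - w ^ 2) ^ 4
def p2 (w : ℝ) : ℝ := (1 - w ^ 2) ^ 3 * (90 * w ^ 2 - 10)
def p3 (w : ℝ) : ℝ := (1 - w ^ 2) ^ 2 * (240 * w - 720 * w ^ 3)
def p4 (w : ℝ) : ℝ := (1 - w ^ 2) * (240 - 3360 * w ^ 2 + 5040 * w ^ 4)

lemma hb (w : ℝ) : HasDerivAt (fun w : ℝ => 1 - w ^ 2) (-(2 * w)) w := by
  have := (hasDerivAt_pow 2 w).const_sub 1
  simpa using this

lemma d0 (w : ℝ) : HasDerivAt p0 (p1 w) w := by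
  refine ((hb w).pow 5).congr_deriv ?_
  unfold p1; push_cast; ring

lemma d1 (w : ℝ) : HasDerivAt p1 (p2 w) w := by
  refine (((hasDerivAt_id' w).const_mul (-10)).mul ((hb w).pow 4)).congr_deriv ?_
  simp only [p2, Pi.pow_apply]; push_cast; ring

lemma d2 (w : ℝ) : HasDerivAt p2 (p3 w) w := by
  refine (((hb w).pow 3).mul (((hasDerivAt_pow 2 w).const_mul 90).sub_const 10)).congr_deriv ?_
  simp only [p3, Pi.pow_apply]; push_cast; ring

lemma d3 (w : ℝ) : HasDerivAt p3 (p4 w) w := by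
  refine (((hb w).pow 2).mul
    (((hasDerivAt_id' w).const_mul 240).sub ((hasDerivAt_pow 3 w).const_mul 720))).congr_deriv ?_
  simp only [p4, Pi.pow_apply, Pi.sub_apply]; push_cast; ring

/-- four integrations by parts -/
lemma four (ζ : ℂ) : ζ ^ 4 * ∫ w in (-1 : ℝ)..1, ((p0 w : ℝ) : ℂ) * cexp (I * ζ * w) =
    ∫ w in (-1 : ℝ)..1, ((p4 w : ℝ) : ℂ) * cexp (I * ζ * w) := by
  have e0 := ibp (fun w => ((p0 w : ℝ) : ℂ)) (fun w => ((p1 w : ℝ) : ℂ))
    (fun w => (d0 w).ofReal_comp) (by unfold p1; fun_prop) (by simp [p0]) (by simp [p0]) ζ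
  have e1 := ibp (fun w => ((p1 w : ℝ) : ℂ)) (fun w => ((p2 w : ℝ) : ℂ))
    (fun w => (d1 w).ofReal_comp) (by unfold p2; fun_prop) (by simp [p1]) (by simp [p1]) ζ
  have e2 := ibp (fun w => ((p2 w : ℝ) : ℂ)) (fun w => ((p3 w : ℝ) : ℂ))
    (fun w => (d2 w).ofReal_comp) (by unfold p3; fun_prop) (by simp [p2]) (by simp [p2]) ζ
  have e3 := ibp (fun w => ((p3 w : ℝ) : ℂ)) (fun w => ((p4 w : ℝ) : ℂ))
    (fun w => (d3 w).ofReal_comp) (by unfold p4; fun_prop) (by simp [p3]) (by simp [p3]) ζ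
  have hI : (I : ℂ) ^ 4 = 1 := Complex.I_pow_four
  have : ζ ^ 4 * ∫ w in (-1 : ℝ)..1, ((p0 w : ℝ) : ℂ) * cexp (I * ζ * w) =
      (I * ζ) * ((I * ζ) * ((I * ζ) * ((I * ζ) *
        ∫ w in (-1 : ℝ)..1, ((p0 w : ℝ) : ℂ) * cexp (I * ζ * w)))) := by
    calc ζ ^ 4 * ∫ w in (-1 : ℝ)..1, ((p0 w : ℝ) : ℂ) * cexp (I * ζ * w)
        = I ^ 4 * ζ ^ 4 * ∫ w in (-1 : ℝ)..1, ((p0 w : ℝ) : ℂ) * cexp (I * ζ * w) := by
          rw [hI, one_mul]
      _ = _ := by ring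
  rw [this, e0, mul_neg, e1, neg_neg, e2, mul_neg, e3, neg_neg]

lemma Jbound (ζ : ℂ) : ‖∫ w in (-1 : ℝ)..1, ((p0 w : ℝ) : ℂ) * cexp (I * ζ * w)‖ * (1 + ‖ζ‖ ^ 4) ≤
    17282 * Real.exp |ζ.im| := by
  have b0 : ∀ w ∈ Set.Icc (-1 : ℝ) 1, ‖((p0 w : ℝ) : ℂ)‖ ≤ 1 := by
    intro w hw
    rw [Complex.norm_real, Real.norm_eq_abs]
    have h1 : 0 ≤ 1 - w ^ 2 := by nlinarith [hw.1, hw.2]
    have h2 : 1 - w ^ 2 ≤ 1 := by nlinarith [sq_nonneg w]
    unfold p0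
    rw [abs_of_nonneg (by positivity)]
    exact pow_le_one₀ h1 h2
  have b4 : ∀ w ∈ Set.Icc (-1 : ℝ) 1, ‖((p4 w : ℝ) : ℂ)‖ ≤ 8640 := by
    intro w hw
    rw [Complex.norm_real, Real.norm_eq_abs]
    have h0 : 0 ≤ w ^ 2 := sq_nonneg w
    have h1 : w ^ 2 ≤ 1 := by nlinarith [hw.1, hw.2]
    have h4 : w ^ 4 ≤ 1 := by nlinarith
    have h40 : 0 ≤ w ^ 4 := by positivity
    unfold p4
    rw [abs_mul]
    have a1 : |1 - w ^ 2| ≤ 1 := by rw [abs_le]; constructor <;> linarith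
    have a2 : |240 - 3360 * w ^ 2 + 5040 * w ^ 4| ≤ 8640 := by
      rw [abs_le]; constructor <;> linarith
    calc |1 - w ^ 2| * |240 - 3360 * w ^ 2 + 5040 * w ^ 4| ≤ 1 * 8640 :=
          mul_le_mul a1 a2 (abs_nonneg _) (by norm_num)
      _ = 8640 := by norm_num
  have t0 := triv _ 1 b0 ζ
  have t4 := triv _ 8640 b4 ζ
  rw [← four, norm_mul, norm_pow] at t4
  linarith

end KERL

theorem t_KER : S_KER := by
  refine ⟨17282, by norm_num, ?_⟩
  intro R x y hR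
  have hR0 : (0 : ℝ) < R := by linarith
  set z : ℂ := (x : ℂ) + (y : ℂ) * I with hz
  have hzre : z.re = x := by simp [hz]
  have hzim : z.im = y := by simp [hz]
  -- substitution
  have hsub : (∫ u in (-R)..R, (gR R u : ℂ) * cexp (I * u * z)) =
      (R : ℂ) * (((1 / (2 * Real.pi) : ℝ) : ℂ) *
        ∫ w in (-1 : ℝ)..1, ((KERL.p0 w : ℝ) : ℂ) * cexp (I * (R * z) * w)) := by
    have h1 := intervalIntegral.integral_comp_mul_left
      (a := -1) (b := 1) (fun u : ℝ => (gR R u : ℂ) * cexp (I * u * z)) (c := R) hR0.ne'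
    rw [mul_neg, mul_one] at h1
    have h2 : (∫ w in (-1 : ℝ)..1, (gR R (R * w) : ℂ) * cexp (I * ((R * w : ℝ) : ℂ) * z)) =
        ((1 / (2 * Real.pi) : ℝ) : ℂ) *
        ∫ w in (-1 : ℝ)..1, ((KERL.p0 w : ℝ) : ℂ) * cexp (I * (R * z) * w) := by
      rw [← intervalIntegral.integral_const_mul]
      congr 1
      ext w
      have h3 : gR R (R * w) = 1 / (2 * Real.pi) * KERL.p0 w := by
        unfold gR KERL.p0
        rw [mul_div_cancel_left₀ _ hR0.ne']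
      rw [h3]
      push_cast
      have h4 : I * ((R : ℂ) * (w : ℂ)) * z = I * ((R : ℂ) * z) * (w : ℂ) := by ring
      rw [h4]
      ring
    rw [h2] at h1
    rw [h1, Complex.real_smul]
    push_cast
    rw [← mul_assoc, mul_inv_cancel₀ (by exact_mod_cast hR0.ne'), one_mul]
  have hJ := KERL.Jbound ((R : ℂ) * z)
  set J := ∫ w in (-1 : ℝ)..1, ((KERL.p0 w : ℝ) : ℂ) * cexp (I * (R * z) * w) with hJdef
  have him : ((R : ℂ) * z).im = R * y := by
    rw [Complex.im_ofReal_mul, hzim]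
  have hnz : R * |x| ≤ ‖(R : ℂ) * z‖ := by
    rw [norm_mul, Complex.norm_real, Real.norm_of_nonneg hR0.le]
    apply mul_le_mul_of_nonneg_left _ hR0.le
    rw [← hzre]
    exact Complex.abs_re_le_norm z
  have hpow : (R * x) ^ 4 ≤ ‖(R : ℂ) * z‖ ^ 4 := by
    calc (R * x) ^ 4 = (R * |x|) ^ 4 := by
          rw [mul_pow, mul_pow]
          congr 1
          rw [show (4 : ℕ) = 2 * 2 by norm_num, pow_mul, pow_mul, sq_abs]
      _ ≤ ‖(R : ℂ) * z‖ ^ 4 := pow_le_pow_left₀ (by positivity) hnz 4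
  have hden : (0 : ℝ) < 1 + (R * x) ^ 4 := by positivity
  have hJ2 : ‖J‖ ≤ 17282 * Real.exp (R * |y|) / (1 + (R * x) ^ 4) := by
    rw [le_div_iff₀ hden]
    calc ‖J‖ * (1 + (R * x) ^ 4) ≤ ‖J‖ * (1 + ‖(R : ℂ) * z‖ ^ 4) :=
          mul_le_mul_of_nonneg_left (by linarith) (norm_nonneg _)
      _ ≤ 17282 * Real.exp |((R : ℂ) * z).im| := hJ
      _ = 17282 * Real.exp (R * |y|) := by rw [him, abs_mul, abs_of_pos hR0]
  have hexp : ‖cexp (-z ^ 2 / 2)‖ ≤ Real.exp (y ^ 2 / 2) := by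
    rw [Complex.norm_exp]
    apply Real.exp_le_exp.2
    have : (-z ^ 2 / 2).re = (y ^ 2 - x ^ 2) / 2 := by
      rw [hz]
      have : -((x : ℂ) + (y : ℂ) * I) ^ 2 / 2 = (((y ^ 2 - x ^ 2) / 2 : ℝ) : ℂ) + ((-(x * y) : ℝ) : ℂ) * I := by
        push_cast
        have hI : (I : ℂ) ^ 2 = -1 := Complex.I_sq
        linear_combination (-(y : ℂ) ^ 2 / 2) * hI
      rw [this, Complex.add_re, Complex.ofReal_re, Complex.re_ofReal_mul, Complex.I_re, mul_zero,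
        add_zero]
    rw [this]
    nlinarith [sq_nonneg x]
  have hpi : 1 / (2 * Real.pi) ≤ 1 := by
    rw [div_le_one (by positivity)]
    linarith [Real.pi_gt_three]
  unfold WR
  rw [hsub, norm_mul, norm_mul, norm_mul, Complex.norm_real, Complex.norm_real,
    Real.norm_of_nonneg hR0.le, Real.norm_of_nonneg (by positivity)]
  calc R * (1 / (2 * Real.pi) * ‖J‖) * ‖cexp (-z ^ 2 / 2)‖
      ≤ R * (1 * (17282 * Real.exp (R * |y|) / (1 + (R * x) ^ 4))) * Real.exp (y ^ 2 / 2) := by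
        gcongr
    _ = 17282 * R * Real.exp (R * |y|) * Real.exp (y ^ 2 / 2) / (1 + (R * x) ^ 4) := by ring

end Pool.Agent.H203.ME
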