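import Pool.Agent.H203.ME.Defs4

set_option autoImplicit false

open Complex Filter Topology Set MeasureTheory ProbabilityTheory

namespace Pool.Agent.H203.ME

namespace PVBL

lemma sst_cd : ContDiff ℝ 5 sst := by
  unfold sst
  have h : ContDiff ℝ 5 Real.smoothTransition := Real.smoothTransition.contDiff
  exact h.comp ((contDiff_id.add contDiff_const).div_const 2)

lemma sst_zero {x : ℝ} (h : x ≤ -1) : sst x = 0 := by
  unfold sst
  exact Real.smoothTransition.zero_of_nonpos (by linarith)

lemma sst_one {x : ℝ} (h : 1 ≤ x) : sst x = 1 := by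
  unfold sst
  exact Real.smoothTransition.one_of_one_le (by linarith)

lemma sst_nonneg (x : ℝ) : 0 ≤ sst x := Real.smoothTransition.nonneg _

lemma sst_le_one (x : ℝ) : sst x ≤ 1 := Real.smoothTransition.le_one _

lemma st_mono : Monotone Real.smoothTransition := by
  have key : ∀ x y : ℝ, x ≤ y → expNegInvGlue x ≤ expNegInvGlue y := by
    intro x y h
    by_cases hx : x ≤ 0
    · rw [expNegInvGlue.zero_of_nonpos hx]
      exact expNegInvGlue.nonneg y
    · push Not at hx
      unfold expNegInvGlue
      rw [if_neg (by linarith), if_neg (by linarith)]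
      apply Real.exp_le_exp.2
      have := inv_anti₀ hx h
      linarith
  intro x y h
  unfold Real.smoothTransition
  have hx0 := expNegInvGlue.nonneg x
  have hy0 := expNegInvGlue.nonneg y
  have h1x0 := expNegInvGlue.nonneg (1 - x)
  have h1y0 := expNegInvGlue.nonneg (1 - y)
  have a1 := key x y h
  have a2 := key (1 - y) (1 - x) (by linarith)
  have d1 := Real.smoothTransition.pos_denom x
  have d2 := Real.smoothTransition.pos_denom y
  rw [div_le_div_iff₀ d1 d2]
  nlinarith

lemma sst_mono : Monotone sst := fun x y h => st_mono (by linarith)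

lemma deriv_zero {x : ℝ} (h : 1 ≤ |x|) : deriv sst x = 0 := by
  have hc : ContDiff ℝ 1 sst := sst_cd.of_le (by norm_num)
  have hcont : Continuous (deriv sst) := hc.continuous_deriv (by norm_num)
  rcases le_abs.1 h with h1 | h1
  · -- x ≥ 1
    have : ∀ y ∈ Ioi (1 : ℝ), deriv sst y = 0 := by
      intro y hy
      have he : sst =ᶠ[𝓝 y] fun _ => (1 : ℝ) := by
        filter_upwards [Ioi_mem_nhds hy] with z hz
        exact sst_one (le_of_lt hz)
      rw [he.deriv_eq]
      simp
    have hcl : x ∈ closure (Ioi (1 : ℝ)) := by rw [closure_Ioi]; exact h1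
    have := closure_minimal (s := Ioi (1 : ℝ)) (t := {y | deriv sst y = 0}) this
      (isClosed_eq hcont continuous_const) hcl
    exact this
  · have : ∀ y ∈ Iio (-1 : ℝ), deriv sst y = 0 := by
      intro y hy
      have he : sst =ᶠ[𝓝 y] fun _ => (0 : ℝ) := by
        filter_upwards [Iio_mem_nhds hy] with z hz
        exact sst_zero (le_of_lt hz)
      rw [he.deriv_eq]
      simp
    have hcl : x ∈ closure (Iio (-1 : ℝ)) := by
      rw [closure_Iio]
      show x ≤ -1
      linarith
    have := closure_minimal (s := Iio (-1 : ℝ)) (t := {y | deriv sst y = 0}) this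
      (isClosed_eq hcont continuous_const) hcl
    exact this

lemma Pv_zero_l {L v x : ℝ} (hL : 0 < L) (hv : 0 ≤ v) (hx : x ≤ -1 / L) : Pv L v x = 0 := by
  unfold Pv
  have h1 : L * x ≤ -1 := by
    rw [le_div_iff₀ hL] at hx
    linarith
  have h2 : 0 ≤ 2 * Real.pi * v := by positivity
  rw [sst_zero h1, sst_zero (by linarith), sub_zero]

lemma Pv_zero_r {L v x : ℝ} (hL : 0 < L) (hv : 0 ≤ v) (hx : 2 * Real.pi * v / L + 1 / L ≤ x) : Pv L v x = 0 := by
  unfold Pv
  have h1 : 2 * Real.pi * v + 1 ≤ L * x := by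
    rw [← add_div, div_le_iff₀ hL] at hx
    linarith
  have h2 : 0 ≤ 2 * Real.pi * v := by positivity
  rw [sst_one (by linarith), sst_one (by linarith), sub_self]

lemma Pv_one {L v x : ℝ} (hL : 0 < L) (h1 : 1 / L ≤ x) (h2 : x ≤ 2 * Real.pi * v / L - 1 / L) :
    Pv L v x = 1 := by
  unfold Pv
  have a1 : 1 ≤ L * x := by
    rw [div_le_iff₀ hL] at h1
    linarith
  have a2 : L * x - 2 * Real.pi * v ≤ -1 := by
    rw [← sub_div, le_div_iff₀ hL] at h2
    linarith
  rw [sst_one a1, sst_zero a2, sub_zero]

lemma Pv_range {L v x : ℝ} (hv : 0 ≤ v) : 0 ≤ Pv L v x ∧ Pv L v x ≤ 1 := by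
  unfold Pv
  have h2 : 0 ≤ 2 * Real.pi * v := by positivity
  have h3 := sst_mono (show L * x - 2 * Real.pi * v ≤ L * x by linarith)
  have h4 := sst_le_one (L * x)
  have h5 := sst_nonneg (L * x - 2 * Real.pi * v)
  constructor <;> linarith

lemma int_sst (a b : ℝ) (ha : 1 ≤ a) (hb : 1 ≤ b) (c : ℝ) (hc : 0 ≤ c) :
    ∫ y in (-a)..(b + c), (sst y - sst (y - c)) = c := by
  have hcont : Continuous sst := sst_cd.continuous
  have i1 : ∀ p q : ℝ, IntervalIntegrable sst volume p q := fun p q => hcont.intervalIntegrable p q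
  have i2 : ∀ p q : ℝ, IntervalIntegrable (fun y => sst (y - c)) volume p q := fun p q =>
    (hcont.comp (continuous_id.sub continuous_const)).intervalIntegrable p q
  rw [intervalIntegral.integral_sub (i1 _ _) (i2 _ _)]
  rw [intervalIntegral.integral_comp_sub_right (fun y => sst y) c]
  have e1 : b + c - c = b := by ring
  rw [e1]
  have e2 : (∫ x in (-a)..(b + c), sst x) = (∫ x in (-a)..b, sst x) + ∫ x in b..(b + c), sst x :=
    (intervalIntegral.integral_add_adjacent_intervals (i1 _ _) (i1 _ _)).symm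
  have e3 : (∫ x in (-a - c)..b, sst x) = (∫ x in (-a - c)..(-a), sst x) + ∫ x in (-a)..b, sst x :=
    (intervalIntegral.integral_add_adjacent_intervals (i1 _ _) (i1 _ _)).symm
  have e4 : (∫ x in b..(b + c), sst x) = c := by
    have : (∫ x in b..(b + c), sst x) = ∫ x in b..(b + c), (1 : ℝ) := by
      apply intervalIntegral.integral_congr
      intro x hx
      rw [uIcc_of_le (by linarith)] at hx
      exact sst_one (hb.trans hx.1)
    rw [this]
    simp
  have e5 : (∫ x in (-a - c)..(-a), sst x) = 0 := by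
    have : (∫ x in (-a - c)..(-a), sst x) = ∫ x in (-a - c)..(-a), (0 : ℝ) := by
      apply intervalIntegral.integral_congr
      intro x hx
      rw [uIcc_of_le (by linarith)] at hx
      exact sst_zero (by linarith [hx.2])
    rw [this]
    simp
  rw [e2, e3, e4, e5]
  ring

lemma int_Pv {L v : ℝ} (hL : 0 < L) (hv : 0 ≤ v) : ∫ x : ℝ, Pv L v x = 2 * Real.pi * v / L := by
  have h2 : 0 ≤ 2 * Real.pi * v := by positivity
  have e1 : (fun x : ℝ => Pv L v x) = fun x => (fun y => sst y - sst (y - 2 * Real.pi * v)) (L * x) := by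
    funext x
    rfl
  rw [e1, Measure.integral_comp_mul_left (fun y => sst y - sst (y - 2 * Real.pi * v)) L]
  have e2 : (∫ y : ℝ, (sst y - sst (y - 2 * Real.pi * v))) = 2 * Real.pi * v := by
    refine Eq.trans ?_ (int_sst 1 1 le_rfl le_rfl (2 * Real.pi * v) h2)
    symm
    apply intervalIntegral.integral_eq_integral_of_support_subset
    intro y hy
    rw [Function.mem_support] at hy
    constructor
    · by_contra hc
      push Not at hc
      apply hy
      rw [sst_zero hc, sst_zero (by linarith), sub_zero]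
    · by_contra hc
      push Not at hc
      apply hy
      rw [sst_one (by linarith), sst_one (by linarith), sub_self]
  rw [e2, abs_of_pos (inv_pos.2 hL), smul_eq_mul]
  field_simp

lemma int_deriv : ∫ x : ℝ, deriv sst x = 1 := by
  have hc : ContDiff ℝ 1 sst := sst_cd.of_le (by norm_num)
  have hcont : Continuous (deriv sst) := hc.continuous_deriv (by norm_num)
  have h1 : ∫ x in (-1 : ℝ)..1, deriv sst x = sst 1 - sst (-1) :=
    intervalIntegral.integral_deriv_eq_sub (fun x _ => (sst_cd.differentiable (by norm_num)).differentiableAt)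
      (hcont.intervalIntegrable _ _)
  rw [sst_one le_rfl, sst_zero le_rfl, sub_zero] at h1
  rw [← h1, ← intervalIntegral.integral_eq_integral_of_support_subset]
  intro x hx
  rw [Function.mem_support] at hx
  have h2 : ¬ 1 ≤ |x| := fun h => hx (deriv_zero h)
  push Not at h2
  rw [abs_lt] at h2
  exact ⟨h2.1, h2.2.le⟩

end PVBL

open PVBL

theorem t_PVB : S_PVB :=
  ⟨sst_cd, fun x => ⟨sst_nonneg x, sst_le_one x⟩, fun _ h => sst_zero h, fun _ h => sst_one h, sst_mono,
    fun _ _ _ _ hv => Pv_range hv, fun _ _ _ hL hv h => Pv_zero_l hL hv h, fun _ _ _ hL hv h => Pv_zero_r hL hv h,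
    fun _ _ _ hL _ h1 h2 => Pv_one hL h1 h2, fun _ _ hL hv => int_Pv hL hv, int_deriv, fun _ h => deriv_zero h⟩

end Pool.Agent.H203.ME
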